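import Pool.Agent.Q75.BwG

set_option autoImplicit false

/-!
Topology of the plane: compact connected sets around `0` in domains surrounding `0`.
-/

open Filter Topology Metric Set

namespace Pool.Agent.Q75.Ap

/-- a compact subset of a connected open set is contained in a compact connected subset -/
theorem exists_compact_conn {W K : Set ℂ} (hWo : IsOpen W) (hWc : IsPreconnected W)
    (hK : IsCompact K) (hKW : K ⊆ W) {x0 : ℂ} (hx0 : x0 ∈ W) :
    ∃ E : Set ℂ, IsCompact E ∧ IsConnected E ∧ K ⊆ E ∧ E ⊆ W ∧ x0 ∈ E := by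
  have hpc : IsPathConnected W := hWo.isConnected_iff_isPathConnected.1 ⟨⟨x0, hx0⟩, hWc⟩
  refine hK.induction_on (p := fun S => ∃ E : Set ℂ, IsCompact E ∧ IsConnected E ∧ S ⊆ E ∧ E ⊆ W ∧
    x0 ∈ E) ?_ ?_ ?_ ?_
  · exact ⟨{x0}, isCompact_singleton, isConnected_singleton, empty_subset _,
      singleton_subset_iff.2 hx0, rfl⟩
  · rintro s t hst ⟨E, h1, h2, h3, h4, h5⟩
    exact ⟨E, h1, h2, hst.trans h3, h4, h5⟩
  · rintro s t ⟨E, h1, h2, h3, h4, h5⟩ ⟨E', h1', h2', h3', h4', h5'⟩
    exact ⟨E ∪ E', h1.union h1', h2.union ⟨x0, h5, h5'⟩ h2', union_subset_union h3 h3',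
      union_subset h4 h4', Or.inl h5⟩
  · intro x hx
    obtain ⟨r, hr, hb⟩ := Metric.isOpen_iff.1 hWo x (hKW hx)
    obtain ⟨γ, hγ⟩ := hpc.joinedIn x0 hx0 x (hKW hx)
    refine ⟨closedBall x (r / 2), mem_nhdsWithin_of_mem_nhds (closedBall_mem_nhds x (by linarith)),
      range γ ∪ closedBall x (r / 2), ?_, ?_, subset_union_right, ?_, ?_⟩
    · exact (isCompact_range γ.continuous).union (isCompact_closedBall _ _)
    · apply IsConnected.union
      · exact ⟨x, ⟨1, γ.target⟩, mem_closedBall_self (by linarith)⟩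
      · exact isConnected_range γ.continuous
      · exact ⟨⟨x, mem_closedBall_self (by linarith)⟩, (convex_closedBall _ _).isPreconnected⟩
    · apply union_subset
      · rintro _ ⟨t, rfl⟩
        exact hγ t
      · exact (closedBall_subset_ball (by linarith)).trans hb
    · exact Or.inl ⟨0, γ.source⟩

/-- `E` is a continuum not containing `0`, and `D` is a bounded domain containing `0` with boundary in
`E` -/
structure Sur (E D : Set ℂ) : Prop where
  cpt : IsCompact E
  conn : IsConnected E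
  dopen : IsOpen D
  dconn : IsPreconnected D
  bdd : Bornology.IsBounded D
  mem : (0 : ℂ) ∈ D
  fr : frontier D ⊆ E

theorem frontier_comp {E : Set ℂ} (hE : IsClosed E) (x : ℂ) :
    frontier (connectedComponentIn Eᶜ x) ⊆ E := by
  intro y hy
  by_contra hyE
  have ho : IsOpen (connectedComponentIn Eᶜ x) := hE.isOpen_compl.connectedComponentIn
  have hoy : IsOpen (connectedComponentIn Eᶜ y) := hE.isOpen_compl.connectedComponentIn
  have hyy : y ∈ connectedComponentIn Eᶜ y := mem_connectedComponentIn hyE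
  obtain ⟨z, hz1, hz2⟩ := mem_closure_iff.1 hy.1 _ hoy hyy
  have h1 := connectedComponentIn_eq hz1
  have h2 := connectedComponentIn_eq hz2
  have h3 : y ∈ connectedComponentIn Eᶜ x := by
    rw [h2, ← h1]; exact hyy
  rw [ho.frontier_eq] at hy
  exact hy.2 h3

theorem exists_sur {U : Set ℂ} (hUo : IsOpen U) (hUc : IsPreconnected U) (h0 : (0 : ℂ) ∉ U)
    {R : ℝ} (hR : connectedComponentIn (((↑) : ℂ → OnePoint ℂ) '' U)ᶜ ((0 : ℂ) : OnePoint ℂ) ⊆
      ((↑) : ℂ → OnePoint ℂ) '' ball 0 R) :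
    ∃ E D : Set ℂ, Sur E D ∧ E ⊆ U := by
  set K : Set (OnePoint ℂ) := (((↑) : ℂ → OnePoint ℂ) '' U)ᶜ with hKdef
  have hKc : IsClosed K := (OnePoint.isOpenEmbedding_coe.isOpenMap _ hUo).isClosed_compl
  have hmemK : ∀ z : ℂ, (z : OnePoint ℂ) ∈ K ↔ z ∉ U := by
    intro z
    rw [hKdef, mem_compl_iff, mem_image]
    constructor
    · intro h hz
      exact h ⟨z, hz, rfl⟩
    · rintro h ⟨w, hw, hwz⟩
      rw [OnePoint.coe_injective hwz] at hw
      exact h hw
  have h0K : ((0 : ℂ) : OnePoint ℂ) ∈ K := (hmemK 0).2 h0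
  have hR0 : 0 < R := by
    obtain ⟨w, hw, hw0⟩ := hR (mem_connectedComponentIn h0K)
    rw [OnePoint.coe_injective hw0, mem_ball, dist_self] at hw
    exact hw
  have : CompactSpace K := isCompact_iff_compactSpace.1 hKc.isCompact
  set x0 : K := ⟨_, h0K⟩ with hx0
  -- a clopen set
  obtain ⟨⟨Z, hZ, hx0Z⟩, hZsub⟩ : ∃ i : {s : Set K // IsClopen s ∧ x0 ∈ s},
      (i : Set K) ⊆ Subtype.val ⁻¹' (((↑) : ℂ → OnePoint ℂ) '' ball 0 R) := by
    have : Nonempty {s : Set K // IsClopen s ∧ x0 ∈ s} := ⟨⟨univ, isClopen_univ, mem_univ _⟩⟩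
    apply exists_subset_nhds_of_compactSpace
    · rintro ⟨s, hs, hs'⟩ ⟨t, ht, ht'⟩
      exact ⟨⟨s ∩ t, hs.inter ht, hs', ht'⟩, inter_subset_left, inter_subset_right⟩
    · rintro ⟨s, hs, hs'⟩
      exact hs.1
    · rw [← connectedComponent_eq_iInter_isClopen]
      intro x hx
      apply IsOpen.mem_nhds
      · exact (OnePoint.isOpenEmbedding_coe.isOpenMap _ isOpen_ball).preimage
          continuous_subtype_val
      · apply hR
        rw [connectedComponentIn_eq_image h0K]
        exact ⟨x, hx, rfl⟩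
  set A : Set ℂ := ((↑) : ℂ → OnePoint ℂ) ⁻¹' (Subtype.val '' Z) with hA
  set B : Set ℂ := ((↑) : ℂ → OnePoint ℂ) ⁻¹' (Subtype.val '' Zᶜ) with hB
  have hAcl : IsClosed A :=
    (hKc.isClosedEmbedding_subtypeVal.isClosedMap _ hZ.1).preimage OnePoint.continuous_coe
  have hBcl : IsClosed B :=
    (hKc.isClosedEmbedding_subtypeVal.isClosedMap _ hZ.compl.1).preimage OnePoint.continuous_coe
  have hAR : A ⊆ ball 0 R := by
    rintro z ⟨⟨x, hxK⟩, hxZ, hxz⟩
    obtain ⟨w, hw, hwx⟩ := hZsub hxZ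
    have : w = z := OnePoint.coe_injective (hwx.trans hxz)
    rwa [← this]
  have hAc : IsCompact A := Metric.isCompact_of_isClosed_isBounded hAcl
    (Metric.isBounded_ball.subset hAR)
  have hdisj : Disjoint A B := by
    rw [Set.disjoint_left]
    rintro z ⟨x, hx, hxz⟩ ⟨y, hy, hyz⟩
    have : x = y := Subtype.ext (hxz.trans hyz.symm)
    rw [this] at hx
    exact hy hx
  have hcov : ∀ z, z ∉ U → z ∈ A ∨ z ∈ B := by
    intro z hz
    by_cases h : (⟨(z : OnePoint ℂ), (hmemK z).2 hz⟩ : K) ∈ Z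
    · exact Or.inl ⟨_, h, rfl⟩
    · exact Or.inr ⟨_, h, rfl⟩
  have h0A : (0 : ℂ) ∈ A := ⟨x0, hx0Z, rfl⟩
  have hAne : A.Nonempty := ⟨0, h0A⟩
  obtain ⟨δ, hδ, hth⟩ := hdisj.exists_thickenings hAc hBcl
  set T : Set ℂ := {z | infDist z A = δ / 2} with hT
  have hTU : T ⊆ U := by
    intro z hz
    have hz : infDist z A = δ / 2 := hz
    by_contra hzU
    rcases hcov z hzU with h | h
    · have := infDist_zero_of_mem h
      linarith
    · refine Set.disjoint_left.1 hth (?_ : z ∈ thickening δ A) (self_subset_thickening hδ _ h)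
      rw [mem_thickening_iff_infDist_lt hAne, hz]
      linarith
  have hTc : IsCompact T := by
    apply Metric.isCompact_of_isClosed_isBounded
    · exact isClosed_eq (continuous_infDist_pt A) continuous_const
    · apply (Metric.isBounded_ball (x := (0 : ℂ)) (r := R + δ)).subset
      intro z hz
      have hz : infDist z A = δ / 2 := hz
      obtain ⟨y, hy, hyz⟩ := (infDist_lt_iff hAne).1 (show infDist z A < δ by linarith)
      have h1 := hAR hy
      rw [mem_ball] at h1 ⊢
      have := dist_triangle z y 0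
      linarith
  obtain ⟨t, ht⟩ : T.Nonempty := by
    have h1 : ContinuousOn (fun t : ℝ => infDist (t : ℂ) A) (Icc 0 (R + δ)) :=
      ((continuous_infDist_pt A).comp Complex.continuous_ofReal).continuousOn
    have h2 := intermediate_value_Icc (show (0 : ℝ) ≤ R + δ by linarith) h1
    have h3 : δ / 2 ∈ Icc (infDist ((0 : ℝ) : ℂ) A) (infDist ((R + δ : ℝ) : ℂ) A) := by
      constructor
      · rw [Complex.ofReal_zero, infDist_zero_of_mem h0A]; linarith
      · apply le_infDist hAne |>.2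
        intro y hy
        have h4 := hAR hy
        rw [mem_ball] at h4
        have h5 := dist_triangle ((R + δ : ℝ) : ℂ) y 0
        have h6 : dist ((R + δ : ℝ) : ℂ) 0 = R + δ := by
          rw [dist_zero_right, Complex.norm_real, Real.norm_eq_abs, abs_of_pos (by linarith)]
        linarith
    obtain ⟨t, -, ht⟩ := h2 h3
    exact ⟨(t : ℂ), ht⟩
  obtain ⟨E, hEc, hEconn, hTE, hEU, -⟩ := exists_compact_conn hUo hUc hTc hTU (hTU ht)
  have h0E : (0 : ℂ) ∈ Eᶜ := fun h => h0 (hEU h)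
  refine ⟨E, connectedComponentIn Eᶜ 0, ⟨hEc, hEconn,
    hEc.isClosed.isOpen_compl.connectedComponentIn, isPreconnected_connectedComponentIn, ?_,
    mem_connectedComponentIn h0E, frontier_comp hEc.isClosed 0⟩, hEU⟩
  -- boundedness
  apply (Metric.isBounded_ball (x := (0 : ℂ)) (r := R + δ)).subset
  intro z hz
  have h1 : infDist z A < δ / 2 := by
    by_contra hcon
    push Not at hcon
    obtain ⟨w, hw, hwt⟩ := (isPreconnected_connectedComponentIn (F := Eᶜ) (x := (0 : ℂ))).intermediate_value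
      (mem_connectedComponentIn h0E) hz (continuous_infDist_pt A).continuousOn
      (⟨by rw [infDist_zero_of_mem h0A]; linarith, hcon⟩ :
        δ / 2 ∈ Icc (infDist (0 : ℂ) A) (infDist z A))
    exact connectedComponentIn_subset _ _ hw (hTE hwt)
  obtain ⟨y, hy, hyz⟩ := (infDist_lt_iff hAne).1 h1
  have h2 := hAR hy
  rw [mem_ball] at h2 ⊢
  have := dist_triangle z y 0
  linarith

namespace Sur

variable {E D : Set ℂ}

theorem ball_sub (h : Sur E D) {r : ℝ} (hr : ∀ z ∈ E, r ≤ ‖z‖) : ball 0 r ⊆ D := by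
  rcases le_or_gt r 0 with h0 | h0
  · rw [ball_eq_empty.2 h0]; exact empty_subset _
  · apply (convex_ball (0 : ℂ) r).isPreconnected.subset_of_closure_inter_subset h.dopen
    · exact ⟨0, mem_ball_self h0, h.mem⟩
    · rintro z ⟨hz1, hz2⟩
      by_contra hz
      have h1 : z ∈ frontier D := by
        rw [h.dopen.frontier_eq]
        exact ⟨hz1, hz⟩
      have h2 := hr z (h.fr h1)
      rw [mem_ball_zero_iff] at hz2
      linarith

theorem max_princ (h : Sur E D) {g : ℂ → ℂ} (hg : Differentiable ℂ g) {M : ℝ}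
    (hM : ∀ z ∈ E, ‖g z‖ ≤ M) {z : ℂ} (hz : z ∈ closure D) : ‖g z‖ ≤ M :=
  Complex.norm_le_of_forall_mem_frontier_norm_le h.bdd hg.diffContOnCl
    (fun w hw => hM w (h.fr hw)) hz

theorem map (h : Sur E D) {g : ℂ → ℂ} (hg : Continuous g)
    (hopen : ∀ s : Set ℂ, IsOpen s → IsOpen (g '' s)) (h0 : (0 : ℂ) ∈ g '' D) :
    Sur (g '' E) (g '' D) where
  cpt := h.cpt.image hg
  conn := h.conn.image _ hg.continuousOn
  dopen := hopen _ h.dopen
  dconn := h.dconn.image _ hg.continuousOn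
  bdd := (h.bdd.isCompact_closure.image hg).isBounded.subset (image_mono subset_closure)
  mem := h0
  fr := by
    have h1 : closure (g '' D) ⊆ g '' closure D :=
      closure_minimal (image_mono subset_closure) (h.bdd.isCompact_closure.image hg).isClosed
    rw [(hopen _ h.dopen).frontier_eq]
    rintro y ⟨hy1, hy2⟩
    obtain ⟨z, hz, rfl⟩ := h1 hy1
    refine ⟨z, h.fr ?_, rfl⟩
    rw [h.dopen.frontier_eq]
    exact ⟨hz, fun hzD => hy2 ⟨z, hzD, rfl⟩⟩

end Sur

end Pool.Agent.Q75.Ap
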