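import Pool.Agent.Q75.ApE

set_option autoImplicit false

/-!
Fatou sets of meromorphic functions.
-/

open Filter Topology Metric Set Polynomial

namespace Pool.Agent.Q75.Ap

open Pool.Agent.W723.MC Pool.Agent.H384R2.Fatou Pool.Agent.TH224.SC

theorem isOpen_mfatou (F : ℂ → ℂ) : IsOpen (MFatouSet F) := by
  rw [Metric.isOpen_iff]
  rintro z ⟨r, hr, ha, h⟩
  have hsub : ∀ w ∈ ball z (r / 2), ball w (r / 2) ⊆ ball z r := by
    intro w hw
    apply ball_subset_ball'
    rw [mem_ball] at hw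
    linarith
  exact ⟨r / 2, by linarith, fun w hw => ⟨r / 2, by linarith, fun v hv n => ha v (hsub w hw hv) n,
    normalOn_mono h (hsub w hw)⟩⟩

theorem mfatou_analytic {F : ℂ → ℂ} {z : ℂ} (hz : z ∈ MFatouSet F) (n : ℕ) :
    AnalyticAt ℂ F (F^[n] z) := by
  obtain ⟨r, hr, ha, -⟩ := hz
  exact ha z (mem_ball_self hr) n

theorem iter_diffAt {F : ℂ → ℂ} {z : ℂ} (h : ∀ n, AnalyticAt ℂ F (F^[n] z)) (n : ℕ) :
    DifferentiableAt ℂ F^[n] z := by
  induction n with
  | zero => exact differentiableAt_id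
  | succ n ih =>
    rw [Function.iterate_succ']
    exact DifferentiableAt.comp z (h n).differentiableAt ih

theorem subset_mfatou {F : ℂ → ℂ} {S : Set ℂ} (hS : IsOpen S)
    (ha : ∀ w ∈ S, ∀ n, AnalyticAt ℂ F (F^[n] w)) (h : EscOn F S) : S ⊆ MFatouSet F := by
  intro z hz
  obtain ⟨r, hr, hsub⟩ := Metric.isOpen_iff.1 hS z hz
  exact ⟨r, hr, fun w hw n => ha w (hsub hw) n, normalOn_of_escOn (h.mono hsub)⟩

theorem mfatou_forward {F : ℂ → ℂ} {z : ℂ} (hz : z ∈ MFatouSet F)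
    (hop : ∀ s : ℝ, 0 < s → F '' ball z s ∈ 𝓝 (F z)) : F z ∈ MFatouSet F := by
  classical
  obtain ⟨r, hr, ha, hN⟩ := hz
  obtain ⟨ρ, hρ, hsub⟩ := Metric.mem_nhds_iff.1 (hop (r / 2) (by linarith))
  have hit : ∀ (j : ℕ) (x : ℂ), F^[j] (F x) = F^[j + 1] x := fun j x =>
    (Function.iterate_succ_apply F j x).symm
  refine ⟨ρ, hρ, ?_, fun φ => ?_⟩
  · intro w hw n
    obtain ⟨x, hx, rfl⟩ := hsub hw
    rw [hit]
    exact ha x (ball_subset_ball (by linarith) hx) (n + 1)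
  have hcl : closedBall z (r / 2) ⊆ ball z r := closedBall_subset_ball (by linarith)
  obtain ⟨ψ, hψ, ⟨g, hg⟩ | hinf⟩ := hN (fun j => φ j + 1)
  · have hgu : TendstoUniformlyOn (fun j => F^[φ (ψ j) + 1]) g atTop (closedBall z (r / 2)) :=
      (tendstoLocallyUniformlyOn_iff_tendstoUniformlyOn_of_compact
        (isCompact_closedBall z (r / 2))).1 (hg.mono hcl)
    refine ⟨ψ, hψ, Or.inl ⟨fun w => if h : ∃ x ∈ ball z (r / 2), F x = w then g h.choose else 0,
      TendstoUniformlyOn.tendstoLocallyUniformlyOn ?_⟩⟩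
    rw [Metric.tendstoUniformlyOn_iff] at hgu ⊢
    intro ε hε
    filter_upwards [hgu ε hε] with j hj w hw
    have h : ∃ x ∈ ball z (r / 2), F x = w := hsub hw
    have hx := h.choose_spec
    have h3 := hj h.choose (ball_subset_closedBall hx.1)
    rw [← hit, hx.2] at h3
    simp only [dif_pos h]
    exact h3
  · refine ⟨ψ, hψ, Or.inr fun K hK _ R => ?_⟩
    filter_upwards [hinf (closedBall z (r / 2)) hcl (isCompact_closedBall _ _) R] with j hj w hw
    obtain ⟨x, hx, hxw⟩ := hsub (hK hw)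
    have h3 := hj x (ball_subset_closedBall hx)
    rw [← hit, hxw] at h3
    exact h3

/-- On a Fatou component containing a point with an escaping neighbourhood, the iterates tend to
infinity near every point. -/
theorem esc_nearM {F : ℂ → ℂ} {p : ℂ} (hpF : p ∈ MFatouSet F) {S : Set ℂ} (hS : S ∈ 𝓝 p)
    (hE : EscOn F S) {q : ℂ} (hq : q ∈ connectedComponentIn (MFatouSet F) p) :
    ∃ r : ℝ, 0 < r ∧ ball q r ⊆ connectedComponentIn (MFatouSet F) p ∧ EscOn F (ball q r) := by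
  set W := connectedComponentIn (MFatouSet F) p with hW
  have hWo : IsOpen W := (isOpen_mfatou F).connectedComponentIn
  have hWc : IsPreconnected W := isPreconnected_connectedComponentIn
  set T : Set ℂ := {w | ∃ r : ℝ, 0 < r ∧ EscOn F (ball w r)} with hT
  have hTo : IsOpen T := by
    rw [Metric.isOpen_iff]
    rintro w ⟨r, hr, h⟩
    refine ⟨r / 2, by linarith, fun v hv => ⟨r / 2, by linarith, h.mono ?_⟩⟩
    apply ball_subset_ball'
    rw [mem_ball] at hv
    linarith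
  have hsub : W ⊆ T := by
    apply hWc.subset_of_closure_inter_subset hTo
    · refine ⟨p, mem_connectedComponentIn hpF, ?_⟩
      obtain ⟨r, hr, hsub⟩ := Metric.mem_nhds_iff.1 hS
      exact ⟨r, hr, hE.mono hsub⟩
    · rintro w ⟨hwT, hwW⟩
      obtain ⟨r, hr, -, hN⟩ := connectedComponentIn_subset _ _ hwW
      obtain ⟨v, ⟨s, hs, hvs⟩, hv⟩ := Metric.mem_closure_iff.1 hwT r hr
      have hv' : v ∈ ball w r := by rwa [mem_ball, dist_comm]
      refine ⟨r / 2, by linarith, (escOn_of_normal hN hv' ?_ (isCompact_closedBall w (r / 2))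
        (closedBall_subset_ball (by linarith))).mono ball_subset_closedBall⟩
      rw [Filter.tendsto_atTop]
      intro R
      filter_upwards [hvs R] with n hn
      exact hn v (mem_ball_self hs)
  obtain ⟨r, hr, h⟩ := hsub hq
  obtain ⟨s, hs, h'⟩ := Metric.isOpen_iff.1 hWo q hq
  exact ⟨min r s, lt_min hr hs, (ball_subset_ball (min_le_right _ _)).trans h',
    h.mono (ball_subset_ball (min_le_left _ _))⟩

/-- Growth comparison on a Fatou component on which the iterates tend to infinity. -/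
theorem growth_compareM {F : ℂ → ℂ} {p : ℂ} (hpF : p ∈ MFatouSet F)
    {S : Set ℂ} (hS : S ∈ 𝓝 p) (hE : EscOn F S) {q : ℂ}
    (hq : q ∈ connectedComponentIn (MFatouSet F) p) :
    ∃ C : ℝ, 0 < C ∧ ∀ᶠ n in atTop, Real.log ‖F^[n] q‖ ≤ C * Real.log ‖F^[n] p‖ ∧
      Real.log ‖F^[n] p‖ ≤ C * Real.log ‖F^[n] q‖ := by
  set W := connectedComponentIn (MFatouSet F) p with hW
  have hWc : IsPreconnected W := isPreconnected_connectedComponentIn
  have hWo : IsOpen W := (isOpen_mfatou F).connectedComponentIn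
  -- local comparison
  have hloc : ∀ w ∈ W, ∃ r : ℝ, 0 < r ∧ ∀ v ∈ ball w r, ∀ᶠ n in atTop,
      Real.log ‖F^[n] v‖ ≤ 5 * Real.log ‖F^[n] w‖ ∧
      Real.log ‖F^[n] w‖ ≤ 5 * Real.log ‖F^[n] v‖ := by
    intro w hw
    obtain ⟨r, hr, hrW, hesc⟩ := esc_nearM hpF hS hE hw
    refine ⟨r / 4, by linarith, fun v hv => ?_⟩
    filter_upwards [hesc 2] with n hn
    have hd : DifferentiableOn ℂ F^[n] (ball w r) := fun z hz =>
      (iter_diffAt (mfatou_analytic (connectedComponentIn_subset _ _ (hrW hz))) n).differentiableWithinAt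
    have hlt : ∀ z ∈ ball w r, 1 < ‖F^[n] z‖ := fun z hz => by
      have := hn z hz
      linarith
    have hvr : dist v w < r / 4 := hv
    have h1 := harnack_up hr hd hlt (z := v) (t := 1 / 4) (by norm_num) (by linarith)
      (by norm_num)
    have h2 := harnack_down hr hd hlt (z := v) (t := 1 / 4) (by norm_num) (by linarith)
      (by norm_num)
    have h3 : 0 < Real.log ‖F^[n] w‖ := Real.log_pos (hlt w (mem_ball_self hr))
    have h4 : 0 < Real.log ‖F^[n] v‖ := Real.log_pos (hlt v (by rw [mem_ball]; linarith))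
    constructor <;> linarith
  set T : Set ℂ := {w | ∃ C : ℝ, 0 < C ∧ ∀ᶠ n in atTop,
    Real.log ‖F^[n] w‖ ≤ C * Real.log ‖F^[n] p‖ ∧
      Real.log ‖F^[n] p‖ ≤ C * Real.log ‖F^[n] w‖} with hT
  have hstep : ∀ w v, w ∈ T → (∀ᶠ n in atTop,
      Real.log ‖F^[n] v‖ ≤ 5 * Real.log ‖F^[n] w‖ ∧
      Real.log ‖F^[n] w‖ ≤ 5 * Real.log ‖F^[n] v‖) → v ∈ T := by
    rintro w v ⟨C, hC, h⟩ h'
    refine ⟨5 * C, by positivity, ?_⟩
    filter_upwards [h, h'] with n ⟨h1, h2⟩ ⟨h3, h4⟩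
    constructor
    · linarith
    · calc Real.log ‖F^[n] p‖ ≤ C * Real.log ‖F^[n] w‖ := h2
        _ ≤ C * (5 * Real.log ‖F^[n] v‖) := by gcongr
        _ = 5 * C * Real.log ‖F^[n] v‖ := by ring
  -- connectedness argument
  by_contra hcon
  have hqT : q ∉ T := hcon
  have hA : IsOpen (W ∩ T) := by
    rw [isOpen_iff_mem_nhds]
    rintro w ⟨hw, hwT⟩
    obtain ⟨r, hr, h⟩ := hloc w hw
    filter_upwards [ball_mem_nhds w hr, hWo.mem_nhds hw] with v hv hvW
    exact ⟨hvW, hstep w v hwT (h v hv)⟩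
  have hB : IsOpen (W ∩ Tᶜ) := by
    rw [isOpen_iff_mem_nhds]
    rintro w ⟨hw, hwT⟩
    obtain ⟨r, hr, h⟩ := hloc w hw
    filter_upwards [ball_mem_nhds w hr, hWo.mem_nhds hw] with v hv hvW
    exact ⟨hvW, fun hvT => hwT (hstep v w hvT ((h v hv).mono fun n hn => ⟨hn.2, hn.1⟩))⟩
  have hpT : p ∈ T := ⟨1, one_pos, Eventually.of_forall fun n => by simp⟩
  have hpW : p ∈ W := mem_connectedComponentIn hpF
  obtain ⟨x, hx, hx1, hx2⟩ := hWc _ _ hA hB (fun x hx => by
    by_cases hxT : x ∈ T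
    · exact Or.inl ⟨hx, hxT⟩
    · exact Or.inr ⟨hx, hxT⟩) ⟨p, hpW, hpW, hpT⟩ ⟨q, hq, hq, hqT⟩
  exact hx2.2 hx1.2

theorem analytic_of_nf {g : ℂ → ℂ} {z : ℂ} (hg : MeromorphicNFAt g z) (h0 : g z ≠ 0) :
    AnalyticAt ℂ g z := by
  rcases meromorphicNFAt_iff_analyticAt_or.1 hg with h | ⟨-, -, h⟩
  · exact h
  · exact absurd h h0

/-- the normal form of a product near a point where both factors are analytic -/
theorem nf_near {f g : ℂ → ℂ} (hf : Differentiable ℂ f) (hg : MeromorphicNFOn g univ) {z : ℂ}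
    (h : AnalyticAt ℂ g z) :
    toMeromorphicNFOn (fun w => f w * g w) univ =ᶠ[𝓝 z] fun w => f w * g w := by
  have hm : MeromorphicOn (fun w => f w * g w) univ := fun w _ =>
    (hf.analyticAt w).meromorphicAt.mul (hg (mem_univ w)).meromorphicAt
  have h1 := toMeromorphicNFOn_eq_toMeromorphicNFAt_on_nhds hm (mem_univ z)
  have h2 : MeromorphicNFAt (fun w => f w * g w) z :=
    ((hf.analyticAt z).mul h).meromorphicNFAt
  rw [← toMeromorphicNFAt_eq_self] at h2
  rw [h2] at h1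
  exact h1

/-- identity theorem -/
theorem const_near {F : ℂ → ℂ} (hF : MeromorphicNFOn F univ) {z w c : ℂ}
    (hz : ∀ᶠ v in 𝓝 z, F v = c) (hw : AnalyticAt ℂ F w) : F w = c := by
  have hm : MeromorphicOn (fun v => F v - c) univ := fun v _ =>
    (hF (mem_univ v)).meromorphicAt.sub (MeromorphicAt.const c v)
  have h1 : meromorphicOrderAt (fun v => F v - c) z = ⊤ := by
    rw [meromorphicOrderAt_eq_top_iff]
    apply Filter.Eventually.filter_mono nhdsWithin_le_nhds
    filter_upwards [hz] with v hv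
    rw [hv, sub_self]
  have h2 : meromorphicOrderAt (fun v => F v - c) w = ⊤ := by
    by_contra hcon
    exact hm.meromorphicOrderAt_ne_top_of_isPreconnected isPreconnected_univ (mem_univ w)
      (mem_univ z) hcon h1
  rw [meromorphicOrderAt_eq_top_iff] at h2
  have h3 : Tendsto F (𝓝[≠] w) (𝓝 (F w)) := hw.continuousAt.tendsto.mono_left nhdsWithin_le_nhds
  have h4 : Tendsto F (𝓝[≠] w) (𝓝 c) := by
    refine tendsto_const_nhds.congr' ?_
    filter_upwards [h2] with v hv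
    rw [sub_eq_zero] at hv
    exact hv.symm
  exact tendsto_nhds_unique h3 h4

theorem image_ball_nhds {F : ℂ → ℂ} {z : ℂ} (hF : AnalyticAt ℂ F z)
    (hnc : ¬ ∀ᶠ v in 𝓝 z, F v = F z) (s : ℝ) (hs : 0 < s) : F '' ball z s ∈ 𝓝 (F z) := by
  rcases hF.eventually_constant_or_nhds_le_map_nhds with h | h
  · exact absurd h hnc
  · exact h (image_mem_map (ball_mem_nhds z hs))

/-- polynomial bounds for rational functions along sequences tending to infinity -/
theorem rational_bound {F : ℂ → ℂ} {P Q : ℂ[X]} (hQ : Q ≠ 0)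
    (h : ∀ z : ℂ, Q.eval z ≠ 0 → F z = P.eval z / Q.eval z) {x : ℕ → ℂ}
    (hx : Tendsto (fun k => ‖x k‖) atTop atTop) :
    ∃ (C : ℝ) (d : ℕ), 0 < C ∧ ∀ᶠ k in atTop, ‖F (x k)‖ ≤ C * ‖x k‖ ^ d := by
  obtain ⟨c, hc0, hc⟩ : ∃ c : ℝ, 0 < c ∧ ∀ᶠ k in atTop, c ≤ ‖Q.eval (x k)‖ := by
    rcases Nat.eq_zero_or_pos Q.natDegree with h0 | h0
    · rw [Polynomial.natDegree_eq_zero] at h0
      obtain ⟨a, rfl⟩ := h0
      have ha : a ≠ 0 := by
        rintro rfl
        exact hQ (by simp)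
      exact ⟨‖a‖, norm_pos_iff.2 ha, Eventually.of_forall fun k => by simp⟩
    · exact ⟨1, one_pos, (Q.tendsto_norm_atTop (natDegree_pos_iff_degree_pos.1 h0)
        hx).eventually_ge_atTop 1⟩
  refine ⟨(∑ i ∈ Finset.range (P.natDegree + 1), ‖P.coeff i‖ + 1) / c, P.natDegree, by positivity,
    ?_⟩
  filter_upwards [hc, hx.eventually_ge_atTop 1] with k h1 h2
  have hQk : Q.eval (x k) ≠ 0 := by
    rw [← norm_pos_iff]
    linarith
  rw [h _ hQk, norm_div, div_mul_eq_mul_div]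
  have h3 : ‖P.eval (x k)‖ ≤
      (∑ i ∈ Finset.range (P.natDegree + 1), ‖P.coeff i‖) * ‖x k‖ ^ P.natDegree := by
    rw [eval_eq_sum_range, Finset.sum_mul]
    apply norm_sum_le_of_le
    intro i hi
    rw [norm_mul, norm_pow]
    apply mul_le_mul_of_nonneg_left _ (norm_nonneg _)
    exact pow_le_pow_right₀ h2 (by have := Finset.mem_range.1 hi; omega)
  have h4 : 0 ≤ ‖x k‖ ^ P.natDegree := by positivity
  have h5 : ‖P.eval (x k)‖ ≤
      (∑ i ∈ Finset.range (P.natDegree + 1), ‖P.coeff i‖ + 1) * ‖x k‖ ^ P.natDegree := by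
    rw [add_mul]
    linarith
  apply div_le_div₀ _ h5 hc0 h1
  have : 0 ≤ ∑ i ∈ Finset.range (P.natDegree + 1), ‖P.coeff i‖ :=
    Finset.sum_nonneg fun i _ => norm_nonneg _
  positivity

end Pool.Agent.Q75.Ap
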