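import Pool.Agent.Q75.ApA

set_option autoImplicit false

/-!
Harnack inequalities, three circles, chains, images of discs and annuli.
-/

open Filter Topology Metric Set

namespace Pool.Agent.Q75.Ap

open Pool.Agent.W723.MC

section harnack

variable {g : ℂ → ℂ} {c z : ℂ} {r t : ℝ}

theorem harnack_up (hr : 0 < r) (hg : DifferentiableOn ℂ g (ball c r))
    (h1 : ∀ z ∈ ball c r, 1 < ‖g z‖) (ht : 0 ≤ t) (hz : dist z c ≤ t * r) (ht1 : t ≤ 1 / 2) :
    Real.log ‖g z‖ ≤ (1 + 4 * t) * Real.log ‖g c‖ := by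
  have h := harnack_half hr hg h1 ht hz (by linarith)
  refine h.trans ?_
  have h2 : 0 < Real.log ‖g c‖ := Real.log_pos (h1 c (mem_ball_self hr))
  apply mul_le_mul_of_nonneg_right _ h2.le
  have h3 : 2 * t / (1 - t) ≤ 4 * t := by
    rw [div_le_iff₀ (by linarith)]
    nlinarith
  linarith

theorem harnack_down (hr : 0 < r) (hg : DifferentiableOn ℂ g (ball c r))
    (h1 : ∀ z ∈ ball c r, 1 < ‖g z‖) (ht : 0 ≤ t) (hz : dist z c ≤ t * r) (ht1 : t ≤ 1 / 4) :
    Real.log ‖g c‖ ≤ (1 + 8 * t) * Real.log ‖g z‖ := by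
  have hsub : ball z (r / 2) ⊆ ball c r := by
    apply ball_subset_ball'
    nlinarith
  have h := harnack_up (g := g) (c := z) (z := c) (r := r / 2) (t := 2 * t) (by linarith)
    (hg.mono hsub) (fun w hw => h1 w (hsub hw)) (by linarith) (by rw [dist_comm]; linarith)
    (by linarith)
  refine h.trans (le_of_eq ?_)
  ring

end harnack

/-- Harnack's inequality on compact sets, uniformly for a sequence of functions -/
theorem chainK {W : Set ℂ} (hWo : IsOpen W) (hWc : IsPreconnected W) {g : ℕ → ℂ → ℂ}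
    (hg : ∀ n, DifferentiableOn ℂ (g n) W) (h1 : ∀ n, ∀ z ∈ W, 1 < ‖g n z‖) {K : Set ℂ}
    (hK : IsCompact K) (hKW : K ⊆ W) :
    ∃ C : ℝ, 1 ≤ C ∧ ∀ n, ∀ p ∈ K, ∀ q ∈ K, Real.log ‖g n p‖ ≤ C * Real.log ‖g n q‖ := by
  rcases K.eq_empty_or_nonempty with rfl | ⟨x0, hx0⟩
  · exact ⟨1, le_rfl, fun n p hp => absurd hp (by simp)⟩
  have hx0W := hKW hx0
  have key : ∃ C : ℝ, 0 < C ∧ ∀ n, ∀ p ∈ K, Real.log ‖g n p‖ ≤ C * Real.log ‖g n x0‖ ∧
      Real.log ‖g n x0‖ ≤ C * Real.log ‖g n p‖ := by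
    refine hK.induction_on (p := fun S => ∃ C : ℝ, 0 < C ∧ ∀ n, ∀ p ∈ S ∩ K,
      Real.log ‖g n p‖ ≤ C * Real.log ‖g n x0‖ ∧
      Real.log ‖g n x0‖ ≤ C * Real.log ‖g n p‖) ?_ ?_ ?_ ?_ |>.imp fun C hC => ⟨hC.1, fun n p hp =>
        hC.2 n p ⟨hp, hp⟩⟩
    · exact ⟨1, one_pos, fun n p hp => absurd hp.1 (by simp)⟩
    · rintro s t hst ⟨C, hC, h⟩
      exact ⟨C, hC, fun n p hp => h n p ⟨hst hp.1, hp.2⟩⟩
    · rintro s t ⟨C, hC, h⟩ ⟨C', hC', h'⟩
      refine ⟨max C C', lt_max_of_lt_left hC, fun n p hp => ?_⟩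
      have hp0 : 0 ≤ Real.log ‖g n p‖ := (Real.log_pos (h1 n p (hKW hp.2))).le
      have hx00 : 0 ≤ Real.log ‖g n x0‖ := (Real.log_pos (h1 n x0 hx0W)).le
      rcases hp.1 with hp1 | hp1
      · obtain ⟨h2, h3⟩ := h n p ⟨hp1, hp.2⟩
        exact ⟨h2.trans (mul_le_mul_of_nonneg_right (le_max_left _ _) hx00),
          h3.trans (mul_le_mul_of_nonneg_right (le_max_left _ _) hp0)⟩
      · obtain ⟨h2, h3⟩ := h' n p ⟨hp1, hp.2⟩
        exact ⟨h2.trans (mul_le_mul_of_nonneg_right (le_max_right _ _) hx00),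
          h3.trans (mul_le_mul_of_nonneg_right (le_max_right _ _) hp0)⟩
    · intro x hx
      obtain ⟨r, hr, hb⟩ := Metric.isOpen_iff.1 hWo x (hKW hx)
      obtain ⟨C, hC, h⟩ := Bw.chain hWo hWc hg h1 (hKW hx) hx0W
      obtain ⟨C', hC', h'⟩ := Bw.chain hWo hWc hg h1 hx0W (hKW hx)
      refine ⟨ball x (r / 4), mem_nhdsWithin_of_mem_nhds (ball_mem_nhds x (by linarith)),
        3 * max C C', by positivity, fun n p hp => ?_⟩
      have hpx : dist p x ≤ 1 / 4 * r := by
        have := hp.1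
        rw [mem_ball] at this
        linarith
      have h2 := harnack_up hr ((hg n).mono hb) (fun z hz => h1 n z (hb hz)) (by norm_num) hpx
        (by norm_num)
      have h3 := harnack_down hr ((hg n).mono hb) (fun z hz => h1 n z (hb hz)) (by norm_num) hpx
        (by norm_num)
      have hp0 : 0 ≤ Real.log ‖g n p‖ := (Real.log_pos (h1 n p (hKW hp.2))).le
      have hxx : 0 ≤ Real.log ‖g n x‖ := (Real.log_pos (h1 n x (hKW hx))).le
      have hx00 : 0 ≤ Real.log ‖g n x0‖ := (Real.log_pos (h1 n x0 hx0W)).le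
      have h4 := h n
      have h5 := h' n
      constructor
      · have h6 : C * Real.log ‖g n x0‖ ≤ max C C' * Real.log ‖g n x0‖ :=
          mul_le_mul_of_nonneg_right (le_max_left _ _) hx00
        have h7 : 0 ≤ max C C' * Real.log ‖g n x0‖ := by positivity
        nlinarith
      · have h6 : C' * Real.log ‖g n x‖ ≤ max C C' * Real.log ‖g n x‖ :=
          mul_le_mul_of_nonneg_right (le_max_right _ _) hxx
        have h7 : max C C' * Real.log ‖g n x‖ ≤ max C C' * ((1 + 8 * (1 / 4)) * Real.log ‖g n p‖) :=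
          mul_le_mul_of_nonneg_left h3 (by positivity)
        linarith
  obtain ⟨C, hC, h⟩ := key
  refine ⟨max 1 (C * C), le_max_left _ _, fun n p hp q hq => ?_⟩
  have hq0 : 0 ≤ Real.log ‖g n q‖ := (Real.log_pos (h1 n q (hKW hq))).le
  have h2 := (h n p hp).1
  have h3 := (h n q hq).2
  have h4 : C * Real.log ‖g n x0‖ ≤ C * (C * Real.log ‖g n q‖) :=
    mul_le_mul_of_nonneg_left h3 hC.le
  have h5 : C * C * Real.log ‖g n q‖ ≤ max 1 (C * C) * Real.log ‖g n q‖ :=
    mul_le_mul_of_nonneg_right (le_max_right _ _) hq0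
  linarith

/-- Hadamard's three circles theorem -/
theorem three {h : ℂ → ℂ} (hh : Differentiable ℂ h) {t0 t2 A B : ℝ} (ht : t0 < t2)
    (hA : ∀ z : ℂ, ‖z‖ = Real.exp t0 → ‖h z‖ ≤ Real.exp A)
    (hB : ∀ z : ℂ, ‖z‖ = Real.exp t2 → ‖h z‖ ≤ Real.exp B) {z : ℂ} {t : ℝ}
    (hz : ‖z‖ = Real.exp t) (h0 : t0 ≤ t) (h2 : t ≤ t2) :
    ‖h z‖ ≤ Real.exp (A + (t - t0) / (t2 - t0) * (B - A)) := by
  have hz0 : z ≠ 0 := by
    rw [← norm_pos_iff, hz]; exact Real.exp_pos _
  have hre : (Complex.log z).re = t := by rw [Complex.log_re, hz, Real.log_exp]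
  have hd : Differentiable ℂ (fun s => h (Complex.exp s)) := hh.comp Complex.differentiable_exp
  have key := Complex.HadamardThreeLines.norm_le_interp_of_mem_verticalClosedStrip'
    (f := fun s => h (Complex.exp s)) (z := Complex.log z) (a := Real.exp A) (b := Real.exp B)
    ht (by
      show Complex.log z ∈ Complex.re ⁻¹' Icc t0 t2
      rw [mem_preimage, hre]
      exact ⟨h0, h2⟩) hd.diffContOnCl (by
      obtain ⟨C, hC⟩ := (isCompact_closedBall (0 : ℂ) (Real.exp t2)).bddAbove_image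
        (f := fun w => ‖h w‖) hh.continuous.norm.continuousOn
      refine ⟨C, ?_⟩
      rintro _ ⟨s, hs, rfl⟩
      have hs : s.re ∈ Icc t0 t2 := hs
      apply hC
      refine ⟨Complex.exp s, ?_, rfl⟩
      rw [mem_closedBall_zero_iff, Complex.norm_exp]
      exact Real.exp_le_exp.2 hs.2) (by
      intro s hs
      have hs : s.re = t0 := hs
      exact hA _ (by rw [Complex.norm_exp, hs])) (by
      intro s hs
      have hs : s.re = t2 := hs
      exact hB _ (by rw [Complex.norm_exp, hs]))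
  simp only [Complex.exp_log hz0, hre] at key
  refine key.trans (le_of_eq ?_)
  rw [← Real.exp_mul, ← Real.exp_mul, ← Real.exp_add]
  congr 1
  ring

/-- annuli in images of annuli -/
theorem annulus_image {h : ℂ → ℂ} (hc : Continuous h)
    (hopen : ∀ s : Set ℂ, IsOpen s → IsOpen (h '' s)) {t1 t2 β1 β2 : ℝ} (ht : t1 < t2)
    (h1 : ∀ z : ℂ, ‖z‖ = Real.exp t1 → ‖h z‖ ≤ Real.exp β1)
    (h2 : ∀ z : ℂ, ‖z‖ = Real.exp t2 → Real.exp β2 ≤ ‖h z‖) :
    {w : ℂ | Real.exp β1 < ‖w‖ ∧ ‖w‖ < Real.exp β2} ⊆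
      h '' {z : ℂ | Real.exp t1 < ‖z‖ ∧ ‖z‖ < Real.exp t2} := by
  rcases le_or_gt β2 β1 with hβ | hβ
  · rintro w ⟨hw1, hw2⟩
    exfalso
    have := Real.exp_le_exp.2 hβ
    linarith
  set V : Set ℂ := {z : ℂ | Real.exp t1 < ‖z‖ ∧ ‖z‖ < Real.exp t2} with hV
  have hVo : IsOpen V := (isOpen_lt continuous_const continuous_norm).inter
    (isOpen_lt continuous_norm continuous_const)
  have hVcl : closure V ⊆ {z : ℂ | Real.exp t1 ≤ ‖z‖ ∧ ‖z‖ ≤ Real.exp t2} := by
    apply closure_minimal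
    · rintro z ⟨hz1, hz2⟩
      exact ⟨hz1.le, hz2.le⟩
    · exact (isClosed_le continuous_const continuous_norm).inter
        (isClosed_le continuous_norm continuous_const)
  have hVb : Bornology.IsBounded V := by
    apply (Metric.isBounded_ball (x := (0 : ℂ)) (r := Real.exp t2)).subset
    rintro z ⟨-, hz⟩
    rwa [mem_ball_zero_iff]
  have hVK : IsCompact (closure V) := hVb.isCompact_closure
  apply (Bw.isPreconnected_ann (Real.exp_pos β1)).subset_of_closure_inter_subset (hopen _ hVo)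
  · -- a point of the image
    have hcont : ContinuousOn (fun t : ℝ => ‖h ((Real.exp t : ℝ) : ℂ)‖) (Icc t1 t2) := by
      apply Continuous.continuousOn
      exact (hc.comp (Complex.continuous_ofReal.comp Real.continuous_exp)).norm
    have hn : ∀ t : ℝ, ‖((Real.exp t : ℝ) : ℂ)‖ = Real.exp t := fun t => by
      rw [Complex.norm_real, Real.norm_eq_abs, abs_of_pos (Real.exp_pos t)]
    obtain ⟨m, hm1, hm2⟩ := exists_between (Real.exp_lt_exp.2 hβ)
    have ha := h1 _ (hn t1)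
    have hb := h2 _ (hn t2)
    obtain ⟨t, ht', htm⟩ := intermediate_value_Icc ht.le hcont
      (⟨ha.trans hm1.le, hm2.le.trans hb⟩ : m ∈ Icc _ _)
    have htm : ‖h ((Real.exp t : ℝ) : ℂ)‖ = m := htm
    refine ⟨h ((Real.exp t : ℝ) : ℂ), ?_, ((Real.exp t : ℝ) : ℂ), ?_, rfl⟩
    · rw [Set.mem_ofPred_eq, htm]
      exact ⟨hm1, hm2⟩
    · rw [hV, Set.mem_ofPred_eq, hn]
      constructor
      · apply Real.exp_lt_exp.2
        rcases ht'.1.lt_or_eq with h3 | h3
        · exact h3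
        · exfalso
          rw [← h3] at htm
          linarith
      · apply Real.exp_lt_exp.2
        rcases ht'.2.lt_or_eq with h3 | h3
        · exact h3
        · exfalso
          rw [h3] at htm
          linarith
  · rintro w ⟨hw1, hw2, hw3⟩
    have h4 : closure (h '' V) ⊆ h '' closure V :=
      closure_minimal (image_mono subset_closure) (hVK.image hc).isClosed
    obtain ⟨z, hz, rfl⟩ := h4 hw1
    obtain ⟨hz1, hz2⟩ := hVcl hz
    refine ⟨z, ⟨?_, ?_⟩, rfl⟩
    · rcases hz1.lt_or_eq with h5 | h5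
      · exact h5
      · exfalso
        have := h1 z h5.symm
        linarith
    · rcases hz2.lt_or_eq with h5 | h5
      · exact h5
      · exfalso
        have := h2 z h5
        linarith

/-- additive chains in compact connected sets -/
theorem addchain {X : Set ℂ} (hX : IsCompact X) (hXc : IsPreconnected X) {r : ℝ} (hr : 0 < r) :
    ∃ K : ℝ, 0 < K ∧ ∀ (u : ℂ → ℝ) (κ : ℝ), 0 ≤ κ →
      (∀ x ∈ X, ∀ y ∈ X, dist x y < r → |u x - u y| ≤ κ) →
      ∀ x ∈ X, ∀ y ∈ X, |u x - u y| ≤ K * κ := by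
  rcases X.eq_empty_or_nonempty with rfl | ⟨x0, hx0⟩
  · exact ⟨1, one_pos, fun u κ _ _ x hx => absurd hx (by simp)⟩
  set P : ℂ → ℂ → Prop := fun x y => ∃ K : ℝ, 0 < K ∧ ∀ (u : ℂ → ℝ) (κ : ℝ), 0 ≤ κ →
      (∀ x ∈ X, ∀ y ∈ X, dist x y < r → |u x - u y| ≤ κ) → |u x - u y| ≤ K * κ with hP
  have hPall : ∀ y ∈ X, P x0 y := by
    intro y hy
    refine hXc.induction₂ P ?_ ?_ ?_ hx0 hy
    · intro x hx
      rw [eventually_nhdsWithin_iff]
      filter_upwards [ball_mem_nhds x hr] with y hy hyX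
      exact ⟨1, one_pos, fun u κ _ h => by
        rw [one_mul]
        exact h x hx y hyX (by rw [dist_comm]; exact hy)⟩
    · rintro x y z _ _ _ ⟨K, hK, h⟩ ⟨K', hK', h'⟩
      refine ⟨K + K', by positivity, fun u κ hκ hu => ?_⟩
      have h2 := h u κ hκ hu
      have h3 := h' u κ hκ hu
      have h4 := abs_sub_le (u x) (u y) (u z)
      linarith
    · rintro x y _ _ ⟨K, hK, h⟩
      exact ⟨K, hK, fun u κ hκ hu => by rw [abs_sub_comm]; exact h u κ hκ hu⟩
  have key : ∃ K : ℝ, 0 < K ∧ ∀ (u : ℂ → ℝ) (κ : ℝ), 0 ≤ κ →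
      (∀ x ∈ X, ∀ y ∈ X, dist x y < r → |u x - u y| ≤ κ) → ∀ y ∈ X, |u x0 - u y| ≤ K * κ := by
    refine hX.induction_on (p := fun S => ∃ K : ℝ, 0 < K ∧ ∀ (u : ℂ → ℝ) (κ : ℝ), 0 ≤ κ →
      (∀ x ∈ X, ∀ y ∈ X, dist x y < r → |u x - u y| ≤ κ) → ∀ y ∈ S, |u x0 - u y| ≤ K * κ)
      ?_ ?_ ?_ ?_
    · exact ⟨1, one_pos, fun u κ _ _ y hy => absurd hy (by simp)⟩
    · rintro s t hst ⟨K, hK, h⟩
      exact ⟨K, hK, fun u κ hκ hu y hy => h u κ hκ hu y (hst hy)⟩
    · rintro s t ⟨K, hK, h⟩ ⟨K', hK', h'⟩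
      refine ⟨max K K', lt_max_of_lt_left hK, fun u κ hκ hu y hy => ?_⟩
      rcases hy with hy | hy
      · exact (h u κ hκ hu y hy).trans (mul_le_mul_of_nonneg_right (le_max_left _ _) hκ)
      · exact (h' u κ hκ hu y hy).trans (mul_le_mul_of_nonneg_right (le_max_right _ _) hκ)
    · intro x hx
      obtain ⟨K, hK, h⟩ := hPall x hx
      refine ⟨X ∩ ball x r, inter_mem self_mem_nhdsWithin
        (mem_nhdsWithin_of_mem_nhds (ball_mem_nhds x hr)), K + 1, by positivity,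
        fun u κ hκ hu y hy => ?_⟩
      have h2 := h u κ hκ hu
      have h3 := hu x hx y hy.1 (by rw [dist_comm]; exact hy.2)
      have h4 := abs_sub_le (u x0) (u x) (u y)
      linarith
  obtain ⟨K, hK, h⟩ := key
  refine ⟨2 * K, by positivity, fun u κ hκ hu x hx y hy => ?_⟩
  have h2 := h u κ hκ hu x hx
  have h3 := h u κ hκ hu y hy
  have h4 := abs_sub_le (u x) (u x0) (u y)
  rw [abs_sub_comm (u x) (u x0)] at h4
  linarith

/-- a disc in the image of a disc -/
theorem open_ball_image {G : ℂ → ℂ} {ζ : ℂ} {ρ M μ : ℝ} (hρ : 0 < ρ)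
    (hG : DifferentiableOn ℂ G (ball ζ ρ)) (hM : ∀ z ∈ ball ζ ρ, ‖deriv G z‖ ≤ M) (hμ : 0 < μ)
    (h : μ ≤ ‖deriv G ζ‖) : ball (G ζ) (μ ^ 2 * ρ / (32 * M)) ⊆ G '' ball ζ ρ := by
  have hζ : ζ ∈ ball ζ ρ := mem_ball_self hρ
  have hμM : μ ≤ M := h.trans (hM ζ hζ)
  have hM0 : 0 < M := by linarith
  set s : ℝ := μ * ρ / (8 * M) with hs
  have hs0 : 0 < s := by positivity
  have hs8 : s ≤ ρ / 8 := by
    rw [hs, div_le_div_iff₀ (by positivity) (by norm_num)]
    nlinarith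
  have hG' : DifferentiableOn ℂ (deriv G) (ball ζ ρ) := hG.deriv isOpen_ball
  have hd2 : ∀ z ∈ ball ζ (ρ / 2), ‖deriv (deriv G) z‖ ≤ 4 * M / ρ := by
    intro z hz
    have hsub : closedBall z (ρ / 4) ⊆ ball ζ ρ := by
      apply closedBall_subset_ball'
      rw [mem_ball] at hz
      linarith
    have h2 := Complex.norm_deriv_le_of_forall_mem_sphere_norm_le (c := z) (R := ρ / 4)
      (C := M) (f := deriv G) (by linarith) (hG'.diffContOnCl_ball hsub)
      (fun w hw => hM w (hsub (sphere_subset_closedBall hw)))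
    refine h2.trans (le_of_eq ?_)
    field_simp
  have hd1 : ∀ z ∈ ball ζ (ρ / 2), ‖deriv G z - deriv G ζ‖ ≤ 4 * M / ρ * ‖z - ζ‖ := by
    intro z hz
    apply (convex_ball ζ (ρ / 2)).norm_image_sub_le_of_norm_deriv_le
      (fun w hw => (hG' w (ball_subset_ball (by linarith) hw)).differentiableAt
        (isOpen_ball.mem_nhds (ball_subset_ball (by linarith) hw))) hd2
      (mem_ball_self (by linarith)) hz
  have hsb : closedBall ζ s ⊆ ball ζ (ρ / 2) := closedBall_subset_ball (by linarith)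
  have hsρ : closedBall ζ s ⊆ ball ζ ρ := hsb.trans (ball_subset_ball (by linarith))
  have hdA : ∀ w ∈ closedBall ζ s, DifferentiableAt ℂ G w := fun w hw =>
    (hG w (hsρ hw)).differentiableAt (isOpen_ball.mem_nhds (hsρ hw))
  have hsph : ∀ z ∈ sphere ζ s, μ * s / 2 ≤ ‖G z - G ζ‖ := by
    intro z hz
    have hzs : ‖z - ζ‖ = s := by rwa [mem_sphere, dist_eq_norm] at hz
    have h2 := (convex_closedBall ζ s).norm_image_sub_le_of_norm_hasDerivWithin_le
      (f := fun w => G w - deriv G ζ * w) (f' := fun w => deriv G w - deriv G ζ)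
      (C := 4 * M / ρ * s)
      (fun w hw => ((hdA w hw).hasDerivAt.sub (by
        simpa using (hasDerivAt_id w).const_mul (deriv G ζ))).hasDerivWithinAt)
      (fun w hw => by
        have h3 := hd1 w (hsb hw)
        refine h3.trans ?_
        have h4 : ‖w - ζ‖ ≤ s := by rwa [mem_closedBall, dist_eq_norm] at hw
        have : 0 ≤ 4 * M / ρ := by positivity
        exact mul_le_mul_of_nonneg_left h4 this)
      (mem_closedBall_self hs0.le) (sphere_subset_closedBall hz)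
    rw [hzs] at h2
    have h3 : G z - G ζ = (G z - deriv G ζ * z - (G ζ - deriv G ζ * ζ)) + deriv G ζ * (z - ζ) := by
      ring
    have h4 : ‖deriv G ζ * (z - ζ)‖ ≤ ‖G z - G ζ‖ +
        ‖G z - deriv G ζ * z - (G ζ - deriv G ζ * ζ)‖ := by
      have e : deriv G ζ * (z - ζ) = (G z - G ζ) - (G z - deriv G ζ * z - (G ζ - deriv G ζ * ζ)) := by
        ring
      rw [e]
      exact norm_sub_le _ _
    rw [norm_mul, hzs] at h4
    have h5 : 4 * M / ρ * s * s = μ * s / 2 := by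
      rw [hs]; field_simp; ring
    rw [h5] at h2
    have h6 : μ * s ≤ ‖deriv G ζ‖ * s := mul_le_mul_of_nonneg_right h hs0.le
    linarith
  have hfr : ∃ᶠ z in 𝓝 ζ, G z ≠ G ζ := by
    have h2 : HasDerivAt G (deriv G ζ) ζ := (hdA ζ (mem_closedBall_self hs0.le)).hasDerivAt
    have h3 : deriv G ζ ≠ 0 := by
      rw [← norm_pos_iff]; linarith
    exact (h2.eventually_ne h3).frequently.filter_mono nhdsWithin_le_nhds
  have h7 := (hG.diffContOnCl_ball hsρ).ball_subset_image_closedBall hs0 hsph hfr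
  have e : μ ^ 2 * ρ / (32 * M) = μ * s / 2 / 2 := by
    rw [hs]; field_simp; ring
  rw [e]
  exact h7.trans (image_mono hsρ)

/-- derivative of a function with positive real part -/
theorem deriv_log_bound {L : ℂ → ℂ} {c : ℂ} {r : ℝ} (hr : 0 < r)
    (hL : DifferentiableOn ℂ L (ball c r)) (hpos : ∀ z ∈ ball c r, 0 < (L z).re) :
    ‖deriv L c‖ ≤ 4 * (L c).re / r := by
  have hcm : c ∈ ball c r := mem_ball_self hr
  have hmem : ∀ w ∈ ball (0 : ℂ) r, c + w ∈ ball c r := by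
    intro w hw
    simpa [mem_ball, dist_eq_norm] using hw
  have hM : 0 < (L c).re := hpos c hcm
  have hd : DifferentiableOn ℂ (fun w => L c - L (c + w)) (ball 0 r) := by
    refine DifferentiableOn.const_sub ?_ _
    exact DifferentiableOn.comp hL (by fun_prop) hmem
  have hmaps : Set.MapsTo (fun w => L c - L (c + w)) (ball 0 r) {z | z.re ≤ (L c).re} := by
    intro w hw
    simp only [Set.mem_ofPred_eq, Complex.sub_re]
    have h3 := hpos _ (hmem w hw)
    linarith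
  have key : ∀ z ∈ sphere c (r / 2), ‖L z - L c‖ ≤ 2 * (L c).re := by
    intro z hz
    have hzr : ‖z - c‖ = r / 2 := by rwa [mem_sphere, dist_eq_norm] at hz
    have hzm : z - c ∈ ball (0 : ℂ) r := by
      rw [mem_ball_zero_iff, hzr]
      linarith
    have h := Complex.borelCaratheodory_zero hM hd hmaps hr hzm (by simp)
    simp only [add_sub_cancel, hzr] at h
    rw [norm_sub_rev]
    refine h.trans (le_of_eq ?_)
    field_simp
    norm_num
  have hsub : closedBall c (r / 2) ⊆ ball c r := closedBall_subset_ball (by linarith)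
  have h2 := Complex.norm_deriv_le_of_forall_mem_sphere_norm_le (c := c) (R := r / 2)
      (C := 2 * (L c).re) (f := fun z => L z - L c) (by linarith)
      ((hL.sub_const (L c)).diffContOnCl_ball hsub) key
  rw [deriv_sub_const] at h2
  refine h2.trans (le_of_eq ?_)
  field_simp
  norm_num

/-- an annulus in the image of a disc -/
theorem disc_annulus {g : ℂ → ℂ} {x y : ℂ} {r Λ κ : ℝ} (hr : 0 < r)
    (hg : DifferentiableOn ℂ g (ball x (4 * r))) (h1 : ∀ z ∈ ball x (4 * r), 1 < ‖g z‖)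
    (hxy : dist x y < r) (hΛ : Real.log ‖g x‖ ≤ Λ) (hκ : 0 < κ)
    (hu : κ < |Real.log ‖g x‖ - Real.log ‖g y‖|) :
    ∃ ζ ∈ ball x r, ∀ w : ℂ, w ≠ 0 →
      |Real.log ‖w‖ - Real.log ‖g ζ‖| + Real.pi < κ ^ 2 / (192 * Λ) →
      w ∈ g '' ball x (4 * r) := by
  have h4 : 0 < 4 * r := by linarith
  have h0 : ∀ z ∈ ball x (4 * r), g z ≠ 0 := fun z hz h => by
    have := h1 z hz
    rw [h, norm_zero] at this
    linarith
  obtain ⟨L, hLd, hL⟩ := exists_log_ball h4 hg h0
  have hre : ∀ w ∈ ball x (4 * r), (L w).re = Real.log ‖g w‖ := by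
    intro w hw
    rw [← hL w hw, Complex.norm_exp, Real.log_exp]
  have hxm : x ∈ ball x (4 * r) := mem_ball_self h4
  have hΛ0 : 0 < Λ := lt_of_lt_of_le (Real.log_pos (h1 x hxm)) hΛ
  have hLA : ∀ w ∈ ball x (4 * r), DifferentiableAt ℂ L w := fun w hw =>
    (hLd w hw).differentiableAt (isOpen_ball.mem_nhds hw)
  have hd : ∀ z ∈ ball x (2 * r), ‖deriv L z‖ ≤ 6 * Λ / r := by
    intro z hz
    rw [mem_ball] at hz
    have hsub : ball z (2 * r) ⊆ ball x (4 * r) := ball_subset_ball' (by linarith)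
    have hzm : z ∈ ball x (4 * r) := hsub (mem_ball_self (by linarith))
    have h2 := deriv_log_bound (c := z) (r := 2 * r) (by linarith) (hLd.mono hsub) (fun w hw => by
      rw [hre w (hsub hw)]
      exact Real.log_pos (h1 w (hsub hw)))
    have h3 := harnack_up h4 hg h1 (z := z) (t := 1 / 2) (by norm_num) (by linarith) (by norm_num)
    rw [hre z hzm] at h2
    refine h2.trans ?_
    have h5 : 4 * Real.log ‖g z‖ ≤ 12 * Λ := by linarith
    calc 4 * Real.log ‖g z‖ / (2 * r) ≤ 12 * Λ / (2 * r) := by gcongr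
      _ = 6 * Λ / r := by field_simp; norm_num
  have hsub1 : ball x r ⊆ ball x (4 * r) := ball_subset_ball (by linarith)
  obtain ⟨ζ, hζ, hζ'⟩ : ∃ ζ ∈ ball x r, κ / r ≤ ‖deriv L ζ‖ := by
    by_contra hcon
    push Not at hcon
    have hy : y ∈ ball x r := by rwa [mem_ball, dist_comm]
    have h2 := (convex_ball x r).norm_image_sub_le_of_norm_deriv_le
      (fun w hw => hLA w (hsub1 hw)) (fun w hw => (hcon w hw).le) hy (mem_ball_self hr)
    have h3 : |Real.log ‖g x‖ - Real.log ‖g y‖| ≤ ‖L x - L y‖ := by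
      rw [← hre x hxm, ← hre y (hsub1 hy), ← Complex.sub_re]
      exact Complex.abs_re_le_norm _
    have h5 : κ / r * ‖x - y‖ ≤ κ := by
      rw [← dist_eq_norm, div_mul_eq_mul_div, div_le_iff₀ hr]
      exact mul_le_mul_of_nonneg_left hxy.le hκ.le
    linarith
  refine ⟨ζ, hζ, fun w hw0 hw => ?_⟩
  have hζx : dist ζ x < r := hζ
  have hsub2 : ball ζ r ⊆ ball x (2 * r) := ball_subset_ball' (by linarith)
  have hsub3 : ball ζ r ⊆ ball x (4 * r) := ball_subset_ball' (by linarith)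
  have h6 := open_ball_image (G := L) (ζ := ζ) (ρ := r) (M := 6 * Λ / r) (μ := κ / r) hr
    (hLd.mono hsub3) (fun z hz => hd z (hsub2 hz)) (by positivity) hζ'
  have hζm : ζ ∈ ball x (4 * r) := hsub1 hζ
  have hgζ : g ζ ≠ 0 := h0 ζ hζm
  have h7 : L ζ + Complex.log (w / g ζ) ∈ ball (L ζ) ((κ / r) ^ 2 * r / (32 * (6 * Λ / r))) := by
    rw [mem_ball, dist_eq_norm, add_sub_cancel_left]
    have e : (κ / r) ^ 2 * r / (32 * (6 * Λ / r)) = κ ^ 2 / (192 * Λ) := by
      field_simp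
      norm_num
    rw [e]
    refine lt_of_le_of_lt ?_ hw
    refine (Complex.norm_le_abs_re_add_abs_im _).trans ?_
    apply add_le_add
    · rw [Complex.log_re, norm_div, Real.log_div (norm_ne_zero_iff.2 hw0) (norm_ne_zero_iff.2 hgζ)]
    · rw [Complex.log_im]
      exact Complex.abs_arg_le_pi _
  obtain ⟨z, hz, hzL⟩ := h6 h7
  refine ⟨z, hsub3 hz, ?_⟩
  rw [← hL z (hsub3 hz), hzL, Complex.exp_add, hL ζ hζm, Complex.exp_log (div_ne_zero hw0 hgζ)]
  field_simp

end Pool.Agent.Q75.Ap
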