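import Mathlib
import Pool.Agent.H384R2.Fatou
import Pool.Agent.TH224.SC.Defs

/-!
Definitions: Fatou sets of meromorphic functions, Baker wandering domains.

A meromorphic function in the plane is represented by a function `F : ℂ → ℂ` in normal form
(`MeromorphicNFOn F univ`): `F` is analytic at every point which is not a pole, and takes the value
`0` at the poles.
-/

set_option autoImplicit false

open Filter Topology Metric Set Polynomial

namespace Pool.Agent.Q75.Ap

open Pool.Agent.H384R2.Fatou Pool.Agent.TH224.SC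

/-- The Fatou set (in the plane) of the meromorphic function `F` in normal form: the points with a
disc around them on which all iterates are defined and finite (no orbit starting in the disc meets a
pole) and form a normal family. -/
def MFatouSet (F : ℂ → ℂ) : Set ℂ :=
  {z | ∃ r : ℝ, 0 < r ∧ (∀ w ∈ ball z r, ∀ n : ℕ, AnalyticAt ℂ F (F^[n] w)) ∧
    NormalOn (fun k => F^[k]) (ball z r)}

/-- `A` surrounds `0`: the point `0` is not in `A`, and the component containing `0` of the complement
of `A` in the Riemann sphere is contained in a disc of the plane. -/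
def SurroundsZero (A : Set ℂ) : Prop :=
  (0 : ℂ) ∉ A ∧ ∃ R : ℝ,
    connectedComponentIn (((↑) : ℂ → OnePoint ℂ) '' A)ᶜ ((0 : ℂ) : OnePoint ℂ) ⊆
      ((↑) : ℂ → OnePoint ℂ) '' ball 0 R

/-- `U 0` is a Baker wandering domain of `F`, and `U n` is the Fatou component containing
`F^n(U 0)`: the components `U n` are pairwise disjoint, `F^n → ∞` on `U 0`, and for all large `n` the
component `U n` is bounded, multiply connected and surrounds `0`. -/
def IsBWD (F : ℂ → ℂ) (U : ℕ → Set ℂ) : Prop :=
  (∀ n, ∃ p ∈ MFatouSet F, U n = connectedComponentIn (MFatouSet F) p) ∧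
  (∀ n, F^[n] '' U 0 ⊆ U n) ∧
  (∀ m n, m ≠ n → Disjoint (U m) (U n)) ∧
  (∀ z ∈ U 0, Tendsto (fun n => ‖F^[n] z‖) atTop atTop) ∧
  ∀ᶠ n in atTop, Bornology.IsBounded (U n) ∧ (SphereHoles (U n)).Nontrivial ∧ SurroundsZero (U n)

/-- `F` is a transcendental meromorphic function (in normal form). -/
def TransMero (F : ℂ → ℂ) : Prop :=
  MeromorphicNFOn F univ ∧
    ¬ ∃ P Q : ℂ[X], Q ≠ 0 ∧ ∀ z : ℂ, Q.eval z ≠ 0 → F z = P.eval z / Q.eval z

end Pool.Agent.Q75.Ap
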