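import Pool.Agent.Q75.ApB
import Pool.Agent.Q75.ApDef

set_option autoImplicit false

/-!
Basic facts on Baker wandering domains of entire functions.
-/

open Filter Topology Metric Set Polynomial

namespace Pool.Agent.Q75.Ap

open Pool.Agent.W723.MC Pool.Agent.H384R2.Fatou Pool.Agent.TH224.SC

theorem mfatou_entire {f : ℂ → ℂ} (hf : Differentiable ℂ f) : MFatouSet f = FatouSet f := by
  ext z
  constructor
  · rintro ⟨r, hr, -, h⟩
    exact ⟨r, hr, h⟩
  · rintro ⟨r, hr, h⟩
    exact ⟨r, hr, fun w _ n => hf.analyticAt _, h⟩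

theorem open_of_trans {f : ℂ → ℂ} (hf : TransEntire f) : ∀ s : Set ℂ, IsOpen s → IsOpen (f '' s) := by
  have h1 : AnalyticOnNhd ℂ f univ := fun z _ => hf.1.analyticAt z
  rcases h1.is_constant_or_isOpen isPreconnected_univ with ⟨w, hw⟩ | h
  · exact absurd ⟨C w, fun z => by rw [hw z (mem_univ z), eval_C]⟩ hf.2
  · exact fun s hs => h s (subset_univ s) hs

theorem iter_open {f : ℂ → ℂ} (h : ∀ s : Set ℂ, IsOpen s → IsOpen (f '' s)) (n : ℕ) :
    ∀ s : Set ℂ, IsOpen s → IsOpen (f^[n] '' s) := by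
  induction n with
  | zero => intro s hs; simpa using hs
  | succ n ih =>
    intro s hs
    rw [Function.iterate_succ', image_comp]
    exact h _ (ih s hs)

/-- the image of `D` contains a disc around `0` or misses it -/
theorem ball_or {g : ℂ → ℂ} (hg : Continuous g) (hopen : ∀ s : Set ℂ, IsOpen s → IsOpen (g '' s))
    {E D : Set ℂ} (h : Sur E D) {R : ℝ} (hR : ∀ z ∈ E, R ≤ ‖g z‖)
    (hne : (ball 0 R ∩ g '' D).Nonempty) : ball 0 R ⊆ g '' D := by
  apply (convex_ball (0 : ℂ) R).isPreconnected.subset_of_closure_inter_subset (hopen _ h.dopen) hne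
  rintro y ⟨hy1, hy2⟩
  have h1 : closure (g '' D) ⊆ g '' closure D :=
    closure_minimal (image_mono subset_closure) (h.bdd.isCompact_closure.image hg).isClosed
  obtain ⟨z, hz, rfl⟩ := h1 hy1
  by_contra hcon
  have hzf : z ∈ frontier D := by
    rw [h.dopen.frontier_eq]
    exact ⟨hz, fun hzD => hcon ⟨z, hzD, rfl⟩⟩
  have := hR z (h.fr hzf)
  rw [mem_ball_zero_iff] at hy2
  linarith

theorem sur_eventually {f : ℂ → ℂ} (hf : Continuous f)
    (hopen : ∀ s : Set ℂ, IsOpen s → IsOpen (f '' s))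
    {E D : Set ℂ} (h : Sur E D) (hesc : EscOn f E) (hD : ¬ EscOn f D) :
    ∀ᶠ m in atTop, (0 : ℂ) ∈ f^[m] '' D := by
  obtain ⟨m1, hm1⟩ := Filter.eventually_atTop.1 (hesc (‖f 0‖ + 1))
  have hstep : ∀ m ≥ m1, (0 : ℂ) ∈ f^[m] '' D → (0 : ℂ) ∈ f^[m + 1] '' D := by
    rintro m hm ⟨z, hz, hz0⟩
    have h1 : f 0 ∈ f^[m + 1] '' D := ⟨z, hz, by rw [Function.iterate_succ_apply', hz0]⟩
    have h2 := ball_or (hf.iterate (m + 1)) (iter_open hopen (m + 1)) h
      (R := ‖f 0‖ + 1) (fun z hz => hm1 (m + 1) (by omega) z hz)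
      ⟨f 0, by rw [mem_ball_zero_iff]; linarith, h1⟩
    exact h2 (mem_ball_self (by positivity))
  by_cases hc : ∃ m ≥ m1, (0 : ℂ) ∈ f^[m] '' D
  · obtain ⟨m, hm, h0⟩ := hc
    filter_upwards [eventually_ge_atTop m] with k hk
    induction k, hk using Nat.le_induction with
    | base => exact h0
    | succ k hk ih => exact hstep k (by omega) ih
  · exfalso
    push Not at hc
    apply hD
    intro R
    filter_upwards [hesc (max R 1), eventually_ge_atTop m1] with m hm hm' z hz
    by_contra hcon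
    push Not at hcon
    apply hc m hm'
    have h2 := ball_or (hf.iterate m) (iter_open hopen m) h (R := max R 1) hm
      ⟨f^[m] z, by rw [mem_ball_zero_iff]; exact lt_of_lt_of_le hcon (le_max_left _ _), z, hz, rfl⟩
    exact h2 (mem_ball_self (by positivity))

/-- reduced data of a Baker wandering domain -/
structure Red (f : ℂ → ℂ) (W : ℕ → Set ℂ) (E D : Set ℂ) : Prop where
  trans : TransEntire f
  opn : ∀ s : Set ℂ, IsOpen s → IsOpen (f '' s)
  Wo : ∀ n, IsOpen (W n)
  Wc : ∀ n, IsPreconnected (W n)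
  Wm : ∀ n, MapsTo f (W n) (W (n + 1))
  far : ∀ n, ∀ z ∈ W n, 2 ≤ ‖z‖
  EW : E ⊆ W 0
  sur : ∀ m, Sur (f^[m] '' E) (f^[m] '' D)
  esc : EscOn f E

theorem exists_red {f : ℂ → ℂ} {U : ℕ → Set ℂ} (hf : TransEntire f) (hU : IsBWD f U) :
    ∃ (N : ℕ) (E D : Set ℂ), Red f (fun k => U (N + k)) E D := by
  obtain ⟨hcomp, himg, hdisj, hesc, hev⟩ := hU
  have hfc : Continuous f := hf.1.continuous
  have hopen := open_of_trans hf
  rw [mfatou_entire hf.1] at hcomp
  have hUo : ∀ n, IsOpen (U n) := by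
    intro n
    obtain ⟨p, -, hp⟩ := hcomp n
    rw [hp]
    exact component_isOpen f p
  have hUc : ∀ n, IsPreconnected (U n) := by
    intro n
    obtain ⟨p, -, hp⟩ := hcomp n
    rw [hp]
    exact isPreconnected_connectedComponentIn
  have hUF : ∀ n, U n ⊆ FatouSet f := by
    intro n
    obtain ⟨p, -, hp⟩ := hcomp n
    rw [hp]
    exact connectedComponentIn_subset _ _
  obtain ⟨z0, hz0⟩ : (U 0).Nonempty := by
    obtain ⟨p, hp, hp'⟩ := hcomp 0
    exact ⟨p, by rw [hp']; exact mem_connectedComponentIn hp⟩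
  have hz : ∀ n, f^[n] z0 ∈ U n := fun n => himg n ⟨z0, hz0, rfl⟩
  have hUeq : ∀ n, ∀ x ∈ U n, U n = FatouComponent f x := by
    intro n x hx
    obtain ⟨p, -, hp⟩ := hcomp n
    rw [hp] at hx ⊢
    exact connectedComponentIn_eq hx
  have hsub : ∀ n (S : Set ℂ), IsPreconnected S → S ⊆ FatouSet f → (S ∩ U n).Nonempty → S ⊆ U n := by
    rintro n S hS hSF ⟨x, hxS, hxU⟩
    rw [hUeq n x hxU]
    exact hS.subset_connectedComponentIn hxS hSF
  have hUm : ∀ n, MapsTo f (U n) (U (n + 1)) := by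
    intro n
    rw [mapsTo_iff_image_subset]
    apply hsub (n + 1) _ ((hUc n).image _ hfc.continuousOn)
    · rintro _ ⟨x, hx, rfl⟩
      exact fatou_forward hopen (hUF n hx)
    · refine ⟨f (f^[n] z0), ⟨_, hz n, rfl⟩, ?_⟩
      have e := Function.iterate_succ_apply' f n z0
      rw [← e]
      exact hz (n + 1)
  have hUmi : ∀ n m, MapsTo f^[m] (U n) (U (n + m)) := by
    intro n m
    induction m with
    | zero => exact fun x hx => hx
    | succ m ih =>
      intro x hx
      rw [Function.iterate_succ_apply']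
      exact hUm _ (ih hx)
  -- the first continuum
  obtain ⟨n0, -, -, h0, R, hR⟩ := hev.exists
  obtain ⟨E, D, hS, hEU⟩ := exists_sur (hUo n0) (hUc n0) h0 hR
  -- escape
  have hescp : Tendsto (fun n => ‖f^[n] (f^[n0] z0)‖) atTop atTop := by
    have h1 := (hesc z0 hz0).comp (tendsto_add_atTop_nat n0)
    refine h1.congr fun n => ?_
    rw [Function.comp, ← Function.iterate_add_apply]
  have hpF : f^[n0] z0 ∈ FatouSet f := hUF _ (hz n0)
  obtain ⟨r, hr, hN⟩ := id hpF
  have hSp : EscOn f (closedBall (f^[n0] z0) (r / 2)) :=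
    escOn_of_normal hN (mem_ball_self hr) hescp (isCompact_closedBall _ _)
      (closedBall_subset_ball (by linarith))
  have hnear : ∀ q ∈ U n0, ∃ r : ℝ, 0 < r ∧ EscOn f (ball q r) := by
    intro q hq
    rw [hUeq n0 _ (hz n0)] at hq
    obtain ⟨s, hs, -, h⟩ := esc_near hpF (closedBall_mem_nhds _ (by linarith)) hSp hq
    exact ⟨s, hs, h⟩
  have hEesc : EscOn f E := by
    refine hS.cpt.induction_on (p := fun S => EscOn f S) ?_ ?_ ?_ ?_
    · intro R
      exact Eventually.of_forall fun n z hz => absurd hz (by simp)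
    · intro s t hst ht
      exact ht.mono hst
    · intro s t hs ht R
      filter_upwards [hs R, ht R] with n h1 h2 z hz
      rcases hz with hz | hz
      · exact h1 z hz
      · exact h2 z hz
    · intro x hx
      obtain ⟨s, hs, h⟩ := hnear x (hEU hx)
      exact ⟨ball x s, mem_nhdsWithin_of_mem_nhds (ball_mem_nhds x hs), h⟩
  have hDne : D.Nonempty := ⟨0, hS.mem⟩
  have hDuniv : D ≠ univ := by
    intro h
    have := hS.bdd
    rw [h] at this
    exact NormedSpace.unbounded_univ ℝ ℂ this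
  have hDn : ¬ EscOn f D := by
    intro hD
    apply h0
    obtain ⟨x, hx⟩ := nonempty_frontier_iff.2 ⟨hDne, hDuniv⟩
    apply hsub n0 D hS.dconn (subset_fatou_of_escOn hD hS.dopen) ?_ hS.mem
    obtain ⟨y, hy1, hy2⟩ := mem_closure_iff.1 hx.1 _ (hUo n0) (hEU (hS.fr hx))
    exact ⟨y, hy2, hy1⟩
  have hgood := sur_eventually hfc hopen hS hEesc hDn
  -- far away
  have hfar : ∀ R : ℝ, ∀ᶠ n in atTop, ∀ z ∈ U n, R ≤ ‖z‖ := by
    intro R
    obtain ⟨m, hm1, hm2⟩ := (hgood.and (hEesc (max R 1))).exists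
    have hSm := hS.map (hfc.iterate m) (iter_open hopen m) hm1
    have hb : ball 0 (max R 1) ⊆ f^[m] '' D := hSm.ball_sub (by
      rintro _ ⟨z, hz, rfl⟩
      exact hm2 z hz)
    obtain ⟨B, hB⟩ := hSm.bdd.exists_norm_le
    filter_upwards [(hesc z0 hz0).eventually_gt_atTop B, eventually_gt_atTop (n0 + m)] with n hn1 hn2
    intro z hz'
    by_contra hcon
    push Not at hcon
    have hsubD : U n ⊆ f^[m] '' D := by
      apply (hUc n).subset_of_closure_inter_subset hSm.dopen
      · refine ⟨z, hz', hb ?_⟩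
        rw [mem_ball_zero_iff]
        exact lt_of_lt_of_le hcon (le_max_left _ _)
      · rintro y ⟨hy1, hy2⟩
        by_contra hy
        have hyf : y ∈ frontier (f^[m] '' D) := by
          rw [hSm.dopen.frontier_eq]
          exact ⟨hy1, hy⟩
        obtain ⟨x, hx, hxy⟩ := hSm.fr hyf
        have h1 : y ∈ U (n0 + m) := by
          rw [← hxy]
          exact hUmi n0 m (hEU hx)
        exact Set.disjoint_left.1 (hdisj n (n0 + m) (by omega)) hy2 h1
    have h2 := hB _ (hsubD (hz n))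
    linarith
  -- choice of the index
  obtain ⟨M1, hM1⟩ := Filter.eventually_atTop.1 hgood
  obtain ⟨M2, hM2⟩ := Filter.eventually_atTop.1 (hfar 2)
  set M := max M1 M2 with hM
  refine ⟨n0 + M, f^[M] '' E, f^[M] '' D, hf, hopen, fun n => hUo _, fun n => hUc _,
    fun n => ?_, fun n z hz' => ?_, ?_, fun m => ?_, ?_⟩
  · exact hUm (n0 + M + n)
  · exact hM2 (n0 + M + n) (by have := le_max_right M1 M2; omega) z hz'
  · rintro _ ⟨z, hz', rfl⟩
    exact hUmi n0 M (hEU hz')
  · rw [← image_comp, ← image_comp, ← Function.iterate_add]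
    exact hS.map (hfc.iterate _) (iter_open hopen _)
      (hM1 (m + M) (by have := le_max_left M1 M2; omega))
  · intro R
    have h1 := (tendsto_add_atTop_nat M).eventually (hEesc R)
    filter_upwards [h1] with n hn
    rintro _ ⟨z, hz', rfl⟩
    rw [← Function.iterate_add_apply]
    exact hn z hz'

namespace Red

variable {f : ℂ → ℂ} {W : ℕ → Set ℂ} {E D : Set ℂ}

theorem diff (h : Red f W E D) : Differentiable ℂ f := h.trans.1

theorem cont (h : Red f W E D) : Continuous f := h.trans.1.continuous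

theorem iterd (h : Red f W E D) (m : ℕ) : Differentiable ℂ f^[m] := h.trans.1.iterate m

theorem Wmi (h : Red f W E D) (n m : ℕ) : MapsTo f^[m] (W n) (W (n + m)) := by
  induction m with
  | zero => exact fun x hx => hx
  | succ m ih =>
    intro x hx
    rw [Function.iterate_succ_apply']
    exact h.Wm _ (ih hx)

theorem two_le (h : Red f W E D) {n m : ℕ} {z : ℂ} (hz : z ∈ W n) : 2 ≤ ‖f^[m] z‖ :=
  h.far _ _ (h.Wmi n m hz)

theorem one_lt (h : Red f W E D) {n m : ℕ} {z : ℂ} (hz : z ∈ W n) : 1 < ‖f^[m] z‖ := by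
  have := h.two_le (m := m) hz
  linarith

theorem log_pos (h : Red f W E D) {n m : ℕ} {z : ℂ} (hz : z ∈ W n) : 0 < Real.log ‖f^[m] z‖ :=
  Real.log_pos (h.one_lt hz)

theorem harnack (h : Red f W E D) (n : ℕ) {K : Set ℂ} (hK : IsCompact K) (hKW : K ⊆ W n) :
    ∃ C : ℝ, 1 ≤ C ∧ ∀ m, ∀ p ∈ K, ∀ q ∈ K,
      Real.log ‖f^[m] p‖ ≤ C * Real.log ‖f^[m] q‖ :=
  chainK (h.Wo n) (h.Wc n) (fun m => (h.iterd m).differentiableOn)
    (fun _ _ hz => h.one_lt hz) hK hKW

end Red

end Pool.Agent.Q75.Ap
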