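import Pool.Agent.Q75.ApC

set_option autoImplicit false

/-!
Growth of the orbits in a Baker wandering domain, and the first round annulus.
-/

open Filter Topology Metric Set Polynomial

namespace Pool.Agent.Q75.Ap

open Pool.Agent.W723.MC Pool.Agent.H384R2.Fatou Pool.Agent.TH224.SC

theorem poly_of_growth {f : ℂ → ℂ} (hf : Differentiable ℂ f) {d : ℕ}
    (h : ∀ T : ℝ, ∃ R : ℝ, T ≤ R ∧ ∀ z : ℂ, ‖z‖ < R → ‖f z‖ ≤ R ^ d) :
    ∃ p : ℂ[X], ∀ z, f z = p.eval z := by
  have h0 : ∀ n, d < n → iteratedDeriv n f 0 = 0 := by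
    intro n hn
    by_contra hne
    have hc : 0 < ‖iteratedDeriv n f 0‖ := norm_pos_iff.2 hne
    set c := ‖iteratedDeriv n f 0‖ with hcdef
    obtain ⟨R, hR, hb⟩ := h (max 1 ((n.factorial : ℝ) * 2 ^ n / c + 1))
    have hR1 : 1 ≤ R := (le_max_left _ _).trans hR
    have hR2 : (n.factorial : ℝ) * 2 ^ n / c + 1 ≤ R := (le_max_right _ _).trans hR
    have hR0 : 0 < R := by linarith
    have h1 := Complex.norm_iteratedDeriv_le_of_forall_mem_sphere_norm_le (c := (0 : ℂ)) n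
      (R := R / 2) (C := R ^ d) (f := f) (by linarith) hf.diffContOnCl (fun z hz => by
        apply hb
        rw [mem_sphere_zero_iff_norm] at hz
        rw [hz]
        linarith)
    rw [← hcdef] at h1
    have h2 : (n.factorial : ℝ) * R ^ d / (R / 2) ^ n ≤ (n.factorial : ℝ) * 2 ^ n / R := by
      rw [div_pow, div_div_eq_mul_div, div_le_div_iff₀ (by positivity) hR0]
      have h3 : R ^ d * R ≤ R ^ n := by
        rw [← pow_succ]
        exact pow_le_pow_right₀ hR1 hn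
      have h4 : (0 : ℝ) ≤ (n.factorial : ℝ) * 2 ^ n := by positivity
      nlinarith
    have h3 : c ≤ (n.factorial : ℝ) * 2 ^ n / R := h1.trans h2
    rw [le_div_iff₀ hR0] at h3
    have h4 : (n.factorial : ℝ) * 2 ^ n / c < R := by linarith
    rw [div_lt_iff₀ hc] at h4
    linarith
  refine ⟨∑ n ∈ Finset.range (d + 1), Polynomial.C ((n.factorial : ℂ)⁻¹ * iteratedDeriv n f 0) * X ^ n,
    fun z => ?_⟩
  have h1 := Complex.taylorSeries_eq_of_entire' 0 z hf
  rw [← h1, tsum_eq_sum (s := Finset.range (d + 1))]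
  · rw [eval_finsetSum]
    apply Finset.sum_congr rfl
    intro n _
    simp
  · intro n hn
    rw [Finset.mem_range, not_lt] at hn
    rw [h0 n (by omega)]
    simp

namespace Red

variable {f : ℂ → ℂ} {W : ℕ → Set ℂ} {E D : Set ℂ}

theorem sur0 (h : Red f W E D) : Sur E D := by simpa using h.sur 0

theorem log_tendsto (h : Red f W E D) {z0 : ℂ} (hz0 : z0 ∈ E) :
    Tendsto (fun m => Real.log ‖f^[m] z0‖) atTop atTop := by
  apply Real.tendsto_log_atTop.comp
  rw [Filter.tendsto_atTop]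
  intro R
  filter_upwards [h.esc R] with m hm
  exact hm z0 hz0

theorem growth (h : Red f W E D) {z0 : ℂ} (hz0 : z0 ∈ E) (K : ℝ) :
    ∀ᶠ m in atTop, K * Real.log ‖f^[m] z0‖ ≤ Real.log ‖f^[m + 1] z0‖ := by
  obtain ⟨C, hC, hH⟩ := h.harnack 0 h.sur0.cpt h.EW
  have hC0 : 0 < C := by linarith
  by_contra hcon
  rw [Filter.not_eventually] at hcon
  apply h.trans.2
  obtain ⟨d, hd⟩ := exists_nat_ge (C * C * max K 1)
  apply poly_of_growth h.diff (d := d)
  intro T
  have hlt : ∀ᶠ m in atTop, C * Real.log (max T 1) ≤ Real.log ‖f^[m] z0‖ :=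
    (h.log_tendsto hz0).eventually_ge_atTop _
  obtain ⟨m, hm1, hm2⟩ := (hcon.and_eventually hlt).exists
  push Not at hm1
  set L := Real.log ‖f^[m] z0‖ with hL
  have hL0 : 0 < L := h.log_pos (h.EW hz0)
  refine ⟨Real.exp (L / C), ?_, fun z hz => ?_⟩
  · have h1 : Real.log (max T 1) ≤ L / C := by
      rw [le_div_iff₀ hC0]; linarith
    have h2 := Real.exp_le_exp.2 h1
    rw [Real.exp_log (by positivity)] at h2
    exact (le_max_left _ _).trans h2
  · have hb : ball 0 (Real.exp (L / C)) ⊆ f^[m] '' D := (h.sur m).ball_sub (by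
      rintro _ ⟨y, hy, rfl⟩
      have h1 := hH m z0 hz0 y hy
      have h2 : L / C ≤ Real.log ‖f^[m] y‖ := by
        rw [div_le_iff₀ hC0]; linarith
      have h3 := Real.exp_le_exp.2 h2
      rwa [Real.exp_log (by linarith [h.one_lt (m := m) (h.EW hy)])] at h3)
    obtain ⟨x, hx, rfl⟩ := hb (mem_ball_zero_iff.2 hz)
    have e := Function.iterate_succ_apply' f m x
    rw [← e]
    have h1 : ‖f^[m + 1] x‖ ≤ Real.exp (C * Real.log ‖f^[m + 1] z0‖) := by
      apply h.sur0.max_princ (h.iterd (m + 1)) ?_ (subset_closure hx)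
      intro y hy
      have h2 := hH (m + 1) y hy z0 hz0
      have h3 := Real.exp_le_exp.2 h2
      rwa [Real.exp_log (by linarith [h.one_lt (m := m + 1) (h.EW hy)])] at h3
    refine h1.trans ?_
    rw [← Real.exp_nat_mul]
    apply Real.exp_le_exp.2
    have h2 : K * L ≤ max K 1 * L := mul_le_mul_of_nonneg_right (le_max_left _ _) hL0.le
    have h3 : C * Real.log ‖f^[m + 1] z0‖ ≤ C * (max K 1 * L) :=
      mul_le_mul_of_nonneg_left (by linarith) hC0.le
    have h4 : C * (max K 1 * L) = C * C * max K 1 * (L / C) := by field_simp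
    rw [h4] at h3
    refine h3.trans ?_
    apply mul_le_mul_of_nonneg_right hd
    positivity

/-- orbits of arbitrary points -/
theorem growth_any (h : Red f W E D) {n : ℕ} {x : ℂ} (hx : x ∈ W n) (K : ℝ) :
    ∀ᶠ m in atTop, K * Real.log ‖f^[m] x‖ ≤ Real.log ‖f^[m + 1] x‖ := by
  obtain ⟨z0, hz0⟩ := h.sur0.conn.nonempty
  have hy : f^[n] z0 ∈ W n := by
    have := h.Wmi 0 n (h.EW hz0)
    rwa [zero_add] at this
  obtain ⟨C, hC, hH⟩ := h.harnack n (K := {x, f^[n] z0}) (Set.toFinite _).isCompact (by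
    rintro w (rfl | rfl)
    · exact hx
    · exact hy)
  have hC0 : 0 < C := by linarith
  have h1 := (tendsto_add_atTop_nat n).eventually (h.growth hz0 (C * C * max K 1))
  filter_upwards [h1] with m hm
  have h2 := hH m x (by simp) (f^[n] z0) (by simp)
  have h3 := hH (m + 1) (f^[n] z0) (by simp) x (by simp)
  rw [← Function.iterate_add_apply] at h2 h3
  have e : m + n + 1 = m + 1 + n := by ring
  rw [e] at hm
  have h4 := h.log_pos (m := m) hx
  have h5 : K * Real.log ‖f^[m] x‖ ≤ max K 1 * Real.log ‖f^[m] x‖ :=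
    mul_le_mul_of_nonneg_right (le_max_left _ _) h4.le
  have h6 : max K 1 * Real.log ‖f^[m] x‖ ≤ max K 1 * (C * Real.log ‖f^[m + n] z0‖) :=
    mul_le_mul_of_nonneg_left h2 (by positivity)
  have h7 : C * (max K 1 * (C * Real.log ‖f^[m + n] z0‖)) ≤ C * Real.log ‖f^[m + 1] x‖ := by
    calc C * (max K 1 * (C * Real.log ‖f^[m + n] z0‖))
        = C * C * max K 1 * Real.log ‖f^[m + n] z0‖ := by ring
      _ ≤ _ := hm.trans h3
  have h8 := le_of_mul_le_mul_left h7 hC0
  linarith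

/-- on the unit circle the iterates are small -/
theorem unit_small (h : Red f W E D) {n : ℕ} (hn : 1 ≤ n) {x : ℂ} (hx : x ∈ W n) {δ : ℝ}
    (hδ : 0 < δ) :
    ∀ᶠ m in atTop, ∀ z : ℂ, ‖z‖ = Real.exp 0 → ‖f^[m] z‖ ≤ Real.exp (δ * Real.log ‖f^[m] x‖) := by
  obtain ⟨z0, hz0⟩ := h.sur0.conn.nonempty
  have hy : f^[n] z0 ∈ W n := by
    have := h.Wmi 0 n (h.EW hz0)
    rwa [zero_add] at this
  obtain ⟨C0, hC0, hH0⟩ := h.harnack 0 h.sur0.cpt h.EW
  obtain ⟨C, hC, hH⟩ := h.harnack n (K := {x, f^[n] z0}) (Set.toFinite _).isCompact (by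
    rintro w (rfl | rfl)
    · exact hx
    · exact hy)
  have hCp : 0 < C := by linarith
  obtain ⟨M, hM⟩ := Filter.eventually_atTop.1 (h.growth hz0 1)
  have hmono : ∀ m ≥ M, ∀ k, Real.log ‖f^[m] z0‖ ≤ Real.log ‖f^[m + k] z0‖ := by
    intro m hm k
    induction k with
    | zero => exact le_rfl
    | succ k ih =>
      have := hM (m + k) (by omega)
      rw [one_mul] at this
      exact ih.trans this
  filter_upwards [h.growth hz0 (C * C0 / δ), eventually_ge_atTop M] with m hm hmM z hz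
  have hzb : z ∈ closure D := by
    apply subset_closure
    apply h.sur0.ball_sub (r := 2) (fun y hy => h.far 0 y (h.EW hy))
    rw [mem_ball_zero_iff, hz, Real.exp_zero]
    norm_num
  have h1 : ‖f^[m] z‖ ≤ Real.exp (C0 * Real.log ‖f^[m] z0‖) := by
    apply h.sur0.max_princ (h.iterd m) ?_ hzb
    intro y hy
    have h2 := hH0 m y hy z0 hz0
    have h3 := Real.exp_le_exp.2 h2
    rwa [Real.exp_log (by linarith [h.one_lt (m := m) (h.EW hy)])] at h3
  refine h1.trans (Real.exp_le_exp.2 ?_)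
  obtain ⟨n', rfl⟩ : ∃ n', n = n' + 1 := ⟨n - 1, by omega⟩
  have h2 := hmono (m + 1) (by omega) n'
  have h3 := hH m (f^[n' + 1] z0) (by simp) x (by simp)
  rw [← Function.iterate_add_apply] at h3
  have e : m + 1 + n' = m + (n' + 1) := by ring
  rw [e] at h2
  have h4 : C * C0 / δ * Real.log ‖f^[m] z0‖ ≤ C * Real.log ‖f^[m] x‖ := by linarith
  have h5 : C * (C0 / δ * Real.log ‖f^[m] z0‖) ≤ C * Real.log ‖f^[m] x‖ := by
    calc _ = C * C0 / δ * Real.log ‖f^[m] z0‖ := by ring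
      _ ≤ _ := h4
  have h6 := le_of_mul_le_mul_left h5 hCp
  calc C0 * Real.log ‖f^[m] z0‖ = δ * (C0 / δ * Real.log ‖f^[m] z0‖) := by field_simp
    _ ≤ _ := mul_le_mul_of_nonneg_left h6 hδ.le

/-- round annuli of fixed relative width -/
theorem first_annulus (h : Red f W E D) : ∃ ε : ℝ, 0 < ε ∧ ε ≤ 1 / 2 ∧ ∀ T : ℝ, ∃ n : ℕ, 1 ≤ n ∧
    ∃ ℓ : ℝ, T ≤ ℓ ∧ ∀ w : ℂ, |Real.log ‖w‖ - ℓ| < ε * ℓ → w ∈ W n := by
  obtain ⟨z0, hz0⟩ := h.sur0.conn.nonempty
  obtain ⟨C0, hC0, hH0⟩ := h.harnack 0 h.sur0.cpt h.EW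
  have S1 := h.sur 1
  simp only [Function.iterate_one] at S1
  have hE1W : f '' E ⊆ W 1 := by
    rintro _ ⟨y, hy, rfl⟩
    exact h.Wm 0 (h.EW hy)
  obtain ⟨p, hp, hpmin⟩ := S1.cpt.exists_isMinOn S1.conn.nonempty continuous_norm.continuousOn
  have hpW := hE1W hp
  have hp2 : 2 ≤ ‖p‖ := h.far 1 p hpW
  set ρ := ‖p‖ with hρ
  have hρ0 : 0 < ρ := by linarith
  obtain ⟨r, hr, hpr⟩ := Metric.isOpen_iff.1 (h.Wo 1) p hpW
  set c : ℝ := max (3 / 4) (1 - r / (2 * ρ)) with hc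
  have hc1 : c < 1 := by
    rw [hc, max_lt_iff]
    have : 0 < r / (2 * ρ) := by positivity
    constructor <;> linarith
  have hc34 : 3 / 4 ≤ c := le_max_left _ _
  have hcr : (1 - c) * ρ ≤ r / 2 := by
    have h1 : 1 - r / (2 * ρ) ≤ c := le_max_right _ _
    have h2 : (1 - c) * ρ ≤ r / (2 * ρ) * ρ := mul_le_mul_of_nonneg_right (by linarith) hρ0.le
    have h3 : r / (2 * ρ) * ρ = r / 2 := by field_simp
    linarith
  set seg : Set ℂ := (fun t : ℝ => (t : ℂ) * p) '' Icc c 1 with hseg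
  have hsegn : ∀ t : ℝ, 0 < t → ‖(t : ℂ) * p‖ = t * ρ := by
    intro t ht
    rw [norm_mul, Complex.norm_real, Real.norm_eq_abs, abs_of_pos ht]
  have hsegW : seg ⊆ W 1 := by
    rintro _ ⟨t, ht, rfl⟩
    apply hpr
    rw [mem_ball, dist_eq_norm]
    have e : (t : ℂ) * p - p = ((t - 1 : ℝ) : ℂ) * p := by push_cast; ring
    show ‖(t : ℂ) * p - p‖ < r
    rw [e, norm_mul, Complex.norm_real, Real.norm_eq_abs, abs_sub_comm, abs_of_nonneg (by linarith [ht.2])]
    have : (1 - t) * ρ ≤ (1 - c) * ρ := mul_le_mul_of_nonneg_right (by linarith [ht.1]) hρ0.le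
    linarith
  have hps : p ∈ seg := ⟨1, ⟨hc1.le, le_rfl⟩, by simp⟩
  set X : Set ℂ := f '' E ∪ seg with hX
  have hXc : IsCompact X := S1.cpt.union (isCompact_Icc.image (by fun_prop))
  have hXp : IsPreconnected X := IsPreconnected.union p hp hps S1.conn.isPreconnected
    (isPreconnected_Icc.image _ (by fun_prop))
  have hXW : X ⊆ W 1 := union_subset hE1W hsegW
  obtain ⟨δ, hδ, hth⟩ := hXc.exists_thickening_subset_open (h.Wo 1) hXW
  set r1 : ℝ := δ / 4 with hr1
  have hr10 : 0 < r1 := by positivity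
  have hball : ∀ x ∈ X, ball x (4 * r1) ⊆ W 1 := by
    intro x hx
    refine (ball_subset_ball (by rw [hr1]; linarith)).trans ((ball_subset_thickening hx δ).trans hth)
  obtain ⟨K, hK, hchain⟩ := addchain hXc hXp hr10
  obtain ⟨C1, hC1, hH1⟩ := h.harnack 1 hXc hXW
  have hC1p : 0 < C1 := by linarith
  -- the point p'
  set p' : ℂ := (c : ℂ) * p with hp'
  have hp'n : ‖p'‖ = c * ρ := hsegn c (by linarith)
  have hp's : p' ∈ seg := ⟨c, ⟨le_rfl, hc1.le⟩, rfl⟩
  have hcρ1 : 1 < c * ρ := by nlinarith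
  have hlρ : 0 < Real.log ρ := Real.log_pos (by linarith)
  set τ : ℝ := Real.log (c * ρ) / Real.log ρ with hτ
  have hτ1 : τ < 1 := by
    rw [hτ, div_lt_one hlρ]
    exact Real.log_lt_log (by linarith) (by nlinarith)
  have hτ0 : 0 < τ := div_pos (Real.log_pos hcρ1) hlρ
  set c2 : ℝ := (1 - τ) ^ 2 / (16 * K ^ 2 * (192 * C1)) with hc2
  have h1τ : 0 < 1 - τ := by linarith
  have hc20 : 0 < c2 := by positivity
  set ε : ℝ := min (1 / 2) (c2 / (4 * C1)) with hε
  have hε0 : 0 < ε := lt_min (by norm_num) (by positivity)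
  refine ⟨ε, hε0, min_le_left _ _, fun T => ?_⟩
  have hlt := h.log_tendsto hz0
  have hlt' : Tendsto (fun m => Real.log ‖f^[m + 1] z0‖) atTop atTop :=
    hlt.comp (tendsto_add_atTop_nat 1)
  obtain ⟨m, hm1, hm2, hm3⟩ := ((h.growth hz0 (2 * C0)).and
    ((hlt'.eventually_gt_atTop (2 * Real.pi / c2)).and
      (hlt'.eventually_ge_atTop (3 * C1 * T)))).exists
  -- the maximum
  obtain ⟨q, hq, hqmax⟩ := S1.cpt.exists_isMaxOn S1.conn.nonempty
    (h.iterd m).continuous.norm.continuousOn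
  have hqW := hE1W hq
  set Λ : ℝ := Real.log ‖f^[m] q‖ with hΛ
  have hΛ0 : 0 < Λ := h.log_pos hqW
  have hLΛ : Real.log ‖f^[m + 1] z0‖ ≤ Λ := by
    apply Real.log_le_log (by linarith [h.one_lt (m := m + 1) (h.EW hz0)])
    rw [Function.iterate_succ_apply]
    exact hqmax ⟨z0, hz0, rfl⟩
  have hmaxE : ∀ y ∈ f '' E, ‖f^[m] y‖ ≤ Real.exp Λ := by
    intro y hy
    rw [hΛ, Real.exp_log (by linarith [h.one_lt (m := m) hqW])]
    exact hqmax hy
  -- three circles
  have hp'bound : Real.log ‖f^[m] p'‖ ≤ (1 + τ) / 2 * Λ := by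
    have hsub : ball 0 ρ ⊆ f '' D := S1.ball_sub (fun z hz => hpmin hz)
    have hB : ∀ z : ℂ, ‖z‖ = Real.exp (Real.log ρ) → ‖f^[m] z‖ ≤ Real.exp Λ := by
      intro z hz
      apply S1.max_princ (h.iterd m) hmaxE
      rw [Real.exp_log hρ0] at hz
      apply closure_mono hsub
      rw [closure_ball _ hρ0.ne', mem_closedBall_zero_iff]
      exact hz.le
    have hA : ∀ z : ℂ, ‖z‖ = Real.exp 0 →
        ‖f^[m] z‖ ≤ Real.exp (C0 * Real.log ‖f^[m] z0‖) := by
      intro z hz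
      apply h.sur0.max_princ (h.iterd m)
      · intro y hy
        have h2 := hH0 m y hy z0 hz0
        have h3 := Real.exp_le_exp.2 h2
        rwa [Real.exp_log (by linarith [h.one_lt (m := m) (h.EW hy)])] at h3
      · apply subset_closure
        apply h.sur0.ball_sub (r := 2) (fun y hy => h.far 0 y (h.EW hy))
        rw [mem_ball_zero_iff, hz, Real.exp_zero]
        norm_num
    have h3 := three (h.iterd m) hlρ hA hB (z := p') (t := Real.log (c * ρ))
      (by rw [Real.exp_log (by linarith), hp'n]) (Real.log_pos hcρ1).le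
      (Real.log_le_log (by linarith) (by nlinarith))
    rw [sub_zero, sub_zero, ← hτ] at h3
    have h4 := Real.log_le_log (by linarith [h.one_lt (m := m) (hsegW hp's)]) h3
    rw [Real.log_exp] at h4
    have h5 : (1 - τ) * (C0 * Real.log ‖f^[m] z0‖) ≤ (1 - τ) * (Λ / 2) :=
      mul_le_mul_of_nonneg_left (by linarith) h1τ.le
    nlinarith
  -- variation
  set κ : ℝ := (1 - τ) / (4 * K) * Λ with hκ
  have hκ0 : 0 < κ := by positivity
  obtain ⟨x, hx, y, hy, hxy, hu⟩ : ∃ x ∈ X, ∃ y ∈ X, dist x y < r1 ∧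
      κ < |Real.log ‖f^[m] x‖ - Real.log ‖f^[m] y‖| := by
    by_contra hcon
    push Not at hcon
    have h3 := hchain (fun z => Real.log ‖f^[m] z‖) κ hκ0.le (fun x hx y hy hxy => hcon x hx y hy hxy)
      q (Or.inl hq) p' (Or.inr hp's)
    have h4 := le_abs_self (Real.log ‖f^[m] q‖ - Real.log ‖f^[m] p'‖)
    have h5 : K * κ = (1 - τ) / 4 * Λ := by rw [hκ]; field_simp
    rw [h5] at h3
    have h6 : 0 < (1 - τ) * Λ := by positivity
    nlinarith
  have hxΛ : Real.log ‖f^[m] x‖ ≤ C1 * Λ := hH1 m x hx q (Or.inl hq)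
  have hxΛ' : Λ ≤ C1 * Real.log ‖f^[m] x‖ := hH1 m q (Or.inl hq) x hx
  have hb4 := hball x hx
  obtain ⟨ζ, hζ, hann⟩ := disc_annulus hr10 ((h.iterd m).differentiableOn (s := ball x (4 * r1)))
    (fun z hz => h.one_lt (hb4 hz)) hxy hxΛ hκ0 hu
  have hζd : dist ζ x ≤ 1 / 4 * (4 * r1) := by
    rw [mem_ball] at hζ
    linarith
  have h4r : 0 < 4 * r1 := by positivity
  have hup := harnack_up h4r ((h.iterd m).differentiableOn (s := ball x (4 * r1)))
    (fun z hz => h.one_lt (hb4 hz)) (by norm_num) hζd (by norm_num)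
  have hdown := harnack_down h4r ((h.iterd m).differentiableOn (s := ball x (4 * r1)))
    (fun z hz => h.one_lt (hb4 hz)) (by norm_num) hζd (by norm_num)
  set ℓ : ℝ := Real.log ‖f^[m] ζ‖ with hℓ
  have hℓup : ℓ ≤ 2 * C1 * Λ := by linarith
  have hℓdn : Λ ≤ 3 * C1 * ℓ := by
    have h3 : C1 * Real.log ‖f^[m] x‖ ≤ C1 * ((1 + 8 * (1 / 4)) * ℓ) :=
      mul_le_mul_of_nonneg_left hdown hC1p.le
    linarith
  have hℓ0 : 0 < ℓ := by
    by_contra hcon
    push Not at hcon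
    have : 3 * C1 * ℓ ≤ 0 := mul_nonpos_of_nonneg_of_nonpos (by positivity) hcon
    linarith
  refine ⟨1 + m, by omega, ℓ, ?_, fun w hw => ?_⟩
  · have h3 : 3 * C1 * T ≤ 3 * C1 * ℓ := by linarith
    exact le_of_mul_le_mul_left h3 (by positivity)
  · have hw0 : w ≠ 0 := by
      rintro rfl
      rw [norm_zero, Real.log_zero, zero_sub, abs_neg, abs_of_pos hℓ0] at hw
      have : ε ≤ 1 / 2 := min_le_left _ _
      nlinarith
    have hw' : |Real.log ‖w‖ - ℓ| + Real.pi < κ ^ 2 / (192 * (C1 * Λ)) := by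
      have e : κ ^ 2 / (192 * (C1 * Λ)) = c2 * Λ := by
        rw [hκ, hc2]; field_simp; norm_num
      rw [e]
      have h3 : ε * ℓ ≤ c2 / (4 * C1) * (2 * C1 * Λ) :=
        mul_le_mul (min_le_right _ _) hℓup hℓ0.le (by positivity)
      have h4 : c2 / (4 * C1) * (2 * C1 * Λ) = c2 / 2 * Λ := by field_simp; norm_num
      rw [div_lt_iff₀ hc20] at hm2
      have h5 : Real.log ‖f^[m + 1] z0‖ * c2 ≤ Λ * c2 := mul_le_mul_of_nonneg_right hLΛ hc20.le
      linarith
    obtain ⟨z, hz, hzw⟩ := hann w hw0 hw'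
    rw [← hzw]
    exact h.Wmi 1 m (hb4 hz)

end Red

end Pool.Agent.Q75.Ap
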