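import Pool.Agent.Q75.ApD

set_option autoImplicit false

/-!
Annuli around the orbit of a point, and shadowing.
-/

open Filter Topology Metric Set Polynomial

namespace Pool.Agent.Q75.Ap

open Pool.Agent.W723.MC Pool.Agent.H384R2.Fatou Pool.Agent.TH224.SC

/-- Harnack's inequality in logarithmic coordinates -/
theorem log_harnack {G : ℂ → ℂ} {y w : ℂ} {R t : ℝ} (hy : y ≠ 0) (hR : 0 < R)
    (hG : ∀ v : ℂ, v ≠ 0 → |Real.log ‖v‖ - Real.log ‖y‖| < R →
      DifferentiableAt ℂ G v ∧ 1 < ‖G v‖) (hw : w ≠ 0) (ht : 0 ≤ t)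
    (hd : ‖Complex.log (w / y)‖ ≤ t * R) (ht1 : t ≤ 1 / 4) :
    Real.log ‖G w‖ ≤ (1 + 4 * t) * Real.log ‖G y‖ ∧
      Real.log ‖G y‖ ≤ (1 + 8 * t) * Real.log ‖G w‖ := by
  set s := Complex.log y with hs
  have hsre : s.re = Real.log ‖y‖ := Complex.log_re y
  have hmem : ∀ v ∈ ball s R, DifferentiableAt ℂ G (Complex.exp v) ∧ 1 < ‖G (Complex.exp v)‖ := by
    intro v hv
    apply hG _ (Complex.exp_ne_zero v)
    rw [Complex.norm_exp, Real.log_exp, ← hsre, ← Complex.sub_re]
    rw [mem_ball, dist_eq_norm] at hv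
    exact lt_of_le_of_lt (Complex.abs_re_le_norm _) hv
  have hgd : DifferentiableOn ℂ (fun v => G (Complex.exp v)) (ball s R) := by
    intro v hv
    apply DifferentiableAt.differentiableWithinAt
    exact (hmem v hv).1.comp v Complex.differentiable_exp.differentiableAt
  set z := s + Complex.log (w / y) with hz
  have hdist : dist z s ≤ t * R := by
    rw [dist_eq_norm, hz, add_sub_cancel_left]
    exact hd
  have h1 := harnack_up hR hgd (fun v hv => (hmem v hv).2) ht hdist (by linarith)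
  have h2 := harnack_down hR hgd (fun v hv => (hmem v hv).2) ht hdist ht1
  have e1 : Complex.exp s = y := Complex.exp_log hy
  have e2 : Complex.exp z = w := by
    rw [hz, Complex.exp_add, e1, Complex.exp_log (div_ne_zero hw hy)]
    field_simp
  rw [e1, e2] at h1 h2
  exact ⟨h1, h2⟩

theorem norm_log_div_le {w y : ℂ} (hw : w ≠ 0) (hy : y ≠ 0) :
    ‖Complex.log (w / y)‖ ≤ |Real.log ‖w‖ - Real.log ‖y‖| + Real.pi := by
  refine (Complex.norm_le_abs_re_add_abs_im _).trans ?_
  apply add_le_add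
  · rw [Complex.log_re, norm_div, Real.log_div (norm_ne_zero_iff.2 hw) (norm_ne_zero_iff.2 hy)]
  · rw [Complex.log_im]
    exact Complex.abs_arg_le_pi _

namespace Red

variable {f : ℂ → ℂ} {W : ℕ → Set ℂ} {E D : Set ℂ}

/-- annuli of fixed relative width around an orbit -/
theorem star (h : Red f W E D) : ∃ ε : ℝ, 0 < ε ∧ ε ≤ 1 / 2 ∧ ∃ n : ℕ, ∃ x0 : ℂ, x0 ∈ W n ∧
    ∀ᶠ k in atTop, ∀ w : ℂ, |Real.log ‖w‖ - Real.log ‖f^[k] x0‖| < ε * Real.log ‖f^[k] x0‖ →
      w ∈ W (n + k) := by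
  obtain ⟨ε1, hε0, hε1, hfa⟩ := h.first_annulus
  obtain ⟨n, hn, ℓ, hℓ, hann⟩ := hfa (64 * Real.pi / ε1 ^ 2)
  have hpi := Real.pi_pos
  have hpi3 := Real.pi_gt_three
  have hℓ0 : 0 < ℓ := lt_of_lt_of_le (by positivity) hℓ
  have hℓε : 64 * Real.pi ≤ ℓ * ε1 ^ 2 := by rwa [div_le_iff₀ (by positivity)] at hℓ
  set x0 : ℂ := ((Real.exp ℓ : ℝ) : ℂ) with hx0
  have hx0n : ‖x0‖ = Real.exp ℓ := by
    rw [hx0, Complex.norm_real, Real.norm_eq_abs, abs_of_pos (Real.exp_pos _)]
  have hx0W : x0 ∈ W n := hann x0 (by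
    rw [hx0n, Real.log_exp, sub_self, abs_zero]; positivity)
  refine ⟨ε1 / 4, by positivity, by linarith, n, x0, hx0W, ?_⟩
  -- the circles
  have hcirc : ∀ k : ℕ, ∀ t : ℝ, |t - ℓ| ≤ ε1 / 2 * ℓ → ∀ z w : ℂ, ‖z‖ = Real.exp t →
      ‖w‖ = Real.exp t → Real.log ‖f^[k] w‖ ≤ (1 + ε1 / 8) * Real.log ‖f^[k] z‖ := by
    intro k t ht z w hz hw
    have hz0 : z ≠ 0 := by rw [← norm_pos_iff, hz]; exact Real.exp_pos _
    have hw0 : w ≠ 0 := by rw [← norm_pos_iff, hw]; exact Real.exp_pos _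
    have h1 := log_harnack (G := f^[k]) (y := z) (w := w) (R := ε1 / 2 * ℓ) (t := ε1 / 32) hz0
      (by positivity) (fun v hv0 hv => by
        have hvW : v ∈ W n := by
          apply hann
          rw [hz, Real.log_exp] at hv
          have := abs_sub_le (Real.log ‖v‖) t ℓ
          linarith
        exact ⟨(h.iterd k).differentiableAt, h.one_lt hvW⟩) hw0 (by positivity) (by
        have h2 := norm_log_div_le hw0 hz0
        rw [hz, hw, sub_self, abs_zero, zero_add] at h2
        refine h2.trans ?_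
        nlinarith) (by linarith)
    have h3 := h1.1
    have e : 1 + 4 * (ε1 / 32) = 1 + ε1 / 8 := by ring
    rwa [e] at h3
  filter_upwards [h.unit_small hn hx0W (show (0 : ℝ) < 1 / 8 by norm_num)] with k hk w hw
  set L := Real.log ‖f^[k] x0‖ with hL
  have hL0 : 0 < L := h.log_pos hx0W
  have hexpL : ∀ z ∈ W n, ‖f^[k] z‖ = Real.exp (Real.log ‖f^[k] z‖) := fun z hz => by
    rw [Real.exp_log (by linarith [h.one_lt (m := k) hz])]
  have hcW : ∀ t : ℝ, |t - ℓ| ≤ ε1 / 2 * ℓ → ∀ z : ℂ, ‖z‖ = Real.exp t → z ∈ W n := by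
    intro t ht z hz
    apply hann
    rw [hz, Real.log_exp]
    have : 0 < ε1 * ℓ := by positivity
    linarith
  have hw0 : w ≠ 0 := by
    rintro rfl
    rw [norm_zero, Real.log_zero, zero_sub, abs_neg, abs_of_pos hL0] at hw
    nlinarith
  have hwn : 0 < ‖w‖ := norm_pos_iff.2 hw0
  rw [abs_lt] at hw
  -- inner and outer circle
  have ht1 : |(1 - ε1 / 2) * ℓ - ℓ| ≤ ε1 / 2 * ℓ := by
    have e : (1 - ε1 / 2) * ℓ - ℓ = -(ε1 / 2 * ℓ) := by ring
    rw [e, abs_neg, abs_of_pos (by positivity)]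
  have ht2 : |(1 + ε1 / 2) * ℓ - ℓ| ≤ ε1 / 2 * ℓ := by
    have e : (1 + ε1 / 2) * ℓ - ℓ = ε1 / 2 * ℓ := by ring
    rw [e, abs_of_pos (by positivity)]
  have ht0 : |ℓ - ℓ| ≤ ε1 / 2 * ℓ := by rw [sub_self, abs_zero]; positivity
  have hinner : ∀ z : ℂ, ‖z‖ = Real.exp ((1 - ε1 / 2) * ℓ) →
      ‖f^[k] z‖ ≤ Real.exp ((1 - ε1 / 4) * L) := by
    intro z hz
    have h1 := three (h.iterd k) hℓ0 hk (B := (1 + ε1 / 8) * L) (fun w hw => by
      rw [hexpL w (hcW ℓ ht0 w hw)]
      exact Real.exp_le_exp.2 (hcirc k ℓ ht0 x0 w hx0n hw)) hz (by nlinarith) (by nlinarith)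
    refine h1.trans (Real.exp_le_exp.2 ?_)
    have e : ((1 - ε1 / 2) * ℓ - 0) / (ℓ - 0) = 1 - ε1 / 2 := by
      rw [sub_zero, sub_zero, mul_div_assoc, div_self hℓ0.ne', mul_one]
    rw [e]
    nlinarith [mul_pos hε0 hL0, mul_pos (mul_pos hε0 hε0) hL0]
  have houter : ∀ z : ℂ, ‖z‖ = Real.exp ((1 + ε1 / 2) * ℓ) →
      Real.exp ((1 + ε1 / 4) * L) ≤ ‖f^[k] z‖ := by
    intro z hz
    have hzW := hcW _ ht2 z hz
    set B := Real.log ‖f^[k] z‖ with hB
    have hB0 : 0 < B := h.log_pos hzW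
    have h1 := three (h.iterd k) (t2 := (1 + ε1 / 2) * ℓ) (by positivity) hk
      (B := (1 + ε1 / 8) * B) (fun w hw => by
        rw [hexpL w (hcW _ ht2 w hw)]
        exact Real.exp_le_exp.2 (hcirc k _ ht2 z w hz hw)) hx0n hℓ0.le (by nlinarith)
    rw [hexpL x0 hx0W, Real.exp_le_exp, ← hL] at h1
    have e : (ℓ - 0) / ((1 + ε1 / 2) * ℓ - 0) = 1 / (1 + ε1 / 2) := by
      field_simp
      ring
    rw [e] at h1
    have h2 : (1 + ε1 / 2) * L ≤ ε1 / 2 * (1 / 8 * L) + (1 + ε1 / 8) * B := by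
      have h3 : 0 < 1 + ε1 / 2 := by positivity
      have h4 := mul_le_mul_of_nonneg_left h1 h3.le
      have e2 : (1 + ε1 / 2) * (1 / 8 * L + 1 / (1 + ε1 / 2) * ((1 + ε1 / 8) * B - 1 / 8 * L)) =
          ε1 / 2 * (1 / 8 * L) + (1 + ε1 / 8) * B := by
        field_simp
        ring
      rw [e2] at h4
      exact h4
    rw [hexpL z hzW, Real.exp_le_exp, ← hB]
    by_contra hcon
    push Not at hcon
    have h5 : (1 + ε1 / 8) * B < (1 + ε1 / 8) * ((1 + ε1 / 4) * L) :=
      mul_lt_mul_of_pos_left hcon (by positivity)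
    nlinarith [mul_pos hε0 hL0, mul_pos (mul_pos hε0 hε0) hL0]
  have hk1 := annulus_image (h.iterd k).continuous (iter_open h.opn k)
    (show (1 - ε1 / 2) * ℓ < (1 + ε1 / 2) * ℓ by nlinarith) hinner houter
  obtain ⟨z, ⟨hz1, hz2⟩, hzw⟩ := hk1 (show w ∈ _ by
    constructor
    · rw [← Real.lt_log_iff_exp_lt hwn]
      linarith
    · rw [← Real.log_lt_iff_lt_exp hwn]
      linarith)
  rw [← hzw]
  apply h.Wmi n k
  apply hann
  have hz0 : 0 < ‖z‖ := lt_trans (Real.exp_pos _) hz1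
  rw [← Real.lt_log_iff_exp_lt hz0] at hz1
  rw [← Real.log_lt_iff_lt_exp hz0] at hz2
  rw [abs_lt]
  have : 0 < ε1 * ℓ := by positivity
  constructor <;> linarith

/-- re-indexed form -/
theorem star' (h : Red f W E D) : ∃ ε : ℝ, 0 < ε ∧ ε ≤ 1 / 2 ∧ ∀ (T : ℝ) (N0 : ℕ), ∃ N : ℕ,
    N0 ≤ N ∧ ∃ x : ℕ → ℂ, (∀ k, x (k + 1) = f (x k)) ∧
    (∀ k (w : ℂ), |Real.log ‖w‖ - Real.log ‖x k‖| < ε * Real.log ‖x k‖ → w ∈ W (N + k)) ∧
    (∀ K : ℝ, ∀ᶠ k in atTop, K * Real.log ‖x k‖ ≤ Real.log ‖x (k + 1)‖) ∧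
    (∀ k, 2 * Real.log ‖x k‖ ≤ Real.log ‖x (k + 1)‖) ∧ T ≤ Real.log ‖x 0‖ := by
  obtain ⟨ε, hε0, hε1, n, x0, hx0, hst⟩ := h.star
  refine ⟨ε, hε0, hε1, fun T N0 => ?_⟩
  have hlog : Tendsto (fun k => Real.log ‖f^[k] x0‖) atTop atTop := by
    obtain ⟨M, hM⟩ := Filter.eventually_atTop.1 (h.growth_any hx0 2)
    have h0 : 0 < Real.log ‖f^[M] x0‖ := h.log_pos hx0
    have hge : ∀ k : ℕ, 2 ^ k * Real.log ‖f^[M] x0‖ ≤ Real.log ‖f^[k + M] x0‖ := by
      intro k
      induction k with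
      | zero => simp
      | succ k ih =>
        have h1 := hM (k + M) (by omega)
        have e : k + 1 + M = k + M + 1 := by ring
        rw [e, pow_succ]
        linarith
    rw [← tendsto_add_atTop_iff_nat M]
    exact tendsto_atTop_mono hge
      ((tendsto_pow_atTop_atTop_of_one_lt (by norm_num : (1 : ℝ) < 2)).atTop_mul_const h0)
  obtain ⟨k1, hk1⟩ := Filter.eventually_atTop.1 (hst.and ((h.growth_any hx0 2).and
    ((hlog.eventually_ge_atTop T).and (eventually_ge_atTop N0))))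
  refine ⟨n + k1, by have := (hk1 k1 le_rfl).2.2.2; omega, fun k => f^[k + k1] x0, fun k => ?_,
    fun k w hw => ?_, fun K => ?_, fun k => ?_, ?_⟩
  · show f^[k + 1 + k1] x0 = f (f^[k + k1] x0)
    have e : k + 1 + k1 = (k + k1) + 1 := by ring
    rw [e, Function.iterate_succ_apply']
  · have h1 := (hk1 (k + k1) (by omega)).1 w hw
    have e : n + k1 + k = n + (k + k1) := by ring
    rw [e]
    exact h1
  · filter_upwards [(tendsto_add_atTop_nat k1).eventually (h.growth_any hx0 K)] with k hk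
    have e : k + 1 + k1 = (k + k1) + 1 := by ring
    rw [e]
    exact hk
  · have h1 := (hk1 (k + k1) (by omega)).2.1
    have e : k + 1 + k1 = (k + k1) + 1 := by ring
    show 2 * Real.log ‖f^[k + k1] x0‖ ≤ Real.log ‖f^[k + 1 + k1] x0‖
    rw [e]
    exact h1
  · show T ≤ Real.log ‖f^[0 + k1] x0‖
    rw [zero_add]
    exact (hk1 k1 le_rfl).2.2.1

end Red

theorem L_pos {x : ℕ → ℂ} {T : ℝ} (hT : 0 < T)
    (hdb : ∀ k, 2 * Real.log ‖x k‖ ≤ Real.log ‖x (k + 1)‖) (hbig : T ≤ Real.log ‖x 0‖) (k : ℕ) :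
    T ≤ Real.log ‖x k‖ := by
  induction k with
  | zero => exact hbig
  | succ k ih => linarith [hdb k]

/-- shadowing -/
theorem shadow {f F : ℂ → ℂ} {W : ℕ → Set ℂ} {x : ℕ → ℂ} {ε : ℝ} (hε0 : 0 < ε) (hε1 : ε ≤ 1 / 2)
    (hf : Differentiable ℂ f) (hW : ∀ k, ∀ z ∈ W k, ∀ m, 1 < ‖f^[m] z‖)
    (hx : ∀ k, x (k + 1) = f (x k))
    (hann : ∀ k (w : ℂ), |Real.log ‖w‖ - Real.log ‖x k‖| < ε * Real.log ‖x k‖ → w ∈ W k)
    (hdb : ∀ k, 2 * Real.log ‖x k‖ ≤ Real.log ‖x (k + 1)‖)
    (hbig : 2048 / ε ^ 2 ≤ Real.log ‖x 0‖)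
    (hF : ∀ k, ∀ y ∈ W k, ∃ c : ℂ, ‖c - 1‖ ≤ 1 / 2 ∧ F y = f y * c) (n : ℕ) {w : ℂ}
    (hw : |Real.log ‖w‖ - Real.log ‖x n‖| ≤ ε ^ 2 / 256 * Real.log ‖x n‖) (k : ℕ) :
    |Real.log ‖F^[k] w‖ - Real.log ‖x (n + k)‖| ≤ ε / 8 * Real.log ‖x (n + k)‖ := by
  have hpi := Real.pi_pos
  have hpi4 := Real.pi_lt_d2
  set L : ℕ → ℝ := fun k => Real.log ‖x k‖ with hL
  have hLT : ∀ k, 2048 / ε ^ 2 ≤ L k := L_pos (by positivity) hdb hbig
  have hLp : ∀ k, 0 < L k := fun k => lt_of_lt_of_le (by positivity) (hLT k)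
  have hLε2 : ∀ k, 2048 ≤ ε ^ 2 * L k := by
    intro k
    have := hLT k
    rw [div_le_iff₀ (by positivity)] at this
    linarith
  have hLε : ∀ k, 4096 ≤ ε * L k := by
    intro k
    have h1 := hLε2 k
    have h2 : 0 < ε * L k := mul_pos hε0 (hLp k)
    nlinarith
  have hxn0 : ∀ k, x k ≠ 0 := by
    intro k hk
    have := hLp k
    rw [hL] at this
    simp only [hk, norm_zero, Real.log_zero] at this
    exact lt_irrefl _ this
  have hxit : ∀ q m, f^[m] (x q) = x (q + m) := by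
    intro q m
    induction m with
    | zero => rfl
    | succ m ih => rw [Function.iterate_succ_apply', ih, ← hx]; rfl
  induction k using Nat.strong_induction_on with
  | _ k ih =>
  set y : ℕ → ℂ := fun j => F^[j] w with hy
  have hy0 : ∀ j < k, y j ∈ W (n + j) := by
    intro j hj
    apply hann
    refine lt_of_le_of_lt (ih j hj) ?_
    have := mul_pos hε0 (hLp (n + j))
    show ε / 8 * L (n + j) < ε * L (n + j)
    linarith
  set a : ℕ → ℝ := fun j => Real.log ‖f^[k - j] (y j)‖ with ha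
  -- one step
  have hstep : ∀ j < k, |a (j + 1) - a j| ≤ 128 / ε * (1 / L (n + j + 1)) * L (n + k) := by
    intro j hj
    obtain ⟨c, hc, hFc⟩ := hF (n + j) (y j) (hy0 j hj)
    set v := f (y j) with hv
    have hv0 : v ≠ 0 := by
      rw [← norm_pos_iff]
      have := hW _ _ (hy0 j hj) 1
      rw [Function.iterate_one] at this
      linarith
    have hyj : y (j + 1) = v * c := by
      show F^[j + 1] w = v * c
      rw [Function.iterate_succ_apply']
      exact hFc
    have hlc : ‖Complex.log c‖ ≤ 1 := by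
      have h1 := Complex.norm_log_one_add_half_le_self (z := c - 1) hc
      rw [add_sub_cancel] at h1
      linarith
    have hc0 : c ≠ 0 := by
      rintro rfl
      rw [zero_sub, norm_neg, norm_one] at hc
      norm_num at hc
    have hlc' : |Real.log ‖c‖| ≤ 1 := by
      rw [← Complex.log_re]
      exact (Complex.abs_re_le_norm _).trans hlc
    have haj : a j = Real.log ‖f^[k - (j + 1)] v‖ := by
      show Real.log ‖f^[k - j] (y j)‖ = _
      have e : k - j = (k - (j + 1)) + 1 := by omega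
      rw [e, Function.iterate_succ_apply]
    have haj' : a (j + 1) = Real.log ‖f^[k - (j + 1)] (v * c)‖ := by
      show Real.log ‖f^[k - (j + 1)] (y (j + 1))‖ = _
      rw [hyj]
    rw [haj, haj']
    set m := k - (j + 1) with hm
    set q := n + j + 1 with hq
    have hqm : n + k = q + m := by omega
    rw [hqm]
    have hlvc : Real.log ‖v * c‖ = Real.log ‖v‖ + Real.log ‖c‖ := by
      rw [norm_mul, Real.log_mul (norm_ne_zero_iff.2 hv0) (norm_ne_zero_iff.2 hc0)]
    rcases Nat.eq_zero_or_pos m with hm0 | hm0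
    · rw [hm0]
      simp only [Function.iterate_zero, id, add_zero]
      rw [hlvc, add_sub_cancel_left]
      refine hlc'.trans ?_
      have e : 128 / ε * (1 / L q) * L q = 128 / ε := by
        have := (hLp q).ne'
        field_simp
      rw [e, le_div_iff₀ hε0]
      linarith
    · have hIH := ih (j + 1) (by omega)
      have hIH' : |Real.log ‖v * c‖ - L q| ≤ ε / 8 * L q := by
        have e : Real.log ‖F^[j + 1] w‖ = Real.log ‖v * c‖ := by
          have : F^[j + 1] w = v * c := hyj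
          rw [this]
        rw [e] at hIH
        exact hIH
      have hvq : |Real.log ‖v‖ - L q| ≤ ε / 8 * L q + 1 := by
        have e : Real.log ‖v‖ - L q = (Real.log ‖v * c‖ - L q) - Real.log ‖c‖ := by
          rw [hlvc]; ring
        rw [e]
        refine (abs_sub _ _).trans ?_
        linarith
      have hLq := hLε q
      have hLqp := hLp q
      have hεL : 0 < ε * L q := mul_pos hε0 hLqp
      -- comparison of the orbit with the reference orbit
      have h1 := log_harnack (G := f^[m]) (y := x q) (w := v) (R := ε * L q) (t := 1 / 4)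
        (hxn0 q) hεL (fun u hu0 hu => ⟨(hf.iterate m).differentiableAt, hW q u (hann q u hu) m⟩)
        hv0 (by norm_num) (by
          have h2 := norm_log_div_le hv0 (hxn0 q)
          have h3 : |Real.log ‖v‖ - Real.log ‖x q‖| ≤ ε / 8 * L q + 1 := hvq
          linarith) (by norm_num)
      rw [hxit] at h1
      have h1' : Real.log ‖f^[m] v‖ ≤ 2 * L (q + m) := by
        have := h1.1
        norm_num at this
        exact this
      have hR : 0 < ε * L q / 4 := by positivity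
      have h2 := log_harnack (G := f^[m]) (y := v) (w := v * c) (R := ε * L q / 4)
        (t := 4 / (ε * L q)) hv0 hR (fun u hu0 hu => ⟨(hf.iterate m).differentiableAt, by
          apply hW q u (hann q u ?_) m
          have h3 := abs_sub_le (Real.log ‖u‖) (Real.log ‖v‖) (L q)
          show |Real.log ‖u‖ - L q| < ε * L q
          linarith⟩) (mul_ne_zero hv0 hc0) (by positivity) (by
          rw [mul_div_cancel_left₀ _ hv0]
          refine hlc.trans (le_of_eq ?_)
          field_simp) (by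
          rw [div_le_iff₀ hεL]
          linarith)
      obtain ⟨h2a, h2b⟩ := h2
      set t := 4 / (ε * L q) with ht
      have ht0 : 0 < t := by positivity
      have ht4 : t ≤ 1 / 4 := by
        rw [ht, div_le_iff₀ hεL]
        linarith
      have hLqm := hLp (q + m)
      have hvpos : 0 < Real.log ‖f^[m] v‖ := by
        apply Real.log_pos
        apply hW q v (hann q v _) m
        show |Real.log ‖v‖ - L q| < ε * L q
        linarith
      have hub : Real.log ‖f^[m] (v * c)‖ ≤ 4 * L (q + m) := by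
        have : (1 + 4 * t) * Real.log ‖f^[m] v‖ ≤ 2 * (2 * L (q + m)) :=
          mul_le_mul (by linarith) h1' hvpos.le (by norm_num)
        linarith
      have e : 128 / ε * (1 / L q) * L (q + m) = 32 * t * L (q + m) := by
        rw [ht]; field_simp; norm_num
      rw [e, abs_le]
      constructor
      · have h3 : 8 * t * Real.log ‖f^[m] (v * c)‖ ≤ 8 * t * (4 * L (q + m)) :=
          mul_le_mul_of_nonneg_left hub (by positivity)
        linarith
      · have h3 : 4 * t * Real.log ‖f^[m] v‖ ≤ 4 * t * (2 * L (q + m)) :=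
          mul_le_mul_of_nonneg_left h1' (by positivity)
        have h4 : 0 < t * L (q + m) := mul_pos ht0 hLqm
        linarith
  -- telescoping
  have htel : ∀ j ≤ k, |a j - a 0| ≤ 128 / ε * (1 / L n - 1 / L (n + j)) * L (n + k) := by
    intro j
    induction j with
    | zero => intro _; simp
    | succ j ihj =>
      intro hj
      have h1 := ihj (by omega)
      have h2 := hstep j (by omega)
      have h3 := abs_sub_le (a (j + 1)) (a j) (a 0)
      have h4 : 1 / L (n + j + 1) ≤ 1 / L (n + j) - 1 / L (n + j + 1) := by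
        have h5 := hdb (n + j)
        have h6 : 2 * (1 / L (n + j + 1)) ≤ 1 / L (n + j) := by
          rw [mul_one_div, div_le_div_iff₀ (hLp _) (hLp _)]
          show 2 * L (n + j) ≤ 1 * L (n + j + 1)
          rw [one_mul]
          exact h5
        linarith
      have h5 : 128 / ε * (1 / L (n + j + 1)) * L (n + k) ≤
          128 / ε * (1 / L (n + j) - 1 / L (n + j + 1)) * L (n + k) := by
        have := hLp (n + k)
        gcongr
      have e : 128 / ε * (1 / L n - 1 / L (n + (j + 1))) * L (n + k) =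
          128 / ε * (1 / L n - 1 / L (n + j)) * L (n + k) +
          128 / ε * (1 / L (n + j) - 1 / L (n + j + 1)) * L (n + k) := by
        rw [← add_assoc]; ring
      rw [e]
      linarith
  have hk1 := htel k le_rfl
  have hak : a k = Real.log ‖F^[k] w‖ := by
    show Real.log ‖f^[k - k] (y k)‖ = _
    rw [Nat.sub_self]
    rfl
  have ha0 : a 0 = Real.log ‖f^[k] w‖ := rfl
  have hLn := hLp n
  have hLnk := hLp (n + k)
  have hk2 : 128 / ε * (1 / L n - 1 / L (n + k)) * L (n + k) ≤ ε / 16 * L (n + k) := by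
    apply mul_le_mul_of_nonneg_right _ hLnk.le
    have h1 : 0 < 1 / L (n + k) := by positivity
    have h2 : 128 / ε * (1 / L n) ≤ ε / 16 := by
      rw [div_mul_div_comm, mul_one, div_le_div_iff₀ (by positivity) (by norm_num)]
      have := hLε2 n
      nlinarith
    have h3 : 128 / ε * (1 / L n - 1 / L (n + k)) ≤ 128 / ε * (1 / L n) := by
      apply mul_le_mul_of_nonneg_left _ (by positivity)
      linarith
    linarith
  -- the starting point
  have hεLn : 0 < ε * L n := mul_pos hε0 hLn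
  have hw' : |Real.log ‖w‖ - L n| ≤ ε ^ 2 / 256 * L n := hw
  have hw0 : w ≠ 0 := by
    rintro rfl
    rw [norm_zero, Real.log_zero, zero_sub, abs_neg, abs_of_pos hLn] at hw'
    nlinarith
  have h1 := log_harnack (G := f^[k]) (y := x n) (w := w) (R := ε * L n) (t := ε / 128)
    (hxn0 n) hεLn (fun u hu0 hu => ⟨(hf.iterate k).differentiableAt, hW n u (hann n u hu) k⟩)
    hw0 (by positivity) (by
      have h2 := norm_log_div_le hw0 (hxn0 n)
      have h3 : |Real.log ‖w‖ - Real.log ‖x n‖| ≤ ε ^ 2 / 256 * L n := hw'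
      have h4 := hLε2 n
      have h5 : ε / 128 * (ε * L n) = ε ^ 2 * L n / 128 := by ring
      have h6 : ε ^ 2 / 256 * L n = ε ^ 2 * L n / 256 := by ring
      rw [h5]
      rw [h6] at h3
      linarith) (by linarith)
  rw [hxit] at h1
  obtain ⟨h1a, h1b⟩ := h1
  have h1a' : Real.log ‖f^[k] w‖ ≤ (1 + 4 * (ε / 128)) * L (n + k) := h1a
  have h1b' : L (n + k) ≤ (1 + 8 * (ε / 128)) * Real.log ‖f^[k] w‖ := h1b
  have h2 : |Real.log ‖f^[k] w‖ - L (n + k)| ≤ ε / 16 * L (n + k) := by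
    rw [abs_le]
    constructor
    · by_contra hcon
      push Not at hcon
      have h3 : Real.log ‖f^[k] w‖ < (1 - ε / 16) * L (n + k) := by linarith
      have h4 : (1 + 8 * (ε / 128)) * Real.log ‖f^[k] w‖ <
          (1 + 8 * (ε / 128)) * ((1 - ε / 16) * L (n + k)) :=
        mul_lt_mul_of_pos_left h3 (by positivity)
      have h5 : (1 + 8 * (ε / 128)) * ((1 - ε / 16) * L (n + k)) =
          (1 - (ε / 16) ^ 2) * L (n + k) := by ring
      have h6 : 0 < (ε / 16) ^ 2 * L (n + k) := by positivity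
      nlinarith
    · have : 0 < ε * L (n + k) := mul_pos hε0 hLnk
      linarith
  rw [hak, ha0] at hk1
  have h3 := abs_sub_le (Real.log ‖F^[k] w‖) (Real.log ‖f^[k] w‖) (L (n + k))
  show |Real.log ‖F^[k] w‖ - L (n + k)| ≤ ε / 8 * L (n + k)
  linarith

end Pool.Agent.Q75.Ap
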