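import Pool.Agent.Q75.ApF

set_option autoImplicit false

/-!
Multiplicative perturbations of entire functions with a Baker wandering domain.
-/

open Filter Topology Metric Set Polynomial

namespace Pool.Agent.Q75.Ap

open Pool.Agent.W723.MC Pool.Agent.H384R2.Fatou Pool.Agent.TH224.SC

/-- everything that is needed about the perturbed function -/
structure Pert (F : ℂ → ℂ) (x : ℕ → ℂ) (σ : ℝ) : Prop where
  nf : MeromorphicNFOn F univ
  s0 : 0 < σ
  s1 : σ ≤ 1 / 8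
  big : 8 ≤ Real.log ‖x 0‖
  sbig : ∀ k, 8 ≤ σ * Real.log ‖x k‖
  db : ∀ k, 2 * Real.log ‖x k‖ ≤ Real.log ‖x (k + 1)‖
  grow : ∀ K : ℝ, ∀ᶠ k in atTop, K * Real.log ‖x k‖ ≤ Real.log ‖x (k + 1)‖
  orb : ∀ n (w : ℂ), |Real.log ‖w‖ - Real.log ‖x n‖| ≤ σ * Real.log ‖x n‖ → ∀ k,
    AnalyticAt ℂ F (F^[k] w) ∧
      |Real.log ‖F^[k] w‖ - Real.log ‖x (n + k)‖| ≤ 1 / 2 * Real.log ‖x (n + k)‖
  next : ∀ n, |Real.log ‖F (x n)‖ - Real.log ‖x (n + 1)‖| ≤ 1

namespace Pert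

variable {F : ℂ → ℂ} {x : ℕ → ℂ} {σ : ℝ}

theorem Lpos (h : Pert F x σ) (k : ℕ) : 8 ≤ Real.log ‖x k‖ := L_pos (by norm_num) h.db h.big k

theorem pow_le (h : Pert F x σ) (n k : ℕ) : 2 ^ k * Real.log ‖x n‖ ≤ Real.log ‖x (n + k)‖ := by
  induction k with
  | zero => simp
  | succ k ih =>
    have h1 := h.db (n + k)
    rw [pow_succ]
    have e : n + (k + 1) = n + k + 1 := by ring
    rw [e]
    linarith

theorem L_tendsto (h : Pert F x σ) (n : ℕ) :
    Tendsto (fun k => Real.log ‖x (n + k)‖) atTop atTop := by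
  apply tendsto_atTop_mono (h.pow_le n)
  exact (tendsto_pow_atTop_atTop_of_one_lt (by norm_num : (1 : ℝ) < 2)).atTop_mul_const
    (by linarith [h.Lpos n])

theorem x_ne (h : Pert F x σ) (k : ℕ) : x k ≠ 0 := by
  intro hk
  have := h.Lpos k
  rw [hk, norm_zero, Real.log_zero] at this
  linarith

theorem xn_pos (h : Pert F x σ) (k : ℕ) : 0 < ‖x k‖ := norm_pos_iff.2 (h.x_ne k)

/-- the annuli -/
def B (x : ℕ → ℂ) (σ : ℝ) (n : ℕ) : Set ℂ :=
  {w | Real.exp ((1 - σ) * Real.log ‖x n‖) < ‖w‖ ∧ ‖w‖ < Real.exp ((1 + σ) * Real.log ‖x n‖)}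

theorem mem_B {x : ℕ → ℂ} {σ : ℝ} {n : ℕ} {w : ℂ} (hw : 0 < ‖w‖)
    (h : |Real.log ‖w‖ - Real.log ‖x n‖| < σ * Real.log ‖x n‖) : w ∈ B x σ n := by
  rw [abs_lt] at h
  constructor
  · rw [← Real.lt_log_iff_exp_lt hw]
    linarith [h.1]
  · rw [← Real.log_lt_iff_lt_exp hw]
    linarith [h.2]

theorem of_B {x : ℕ → ℂ} {σ : ℝ} {n : ℕ} {w : ℂ} (h : w ∈ B x σ n) :
    0 < ‖w‖ ∧ |Real.log ‖w‖ - Real.log ‖x n‖| ≤ σ * Real.log ‖x n‖ := by
  obtain ⟨h1, h2⟩ := h
  have h0 : 0 < ‖w‖ := lt_trans (Real.exp_pos _) h1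
  rw [← Real.lt_log_iff_exp_lt h0] at h1
  rw [← Real.log_lt_iff_lt_exp h0] at h2
  refine ⟨h0, ?_⟩
  rw [abs_le]
  constructor <;> linarith

theorem B_open (x : ℕ → ℂ) (σ : ℝ) (n : ℕ) : IsOpen (B x σ n) :=
  (isOpen_lt continuous_const continuous_norm).inter (isOpen_lt continuous_norm continuous_const)

theorem B_pre (x : ℕ → ℂ) (σ : ℝ) (n : ℕ) : IsPreconnected (B x σ n) :=
  Bw.isPreconnected_ann (Real.exp_pos _)

theorem x_B (h : Pert F x σ) (n : ℕ) : x n ∈ B x σ n := by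
  apply mem_B (h.xn_pos n)
  rw [sub_self, abs_zero]
  have := h.sbig n
  linarith

theorem sphere_B (h : Pert F x σ) {n : ℕ} {w : ℂ} (hw : ‖w‖ = ‖x n‖) : w ∈ B x σ n := by
  apply mem_B (by rw [hw]; exact h.xn_pos n)
  rw [hw, sub_self, abs_zero]
  have := h.sbig n
  linarith

theorem log_iter (h : Pert F x σ) {n : ℕ} {w : ℂ} (hw : w ∈ B x σ n) (k : ℕ) :
    1 / 2 * Real.log ‖x (n + k)‖ ≤ Real.log ‖F^[k] w‖ ∧
      Real.log ‖F^[k] w‖ ≤ 3 / 2 * Real.log ‖x (n + k)‖ := by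
  have h1 := (h.orb n w (of_B hw).2 k).2
  rw [abs_le] at h1
  constructor <;> linarith

theorem B_esc (h : Pert F x σ) (n : ℕ) : EscOn F (B x σ n) := by
  intro R
  filter_upwards [(h.L_tendsto n).eventually_ge_atTop (2 * R)] with k hk w hw
  have h1 := (h.log_iter hw k).1
  have h2 := h.Lpos (n + k)
  have h3 : Real.log ‖F^[k] w‖ ≤ ‖F^[k] w‖ := Real.log_le_self (norm_nonneg _)
  linarith

theorem B_fatou (h : Pert F x σ) (n : ℕ) : B x σ n ⊆ MFatouSet F :=
  subset_mfatou (B_open x σ n) (fun w hw k => (h.orb n w (of_B hw).2 k).1) (h.B_esc n)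

/-- the Fatou components -/
def V (F : ℂ → ℂ) (x : ℕ → ℂ) (n : ℕ) : Set ℂ := connectedComponentIn (MFatouSet F) (x n)

theorem x_fatou (h : Pert F x σ) (n : ℕ) : x n ∈ MFatouSet F := h.B_fatou n (h.x_B n)

theorem x_V (h : Pert F x σ) (n : ℕ) : x n ∈ V F x n := mem_connectedComponentIn (h.x_fatou n)

theorem B_V (h : Pert F x σ) (n : ℕ) : B x σ n ⊆ V F x n :=
  (B_pre x σ n).subset_connectedComponentIn (h.x_B n) (h.B_fatou n)

theorem V_fatou (F : ℂ → ℂ) (x : ℕ → ℂ) (n : ℕ) : V F x n ⊆ MFatouSet F :=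
  connectedComponentIn_subset _ _

theorem V_pre (F : ℂ → ℂ) (x : ℕ → ℂ) (n : ℕ) : IsPreconnected (V F x n) :=
  isPreconnected_connectedComponentIn

theorem sub_V {n : ℕ} {S : Set ℂ} (hS : IsPreconnected S)
    (hSF : S ⊆ MFatouSet F) (hne : (S ∩ V F x n).Nonempty) : S ⊆ V F x n := by
  obtain ⟨y, hyS, hyV⟩ := hne
  have e : V F x n = connectedComponentIn (MFatouSet F) y := connectedComponentIn_eq hyV
  rw [e]
  exact hS.subset_connectedComponentIn hyS hSF

/-- `F` is not locally constant -/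
theorem nonconst (h : Pert F x σ) (z : ℂ) : ¬ ∀ᶠ v in 𝓝 z, F v = F z := by
  intro hc
  have h1 : ∀ k, F (x k) = F z := fun k =>
    const_near h.nf hc (h.orb k (x k) (of_B (h.x_B k)).2 0).1
  have h2 : Tendsto (fun k => Real.log ‖x (0 + k + 1)‖) atTop atTop :=
    (h.L_tendsto 0).comp (tendsto_add_atTop_nat 1)
  obtain ⟨k, hk⟩ := (h2.eventually_gt_atTop (Real.log ‖F z‖ + 1)).exists
  rw [zero_add] at hk
  have h3 := h.next k
  rw [h1 k, abs_le] at h3
  linarith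

theorem fatou_map (h : Pert F x σ) {z : ℂ} (hz : z ∈ MFatouSet F) : F z ∈ MFatouSet F :=
  mfatou_forward hz (image_ball_nhds (mfatou_analytic hz 0) (h.nonconst z))

theorem V_map (h : Pert F x σ) (n : ℕ) : F '' V F x n ⊆ V F x (n + 1) := by
  apply sub_V
  · apply (V_pre F x n).image
    intro z hz
    exact (mfatou_analytic (V_fatou F x n hz) 0).continuousAt.continuousWithinAt
  · rintro _ ⟨z, hz, rfl⟩
    exact h.fatou_map (V_fatou F x n hz)
  · refine ⟨F (x n), ⟨x n, h.x_V n, rfl⟩, h.B_V (n + 1) ?_⟩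
    have h1 := h.next n
    have h2 := h.Lpos (n + 1)
    have h3 := h.sbig (n + 1)
    apply mem_B
    · by_contra hcon
      have h4 : ‖F (x n)‖ = 0 := le_antisymm (not_lt.1 hcon) (norm_nonneg _)
      rw [h4, Real.log_zero, zero_sub, abs_neg, abs_of_pos (by linarith)] at h1
      linarith
    · linarith

theorem V_iter (h : Pert F x σ) (n : ℕ) : F^[n] '' V F x 0 ⊆ V F x n := by
  induction n with
  | zero => simp
  | succ n ih =>
    rw [Function.iterate_succ', image_comp]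
    exact (image_mono ih).trans (h.V_map n)

theorem V_ne (h : Pert F x σ) {j k : ℕ} (hjk : j < k) : V F x j ≠ V F x k := by
  intro he
  have hk : x k ∈ connectedComponentIn (MFatouSet F) (x j) := by
    have := h.x_V k
    rw [← he] at this
    exact this
  obtain ⟨C, hC, hg⟩ := growth_compareM (h.x_fatou j) ((B_open x σ j).mem_nhds (h.x_B j))
    (h.B_esc j) hk
  have h1 := (tendsto_add_atTop_nat j).eventually (h.grow (3 * C + 1))
  obtain ⟨n, hn1, hn2⟩ := (hg.and h1).exists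
  have h2 := (h.log_iter (h.x_B k) n).1
  have h3 := (h.log_iter (h.x_B j) n).2
  have h4 : Real.log ‖x (n + j + 1)‖ ≤ Real.log ‖x (k + n)‖ := by
    have h5 := h.pow_le (n + j + 1) (k - j - 1)
    have e : n + j + 1 + (k - j - 1) = k + n := by omega
    rw [e] at h5
    have h6 : (1 : ℝ) ≤ 2 ^ (k - j - 1) := one_le_pow₀ (by norm_num)
    have h7 := h.Lpos (n + j + 1)
    nlinarith
  have h5 : C * Real.log ‖F^[n] (x j)‖ ≤ C * (3 / 2 * Real.log ‖x (j + n)‖) :=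
    mul_le_mul_of_nonneg_left h3 hC.le
  have e : j + n = n + j := add_comm _ _
  rw [e] at h5
  have h6 := h.Lpos (n + j)
  have h7 := hn1.1
  nlinarith

theorem V_disj (h : Pert F x σ) {j k : ℕ} (hjk : j ≠ k) : Disjoint (V F x j) (V F x k) := by
  rw [Set.disjoint_left]
  intro y hy1 hy2
  have e1 : V F x j = connectedComponentIn (MFatouSet F) y := connectedComponentIn_eq hy1
  have e2 : V F x k = connectedComponentIn (MFatouSet F) y := connectedComponentIn_eq hy2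
  have h3 : V F x j = V F x k := by rw [e1, e2]
  rcases lt_or_gt_of_ne hjk with h' | h'
  · exact h.V_ne h' h3
  · exact h.V_ne h' h3.symm

theorem x_lt (h : Pert F x σ) (n : ℕ) : ‖x n‖ < ‖x (n + 1)‖ := by
  rw [← Real.log_lt_log_iff (h.xn_pos _) (h.xn_pos _)]
  have := h.db n
  have := h.Lpos n
  linarith

theorem V_lower (h : Pert F x σ) {n : ℕ} {z : ℂ} (hz : z ∈ V F x (n + 1)) : ‖x n‖ < ‖z‖ := by
  by_contra hcon
  push Not at hcon
  obtain ⟨y, hy, hyt⟩ := Bw.cross (V_pre F x (n + 1)) hz (h.x_V (n + 1)) hcon (h.x_lt n).le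
  exact Set.disjoint_left.1 (h.V_disj (j := n) (k := n + 1) (by omega))
    (h.B_V n (h.sphere_B hyt)) hy

theorem V_upper (h : Pert F x σ) {n : ℕ} {z : ℂ} (hz : z ∈ V F x n) : ‖z‖ < ‖x (n + 1)‖ := by
  by_contra hcon
  push Not at hcon
  obtain ⟨y, hy, hyt⟩ := Bw.cross (V_pre F x n) (h.x_V n) hz (h.x_lt n).le hcon
  exact Set.disjoint_left.1 (h.V_disj (j := n + 1) (k := n) (by omega))
    (h.B_V (n + 1) (h.sphere_B hyt)) hy

theorem V_esc (h : Pert F x σ) {z : ℂ} (hz : z ∈ V F x 0) :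
    Tendsto (fun n => ‖F^[n] z‖) atTop atTop := by
  obtain ⟨r, hr, -, hE⟩ := esc_nearM (h.x_fatou 0) ((B_open x σ 0).mem_nhds (h.x_B 0))
    (h.B_esc 0) hz
  rw [Filter.tendsto_atTop]
  intro R
  filter_upwards [hE R] with n hn
  exact hn z (mem_ball_self hr)

theorem V_bwd (h : Pert F x σ) : IsBWD F (V F x) := by
  refine ⟨fun n => ⟨x n, h.x_fatou n, rfl⟩, h.V_iter, fun m n hmn => h.V_disj hmn,
    fun z hz => h.V_esc hz, ?_⟩
  filter_upwards [eventually_ge_atTop 1] with n hn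
  obtain ⟨m, rfl⟩ : ∃ m, n = m + 1 := ⟨n - 1, by omega⟩
  have h0 : (0 : ℂ) ∉ V F x (m + 1) := by
    intro h0
    have h1 := h.V_lower h0
    rw [norm_zero] at h1
    exact absurd h1 (not_lt.2 (norm_nonneg _))
  obtain ⟨X, hX1, hX2, hX3, hX4, hX5⟩ := Bw.sep (A := V F x (m + 1)) (p := 0) (z := 0)
    (ρ := ‖x (m + 1)‖) (by rw [sub_zero, norm_zero]; exact h.xn_pos _) h0
    (fun w hw => h.B_V _ (h.sphere_B (by rwa [sub_zero] at hw)))
  refine ⟨?_, ?_, h0, ‖x (m + 1)‖, ?_⟩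
  · apply (Metric.isBounded_ball (x := (0 : ℂ)) (r := ‖x (m + 1 + 1)‖)).subset
    intro z hz
    rw [mem_ball_zero_iff]
    exact h.V_upper hz
  · have hinf : OnePoint.infty ∈ (((↑) : ℂ → OnePoint ℂ) '' V F x (m + 1))ᶜ := by
      rintro ⟨w, -, hw⟩
      exact OnePoint.coe_ne_infty w hw
    have h0' : ((0 : ℂ) : OnePoint ℂ) ∈ (((↑) : ℂ → OnePoint ℂ) '' V F x (m + 1))ᶜ := by
      rintro ⟨w, hw, hw0⟩
      rw [OnePoint.coe_injective hw0] at hw
      exact h0 hw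
    refine ⟨_, ⟨_, h0', rfl⟩, _, ⟨_, hinf, rfl⟩, ?_⟩
    intro he
    have h1 : OnePoint.infty ∈ connectedComponentIn (((↑) : ℂ → OnePoint ℂ) '' V F x (m + 1))ᶜ
        ((0 : ℂ) : OnePoint ℂ) := by
      rw [he]
      exact mem_connectedComponentIn hinf
    rw [hX5] at h1
    obtain ⟨w, -, hw⟩ := h1
    exact OnePoint.coe_ne_infty w hw
  · rw [hX5]
    apply image_mono
    intro w hw
    have := hX4 w hw
    rwa [mem_ball, dist_eq_norm]

theorem trans (h : Pert F x σ) : TransMero F := by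
  refine ⟨h.nf, ?_⟩
  rintro ⟨P, Q, hQ, hPQ⟩
  have hx : Tendsto (fun k => ‖x k‖) atTop atTop := by
    have h1 := h.L_tendsto 0
    simp only [zero_add] at h1
    exact tendsto_atTop_mono (fun k => Real.log_le_self (norm_nonneg _)) h1
  obtain ⟨C, d, hC, hb⟩ := rational_bound hQ hPQ hx
  have hL := h.L_tendsto 0
  simp only [zero_add] at hL
  obtain ⟨k, hk1, hk2, hk3⟩ := (hb.and ((h.grow (d + 1)).and
    (hL.eventually_gt_atTop (Real.log C + 1)))).exists
  have h1 := h.next k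
  have h2 := h.Lpos (k + 1)
  have hF0 : 0 < ‖F (x k)‖ := by
    by_contra hcon
    have h4 : ‖F (x k)‖ = 0 := le_antisymm (not_lt.1 hcon) (norm_nonneg _)
    rw [h4, Real.log_zero, zero_sub, abs_neg, abs_of_pos (by linarith)] at h1
    linarith
  have h3 := Real.log_le_log hF0 hk1
  have h4 := h.xn_pos k
  rw [Real.log_mul hC.ne' (by positivity), Real.log_pow] at h3
  rw [abs_le] at h1
  have h5 : ((d : ℝ) + 1) * Real.log ‖x k‖ = d * Real.log ‖x k‖ + Real.log ‖x k‖ := by ring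
  rw [h5] at hk2
  linarith [h1.1]

end Pert

theorem main {f g : ℂ → ℂ} {U : ℕ → Set ℂ} (hf : TransEntire f) (hU : IsBWD f U)
    (hg : MeromorphicNFOn g univ)
    (hlim : ∀ ε : ℝ, 0 < ε → ∀ᶠ n in atTop, ∀ z ∈ U n, ‖g z - 1‖ < ε) :
    ∃ (x : ℕ → ℂ) (σ : ℝ), Pert (toMeromorphicNFOn (fun z => f z * g z) univ) x σ := by
  obtain ⟨N1, E, D, hR⟩ := exists_red hf hU
  obtain ⟨ε, hε0, hε1, hst⟩ := hR.star'
  obtain ⟨n2, hn2⟩ := Filter.eventually_atTop.1 (hlim (1 / 2) (by norm_num))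
  obtain ⟨N, hN, x, hx, hann, hgrow, hdb, hbig⟩ := hst (2048 / ε ^ 2) n2
  set F := toMeromorphicNFOn (fun z => f z * g z) univ with hFdef
  have hgW : ∀ k, ∀ z ∈ U (N1 + (N + k)), ‖g z - 1‖ ≤ 1 / 2 := fun k z hz =>
    (hn2 (N1 + (N + k)) (by omega) z hz).le
  have hgne : ∀ k, ∀ z ∈ U (N1 + (N + k)), g z ≠ 0 := by
    intro k z hz h0
    have := hgW k z hz
    rw [h0, zero_sub, norm_neg, norm_one] at this
    norm_num at this
  have hgan : ∀ k, ∀ z ∈ U (N1 + (N + k)), AnalyticAt ℂ g z := fun k z hz =>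
    analytic_of_nf (hg (mem_univ z)) (hgne k z hz)
  have hFan : ∀ k, ∀ z ∈ U (N1 + (N + k)), AnalyticAt ℂ F z := by
    intro k z hz
    rw [analyticAt_congr (nf_near hf.1 hg (hgan k z hz))]
    exact (hf.1.analyticAt z).mul (hgan k z hz)
  have hFeq : ∀ k, ∀ z ∈ U (N1 + (N + k)), F z = f z * g z := fun k z hz =>
    (nf_near hf.1 hg (hgan k z hz)).eq_of_nhds
  have hpos2048 : 2048 / ε ^ 2 ≥ 8192 := by
    rw [ge_iff_le, le_div_iff₀ (by positivity)]
    nlinarith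
  have hL := L_pos (T := 2048 / ε ^ 2) (by positivity) hdb hbig
  have hsh := fun n w hw k => shadow (F := F) (W := fun k => U (N1 + (N + k))) hε0 hε1 hf.1
    (fun k z hz m => hR.one_lt (n := N + k) hz) hx hann hdb hbig
    (fun k y hy => ⟨g y, hgW k y hy, hFeq k y hy⟩) n (w := w) hw k
  have hσ : ε ^ 2 / 256 ≤ 1 / 8 := by nlinarith
  refine ⟨x, ε ^ 2 / 256, meromorphicNFOn_toMeromorphicNFOn _ _, by positivity, hσ, ?_, ?_, hdb,
    hgrow, ?_, ?_⟩
  · linarith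
  · intro k
    have := hL k
    rw [div_le_iff₀ (by positivity)] at this
    linarith
  · intro n w hw k
    have h1 := hsh n w hw k
    have hLk : 0 < Real.log ‖x (n + k)‖ := lt_of_lt_of_le (by positivity) (hL (n + k))
    refine ⟨hFan (n + k) _ (hann (n + k) _ (lt_of_le_of_lt h1 ?_)), h1.trans ?_⟩
    · have := mul_pos hε0 hLk
      linarith
    · apply mul_le_mul_of_nonneg_right _ hLk.le
      linarith
  · intro n
    have hxW : x n ∈ U (N1 + (N + n)) := by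
      apply hann n
      rw [sub_self, abs_zero]
      have hLk : 0 < Real.log ‖x n‖ := lt_of_lt_of_le (by positivity) (hL n)
      positivity
    have hfx : f (x n) ≠ 0 := by
      rw [← norm_pos_iff]
      have := hR.one_lt (n := N + n) (m := 1) hxW
      rw [Function.iterate_one] at this
      linarith
    have hg0 := hgne n _ hxW
    rw [hFeq n _ hxW, hx, norm_mul, Real.log_mul (norm_ne_zero_iff.2 hfx)
      (norm_ne_zero_iff.2 hg0), add_sub_cancel_left, ← Complex.log_re]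
    refine (Complex.abs_re_le_norm _).trans ?_
    have h1 := Complex.norm_log_one_add_half_le_self (z := g (x n) - 1) (hgW n _ hxW)
    rw [add_sub_cancel] at h1
    linarith [hgW n _ hxW]

end Pool.Agent.Q75.Ap
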