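import Pool.Agent.Q75.BkHalf
set_option autoImplicit false

/-! # Self-maps of the symmetric square of the half plane which are close to the identity at a
smooth boundary point at infinity -/

namespace Q75.Bk

open Complex Filter Topology Set Metric

lemma mem_Hr {z : ℂ} : z ∈ Hr ↔ 0 < z.re := Iff.rfl

/-- The trace is preserved. -/
theorem trace_eq {S : ℂ → ℂ → ℂ} (hol : ∀ y ∈ Hr, DifferentiableOn ℂ (fun x => S x y) Hr)
    (sym : ∀ x ∈ Hr, ∀ y ∈ Hr, S x y = S y x) (pos : ∀ x ∈ Hr, ∀ y ∈ Hr, 0 ≤ (S x y).re)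
    {y₀ : ℂ} (hy₀ : y₀ ∈ Hr)
    (asy : ∀ ε : ℝ, 0 < ε → ∃ R : ℝ, ∀ x ∈ Hr, R ≤ ‖x‖ → ‖S x y₀ - x - y₀‖ * ‖x‖ ≤ ε) :
    ∀ x ∈ Hr, ∀ y ∈ Hr, S x y = x + y := by
  have hol2 : ∀ x ∈ Hr, DifferentiableOn ℂ (fun y => S x y) Hr := by
    intro x hx
    exact (hol x hx).congr fun y hy => sym x hx y hy
  -- rays
  have hray0 : ∀ e : ℂ, 0 < e.re → ‖e‖ = 1 →
      Tendsto (fun v : ℝ => S ((v : ℂ) * e) y₀ / ((v : ℂ) * e)) atTop (𝓝 (1 : ℂ)) := by
    intro e he hen
    rw [Metric.tendsto_atTop']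
    intro ε hε
    obtain ⟨R, hR⟩ := asy 1 one_pos
    refine ⟨max (max R 1) (2 * (1 + ‖y₀‖) / ε), fun v hv => ?_⟩
    have hv1 : R ≤ v := ((le_max_left _ _).trans (le_max_left _ _)).trans hv.le
    have hv2 : 1 ≤ v := ((le_max_right _ _).trans (le_max_left _ _)).trans hv.le
    have hv3 : 2 * (1 + ‖y₀‖) / ε ≤ v := (le_max_right _ _).trans hv.le
    rw [div_le_iff₀ hε] at hv3
    have hnv : ‖(v : ℂ) * e‖ = v := by
      rw [norm_mul, hen, Complex.norm_real, Real.norm_of_nonneg (by linarith), mul_one]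
    have hvH : (v : ℂ) * e ∈ Hr := by
      show 0 < ((v : ℂ) * e).re
      have : ((v : ℂ) * e).re = v * e.re := by simp
      rw [this]
      positivity
    have hve : (v : ℂ) * e ≠ 0 := by
      rw [← norm_pos_iff, hnv]
      linarith
    have h1 := hR _ hvH (by rw [hnv]; exact hv1)
    rw [hnv] at h1
    have h2 : ‖S ((v : ℂ) * e) y₀ - (v : ℂ) * e - y₀‖ ≤ 1 := by
      nlinarith [norm_nonneg (S ((v : ℂ) * e) y₀ - (v : ℂ) * e - y₀)]
    have h3 : ‖S ((v : ℂ) * e) y₀ - (v : ℂ) * e‖ ≤ 1 + ‖y₀‖ := by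
      have := norm_add_le (S ((v : ℂ) * e) y₀ - (v : ℂ) * e - y₀) y₀
      rw [sub_add_cancel] at this
      linarith
    rw [dist_eq_norm]
    have : S ((v : ℂ) * e) y₀ / ((v : ℂ) * e) - 1 =
        (S ((v : ℂ) * e) y₀ - (v : ℂ) * e) / ((v : ℂ) * e) := by
      rw [sub_div, div_self hve]
    rw [this, norm_div, hnv, div_lt_iff₀ (by linarith)]
    nlinarith [norm_nonneg y₀]
  -- the angular derivative is one in every fibre
  have key : ∀ y ∈ Hr, (∀ u ∈ Hr, u.re ≤ (S u y).re) ∧
      Tendsto (fun v : ℝ => S (v : ℂ) y / (v : ℂ)) atTop (𝓝 (1 : ℂ)) := by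
    intro y hy
    obtain ⟨α, hα0, hα1, hα2⟩ := julia_wolff (hol y hy) (fun z hz => pos z hz y hy)
    have hineq : ∀ e : ℂ, 0 < e.re → ‖e‖ = 1 →
        ‖(α : ℂ) * e + (starRingEnd ℂ) e‖ ^ 2 * (y.re * y₀.re) ≤
          ((α : ℂ) * e).re * e.re * ‖y + (starRingEnd ℂ) y₀‖ ^ 2 := by
      intro e he hen
      have he0 : e ≠ 0 := by
        rw [← norm_pos_iff, hen]
        exact one_pos
      have t1 : Tendsto (fun v : ℝ => S ((v : ℂ) * e) y / (v : ℂ)) atTop (𝓝 ((α : ℂ) * e)) := by
        refine ((hα2 e he hen).mul_const e).congr' ?_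
        filter_upwards [eventually_gt_atTop 0] with v hv
        have : (v : ℂ) ≠ 0 := by exact_mod_cast hv.ne'
        field_simp
      have t2 : Tendsto (fun v : ℝ => S ((v : ℂ) * e) y₀ / (v : ℂ)) atTop (𝓝 e) := by
        have := ((hray0 e he hen).mul_const e)
        rw [one_mul] at this
        refine this.congr' ?_
        filter_upwards [eventually_gt_atTop 0] with v hv
        have : (v : ℂ) ≠ 0 := by exact_mod_cast hv.ne'
        field_simp
      have L : Tendsto (fun v : ℝ => ‖S ((v : ℂ) * e) y / (v : ℂ) +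
          (starRingEnd ℂ) (S ((v : ℂ) * e) y₀ / (v : ℂ))‖ ^ 2 * (y.re * y₀.re)) atTop
          (𝓝 (‖(α : ℂ) * e + (starRingEnd ℂ) e‖ ^ 2 * (y.re * y₀.re))) :=
        (((t1.add ((Complex.continuous_conj.tendsto _).comp t2)).norm).pow 2).mul_const _
      have Rr : Tendsto (fun v : ℝ => (S ((v : ℂ) * e) y / (v : ℂ)).re *
          (S ((v : ℂ) * e) y₀ / (v : ℂ)).re * ‖y + (starRingEnd ℂ) y₀‖ ^ 2) atTop
          (𝓝 (((α : ℂ) * e).re * e.re * ‖y + (starRingEnd ℂ) y₀‖ ^ 2)) :=
        ((((Complex.continuous_re.tendsto _).comp t1).mul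
          ((Complex.continuous_re.tendsto _).comp t2))).mul_const _
      refine le_of_tendsto_of_tendsto L Rr ?_
      filter_upwards [eventually_gt_atTop 0] with v hv
      have hvH : (v : ℂ) * e ∈ Hr := by
        show 0 < ((v : ℂ) * e).re
        have : ((v : ℂ) * e).re = v * e.re := by simp
        rw [this]
        positivity
      have hs := sp (hol2 _ hvH) (fun z hz => pos _ hvH z hz) hy hy₀
      have e1 : S ((v : ℂ) * e) y / (v : ℂ) + (starRingEnd ℂ) (S ((v : ℂ) * e) y₀ / (v : ℂ)) =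
          (S ((v : ℂ) * e) y + (starRingEnd ℂ) (S ((v : ℂ) * e) y₀)) / (v : ℂ) := by
        rw [map_div₀, Complex.conj_ofReal]
        ring
      have e2 : (S ((v : ℂ) * e) y / (v : ℂ)).re = (S ((v : ℂ) * e) y).re / v :=
        Complex.div_ofReal_re _ _
      have e3 : (S ((v : ℂ) * e) y₀ / (v : ℂ)).re = (S ((v : ℂ) * e) y₀).re / v :=
        Complex.div_ofReal_re _ _
      rw [e1, e2, e3, norm_div, Complex.norm_real, Real.norm_of_nonneg hv.le, div_pow]
      have e4 : (S ((v : ℂ) * e) y).re / v * ((S ((v : ℂ) * e) y₀).re / v) *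
          ‖y + (starRingEnd ℂ) y₀‖ ^ 2 = ((S ((v : ℂ) * e) y).re * (S ((v : ℂ) * e) y₀).re *
          ‖y + (starRingEnd ℂ) y₀‖ ^ 2) / v ^ 2 := by
        field_simp
      rw [e4, div_mul_eq_mul_div]
      exact div_le_div_of_nonneg_right hs (by positivity)
    -- let the direction tend to the imaginary axis
    have hα : α = 1 := by
      set E : ℝ → ℂ := fun c => ⟨c, Real.sqrt (1 - c ^ 2)⟩ with hE
      have hEc : Continuous E := by
        rw [hE]
        have : (fun c : ℝ => (⟨c, Real.sqrt (1 - c ^ 2)⟩ : ℂ)) =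
            fun c : ℝ => (c : ℂ) + (Real.sqrt (1 - c ^ 2) : ℝ) * Complex.I := by
          funext c
          apply Complex.ext <;> simp
        rw [this]
        fun_prop
      have hE0 : E 0 = Complex.I := by
        apply Complex.ext <;> simp [hE]
      have c1 : Continuous fun c : ℝ => ‖(α : ℂ) * E c + (starRingEnd ℂ) (E c)‖ ^ 2 *
          (y.re * y₀.re) := by
        have := Complex.continuous_conj.comp hEc
        exact (((continuous_const.mul hEc).add this).norm.pow 2).mul continuous_const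
      have c2 : Continuous fun c : ℝ => ((α : ℂ) * E c).re * (E c).re *
          ‖y + (starRingEnd ℂ) y₀‖ ^ 2 :=
        ((Complex.continuous_re.comp (continuous_const.mul hEc)).mul
          (Complex.continuous_re.comp hEc)).mul continuous_const
      have t1 := (c1.tendsto 0).mono_left (nhdsWithin_le_nhds (s := Ioi 0))
      have t2 := (c2.tendsto 0).mono_left (nhdsWithin_le_nhds (s := Ioi 0))
      have hle := le_of_tendsto_of_tendsto t1 t2 (by
        have hmem : Ioo (0 : ℝ) 1 ∈ 𝓝[>] (0 : ℝ) := Ioo_mem_nhdsGT one_pos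
        filter_upwards [hmem] with c hc
        refine hineq (E c) hc.1 ?_
        have h1c : 0 ≤ 1 - c ^ 2 := by nlinarith [hc.1, hc.2]
        have : ‖E c‖ ^ 2 = 1 := by
          rw [← Complex.normSq_eq_norm_sq, Complex.normSq_apply]
          simp only [hE]
          rw [Real.mul_self_sqrt h1c]
          ring
        nlinarith [norm_nonneg (E c)])
      simp only [hE0] at hle
      have hk : 0 < y.re * y₀.re := mul_pos hy hy₀
      have e1 : (α : ℂ) * Complex.I + (starRingEnd ℂ) Complex.I = ((α - 1 : ℝ) : ℂ) * Complex.I := by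
        rw [Complex.conj_I]
        push_cast
        ring
      rw [e1, norm_mul, Complex.norm_I, mul_one, Complex.norm_real, Real.norm_eq_abs, sq_abs,
        Complex.I_re, mul_zero, zero_mul] at hle
      have : (α - 1) ^ 2 ≤ 0 := by
        by_contra hcon
        push Not at hcon
        nlinarith [mul_pos hcon hk]
      nlinarith [sq_nonneg (α - 1), pow_eq_zero_iff (two_ne_zero) |>.1 (le_antisymm this (sq_nonneg (α - 1)))]
    subst hα
    refine ⟨fun u hu => by simpa using hα1 u hu, ?_⟩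
    simpa using hα2 1 (by simp) (by simp)
  -- second application of Julia–Wolff
  have hpos2 : ∀ x ∈ Hr, ∀ y ∈ Hr, 0 ≤ (S x y - x - y).re := by
    intro x hx y hy
    have hd : DifferentiableOn ℂ (fun y => S x y - x) Hr := (hol2 x hx).sub_const x
    have hr : ∀ z ∈ Hr, 0 ≤ (S x z - x).re := by
      intro z hz
      have := (key z hz).1 x hx
      rw [Complex.sub_re]
      linarith
    obtain ⟨β, hβ0, hβ1, hβ2⟩ := julia_wolff hd hr
    have hlim : Tendsto (fun v : ℝ => (S x (v : ℂ) - x) / (v : ℂ)) atTop (𝓝 (1 : ℂ)) := by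
      have t1 := (key x hx).2
      have t2 : Tendsto (fun v : ℝ => x / (v : ℂ)) atTop (𝓝 0) := by
        rw [tendsto_zero_iff_norm_tendsto_zero]
        have : Tendsto (fun v : ℝ => ‖x‖ / v) atTop (𝓝 0) :=
          tendsto_const_nhds.div_atTop tendsto_id
        refine this.congr' ?_
        filter_upwards [eventually_gt_atTop 0] with v hv
        rw [norm_div, Complex.norm_real, Real.norm_of_nonneg hv.le]
      have t3 := t1.sub t2
      rw [sub_zero] at t3
      refine t3.congr' ?_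
      filter_upwards [eventually_gt_atTop 0] with v hv
      have hvH : (v : ℂ) ∈ Hr := by
        rw [mem_Hr, Complex.ofReal_re]
        exact hv
      rw [sym x hx v hvH, sub_div]
    have hβlim : Tendsto (fun v : ℝ => (S x (v : ℂ) - x) / (v : ℂ)) atTop (𝓝 (β : ℂ)) := by
      have := hβ2 1 (by simp) (by simp)
      simpa using this
    have hβ : (β : ℂ) = 1 := tendsto_nhds_unique hβlim hlim
    have hβ' : β = 1 := by exact_mod_cast hβ
    have := hβ1 y hy
    rw [hβ', one_mul] at this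
    simp only [Complex.sub_re] at this ⊢
    linarith
  have hzero : ∀ x ∈ Hr, S x y₀ - x - y₀ = 0 := by
    intro x hx
    have hd : DifferentiableOn ℂ (fun x => S x y₀ - x - y₀) Hr :=
      ((hol y₀ hy₀).sub (by fun_prop)).sub_const _
    refine hopf hd (fun z hz => hpos2 z hz y₀ hy₀) ?_ hx
    intro ε hε R
    obtain ⟨R', hR'⟩ := asy ε hε
    refine ⟨max (max R 1) R', (le_max_left _ _).trans (le_max_left _ _),
      (le_max_right _ _).trans (le_max_left _ _), ?_⟩
    set v := max (max R 1) R' with hv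
    have hv1 : 1 ≤ v := (le_max_right _ _).trans (le_max_left _ _)
    have hvH : (v : ℂ) ∈ Hr := by
      rw [mem_Hr, Complex.ofReal_re]
      linarith
    have hn : ‖(v : ℂ)‖ = v := by
      rw [Complex.norm_real, Real.norm_of_nonneg (by linarith)]
    have := hR' v hvH (by rw [hn]; exact le_max_right _ _)
    rw [hn] at this
    rw [mul_comm]
    exact this
  intro x hx y hy
  have hd : DifferentiableOn ℂ (fun y => S x y - x - y) Hr :=
    ((hol2 x hx).sub_const x).sub (by fun_prop)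
  have := zero_prop hd (fun z hz => hpos2 x hx z hz) hy₀ (hzero x hx) hy
  linear_combination this


lemma harm_pos {a b : ℂ} (ha : a ∈ Hr) (hb : b ∈ Hr) : 0 < (a * b / (a + b)).re := by
  have ha' : 0 < a.re := ha
  have hb' : 0 < b.re := hb
  have hn : 0 < Complex.normSq (a + b) := by
    refine Complex.normSq_pos.2 ?_
    intro h
    have := congrArg Complex.re h
    simp at this
    linarith
  rw [Complex.div_re, ← add_div]
  refine div_pos ?_ hn
  have : (a * b).re * (a + b).re + (a * b).im * (a + b).im =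
      (a.re ^ 2 + a.im ^ 2) * b.re + (b.re ^ 2 + b.im ^ 2) * a.re := by
    simp only [Complex.mul_re, Complex.mul_im, Complex.add_re, Complex.add_im]
    ring
  rw [this]
  positivity

/-- The basic inequality. -/
lemma basic_ineq {x y d : ℂ} (hx : x ∈ Hr) (hy : y ∈ Hr)
    (h : ∃ X ∈ Hr, ∃ Y ∈ Hr, X + Y = x + y ∧ X * Y = x * y + d) :
    -x.re ≤ (d / (y + (starRingEnd ℂ) x)).re := by
  obtain ⟨X, hX, Y, hY, h1, h2⟩ := h
  have hx' : 0 < x.re := hx
  have hD : y + (starRingEnd ℂ) x ≠ 0 := conj_ne hy hx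
  set t : ℂ := (x.im : ℂ) * Complex.I with ht
  have hXt : X - t ∈ Hr := by
    rw [mem_Hr, ht]
    simpa using mem_Hr.1 hX
  have hYt : Y - t ∈ Hr := by
    rw [mem_Hr, ht]
    simpa using mem_Hr.1 hY
  have hpos := harm_pos hXt hYt
  have hx2 : x = (x.re : ℂ) + t := by
    rw [ht]
    exact (Complex.re_add_im x).symm
  have hcx : (starRingEnd ℂ) x = (x.re : ℂ) - t := by
    rw [ht]
    apply Complex.ext <;> simp
  have hsum : X - t + (Y - t) = y + (starRingEnd ℂ) x := by
    rw [hcx]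
    linear_combination h1 + hx2
  have hprod : (X - t) * (Y - t) = d + ((x.re : ℂ) * (y + (starRingEnd ℂ) x) - (x.re : ℂ) ^ 2) := by
    rw [hcx]
    linear_combination h2 - t * h1 + (y - t) * hx2
  rw [hsum, hprod] at hpos
  have e1 : (d + ((x.re : ℂ) * (y + (starRingEnd ℂ) x) - (x.re : ℂ) ^ 2)) /
      (y + (starRingEnd ℂ) x) = d / (y + (starRingEnd ℂ) x) + (x.re : ℂ) -
        ((x.re ^ 2 : ℝ) : ℂ) / (y + (starRingEnd ℂ) x) := by
    push_cast
    field_simp
    ring
  rw [e1] at hpos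
  have hnn : 0 ≤ (((x.re ^ 2 : ℝ) : ℂ) / (y + (starRingEnd ℂ) x)).re := by
    rw [Complex.div_re, ← add_div]
    refine div_nonneg ?_ (Complex.normSq_nonneg _)
    simp only [Complex.ofReal_re, Complex.ofReal_im, Complex.add_re, Complex.conj_re, zero_mul,
      add_zero]
    have : 0 < y.re := hy
    positivity
  simp only [Complex.add_re, Complex.sub_re, Complex.ofReal_re] at hpos hnn ⊢
  linarith

lemma norm_add_one_ge {x : ℂ} (hx : x ∈ Hr) : 1 ≤ ‖x + 1‖ ∧ ‖x‖ ≤ ‖x + 1‖ := by
  have hx' : 0 < x.re := hx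
  constructor
  · have := Complex.re_le_norm (x + 1)
    simp only [Complex.add_re, Complex.one_re] at this
    linarith
  · refine le_of_sq_le_sq ?_ (norm_nonneg _)
    rw [← Complex.normSq_eq_norm_sq, ← Complex.normSq_eq_norm_sq, Complex.normSq_apply,
      Complex.normSq_apply]
    simp only [Complex.add_re, Complex.one_re, Complex.add_im, Complex.one_im]
    nlinarith

/-- The determinant is preserved. -/
theorem prod_eq {T : ℂ → ℂ → ℂ} (hol : ∀ y ∈ Hr, DifferentiableOn ℂ (fun x => T x y) Hr)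
    (sym : ∀ x ∈ Hr, ∀ y ∈ Hr, T x y = T y x)
    (quad : ∀ x ∈ Hr, ∀ y ∈ Hr, ∃ X ∈ Hr, ∃ Y ∈ Hr, X + Y = x + y ∧ X * Y = T x y)
    {y₀ : ℂ} (hy₀ : y₀ ∈ Hr)
    (asy : ∀ ε : ℝ, 0 < ε → ∃ R : ℝ, ∀ x ∈ Hr, R ≤ ‖x‖ → ‖T x y₀ - x * y₀‖ * ‖x‖ ^ 2 ≤ ε) :
    ∀ x ∈ Hr, ∀ y ∈ Hr, T x y = x * y := by
  have hol2 : ∀ x ∈ Hr, DifferentiableOn ℂ (fun y => T x y) Hr := by
    intro x hx
    exact (hol x hx).congr fun y hy => sym x hx y hy
  have Q : ∀ x ∈ Hr, ∀ y ∈ Hr, -x.re ≤ ((T x y - x * y) / (y + (starRingEnd ℂ) x)).re := by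
    intro x hx y hy
    refine basic_ineq hx hy ?_
    obtain ⟨X, hX, Y, hY, h1, h2⟩ := quad x hx y hy
    exact ⟨X, hX, Y, hY, h1, by rw [h2]; ring⟩
  -- the fibre over `y₀`
  have hzero : ∀ x ∈ Hr, T x y₀ - x * y₀ = 0 := by
    set P : ℂ → ℂ := fun x => (T x y₀ - x * y₀) * (x + (starRingEnd ℂ) y₀) with hP
    have hPd : DifferentiableOn ℂ P Hr :=
      ((hol y₀ hy₀).sub (by fun_prop)).mul (by fun_prop)
    have hPsmall : ∀ τ : ℝ, 0 < τ → ∃ R : ℝ, 1 ≤ R ∧ ∀ x ∈ Hr, R ≤ ‖x‖ → ‖P x‖ * ‖x‖ ≤ τ := by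
      intro τ hτ
      obtain ⟨R, hR⟩ := asy (τ / 2) (by positivity)
      refine ⟨max (max R 1) ‖y₀‖, (le_max_right _ _).trans (le_max_left _ _), ?_⟩
      intro x hx hxR
      have h1 : R ≤ ‖x‖ := ((le_max_left _ _).trans (le_max_left _ _)).trans hxR
      have h2 : 1 ≤ ‖x‖ := ((le_max_right _ _).trans (le_max_left _ _)).trans hxR
      have h3 : ‖y₀‖ ≤ ‖x‖ := (le_max_right _ _).trans hxR
      have h4 := hR x hx h1
      have h5 : ‖x + (starRingEnd ℂ) y₀‖ ≤ 2 * ‖x‖ := by
        refine (norm_add_le _ _).trans ?_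
        rw [RCLike.norm_conj]
        linarith
      calc ‖P x‖ * ‖x‖ = ‖T x y₀ - x * y₀‖ * ‖x + (starRingEnd ℂ) y₀‖ * ‖x‖ := by
            rw [hP]
            simp only [norm_mul]
        _ ≤ ‖T x y₀ - x * y₀‖ * (2 * ‖x‖) * ‖x‖ := by gcongr
        _ = 2 * (‖T x y₀ - x * y₀‖ * ‖x‖ ^ 2) := by ring
        _ ≤ τ := by linarith
    have hPlow : ∀ x ∈ Hr, -(P x).re ≤ x.re * (‖x‖ + ‖y₀‖) ^ 2 := by
      intro x hx
      have hq := Q x hx y₀ hy₀
      have hD : y₀ + (starRingEnd ℂ) x ≠ 0 := conj_ne hy₀ hx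
      have e1 : P x = (T x y₀ - x * y₀) / (y₀ + (starRingEnd ℂ) x) *
          ((Complex.normSq (y₀ + (starRingEnd ℂ) x) : ℝ) : ℂ) := by
        rw [← Complex.mul_conj, hP]
        simp only [map_add, Complex.conj_conj]
        field_simp
        ring
      rw [e1, Complex.re_mul_ofReal, Complex.normSq_eq_norm_sq]
      have h5 : ‖y₀ + (starRingEnd ℂ) x‖ ≤ ‖x‖ + ‖y₀‖ := by
        refine (norm_add_le _ _).trans ?_
        rw [RCLike.norm_conj]
        linarith
      have h6 : ‖y₀ + (starRingEnd ℂ) x‖ ^ 2 ≤ (‖x‖ + ‖y₀‖) ^ 2 :=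
        pow_le_pow_left₀ (norm_nonneg _) h5 2
      have hx' : 0 < x.re := hx
      have h7 := mul_le_mul_of_nonneg_right hq (sq_nonneg ‖y₀ + (starRingEnd ℂ) x‖)
      have h8 := mul_le_mul_of_nonneg_left h6 hx'.le
      linarith
    have hPnn : ∀ x ∈ Hr, 0 ≤ (P x).re := by
      intro x hx
      have hge : DifferentiableOn ℂ (fun x => Complex.exp (-P x)) Hr := hPd.neg.cexp
      have := max_half hge 1 ?_ hx
      · rw [Complex.norm_exp, Complex.neg_re, Real.exp_le_one_iff] at this
        linarith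
      · intro ε hε
        have hτ : 0 < Real.log (1 + ε) := Real.log_pos (by linarith)
        obtain ⟨R, hR1, hR⟩ := hPsmall _ hτ
        refine ⟨Real.log (1 + ε) / (R + ‖y₀‖) ^ 2, R, by positivity, ?_⟩
        intro z hz hcase
        rw [Complex.norm_exp, Complex.neg_re]
        have hz' : 0 < z.re := hz
        have hgoal : -(P z).re ≤ Real.log (1 + ε) := by
          by_cases hc : R ≤ ‖z‖
          · have h1 := hR z hz hc
            have h2 : ‖P z‖ ≤ ‖P z‖ * ‖z‖ := by
              have : 1 ≤ ‖z‖ := hR1.trans hc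
              nlinarith [norm_nonneg (P z)]
            have h3 : -(P z).re ≤ ‖P z‖ := by
              have := Complex.abs_re_le_norm (P z)
              linarith [neg_abs_le (P z).re]
            linarith
          · have hη : z.re ≤ Real.log (1 + ε) / (R + ‖y₀‖) ^ 2 := by
              rcases hcase with h | h
              · exact h
              · exact absurd h hc
            push Not at hc
            have h0 : 0 < R + ‖y₀‖ := by positivity
            rw [le_div_iff₀ (by positivity)] at hη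
            refine (hPlow z hz).trans (le_trans ?_ hη)
            refine mul_le_mul_of_nonneg_left ?_ hz'.le
            exact pow_le_pow_left₀ (by positivity) (by linarith) 2
        calc Real.exp (-(P z).re) ≤ Real.exp (Real.log (1 + ε)) := Real.exp_le_exp.2 hgoal
          _ = 1 + ε := Real.exp_log (by linarith)
    intro x hx
    have hP0 : P x = 0 := by
      refine hopf hPd hPnn ?_ hx
      intro ε hε R
      obtain ⟨R', hR1, hR'⟩ := hPsmall ε hε
      refine ⟨max R R', le_max_left _ _, hR1.trans (le_max_right _ _), ?_⟩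
      set v := max R R' with hv
      have hv1 : 1 ≤ v := hR1.trans (le_max_right _ _)
      have hvH : (v : ℂ) ∈ Hr := by
        rw [mem_Hr, Complex.ofReal_re]
        linarith
      have hn : ‖(v : ℂ)‖ = v := by
        rw [Complex.norm_real, Real.norm_of_nonneg (by linarith)]
      have := hR' v hvH (by rw [hn]; exact le_max_right _ _)
      rw [hn] at this
      rw [mul_comm]
      exact this
    rcases mul_eq_zero.1 hP0 with h | h
    · exact h
    · exact absurd h (conj_ne hx hy₀)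
  -- all other fibres
  intro x hx y hy
  have hy' : 0 < y.re := hy
  have hy₀' : 0 < y₀.re := hy₀
  set k : ℝ := y.re * y₀.re with hk
  have hk0 : 0 < k := by positivity
  set K : ℝ := ‖y + (starRingEnd ℂ) y₀‖ ^ 2 / k with hK
  have hK0 : 0 ≤ K := by positivity
  have hbound : ∀ x ∈ Hr, ‖T x y - x * y‖ ≤ (‖y‖ + 1) * (K + 1) * ((1 + ‖x‖) * x.re) := by
    intro x hx
    have hx' : 0 < x.re := hx
    set q : ℂ → ℂ := fun y => (T x y - x * y) / (y + (starRingEnd ℂ) x) + (x.re : ℂ) with hq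
    have hqd : DifferentiableOn ℂ q Hr := by
      refine DifferentiableOn.add_const _ (DifferentiableOn.div ?_ (by fun_prop) ?_)
      · exact (hol2 x hx).sub (by fun_prop)
      · intro z hz
        exact conj_ne hz hx
    have hqr : ∀ z ∈ Hr, 0 ≤ (q z).re := by
      intro z hz
      have := Q x hx z hz
      simp only [hq, Complex.add_re, Complex.ofReal_re]
      linarith
    have hs := sp hqd hqr hy hy₀
    have hq0 : q y₀ = (x.re : ℂ) := by
      simp only [hq, hzero x hx, zero_div, zero_add]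
    rw [hq0, Complex.conj_ofReal, Complex.ofReal_re] at hs
    have hn : ‖q y‖ ^ 2 ≤ ‖q y + (x.re : ℂ)‖ ^ 2 := by
      rw [← Complex.normSq_eq_norm_sq, ← Complex.normSq_eq_norm_sq, Complex.normSq_apply,
        Complex.normSq_apply]
      simp only [Complex.add_re, Complex.ofReal_re, Complex.add_im, Complex.ofReal_im, add_zero]
      nlinarith [hqr y hy]
    have hqK : ‖q y‖ ≤ K * x.re := by
      have h1 : ‖q y‖ ^ 2 * k ≤ ‖q y‖ * x.re * ‖y + (starRingEnd ℂ) y₀‖ ^ 2 := by
        calc ‖q y‖ ^ 2 * k ≤ ‖q y + (x.re : ℂ)‖ ^ 2 * k := by gcongr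
          _ ≤ (q y).re * x.re * ‖y + (starRingEnd ℂ) y₀‖ ^ 2 := hs
          _ ≤ ‖q y‖ * x.re * ‖y + (starRingEnd ℂ) y₀‖ ^ 2 := by
            gcongr
            exact Complex.re_le_norm _
      by_cases hz : ‖q y‖ = 0
      · rw [hz]
        positivity
      · have hpos : 0 < ‖q y‖ := lt_of_le_of_ne (norm_nonneg _) (Ne.symm hz)
        have h2 : ‖q y‖ * k ≤ x.re * ‖y + (starRingEnd ℂ) y₀‖ ^ 2 := by
          refine le_of_mul_le_mul_left ?_ hpos
          nlinarith
        rw [hK, div_mul_eq_mul_div, le_div_iff₀ hk0]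
        linarith
    have hD : y + (starRingEnd ℂ) x ≠ 0 := conj_ne hy hx
    have e1 : T x y - x * y = (q y - (x.re : ℂ)) * (y + (starRingEnd ℂ) x) := by
      simp only [hq]
      rw [add_sub_cancel_right, div_mul_cancel₀ _ hD]
    rw [e1, norm_mul]
    have e2 : ‖q y - (x.re : ℂ)‖ ≤ (K + 1) * x.re := by
      refine (norm_sub_le _ _).trans ?_
      rw [Complex.norm_real, Real.norm_of_nonneg hx'.le]
      linarith
    have e3 : ‖y + (starRingEnd ℂ) x‖ ≤ (‖y‖ + 1) * (1 + ‖x‖) := by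
      refine (norm_add_le _ _).trans ?_
      rw [RCLike.norm_conj]
      nlinarith [norm_nonneg x, norm_nonneg y]
    calc ‖q y - (x.re : ℂ)‖ * ‖y + (starRingEnd ℂ) x‖
        ≤ ((K + 1) * x.re) * ((‖y‖ + 1) * (1 + ‖x‖)) := by gcongr
      _ = (‖y‖ + 1) * (K + 1) * ((1 + ‖x‖) * x.re) := by ring
  -- the maximum principle
  set C : ℝ := (‖y‖ + 1) * (K + 1) with hC
  have hC0 : 0 < C := by positivity
  have hgd : DifferentiableOn ℂ (fun x => (T x y - x * y) / (x + 1) ^ 3) Hr := by
    refine DifferentiableOn.div ((hol y hy).sub (by fun_prop)) (by fun_prop) ?_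
    intro z hz
    refine pow_ne_zero _ ?_
    rw [← norm_pos_iff]
    exact lt_of_lt_of_le one_pos (norm_add_one_ge hz).1
  have hg0 := max_half hgd 0 ?_ hx
  · have hx1 : (x + 1) ^ 3 ≠ 0 := by
      refine pow_ne_zero _ ?_
      rw [← norm_pos_iff]
      exact lt_of_lt_of_le one_pos (norm_add_one_ge hx).1
    have := norm_le_zero_iff.1 hg0
    rw [div_eq_zero_iff] at this
    rcases this with h | h
    · linear_combination h
    · exact absurd h hx1
  · intro ε hε
    refine ⟨ε / (2 * C), 2 * C / ε, by positivity, ?_⟩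
    intro z hz hcase
    have hz' : 0 < z.re := hz
    obtain ⟨hN1, hN2⟩ := norm_add_one_ge hz
    have hb := hbound z hz
    set N := ‖z + 1‖ with hN
    have hN0 : 0 < N := by linarith
    rw [norm_div, norm_pow, zero_add, div_le_iff₀ (by positivity)]
    refine hb.trans ?_
    have hzN : z.re ≤ N := (Complex.re_le_norm z).trans hN2
    have h1 : (1 + ‖z‖) * z.re ≤ 2 * N * z.re := by
      refine mul_le_mul_of_nonneg_right (by linarith) hz'.le
    have h2 : C * ((1 + ‖z‖) * z.re) ≤ C * (2 * N * z.re) := mul_le_mul_of_nonneg_left h1 hC0.le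
    refine h2.trans ?_
    rcases hcase with h | h
    · rw [le_div_iff₀ (by positivity)] at h
      have h3 : N ≤ N ^ 3 := by nlinarith [sq_nonneg N, mul_pos hN0 hN0]
      calc C * (2 * N * z.re) = (z.re * (2 * C)) * N := by ring
        _ ≤ ε * N := by gcongr
        _ ≤ ε * N ^ 3 := by gcongr
    · rw [div_le_iff₀ hε] at h
      have h3 : 2 * C ≤ ε * N := by nlinarith
      calc C * (2 * N * z.re) ≤ C * (2 * N * N) := by gcongr
        _ = (2 * C) * N ^ 2 := by ring
        _ ≤ (ε * N) * N ^ 2 := by gcongr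
        _ = ε * N ^ 3 := by ring

end Q75.Bk
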