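import Mathlib
set_option autoImplicit false

/-! # Functions with nonnegative real part on the right half plane

The Schwarz–Pick inequality, the Julia–Wolff theorem at infinity, a Hopf type lemma and two
maximum principles. -/

namespace Q75.Bk

open Complex Filter Topology Set Metric

/-- The open right half plane. -/
def Hr : Set ℂ := {z | 0 < z.re}

lemma isOpen_Hr : IsOpen Hr := isOpen_lt continuous_const continuous_re

lemma conj_ne {u v : ℂ} (hu : 0 < u.re) (hv : 0 < v.re) : u + (starRingEnd ℂ) v ≠ 0 := by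
  intro h
  have := congrArg Complex.re h
  simp at this
  linarith

lemma sq_ident (a b : ℂ) : ‖a + (starRingEnd ℂ) b‖ ^ 2 - ‖a - b‖ ^ 2 = 4 * (a.re * b.re) := by
  simp only [← Complex.normSq_eq_norm_sq, Complex.normSq_apply, Complex.add_re, Complex.add_im,
    Complex.sub_re, Complex.sub_im, Complex.conj_re, Complex.conj_im]
  ring

/-- Schwarz–Pick for the right half plane, positive real part. -/
lemma sp_pos {G : ℂ → ℂ} (hG : DifferentiableOn ℂ G Hr) (hre : ∀ z ∈ Hr, 0 < (G z).re)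
    {u v : ℂ} (hu : u ∈ Hr) (hv : v ∈ Hr) :
    ‖G u + (starRingEnd ℂ) (G v)‖ ^ 2 * (u.re * v.re) ≤
      (G u).re * (G v).re * ‖u + (starRingEnd ℂ) v‖ ^ 2 := by
  -- the Cayley map `ζ ↦ (v + conj v ζ) / (1 - ζ)`
  have h1 : ∀ ζ ∈ ball (0 : ℂ) 1, (1 : ℂ) - ζ ≠ 0 := by
    intro ζ hζ h
    have : ζ = 1 := (sub_eq_zero.1 h).symm
    rw [this, mem_ball_zero_iff, norm_one] at hζ
    exact lt_irrefl _ hζ
  have hmap : ∀ ζ ∈ ball (0 : ℂ) 1, (v + (starRingEnd ℂ) v * ζ) / (1 - ζ) ∈ Hr := by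
    intro ζ hζ
    have hn := h1 ζ hζ
    have hpos : 0 < Complex.normSq (1 - ζ) := Complex.normSq_pos.2 hn
    have hz : Complex.normSq ζ < 1 := by
      rw [Complex.normSq_eq_norm_sq]
      have := mem_ball_zero_iff.1 hζ
      nlinarith [norm_nonneg ζ]
    show 0 < ((v + (starRingEnd ℂ) v * ζ) / (1 - ζ)).re
    rw [Complex.div_re, ← add_div]
    refine div_pos ?_ hpos
    simp only [Complex.add_re, Complex.mul_re, Complex.conj_re, Complex.conj_im, Complex.sub_re,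
      Complex.one_re, Complex.add_im, Complex.mul_im, Complex.sub_im, Complex.one_im]
    have hv' : 0 < v.re := hv
    rw [Complex.normSq_apply] at hz
    nlinarith
  set Φ : ℂ → ℂ := fun ζ => (G ((v + (starRingEnd ℂ) v * ζ) / (1 - ζ)) - G v) /
    (G ((v + (starRingEnd ℂ) v * ζ) / (1 - ζ)) + (starRingEnd ℂ) (G v)) with hΦ
  have hd : DifferentiableOn ℂ Φ (ball 0 1) := by
    have hc : DifferentiableOn ℂ (fun ζ => G ((v + (starRingEnd ℂ) v * ζ) / (1 - ζ))) (ball 0 1) := by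
      refine hG.comp ?_ hmap
      refine DifferentiableOn.div (by fun_prop) (by fun_prop) h1
    refine DifferentiableOn.div (hc.sub_const _) (hc.add_const _) ?_
    intro ζ hζ
    exact conj_ne (hre _ (hmap ζ hζ)) (hre v hv)
  have hm : MapsTo Φ (ball 0 1) (ball 0 1) := by
    intro ζ hζ
    have hA := hre _ (hmap ζ hζ)
    have hB := hre v hv
    rw [mem_ball_zero_iff, hΦ]
    simp only
    rw [norm_div, div_lt_one (norm_pos_iff.2 (conj_ne hA hB))]
    have := sq_ident (G ((v + (starRingEnd ℂ) v * ζ) / (1 - ζ))) (G v)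
    have h4 := mul_pos hA hB
    exact lt_of_pow_lt_pow_left₀ 2 (norm_nonneg _) (by linarith)
  have h0 : Φ 0 = 0 := by
    simp [hΦ]
  have hne := conj_ne hu hv
  have hζ : (u - v) / (u + (starRingEnd ℂ) v) ∈ ball (0 : ℂ) 1 := by
    rw [mem_ball_zero_iff, norm_div, div_lt_one (norm_pos_iff.2 hne)]
    have := sq_ident u v
    have h4 : 0 < u.re * v.re := mul_pos hu hv
    exact lt_of_pow_lt_pow_left₀ 2 (norm_nonneg _) (by linarith)
  have key := norm_le_norm_of_mapsTo_ball hd (hm.mono_right ball_subset_closedBall) h0 (mem_ball_zero_iff.1 hζ)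
  have hback : (v + (starRingEnd ℂ) v * ((u - v) / (u + (starRingEnd ℂ) v))) /
      (1 - (u - v) / (u + (starRingEnd ℂ) v)) = u := by
    have hvv : v + (starRingEnd ℂ) v ≠ 0 := conj_ne hv hv
    have e1 : 1 - (u - v) / (u + (starRingEnd ℂ) v) = (v + (starRingEnd ℂ) v) /
        (u + (starRingEnd ℂ) v) := by
      field_simp
      ring
    have e2 : v + (starRingEnd ℂ) v * ((u - v) / (u + (starRingEnd ℂ) v)) =
        u * (v + (starRingEnd ℂ) v) / (u + (starRingEnd ℂ) v) := by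
      field_simp
      ring
    rw [e1, e2]
    field_simp
  rw [hΦ] at key
  simp only [hback] at key
  have hA := hre u hu
  have hB := hre v hv
  rw [norm_div, norm_div, div_le_div_iff₀ (norm_pos_iff.2 (conj_ne hA hB)) (norm_pos_iff.2 hne)]
    at key
  have k2 : (‖G u - G v‖ * ‖u + (starRingEnd ℂ) v‖) ^ 2 ≤
      (‖u - v‖ * ‖G u + (starRingEnd ℂ) (G v)‖) ^ 2 :=
    pow_le_pow_left₀ (by positivity) key 2
  have i1 := sq_ident (G u) (G v)
  have i2 := sq_ident u v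
  have e3 : ‖G u - G v‖ ^ 2 = ‖G u + (starRingEnd ℂ) (G v)‖ ^ 2 - 4 * ((G u).re * (G v).re) := by
    linarith
  have e4 : ‖u - v‖ ^ 2 = ‖u + (starRingEnd ℂ) v‖ ^ 2 - 4 * (u.re * v.re) := by
    linarith
  rw [mul_pow, mul_pow, e3, e4] at k2
  nlinarith

/-- Schwarz–Pick for the right half plane, nonnegative real part. -/
lemma sp {G : ℂ → ℂ} (hG : DifferentiableOn ℂ G Hr) (hre : ∀ z ∈ Hr, 0 ≤ (G z).re)
    {u v : ℂ} (hu : u ∈ Hr) (hv : v ∈ Hr) :
    ‖G u + (starRingEnd ℂ) (G v)‖ ^ 2 * (u.re * v.re) ≤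
      (G u).re * (G v).re * ‖u + (starRingEnd ℂ) v‖ ^ 2 := by
  have h1 : ∀ ε : ℝ, 0 < ε → ‖(G u + ε) + (starRingEnd ℂ) (G v + ε)‖ ^ 2 * (u.re * v.re) ≤
      (G u + ε).re * (G v + ε).re * ‖u + (starRingEnd ℂ) v‖ ^ 2 := by
    intro ε hε
    refine sp_pos (G := fun z => G z + ε) (hG.add_const _) ?_ hu hv
    intro z hz
    have := hre z hz
    simp only [Complex.add_re, Complex.ofReal_re]
    linarith
  have c1 : Continuous fun ε : ℝ => ‖(G u + ε) + (starRingEnd ℂ) (G v + ε)‖ ^ 2 * (u.re * v.re) := by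
    fun_prop
  have c2 : Continuous fun ε : ℝ => (G u + ε).re * (G v + ε).re * ‖u + (starRingEnd ℂ) v‖ ^ 2 := by
    fun_prop
  have t1 := (c1.tendsto 0).mono_left (nhdsWithin_le_nhds (s := Ioi 0))
  have t2 := (c2.tendsto 0).mono_left (nhdsWithin_le_nhds (s := Ioi 0))
  have := le_of_tendsto_of_tendsto t1 t2 (by
    filter_upwards [self_mem_nhdsWithin] with ε hε
    exact h1 ε hε)
  simpa using this


lemma zero_prop {G : ℂ → ℂ} (hG : DifferentiableOn ℂ G Hr) (hre : ∀ z ∈ Hr, 0 ≤ (G z).re)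
    {v : ℂ} (hv : v ∈ Hr) (h0 : G v = 0) {u : ℂ} (hu : u ∈ Hr) : G u = 0 := by
  have h := sp hG hre hu hv
  have hpos : 0 < u.re * v.re := mul_pos hu hv
  rw [h0] at h
  simp only [map_zero, add_zero, Complex.zero_re, mul_zero, zero_mul] at h
  by_contra hne
  have := norm_pos_iff.2 hne
  nlinarith [mul_pos (pow_pos this 2) hpos]

/-- Hopf type lemma: a function with nonnegative real part cannot be `o(1/v)` at infinity. -/
lemma hopf {G : ℂ → ℂ} (hG : DifferentiableOn ℂ G Hr) (hre : ∀ z ∈ Hr, 0 ≤ (G z).re)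
    (h : ∀ ε : ℝ, 0 < ε → ∀ R : ℝ, ∃ v : ℝ, R ≤ v ∧ 1 ≤ v ∧ v * ‖G v‖ ≤ ε)
    {u : ℂ} (hu : u ∈ Hr) : G u = 0 := by
  by_contra hne
  have ha : 0 < ‖G u‖ := norm_pos_iff.2 hne
  have hu' : 0 < u.re := hu
  set a := ‖G u‖ with hadef
  obtain ⟨v, hv1, hv2, hv3⟩ := h (min (a / 2) (a * u.re / 32)) (by positivity) ‖u‖
  have hvH : (v : ℂ) ∈ Hr := by
    show 0 < (v : ℂ).re
    rw [Complex.ofReal_re]
    linarith
  have hs := sp hG hre hu hvH
  have e1 : v * ‖G v‖ ≤ a / 2 := hv3.trans (min_le_left _ _)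
  have e2 : v * ‖G v‖ ≤ a * u.re / 32 := hv3.trans (min_le_right _ _)
  have e3 : ‖G v‖ ≤ a / 2 := by nlinarith [norm_nonneg (G (v : ℂ))]
  have l1 : a / 2 ≤ ‖G u + (starRingEnd ℂ) (G v)‖ := by
    have : ‖G u‖ ≤ ‖G u + (starRingEnd ℂ) (G v)‖ + ‖(starRingEnd ℂ) (G v)‖ := by
      have := norm_sub_le (G u + (starRingEnd ℂ) (G v)) ((starRingEnd ℂ) (G v))
      simpa using this
    rw [RCLike.norm_conj] at this
    linarith
  have l2 : (a / 2) ^ 2 ≤ ‖G u + (starRingEnd ℂ) (G v)‖ ^ 2 := pow_le_pow_left₀ (by positivity) l1 2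
  have r1 : ‖u + (starRingEnd ℂ) (v : ℂ)‖ ≤ 2 * v := by
    refine (norm_add_le _ _).trans ?_
    rw [RCLike.norm_conj, Complex.norm_real, Real.norm_of_nonneg (by linarith)]
    linarith
  have r2 : ‖u + (starRingEnd ℂ) (v : ℂ)‖ ^ 2 ≤ (2 * v) ^ 2 := pow_le_pow_left₀ (by positivity) r1 2
  have r3 : (G u).re ≤ a := Complex.re_le_norm _
  have r4 : (G v).re ≤ ‖G v‖ := Complex.re_le_norm _
  have r5 : 0 ≤ (G u).re := hre u hu
  have r6 : 0 ≤ (G v).re := hre v hvH
  have r7 : (G u).re * (G v).re ≤ a * ‖G v‖ := mul_le_mul r3 r4 r6 (by positivity)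
  have r8 : (G u).re * (G v).re * ‖u + (starRingEnd ℂ) (v : ℂ)‖ ^ 2 ≤ a * ‖G v‖ * (2 * v) ^ 2 :=
    mul_le_mul r7 r2 (by positivity) (by positivity)
  have r9 : (a / 2) ^ 2 * (u.re * v) ≤ a * ‖G v‖ * (2 * v) ^ 2 := by
    refine le_trans ?_ (hs.trans r8)
    rw [Complex.ofReal_re]
    exact mul_le_mul_of_nonneg_right l2 (by positivity)
  have r10 : a * ‖G v‖ * (2 * v) ^ 2 ≤ 4 * a * v * (a * u.re / 32) := by
    have : a * ‖G v‖ * (2 * v) ^ 2 = 4 * a * v * (v * ‖G v‖) := by ring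
    rw [this]
    exact mul_le_mul_of_nonneg_left e2 (by positivity)
  have r11 : 0 < a ^ 2 * u.re * v := by positivity
  nlinarith

/-- Julia–Wolff at infinity, along rays. -/
lemma julia_wolff {G : ℂ → ℂ} (hG : DifferentiableOn ℂ G Hr) (hre : ∀ z ∈ Hr, 0 ≤ (G z).re) :
    ∃ α : ℝ, 0 ≤ α ∧ (∀ u ∈ Hr, α * u.re ≤ (G u).re) ∧
      ∀ e : ℂ, 0 < e.re → ‖e‖ = 1 →
        Tendsto (fun v : ℝ => G ((v : ℂ) * e) / ((v : ℂ) * e)) atTop (𝓝 (α : ℂ)) := by
  set A : Set ℝ := {r | ∃ u ∈ Hr, r = (G u).re / u.re} with hA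
  have hA0 : ∀ r ∈ A, 0 ≤ r := by
    rintro r ⟨u, hu, rfl⟩
    exact div_nonneg (hre u hu) (le_of_lt hu)
  have hAne : A.Nonempty := ⟨_, 1, by show (0:ℝ) < (1 : ℂ).re; simp, rfl⟩
  have hAb : BddBelow A := ⟨0, hA0⟩
  set α := sInf A with hα
  have h1 : ∀ u ∈ Hr, α * u.re ≤ (G u).re := by
    intro u hu
    have := csInf_le hAb (⟨u, hu, rfl⟩ : (G u).re / u.re ∈ A)
    have hu' : 0 < u.re := hu
    rwa [le_div_iff₀ hu'] at this
  refine ⟨α, Real.sInf_nonneg hA0, h1, ?_⟩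
  intro e he hen
  set G1 : ℂ → ℂ := fun z => G z - α * z with hG1
  have hd1 : DifferentiableOn ℂ G1 Hr := hG.sub (by fun_prop)
  have hre1 : ∀ z ∈ Hr, 0 ≤ (G1 z).re := by
    intro z hz
    have := h1 z hz
    simp only [hG1, Complex.sub_re, Complex.mul_re, Complex.ofReal_re, Complex.ofReal_im, zero_mul,
      sub_zero]
    linarith
  have key : ∀ η : ℝ, 0 < η → ∀ᶠ v : ℝ in atTop, ‖G1 ((v : ℂ) * e)‖ ≤ η * v := by
    intro η hη
    have hε : 0 < η * e.re / 32 := by positivity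
    obtain ⟨r, ⟨u, hu, rfl⟩, hr⟩ := exists_lt_of_csInf_lt hAne
      (show sInf A < α + η * e.re / 32 by rw [← hα]; linarith)
    have hu' : 0 < u.re := hu
    have hGu : (G1 u).re ≤ η * e.re / 32 * u.re := by
      rw [div_lt_iff₀ hu'] at hr
      simp only [hG1, Complex.sub_re, Complex.mul_re, Complex.ofReal_re, Complex.ofReal_im,
        zero_mul, sub_zero]
      linarith
    filter_upwards [eventually_ge_atTop (max 1 (max ‖u‖ (2 * ‖G1 u‖ / η)))] with v hv
    have hv1 : 1 ≤ v := (le_max_left _ _).trans hv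
    have hv2 : ‖u‖ ≤ v := ((le_max_left _ _).trans (le_max_right _ _)).trans hv
    have hv3 : ‖G1 u‖ ≤ η * v / 2 := by
      have : 2 * ‖G1 u‖ / η ≤ v := ((le_max_right _ _).trans (le_max_right _ _)).trans hv
      rw [div_le_iff₀ hη] at this
      linarith
    by_contra hcon
    push Not at hcon
    have hvre : ((v : ℂ) * e).re = v * e.re := by simp
    have hvH : (v : ℂ) * e ∈ Hr := by
      show 0 < ((v : ℂ) * e).re
      rw [hvre]
      positivity
    have hs := sp hd1 hre1 hu hvH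
    set w := ‖G1 ((v : ℂ) * e)‖ with hw
    have hw0 : 0 < w := lt_of_le_of_lt (by positivity) hcon
    have l1 : w / 2 ≤ ‖G1 u + (starRingEnd ℂ) (G1 ((v : ℂ) * e))‖ := by
      have : ‖(starRingEnd ℂ) (G1 ((v : ℂ) * e))‖ ≤
          ‖G1 u + (starRingEnd ℂ) (G1 ((v : ℂ) * e))‖ + ‖G1 u‖ := by
        have := norm_sub_le (G1 u + (starRingEnd ℂ) (G1 ((v : ℂ) * e))) (G1 u)
        simpa using this
      rw [RCLike.norm_conj] at this
      linarith
    have l2 : (w / 2) ^ 2 ≤ ‖G1 u + (starRingEnd ℂ) (G1 ((v : ℂ) * e))‖ ^ 2 :=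
      pow_le_pow_left₀ (by positivity) l1 2
    have r1 : ‖u + (starRingEnd ℂ) ((v : ℂ) * e)‖ ≤ 2 * v := by
      refine (norm_add_le _ _).trans ?_
      rw [RCLike.norm_conj, norm_mul, hen, Complex.norm_real, Real.norm_of_nonneg (by linarith)]
      linarith
    have r2 : ‖u + (starRingEnd ℂ) ((v : ℂ) * e)‖ ^ 2 ≤ (2 * v) ^ 2 :=
      pow_le_pow_left₀ (by positivity) r1 2
    have r4 : (G1 ((v : ℂ) * e)).re ≤ w := Complex.re_le_norm _
    have r5 : 0 ≤ (G1 u).re := hre1 u hu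
    have r6 : 0 ≤ (G1 ((v : ℂ) * e)).re := hre1 _ hvH
    have r7 : (G1 u).re * (G1 ((v : ℂ) * e)).re ≤ (η * e.re / 32 * u.re) * w :=
      mul_le_mul hGu r4 r6 (by positivity)
    have r8 : (G1 u).re * (G1 ((v : ℂ) * e)).re * ‖u + (starRingEnd ℂ) ((v : ℂ) * e)‖ ^ 2 ≤
        (η * e.re / 32 * u.re) * w * (2 * v) ^ 2 :=
      mul_le_mul r7 r2 (by positivity) (by positivity)
    have r9 : (w / 2) ^ 2 * (u.re * (v * e.re)) ≤ (η * e.re / 32 * u.re) * w * (2 * v) ^ 2 := by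
      refine le_trans ?_ (hs.trans r8)
      rw [hvre]
      exact mul_le_mul_of_nonneg_right l2 (by positivity)
    have r10 : 0 < w * u.re * v * e.re := by positivity
    have r11 : (w * u.re * v * e.re) * w ≤ (w * u.re * v * e.re) * (η * v / 2) := by nlinarith
    have r12 := le_of_mul_le_mul_left r11 r10
    have : 0 < η * v := by positivity
    linarith
  rw [Metric.tendsto_atTop']
  intro η hη
  obtain ⟨N, hN⟩ := (eventually_atTop.1 (key (η / 2) (by positivity)))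
  refine ⟨max N 1, fun v hv => ?_⟩
  have hvN : N ≤ v := (le_max_left _ _).trans hv.le
  have hv1 : 1 ≤ v := (le_max_right _ _).trans hv.le
  have hk := hN v hvN
  have hve : (v : ℂ) * e ≠ 0 := by
    refine mul_ne_zero (by exact_mod_cast (by linarith : v ≠ 0)) ?_
    intro h
    rw [h, norm_zero] at hen
    exact zero_ne_one hen
  have hnv : ‖(v : ℂ) * e‖ = v := by
    rw [norm_mul, hen, Complex.norm_real, Real.norm_of_nonneg (by linarith), mul_one]
  rw [dist_eq_norm]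
  have : G ((v : ℂ) * e) / ((v : ℂ) * e) - α = G1 ((v : ℂ) * e) / ((v : ℂ) * e) := by
    rw [sub_eq_iff_eq_add]
    show _ = (G ((v : ℂ) * e) - α * ((v : ℂ) * e)) / ((v : ℂ) * e) + α
    rw [sub_div, mul_div_cancel_right₀ _ hve]
    ring
  rw [this, norm_div, hnv, div_lt_iff₀ (by linarith)]
  nlinarith

/-- Maximum principle on the half plane for functions which are small near the boundary. -/
lemma max_half {g : ℂ → ℂ} (hg : DifferentiableOn ℂ g Hr) (M : ℝ)
    (h : ∀ ε : ℝ, 0 < ε → ∃ η R : ℝ, 0 < η ∧ ∀ x ∈ Hr, x.re ≤ η ∨ R ≤ ‖x‖ → ‖g x‖ ≤ M + ε)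
    {x : ℂ} (hx : x ∈ Hr) : ‖g x‖ ≤ M := by
  refine le_of_forall_pos_le_add fun ε hε => ?_
  obtain ⟨η, R, hη, hb⟩ := h ε hε
  have hx' : 0 < x.re := hx
  set η' := min η (x.re / 2) with hη'
  have hη'0 : 0 < η' := lt_min hη (by positivity)
  set R' := max R (‖x‖ + 1) with hR'
  set U : Set ℂ := {z | η' < z.re} ∩ ball 0 R' with hU
  have hcl : closure U ⊆ {z | η' ≤ z.re} ∩ closedBall 0 R' := by
    refine closure_minimal ?_ ((isClosed_le continuous_const continuous_re).inter isClosed_closedBall)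
    rintro z ⟨hz1, hz2⟩
    exact ⟨le_of_lt (show η' < z.re from hz1), ball_subset_closedBall hz2⟩
  have hclH : closure U ⊆ Hr := fun z hz => lt_of_lt_of_le hη'0 (hcl hz).1
  have hopen : IsOpen U := (isOpen_lt continuous_const continuous_re).inter isOpen_ball
  have hbd : Bornology.IsBounded U := isBounded_ball.subset inter_subset_right
  have hdc : DiffContOnCl ℂ g U := (hg.mono hclH).diffContOnCl
  refine norm_le_of_forall_mem_frontier_norm_le hbd hdc (C := M + ε) ?_ (subset_closure ?_)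
  · intro z hz
    rw [frontier, hopen.interior_eq] at hz
    have hz1 := hcl hz.1
    have hzU := hz.2
    refine hb z (hclH hz.1) ?_
    by_contra hcon
    push Not at hcon
    refine hzU ⟨lt_of_le_of_lt (min_le_left _ _) hcon.1, ?_⟩
    rw [mem_ball_zero_iff]
    exact lt_of_lt_of_le hcon.2 (le_max_left _ _)
  · refine ⟨?_, ?_⟩
    · show η' < x.re
      exact lt_of_le_of_lt (min_le_right _ _) (by linarith)
    · rw [mem_ball_zero_iff]
      exact lt_of_lt_of_le (by linarith) (le_max_right _ _)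

end Q75.Bk
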