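import Pool.Agent.Q75.BkTwoVar
set_option autoImplicit false

/-! # The symmetrized polydisc and its functions with positive real part -/

namespace Q75.Bk.Sym

open Complex Filter Topology Set Metric Polynomial Asymptotics

/-- The symmetrization map `lam ↦ (σ₁ lam, …, σₙ lam)`, where `σₖ` is the `k`-th elementary
symmetric polynomial; the `k`-th coordinate (`k = 0, …, n - 1`) is `σₖ₊₁ lam`. -/
def symMap (n : ℕ) (lam : Fin n → ℂ) : Fin n → ℂ :=
  fun k => ∑ s ∈ (Finset.univ : Finset (Fin n)).powersetCard (k.val + 1), ∏ i ∈ s, lam i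

/-- The symmetrized polydisc `𝔾ₙ`. -/
def symPolydisc (n : ℕ) : Set (Fin n → ℂ) :=
  {z | ∃ lam : Fin n → ℂ, (∀ i, ‖lam i‖ < 1) ∧ z = symMap n lam}

/-- The Euclidean norm of `ℂⁿ`. -/
noncomputable def eucl {n : ℕ} (v : Fin n → ℂ) : ℝ := Real.sqrt (∑ i, ‖v i‖ ^ 2)

lemma eucl_nonneg {n : ℕ} (v : Fin n → ℂ) : 0 ≤ eucl v := Real.sqrt_nonneg _

lemma norm_le_eucl {n : ℕ} (v : Fin n → ℂ) : ‖v‖ ≤ eucl v := by
  refine (pi_norm_le_iff_of_nonneg (eucl_nonneg v)).2 fun i => ?_
  refine Real.le_sqrt_of_sq_le ?_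
  exact Finset.single_le_sum (f := fun i => ‖v i‖ ^ 2) (fun j _ => by positivity)
    (Finset.mem_univ i)

lemma eucl_le {n : ℕ} (v : Fin n → ℂ) : eucl v ≤ Real.sqrt n * ‖v‖ := by
  refine Real.sqrt_le_iff.2 ⟨by positivity, ?_⟩
  rw [mul_pow, Real.sq_sqrt (Nat.cast_nonneg n)]
  calc ∑ i, ‖v i‖ ^ 2 ≤ ∑ _i : Fin n, ‖v‖ ^ 2 :=
        Finset.sum_le_sum fun i _ => pow_le_pow_left₀ (norm_nonneg _) (norm_le_pi_norm v i) 2
    _ = n * ‖v‖ ^ 2 := by simp

/-- The monic polynomial with coefficients given by the point `z`. -/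
noncomputable def pol (n : ℕ) (z : Fin n → ℂ) : ℂ[X] :=
  X ^ n + ∑ k : Fin n, C ((-1) ^ (k.val + 1) * z k) * X ^ (n - (k.val + 1))

lemma symMap_eq {n : ℕ} (lam : Fin n → ℂ) (k : Fin n) :
    symMap n lam k = (Finset.univ.val.map lam).esymm (k.val + 1) := by
  rw [Finset.esymm_map_val]
  rfl

lemma pol_symMap {n : ℕ} (lam : Fin n → ℂ) : pol n (symMap n lam) = ∏ i, (X - C (lam i)) := by
  have h := Multiset.prod_X_sub_X_eq_sum_esymm (Finset.univ.val.map lam)
  rw [Multiset.map_map] at h
  have h0 : (Multiset.map ((fun t => X - C t) ∘ lam) Finset.univ.val).prod =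
      ∏ i, (X - C (lam i)) := rfl
  rw [h0] at h
  rw [h, Multiset.card_map, Finset.card_val, Finset.card_univ, Fintype.card_fin,
    Finset.sum_range_succ', Finset.sum_range, pol, add_comm]
  congr 1
  · refine Finset.sum_congr rfl fun k _ => ?_
    rw [symMap_eq, ← mul_assoc, map_mul, map_pow, map_neg, map_one]
  · rw [Finset.esymm_map_val]
    simp

lemma eval_pol {n : ℕ} (z : Fin n → ℂ) (l : ℂ) :
    (pol n z).eval l = l ^ n + ∑ k : Fin n, ((-1) ^ (k.val + 1) * z k) * l ^ (n - (k.val + 1)) := by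
  simp [pol, Polynomial.eval_finsetSum]

lemma eval_dpol {n : ℕ} (z : Fin n → ℂ) (l : ℂ) :
    (derivative (pol n z)).eval l = (derivative (X ^ n : ℂ[X])).eval l +
      ∑ k : Fin n, ((-1) ^ (k.val + 1) * z k) *
        (derivative (X ^ (n - (k.val + 1)) : ℂ[X])).eval l := by
  simp only [pol, derivative_add, derivative_sum, derivative_C_mul, eval_add,
    Polynomial.eval_finsetSum, eval_mul, eval_C]

/-- The function `2 l p'(l) / p(l) - n`, which is the sum of `(l + λ) / (l - λ)` over the roots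
`λ` of `p`. -/
noncomputable def hfun (n : ℕ) (l : ℂ) (z : Fin n → ℂ) : ℂ :=
  2 * l * (derivative (pol n z)).eval l / (pol n z).eval l - n

lemma hfun_symMap {n : ℕ} {l : ℂ} {lam : Fin n → ℂ} (h : ∀ i, l - lam i ≠ 0) :
    hfun n l (symMap n lam) = ∑ i, (2 * l / (l - lam i) - 1) := by
  have h1 : (pol n (symMap n lam)).eval l = ∏ i, (l - lam i) := by
    rw [pol_symMap, eval_prod]
    simp
  have h2 : (derivative (pol n (symMap n lam))).eval l =
      ∑ i, ∏ j ∈ Finset.univ.erase i, (l - lam j) := by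
    rw [pol_symMap, derivative_prod_finset]
    simp [Polynomial.eval_finsetSum, eval_prod]
  have h3 : ∏ i, (l - lam i) ≠ 0 := Finset.prod_ne_zero_iff.2 fun i _ => h i
  rw [hfun, h1, h2, Finset.sum_sub_distrib]
  have h4 : ∑ i, 2 * l / (l - lam i) = 2 * l * (∑ i, ∏ j ∈ Finset.univ.erase i, (l - lam j)) /
      ∏ i, (l - lam i) := by
    rw [eq_div_iff h3, Finset.sum_mul, Finset.mul_sum]
    refine Finset.sum_congr rfl fun i _ => ?_
    rw [← Finset.mul_prod_erase Finset.univ _ (Finset.mem_univ i)]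
    have := h i
    field_simp
  rw [h4]
  simp

lemma contDiff_evalpol {n : ℕ} (l : ℂ) : ContDiff ℂ 1 fun z : Fin n → ℂ => (pol n z).eval l := by
  simp only [eval_pol]
  refine contDiff_const.add (ContDiff.sum fun k _ => ?_)
  exact (contDiff_const.mul (contDiff_apply ℂ ℂ k)).mul contDiff_const

lemma contDiff_evaldpol {n : ℕ} (l : ℂ) :
    ContDiff ℂ 1 fun z : Fin n → ℂ => (derivative (pol n z)).eval l := by
  simp only [eval_dpol]
  refine contDiff_const.add (ContDiff.sum fun k _ => ?_)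
  exact (contDiff_const.mul (contDiff_apply ℂ ℂ k)).mul contDiff_const

lemma contDiffAt_hfun {n : ℕ} {l : ℂ} {z : Fin n → ℂ} (h : (pol n z).eval l ≠ 0) :
    ContDiffAt ℂ 1 (hfun n l) z := by
  unfold hfun
  refine ContDiffAt.sub (ContDiffAt.div ?_ (contDiff_evalpol l).contDiffAt h) contDiffAt_const
  exact contDiffAt_const.mul (contDiff_evaldpol l).contDiffAt

lemma differentiable_symMap (n : ℕ) : Differentiable ℂ (symMap n) := by
  rw [differentiable_pi]
  intro k
  unfold symMap
  refine Differentiable.fun_sum fun s _ => ?_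
  have : ContDiff ℂ 1 fun lam : Fin n → ℂ => ∏ i ∈ s, lam i :=
    contDiff_prod fun i _ => contDiff_apply ℂ ℂ i
  exact this.differentiable one_ne_zero

/-- The Cayley transform of the right half plane onto the unit disc with `cay l ∞ = l`. -/
noncomputable def cay (l x : ℂ) : ℂ := l * (x - 1) / (x + 1)

lemma add_one_ne {x : ℂ} (hx : 0 ≤ x.re) : x + 1 ≠ 0 := by
  intro h
  have := congrArg Complex.re h
  simp at this
  linarith

lemma sub_cay {l x : ℂ} (hx : 0 ≤ x.re) : l - cay l x = 2 * l / (x + 1) := by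
  have := add_one_ne hx
  rw [cay]
  field_simp
  ring

lemma cay_lt {l x : ℂ} (hl : ‖l‖ = 1) (hx : x ∈ Hr) : ‖cay l x‖ < 1 := by
  have hx' : 0 < x.re := hx
  have hne := add_one_ne hx'.le
  rw [cay, norm_div, norm_mul, hl, one_mul, div_lt_one (norm_pos_iff.2 hne)]
  have := sq_ident x 1
  rw [map_one, Complex.one_re, mul_one] at this
  exact lt_of_pow_lt_pow_left₀ 2 (norm_nonneg _) (by linarith)

lemma cay_inv {l a : ℂ} (hl : ‖l‖ = 1) (ha : l - a ≠ 0) : cay l ((l + a) / (l - a)) = a := by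
  have hl0 : l ≠ 0 := by
    rw [← norm_pos_iff, hl]
    exact one_pos
  have h1 : (l + a) / (l - a) - 1 = 2 * a / (l - a) := by
    field_simp
    ring
  have h2 : (l + a) / (l - a) + 1 = 2 * l / (l - a) := by
    field_simp
    ring
  rw [cay, h1, h2]
  field_simp

lemma re_inv_cay {l a : ℂ} (hl : ‖l‖ = 1) :
    ((l + a) / (l - a)).re = (1 - ‖a‖ ^ 2) / Complex.normSq (l - a) := by
  have h1 : l.re * l.re + l.im * l.im = 1 := by
    rw [← Complex.normSq_apply, Complex.normSq_eq_norm_sq, hl, one_pow]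
  rw [← Complex.normSq_eq_norm_sq, Complex.normSq_apply a, Complex.div_re, ← add_div]
  congr 1
  simp only [Complex.add_re, Complex.sub_re, Complex.add_im, Complex.sub_im]
  linarith

lemma re_inv_cay_nonneg {l a : ℂ} (hl : ‖l‖ = 1) (h : ‖a‖ ≤ 1) :
    0 ≤ ((l + a) / (l - a)).re := by
  rw [re_inv_cay hl]
  refine div_nonneg ?_ (Complex.normSq_nonneg _)
  nlinarith [norm_nonneg a]

lemma re_inv_cay_pos {l a : ℂ} (hl : ‖l‖ = 1) (ha : l - a ≠ 0) (h : ‖a‖ < 1) :
    0 < ((l + a) / (l - a)).re := by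
  rw [re_inv_cay hl]
  refine div_pos ?_ (Complex.normSq_pos.2 ha)
  nlinarith [norm_nonneg a]

lemma sub_ne_of_lt {l a : ℂ} (hl : ‖l‖ = 1) (h : ‖a‖ < 1) : l - a ≠ 0 := by
  intro h0
  rw [sub_eq_zero] at h0
  rw [← h0, hl] at h
  exact lt_irrefl _ h

lemma cay_mem {n : ℕ} {l : ℂ} (hl : ‖l‖ = 1) {x : Fin n → ℂ} (hx : ∀ i, x i ∈ Hr) :
    symMap n (fun i => cay l (x i)) ∈ symPolydisc n :=
  ⟨_, fun i => cay_lt hl (hx i), rfl⟩

lemma hfun_cay {n : ℕ} {l : ℂ} (hl : ‖l‖ = 1) {x : Fin n → ℂ} (hx : ∀ i, 0 ≤ (x i).re) :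
    hfun n l (symMap n (fun i => cay l (x i))) = ∑ i, x i := by
  have hl0 : l ≠ 0 := by
    rw [← norm_pos_iff, hl]
    exact one_pos
  have h1 : ∀ i, l - cay l (x i) ≠ 0 := by
    intro i
    rw [sub_cay (hx i)]
    exact div_ne_zero (mul_ne_zero two_ne_zero hl0) (add_one_ne (hx i))
  rw [hfun_symMap h1]
  refine Finset.sum_congr rfl fun i _ => ?_
  rw [sub_cay (hx i)]
  have := add_one_ne (hx i)
  field_simp
  ring

lemma pol_ne {n : ℕ} {l : ℂ} {lam : Fin n → ℂ} (h : ∀ i, l - lam i ≠ 0) :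
    (pol n (symMap n lam)).eval l ≠ 0 := by
  rw [pol_symMap, eval_prod]
  refine Finset.prod_ne_zero_iff.2 fun i _ => ?_
  simpa using h i

lemma hfun_re_pos {n : ℕ} {l : ℂ} (hl : ‖l‖ = 1) {z : Fin n → ℂ} (hz : z ∈ symPolydisc n) :
    0 ≤ (hfun n l z).re := by
  obtain ⟨lam, hlam, rfl⟩ := hz
  have h : ∀ i, l - lam i ≠ 0 := fun i => sub_ne_of_lt hl (hlam i)
  rw [hfun_symMap h, Complex.re_sum]
  refine Finset.sum_nonneg fun i _ => ?_
  have : 2 * l / (l - lam i) - 1 = (l + lam i) / (l - lam i) := by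
    have := h i
    field_simp
    ring
  rw [this]
  exact (re_inv_cay_pos hl (h i) (hlam i)).le

lemma differentiableOn_hfun {n : ℕ} {l : ℂ} (hl : ‖l‖ = 1) :
    DifferentiableOn ℂ (hfun n l) (symPolydisc n) := by
  rintro z ⟨lam, hlam, rfl⟩
  exact ((contDiffAt_hfun (pol_ne fun i => sub_ne_of_lt hl (hlam i))).differentiableAt
    one_ne_zero).differentiableWithinAt

/-- The closure of the symmetrized polydisc is contained in the image of the closed polydisc. -/
lemma closure_subset {n : ℕ} {p : Fin n → ℂ} (hp : p ∈ closure (symPolydisc n)) :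
    ∃ lam : Fin n → ℂ, (∀ i, ‖lam i‖ ≤ 1) ∧ p = symMap n lam := by
  have hK : IsClosed (symMap n '' closedBall (0 : Fin n → ℂ) 1) :=
    ((isCompact_closedBall _ _).image (differentiable_symMap n).continuous).isClosed
  have hsub : symPolydisc n ⊆ symMap n '' closedBall (0 : Fin n → ℂ) 1 := by
    rintro z ⟨lam, hlam, rfl⟩
    refine ⟨lam, ?_, rfl⟩
    rw [mem_closedBall_zero_iff]
    exact (pi_norm_le_iff_of_nonneg zero_le_one).2 fun i => (hlam i).le
  obtain ⟨lam, h1, h2⟩ := closure_minimal hsub hK hp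
  rw [mem_closedBall_zero_iff] at h1
  exact ⟨lam, fun i => (norm_le_pi_norm lam i).trans h1, h2.symm⟩

/-- Two points of the symmetrized polydisc with the same logarithmic derivative at infinitely many
points are equal. -/
lemma eq_of_hfun {n : ℕ} {z w : Fin n → ℂ} (hz : z ∈ symPolydisc n) (hw : w ∈ symPolydisc n)
    {S : Set ℂ} (hS : S.Infinite) (hS1 : ∀ l ∈ S, ‖l‖ = 1) (h : ∀ l ∈ S, hfun n l z = hfun n l w) :
    z = w := by
  obtain ⟨lam, hlam, rfl⟩ := hz
  obtain ⟨mu, hmu, rfl⟩ := hw
  set p := pol n (symMap n lam) with hp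
  set q := pol n (symMap n mu) with hq
  have hpe : p = ∏ i, (X - C (lam i)) := pol_symMap lam
  have hqe : q = ∏ i, (X - C (mu i)) := pol_symMap mu
  have hpm : p.Monic := by
    rw [hpe]
    exact monic_prod_of_monic _ _ fun i _ => monic_X_sub_C _
  have hqm : q.Monic := by
    rw [hqe]
    exact monic_prod_of_monic _ _ fun i _ => monic_X_sub_C _
  have hpd : p.natDegree = n := by
    rw [hpe, natDegree_prod_of_monic _ _ fun i _ => monic_X_sub_C _]
    simp
  have hqd : q.natDegree = n := by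
    rw [hqe, natDegree_prod_of_monic _ _ fun i _ => monic_X_sub_C _]
    simp
  have hW : derivative p * q - p * derivative q = 0 := by
    refine Polynomial.eq_zero_of_infinite_isRoot _ (hS.mono fun l hl => ?_)
    have hl1 := hS1 l hl
    have hl0 : l ≠ 0 := by
      rw [← norm_pos_iff, hl1]
      exact one_pos
    have h1 : p.eval l ≠ 0 := pol_ne fun i => sub_ne_of_lt hl1 (hlam i)
    have h2 : q.eval l ≠ 0 := pol_ne fun i => sub_ne_of_lt hl1 (hmu i)
    have h3 := h l hl
    rw [hfun, hfun, sub_left_inj, ← hp, ← hq, div_eq_div_iff h1 h2] at h3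
    show (derivative p * q - p * derivative q).IsRoot l
    rw [IsRoot.def, eval_sub, eval_mul, eval_mul, sub_eq_zero]
    have h4 : (2 * l) * (eval l (derivative p) * eval l q) =
        (2 * l) * (eval l p * eval l (derivative q)) := by linear_combination h3
    exact mul_left_cancel₀ (mul_ne_zero two_ne_zero hl0) h4
  have hpq : p = q := by
    by_contra hne
    set d := p - q with hd
    have hd0 : d ≠ 0 := sub_ne_zero.2 hne
    have hdd : derivative d * q = d * derivative q := by
      rw [hd, derivative_sub]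
      linear_combination hW
    have hdeg : d.natDegree < n := by
      rcases Nat.eq_zero_or_pos n with h0 | h0
      · exfalso
        subst h0
        apply hd0
        rw [hd, hpm.natDegree_eq_zero.1 hpd, hqm.natDegree_eq_zero.1 hqd, sub_self]
      · have h5 : d.degree < p.degree := degree_sub_lt_left (by
            rw [degree_eq_natDegree hpm.ne_zero, degree_eq_natDegree hqm.ne_zero, hpd, hqd])
            hpm.ne_zero (by rw [hpm.leadingCoeff, hqm.leadingCoeff])
        rw [degree_eq_natDegree hpm.ne_zero, degree_eq_natDegree hd0, hpd] at h5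
        exact_mod_cast h5
    -- compare the coefficients of order `d.natDegree + n - 1`
    have hn0 : 0 < n := lt_of_le_of_lt (Nat.zero_le _) hdeg
    have hqn : derivative q ≠ 0 := by
      intro h0
      have := derivative_eq_zero.1 h0
      omega
    have hqdeg : (derivative q).natDegree = n - 1 := by
      rw [natDegree_derivative, hqd]
    have hdn : derivative d ≠ 0 := by
      intro h0
      rw [h0, zero_mul] at hdd
      exact mul_ne_zero hd0 hqn hdd.symm
    have hdpos : d.natDegree ≠ 0 := by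
      intro h0
      apply hdn
      rw [eq_C_of_natDegree_eq_zero h0, derivative_C]
    have hlc := congrArg leadingCoeff hdd
    rw [leadingCoeff_mul, leadingCoeff_mul, hqm.leadingCoeff, mul_one] at hlc
    have e1 : (derivative d).leadingCoeff = d.leadingCoeff * d.natDegree := by
      rw [leadingCoeff, natDegree_derivative, coeff_derivative]
      have : d.natDegree - 1 + 1 = d.natDegree := Nat.succ_pred_eq_of_ne_zero hdpos
      rw [this, leadingCoeff]
      congr 1
      have h6 : ((d.natDegree - 1 + 1 : ℕ) : ℂ) = (d.natDegree : ℂ) := by rw [this]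
      push_cast at h6
      exact_mod_cast h6
    have e2 : (derivative q).leadingCoeff = n := by
      rw [leadingCoeff, hqdeg, coeff_derivative]
      have : n - 1 + 1 = n := Nat.succ_pred_eq_of_pos hn0
      rw [this]
      have h7 : q.coeff n = 1 := by
        rw [← hqd]
        exact hqm.coeff_natDegree
      rw [h7, one_mul]
      have h6 : ((n - 1 + 1 : ℕ) : ℂ) = (n : ℂ) := by rw [this]
      push_cast at h6
      exact_mod_cast h6
    rw [e1, e2] at hlc
    have hlc0 : d.leadingCoeff ≠ 0 := leadingCoeff_ne_zero.2 hd0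
    have := mul_left_cancel₀ hlc0 hlc
    have h8 : d.natDegree = n := by exact_mod_cast this
    omega
  have hroots : (Finset.univ.val.map lam : Multiset ℂ) = Finset.univ.val.map mu := by
    have h1 : p.roots = Finset.univ.val.map lam := by
      rw [hpe]
      have := roots_multiset_prod_X_sub_C (Finset.univ.val.map lam)
      rwa [Multiset.map_map] at this
    have h2 : q.roots = Finset.univ.val.map mu := by
      rw [hqe]
      have := roots_multiset_prod_X_sub_C (Finset.univ.val.map mu)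
      rwa [Multiset.map_map] at this
    rw [← h1, ← h2, hpq]
  funext k
  rw [symMap_eq, symMap_eq, hroots]

end Q75.Bk.Sym
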