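import Pool.Agent.Q75.BkPoly
set_option autoImplicit false

/-! # Burns–Krantz rigidity of the symmetrized polydisc: the proof -/

namespace Q75.Bk.Sym

open Complex Filter Topology Set Metric Asymptotics

/-- The coordinates of a two-dimensional slice. -/
noncomputable def slc {n : ℕ} (x₀ : Fin n → ℂ) (r : Fin n → ℝ) (q : ℂ × ℂ) : Fin n → ℂ :=
  fun i => ((x₀ i).im : ℂ) * I + (r i : ℂ) * q.1 + ((x₀ i).re : ℂ) * q.2

lemma slc_mem {n : ℕ} {x₀ : Fin n → ℂ} {r : Fin n → ℝ} {q : ℂ × ℂ} (hx : ∀ i, 0 ≤ (x₀ i).re)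
    (hr : ∀ i, 0 < r i) (h1 : q.1 ∈ Hr) (h2 : q.2 ∈ Hr) (i : Fin n) : slc x₀ r q i ∈ Hr := by
  have h1' : 0 < q.1.re := h1
  have h2' : 0 < q.2.re := h2
  show 0 < (slc x₀ r q i).re
  simp only [slc, Complex.add_re, Complex.mul_re, Complex.ofReal_re, Complex.ofReal_im,
    Complex.I_re, Complex.I_im, mul_zero, zero_mul, sub_zero, mul_one]
  have := mul_pos (hr i) h1'
  have := mul_nonneg (hx i) h2'.le
  linarith

lemma slc_base {n : ℕ} (x₀ : Fin n → ℂ) (r : Fin n → ℝ) : slc x₀ r (0, 1) = x₀ := by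
  funext i
  have := Complex.re_add_im (x₀ i)
  simp only [slc, mul_zero, mul_one, add_zero]
  linear_combination this

lemma slc_sum {n : ℕ} (x₀ : Fin n → ℂ) (r : Fin n → ℝ) (q : ℂ × ℂ) :
    ∑ i, slc x₀ r q i = ((∑ i, (x₀ i).im : ℝ) : ℂ) * I + ((∑ i, r i : ℝ) : ℂ) * q.1 +
      ((∑ i, (x₀ i).re : ℝ) : ℂ) * q.2 := by
  simp only [slc, Finset.sum_add_distrib, ← Finset.sum_mul]
  push_cast
  rfl

lemma diff_cay {n : ℕ} {l : ℂ} {V : Type*} [NormedAddCommGroup V] [NormedSpace ℂ V]
    {g : V → Fin n → ℂ} {x : V} (hg : ∀ i, DifferentiableAt ℂ (fun y => g y i) x)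
    (hre : ∀ i, 0 ≤ (g x i).re) :
    DifferentiableAt ℂ (fun y => symMap n fun i => cay l (g y i)) x := by
  refine (differentiable_symMap n).differentiableAt.comp x ?_
  refine differentiableAt_pi.2 fun i => ?_
  unfold cay
  have h1 : DifferentiableAt ℂ (fun y => l * (g y i - 1)) x := ((hg i).sub_const 1).const_mul l
  have h2 : DifferentiableAt ℂ (fun y => g y i + 1) x := (hg i).add_const 1
  have h3 : DifferentiableAt ℂ (fun y => (g y i + 1)⁻¹) x := h2.inv (add_one_ne (hre i))
  simp only [div_eq_mul_inv]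
  exact h1.mul h3

lemma slice_asy {n : ℕ} {l : ℂ} {x₀ : Fin n → ℂ} (hl : ‖l‖ = 1) (hx : ∀ i, 0 ≤ (x₀ i).re)
    {F : (Fin n → ℂ) → Fin n → ℂ} {p : Fin n → ℂ} (hp : p = symMap n fun i => cay l (x₀ i))
    (hBK : (fun z => eucl (F z - z)) =o[𝓝[symPolydisc n] p] fun z => eucl (z - p) ^ 3)
    {r : Fin n → ℝ} (hr : ∀ i, 0 < r i) :
    ∀ ε : ℝ, 0 < ε → ∃ δ : ℝ, 0 < δ ∧ ∀ z ∈ Hr, ∀ w ∈ Hr, ‖z‖ < δ → ‖w - 1‖ < δ →
      ‖hfun n l (F (symMap n fun i => cay l (slc x₀ r (z, w) i))) -
        hfun n l (symMap n fun i => cay l (slc x₀ r (z, w) i))‖ ≤ ε * (‖z‖ + ‖w - 1‖) ^ 3 := by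
  set σ : ℂ × ℂ → Fin n → ℂ := fun q => symMap n fun i => cay l (slc x₀ r q i) with hσ
  set L : Filter (ℂ × ℂ) := 𝓝[Hr ×ˢ Hr] ((0 : ℂ), (1 : ℂ)) with hL
  have hσ0 : σ (0, 1) = p := by
    rw [hσ, hp]
    simp only
    rw [slc_base]
  have hσd : DifferentiableAt ℂ σ (0, 1) := by
    refine diff_cay (g := slc x₀ r) (fun i => ?_) (fun i => ?_)
    · unfold slc
      fun_prop
    · rw [slc_base]
      exact hx i
  have hσt : Tendsto σ L (𝓝[symPolydisc n] p) := by
    refine tendsto_nhdsWithin_iff.2 ⟨?_, ?_⟩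
    · rw [← hσ0]
      exact hσd.continuousAt.tendsto.mono_left nhdsWithin_le_nhds
    · filter_upwards [self_mem_nhdsWithin] with q hq
      exact cay_mem hl (slc_mem hx hr hq.1 hq.2)
  have hσO : (fun q => σ q - p) =O[L] fun q => q - ((0 : ℂ), (1 : ℂ)) := by
    have := hσd.isBigO_sub.mono (nhdsWithin_le_nhds (s := Hr ×ˢ Hr))
    rwa [hσ0] at this
  have hσE : (fun q => eucl (σ q - p)) =O[L] fun q => ‖q - ((0 : ℂ), (1 : ℂ))‖ := by
    refine IsBigO.trans (g := fun q => ‖σ q - p‖) ?_ hσO.norm_norm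
    refine IsBigO.of_bound (Real.sqrt n) (Eventually.of_forall fun q => ?_)
    rw [Real.norm_of_nonneg (eucl_nonneg _), norm_norm]
    exact eucl_le _
  have h1 : (fun q => eucl (F (σ q) - σ q)) =o[L] fun q => ‖q - ((0 : ℂ), (1 : ℂ))‖ ^ 3 :=
    (hBK.comp_tendsto hσt).trans_isBigO (hσE.pow 3)
  have h2 : (fun q => F (σ q) - σ q) =o[L] fun q => ‖q - ((0 : ℂ), (1 : ℂ))‖ ^ 3 := by
    refine IsBigO.trans_isLittleO ?_ h1
    refine IsBigO.of_bound 1 (Eventually.of_forall fun q => ?_)
    rw [one_mul, Real.norm_of_nonneg (eucl_nonneg _)]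
    exact norm_le_eucl _
  have hp0 : (pol n p).eval l ≠ 0 := by
    rw [hp]
    refine pol_ne fun i => ?_
    rw [sub_cay (hx i)]
    refine div_ne_zero (mul_ne_zero two_ne_zero ?_) (add_one_ne (hx i))
    rw [← norm_pos_iff, hl]
    exact one_pos
  have hstrict := (contDiffAt_hfun hp0).hasStrictFDerivAt one_ne_zero
  have hσt' : Tendsto σ L (𝓝 p) := hσt.mono_right nhdsWithin_le_nhds
  have hFt : Tendsto (fun q => F (σ q)) L (𝓝 p) := by
    have h3 : Tendsto (fun q => F (σ q) - σ q) L (𝓝 0) := by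
      refine h2.trans_tendsto ?_
      have hc : Continuous fun q : ℂ × ℂ => ‖q - ((0 : ℂ), (1 : ℂ))‖ ^ 3 := by fun_prop
      have := (hc.tendsto ((0 : ℂ), (1 : ℂ))).mono_left (nhdsWithin_le_nhds (s := Hr ×ˢ Hr))
      simpa using this
    have := h3.add hσt'
    simpa using this
  have h4 : (fun q => hfun n l (F (σ q)) - hfun n l (σ q)) =O[L] fun q => F (σ q) - σ q := by
    have := hstrict.isBigO_sub.comp_tendsto (hFt.prodMk_nhds hσt')
    exact this
  have h5 := h4.trans_isLittleO h2
  intro ε hε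
  have h6 := h5.def hε
  rw [hL] at h6
  obtain ⟨δ, hδ, hb⟩ := Metric.mem_nhdsWithin_iff.1 h6
  refine ⟨δ, hδ, fun z hz w hw hz1 hw1 => ?_⟩
  have hq : ((z, w) : ℂ × ℂ) ∈ ball ((0 : ℂ), (1 : ℂ)) δ ∩ Hr ×ˢ Hr := by
    refine ⟨?_, ⟨hz, hw⟩⟩
    rw [mem_ball, Prod.dist_eq, max_lt_iff, dist_eq_norm, dist_eq_norm, sub_zero]
    exact ⟨hz1, hw1⟩
  have h7 := hb hq
  simp only [mem_ofPred_eq] at h7
  refine h7.trans (mul_le_mul_of_nonneg_left ?_ hε.le)
  rw [Real.norm_of_nonneg (by positivity)]
  refine pow_le_pow_left₀ (norm_nonneg _) ?_ 3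
  rw [Prod.norm_def]
  refine max_le ?_ ?_
  · simp only [Prod.fst_sub, sub_zero]
    linarith [norm_nonneg (w - 1)]
  · simp only [Prod.snd_sub]
    linarith [norm_nonneg z]

/-- The function `hfun` is preserved on the totally real set of the slices. -/
lemma slice_eq {n : ℕ} (hn : 0 < n) {l : ℂ} {x₀ : Fin n → ℂ} (hl : ‖l‖ = 1)
    (hx : ∀ i, 0 ≤ (x₀ i).re) {F : (Fin n → ℂ) → Fin n → ℂ}
    (hF : DifferentiableOn ℂ F (symPolydisc n)) (hm : MapsTo F (symPolydisc n) (symPolydisc n))
    {p : Fin n → ℂ} (hp : p = symMap n fun i => cay l (x₀ i))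
    (hBK : (fun z => eucl (F z - z)) =o[𝓝[symPolydisc n] p] fun z => eucl (z - p) ^ 3)
    {t : Fin n → ℝ} (ht : ∀ i, 0 < t i) :
    hfun n l (F (symMap n fun i => cay l (x₀ i + t i))) = ∑ i, (x₀ i + t i) := by
  have : Nonempty (Fin n) := ⟨⟨0, hn⟩⟩
  set T : ℝ := ∑ i, t i with hT
  have hT0 : 0 < T := Finset.sum_pos (fun i _ => ht i) Finset.univ_nonempty
  set R : ℝ := ∑ i, (x₀ i).re with hR
  have hR0 : 0 ≤ R := Finset.sum_nonneg fun i _ => hx i
  set S : ℝ := ∑ i, (x₀ i).im with hS
  -- differentiability of the composed function along differentiable curves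
  have hcomp : ∀ g : ℂ → Fin n → ℂ, (∀ i, Differentiable ℂ fun u => g u i) →
      (∀ u ∈ Hr, ∀ i, g u i ∈ Hr) →
      DifferentiableOn ℂ (fun u => hfun n l (F (symMap n fun i => cay l (g u i)))) Hr := by
    intro g hg hgm
    have h1 : DifferentiableOn ℂ (fun u => symMap n fun i => cay l (g u i)) Hr := fun u hu =>
      (diff_cay (fun i => (hg i).differentiableAt)
        (fun i => le_of_lt (hgm u hu i))).differentiableWithinAt
    have h2 : MapsTo (fun u => symMap n fun i => cay l (g u i)) Hr (symPolydisc n) :=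
      fun u hu => cay_mem hl (hgm u hu)
    exact (differentiableOn_hfun hl).comp (hF.comp h1 h2) (hm.comp h2)
  rcases hR0.eq_or_lt with hR1 | hR1
  · -- all the coordinates are on the boundary
    have hx0 : ∀ i, (x₀ i).re = 0 := by
      intro i
      exact (Finset.sum_eq_zero_iff_of_nonneg (fun i _ => hx i)).1 hR1.symm i (Finset.mem_univ i)
    have hasy := slice_asy hl hx hp hBK ht
    have hval : ∀ z : ℂ, z ∈ Hr → hfun n l (symMap n fun i => cay l (slc x₀ t (z, 1) i)) =
        (S : ℂ) * I + (T : ℂ) * z := by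
      intro z hz
      rw [hfun_cay hl (fun i => (slc_mem hx ht hz one_mem i).le), slc_sum, ← hR, ← hS, ← hT, ← hR1]
      simp
    have hb := bk_one (h := fun z => (hfun n l (F (symMap n fun i => cay l (slc x₀ t (z, 1) i))) -
      (S : ℂ) * I) / (T : ℂ)) ?_ ?_ ?_ one_mem
    · have e1 : (fun i => cay l (slc x₀ t (1, 1) i)) = fun i => cay l (x₀ i + t i) := by
        funext i
        congr 1
        have := Complex.re_add_im (x₀ i)
        simp only [slc, mul_one]
        linear_combination this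
      rw [e1, div_eq_one_iff_eq (by exact_mod_cast hT0.ne')] at hb
      rw [Finset.sum_add_distrib]
      have e2 : ∑ i, x₀ i = (S : ℂ) * I := by
        rw [hS]
        push_cast
        rw [Finset.sum_mul]
        refine Finset.sum_congr rfl fun i _ => ?_
        have := Complex.re_add_im (x₀ i)
        rw [hx0 i] at this
        rw [← this]
        simp
      rw [e2]
      have e3 : ∑ i, (t i : ℂ) = (T : ℂ) := by
        rw [hT]
        push_cast
        rfl
      rw [e3]
      linear_combination hb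
    · refine DifferentiableOn.div_const (DifferentiableOn.sub_const ?_ _) _
      refine hcomp (fun z => slc x₀ t (z, 1)) (fun i => ?_) fun u hu => slc_mem hx ht hu one_mem
      unfold slc
      fun_prop
    · intro z hz
      rw [Complex.div_ofReal_re]
      refine div_nonneg ?_ hT0.le
      have := hfun_re_pos hl (hm (cay_mem hl (slc_mem hx ht (q := (z, 1)) hz one_mem)))
      simpa using this
    · intro ε hε
      obtain ⟨δ, hδ, hb⟩ := hasy (ε * T) (by positivity)
      refine ⟨δ, hδ, fun u hu0 hu => ?_⟩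
      have hn : ‖(u : ℂ)‖ = u := by rw [Complex.norm_real, Real.norm_of_nonneg hu0.le]
      have h3 := hb u (ofReal_mem hu0) 1 one_mem (by rw [hn]; exact hu)
        (by rw [sub_self, norm_zero]; exact hδ)
      rw [sub_self, norm_zero, add_zero, hn, hval _ (ofReal_mem hu0)] at h3
      have hTc : (T : ℂ) ≠ 0 := by exact_mod_cast hT0.ne'
      have e : (hfun n l (F (symMap n fun i => cay l (slc x₀ t ((u : ℂ), 1) i))) -
          (S : ℂ) * I) / (T : ℂ) - u =
          (hfun n l (F (symMap n fun i => cay l (slc x₀ t ((u : ℂ), 1) i))) -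
          ((S : ℂ) * I + (T : ℂ) * u)) / (T : ℂ) := by
        field_simp
        ring
      rw [e, norm_div, Complex.norm_real, Real.norm_of_nonneg hT0.le, div_le_iff₀ hT0]
      linarith
  · -- the mixed case
    set r : Fin n → ℝ := fun i => t i * (R / T) with hr
    have hr0 : ∀ i, 0 < r i := fun i => mul_pos (ht i) (div_pos hR1 hT0)
    have hrs : ∑ i, r i = R := by
      rw [hr, ← Finset.sum_mul, ← hT]
      field_simp
    have hRc : (R : ℂ) ≠ 0 := by exact_mod_cast hR1.ne'
    have hasy := slice_asy hl hx hp hBK hr0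
    have hval : ∀ z : ℂ, z ∈ Hr → ∀ w : ℂ, w ∈ Hr →
        hfun n l (symMap n fun i => cay l (slc x₀ r (z, w) i)) =
        (S : ℂ) * I + (R : ℂ) * z + (R : ℂ) * w := by
      intro z hz w hw
      rw [hfun_cay hl (fun i => (slc_mem hx hr0 hz hw i).le), slc_sum, hrs, ← hR, ← hS]
    have hTR : ((T / R : ℝ) : ℂ) ∈ Hr := ofReal_mem (div_pos hT0 hR1)
    have hb := two_var (E := fun z w =>
      (hfun n l (F (symMap n fun i => cay l (slc x₀ r (z, w) i))) - (S : ℂ) * I) / (R : ℂ))
      ?_ ?_ ?_ ?_ hTR one_mem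
    · have e1 : (fun i => cay l (slc x₀ r (((T / R : ℝ) : ℂ), 1) i)) =
          fun i => cay l (x₀ i + t i) := by
        funext i
        congr 1
        have h8 := Complex.re_add_im (x₀ i)
        have h9 : (r i : ℂ) * ((T / R : ℝ) : ℂ) = t i := by
          rw [← Complex.ofReal_mul]
          congr 1
          rw [hr]
          simp only
          field_simp
        simp only [slc, mul_one]
        rw [h9]
        linear_combination h8
      rw [e1, div_eq_iff hRc] at hb
      rw [Finset.sum_add_distrib]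
      have e2 : ∑ i, x₀ i = (R : ℂ) + (S : ℂ) * I := by
        rw [hS, hR]
        push_cast
        rw [Finset.sum_mul, ← Finset.sum_add_distrib]
        exact Finset.sum_congr rfl fun i _ => (Complex.re_add_im (x₀ i)).symm
      rw [e2]
      have e3 : ∑ i, (t i : ℂ) = (T : ℂ) := by
        rw [hT]
        push_cast
        rfl
      rw [e3]
      have e4 : (((T / R : ℝ) : ℂ) + 1) * (R : ℂ) = T + R := by
        push_cast
        field_simp
      linear_combination hb + e4
    · intro w hw
      refine DifferentiableOn.div_const (DifferentiableOn.sub_const ?_ _) _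
      refine hcomp (fun z => slc x₀ r (z, w)) (fun i => ?_) fun u hu => slc_mem hx hr0 hu hw
      unfold slc
      fun_prop
    · intro z hz
      refine DifferentiableOn.div_const (DifferentiableOn.sub_const ?_ _) _
      refine hcomp (fun w => slc x₀ r (z, w)) (fun i => ?_) fun u hu => slc_mem hx hr0 hz hu
      unfold slc
      fun_prop
    · intro z hz w hw
      rw [Complex.div_ofReal_re]
      refine div_nonneg ?_ hR1.le
      have := hfun_re_pos hl (hm (cay_mem hl (slc_mem hx hr0 (q := (z, w)) hz hw)))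
      simpa using this
    · intro ε hε
      obtain ⟨δ, hδ, hb⟩ := hasy (ε * R) (by positivity)
      refine ⟨δ, hδ, fun z hz w hw hz1 hw1 => ?_⟩
      have h3 := hb z hz w hw hz1 hw1
      rw [hval z hz w hw] at h3
      have e : (hfun n l (F (symMap n fun i => cay l (slc x₀ r (z, w) i))) -
          (S : ℂ) * I) / (R : ℂ) - z - w =
          (hfun n l (F (symMap n fun i => cay l (slc x₀ r (z, w) i))) -
          ((S : ℂ) * I + (R : ℂ) * z + (R : ℂ) * w)) / (R : ℂ) := by
        field_simp
        ring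
      rw [e, norm_div, Complex.norm_real, Real.norm_of_nonneg hR1.le, div_le_iff₀ hR1]
      linarith

/-- One-variable identity theorem on the half plane along a horizontal half line. -/
lemma ident_half {φ : ℂ → ℂ} (hφ : DifferentiableOn ℂ φ Hr) {a : ℂ} (ha : 0 ≤ a.re)
    (h : ∀ s : ℝ, 0 < s → φ (a + s) = 0) {u : ℂ} (hu : u ∈ Hr) : φ u = 0 := by
  have han : AnalyticOnNhd ℂ φ Hr := hφ.analyticOnNhd isOpen_Hr
  have hconn : IsPreconnected Hr := by
    have : Convex ℝ Hr := (convex_halfSpace_re_gt 0)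
    exact this.isPreconnected
  have hz : a + 1 ∈ Hr := by
    show 0 < (a + 1).re
    simp
    linarith
  have hfreq : ∃ᶠ z in 𝓝[≠] (a + 1), φ z = 0 := by
    have ht : Tendsto (fun m : ℕ => a + ((1 + 1 / ((m : ℝ) + 1) : ℝ) : ℂ)) atTop (𝓝[≠] (a + 1)) := by
      refine tendsto_nhdsWithin_iff.2 ⟨?_, Eventually.of_forall fun m => ?_⟩
      · refine tendsto_const_nhds.add ?_
        have h1 : Tendsto (fun m : ℕ => (1 + 1 / ((m : ℝ) + 1) : ℝ)) atTop (𝓝 (1 + 0)) :=
          tendsto_const_nhds.add tendsto_one_div_add_atTop_nhds_zero_nat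
        rw [add_zero] at h1
        have := (Complex.continuous_ofReal.tendsto 1).comp h1
        rw [Complex.ofReal_one] at this
        exact this
      · show a + ((1 + 1 / ((m : ℝ) + 1) : ℝ) : ℂ) ≠ a + 1
        intro h0
        have h1 := add_left_cancel h0
        have h2 : (1 + 1 / ((m : ℝ) + 1) : ℝ) = 1 := by exact_mod_cast h1
        have : 0 < 1 / ((m : ℝ) + 1) := by positivity
        linarith
    refine ht.frequently (Eventually.frequently (Eventually.of_forall fun m => ?_))
    exact h _ (by positivity)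
  exact han.eqOn_zero_of_preconnected_of_frequently_eq_zero hconn hz hfreq hu

/-- The function `hfun` is preserved. -/
lemma hfun_eq {n : ℕ} (hn : 0 < n) {l : ℂ} {x₀ : Fin n → ℂ} (hl : ‖l‖ = 1)
    (hx : ∀ i, 0 ≤ (x₀ i).re) {F : (Fin n → ℂ) → Fin n → ℂ}
    (hF : DifferentiableOn ℂ F (symPolydisc n)) (hm : MapsTo F (symPolydisc n) (symPolydisc n))
    {p : Fin n → ℂ} (hp : p = symMap n fun i => cay l (x₀ i))
    (hBK : (fun z => eucl (F z - z)) =o[𝓝[symPolydisc n] p] fun z => eucl (z - p) ^ 3)
    {z : Fin n → ℂ} (hz : z ∈ symPolydisc n) : hfun n l (F z) = hfun n l z := by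
  classical
  set Φ : (Fin n → ℂ) → ℂ := fun x => hfun n l (F (symMap n fun i => cay l (x i))) - ∑ i, x i
    with hΦ
  have key : ∀ T : Finset (Fin n), ∀ x : Fin n → ℂ, (∀ i, x i ∈ Hr) →
      (∀ i, i ∉ T → ∃ s : ℝ, 0 < s ∧ x i = x₀ i + s) → Φ x = 0 := by
    intro T
    induction T using Finset.induction_on with
    | empty =>
      intro x _ h
      choose t ht0 ht using fun i => h i (Finset.notMem_empty i)
      have := slice_eq hn hl hx hF hm hp hBK ht0
      have e1 : x = fun i => x₀ i + (t i : ℂ) := funext ht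
      rw [hΦ, e1]
      simp only
      rw [this, sub_self]
    | insert j T hj ih =>
      intro x hxH h
      have hd : DifferentiableOn ℂ (fun u => Φ (Function.update x j u)) Hr := by
        rw [hΦ]
        have hupd : ∀ u ∈ Hr, ∀ i, Function.update x j u i ∈ Hr := by
          intro u hu i
          rcases eq_or_ne i j with rfl | hij
          · rw [Function.update_self]
            exact hu
          · rw [Function.update_of_ne hij]
            exact hxH i
        have hdi : ∀ i, Differentiable ℂ fun u : ℂ => Function.update x j u i := by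
          intro i
          rcases eq_or_ne i j with rfl | hij
          · simp only [Function.update_self]
            exact differentiable_id
          · simp only [Function.update_of_ne hij]
            exact differentiable_const _
        have h1 : DifferentiableOn ℂ
            (fun u => symMap n fun i => cay l (Function.update x j u i)) Hr := fun u hu =>
          (diff_cay (g := fun u => Function.update x j u) (fun i => (hdi i).differentiableAt)
            (fun i => le_of_lt (hupd u hu i))).differentiableWithinAt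
        have h2 : MapsTo (fun u => symMap n fun i => cay l (Function.update x j u i)) Hr
            (symPolydisc n) := fun u hu => cay_mem hl (hupd u hu)
        refine DifferentiableOn.sub ?_ ?_
        · exact (differentiableOn_hfun hl).comp (hF.comp h1 h2) (hm.comp h2)
        · exact (Differentiable.fun_sum fun i _ => hdi i).differentiableOn
      have h0 := ident_half hd (hx j) (fun s hs => ?_) (hxH j)
      · rwa [Function.update_eq_self] at h0
      · refine ih _ ?_ ?_
        · intro i
          rcases eq_or_ne i j with rfl | hij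
          · rw [Function.update_self]
            show 0 < (x₀ i + (s : ℂ)).re
            rw [Complex.add_re, Complex.ofReal_re]
            linarith [hx i]
          · rw [Function.update_of_ne hij]
            exact hxH i
        · intro i hi
          rcases eq_or_ne i j with rfl | hij
          · exact ⟨s, hs, by rw [Function.update_self]⟩
          · rw [Function.update_of_ne hij]
            exact h i (by rw [Finset.mem_insert]; push Not; exact ⟨hij, hi⟩)
  obtain ⟨mu, hmu, rfl⟩ := hz
  have hne : ∀ i, l - mu i ≠ 0 := fun i => sub_ne_of_lt hl (hmu i)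
  have hxm : ∀ i, (l + mu i) / (l - mu i) ∈ Hr := fun i => re_inv_cay_pos hl (hne i) (hmu i)
  have h1 := key Finset.univ (fun i => (l + mu i) / (l - mu i)) hxm
    (fun i hi => absurd (Finset.mem_univ i) hi)
  have h2 := hfun_cay hl (fun i => (hxm i).le)
  have e1 : (fun i => cay l ((l + mu i) / (l - mu i))) = mu := funext fun i => cay_inv hl (hne i)
  rw [e1] at h2
  rw [hΦ] at h1
  simp only at h1
  rw [e1, sub_eq_zero] at h1
  rw [h1, h2]

/-- The rigidity theorem: if `p` is in the closure of the symmetrized polydisc, then a holomorphic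
self-map satisfying the Burns–Krantz condition at `p` is the identity. -/
theorem rigid {n : ℕ} {p : Fin n → ℂ} (hp : p ∈ closure (symPolydisc n))
    {F : (Fin n → ℂ) → Fin n → ℂ} (hF : DifferentiableOn ℂ F (symPolydisc n))
    (hm : MapsTo F (symPolydisc n) (symPolydisc n))
    (hBK : (fun z => eucl (F z - z)) =o[𝓝[symPolydisc n] p] fun z => eucl (z - p) ^ 3)
    {z : Fin n → ℂ} (hz : z ∈ symPolydisc n) : F z = z := by
  rcases Nat.eq_zero_or_pos n with rfl | hn
  · funext i
    exact i.elim0
  obtain ⟨lam, hlam, rfl⟩ := closure_subset hp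
  have hinf : (sphere (0 : ℂ) 1 \ Set.range lam).Infinite := by
    refine Set.Infinite.sdiff ?_ (Set.finite_range lam)
    have h1 : (Complex.exp ∘ fun t : ℝ => (t : ℂ) * I) '' (Ioo (0 : ℝ) 1) ⊆ sphere (0 : ℂ) 1 := by
      rintro _ ⟨t, _, rfl⟩
      rw [mem_sphere_zero_iff_norm]
      exact Complex.norm_exp_ofReal_mul_I t
    refine Set.Infinite.mono h1 ?_
    refine Set.Infinite.image ?_ (Set.Ioo_infinite one_pos)
    intro s hs t ht hst
    have h2 := congrArg Complex.arg hst
    simp only [Function.comp] at h2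
    rw [Complex.arg_exp_mul_I, Complex.arg_exp_mul_I] at h2
    have h3 : ∀ s : ℝ, s ∈ Ioo (0 : ℝ) 1 → toIocMod Real.two_pi_pos (-Real.pi) s = s := by
      intro s hs
      rw [toIocMod_eq_self]
      constructor
      · linarith [hs.1, Real.pi_pos]
      · linarith [hs.2, Real.pi_gt_three]
    rwa [h3 s hs, h3 t ht] at h2
  refine eq_of_hfun (hm hz) hz hinf (fun l hl => mem_sphere_zero_iff_norm.1 hl.1) fun l hl => ?_
  have hl1 : ‖l‖ = 1 := mem_sphere_zero_iff_norm.1 hl.1
  have hne : ∀ i, l - lam i ≠ 0 := by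
    intro i h0
    exact hl.2 ⟨i, (sub_eq_zero.1 h0).symm⟩
  refine hfun_eq (x₀ := fun i => (l + lam i) / (l - lam i)) hn hl1
    (fun i => re_inv_cay_nonneg hl1 (hlam i)) hF hm ?_ hBK hz
  congr 1
  exact funext fun i => (cay_inv hl1 (hne i)).symm

end Q75.Bk.Sym
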