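import Pool.Agent.Q75.BkCore
set_option autoImplicit false

/-! # Burns–Krantz rigidity of the symmetrized bidisc: definitions and the proof -/

namespace Q75.Bk

open Complex Filter Topology Set Metric Asymptotics

/-- The symmetrized bidisc `{(a + b, a b) : |a| < 1, |b| < 1}`. -/
def symBidisc : Set (ℂ × ℂ) := {z | ∃ a b : ℂ, ‖a‖ < 1 ∧ ‖b‖ < 1 ∧ z = (a + b, a * b)}

/-- The Shilov boundary `{(a + b, a b) : |a| = |b| = 1}` of the symmetrized bidisc. -/
def shilov : Set (ℂ × ℂ) := {z | ∃ a b : ℂ, ‖a‖ = 1 ∧ ‖b‖ = 1 ∧ z = (a + b, a * b)}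

/-- The Euclidean norm on `ℂ²`. -/
noncomputable def eucl (z : ℂ × ℂ) : ℝ := Real.sqrt (‖z.1‖ ^ 2 + ‖z.2‖ ^ 2)

lemma eucl_nonneg (z : ℂ × ℂ) : 0 ≤ eucl z := Real.sqrt_nonneg _

lemma fst_le_eucl (z : ℂ × ℂ) : ‖z.1‖ ≤ eucl z := by
  refine Real.le_sqrt_of_sq_le ?_
  nlinarith [sq_nonneg ‖z.2‖]

lemma snd_le_eucl (z : ℂ × ℂ) : ‖z.2‖ ≤ eucl z := by
  refine Real.le_sqrt_of_sq_le ?_
  nlinarith [sq_nonneg ‖z.1‖]

section

variable {l : ℂ}

/-- The Cayley map from the half plane to the disc with `∞ ↦ l`. -/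
noncomputable def kap (l x : ℂ) : ℂ := l * (x - 1) / (x + 1)

/-- The inverse Cayley map. -/
noncomputable def cay (l a : ℂ) : ℂ := (l + a) / (l - a)

lemma add_one_ne {x : ℂ} (hx : x ∈ Hr) : x + 1 ≠ 0 := by
  rw [← norm_pos_iff]
  exact lt_of_lt_of_le one_pos (norm_add_one_ge hx).1

lemma kap_lt (hl : ‖l‖ = 1) {x : ℂ} (hx : x ∈ Hr) : ‖kap l x‖ < 1 := by
  have hx' : 0 < x.re := hx
  rw [kap, norm_div, norm_mul, hl, one_mul, div_lt_one (norm_pos_iff.2 (add_one_ne hx))]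
  refine lt_of_pow_lt_pow_left₀ 2 (norm_nonneg _) ?_
  rw [← Complex.normSq_eq_norm_sq, ← Complex.normSq_eq_norm_sq, Complex.normSq_apply,
    Complex.normSq_apply]
  simp only [Complex.add_re, Complex.sub_re, Complex.one_re, Complex.add_im, Complex.sub_im,
    Complex.one_im]
  nlinarith

lemma sub_ne (hl : ‖l‖ = 1) {a : ℂ} (ha : ‖a‖ < 1) : l - a ≠ 0 := by
  intro h
  rw [← sub_eq_zero.1 h, hl] at ha
  exact lt_irrefl _ ha

lemma cay_mem (hl : ‖l‖ = 1) {a : ℂ} (ha : ‖a‖ < 1) : cay l a ∈ Hr := by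
  rw [mem_Hr, cay, Complex.div_re, ← add_div]
  refine div_pos ?_ (Complex.normSq_pos.2 (sub_ne hl ha))
  simp only [Complex.add_re, Complex.sub_re, Complex.add_im, Complex.sub_im]
  have h1 : l.re ^ 2 + l.im ^ 2 = 1 := by
    have : Complex.normSq l = 1 := by
      rw [Complex.normSq_eq_norm_sq, hl, one_pow]
    rw [Complex.normSq_apply] at this
    linarith
  have h2 : a.re ^ 2 + a.im ^ 2 < 1 := by
    have : Complex.normSq a < 1 := by
      rw [Complex.normSq_eq_norm_sq]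
      nlinarith [norm_nonneg a]
    rw [Complex.normSq_apply] at this
    linarith
  nlinarith

lemma kap_cay (hl : ‖l‖ = 1) {a : ℂ} (ha : ‖a‖ < 1) : kap l (cay l a) = a := by
  have hl0 : l ≠ 0 := by
    rw [← norm_pos_iff, hl]
    exact one_pos
  have h := sub_ne hl ha
  rw [kap, cay]
  have e1 : (l + a) / (l - a) - 1 = 2 * a / (l - a) := by
    field_simp
    ring
  have e2 : (l + a) / (l - a) + 1 = 2 * l / (l - a) := by
    field_simp
    ring
  rw [e1, e2]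
  field_simp

/-- The denominator. -/
def den (l : ℂ) (w : ℂ × ℂ) : ℂ := l ^ 2 - l * w.1 + w.2

lemma den_ne (hl : ‖l‖ = 1) {w : ℂ × ℂ} (hw : w ∈ symBidisc) : den l w ≠ 0 := by
  obtain ⟨a, b, ha, hb, rfl⟩ := hw
  have : den l (a + b, a * b) = (l - a) * (l - b) := by
    simp only [den]
    ring
  rw [this]
  exact mul_ne_zero (sub_ne hl ha) (sub_ne hl hb)

/-- The trace and the determinant in half plane coordinates. -/
noncomputable def tr (l : ℂ) (w : ℂ × ℂ) : ℂ := 2 * (l ^ 2 - w.2) / den l w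

/-- The determinant in half plane coordinates. -/
noncomputable def dt (l : ℂ) (w : ℂ × ℂ) : ℂ := (l ^ 2 + l * w.1 + w.2) / den l w

lemma exists_quad (hl : ‖l‖ = 1) {w : ℂ × ℂ} (hw : w ∈ symBidisc) :
    ∃ X ∈ Hr, ∃ Y ∈ Hr, X + Y = tr l w ∧ X * Y = dt l w := by
  obtain ⟨a, b, ha, hb, rfl⟩ := hw
  have h1 := sub_ne hl ha
  have h2 := sub_ne hl hb
  have hd : den l (a + b, a * b) = (l - a) * (l - b) := by
    simp only [den]
    ring
  refine ⟨cay l a, cay_mem hl ha, cay l b, cay_mem hl hb, ?_, ?_⟩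
  · rw [tr, hd, cay, cay]
    simp only
    field_simp
    ring
  · rw [dt, hd, cay, cay]
    simp only
    field_simp
    ring

/-- The point of the symmetrized bidisc with half plane coordinates `x, y`. -/
noncomputable def pt (l x y : ℂ) : ℂ × ℂ := (kap l x + kap l y, kap l x * kap l y)

lemma pt_mem (hl : ‖l‖ = 1) {x y : ℂ} (hx : x ∈ Hr) (hy : y ∈ Hr) : pt l x y ∈ symBidisc :=
  ⟨_, _, kap_lt hl hx, kap_lt hl hy, rfl⟩

lemma den_pt {x y : ℂ} (hx : x ∈ Hr) (hy : y ∈ Hr) :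
    den l (pt l x y) = 4 * l ^ 2 / ((x + 1) * (y + 1)) := by
  have h1 := add_one_ne hx
  have h2 := add_one_ne hy
  simp only [den, pt, kap]
  field_simp
  ring

lemma tr_pt {x y : ℂ} (hx : x ∈ Hr) (hy : y ∈ Hr) :
    2 * (l ^ 2 - (pt l x y).2) = (x + y) * den l (pt l x y) := by
  have h1 := add_one_ne hx
  have h2 := add_one_ne hy
  rw [den_pt hx hy]
  simp only [pt, kap]
  field_simp
  ring

lemma dt_pt {x y : ℂ} (hx : x ∈ Hr) (hy : y ∈ Hr) :
    l ^ 2 + l * (pt l x y).1 + (pt l x y).2 = (x * y) * den l (pt l x y) := by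
  have h1 := add_one_ne hx
  have h2 := add_one_ne hy
  rw [den_pt hx hy]
  simp only [pt, kap]
  field_simp
  ring

/-- A point is determined by its trace and determinant. -/
lemma eq_pt (hl : ‖l‖ = 1) {w : ℂ × ℂ} (hw : w ∈ symBidisc) {x y : ℂ} (hx : x ∈ Hr) (hy : y ∈ Hr)
    (h1 : tr l w = x + y) (h2 : dt l w = x * y) : w = pt l x y := by
  have hl0 : l ≠ 0 := by
    rw [← norm_pos_iff, hl]
    exact one_pos
  have hD := den_ne hl hw
  rw [tr, div_eq_iff hD] at h1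
  rw [dt, div_eq_iff hD] at h2
  have n1 := add_one_ne hx
  have n2 := add_one_ne hy
  have hsum : den l w * ((x + 1) * (y + 1)) = 4 * l ^ 2 := by
    have e : den l w = l ^ 2 - l * w.1 + w.2 := rfl
    linear_combination -h1 - h2 + e
  have hden : den l w = den l (pt l x y) := by
    rw [den_pt hx hy, eq_div_iff (mul_ne_zero n1 n2), hsum]
  have t1 := tr_pt (l := l) hx hy
  have t2 := dt_pt (l := l) hx hy
  rw [← hden] at t1 t2
  have e2 : w.2 = (pt l x y).2 := by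
    linear_combination (t1 - h1) / 2
  have e1 : w.1 = (pt l x y).1 := by
    have : l * w.1 = l * (pt l x y).1 := by
      linear_combination h2 - t2 - e2
    exact mul_left_cancel₀ hl0 this
  exact Prod.ext e1 e2

lemma kap_sub (x : ℂ) (hx : x ∈ Hr) : kap l x - l = -(2 * l) / (x + 1) := by
  have h1 := add_one_ne hx
  rw [kap]
  field_simp
  ring

lemma diff_kap : DifferentiableOn ℂ (kap l) Hr := by
  unfold kap
  exact DifferentiableOn.div (by fun_prop) (by fun_prop) fun z hz => add_one_ne hz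

end

/-- The rigidity theorem, with the Burns–Krantz condition along one analytic disc. -/
theorem rigid_disc {l b : ℂ} (hl : ‖l‖ = 1) (hb : ‖b‖ < 1) {F : ℂ × ℂ → ℂ × ℂ}
    (hF : DifferentiableOn ℂ F symBidisc) (hm : MapsTo F symBidisc symBidisc)
    (ho : (fun a : ℂ => eucl (F (a + b, a * b) - (a + b, a * b))) =o[𝓝[ball 0 1] l]
      fun a : ℂ => ‖a - l‖ ^ 3) :
    ∀ z ∈ symBidisc, F z = z := by
  set y₀ := cay l b with hy₀
  have hy₀H : y₀ ∈ Hr := cay_mem hl hb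
  have hky : kap l y₀ = b := kap_cay hl hb
  set W : ℂ → ℂ → ℂ × ℂ := fun x y => F (pt l x y) with hW
  have hWm : ∀ x ∈ Hr, ∀ y ∈ Hr, W x y ∈ symBidisc := fun x hx y hy => hm (pt_mem hl hx hy)
  have hWs : ∀ x y, W x y = W y x := by
    intro x y
    simp only [hW, pt]
    rw [add_comm, mul_comm]
  have hWd : ∀ y ∈ Hr, DifferentiableOn ℂ (fun x => W x y) Hr := by
    intro y hy
    refine hF.comp ?_ fun x hx => pt_mem hl hx hy
    unfold pt
    exact (diff_kap.add_const _).prodMk (diff_kap.mul_const _)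
  have hdend : ∀ y ∈ Hr, DifferentiableOn ℂ (fun x => den l (W x y)) Hr := by
    intro y hy
    unfold den
    exact ((differentiableOn_const _).sub ((hWd y hy).fst.const_mul l)).add (hWd y hy).snd
  have hSd : ∀ y ∈ Hr, DifferentiableOn ℂ (fun x => tr l (W x y)) Hr := by
    intro y hy
    unfold tr
    exact DifferentiableOn.div (((differentiableOn_const _).sub (hWd y hy).snd).const_mul 2)
      (hdend y hy) fun x hx => den_ne hl (hWm x hx y hy)
  have hTd : ∀ y ∈ Hr, DifferentiableOn ℂ (fun x => dt l (W x y)) Hr := by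
    intro y hy
    unfold dt
    exact DifferentiableOn.div (((differentiableOn_const _).add ((hWd y hy).fst.const_mul l)).add
      (hWd y hy).snd) (hdend y hy) fun x hx => den_ne hl (hWm x hx y hy)
  -- the error terms
  have hm0 : 0 < ‖l - b‖ := norm_pos_iff.2 (sub_ne hl hb)
  set m := ‖l - b‖ with hmdef
  have herr : ∀ ε : ℝ, 0 < ε → ∃ R : ℝ, ∀ x ∈ Hr, R ≤ ‖x‖ →
      ∃ E₁ E₂ : ℂ, (W x y₀).1 = (pt l x y₀).1 + E₁ ∧ (W x y₀).2 = (pt l x y₀).2 + E₂ ∧
        ‖E₁‖ * ‖x + 1‖ ^ 3 ≤ ε ∧ ‖E₂‖ * ‖x + 1‖ ^ 3 ≤ ε := by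
    intro ε hε
    have h1 := ho.bound (show 0 < ε / 8 by positivity)
    rw [eventually_nhdsWithin_iff, Metric.eventually_nhds_iff] at h1
    obtain ⟨δ, hδ, h2⟩ := h1
    refine ⟨3 / δ, fun x hx hxR => ?_⟩
    have hn := norm_add_one_ge hx
    have hN0 : 0 < ‖x + 1‖ := by linarith
    have hd : ‖kap l x - l‖ = 2 / ‖x + 1‖ := by
      rw [kap_sub x hx, norm_div, norm_neg, norm_mul, hl, mul_one]
      simp
    rw [div_le_iff₀ hδ] at hxR
    have hdist : dist (kap l x) l < δ := by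
      rw [dist_eq_norm, hd, div_lt_iff₀ hN0]
      nlinarith
    have h3 := h2 hdist (mem_ball_zero_iff.2 (kap_lt hl hx))
    rw [Real.norm_of_nonneg (eucl_nonneg _), Real.norm_of_nonneg (by positivity), hd] at h3
    have hpt : pt l x y₀ = (kap l x + b, kap l x * b) := by
      simp only [pt, hky]
    refine ⟨(W x y₀).1 - (pt l x y₀).1, (W x y₀).2 - (pt l x y₀).2, by ring, by ring, ?_, ?_⟩
    · have h4 : ‖(W x y₀).1 - (pt l x y₀).1‖ ≤ ε / 8 * (2 / ‖x + 1‖) ^ 3 := by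
        refine le_trans ?_ h3
        have := fst_le_eucl (F (kap l x + b, kap l x * b) - (kap l x + b, kap l x * b))
        simp only [hW, hpt]
        exact this
      calc ‖(W x y₀).1 - (pt l x y₀).1‖ * ‖x + 1‖ ^ 3
          ≤ ε / 8 * (2 / ‖x + 1‖) ^ 3 * ‖x + 1‖ ^ 3 := by gcongr
        _ = ε := by
          field_simp
          ring
    · have h4 : ‖(W x y₀).2 - (pt l x y₀).2‖ ≤ ε / 8 * (2 / ‖x + 1‖) ^ 3 := by
        refine le_trans ?_ h3
        have := snd_le_eucl (F (kap l x + b, kap l x * b) - (kap l x + b, kap l x * b))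
        simp only [hW, hpt]
        exact this
      calc ‖(W x y₀).2 - (pt l x y₀).2‖ * ‖x + 1‖ ^ 3
          ≤ ε / 8 * (2 / ‖x + 1‖) ^ 3 * ‖x + 1‖ ^ 3 := by gcongr
        _ = ε := by
          field_simp
          ring
  -- lower bound of the denominator
  have hden : ∀ x ∈ Hr, ∀ E₁ E₂ : ℂ, (W x y₀).1 = (pt l x y₀).1 + E₁ →
      (W x y₀).2 = (pt l x y₀).2 + E₂ → ‖E₁‖ * ‖x + 1‖ ^ 3 ≤ m / 2 →
      ‖E₂‖ * ‖x + 1‖ ^ 3 ≤ m / 2 → m ≤ ‖den l (W x y₀)‖ * ‖x + 1‖ := by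
    intro x hx E₁ E₂ h1 h2 h3 h4
    have hn := norm_add_one_ge hx
    set n := ‖x + 1‖ with hndef
    have hn0 : 0 < n := by linarith
    have e1 : den l (pt l x y₀) = 2 * l * (l - b) / (x + 1) := by
      have hlb := sub_ne hl hb
      have : y₀ + 1 = 2 * l / (l - b) := by
        rw [hy₀, cay]
        field_simp
        ring
      have hl0 : l ≠ 0 := by
        rw [← norm_pos_iff, hl]
        exact one_pos
      have hx1 := add_one_ne hx
      rw [den_pt hx hy₀H, this]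
      field_simp
      ring
    have e2 : ‖den l (pt l x y₀)‖ = 2 * m / n := by
      rw [e1, norm_div, norm_mul, norm_mul, hl, mul_one]
      simp [hmdef, hndef]
    have e3 : den l (W x y₀) = den l (pt l x y₀) + (-l * E₁ + E₂) := by
      simp only [den, h1, h2]
      ring
    have e4 : ‖-l * E₁ + E₂‖ ≤ ‖E₁‖ + ‖E₂‖ := by
      refine (norm_add_le _ _).trans ?_
      rw [norm_mul, norm_neg, hl, one_mul]
    have e5 : ‖den l (pt l x y₀)‖ ≤ ‖den l (W x y₀)‖ + ‖-l * E₁ + E₂‖ := by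
      have := norm_sub_le (den l (W x y₀)) (-l * E₁ + E₂)
      rw [e3, add_sub_cancel_right] at this
      rw [e3]
      exact this
    have g1 : ‖E₁‖ * n ≤ m / 2 := by
      refine le_trans ?_ h3
      have : n ≤ n ^ 3 := by nlinarith [sq_nonneg n, mul_pos hn0 hn0]
      exact mul_le_mul_of_nonneg_left this (norm_nonneg _)
    have g2 : ‖E₂‖ * n ≤ m / 2 := by
      refine le_trans ?_ h4
      have : n ≤ n ^ 3 := by nlinarith [sq_nonneg n, mul_pos hn0 hn0]
      exact mul_le_mul_of_nonneg_left this (norm_nonneg _)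
    have g3 : 2 * m ≤ (‖den l (W x y₀)‖ + ‖-l * E₁ + E₂‖) * n := by
      rw [e2, div_le_iff₀ hn0] at e5
      exact e5
    have g4 : ‖-l * E₁ + E₂‖ * n ≤ (‖E₁‖ + ‖E₂‖) * n := mul_le_mul_of_nonneg_right e4 hn0.le
    linarith
  -- the trace
  have htr : ∀ x ∈ Hr, ∀ y ∈ Hr, tr l (W x y) = x + y := by
    refine trace_eq (S := fun x y => tr l (W x y)) hSd ?_ ?_ hy₀H ?_
    · intro x _ y _
      simp only [hWs x y]
    · intro x hx y hy
      obtain ⟨X, hX, Y, hY, h1, -⟩ := exists_quad hl (hWm x hx y hy)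
      simp only [← h1, Complex.add_re]
      exact add_nonneg (le_of_lt hX) (le_of_lt hY)
    · intro ε hε
      obtain ⟨R, hR⟩ := herr (min (m / 2) (ε * m / (4 + 2 * ‖y₀‖))) (by positivity)
      refine ⟨R, fun x hx hxR => ?_⟩
      obtain ⟨E₁, E₂, h1, h2, h3, h4⟩ := hR x hx hxR
      have hD := hden x hx E₁ E₂ h1 h2 (h3.trans (min_le_left _ _)) (h4.trans (min_le_left _ _))
      have h3' := h3.trans (min_le_right _ _)
      have h4' := h4.trans (min_le_right _ _)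
      have hn := norm_add_one_ge hx
      set n := ‖x + 1‖ with hndef
      have hn0 : 0 < n := by linarith
      have hDne := den_ne hl (hWm x hx y₀ hy₀H)
      have hDpos := norm_pos_iff.2 hDne
      have e0 : tr l (W x y₀) - x - y₀ = (-2 * E₂ - (x + y₀) * (-l * E₁ + E₂)) / den l (W x y₀) := by
        rw [tr, eq_div_iff hDne, sub_mul, sub_mul, div_mul_cancel₀ _ hDne]
        have t1 := tr_pt (l := l) hx hy₀H
        have e3 : den l (W x y₀) = den l (pt l x y₀) + (-l * E₁ + E₂) := by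
          simp only [den, h1, h2]
          ring
        rw [e3, h2]
        linear_combination t1
      have e1 : ‖-2 * E₂ - (x + y₀) * (-l * E₁ + E₂)‖ ≤ 2 * ‖E₂‖ + (‖x‖ + ‖y₀‖) * (‖E₁‖ + ‖E₂‖) := by
        refine (norm_sub_le _ _).trans ?_
        rw [norm_mul, norm_mul]
        have a1 : ‖(-2 : ℂ)‖ = 2 := by simp
        have a2 : ‖-l * E₁ + E₂‖ ≤ ‖E₁‖ + ‖E₂‖ := by
          refine (norm_add_le _ _).trans ?_
          rw [norm_mul, norm_neg, hl, one_mul]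
        rw [a1]
        gcongr
        exact norm_add_le _ _
      have e2 : (2 * ‖E₂‖ + (‖x‖ + ‖y₀‖) * (‖E₁‖ + ‖E₂‖)) * n ^ 2 ≤ ε * m := by
        set c := 4 + 2 * ‖y₀‖ with hc
        have hc0 : 0 < c := by positivity
        rw [le_div_iff₀ hc0] at h3' h4'
        have b1 : ‖x‖ + ‖y₀‖ ≤ (1 + ‖y₀‖) * n := by nlinarith [norm_nonneg y₀]
        have b2 : 2 * ‖E₂‖ ≤ 2 * ‖E₂‖ * n := by nlinarith [norm_nonneg E₂]
        calc (2 * ‖E₂‖ + (‖x‖ + ‖y₀‖) * (‖E₁‖ + ‖E₂‖)) * n ^ 2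
            ≤ (2 * ‖E₂‖ * n + ((1 + ‖y₀‖) * n) * (‖E₁‖ + ‖E₂‖)) * n ^ 2 := by gcongr
          _ = (3 + ‖y₀‖) * (‖E₂‖ * n ^ 3) + (1 + ‖y₀‖) * (‖E₁‖ * n ^ 3) := by ring
          _ ≤ ε * m := by
            have p1 : 0 ≤ ‖E₁‖ * n ^ 3 := by positivity
            have p2 : 0 ≤ ‖E₂‖ * n ^ 3 := by positivity
            have q1 : (3 + ‖y₀‖) * (‖E₂‖ * n ^ 3) * c ≤ (3 + ‖y₀‖) * (ε * m) := by
              have := mul_le_mul_of_nonneg_left h4' (show 0 ≤ 3 + ‖y₀‖ by positivity)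
              linarith
            have q2 : (1 + ‖y₀‖) * (‖E₁‖ * n ^ 3) * c ≤ (1 + ‖y₀‖) * (ε * m) := by
              have := mul_le_mul_of_nonneg_left h3' (show 0 ≤ 1 + ‖y₀‖ by positivity)
              linarith
            have q3 : ((3 + ‖y₀‖) * (‖E₂‖ * n ^ 3) + (1 + ‖y₀‖) * (‖E₁‖ * n ^ 3)) * c ≤
                (ε * m) * c := by
              rw [hc] at *
              nlinarith
            exact le_of_mul_le_mul_right q3 hc0
      show ‖tr l (W x y₀) - x - y₀‖ * ‖x‖ ≤ ε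
      rw [e0, norm_div, div_mul_eq_mul_div, div_le_iff₀ hDpos]
      have f1 : ‖-2 * E₂ - (x + y₀) * (-l * E₁ + E₂)‖ * ‖x‖ * n ≤ ε * ‖den l (W x y₀)‖ * n := by
        calc ‖-2 * E₂ - (x + y₀) * (-l * E₁ + E₂)‖ * ‖x‖ * n
            ≤ (2 * ‖E₂‖ + (‖x‖ + ‖y₀‖) * (‖E₁‖ + ‖E₂‖)) * n * n := by
              gcongr
              exact hn.2
          _ = (2 * ‖E₂‖ + (‖x‖ + ‖y₀‖) * (‖E₁‖ + ‖E₂‖)) * n ^ 2 := by ring
          _ ≤ ε * m := e2
          _ ≤ ε * (‖den l (W x y₀)‖ * n) := by gcongr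
          _ = ε * ‖den l (W x y₀)‖ * n := by ring
      exact le_of_mul_le_mul_right f1 hn0
  -- the determinant
  have hdt : ∀ x ∈ Hr, ∀ y ∈ Hr, dt l (W x y) = x * y := by
    refine prod_eq (T := fun x y => dt l (W x y)) hTd ?_ ?_ hy₀H ?_
    · intro x _ y _
      simp only [hWs x y]
    · intro x hx y hy
      obtain ⟨X, hX, Y, hY, h1, h2⟩ := exists_quad hl (hWm x hx y hy)
      exact ⟨X, hX, Y, hY, by rw [h1, htr x hx y hy], h2⟩
    · intro ε hε
      obtain ⟨R, hR⟩ := herr (min (m / 2) (ε * m / (2 + 4 * ‖y₀‖))) (by positivity)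
      refine ⟨max R (2 * ‖y₀‖), fun x hx hxR => ?_⟩
      obtain ⟨E₁, E₂, h1, h2, h3, h4⟩ := hR x hx ((le_max_left _ _).trans hxR)
      have hxy : 2 * ‖y₀‖ ≤ ‖x‖ := (le_max_right _ _).trans hxR
      have hD := hden x hx E₁ E₂ h1 h2 (h3.trans (min_le_left _ _)) (h4.trans (min_le_left _ _))
      have h3' := h3.trans (min_le_right _ _)
      have h4' := h4.trans (min_le_right _ _)
      have hn := norm_add_one_ge hx
      set n := ‖x + 1‖ with hndef
      have hn0 : 0 < n := by linarith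
      have hDne := den_ne hl (hWm x hx y₀ hy₀H)
      have hDpos := norm_pos_iff.2 hDne
      have e3 : den l (W x y₀) = den l (pt l x y₀) + (-l * E₁ + E₂) := by
        simp only [den, h1, h2]
        ring
      have hrel : (x + y₀) * (-l * E₁ + E₂) = -2 * E₂ := by
        have t0 := htr x hx y₀ hy₀H
        rw [tr, div_eq_iff hDne, e3, h2] at t0
        have t1 := tr_pt (l := l) hx hy₀H
        linear_combination -t0 + t1
      have e0 : dt l (W x y₀) - x * y₀ = (l * E₁ + E₂ - x * y₀ * (-l * E₁ + E₂)) /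
          den l (W x y₀) := by
        rw [dt, eq_div_iff hDne, sub_mul, div_mul_cancel₀ _ hDne]
        have t1 := dt_pt (l := l) hx hy₀H
        rw [e3, h1, h2]
        linear_combination t1
      have a3 : ‖x * (-l * E₁ + E₂)‖ ≤ 4 * ‖E₂‖ := by
        have b1 : ‖x‖ / 2 ≤ ‖x + y₀‖ := by
          have := norm_sub_le (x + y₀) y₀
          rw [add_sub_cancel_right] at this
          linarith
        have b2 : ‖x + y₀‖ * ‖-l * E₁ + E₂‖ = 2 * ‖E₂‖ := by
          rw [← norm_mul, hrel, norm_mul]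
          simp
        rw [norm_mul]
        nlinarith [norm_nonneg (-l * E₁ + E₂)]
      have e1 : ‖l * E₁ + E₂ - x * y₀ * (-l * E₁ + E₂)‖ ≤ ‖E₁‖ + ‖E₂‖ + ‖y₀‖ * (4 * ‖E₂‖) := by
        refine (norm_sub_le _ _).trans ?_
        have c1 : ‖l * E₁ + E₂‖ ≤ ‖E₁‖ + ‖E₂‖ := by
          refine (norm_add_le _ _).trans ?_
          rw [norm_mul, hl, one_mul]
        have c2 : ‖x * y₀ * (-l * E₁ + E₂)‖ ≤ ‖y₀‖ * (4 * ‖E₂‖) := by
          have : x * y₀ * (-l * E₁ + E₂) = y₀ * (x * (-l * E₁ + E₂)) := by ring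
          rw [this, norm_mul]
          gcongr
        linarith
      have e2 : (‖E₁‖ + ‖E₂‖ + ‖y₀‖ * (4 * ‖E₂‖)) * n ^ 3 ≤ ε * m := by
        set c := 2 + 4 * ‖y₀‖ with hc
        have hc0 : 0 < c := by positivity
        rw [le_div_iff₀ hc0] at h3' h4'
        have q2 : (1 + 4 * ‖y₀‖) * (‖E₂‖ * n ^ 3) * c ≤ (1 + 4 * ‖y₀‖) * (ε * m) := by
          have := mul_le_mul_of_nonneg_left h4' (show 0 ≤ 1 + 4 * ‖y₀‖ by positivity)
          linarith
        have q3 : ((‖E₁‖ + ‖E₂‖ + ‖y₀‖ * (4 * ‖E₂‖)) * n ^ 3) * c ≤ (ε * m) * c := by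
          have : ((‖E₁‖ + ‖E₂‖ + ‖y₀‖ * (4 * ‖E₂‖)) * n ^ 3) * c =
              ‖E₁‖ * n ^ 3 * c + (1 + 4 * ‖y₀‖) * (‖E₂‖ * n ^ 3) * c := by ring
          rw [this]
          calc ‖E₁‖ * n ^ 3 * c + (1 + 4 * ‖y₀‖) * (‖E₂‖ * n ^ 3) * c
              ≤ ε * m + (1 + 4 * ‖y₀‖) * (ε * m) := by linarith
            _ = (ε * m) * c := by rw [hc]; ring
        exact le_of_mul_le_mul_right q3 hc0
      show ‖dt l (W x y₀) - x * y₀‖ * ‖x‖ ^ 2 ≤ ε
      rw [e0, norm_div, div_mul_eq_mul_div, div_le_iff₀ hDpos]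
      have f1 : ‖l * E₁ + E₂ - x * y₀ * (-l * E₁ + E₂)‖ * ‖x‖ ^ 2 * n ≤
          ε * ‖den l (W x y₀)‖ * n := by
        calc ‖l * E₁ + E₂ - x * y₀ * (-l * E₁ + E₂)‖ * ‖x‖ ^ 2 * n
            ≤ (‖E₁‖ + ‖E₂‖ + ‖y₀‖ * (4 * ‖E₂‖)) * n ^ 2 * n := by
              gcongr
              exact hn.2
          _ = (‖E₁‖ + ‖E₂‖ + ‖y₀‖ * (4 * ‖E₂‖)) * n ^ 3 := by ring
          _ ≤ ε * m := e2
          _ ≤ ε * (‖den l (W x y₀)‖ * n) := by gcongr
          _ = ε * ‖den l (W x y₀)‖ * n := by ring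
      exact le_of_mul_le_mul_right f1 hn0
  -- conclusion
  rintro z ⟨a, c, ha, hc, rfl⟩
  have h1 := cay_mem hl ha
  have h2 := cay_mem hl hc
  have h3 := eq_pt hl (hWm _ h1 _ h2) h1 h2 (htr _ h1 _ h2) (hdt _ h1 _ h2)
  simp only [hW, pt, kap_cay hl ha, kap_cay hl hc] at h3
  exact h3

end Q75.Bk
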