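import Pool.Agent.Q75.BkHalf
set_option autoImplicit false

/-! # A rigidity theorem for functions of two variables with nonnegative real part

If `E` has nonnegative real part on the product of two half planes and
`E z w = z + w + o((|z| + |w - 1|) ^ 3)` at `(0, 1)` then `E z w = z + w`. -/

namespace Q75.Bk

open Complex Filter Topology Set Metric

lemma ofReal_mem {t : ℝ} (ht : 0 < t) : (t : ℂ) ∈ Hr := by
  show 0 < (t : ℂ).re
  rwa [Complex.ofReal_re]

lemma one_mem : (1 : ℂ) ∈ Hr := by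
  show (0 : ℝ) < (1 : ℂ).re
  simp

/-- Harnack's inequality on the positive ray. -/
lemma harnack_ray {K : ℂ → ℂ} (hK : DifferentiableOn ℂ K Hr) (hre : ∀ z ∈ Hr, 0 ≤ (K z).re)
    {c d : ℝ} (hc : 0 < c) (hcd : c ≤ d) : (K d).re * c ≤ (K c).re * d := by
  have hd : 0 < d := lt_of_lt_of_le hc hcd
  have h := sp hK hre (ofReal_mem hc) (ofReal_mem hd)
  have ha : 0 ≤ (K c).re := hre _ (ofReal_mem hc)
  have hb : 0 ≤ (K d).re := hre _ (ofReal_mem hd)
  have h1 : ((K c).re + (K d).re) ^ 2 ≤ ‖K c + (starRingEnd ℂ) (K d)‖ ^ 2 := by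
    refine pow_le_pow_left₀ (by positivity) ?_ 2
    have := Complex.re_le_norm (K c + (starRingEnd ℂ) (K d))
    simpa using this
  have h2 : ‖(c : ℂ) + (starRingEnd ℂ) (d : ℂ)‖ ^ 2 = (c + d) ^ 2 := by
    rw [Complex.conj_ofReal, ← Complex.ofReal_add, Complex.norm_real, Real.norm_eq_abs, sq_abs]
  rw [h2, Complex.ofReal_re, Complex.ofReal_re] at h
  set a := (K c).re
  set b := (K d).re
  have h3 : (a + b) ^ 2 * (c * d) ≤ a * b * (c + d) ^ 2 :=
    (mul_le_mul_of_nonneg_right h1 (by positivity)).trans h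
  by_contra hcon
  push Not at hcon
  have h4 : 0 ≤ (a * c - b * d) * (b * c - a * d) := by nlinarith
  have h5 : 0 ≤ a * c - b * d := by
    by_contra h6
    push Not at h6
    nlinarith [mul_pos (neg_pos.2 h6) (sub_pos.2 hcon)]
  nlinarith

/-- The Julia–Wolff coefficient does not depend on the parameter. -/
lemma jw_const {E : ℂ → ℂ → ℂ} (h1 : ∀ w ∈ Hr, DifferentiableOn ℂ (fun z => E z w) Hr)
    (pos : ∀ z ∈ Hr, ∀ w ∈ Hr, 0 ≤ (E z w).re) {y y₀ : ℂ} (hy : y ∈ Hr) (hy₀ : y₀ ∈ Hr) {α β : ℝ}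
    (hα : ∀ e : ℂ, 0 < e.re → ‖e‖ = 1 →
      Tendsto (fun t : ℝ => E y ((t : ℂ) * e) / ((t : ℂ) * e)) atTop (𝓝 (α : ℂ)))
    (hβ : ∀ e : ℂ, 0 < e.re → ‖e‖ = 1 →
      Tendsto (fun t : ℝ => E y₀ ((t : ℂ) * e) / ((t : ℂ) * e)) atTop (𝓝 (β : ℂ))) : α = β := by
  have hineq : ∀ e : ℂ, 0 < e.re → ‖e‖ = 1 →
      ‖(α : ℂ) * e + (starRingEnd ℂ) ((β : ℂ) * e)‖ ^ 2 * (y.re * y₀.re) ≤
        ((α : ℂ) * e).re * ((β : ℂ) * e).re * ‖y + (starRingEnd ℂ) y₀‖ ^ 2 := by
    intro e he hen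
    have he0 : e ≠ 0 := by
      rw [← norm_pos_iff, hen]
      exact one_pos
    have t1 : Tendsto (fun v : ℝ => E y ((v : ℂ) * e) / (v : ℂ)) atTop (𝓝 ((α : ℂ) * e)) := by
      refine ((hα e he hen).mul_const e).congr' ?_
      filter_upwards [eventually_gt_atTop 0] with v hv
      have : (v : ℂ) ≠ 0 := by exact_mod_cast hv.ne'
      field_simp
    have t2 : Tendsto (fun v : ℝ => E y₀ ((v : ℂ) * e) / (v : ℂ)) atTop (𝓝 ((β : ℂ) * e)) := by
      refine ((hβ e he hen).mul_const e).congr' ?_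
      filter_upwards [eventually_gt_atTop 0] with v hv
      have : (v : ℂ) ≠ 0 := by exact_mod_cast hv.ne'
      field_simp
    have L : Tendsto (fun v : ℝ => ‖E y ((v : ℂ) * e) / (v : ℂ) +
        (starRingEnd ℂ) (E y₀ ((v : ℂ) * e) / (v : ℂ))‖ ^ 2 * (y.re * y₀.re)) atTop
        (𝓝 (‖(α : ℂ) * e + (starRingEnd ℂ) ((β : ℂ) * e)‖ ^ 2 * (y.re * y₀.re))) :=
      (((t1.add ((Complex.continuous_conj.tendsto _).comp t2)).norm).pow 2).mul_const _
    have Rr : Tendsto (fun v : ℝ => (E y ((v : ℂ) * e) / (v : ℂ)).re *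
        (E y₀ ((v : ℂ) * e) / (v : ℂ)).re * ‖y + (starRingEnd ℂ) y₀‖ ^ 2) atTop
        (𝓝 (((α : ℂ) * e).re * ((β : ℂ) * e).re * ‖y + (starRingEnd ℂ) y₀‖ ^ 2)) :=
      ((((Complex.continuous_re.tendsto _).comp t1).mul
        ((Complex.continuous_re.tendsto _).comp t2))).mul_const _
    refine le_of_tendsto_of_tendsto L Rr ?_
    filter_upwards [eventually_gt_atTop 0] with v hv
    have hvH : (v : ℂ) * e ∈ Hr := by
      show 0 < ((v : ℂ) * e).re
      have : ((v : ℂ) * e).re = v * e.re := by simp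
      rw [this]
      positivity
    have hs := sp (h1 _ hvH) (fun z hz => pos _ hz _ hvH) hy hy₀
    have e1 : E y ((v : ℂ) * e) / (v : ℂ) + (starRingEnd ℂ) (E y₀ ((v : ℂ) * e) / (v : ℂ)) =
        (E y ((v : ℂ) * e) + (starRingEnd ℂ) (E y₀ ((v : ℂ) * e))) / (v : ℂ) := by
      rw [map_div₀, Complex.conj_ofReal]
      ring
    have e2 : (E y ((v : ℂ) * e) / (v : ℂ)).re = (E y ((v : ℂ) * e)).re / v :=
      Complex.div_ofReal_re _ _
    have e3 : (E y₀ ((v : ℂ) * e) / (v : ℂ)).re = (E y₀ ((v : ℂ) * e)).re / v :=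
      Complex.div_ofReal_re _ _
    rw [e1, e2, e3, norm_div, Complex.norm_real, Real.norm_of_nonneg hv.le, div_pow]
    have e4 : (E y ((v : ℂ) * e)).re / v * ((E y₀ ((v : ℂ) * e)).re / v) *
        ‖y + (starRingEnd ℂ) y₀‖ ^ 2 = ((E y ((v : ℂ) * e)).re * (E y₀ ((v : ℂ) * e)).re *
        ‖y + (starRingEnd ℂ) y₀‖ ^ 2) / v ^ 2 := by
      field_simp
    rw [e4, div_mul_eq_mul_div]
    exact div_le_div_of_nonneg_right hs (by positivity)
  -- let the direction tend to the imaginary axis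
  set U : ℝ → ℂ := fun c => ⟨c, Real.sqrt (1 - c ^ 2)⟩ with hU
  have hUc : Continuous U := by
    rw [hU]
    have : (fun c : ℝ => (⟨c, Real.sqrt (1 - c ^ 2)⟩ : ℂ)) =
        fun c : ℝ => (c : ℂ) + (Real.sqrt (1 - c ^ 2) : ℝ) * Complex.I := by
      funext c
      apply Complex.ext <;> simp
    rw [this]
    fun_prop
  have hU0 : U 0 = Complex.I := by
    apply Complex.ext <;> simp [hU]
  have c1 : Continuous fun c : ℝ => ‖(α : ℂ) * U c + (starRingEnd ℂ) ((β : ℂ) * U c)‖ ^ 2 *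
      (y.re * y₀.re) := by
    have := Complex.continuous_conj.comp (continuous_const.mul hUc : Continuous fun c => (β : ℂ) * U c)
    exact (((continuous_const.mul hUc).add this).norm.pow 2).mul continuous_const
  have c2 : Continuous fun c : ℝ => ((α : ℂ) * U c).re * ((β : ℂ) * U c).re *
      ‖y + (starRingEnd ℂ) y₀‖ ^ 2 :=
    ((Complex.continuous_re.comp (continuous_const.mul hUc)).mul
      (Complex.continuous_re.comp (continuous_const.mul hUc))).mul continuous_const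
  have t1 := (c1.tendsto 0).mono_left (nhdsWithin_le_nhds (s := Ioi 0))
  have t2 := (c2.tendsto 0).mono_left (nhdsWithin_le_nhds (s := Ioi 0))
  have hle := le_of_tendsto_of_tendsto t1 t2 (by
    have hmem : Ioo (0 : ℝ) 1 ∈ 𝓝[>] (0 : ℝ) := Ioo_mem_nhdsGT one_pos
    filter_upwards [hmem] with c hc
    refine hineq (U c) hc.1 ?_
    have h1c : 0 ≤ 1 - c ^ 2 := by nlinarith [hc.1, hc.2]
    have : ‖U c‖ ^ 2 = 1 := by
      rw [← Complex.normSq_eq_norm_sq, Complex.normSq_apply]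
      simp only [hU]
      rw [Real.mul_self_sqrt h1c]
      ring
    nlinarith [norm_nonneg (U c)])
  simp only [hU0] at hle
  have hk : 0 < y.re * y₀.re := mul_pos hy hy₀
  have e1 : (α : ℂ) * Complex.I + (starRingEnd ℂ) ((β : ℂ) * Complex.I) =
      ((α - β : ℝ) : ℂ) * Complex.I := by
    rw [map_mul, Complex.conj_I, Complex.conj_ofReal]
    push_cast
    ring
  have e2 : ((α : ℂ) * Complex.I).re = 0 := by simp
  rw [e1, norm_mul, Complex.norm_I, mul_one, Complex.norm_real, Real.norm_eq_abs, sq_abs,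
    e2, zero_mul, zero_mul] at hle
  have h3 : (α - β) ^ 2 ≤ 0 := by
    by_contra hcon
    push Not at hcon
    nlinarith [mul_pos hcon hk]
  have h4 : (α - β) ^ 2 = 0 := le_antisymm h3 (sq_nonneg _)
  have h5 := pow_eq_zero_iff (two_ne_zero) |>.1 h4
  linarith

/-- Julia–Wolff with a parameter. -/
lemma jw_two {E : ℂ → ℂ → ℂ} (h1 : ∀ w ∈ Hr, DifferentiableOn ℂ (fun z => E z w) Hr)
    (h2 : ∀ z ∈ Hr, DifferentiableOn ℂ (fun w => E z w) Hr)
    (pos : ∀ z ∈ Hr, ∀ w ∈ Hr, 0 ≤ (E z w).re) :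
    ∃ α : ℝ, (∀ z ∈ Hr, ∀ w ∈ Hr, α * w.re ≤ (E z w).re) ∧
      ∀ z ∈ Hr, Tendsto (fun t : ℝ => E z (t : ℂ) / (t : ℂ)) atTop (𝓝 (α : ℂ)) := by
  obtain ⟨α, -, hα1, hα2⟩ := julia_wolff (h2 1 one_mem) (fun w hw => pos 1 one_mem w hw)
  have key : ∀ z ∈ Hr, (∀ w ∈ Hr, α * w.re ≤ (E z w).re) ∧
      Tendsto (fun t : ℝ => E z (t : ℂ) / (t : ℂ)) atTop (𝓝 (α : ℂ)) := by
    intro z hz
    obtain ⟨β, -, hβ1, hβ2⟩ := julia_wolff (h2 z hz) (fun w hw => pos z hz w hw)
    have : β = α := jw_const h1 pos hz one_mem hβ2 hα2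
    subst this
    refine ⟨hβ1, ?_⟩
    simpa using hβ2 1 (by simp) (by simp)
  exact ⟨α, fun z hz => (key z hz).1, fun z hz => (key z hz).2⟩

/-- The one-dimensional Burns–Krantz theorem on the half plane, at the boundary point `0`. -/
lemma bk_one {h : ℂ → ℂ} (hd : DifferentiableOn ℂ h Hr) (hre : ∀ z ∈ Hr, 0 ≤ (h z).re)
    (asy : ∀ ε : ℝ, 0 < ε → ∃ δ : ℝ, 0 < δ ∧ ∀ t : ℝ, 0 < t → t < δ → ‖h t - t‖ ≤ ε * t ^ 3)
    {z : ℂ} (hz : z ∈ Hr) : h z = z := by
  have hne : ∀ u ∈ Hr, h u ≠ 0 := by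
    intro u hu h0
    obtain ⟨δ, hδ, hb⟩ := asy 1 one_pos
    set t := min (δ / 2) (1 / 2) with ht
    have ht0 : 0 < t := by positivity
    have ht1 : t < δ := lt_of_le_of_lt (min_le_left _ _) (by linarith)
    have ht2 : t ≤ 1 / 2 := min_le_right _ _
    have h1 := hb t ht0 ht1
    rw [zero_prop hd hre hu h0 (ofReal_mem ht0), zero_sub, norm_neg, Complex.norm_real,
      Real.norm_of_nonneg ht0.le] at h1
    have : t ^ 3 < t := by nlinarith [mul_pos ht0 ht0, mul_pos (mul_pos ht0 ht0) ht0]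
    linarith
  have hinv : ∀ u ∈ Hr, u⁻¹ ∈ Hr := by
    intro u hu
    have hu' : 0 < u.re := hu
    show 0 < (u⁻¹).re
    rw [Complex.inv_re]
    refine div_pos hu' (Complex.normSq_pos.2 ?_)
    rintro rfl
    simp at hu'
  have hne0 : ∀ u ∈ Hr, u ≠ 0 := by
    rintro u hu rfl
    have : (0 : ℝ) < (0 : ℂ).re := hu
    simp at this
  set k : ℂ → ℂ := fun u => (h u⁻¹)⁻¹ with hk
  have hkd : DifferentiableOn ℂ k Hr := by
    refine DifferentiableOn.inv ?_ fun u hu => hne _ (hinv u hu)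
    exact hd.comp (differentiableOn_id.inv hne0) hinv
  have hkre : ∀ u ∈ Hr, 0 ≤ (k u).re := by
    intro u hu
    show 0 ≤ ((h u⁻¹)⁻¹).re
    rw [Complex.inv_re]
    exact div_nonneg (hre _ (hinv u hu)) (Complex.normSq_nonneg _)
  have hks : ∀ ε : ℝ, 0 < ε → ∃ R : ℝ, 1 ≤ R ∧ ∀ v : ℝ, R ≤ v → ‖k v - v‖ * v ≤ ε := by
    intro ε hε
    obtain ⟨δ, hδ, hb⟩ := asy (min (1 / 2) (ε / 2)) (by positivity)
    refine ⟨2 / δ + 1, by have : 0 < 2 / δ := by positivity
                          linarith, fun v hv => ?_⟩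
    have hδ2 : 0 < 2 / δ := by positivity
    have hv0 : 0 < v := by linarith
    have hv1 : 1 ≤ v := by linarith
    have h1 := hb v⁻¹ (by positivity) (by
      rw [inv_lt_comm₀ hv0 hδ]
      have : δ⁻¹ ≤ 2 / δ := by
        rw [div_eq_mul_inv]
        have : 0 < δ⁻¹ := by positivity
        linarith
      linarith)
    have ht0 : 0 < v⁻¹ := by positivity
    have ht1 : v⁻¹ ≤ 1 := inv_le_one_of_one_le₀ hv1
    set t := v⁻¹ with ht
    have h2 : ‖h t - t‖ ≤ t / 2 := by
      refine h1.trans ?_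
      have : min (1 / 2) (ε / 2) * t ^ 3 ≤ 1 / 2 * t ^ 3 :=
        mul_le_mul_of_nonneg_right (min_le_left _ _) (by positivity)
      have h3 : t ^ 3 ≤ t := by
        have : t ^ 3 = t * t ^ 2 := by ring
        rw [this]
        have : t ^ 2 ≤ 1 := pow_le_one₀ ht0.le ht1
        nlinarith
      linarith
    have h3 : t / 2 ≤ ‖h t‖ := by
      have := norm_sub_norm_le (t : ℂ) (h t)
      rw [Complex.norm_real, Real.norm_of_nonneg ht0.le, norm_sub_rev] at this
      linarith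
    have hht : h t ≠ 0 := hne _ (ofReal_mem ht0)
    have hvt : (v : ℂ) = ((t : ℝ) : ℂ)⁻¹ := by
      rw [ht]
      push_cast
      rw [inv_inv]
    have htc : ((t : ℝ) : ℂ) ≠ 0 := by exact_mod_cast ht0.ne'
    have h4 : k v - v = (t - h t) / (h t * t) := by
      rw [hk]
      simp only
      rw [hvt, inv_inv]
      field_simp
    rw [h4, norm_div, norm_mul, Complex.norm_real, Real.norm_of_nonneg ht0.le, norm_sub_rev]
    have hvt' : v = t⁻¹ := by rw [ht, inv_inv]
    rw [hvt', ← div_eq_mul_inv, div_div, div_le_iff₀ (by positivity)]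
    refine h1.trans ?_
    have h5 : min (1 / 2) (ε / 2) * t ^ 3 ≤ ε / 2 * t ^ 3 :=
      mul_le_mul_of_nonneg_right (min_le_right _ _) (by positivity)
    have h6 : ε * (t / 2 * t * t) ≤ ε * (‖h t‖ * t * t) := by gcongr
    nlinarith
  -- Julia–Wolff
  obtain ⟨α, hα0, hα1, hα2⟩ := julia_wolff hkd hkre
  have hαlim : Tendsto (fun v : ℝ => k (v : ℂ) / (v : ℂ)) atTop (𝓝 (α : ℂ)) := by
    simpa using hα2 1 (by simp) (by simp)
  have hlim : Tendsto (fun v : ℝ => k (v : ℂ) / (v : ℂ)) atTop (𝓝 (1 : ℂ)) := by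
    rw [Metric.tendsto_atTop']
    intro ε hε
    obtain ⟨R, hR1, hR⟩ := hks (ε / 2) (by positivity)
    refine ⟨R, fun v hv => ?_⟩
    have hv1 : 1 ≤ v := hR1.trans hv.le
    have hv0 : 0 < v := by linarith
    have hvc : (v : ℂ) ≠ 0 := by exact_mod_cast hv0.ne'
    rw [dist_eq_norm]
    have : k (v : ℂ) / (v : ℂ) - 1 = (k v - v) / v := by
      rw [sub_div, div_self hvc]
    rw [this, norm_div, Complex.norm_real, Real.norm_of_nonneg hv0.le, div_lt_iff₀ hv0]
    have := hR v hv.le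
    have h7 : ‖k v - v‖ ≤ ‖k v - v‖ * v := by nlinarith [norm_nonneg (k v - v)]
    nlinarith
  have hα : α = 1 := by
    have := tendsto_nhds_unique hαlim hlim
    exact_mod_cast this
  subst hα
  have hzero : ∀ u ∈ Hr, k u - u = 0 := by
    intro u hu
    refine hopf (G := fun u => k u - u) (hkd.sub differentiableOn_id) ?_ ?_ hu
    · intro w hw
      have := hα1 w hw
      simp only [Complex.sub_re]
      linarith
    · intro ε hε R
      obtain ⟨R', hR1, hR'⟩ := hks ε hε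
      refine ⟨max R R', le_max_left _ _, hR1.trans (le_max_right _ _), ?_⟩
      rw [mul_comm]
      exact hR' _ (le_max_right _ _)
  have h8 := hzero _ (hinv z hz)
  rw [sub_eq_zero, hk] at h8
  simp only [inv_inv] at h8
  exact inv_injective h8

/-- A quantitative form of the Schwarz–Pick lemma with three points. -/
lemma three_pt {f : ℂ → ℂ} (hf : DifferentiableOn ℂ f Hr) (hre : ∀ z ∈ Hr, 0 ≤ (f z).re)
    (hA : 0 < (f 1).re) {b c : ℝ} (hb : 0 < b) (hc : 0 < c) (hb1 : b ≠ 1) (hc1 : c ≠ 1) :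
    ∃ Θb Θc : ℂ,
      Θb * ((f b + (starRingEnd ℂ) (f 1)) * (b - 1)) = 2 * ((f 1).re * b + (f 1).im * I - f b) ∧
      Θc * ((f c + (starRingEnd ℂ) (f 1)) * (c - 1)) = 2 * ((f 1).re * c + (f 1).im * I - f c) ∧
      ‖Θc‖ * (c * b) ≤ 4 * (c + b) ^ 2 * ‖Θb‖ := by
  set A := f 1 with hAdef
  set num : ℂ → ℂ := fun w => 2 * ((A.re : ℂ) * w + (A.im : ℂ) * I - f w) with hnum
  have hnumd : DifferentiableOn ℂ num Hr :=
    (((differentiableOn_id.const_mul _).add_const _).sub hf).const_mul _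
  have hden : ∀ w ∈ Hr, f w + (starRingEnd ℂ) A ≠ 0 := by
    intro w hw h0
    have := congrArg Complex.re h0
    simp only [Complex.add_re, Complex.conj_re, Complex.zero_re] at this
    have := hre w hw
    linarith
  have hnum1 : num 1 = 0 := by
    rw [hnum]
    simp only
    rw [mul_one, ← hAdef, Complex.re_add_im, sub_self, mul_zero]
  set θ : ℂ → ℂ := fun w => dslope num 1 w / (f w + (starRingEnd ℂ) A) with hθ
  have hθd : DifferentiableOn ℂ θ Hr := by
    refine DifferentiableOn.div ?_ (hf.add_const _) hden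
    exact (Complex.differentiableOn_dslope (isOpen_Hr.mem_nhds one_mem)).2 hnumd
  have hθne : ∀ w : ℂ, w ≠ 1 → θ w = num w / ((w - 1) * (f w + (starRingEnd ℂ) A)) := by
    intro w hw
    rw [hθ]
    simp only
    rw [dslope_of_ne _ hw, slope_def_field, hnum1, sub_zero, div_div]
  have hθre1 : ∀ w ∈ Hr, w ≠ 1 → 0 ≤ (θ w).re := by
    intro w hw hw1
    have hw' : 0 < w.re := hw
    have hs := sp hf hre hw one_mem
    rw [← hAdef] at hs
    have i1 := sq_ident (f w) A
    have i2 := sq_ident w 1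
    rw [map_one] at i2
    rw [map_one, Complex.one_re, mul_one] at hs
    rw [Complex.one_re, mul_one] at i2
    have h3 : ‖f w - A‖ ^ 2 * ‖w + 1‖ ^ 2 ≤ ‖f w + (starRingEnd ℂ) A‖ ^ 2 * ‖w - 1‖ ^ 2 := by
      have e1 : ‖f w - A‖ ^ 2 = ‖f w + (starRingEnd ℂ) A‖ ^ 2 - 4 * ((f w).re * A.re) := by
        linarith
      have e2 : ‖w - 1‖ ^ 2 = ‖w + 1‖ ^ 2 - 4 * w.re := by linarith
      rw [e1, e2]
      nlinarith
    set q : ℂ := ((f w - A) * (w + 1)) / ((w - 1) * (f w + (starRingEnd ℂ) A)) with hq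
    have hw1' : w - 1 ≠ 0 := sub_ne_zero.2 hw1
    have hD := hden w hw
    have hDn := norm_pos_iff.2 hD
    have hw1n := norm_pos_iff.2 hw1'
    have hqn : ‖q‖ ≤ 1 := by
      rw [hq, norm_div, norm_mul, norm_mul, div_le_one (by positivity)]
      refine le_of_sq_le_sq ?_ (by positivity)
      rw [mul_pow, mul_pow]
      linarith
    have hθq : θ w = 1 - q := by
      rw [hθne w hw1, hq, eq_sub_iff_add_eq, ← add_div, div_eq_one_iff_eq (mul_ne_zero hw1' hD)]
      rw [hnum]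
      simp only
      have hAe : (starRingEnd ℂ) A = A.re - A.im * I := by
        apply Complex.ext <;> simp
      have hAe2 : A = A.re + A.im * I := (Complex.re_add_im A).symm
      rw [hAe]
      linear_combination (-(w + 1)) * hAe2
    rw [hθq, Complex.sub_re, Complex.one_re]
    have := Complex.re_le_norm q
    linarith
  have hθre : ∀ w ∈ Hr, 0 ≤ (θ w).re := by
    intro w hw
    rcases eq_or_ne w 1 with rfl | hw1
    · have hcont : ContinuousAt θ 1 :=
        (hθd.differentiableAt (isOpen_Hr.mem_nhds one_mem)).continuousAt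
      have ht : Tendsto (fun u => (θ u).re) (𝓝[≠] (1 : ℂ)) (𝓝 (θ 1).re) :=
        ((Complex.continuous_re.tendsto _).comp hcont.tendsto).mono_left nhdsWithin_le_nhds
      refine ge_of_tendsto ht ?_
      filter_upwards [self_mem_nhdsWithin, nhdsWithin_le_nhds (isOpen_Hr.mem_nhds one_mem)]
        with u hu1 hu2
      exact hθre1 u hu2 hu1
    · exact hθre1 w hw hw1
  refine ⟨θ b, θ c, ?_, ?_, ?_⟩
  · have hb1' : (b : ℂ) ≠ 1 := by exact_mod_cast hb1
    rw [hθne _ hb1', div_mul_eq_mul_div, div_eq_iff]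
    · rw [hnum]
      simp only
      ring
    · exact mul_ne_zero (sub_ne_zero.2 hb1') (hden _ (ofReal_mem hb))
  · have hc1' : (c : ℂ) ≠ 1 := by exact_mod_cast hc1
    rw [hθne _ hc1', div_mul_eq_mul_div, div_eq_iff]
    · rw [hnum]
      simp only
      ring
    · exact mul_ne_zero (sub_ne_zero.2 hc1') (hden _ (ofReal_mem hc))
  · have hs := sp hθd hθre (ofReal_mem hc) (ofReal_mem hb)
    rw [Complex.ofReal_re, Complex.ofReal_re, Complex.conj_ofReal, ← Complex.ofReal_add,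
      Complex.norm_real, Real.norm_eq_abs, sq_abs] at hs
    set x := ‖θ c‖ with hx
    set y := ‖θ b‖ with hy
    have hx0 : 0 ≤ x := norm_nonneg _
    have hy0 : 0 ≤ y := norm_nonneg _
    have h4 : 4 * (c * b) ≤ (c + b) ^ 2 := by nlinarith [sq_nonneg (c - b)]
    by_contra hcon
    push Not at hcon
    have hcb : 0 < c * b := by positivity
    have hxy : 16 * y < x := by
      by_contra h5
      push Not at h5
      have : x * (c * b) ≤ 16 * y * (c * b) := mul_le_mul_of_nonneg_right h5 hcb.le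
      nlinarith
    have h6 : x / 2 ≤ ‖θ c + (starRingEnd ℂ) (θ b)‖ := by
      have := norm_sub_le (θ c + (starRingEnd ℂ) (θ b)) ((starRingEnd ℂ) (θ b))
      rw [add_sub_cancel_right, RCLike.norm_conj] at this
      linarith
    have h7 : (x / 2) ^ 2 ≤ ‖θ c + (starRingEnd ℂ) (θ b)‖ ^ 2 :=
      pow_le_pow_left₀ (by positivity) h6 2
    have h8 : (θ c).re * (θ b).re ≤ x * y :=
      mul_le_mul (Complex.re_le_norm _) (Complex.re_le_norm _) (hθre _ (ofReal_mem hb)) hx0
    have h9 : (x / 2) ^ 2 * (c * b) ≤ x * y * (c + b) ^ 2 :=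
      (mul_le_mul_of_nonneg_right h7 hcb.le).trans
        (hs.trans (mul_le_mul_of_nonneg_right h8 (by positivity)))
    have hxp : 0 < x := by linarith
    have h10 : x * (x * (c * b)) ≤ x * (4 * (c + b) ^ 2 * y) := by nlinarith
    have := le_of_mul_le_mul_left h10 hxp
    linarith

/-- A two-constants type theorem at a boundary point of the half plane. -/
lemma two_const {k : ℂ → ℂ} (hk : DifferentiableOn ℂ k Hr) {C : ℝ} (hC : 0 < C)
    (h : ∀ ε : ℝ, 0 < ε → ∃ δ : ℝ, 0 < δ ∧ ∀ z ∈ Hr, ‖z‖ < δ → ‖k z‖ ≤ C * (z.re + ε * ‖z‖)) :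
    ∀ ε : ℝ, 0 < ε → ∃ δ : ℝ, 0 < δ ∧ ∀ t : ℝ, 0 < t → t < δ → ‖k t‖ ≤ ε * t := by
  intro ε hε
  set ε₁ := min 1 (ε / (4 * C)) with hε₁
  have hε₁0 : 0 < ε₁ := by positivity
  have hε₁1 : ε₁ ≤ 1 := min_le_left _ _
  have hε₁2 : 4 * C * ε₁ ≤ ε := by
    have : ε₁ ≤ ε / (4 * C) := min_le_right _ _
    rw [le_div_iff₀ (by positivity)] at this
    linarith
  obtain ⟨δ, hδ, hb⟩ := h ε₁ hε₁0
  set δ₁ := δ / 2 with hδ₁
  have hδ₁0 : 0 < δ₁ := by positivity
  set A := 1 / (δ₁ * ε₁) with hA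
  have hA0 : 0 < A := by positivity
  refine ⟨min δ₁ (1 / A), by positivity, fun t ht0 ht => ?_⟩
  have ht1 : t < δ₁ := lt_of_lt_of_le ht (min_le_left _ _)
  have ht2 : t < 1 / A := lt_of_lt_of_le ht (min_le_right _ _)
  have htA : A * t ≤ 1 := by
    rw [lt_div_iff₀ hA0] at ht2
    linarith
  have hre_ne : ∀ z : ℂ, 0 < z.re → ∀ κ : ℝ, 0 < κ → (1 + A * z) ≠ 0 ∧ z + κ ≠ 0 := by
    intro z hz κ hκ
    constructor
    · intro h0
      have := congrArg Complex.re h0
      simp at this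
      nlinarith [mul_pos hA0 hz]
    · intro h0
      have := congrArg Complex.re h0
      simp at this
      linarith
  have hn1 : ∀ z : ℂ, 0 < z.re → A * ‖z‖ ≤ ‖1 + A * z‖ ∧ 1 ≤ ‖1 + A * z‖ := by
    intro z hz
    constructor
    · refine le_of_sq_le_sq ?_ (norm_nonneg _)
      rw [mul_pow, ← Complex.normSq_eq_norm_sq, ← Complex.normSq_eq_norm_sq,
        Complex.normSq_apply, Complex.normSq_apply]
      simp
      nlinarith [mul_pos hA0 hz]
    · have := Complex.re_le_norm (1 + A * z)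
      simp at this
      nlinarith [mul_pos hA0 hz]
  have hn2 : ∀ z : ℂ, 0 < z.re → ∀ κ : ℝ, 0 < κ → ‖z‖ ≤ ‖z + κ‖ ∧ κ ≤ ‖z + κ‖ := by
    intro z hz κ hκ
    constructor
    · refine le_of_sq_le_sq ?_ (norm_nonneg _)
      rw [← Complex.normSq_eq_norm_sq, ← Complex.normSq_eq_norm_sq,
        Complex.normSq_apply, Complex.normSq_apply]
      simp
      nlinarith [mul_pos hκ hz]
    · have := Complex.re_le_norm (z + κ)
      simp at this
      linarith
  -- the estimate with the auxiliary parameter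
  have hM : ∀ κ : ℝ, 0 < κ → ‖k t‖ ≤ 4 * C * ε₁ * (t + κ) := by
    intro κ hκ
    set M : ℂ → ℂ := fun z => k z / ((1 + A * z) * (z + κ)) with hMdef
    set η := min (t / 2) (κ * ε₁) with hη
    have hη0 : 0 < η := by positivity
    have hη1 : η < t := lt_of_le_of_lt (min_le_left _ _) (by linarith)
    have hη2 : η ≤ κ * ε₁ := min_le_right _ _
    have hMd : DifferentiableOn ℂ M Hr := by
      refine hk.div (by fun_prop) ?_
      intro z hz
      exact mul_ne_zero (hre_ne z hz κ hκ).1 (hre_ne z hz κ hκ).2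
    set U : Set ℂ := {z | η < z.re} ∩ ball 0 δ₁ with hU
    have hcl : closure U ⊆ {z | η ≤ z.re} ∩ closedBall 0 δ₁ := by
      refine closure_minimal ?_
        ((isClosed_le continuous_const continuous_re).inter isClosed_closedBall)
      rintro z ⟨hz1, hz2⟩
      exact ⟨le_of_lt (show η < z.re from hz1), ball_subset_closedBall hz2⟩
    have hclH : closure U ⊆ Hr := fun z hz => lt_of_lt_of_le hη0 (hcl hz).1
    have hopen : IsOpen U := (isOpen_lt continuous_const continuous_re).inter isOpen_ball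
    have hbd : Bornology.IsBounded U := isBounded_ball.subset inter_subset_right
    have hdc : DiffContOnCl ℂ M U := (hMd.mono hclH).diffContOnCl
    have hmax : ‖M t‖ ≤ 2 * C * ε₁ := by
      refine norm_le_of_forall_mem_frontier_norm_le hbd hdc (C := 2 * C * ε₁) ?_
        (subset_closure ?_)
      · intro z hz
        rw [frontier, hopen.interior_eq] at hz
        have hz1 := hcl hz.1
        have hzU := hz.2
        have hzre : η ≤ z.re := hz1.1
        have hzn : ‖z‖ ≤ δ₁ := mem_closedBall_zero_iff.1 hz1.2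
        have hzH : 0 < z.re := lt_of_lt_of_le hη0 hzre
        have hkz := hb z hzH (lt_of_le_of_lt hzn (by rw [hδ₁]; linarith))
        obtain ⟨n1, n2⟩ := hn1 z hzH
        obtain ⟨n3, n4⟩ := hn2 z hzH κ hκ
        have hz0 : 0 < ‖z‖ := lt_of_lt_of_le hzH (Complex.re_le_norm z)
        rw [hMdef]
        simp only
        rw [norm_div, norm_mul, div_le_iff₀ (by
          have := norm_pos_iff.2 (hre_ne z hzH κ hκ).1
          have := norm_pos_iff.2 (hre_ne z hzH κ hκ).2
          positivity)]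
        by_cases hcase : z.re ≤ η
        · -- near the imaginary axis
          have e1 : z.re + ε₁ * ‖z‖ ≤ 2 * ε₁ * ‖z + κ‖ := by
            have a1 : z.re ≤ ε₁ * ‖z + κ‖ := by
              refine hcase.trans (hη2.trans ?_)
              rw [mul_comm]
              exact mul_le_mul_of_nonneg_left n4 hε₁0.le
            have a2 : ε₁ * ‖z‖ ≤ ε₁ * ‖z + κ‖ := mul_le_mul_of_nonneg_left n3 hε₁0.le
            linarith
          calc ‖k z‖ ≤ C * (z.re + ε₁ * ‖z‖) := hkz
            _ ≤ C * (2 * ε₁ * ‖z + κ‖) := by gcongr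
            _ = 2 * C * ε₁ * (1 * ‖z + κ‖) := by ring
            _ ≤ 2 * C * ε₁ * (‖1 + A * z‖ * ‖z + κ‖) := by gcongr
        · -- on the circle
          push Not at hcase
          have hzn2 : ‖z‖ = δ₁ := by
            refine le_antisymm hzn ?_
            by_contra hcon
            push Not at hcon
            exact hzU ⟨hcase, mem_ball_zero_iff.2 hcon⟩
          have e1 : z.re + ε₁ * ‖z‖ ≤ 2 * ‖z‖ := by
            have := Complex.re_le_norm z
            nlinarith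
          calc ‖k z‖ ≤ C * (z.re + ε₁ * ‖z‖) := hkz
            _ ≤ C * (2 * ‖z‖) := by gcongr
            _ = 2 * C * ε₁ * ((A * ‖z‖) * ‖z‖) := by
              rw [hzn2, hA]
              field_simp
            _ ≤ 2 * C * ε₁ * (‖1 + A * z‖ * ‖z + κ‖) := by gcongr
      · refine ⟨?_, ?_⟩
        · show η < ((t : ℂ)).re
          rw [Complex.ofReal_re]
          exact hη1
        · rw [mem_ball_zero_iff, Complex.norm_real, Real.norm_of_nonneg ht0.le]
          exact ht1
    rw [hMdef] at hmax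
    simp only at hmax
    have htH : 0 < ((t : ℂ)).re := ofReal_mem ht0
    have p1 := norm_pos_iff.2 (hre_ne _ htH κ hκ).1
    have p2 := norm_pos_iff.2 (hre_ne _ htH κ hκ).2
    rw [norm_div, norm_mul, div_le_iff₀ (by positivity)] at hmax
    have e1 : ‖1 + (A : ℂ) * t‖ ≤ 2 := by
      rw [← Complex.ofReal_mul, ← Complex.ofReal_one, ← Complex.ofReal_add, Complex.norm_real,
        Real.norm_of_nonneg (by positivity)]
      linarith
    have e2 : ‖(t : ℂ) + κ‖ = t + κ := by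
      rw [← Complex.ofReal_add, Complex.norm_real, Real.norm_of_nonneg (by positivity)]
    rw [e2] at hmax
    calc ‖k t‖ ≤ 2 * C * ε₁ * (‖1 + (A : ℂ) * t‖ * (t + κ)) := hmax
      _ ≤ 2 * C * ε₁ * (2 * (t + κ)) := by gcongr
      _ = 4 * C * ε₁ * (t + κ) := by ring
  have hlim : ‖k t‖ ≤ 4 * C * ε₁ * (t + 0) := by
    have c1 : Continuous fun κ : ℝ => 4 * C * ε₁ * (t + κ) := by fun_prop
    refine ge_of_tendsto ((c1.tendsto 0).mono_left (nhdsWithin_le_nhds (s := Ioi 0))) ?_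
    filter_upwards [self_mem_nhdsWithin] with κ hκ
    exact hM κ hκ
  rw [add_zero] at hlim
  exact hlim.trans (mul_le_mul_of_nonneg_right hε₁2 ht0.le)

end Q75.Bk
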