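import Pool.Agent.Q75.BkTwo
set_option autoImplicit false

/-! # The rigidity theorem in two variables -/

namespace Q75.Bk

open Complex Filter Topology Set Metric

lemma ofReal_sub_im (A z : ℂ) (x y : ℝ) (hA : A = x + y * I) (hz : z = A) : z.re = x ∧ z.im = y := by
  subst hz
  subst hA
  constructor <;> simp

/-- First order control in the second variable. -/
lemma first_order {E : ℂ → ℂ → ℂ}
    (h2 : ∀ z ∈ Hr, DifferentiableOn ℂ (fun w => E z w) Hr)
    (pos : ∀ z ∈ Hr, ∀ w ∈ Hr, 0 ≤ (E z w).re)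
    (asy : ∀ ε : ℝ, 0 < ε → ∃ δ : ℝ, 0 < δ ∧ ∀ z ∈ Hr, ∀ w ∈ Hr, ‖z‖ < δ → ‖w - 1‖ < δ →
      ‖E z w - z - w‖ ≤ ε * (‖z‖ + ‖w - 1‖) ^ 3) {c : ℝ} (hc : 0 < c) (hc1 : c ≠ 1) :
    ∃ C : ℝ, 0 < C ∧ ∀ ε : ℝ, 0 < ε → ∃ δ : ℝ, 0 < δ ∧ ∀ z ∈ Hr, ‖z‖ < δ →
      ‖E z c - c - z‖ ≤ C * (z.re + ε * ‖z‖) := by
  set C₁ := 4 * (c + 2) ^ 2 / c with hC₁
  have hC₁0 : 0 < C₁ := by positivity
  refine ⟨44 * C₁ * (c + 1) ^ 2 + (c + 1), by positivity, fun ε hε => ?_⟩
  set ε' := min 1 ε with hε'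
  have hε'0 : 0 < ε' := by positivity
  have hε'1 : ε' ≤ 1 := min_le_left _ _
  have hε'2 : ε' ≤ ε := min_le_right _ _
  obtain ⟨δ, hδ, hb⟩ := asy ε' hε'0
  refine ⟨min δ (min (1 / 8) (1 / (44 * C₁ * (c + 1)))), by positivity, fun z hz hzn => ?_⟩
  set r := ‖z‖ with hr
  have hz' : 0 < z.re := hz
  have hzr : z.re ≤ r := Complex.re_le_norm z
  have hr0 : 0 < r := lt_of_lt_of_le hz' hzr
  have hr1 : r < δ := lt_of_lt_of_le hzn (min_le_left _ _)
  have hr2 : r < 1 / 8 := lt_of_lt_of_le hzn ((min_le_right _ _).trans (min_le_left _ _))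
  have hr3 : r < 1 / (44 * C₁ * (c + 1)) :=
    lt_of_lt_of_le hzn ((min_le_right _ _).trans (min_le_right _ _))
  rw [lt_div_iff₀ (by positivity)] at hr3
  have hbr : ((1 + r : ℝ) : ℂ) ∈ Hr := ofReal_mem (by linarith)
  have hA := hb z hz 1 one_mem hr1 (by rw [sub_self, norm_zero]; exact hδ)
  have hbn : ‖((1 + r : ℝ) : ℂ) - 1‖ = r := by
    rw [← Complex.ofReal_one, ← Complex.ofReal_sub, Complex.norm_real, add_sub_cancel_left,
      Real.norm_of_nonneg hr0.le]
  have hB := hb z hz _ hbr hr1 (by rw [hbn]; exact hr1)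
  rw [sub_self, norm_zero, add_zero] at hA
  rw [hbn, ← two_mul] at hB
  have hr3' : r ^ 3 ≤ r ^ 2 := by
    have : r ^ 3 = r ^ 2 * r := by ring
    nlinarith [sq_nonneg r]
  have hr2' : r ^ 2 ≤ r := by nlinarith
  -- positivity of the value at one
  set eA := E z 1 - z - 1 with heA
  set eB := E z ((1 + r : ℝ) : ℂ) - z - ((1 + r : ℝ) : ℂ) with heB
  have hE1 : E z 1 = 1 + z + eA := by rw [heA]; ring
  have hE2 : E z ((1 + r : ℝ) : ℂ) = ((1 + r : ℝ) : ℂ) + z + eB := by rw [heB]; ring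
  have hA' : ‖eA‖ ≤ ε' * r ^ 3 := hA
  have hB' : ‖eB‖ ≤ 8 * (ε' * r ^ 3) := by
    refine hB.trans (le_of_eq ?_)
    ring
  have hsm : ε' * r ^ 3 ≤ 1 / 64 := by
    have : r ^ 3 ≤ 1 / 64 := by nlinarith
    nlinarith [pow_pos hr0 3]
  have hAre : (E z 1).re = 1 + z.re + eA.re := by rw [hE1]; simp
  have hAim : (E z 1).im = z.im + eA.im := by rw [hE1]; simp
  have ha1 := abs_le.1 ((Complex.abs_re_le_norm eA).trans hA')
  have ha2 := abs_le.1 ((Complex.abs_re_le_norm eB).trans hB')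
  have hApos : 0 < (E z 1).re := by
    rw [hAre]
    linarith [ha1.1]
  have hAle : (E z 1).re ≤ 2 := by
    rw [hAre]
    linarith [ha1.2]
  obtain ⟨Θb, Θc, hb1, hc2, hbc⟩ := three_pt (h2 z hz) (fun w hw => pos z hz w hw) hApos
    (b := 1 + r) (c := c) (by linarith) hc (by linarith) hc1
  -- estimate of `Θb`
  have hdb : 1 ≤ ‖E z ((1 + r : ℝ) : ℂ) + (starRingEnd ℂ) (E z 1)‖ := by
    have := Complex.re_le_norm (E z ((1 + r : ℝ) : ℂ) + (starRingEnd ℂ) (E z 1))
    rw [Complex.add_re, Complex.conj_re, hE2, hAre] at this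
    simp only [Complex.add_re, Complex.ofReal_re] at this
    rw [← hE2] at this
    linarith [ha1.1, ha2.1]
  have hnb : (2 : ℂ) * (((E z 1).re : ℂ) * ((1 + r : ℝ) : ℂ) + ((E z 1).im : ℂ) * I -
      E z ((1 + r : ℝ) : ℂ)) = 2 * ((z.re : ℂ) * r + (eA.re : ℂ) * ((1 + r : ℝ) : ℂ) +
      (eA.im : ℂ) * I - eB) := by
    have hz2 : (z.re : ℂ) + z.im * I = z := Complex.re_add_im z
    rw [hAre, hAim, hE2]
    push_cast
    linear_combination 2 * hz2
  have hΘb : ‖Θb‖ ≤ 22 * (z.re + ε' * r) := by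
    have h3 : ‖Θb‖ * (‖E z ((1 + r : ℝ) : ℂ) + (starRingEnd ℂ) (E z 1)‖ * r) ≤
        2 * (z.re * r + 11 * (ε' * r ^ 3)) := by
      have h4 := congrArg norm hb1
      rw [hnb, norm_mul, norm_mul, hbn] at h4
      rw [h4, norm_mul]
      have h5 : ‖(2 : ℂ)‖ = 2 := by simp
      rw [h5]
      refine mul_le_mul_of_nonneg_left ?_ (by norm_num)
      refine (norm_sub_le _ _).trans ?_
      have h6 : ‖(z.re : ℂ) * r + (eA.re : ℂ) * ((1 + r : ℝ) : ℂ) + (eA.im : ℂ) * I‖ ≤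
          z.re * r + ‖eA‖ * 2 + ‖eA‖ := by
        refine (norm_add₃_le).trans ?_
        rw [norm_mul, norm_mul, norm_mul, Complex.norm_I, mul_one, Complex.norm_real,
          Complex.norm_real, Complex.norm_real, Complex.norm_real, Complex.norm_real,
          Real.norm_of_nonneg hz'.le, Real.norm_of_nonneg hr0.le,
          Real.norm_of_nonneg (show 0 ≤ 1 + r by linarith), Real.norm_eq_abs, Real.norm_eq_abs]
        have := Complex.abs_re_le_norm eA
        have := Complex.abs_im_le_norm eA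
        gcongr
        linarith
      linarith
    have h7 : ‖Θb‖ * r ≤ 22 * (z.re + ε' * r) * r := by
      have h8 : ‖Θb‖ * r ≤ ‖Θb‖ * (‖E z ((1 + r : ℝ) : ℂ) + (starRingEnd ℂ) (E z 1)‖ * r) := by
        refine mul_le_mul_of_nonneg_left ?_ (norm_nonneg _)
        nlinarith
      have h9 : ε' * r ^ 3 ≤ ε' * r * r := by
        have : ε' * r ^ 3 ≤ ε' * r ^ 2 := mul_le_mul_of_nonneg_left hr3' hε'0.le
        nlinarith
      nlinarith [mul_pos hz' hr0]
    exact le_of_mul_le_mul_right h7 hr0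
  -- estimate of `Θc`
  have hΘc : ‖Θc‖ ≤ C₁ * (22 * (z.re + ε' * r)) := by
    have h3 : ‖Θc‖ * (c * (1 + r)) ≤ 4 * (c + 2) ^ 2 * ‖Θb‖ := by
      refine hbc.trans ?_
      have : (c + (1 + r)) ^ 2 ≤ (c + 2) ^ 2 := by
        apply pow_le_pow_left₀ (by positivity)
        linarith
      have := mul_le_mul_of_nonneg_right this (norm_nonneg Θb)
      nlinarith
    have h4 : ‖Θc‖ * c ≤ ‖Θc‖ * (c * (1 + r)) := by
      refine mul_le_mul_of_nonneg_left ?_ (norm_nonneg _)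
      nlinarith
    have h5 : ‖Θc‖ ≤ C₁ * ‖Θb‖ := by
      rw [hC₁, div_mul_eq_mul_div, le_div_iff₀ hc]
      linarith
    exact h5.trans (mul_le_mul_of_nonneg_left hΘb hC₁0.le)
  have hcabs : ‖(c : ℂ) - 1‖ ≤ c + 1 := by
    refine (norm_sub_le _ _).trans ?_
    rw [Complex.norm_real, norm_one, Real.norm_of_nonneg hc.le]
  -- the distance to the affine function
  set X := ((E z 1).re : ℂ) * c + ((E z 1).im : ℂ) * I - E z c with hX
  have hXe : E z c + (starRingEnd ℂ) (E z 1) = ((E z 1).re : ℂ) * (c + 1) - X := by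
    rw [hX]
    have hconj : (starRingEnd ℂ) (E z 1) = (E z 1).re - (E z 1).im * I := by
      apply Complex.ext <;> simp
    rw [hconj]
    ring
  have hsmall : ‖Θc‖ * (c + 1) ≤ 1 := by
    have h3 : 22 * (z.re + ε' * r) ≤ 44 * r := by nlinarith
    have h4 : ‖Θc‖ ≤ C₁ * (44 * r) := hΘc.trans (mul_le_mul_of_nonneg_left h3 hC₁0.le)
    have h5 : ‖Θc‖ * (c + 1) ≤ C₁ * (44 * r) * (c + 1) :=
      mul_le_mul_of_nonneg_right h4 (by positivity)
    nlinarith
  have hXn : ‖X‖ ≤ ‖Θc‖ * (c + 1) * (2 * (c + 1)) := by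
    have h3 := congrArg norm hc2
    rw [hXe, norm_mul, norm_mul, norm_mul] at h3
    have h4 : ‖(2 : ℂ)‖ = 2 := by simp
    rw [h4] at h3
    have h5 : ‖((E z 1).re : ℂ) * (c + 1) - X‖ ≤ 2 * (c + 1) + ‖X‖ := by
      refine (norm_sub_le _ _).trans ?_
      have : ‖((E z 1).re : ℂ) * (c + 1)‖ ≤ 2 * (c + 1) := by
        have e1 : (c : ℂ) + 1 = ((c + 1 : ℝ) : ℂ) := by push_cast; rfl
        rw [e1, norm_mul, Complex.norm_real,
          Complex.norm_real, Real.norm_of_nonneg hApos.le, Real.norm_of_nonneg (by positivity)]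
        exact mul_le_mul_of_nonneg_right hAle (by positivity)
      linarith
    have h6 : ‖Θc‖ * (‖((E z 1).re : ℂ) * (c + 1) - X‖ * ‖(c : ℂ) - 1‖) ≤
        ‖Θc‖ * ((2 * (c + 1) + ‖X‖) * (c + 1)) := by
      refine mul_le_mul_of_nonneg_left ?_ (norm_nonneg _)
      exact mul_le_mul h5 hcabs (norm_nonneg _) (by positivity)
    have h7 : ‖Θc‖ * ((2 * (c + 1) + ‖X‖) * (c + 1)) ≤
        ‖Θc‖ * (c + 1) * (2 * (c + 1)) + ‖X‖ := by
      have : ‖Θc‖ * (c + 1) * ‖X‖ ≤ 1 * ‖X‖ := mul_le_mul_of_nonneg_right hsmall (norm_nonneg _)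
      nlinarith
    linarith
  have hfin : E z c - c - z = -X + (z.re : ℂ) * (c - 1) + (eA.re : ℂ) * c + (eA.im : ℂ) * I := by
    have hz2 : (z.re : ℂ) + z.im * I = z := Complex.re_add_im z
    rw [hX, hAre, hAim]
    push_cast
    linear_combination hz2
  rw [hfin]
  have hb1 : ‖-X + (z.re : ℂ) * (c - 1) + (eA.re : ℂ) * c + (eA.im : ℂ) * I‖ ≤
      ‖X‖ + z.re * (c + 1) + ‖eA‖ * c + ‖eA‖ := by
    refine (norm_add₄_le).trans ?_
    rw [norm_neg, norm_mul, norm_mul, norm_mul, Complex.norm_I, mul_one, Complex.norm_real,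
      Complex.norm_real, Complex.norm_real, Complex.norm_real, Real.norm_of_nonneg hz'.le,
      Real.norm_of_nonneg hc.le, Real.norm_eq_abs, Real.norm_eq_abs]
    have := Complex.abs_re_le_norm eA
    have := Complex.abs_im_le_norm eA
    gcongr
  refine hb1.trans ?_
  have hs0 : 0 ≤ z.re + ε' * r := by positivity
  have h10 : ‖X‖ ≤ 44 * C₁ * (c + 1) ^ 2 * (z.re + ε' * r) := by
    refine hXn.trans ?_
    have : ‖Θc‖ * (c + 1) * (2 * (c + 1)) ≤
        C₁ * (22 * (z.re + ε' * r)) * (c + 1) * (2 * (c + 1)) := by gcongr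
    refine this.trans (le_of_eq ?_)
    ring
  have h11 : ‖eA‖ ≤ ε' * r := by
    refine hA'.trans (mul_le_mul_of_nonneg_left ?_ hε'0.le)
    linarith
  have h12 : ‖eA‖ * c + ‖eA‖ ≤ (c + 1) * (ε' * r) := by nlinarith
  have h13 : z.re + ε' * r ≤ z.re + ε * r := by
    have := mul_le_mul_of_nonneg_right hε'2 hr0.le
    linarith
  calc ‖X‖ + z.re * (c + 1) + ‖eA‖ * c + ‖eA‖
      ≤ (44 * C₁ * (c + 1) ^ 2 + (c + 1)) * (z.re + ε' * r) := by nlinarith
    _ ≤ (44 * C₁ * (c + 1) ^ 2 + (c + 1)) * (z.re + ε * r) := by gcongr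

/-- The rigidity theorem in two variables. -/
theorem two_var {E : ℂ → ℂ → ℂ} (h1 : ∀ w ∈ Hr, DifferentiableOn ℂ (fun z => E z w) Hr)
    (h2 : ∀ z ∈ Hr, DifferentiableOn ℂ (fun w => E z w) Hr)
    (pos : ∀ z ∈ Hr, ∀ w ∈ Hr, 0 ≤ (E z w).re)
    (asy : ∀ ε : ℝ, 0 < ε → ∃ δ : ℝ, 0 < δ ∧ ∀ z ∈ Hr, ∀ w ∈ Hr, ‖z‖ < δ → ‖w - 1‖ < δ →
      ‖E z w - z - w‖ ≤ ε * (‖z‖ + ‖w - 1‖) ^ 3) {z w : ℂ} (hz : z ∈ Hr) (hw : w ∈ Hr) :
    E z w = z + w := by
  -- behaviour at `w = 1`
  have at_one : ∀ ε : ℝ, 0 < ε → ∃ δ : ℝ, 0 < δ ∧ ∀ t : ℝ, 0 < t → t < δ →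
      ‖E t 1 - 1 - t‖ ≤ ε * t ^ 3 := by
    intro ε hε
    obtain ⟨δ, hδ, hb⟩ := asy ε hε
    refine ⟨δ, hδ, fun t ht0 ht => ?_⟩
    have hn : ‖(t : ℂ)‖ = t := by rw [Complex.norm_real, Real.norm_of_nonneg ht0.le]
    have := hb t (ofReal_mem ht0) 1 one_mem (by rw [hn]; exact ht)
      (by rw [sub_self, norm_zero]; exact hδ)
    rw [sub_self, norm_zero, add_zero, hn] at this
    have e : E t 1 - 1 - t = E t 1 - t - 1 := by ring
    rw [e]
    exact this
  have at_c : ∀ c : ℝ, 0 < c → ∀ ε : ℝ, 0 < ε → ∃ δ : ℝ, 0 < δ ∧ ∀ t : ℝ, 0 < t → t < δ →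
      ‖E t c - c - t‖ ≤ ε * t := by
    intro c hc ε hε
    rcases eq_or_ne c 1 with rfl | hc1
    · obtain ⟨δ, hδ, hb⟩ := at_one ε hε
      refine ⟨min δ 1, by positivity, fun t ht0 ht => ?_⟩
      have := hb t ht0 (lt_of_lt_of_le ht (min_le_left _ _))
      rw [Complex.ofReal_one]
      refine this.trans (mul_le_mul_of_nonneg_left ?_ hε.le)
      have ht1 : t < 1 := lt_of_lt_of_le ht (min_le_right _ _)
      have : t ^ 3 = t * t ^ 2 := by ring
      rw [this]
      have : t ^ 2 ≤ 1 := pow_le_one₀ ht0.le ht1.le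
      nlinarith
    · obtain ⟨C, hC, hb⟩ := first_order h2 pos asy hc hc1
      exact two_const (k := fun z => E z c - c - z)
        (((h1 c (ofReal_mem hc)).sub_const _).sub differentiableOn_id) hC hb ε hε
  -- the coefficient in the second variable
  obtain ⟨α, hα1, hα2⟩ := jw_two h1 h2 pos
  have hkey : ∀ t₁ : ℝ, 0 < t₁ → (E t₁ 1).re ≤ t₁ + α := by
    intro t₁ ht₁
    have hstep : ∀ c : ℝ, 1 ≤ c → c * (E t₁ 1).re ≤ c * t₁ + (E t₁ c).re := by
      intro c hc
      have hc0 : 0 < c := by linarith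
      have hε : ∀ ε : ℝ, 0 < ε → c * (E t₁ 1).re ≤ (c * t₁ + (E t₁ c).re) + ε * (t₁ * (c + 1)) := by
        intro ε hε
        obtain ⟨δ, hδ, hb⟩ := at_c c hc0 ε hε
        obtain ⟨δ', hδ', hb'⟩ := at_c 1 one_pos ε hε
        set t₂ := min (min δ δ') t₁ / 2 with ht₂
        have hm : 0 < min (min δ δ') t₁ := by positivity
        have h20 : 0 < t₂ := by positivity
        have h21 : t₂ < δ := by
          have : min (min δ δ') t₁ ≤ δ := (min_le_left _ _).trans (min_le_left _ _)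
          linarith
        have h22 : t₂ < δ' := by
          have : min (min δ δ') t₁ ≤ δ' := (min_le_left _ _).trans (min_le_right _ _)
          linarith
        have h23 : t₂ ≤ t₁ := by
          have : min (min δ δ') t₁ ≤ t₁ := min_le_right _ _
          linarith
        have b1 := hb t₂ h20 h21
        have b2 := hb' t₂ h20 h22
        rw [Complex.ofReal_one] at b2
        have r1 := (abs_le.1 ((Complex.abs_re_le_norm _).trans b1)).1
        have r2 := (abs_le.1 ((Complex.abs_re_le_norm _).trans b2)).2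
        simp only [Complex.sub_re, Complex.ofReal_re, Complex.one_re] at r1 r2
        -- the auxiliary function
        set K : ℂ → ℂ := fun w => (t₁ : ℂ) * E t₂ w - (t₂ : ℂ) * E t₁ w with hK
        have hKd : DifferentiableOn ℂ K Hr :=
          ((h2 _ (ofReal_mem h20)).const_mul _).sub ((h2 _ (ofReal_mem ht₁)).const_mul _)
        have hKre : ∀ w : ℂ, (K w).re = t₁ * (E t₂ w).re - t₂ * (E t₁ w).re := by
          intro w
          simp [hK]
        have hKpos : ∀ w ∈ Hr, 0 ≤ (K w).re := by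
          intro w hw
          have := harnack_ray (h1 w hw) (fun z hz => pos z hz w hw) h20 h23
          rw [hKre]
          linarith
        have h3 := harnack_ray hKd hKpos one_pos hc
        rw [hKre, hKre, Complex.ofReal_one, mul_one] at h3
        have h4 : t₁ * (c + t₂ - ε * t₂) ≤ t₁ * (E t₂ c).re :=
          mul_le_mul_of_nonneg_left (by linarith) ht₁.le
        have h5 : t₁ * (E t₂ 1).re ≤ t₁ * (1 + t₂ + ε * t₂) :=
          mul_le_mul_of_nonneg_left (by linarith) ht₁.le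
        have h6 : t₁ * (E t₂ 1).re * c ≤ t₁ * (1 + t₂ + ε * t₂) * c :=
          mul_le_mul_of_nonneg_right h5 hc0.le
        have h7 : t₂ * (c * (E t₁ 1).re) ≤
            t₂ * ((c * t₁ + (E t₁ c).re) + ε * (t₁ * (c + 1))) := by nlinarith [mul_pos ht₁ h20]
        exact le_of_mul_le_mul_left h7 h20
      refine le_of_forall_pos_le_add fun ε' hε' => ?_
      have hp : 0 < t₁ * (c + 1) := by positivity
      have := hε (ε' / (t₁ * (c + 1))) (by positivity)
      rwa [div_mul_cancel₀ _ hp.ne'] at this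
    have hlim : Tendsto (fun c : ℝ => t₁ + (E t₁ (c : ℂ) / (c : ℂ)).re) atTop (𝓝 (t₁ + α)) := by
      refine tendsto_const_nhds.add ?_
      have := (Complex.continuous_re.tendsto _).comp (hα2 t₁ (ofReal_mem ht₁))
      rw [Complex.ofReal_re] at this
      exact this
    refine ge_of_tendsto hlim ?_
    filter_upwards [eventually_ge_atTop 1] with c hc
    have hc0 : 0 < c := by linarith
    have := hstep c hc
    rw [Complex.div_ofReal_re]
    have h8 : c * (E t₁ 1).re ≤ c * (t₁ + (E t₁ (c : ℂ)).re / c) := by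
      rw [mul_add, mul_div_cancel₀ _ hc0.ne']
      exact this
    exact le_of_mul_le_mul_left h8 hc0
  have hα : 1 ≤ α := by
    refine le_of_forall_pos_le_add fun ε hε => ?_
    obtain ⟨δ, hδ, hb⟩ := at_c 1 one_pos 1 one_pos
    set t := min (δ / 2) (ε / 2) with ht
    have ht0 : 0 < t := by positivity
    have ht1 : t < δ := lt_of_le_of_lt (min_le_left _ _) (by linarith)
    have ht2 : t ≤ ε / 2 := min_le_right _ _
    have b := hb t ht0 ht1
    rw [Complex.ofReal_one] at b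
    have r := (abs_le.1 ((Complex.abs_re_le_norm _).trans b)).1
    simp only [Complex.sub_re, Complex.ofReal_re, Complex.one_re] at r
    have := hkey t ht0
    linarith
  -- subtract `w`
  have hHpos : ∀ z ∈ Hr, ∀ w ∈ Hr, 0 ≤ (E z w - w).re := by
    intro z hz w hw
    have := hα1 z hz w hw
    have hw' : 0 < w.re := hw
    rw [Complex.sub_re]
    nlinarith
  have hH1 : ∀ u ∈ Hr, E u 1 - 1 = u := by
    intro u hu
    refine bk_one (h := fun z => E z 1 - 1) ((h1 1 one_mem).sub_const _)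
      (fun z hz => hHpos z hz 1 one_mem) at_one hu
  obtain ⟨β, hβ1, hβ2⟩ := jw_two (E := fun w z => E z w - w)
    (fun z hz => (h2 z hz).sub differentiableOn_id)
    (fun w hw => (h1 w hw).sub_const _) (fun w hw z hz => hHpos z hz w hw)
  have hβ : β = 1 := by
    have l1 := hβ2 1 one_mem
    have l2 : Tendsto (fun t : ℝ => (E (t : ℂ) 1 - 1) / (t : ℂ)) atTop (𝓝 (1 : ℂ)) := by
      refine tendsto_const_nhds.congr' ?_
      filter_upwards [eventually_gt_atTop 0] with t ht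
      have htc : (t : ℂ) ≠ 0 := by exact_mod_cast ht.ne'
      rw [hH1 t (ofReal_mem ht), div_self htc]
    have := tendsto_nhds_unique l1 l2
    exact_mod_cast this
  subst hβ
  have hfin := zero_prop (G := fun w => E z w - w - z)
    (((h2 z hz).sub differentiableOn_id).sub_const _)
    (fun w hw => by
      have := hβ1 w hw z hz
      simp only [Complex.sub_re] at this ⊢
      linarith) one_mem (by
      show E z 1 - 1 - z = 0
      rw [hH1 z hz, sub_self]) hw
  linear_combination hfin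

end Q75.Bk
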