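import Mathlib

set_option autoImplicit false

/-!
The entire function `f(z) = λ z ∏ (1 - z² / a_j²)` with recursively chosen zeros, and the basic
estimates.
-/

open Filter Topology Metric Set

namespace Pool.Agent.Q75.Bw

/-- the moduli of the zeros -/
noncomputable def a : ℕ → ℝ
  | 0 => 1
  | (n + 1) => 4000 * a n * ∏ j : Fin (n + 1), |1 - (a n / 2) ^ 2 / (a j) ^ 2|

theorem a_zero : a 0 = 1 := by rw [a]

theorem a_succ (n : ℕ) :
    a (n + 1) = 4000 * a n * ∏ j ∈ Finset.range (n + 1), |1 - (a n / 2) ^ 2 / (a j) ^ 2| := by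
  rw [a, Finset.prod_range]

theorem a_aux (n : ℕ) : (∀ j ≤ n, 0 < a j) ∧ ∀ j < n, 3000 * a j ≤ a (j + 1) := by
  induction n with
  | zero =>
    refine ⟨fun j hj => ?_, fun j hj => absurd hj (Nat.not_lt_zero j)⟩
    have : j = 0 := by omega
    rw [this, a_zero]; norm_num
  | succ n ih =>
    obtain ⟨h1, h2⟩ := ih
    have hn := h1 n le_rfl
    -- comparison of a j and a n
    have hmono : ∀ j ≤ n, ∀ i, j + i ≤ n → a j ≤ a (j + i) := by
      intro j _ i
      induction i with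
      | zero => intro _; exact le_rfl
      | succ i ih =>
        intro hi
        have h3 := ih (by omega)
        have h4 := h2 (j + i) (by omega)
        have h5 := h1 (j + i) (by omega)
        have e : j + (i + 1) = j + i + 1 := rfl
        rw [e]
        linarith
    have hcmp : ∀ j < n, 3000 * a j ≤ a n := by
      intro j hj
      have h3 := h2 j hj
      have h4 := hmono (j + 1) (by omega) (n - (j + 1)) (by omega)
      have e : j + 1 + (n - (j + 1)) = n := by omega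
      rw [e] at h4
      linarith
    have hprod : (3 : ℝ) / 4 ≤ ∏ j ∈ Finset.range (n + 1), |1 - (a n / 2) ^ 2 / (a j) ^ 2| := by
      rw [Finset.prod_range_succ]
      have h5 : |1 - (a n / 2) ^ 2 / (a n) ^ 2| = 3 / 4 := by
        have : 1 - (a n / 2) ^ 2 / (a n) ^ 2 = 3 / 4 := by field_simp; ring
        rw [this]; norm_num
      rw [h5]
      have h6 : 1 ≤ ∏ j ∈ Finset.range n, |1 - (a n / 2) ^ 2 / (a j) ^ 2| := by
        apply Finset.one_le_prod
        intro j hj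
        have hj' := Finset.mem_range.1 hj
        have h7 := hcmp j hj'
        have h8 := h1 j hj'.le
        have h9 : 2 ≤ (a n / 2) ^ 2 / (a j) ^ 2 := by
          rw [le_div_iff₀ (by positivity)]
          nlinarith
        rw [abs_sub_comm]
        exact le_trans (by linarith) (le_abs_self _)
      linarith
    have h3000 : 3000 * a n ≤ a (n + 1) := by
      rw [a_succ]
      nlinarith
    refine ⟨fun j hj => ?_, fun j hj => ?_⟩
    · rcases Nat.lt_or_ge j (n + 1) with h | h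
      · exact h1 j (by omega)
      · have : j = n + 1 := by omega
        rw [this]; linarith
    · rcases Nat.lt_or_ge j n with h | h
      · exact h2 j h
      · have : j = n := by omega
        rw [this]; exact h3000

theorem a_pos (n : ℕ) : 0 < a n := (a_aux n).1 n le_rfl

theorem a_step (n : ℕ) : 3000 * a n ≤ a (n + 1) := (a_aux (n + 1)).2 n (Nat.lt_succ_self n)

theorem a_add (n i : ℕ) : a n * 3000 ^ i ≤ a (n + i) := by
  induction i with
  | zero => simp
  | succ i ih =>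
    have h := a_step (n + i)
    have e : n + (i + 1) = n + i + 1 := rfl
    rw [e, pow_succ]
    linarith

theorem a_mono : Monotone a := by
  apply monotone_nat_of_le_succ
  intro n
  linarith [a_step n, a_pos n]

theorem a_ge (n : ℕ) : (3000 : ℝ) ^ n ≤ a n := by
  have := a_add 0 n
  rwa [a_zero, one_mul, zero_add] at this

theorem one_le_a (n : ℕ) : 1 ≤ a n := le_trans (one_le_pow₀ (by norm_num)) (a_ge n)

theorem a_lt {j n : ℕ} (h : j < n) : 3000 * a j ≤ a n :=
  (a_step j).trans (a_mono h)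

theorem a_tendsto : Tendsto a atTop atTop :=
  tendsto_atTop_mono a_ge (tendsto_pow_atTop_atTop_of_one_lt (by norm_num))

/-- partial products -/
noncomputable def P (n : ℕ) (z : ℂ) : ℂ :=
  8000000 * z * ∏ j ∈ Finset.range n, (1 - z ^ 2 / (a j : ℂ) ^ 2)

/-- the minimum of `‖P n‖` on circles -/
noncomputable def mn (n : ℕ) (r : ℝ) : ℝ :=
  8000000 * r * ∏ j ∈ Finset.range n, |1 - r ^ 2 / (a j) ^ 2|

/-- the maximum of `‖P n‖` on circles -/
noncomputable def mx (n : ℕ) (r : ℝ) : ℝ :=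
  8000000 * r * ∏ j ∈ Finset.range n, (1 + r ^ 2 / (a j) ^ 2)

theorem norm_term (z : ℂ) (j : ℕ) : ‖z ^ 2 / (a j : ℂ) ^ 2‖ = ‖z‖ ^ 2 / a j ^ 2 := by
  rw [norm_div, norm_pow, norm_pow, Complex.norm_real, Real.norm_eq_abs, sq_abs]

theorem norm_P (n : ℕ) (z : ℂ) :
    ‖P n z‖ = 8000000 * ‖z‖ * ∏ j ∈ Finset.range n, ‖1 - z ^ 2 / (a j : ℂ) ^ 2‖ := by
  rw [P, norm_mul, norm_mul, norm_prod]
  norm_num

theorem norm_P_le (n : ℕ) (z : ℂ) : ‖P n z‖ ≤ mx n ‖z‖ := by
  rw [norm_P, mx]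
  gcongr with j _
  refine (norm_sub_le _ _).trans ?_
  rw [norm_term, norm_one]

theorem mn_le (n : ℕ) (z : ℂ) : mn n ‖z‖ ≤ ‖P n z‖ := by
  rw [norm_P, mn]
  gcongr with j _
  have := abs_norm_sub_norm_le (1 : ℂ) (z ^ 2 / (a j : ℂ) ^ 2)
  rwa [norm_term, norm_one] at this

theorem a_succ' (n : ℕ) : 1000 * a (n + 1) = mn (n + 1) (a n / 2) := by
  rw [a_succ, mn]; ring

/-- the function -/
noncomputable def f (z : ℂ) : ℂ := 8000000 * z * ∏' j, (1 + -(z ^ 2 / (a j : ℂ) ^ 2))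

theorem tail_sum (z : ℂ) (n N : ℕ) :
    ∑ j ∈ Finset.Ico n N, ‖-(z ^ 2 / (a j : ℂ) ^ 2)‖ ≤ 2 * (‖z‖ / a n) ^ 2 := by
  have h1 : ∀ i, ‖-(z ^ 2 / (a (n + i) : ℂ) ^ 2)‖ ≤ (‖z‖ / a n) ^ 2 * (1 / 2) ^ i := by
    intro i
    rw [norm_neg, norm_term, div_pow, div_mul_eq_mul_div, div_le_div_iff₀ (pow_pos (a_pos _) 2)
      (pow_pos (a_pos _) 2), mul_assoc]
    apply mul_le_mul_of_nonneg_left _ (by positivity)
    have h2 := a_add n i
    have h3 : a n ^ 2 * (3000 ^ i) ^ 2 ≤ a (n + i) ^ 2 := by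
      rw [← mul_pow]
      exact pow_le_pow_left₀ (mul_nonneg (a_pos n).le (by positivity)) h2 2
    have h4 : (2 : ℝ) ^ i ≤ (3000 ^ i) ^ 2 := by
      rw [← pow_mul, mul_comm i 2, pow_mul]
      exact pow_le_pow_left₀ (by norm_num) (by norm_num) i
    have h5 : a n ^ 2 * 2 ^ i ≤ a (n + i) ^ 2 :=
      (mul_le_mul_of_nonneg_left h4 (by positivity)).trans h3
    calc a n ^ 2 = (1 / 2) ^ i * (a n ^ 2 * 2 ^ i) := by
          rw [one_div, inv_pow]; field_simp
      _ ≤ (1 / 2) ^ i * a (n + i) ^ 2 := by gcongr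
  rw [Finset.sum_Ico_eq_sum_range]
  calc ∑ i ∈ Finset.range (N - n), ‖-(z ^ 2 / (a (n + i) : ℂ) ^ 2)‖
      ≤ ∑ i ∈ Finset.range (N - n), (‖z‖ / a n) ^ 2 * (1 / 2) ^ i :=
        Finset.sum_le_sum fun i _ => h1 i
    _ = (‖z‖ / a n) ^ 2 * ∑ i ∈ Finset.range (N - n), (1 / 2 : ℝ) ^ i := by
        rw [Finset.mul_sum]
    _ ≤ (‖z‖ / a n) ^ 2 * 2 := by
        gcongr
        have := geom_sum_Ico_le_of_lt_one (x := (1 / 2 : ℝ)) (m := 0) (n := N - n)
          (by norm_num) (by norm_num)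
        rw [← Finset.range_eq_Ico] at this
        norm_num at this
        convert this using 2
    _ = 2 * (‖z‖ / a n) ^ 2 := by ring

theorem summable_term (z : ℂ) : Summable fun j => ‖-(z ^ 2 / (a j : ℂ) ^ 2)‖ := by
  apply summable_of_sum_range_le (c := 2 * (‖z‖ / a 0) ^ 2) (fun _ => norm_nonneg _)
  intro n
  have := tail_sum z 0 n
  rwa [← Finset.range_eq_Ico] at this

theorem locUnif : TendstoLocallyUniformlyOn P f atTop univ := by
  have h1 : ∀ K : Set ℂ, IsCompact K → TendstoUniformlyOn P f atTop K := by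
    intro K hK
    obtain ⟨B, hB⟩ := hK.isBounded.exists_norm_le
    have hs : Summable fun j => ‖-(((|B| : ℝ) : ℂ) ^ 2 / (a j : ℂ) ^ 2)‖ := summable_term _
    have h2 := (Summable.hasProdUniformlyOn_nat_one_add
      (f := fun j (z : ℂ) => -(z ^ 2 / (a j : ℂ) ^ 2)) hK hs
      (Eventually.of_forall fun j z hz => by
        rw [norm_neg, norm_neg, norm_term, norm_term, Complex.norm_real, Real.norm_eq_abs, abs_abs]
        have := (hB z hz).trans (le_abs_self B)
        gcongr) (fun j => by fun_prop)).tendstoUniformlyOn_finsetRange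
    have h3 : TendstoUniformlyOn (fun (_ : ℕ) (z : ℂ) => (8000000 : ℂ) * z)
        (fun z => 8000000 * z) atTop K := by
      rw [Metric.tendstoUniformlyOn_iff]
      intro ε hε
      exact Eventually.of_forall fun n z _ => by simpa using hε
    -- products of uniformly convergent bounded families
    rw [Metric.tendstoUniformlyOn_iff] at h2 ⊢
    intro ε hε
    have hpos : 0 < 8000000 * (|B| + 1) := by positivity
    filter_upwards [h2 (ε / (8000000 * (|B| + 1))) (by positivity)] with n hn z hz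
    have h4 := hn z hz
    rw [dist_eq_norm] at h4 ⊢
    have h5 : f z - P n z = 8000000 * z * (∏' j, (1 + -(z ^ 2 / (a j : ℂ) ^ 2)) -
        ∏ j ∈ Finset.range n, (1 + -(z ^ 2 / (a j : ℂ) ^ 2))) := by
      rw [f, P]
      simp only [sub_eq_add_neg]
      ring
    rw [h5, norm_mul, norm_mul]
    have h6 : ‖(8000000 : ℂ)‖ * ‖z‖ < 8000000 * (|B| + 1) := by
      have := (hB z hz).trans (le_abs_self B)
      norm_num
      linarith
    calc ‖(8000000 : ℂ)‖ * ‖z‖ * ‖(∏' j, (1 + -(z ^ 2 / (a j : ℂ) ^ 2)) -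
          ∏ j ∈ Finset.range n, (1 + -(z ^ 2 / (a j : ℂ) ^ 2)))‖
        ≤ 8000000 * (|B| + 1) * ‖(∏' j, (1 + -(z ^ 2 / (a j : ℂ) ^ 2)) -
          ∏ j ∈ Finset.range n, (1 + -(z ^ 2 / (a j : ℂ) ^ 2)))‖ := by gcongr
      _ < 8000000 * (|B| + 1) * (ε / (8000000 * (|B| + 1))) := by gcongr
      _ = ε := by field_simp
  rw [tendstoLocallyUniformlyOn_iff_forall_isCompact isOpen_univ]
  exact fun K _ hK => h1 K hK

theorem P_differentiable (n : ℕ) : Differentiable ℂ (P n) := by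
  unfold P
  fun_prop

theorem tendsto_P (z : ℂ) : Tendsto (fun n => P n z) atTop (𝓝 (f z)) :=
  locUnif.tendsto_at (mem_univ z)

theorem f_differentiable : Differentiable ℂ f := by
  have h := locUnif.differentiableOn (Eventually.of_forall fun n =>
    (P_differentiable n).differentiableOn) isOpen_univ
  exact differentiableOn_univ.1 h

theorem f_zero : f 0 = 0 := by simp [f]

/-- comparison with a partial product -/
theorem P_sub {n N : ℕ} (hN : n ≤ N) {z : ℂ} (hz : ‖z‖ ≤ a n / 200) :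
    ‖P N z - P n z‖ ≤ ‖P n z‖ / 4 := by
  have h1 : P N z = P n z * ∏ j ∈ Finset.Ico n N, (1 + -(z ^ 2 / (a j : ℂ) ^ 2)) := by
    rw [P, P, ← Finset.prod_range_mul_prod_Ico _ hN]
    simp only [sub_eq_add_neg]
    ring
  have h2 := (Finset.norm_prod_one_add_sub_one_le (Finset.Ico n N)
    (fun j => -(z ^ 2 / (a j : ℂ) ^ 2)))
  have h3 := tail_sum z n N
  have h4 : ‖z‖ / a n ≤ 1 / 200 := by
    rw [div_le_iff₀ (a_pos n)]; linarith
  have h5 : 2 * (‖z‖ / a n) ^ 2 ≤ 1 / 8 := by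
    have : 0 ≤ ‖z‖ / a n := div_nonneg (norm_nonneg _) (a_pos n).le
    nlinarith
  have h6 : Real.exp (∑ j ∈ Finset.Ico n N, ‖-(z ^ 2 / (a j : ℂ) ^ 2)‖) - 1 ≤ 1 / 4 := by
    have h7 : Real.exp (∑ j ∈ Finset.Ico n N, ‖-(z ^ 2 / (a j : ℂ) ^ 2)‖) ≤ Real.exp (1 / 8) :=
      Real.exp_le_exp.2 (h3.trans h5)
    have h8 : Real.exp (1 / 8) ≤ 5 / 4 := by
      have := Real.exp_bound_div_one_sub_of_interval (x := 1 / 8) (by norm_num) (by norm_num)
      refine this.trans ?_
      norm_num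
    linarith
  have e : P N z - P n z = P n z * (∏ j ∈ Finset.Ico n N, (1 + -(z ^ 2 / (a j : ℂ) ^ 2)) - 1) := by
    rw [h1]; ring
  rw [e, norm_mul]
  have h9 := h2.trans h6
  calc ‖P n z‖ * _ ≤ ‖P n z‖ * (1 / 4) := by gcongr
    _ = ‖P n z‖ / 4 := by ring

theorem f_sub {n : ℕ} {z : ℂ} (hz : ‖z‖ ≤ a n / 200) : ‖f z - P n z‖ ≤ ‖P n z‖ / 4 := by
  have h1 : Tendsto (fun N => ‖P N z - P n z‖) atTop (𝓝 ‖f z - P n z‖) :=
    ((tendsto_P z).sub_const _).norm
  exact le_of_tendsto h1 (by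
    filter_upwards [eventually_ge_atTop n] with N hN
    exact P_sub hN hz)

theorem f_le {n : ℕ} {z : ℂ} (hz : ‖z‖ ≤ a n / 200) : ‖f z‖ ≤ 5 / 4 * ‖P n z‖ := by
  have h1 := f_sub hz
  have h2 := norm_le_norm_sub_add (f z) (P n z)
  linarith

theorem f_ge {n : ℕ} {z : ℂ} (hz : ‖z‖ ≤ a n / 200) : 3 / 4 * ‖P n z‖ ≤ ‖f z‖ := by
  have h1 := f_sub hz
  have h2 := norm_le_norm_sub_add (P n z) (f z)
  rw [norm_sub_rev] at h2
  linarith

/-- `mn` beyond `a n / 2` -/
theorem mn_ge {n : ℕ} {r : ℝ} (hr : 2 * a n ≤ r) : mn (n + 1) (a n / 2) ≤ mn (n + 1) r := by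
  have hp := a_pos n
  rw [mn, mn]
  apply mul_le_mul (by nlinarith) _ (Finset.prod_nonneg fun _ _ => abs_nonneg _) (by nlinarith)
  rw [Finset.prod_range_succ, Finset.prod_range_succ]
  apply mul_le_mul
  · apply Finset.prod_le_prod (fun _ _ => abs_nonneg _)
    intro j hj
    have h1 := a_lt (Finset.mem_range.1 hj)
    have h2 := a_pos j
    have h3 : 1 ≤ (a n / 2) ^ 2 / a j ^ 2 := by
      rw [le_div_iff₀ (by positivity)]
      nlinarith
    have h4 : (a n / 2) ^ 2 / a j ^ 2 ≤ r ^ 2 / a j ^ 2 := by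
      gcongr
      linarith
    rw [abs_sub_comm, abs_of_nonneg (by linarith), abs_sub_comm, abs_of_nonneg (by linarith)]
    linarith
  · have h3 : 4 ≤ r ^ 2 / a n ^ 2 := by
      rw [le_div_iff₀ (by positivity)]
      nlinarith
    have h5 : |1 - (a n / 2) ^ 2 / (a n) ^ 2| = 3 / 4 := by
      have : 1 - (a n / 2) ^ 2 / (a n) ^ 2 = 3 / 4 := by field_simp; ring
      rw [this]; norm_num
    rw [h5, abs_sub_comm, abs_of_nonneg (by linarith)]
    linarith
  · exact abs_nonneg _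
  · exact Finset.prod_nonneg fun _ _ => abs_nonneg _

/-- (E1) on the circle `‖z‖ = a n / 2` -/
theorem E1 {n : ℕ} {z : ℂ} (hz : ‖z‖ = a n / 2) : 750 * a (n + 1) ≤ ‖f z‖ := by
  have h1 := a_step n
  have h2 := a_pos n
  have h3 := f_ge (n := n + 1) (z := z) (by rw [hz]; linarith)
  have h4 := mn_le (n + 1) z
  rw [hz, ← a_succ'] at h4
  linarith

/-- (E2) between `2 a n` and `a (n + 1) / 200` -/
theorem E2 {n : ℕ} {z : ℂ} (h1 : 2 * a n ≤ ‖z‖) (h2 : ‖z‖ ≤ a (n + 1) / 200) :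
    750 * a (n + 1) ≤ ‖f z‖ := by
  have h3 := f_ge (n := n + 1) (z := z) h2
  have h4 := (mn_ge h1).trans (mn_le (n + 1) z)
  rw [← a_succ'] at h4
  linarith

theorem mx_mono (n : ℕ) {r s : ℝ} (hr : 0 ≤ r) (h : r ≤ s) : mx n r ≤ mx n s := by
  rw [mx, mx]
  gcongr
  linarith

/-- the maximum on the circle of radius `a (n + 1) / 200` -/
theorem mx_lt (n : ℕ) : 5 / 4 * mx (n + 1) (a (n + 1) / 200) < a (n + 2) / 200 := by
  set A := a (n + 1) with hA
  have hA0 : 0 < A := a_pos _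
  have h1 := a_succ (n + 1)
  rw [← hA, Finset.prod_range_succ] at h1
  have h5 : |1 - (A / 2) ^ 2 / (a (n + 1)) ^ 2| = 3 / 4 := by
    have : 1 - (A / 2) ^ 2 / (a (n + 1)) ^ 2 = 3 / 4 := by rw [← hA]; field_simp; ring
    rw [this]; norm_num
  rw [h5] at h1
  -- factorwise comparison
  have h2 : (5000 : ℝ) * ∏ j ∈ Finset.range (n + 1), (1 + (A / 200) ^ 2 / a j ^ 2) ≤
      ∏ j ∈ Finset.range (n + 1), |1 - (A / 2) ^ 2 / (a j) ^ 2| := by
    have h3 : ∏ j ∈ Finset.range (n + 1), (5000 * (1 + (A / 200) ^ 2 / a j ^ 2)) ≤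
        ∏ j ∈ Finset.range (n + 1), |1 - (A / 2) ^ 2 / (a j) ^ 2| := by
      apply Finset.prod_le_prod
      · intro j _
        have := a_pos j
        positivity
      · intro j hj
        have h6 := a_lt (Finset.mem_range.1 hj)
        rw [← hA] at h6
        have h7 := a_pos j
        have h8 : (3000 : ℝ) ^ 2 ≤ A ^ 2 / a j ^ 2 := by
          rw [le_div_iff₀ (by positivity), ← mul_pow]
          exact pow_le_pow_left₀ (by positivity) h6 2
        have e1 : (A / 200) ^ 2 / a j ^ 2 = A ^ 2 / a j ^ 2 / 40000 := by ring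
        have e2 : (A / 2) ^ 2 / a j ^ 2 = A ^ 2 / a j ^ 2 / 4 := by ring
        rw [e1, e2, abs_sub_comm]
        refine le_trans ?_ (le_abs_self _)
        linarith
    rw [Finset.prod_mul_distrib, Finset.prod_const, Finset.card_range] at h3
    refine le_trans ?_ h3
    apply mul_le_mul_of_nonneg_right
    · exact le_self_pow₀ (by norm_num) (by omega)
    · exact Finset.prod_nonneg fun j _ => by
        have := a_pos j
        positivity
  have h9 : 0 < ∏ j ∈ Finset.range (n + 1), (1 + (A / 200) ^ 2 / a j ^ 2) :=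
    Finset.prod_pos fun j _ => by
      have := a_pos j
      positivity
  rw [mx, h1]
  set X := ∏ j ∈ Finset.range (n + 1), (1 + (A / 200) ^ 2 / a j ^ 2)
  set Y := ∏ j ∈ Finset.range (n + 1), |1 - (A / 2) ^ 2 / (a j) ^ 2|
  have h10 : A * (5000 * X) ≤ A * Y := by gcongr
  have h11 : 0 < A * X := mul_pos hA0 h9
  nlinarith

/-- (E3) upper bound up to `a (n + 1) / 200` -/
theorem E3 {n : ℕ} {z : ℂ} (h2 : ‖z‖ ≤ a (n + 1) / 200) : ‖f z‖ < a (n + 2) / 200 := by
  have h3 := f_le (n := n + 1) (z := z) h2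
  have h4 := norm_P_le (n + 1) z
  have h5 := mx_mono (n + 1) (norm_nonneg z) h2
  have h6 := mx_lt n
  linarith

end Pool.Agent.Q75.Bw
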