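import Pool.Agent.Q75.BwA

set_option autoImplicit false

/-!
Critical points, the maximum on the imaginary axis, the minimum on the real axis.
-/

open Filter Topology Metric Set

namespace Pool.Agent.Q75.Bw

/-- the logarithmic derivative of `P n` -/
noncomputable def D (n : ℕ) (z : ℂ) : ℂ :=
  1 / z + ∑ j ∈ Finset.range n, (1 / (z - a j) + 1 / (z + a j))

/-- not a zero -/
def Reg (z : ℂ) : Prop := z ≠ 0 ∧ ∀ j, z - a j ≠ 0 ∧ z + a j ≠ 0

theorem ac_ne (j : ℕ) : (a j : ℂ) ≠ 0 := by exact_mod_cast (a_pos j).ne'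

theorem factor_eq (z : ℂ) (j : ℕ) :
    1 - z ^ 2 / (a j : ℂ) ^ 2 = -((z - a j) * (z + a j)) / (a j : ℂ) ^ 2 := by
  have := ac_ne j
  field_simp
  ring

theorem Reg.factor_ne {z : ℂ} (h : Reg z) (j : ℕ) : 1 - z ^ 2 / (a j : ℂ) ^ 2 ≠ 0 := by
  rw [factor_eq]
  exact div_ne_zero (neg_ne_zero.2 (mul_ne_zero (h.2 j).1 (h.2 j).2)) (pow_ne_zero 2 (ac_ne j))

theorem Reg.P_ne {z : ℂ} (h : Reg z) (n : ℕ) : P n z ≠ 0 := by
  rw [P]
  refine mul_ne_zero (mul_ne_zero (by norm_num) h.1) ?_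
  exact Finset.prod_ne_zero_iff.2 fun j _ => h.factor_ne j

theorem P_succ (n : ℕ) (z : ℂ) : P (n + 1) z = P n z * (1 - z ^ 2 / (a n : ℂ) ^ 2) := by
  rw [P, P, Finset.prod_range_succ]; ring

theorem hasDerivAt_P (n : ℕ) {z : ℂ} (h : Reg z) : HasDerivAt (P n) (P n z * D n z) z := by
  induction n with
  | zero =>
    have e : P 0 = fun z => 8000000 * z := by
      funext w; simp [P]
    rw [e]
    have h1 : HasDerivAt (fun z : ℂ => 8000000 * z) (8000000 * 1) z :=
      (hasDerivAt_id z).const_mul _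
    convert h1 using 1
    simp only [D, Finset.range_zero, Finset.sum_empty, add_zero]
    field_simp [h.1]
  | succ n ih =>
    have e : P (n + 1) = fun z => P n z * (1 - z ^ 2 / (a n : ℂ) ^ 2) := by
      funext w; exact P_succ n w
    rw [e]
    have h1 : HasDerivAt (fun z : ℂ => 1 - z ^ 2 / (a n : ℂ) ^ 2) (-(2 * z / (a n : ℂ) ^ 2)) z := by
      have := ((hasDerivAt_pow 2 z).div_const ((a n : ℂ) ^ 2)).const_sub 1
      simpa using this
    refine HasDerivAt.congr_deriv (ih.mul h1) ?_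
    have h2 := (h.2 n).1
    have h3 := (h.2 n).2
    have h4 := ac_ne n
    simp only [D, Finset.sum_range_succ]
    set X := ∑ j ∈ Finset.range n, (1 / (z - a j) + 1 / (z + a j))
    rw [factor_eq]
    field_simp
    ring

theorem tendsto_deriv_P (z : ℂ) : Tendsto (fun n => deriv (P n) z) atTop (𝓝 (deriv f z)) := by
  have h := locUnif.deriv (Eventually.of_forall fun n =>
    (P_differentiable n).differentiableOn) isOpen_univ
  exact h.tendsto_at (mem_univ z)

theorem f_ne {z : ℂ} (h : Reg z) : f z ≠ 0 := by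
  obtain ⟨n, hn⟩ := (a_tendsto.eventually_ge_atTop (200 * ‖z‖)).exists
  have h1 := f_ge (n := n) (z := z) (by linarith)
  have h2 : 0 < ‖P n z‖ := norm_pos_iff.2 (h.P_ne n)
  rw [← norm_pos_iff]
  linarith

theorem tendsto_D {z : ℂ} (h : Reg z) : Tendsto (fun n => D n z) atTop (𝓝 (deriv f z / f z)) := by
  have h1 := (tendsto_deriv_P z).div (tendsto_P z) (f_ne h)
  refine h1.congr fun n => ?_
  show deriv (P n) z / P n z = D n z
  rw [(hasDerivAt_P n h).deriv, mul_comm, mul_div_assoc, div_self (h.P_ne n), mul_one]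

theorem im_inv_sub (z : ℂ) (b : ℝ) : (1 / (z - b)).im = -z.im * (1 / Complex.normSq (z - b)) := by
  rw [one_div, Complex.inv_im, Complex.sub_im, Complex.ofReal_im]; ring

/-- nonreal points are not critical -/
theorem deriv_ne_of_im {z : ℂ} (hz : z.im ≠ 0) : deriv f z ≠ 0 := by
  have hr : Reg z := by
    refine ⟨fun h => hz (by rw [h]; rfl), fun j => ⟨fun h => hz ?_, fun h => hz ?_⟩⟩
    · have := congrArg Complex.im h
      simpa using this
    · have := congrArg Complex.im h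
      simpa using this
  intro h0
  have h1 := tendsto_D hr
  rw [h0, zero_div] at h1
  have h2 : ∀ n, z.im ^ 2 / Complex.normSq z ≤ -(z.im * (D n z).im) := by
    intro n
    have h3 : (D n z).im = -z.im * (1 / Complex.normSq z + ∑ j ∈ Finset.range n,
        (1 / Complex.normSq (z - a j) + 1 / Complex.normSq (z + a j))) := by
      rw [D, Complex.add_im, Complex.im_sum, mul_add, Finset.mul_sum]
      congr 1
      · have := im_inv_sub z 0
        simpa using this
      · apply Finset.sum_congr rfl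
        intro j _
        rw [Complex.add_im, im_inv_sub]
        have := im_inv_sub z (-a j)
        rw [Complex.ofReal_neg, sub_neg_eq_add] at this
        rw [this]; ring
    rw [h3]
    have h4 : 0 ≤ ∑ j ∈ Finset.range n,
        (1 / Complex.normSq (z - a j) + 1 / Complex.normSq (z + a j)) :=
      Finset.sum_nonneg fun j _ => add_nonneg (div_nonneg zero_le_one (Complex.normSq_nonneg _))
        (div_nonneg zero_le_one (Complex.normSq_nonneg _))
    have h5 : 0 ≤ z.im ^ 2 * ∑ j ∈ Finset.range n,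
        (1 / Complex.normSq (z - a j) + 1 / Complex.normSq (z + a j)) := by positivity
    calc z.im ^ 2 / Complex.normSq z = z.im ^ 2 * (1 / Complex.normSq z) := by ring
      _ ≤ z.im ^ 2 * (1 / Complex.normSq z) + z.im ^ 2 * ∑ j ∈ Finset.range n,
          (1 / Complex.normSq (z - a j) + 1 / Complex.normSq (z + a j)) := by linarith
      _ = _ := by ring
  have h3 : Tendsto (fun n => -(z.im * (D n z).im)) atTop (𝓝 (-(z.im * (0 : ℂ).im))) :=
    (((Complex.continuous_im.tendsto _).comp h1).const_mul _).neg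
  have h4 := ge_of_tendsto' h3 h2
  rw [Complex.zero_im, mul_zero, neg_zero] at h4
  have h5 : 0 < z.im ^ 2 / Complex.normSq z := by
    have := Complex.normSq_pos.2 hr.1
    positivity
  linarith

/-! ### the real axis -/

theorem norm_P_real (n : ℕ) {r : ℝ} (hr : 0 ≤ r) : ‖P n (r : ℂ)‖ = mn n r := by
  rw [norm_P, mn, Complex.norm_real, Real.norm_eq_abs, abs_of_nonneg hr]
  congr 1
  apply Finset.prod_congr rfl
  intro j _
  have : 1 - (r : ℂ) ^ 2 / (a j : ℂ) ^ 2 = ((1 - r ^ 2 / a j ^ 2 : ℝ) : ℂ) := by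
    push_cast; rfl
  rw [this, Complex.norm_real, Real.norm_eq_abs]

theorem min_real (z : ℂ) : ‖f ((‖z‖ : ℝ) : ℂ)‖ ≤ ‖f z‖ := by
  refine le_of_tendsto_of_tendsto' (tendsto_P _).norm (tendsto_P z).norm fun n => ?_
  rw [norm_P_real n (norm_nonneg z)]
  exact mn_le n z

/-- same interval -/
def Same (x c : ℝ) : Prop := 0 < x ∧ 0 < c ∧ ∀ j, 0 < (x - a j) / (c - a j)

theorem Same.reg {x c : ℝ} (h : Same x c) : Reg (c : ℂ) := by
  refine ⟨by exact_mod_cast h.2.1.ne', fun j => ⟨?_, ?_⟩⟩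
  · intro h1
    have h2 : c - a j = 0 := by exact_mod_cast h1
    have := h.2.2 j
    rw [h2, div_zero] at this
    exact lt_irrefl _ this
  · have := a_pos j
    have h3 := h.2.1
    have : c + a j ≠ 0 := by positivity
    exact_mod_cast this

/-- the real logarithmic derivative -/
noncomputable def Dr (n : ℕ) (c : ℝ) : ℝ :=
  1 / c + ∑ j ∈ Finset.range n, (1 / (c - a j) + 1 / (c + a j))

theorem D_real (n : ℕ) (c : ℝ) : D n (c : ℂ) = (Dr n c : ℂ) := by
  rw [D, Dr]; push_cast; rfl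

theorem ratio_le {u : ℝ} : u ≤ Real.exp (u - 1) := by
  have := Real.add_one_le_exp (u - 1); linarith

theorem P_tangent (n : ℕ) {x c : ℝ} (h : Same x c) :
    mn n x ≤ mn n c * Real.exp ((x - c) * Dr n c) := by
  obtain ⟨hx, hc, hj⟩ := h
  induction n with
  | zero =>
    simp only [mn, Dr, Finset.range_zero, Finset.prod_empty, Finset.sum_empty, mul_one, add_zero]
    have h1 : x / c ≤ Real.exp (x / c - 1) := ratio_le
    have e : (x - c) * (1 / c) = x / c - 1 := by field_simp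
    rw [e]
    calc 8000000 * x = 8000000 * c * (x / c) := by field_simp
      _ ≤ _ := by gcongr
  | succ n ih =>
    have e1 : ∀ r, mn (n + 1) r = mn n r * |1 - r ^ 2 / a n ^ 2| := by
      intro r; rw [mn, mn, Finset.prod_range_succ]; ring
    have hA := a_pos n
    have e2 : ∀ r, 0 < r → |1 - r ^ 2 / a n ^ 2| = |r - a n| * (r + a n) / a n ^ 2 := by
      intro r hr
      have : 1 - r ^ 2 / a n ^ 2 = -((r - a n) * (r + a n)) / a n ^ 2 := by field_simp; ring
      rw [this, abs_div, abs_neg, abs_mul, abs_of_pos (by positivity : 0 < r + a n),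
        abs_of_pos (by positivity : (0 : ℝ) < a n ^ 2)]
    have hcn : c - a n ≠ 0 := by
      intro h0
      have := hj n
      rw [h0, div_zero] at this
      exact lt_irrefl _ this
    have h1 : |x - a n| ≤ |c - a n| * Real.exp ((x - a n) / (c - a n) - 1) := by
      have h2 := @ratio_le ((x - a n) / (c - a n))
      have h3 : |x - a n| = |c - a n| * ((x - a n) / (c - a n)) := by
        rw [← abs_of_pos (hj n), abs_div, mul_div_cancel₀]
        exact abs_ne_zero.2 hcn
      rw [h3]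
      gcongr
    have h2 : x + a n ≤ (c + a n) * Real.exp ((x + a n) / (c + a n) - 1) := by
      have h2 := @ratio_le ((x + a n) / (c + a n))
      have h3 : x + a n = (c + a n) * ((x + a n) / (c + a n)) := by field_simp
      nth_rewrite 1 [h3]
      gcongr
    have e3 : (x - c) * Dr (n + 1) c = (x - c) * Dr n c + ((x - a n) / (c - a n) - 1) +
        ((x + a n) / (c + a n) - 1) := by
      have h4 : c + a n ≠ 0 := by positivity
      have e4 : Dr (n + 1) c = Dr n c + (1 / (c - a n) + 1 / (c + a n)) := by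
        rw [Dr, Dr, Finset.sum_range_succ]; ring
      rw [e4]
      field_simp
      ring
    rw [e1, e1, e2 x hx, e2 c hc, e3, Real.exp_add, Real.exp_add]
    have h0 : 0 ≤ mn n c := by
      rw [mn]
      exact mul_nonneg (by positivity) (Finset.prod_nonneg fun _ _ => abs_nonneg _)
    calc mn n x * (|x - a n| * (x + a n) / a n ^ 2)
        ≤ (mn n c * Real.exp ((x - c) * Dr n c)) *
          ((|c - a n| * Real.exp ((x - a n) / (c - a n) - 1)) *
          ((c + a n) * Real.exp ((x + a n) / (c + a n) - 1)) / a n ^ 2) := by gcongr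
      _ = _ := by ring

theorem f_tangent {x c : ℝ} (h : Same x c) : ∃ δ : ℝ, (deriv f c = 0 → δ = 0) ∧
    Tendsto (fun n => Dr n c) atTop (𝓝 δ) ∧
    ‖f (x : ℂ)‖ ≤ ‖f (c : ℂ)‖ * Real.exp ((x - c) * δ) := by
  have h1 := tendsto_D h.reg
  have h2 : Tendsto (fun n => Dr n c) atTop (𝓝 (deriv f c / f c).re) := by
    have h3 := (Complex.continuous_re.tendsto _).comp h1
    refine h3.congr fun n => ?_
    show (D n c).re = Dr n c
    rw [D_real, Complex.ofReal_re]
  refine ⟨(deriv f c / f c).re, fun h0 => by rw [h0]; simp, h2, ?_⟩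
  refine le_of_tendsto_of_tendsto' (tendsto_P _).norm
    ((tendsto_P c).norm.mul ((Real.continuous_exp.tendsto _).comp (h2.const_mul (x - c)))) ?_
  intro n
  rw [norm_P_real n h.1.le, norm_P_real n h.2.1.le]
  exact P_tangent n h

theorem crit_max {x c : ℝ} (h : Same x c) (h0 : deriv f c = 0) : ‖f (x : ℂ)‖ ≤ ‖f (c : ℂ)‖ := by
  obtain ⟨δ, h1, -, h2⟩ := f_tangent h
  rw [h1 h0, mul_zero, Real.exp_zero, mul_one] at h2
  exact h2

theorem quasi {p q x : ℝ} (hp : Same p x) (hq : Same q x) (h1 : p ≤ x) (h2 : x ≤ q) {m : ℝ}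
    (hm1 : m ≤ ‖f (p : ℂ)‖) (hm2 : m ≤ ‖f (q : ℂ)‖) : m ≤ ‖f (x : ℂ)‖ := by
  obtain ⟨δ, -, h3, h4⟩ := f_tangent hp
  obtain ⟨δ', -, h3', h5⟩ := f_tangent hq
  have : δ' = δ := tendsto_nhds_unique h3' h3
  rw [this] at h5
  rcases le_total 0 δ with h6 | h6
  · have h7 : Real.exp ((p - x) * δ) ≤ 1 :=
      Real.exp_le_one_iff.2 (mul_nonpos_of_nonpos_of_nonneg (by linarith) h6)
    calc m ≤ _ := hm1
      _ ≤ _ := h4
      _ ≤ ‖f (x : ℂ)‖ * 1 := by gcongr
      _ = _ := mul_one _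
  · have h7 : Real.exp ((q - x) * δ) ≤ 1 :=
      Real.exp_le_one_iff.2 (mul_nonpos_of_nonneg_of_nonpos (by linarith) h6)
    calc m ≤ _ := hm2
      _ ≤ _ := h5
      _ ≤ ‖f (x : ℂ)‖ * 1 := by gcongr
      _ = _ := mul_one _

/-! ### the imaginary axis -/

theorem P_imag (n : ℕ) (r : ℝ) : P n (Complex.I * r) = Complex.I * (mx n r : ℂ) := by
  rw [P, mx]
  push_cast
  have : ∀ j, 1 - (Complex.I * (r : ℂ)) ^ 2 / (a j : ℂ) ^ 2 = 1 + (r : ℂ) ^ 2 / (a j : ℂ) ^ 2 := by
    intro j
    rw [mul_pow, Complex.I_sq]; ring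
  simp only [this]
  ring

theorem mx_nonneg (n : ℕ) {r : ℝ} (hr : 0 ≤ r) : 0 ≤ mx n r := by
  rw [mx]
  exact mul_nonneg (by positivity) (Finset.prod_nonneg fun j _ => by
    have := a_pos j
    positivity)

/-- the values on the imaginary axis -/
noncomputable def F (r : ℝ) : ℝ := (f (Complex.I * r)).im

theorem tendsto_mx (r : ℝ) : Tendsto (fun n => mx n r) atTop (𝓝 (F r)) := by
  have h1 := (Complex.continuous_im.tendsto _).comp (tendsto_P (Complex.I * r))
  refine h1.congr fun n => ?_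
  show (P n (Complex.I * r)).im = mx n r
  rw [P_imag]; simp

theorem f_imag (r : ℝ) : f (Complex.I * r) = Complex.I * (F r : ℂ) := by
  refine tendsto_nhds_unique (tendsto_P (Complex.I * r)) ?_
  have h1 : Tendsto (fun n => Complex.I * (mx n r : ℂ)) atTop (𝓝 (Complex.I * (F r : ℂ))) :=
    ((Complex.continuous_ofReal.tendsto _).comp (tendsto_mx r)).const_mul _
  refine h1.congr fun n => ?_
  rw [P_imag]

theorem F_nonneg {r : ℝ} (hr : 0 ≤ r) : 0 ≤ F r :=
  ge_of_tendsto' (tendsto_mx r) fun n => mx_nonneg n hr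

theorem F_mono {r s : ℝ} (hr : 0 ≤ r) (h : r ≤ s) : F r ≤ F s :=
  le_of_tendsto_of_tendsto' (tendsto_mx r) (tendsto_mx s) fun n => mx_mono n hr h

theorem mx_le_F (n : ℕ) {r : ℝ} (hr : 0 ≤ r) : mx n r ≤ F r := by
  refine ge_of_tendsto (tendsto_mx r) ?_
  filter_upwards [eventually_ge_atTop n] with N hN
  rw [mx, mx, ← Finset.prod_range_mul_prod_Ico _ hN]
  have h1 : 1 ≤ ∏ j ∈ Finset.Ico n N, (1 + r ^ 2 / a j ^ 2) := by
    apply Finset.one_le_prod
    intro j _
    have := a_pos j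
    have : 0 ≤ r ^ 2 / a j ^ 2 := by positivity
    linarith
  have h2 : 0 ≤ ∏ j ∈ Finset.range n, (1 + r ^ 2 / a j ^ 2) :=
    Finset.prod_nonneg fun j _ => by
      have := a_pos j
      positivity
  have h3 : 0 ≤ 8000000 * r := by positivity
  calc 8000000 * r * ∏ j ∈ Finset.range n, (1 + r ^ 2 / a j ^ 2)
      = 8000000 * r * (∏ j ∈ Finset.range n, (1 + r ^ 2 / a j ^ 2) * 1) := by simp
    _ ≤ _ := by
      apply mul_le_mul_of_nonneg_left _ h3
      rw [Finset.prod_mul_distrib, Finset.prod_const_one]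
      exact mul_le_mul_of_nonneg_left h1 h2

theorem norm_imag {r : ℝ} (hr : 0 ≤ r) : ‖f (Complex.I * r)‖ = F r := by
  rw [f_imag, norm_mul, Complex.norm_I, one_mul, Complex.norm_real, Real.norm_eq_abs,
    abs_of_nonneg (F_nonneg hr)]

theorem f_le_F (z : ℂ) : ‖f z‖ ≤ F ‖z‖ :=
  le_of_tendsto_of_tendsto' (tendsto_P z).norm (tendsto_mx ‖z‖) fun n => norm_P_le n z

theorem mx_ge_pow (n : ℕ) {r : ℝ} (hr : 0 ≤ r) :
    r ^ (2 * n + 1) / (∏ j ∈ Finset.range n, a j ^ 2) ≤ mx n r := by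
  rw [mx]
  have h1 : ∏ j ∈ Finset.range n, (r ^ 2 / a j ^ 2) ≤ ∏ j ∈ Finset.range n, (1 + r ^ 2 / a j ^ 2) :=
    Finset.prod_le_prod (fun j _ => by positivity) fun j _ => by linarith
  rw [Finset.prod_div_distrib, Finset.prod_const, Finset.card_range] at h1
  have e : r ^ (2 * n + 1) / (∏ j ∈ Finset.range n, a j ^ 2) =
      r * ((r ^ 2) ^ n / ∏ j ∈ Finset.range n, a j ^ 2) := by
    rw [pow_succ, pow_mul]; ring
  rw [e]
  have h2 : 0 ≤ (r ^ 2) ^ n / ∏ j ∈ Finset.range n, a j ^ 2 :=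
    div_nonneg (by positivity) (Finset.prod_nonneg fun j _ => by positivity)
  calc r * ((r ^ 2) ^ n / ∏ j ∈ Finset.range n, a j ^ 2)
      ≤ 8000000 * r * ((r ^ 2) ^ n / ∏ j ∈ Finset.range n, a j ^ 2) := by
        apply mul_le_mul_of_nonneg_right _ h2
        linarith
    _ ≤ _ := by gcongr

/-- transcendental growth -/
theorem F_growth (k : ℕ) : ∀ᶠ r in atTop, (r : ℝ) ^ k ≤ F r := by
  set C : ℝ := ∏ j ∈ Finset.range k, a j ^ 2
  filter_upwards [eventually_ge_atTop C, eventually_ge_atTop 1] with r h1 h2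
  have h0 : (0 : ℝ) ≤ r := by linarith
  have hC : 0 < C := Finset.prod_pos fun j _ => pow_pos (a_pos j) 2
  refine le_trans ?_ ((mx_ge_pow k h0).trans (mx_le_F k h0))
  rw [le_div_iff₀ hC]
  calc r ^ k * C ≤ r ^ k * r := by gcongr
    _ = r ^ (k + 1) := by ring
    _ ≤ r ^ (2 * k + 1) := pow_le_pow_right₀ h2 (by omega)

end Pool.Agent.Q75.Bw
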