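import Pool.Agent.Q75.BwB
import Pool.Agent.W723.MC.Topo

set_option autoImplicit false

/-!
Dynamics: the wandering domains `U n`.
-/

open Filter Topology Metric Set

namespace Pool.Agent.Q75.Bw

open Pool.Agent.H384R2.Fatou Pool.Agent.W723.MC

theorem f_nonconst : f 0 ≠ f (Complex.I * (1 : ℝ)) := by
  rw [f_zero]
  intro h
  have h1 : F 1 = 0 := by rw [F, ← h]; rfl
  have h2 := mx_le_F 0 (r := 1) zero_le_one
  have h3 : mx 0 1 = 8000000 := by simp [mx]
  linarith

theorem f_open : ∀ s : Set ℂ, IsOpen s → IsOpen (f '' s) := by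
  have h1 : AnalyticOnNhd ℂ f univ := f_differentiable.differentiableOn.analyticOnNhd isOpen_univ
  obtain ⟨x, eq⟩ | h := h1.is_constant_or_isOpenMap
  · exact absurd ((eq 0).trans (eq _).symm) f_nonconst
  · exact fun s hs => h s hs

theorem f_cont : Continuous f := f_differentiable.continuous

/-- the invariant annuli -/
def H (n : ℕ) : Set ℂ := {z | 10 * a n < ‖z‖ ∧ ‖z‖ < a (n + 1) / 200}

theorem isPreconnected_ann {a b : ℝ} (ha : 0 < a) : IsPreconnected {z : ℂ | a < ‖z‖ ∧ ‖z‖ < b} := by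
  have h1 : IsPreconnected ((Ioo a b) ×ˢ (sphere (0 : ℂ) 1)) :=
    isPreconnected_Ioo.prod (isPreconnected_sphere
      (by rw [Complex.rank_real_complex]; norm_num) 0 1)
  have h2 := h1.image (fun q : ℝ × ℂ => (q.1 : ℂ) * q.2) (by fun_prop)
  convert h2 using 1
  ext z
  simp only [Set.mem_ofPred_eq, Set.mem_image, Set.mem_prod, mem_Ioo, mem_sphere_zero_iff_norm,
    Prod.exists]
  constructor
  · intro hz
    have hz0 : ‖z‖ ≠ 0 := by linarith
    refine ⟨‖z‖, z / ‖z‖, ⟨hz, ?_⟩, ?_⟩
    · rw [norm_div, Complex.norm_real, norm_norm, div_self hz0]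
    · have : ((‖z‖ : ℝ) : ℂ) ≠ 0 := by exact_mod_cast hz0
      field_simp
  · rintro ⟨t, v, ⟨ht, hv⟩, rfl⟩
    rw [norm_mul, hv, mul_one, Complex.norm_real, Real.norm_eq_abs, abs_of_pos (by linarith)]
    exact ht

theorem H_open (n : ℕ) : IsOpen (H n) :=
  (isOpen_lt continuous_const continuous_norm).inter (isOpen_lt continuous_norm continuous_const)

theorem H_pre (n : ℕ) : IsPreconnected (H n) :=
  isPreconnected_ann (by linarith [a_pos n])

theorem mem_H {n : ℕ} {z : ℂ} (h1 : ‖z‖ ≤ a (n + 1) / 200) (h2 : 10 * a (n + 1) < ‖f z‖) :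
    f z ∈ H (n + 1) := ⟨h2, E3 h1⟩

theorem H_map {n : ℕ} {z : ℂ} (hz : z ∈ H n) : f z ∈ H (n + 1) := by
  apply mem_H hz.2.le
  have h1 := E2 (n := n) (z := z) (by linarith [hz.1, a_pos n]) hz.2.le
  linarith [a_pos (n + 1)]

theorem H_iter {n : ℕ} {z : ℂ} (hz : z ∈ H n) (k : ℕ) : f^[k] z ∈ H (n + k) := by
  induction k with
  | zero => exact hz
  | succ k ih =>
    rw [Function.iterate_succ_apply']
    exact H_map ih

theorem H_esc (n : ℕ) : EscOn f (H n) := by
  intro R
  have h1 : Tendsto (fun k => a (n + k)) atTop atTop :=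
    a_tendsto.comp (tendsto_add_atTop_nat n |>.congr fun k => add_comm k n)
  filter_upwards [h1.eventually_ge_atTop R] with k hk z hz
  have := (H_iter hz k).1
  linarith [a_pos (n + k)]

theorem H_fatou (n : ℕ) : H n ⊆ FatouSet f := subset_fatou_of_escOn (H_esc n) (H_open n)

theorem fatou_of_H {n : ℕ} {z : ℂ} (h : f z ∈ H n) : z ∈ FatouSet f :=
  fatou_backward f_cont (H_fatou n h)

/-! ### the base orbit -/

/-- the moduli of the base orbit -/
noncomputable def x : ℕ → ℝ
  | 0 => 12
  | (n + 1) => F (x n)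

/-- the base orbit -/
noncomputable def X (n : ℕ) : ℂ := Complex.I * x n

theorem x_aux (n : ℕ) : 0 < x n ∧ X n ∈ H n := by
  induction n with
  | zero =>
    have h0 : x 0 = 12 := by rw [x]
    refine ⟨by rw [h0]; norm_num, ?_⟩
    have h1 := a_step 0
    rw [a_zero] at h1
    have h2 : ‖X 0‖ = 12 := by
      rw [X, h0, norm_mul, Complex.norm_I, Complex.norm_real]; norm_num
    refine ⟨?_, ?_⟩
    · rw [h2, a_zero]; norm_num
    · rw [h2]; linarith
  | succ n ih =>
    obtain ⟨h1, h2⟩ := ih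
    have e : X (n + 1) = f (X n) := by rw [X, X, f_imag, x]
    have h3 : X (n + 1) ∈ H (n + 1) := by rw [e]; exact H_map h2
    refine ⟨?_, h3⟩
    have h4 := h3.1
    rw [e, X, norm_imag h1.le] at h4
    rw [x]
    linarith [a_pos (n + 1)]

theorem x_pos (n : ℕ) : 0 < x n := (x_aux n).1

theorem X_H (n : ℕ) : X n ∈ H n := (x_aux n).2

theorem X_succ (n : ℕ) : f (X n) = X (n + 1) := by rw [X, X, f_imag, x]

theorem X_iter (n k : ℕ) : f^[k] (X n) = X (n + k) := by
  induction k with
  | zero => rfl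
  | succ k ih => rw [Function.iterate_succ_apply', ih, X_succ]; rfl

theorem norm_X (n : ℕ) : ‖X n‖ = x n := by
  rw [X, norm_mul, Complex.norm_I, one_mul, Complex.norm_real, Real.norm_eq_abs,
    abs_of_pos (x_pos n)]

theorem x_gt (n : ℕ) : 10 * a n < x n := by rw [← norm_X]; exact (X_H n).1

theorem x_lt (n : ℕ) : x n < a (n + 1) / 200 := by rw [← norm_X]; exact (X_H n).2

theorem x_mono : Monotone x := monotone_nat_of_le_succ fun n => by
  linarith [x_lt n, x_gt (n + 1), a_pos (n + 1)]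

theorem x_tendsto : Tendsto x atTop atTop :=
  tendsto_atTop_mono (fun n => by linarith [x_gt n, a_pos n]) a_tendsto

/-! ### the components -/

/-- the wandering domains -/
def U (n : ℕ) : Set ℂ := FatouComponent f (X n)

theorem X_F (n : ℕ) : X n ∈ FatouSet f := H_fatou n (X_H n)

theorem X_U (n : ℕ) : X n ∈ U n := mem_connectedComponentIn (X_F n)

theorem U_open (n : ℕ) : IsOpen (U n) := component_isOpen _ _

theorem U_pre (n : ℕ) : IsPreconnected (U n) := isPreconnected_connectedComponentIn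

theorem U_fatou (n : ℕ) : U n ⊆ FatouSet f := connectedComponentIn_subset _ _

theorem H_U (n : ℕ) : H n ⊆ U n := (H_pre n).subset_connectedComponentIn (X_H n) (H_fatou n)

theorem U_map (n : ℕ) : MapsTo f (U n) (U (n + 1)) := by
  intro z hz
  have h1 := component_map f_cont f_open (X_F n) 1
  rw [Function.iterate_one, X_succ] at h1
  exact h1 ⟨z, hz, rfl⟩

theorem U_iter (n k : ℕ) : MapsTo f^[k] (U n) (U (n + k)) := by
  induction k with
  | zero => exact fun z hz => hz
  | succ k ih =>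
    intro z hz
    rw [Function.iterate_succ_apply']
    exact U_map _ (ih hz)

theorem comp_eq' {n : ℕ} {z : ℂ} (h : z ∈ U n) : U n = FatouComponent f z :=
  connectedComponentIn_eq h

/-- a connected subset of the Fatou set meeting `U n` lies in `U n` -/
theorem sub_U {n : ℕ} {S : Set ℂ} (hS : IsPreconnected S) (hSF : S ⊆ FatouSet f)
    (hx : (S ∩ U n).Nonempty) : S ⊆ U n := by
  obtain ⟨w, hw1, hw2⟩ := hx
  have h1 : IsPreconnected (S ∪ U n) := IsPreconnected.union w hw1 hw2 hS (U_pre n)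
  exact (subset_union_left).trans (h1.subset_connectedComponentIn (Or.inr (X_U n))
    (union_subset hSF (U_fatou n)))

/-- circles -/
theorem circle_U {n : ℕ} {r : ℝ} (hr : 0 < r) (hr1 : r ≤ 12 * a n)
    (hf : 10 * a (n + 1) < ‖f (r : ℂ)‖) {z : ℂ} (hz : ‖z‖ = r) : z ∈ U n := by
  have hA := a_pos n
  have hstep := a_step n
  set S1 : Set ℂ := sphere (0 : ℂ) r with hS1
  set S2 : Set ℂ := (fun t : ℝ => Complex.I * (t : ℂ)) '' Icc r (12 * a n) with hS2
  have h1 : IsPreconnected S1 :=
    isPreconnected_sphere (by rw [Complex.rank_real_complex]; norm_num) 0 r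
  have h2 : IsPreconnected S2 := isPreconnected_Icc.image _ (by fun_prop)
  have hI : Complex.I * (r : ℂ) ∈ S1 := by
    rw [hS1, mem_sphere_zero_iff_norm, norm_mul, Complex.norm_I, one_mul, Complex.norm_real,
      Real.norm_eq_abs, abs_of_pos hr]
  have h3 : IsPreconnected (S1 ∪ S2) :=
    IsPreconnected.union _ hI ⟨r, ⟨le_rfl, hr1⟩, rfl⟩ h1 h2
  have hmap : ∀ w ∈ S1 ∪ S2, f w ∈ H (n + 1) := by
    intro w hw
    rcases hw with hw | ⟨t, ht, rfl⟩
    · rw [hS1, mem_sphere_zero_iff_norm] at hw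
      apply mem_H (by rw [hw]; linarith)
      have := min_real w
      rw [hw] at this
      linarith
    · have ht0 : 0 < t := by linarith [ht.1]
      have e : ‖Complex.I * (t : ℂ)‖ = t := by
        rw [norm_mul, Complex.norm_I, one_mul, Complex.norm_real, Real.norm_eq_abs,
          abs_of_pos ht0]
      apply mem_H
      · rw [e]; linarith [ht.2]
      · show 10 * a (n + 1) < ‖f (Complex.I * (t : ℂ))‖
        rw [norm_imag ht0.le]
        have h4 := F_mono hr.le ht.1
        have h5 := f_le_F (r : ℂ)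
        rw [Complex.norm_real, Real.norm_eq_abs, abs_of_pos hr] at h5
        linarith
  have hend : Complex.I * ((12 * a n : ℝ) : ℂ) ∈ S2 := ⟨12 * a n, ⟨hr1, le_rfl⟩, rfl⟩
  have hendU : Complex.I * ((12 * a n : ℝ) : ℂ) ∈ U n := by
    apply H_U n
    have e : ‖Complex.I * ((12 * a n : ℝ) : ℂ)‖ = 12 * a n := by
      rw [norm_mul, Complex.norm_I, one_mul, Complex.norm_real, Real.norm_eq_abs,
        abs_of_pos (by linarith)]
    refine ⟨?_, ?_⟩
    · rw [e]; linarith
    · rw [e]; linarith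
  apply sub_U h3 (fun w hw => fatou_of_H (hmap w hw)) ⟨_, Or.inr hend, hendU⟩
  left
  rw [hS1, mem_sphere_zero_iff_norm]
  exact hz

theorem half_U {n : ℕ} {z : ℂ} (hz : ‖z‖ = a n / 2) : z ∈ U n := by
  have hA := a_pos n
  apply circle_U (by linarith) (by linarith) _ hz
  have := E1 (n := n) (z := ((a n / 2 : ℝ) : ℂ)) (by
    rw [Complex.norm_real, Real.norm_eq_abs, abs_of_pos (by linarith)])
  linarith [a_pos (n + 1)]

/-! ### growth and disjointness -/

theorem growth {n : ℕ} {q : ℂ} (hq : q ∈ U n) : ∃ C : ℝ, 0 < C ∧ ∀ᶠ k in atTop,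
    Real.log ‖f^[k] q‖ ≤ C * Real.log (x (n + k)) ∧
    Real.log (x (n + k)) ≤ C * Real.log ‖f^[k] q‖ := by
  obtain ⟨C, hC, h⟩ := growth_compare f_differentiable (X_F n) ((H_open n).mem_nhds (X_H n))
    (H_esc n) hq
  refine ⟨C, hC, h.mono fun k hk => ?_⟩
  rw [X_iter, norm_X] at hk
  exact hk

theorem x_big (K : ℕ) : ∀ᶠ n in atTop, (K : ℝ) * Real.log (x n) ≤ Real.log (x (n + 1)) := by
  filter_upwards [x_tendsto.eventually (F_growth K)] with n hn
  have h0 := x_pos n
  rw [← Real.log_pow]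
  apply Real.log_le_log (by positivity)
  rw [x]
  exact hn

theorem U_ne_lt {j k : ℕ} (hjk : j < k) : U j ≠ U k := by
  intro heq
  have h1 : X k ∈ U j := by rw [heq]; exact X_U k
  obtain ⟨C, hC, h2⟩ := growth h1
  have h3 : ∀ᶠ i in atTop, (⌈C⌉₊ + 1 : ℕ) * Real.log (x (j + i)) ≤ Real.log (x (j + i + 1)) :=
    (tendsto_add_atTop_nat j |>.congr fun i => add_comm i j).eventually (x_big (⌈C⌉₊ + 1))
  obtain ⟨i, hi1, hi2⟩ := (h2.and h3).exists
  have h4 := hi1.1
  rw [X_iter, norm_X] at h4
  have h5 : x (j + i + 1) ≤ x (k + i) := x_mono (by omega)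
  have h6 : Real.log (x (j + i + 1)) ≤ Real.log (x (k + i)) := Real.log_le_log (x_pos _) h5
  have h7 : 0 < Real.log (x (j + i)) := by
    apply Real.log_pos
    linarith [x_gt (j + i), one_le_a (j + i)]
  have h8 := Nat.le_ceil C
  push_cast at hi2
  nlinarith

theorem U_disj {j k : ℕ} (hjk : j ≠ k) : Disjoint (U j) (U k) := by
  rw [Set.disjoint_left]
  intro z h1 h2
  have h3 : U j = U k := (comp_eq' h1).trans (comp_eq' h2).symm
  rcases lt_or_gt_of_ne hjk with h | h
  · exact U_ne_lt h h3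
  · exact U_ne_lt h h3.symm

/-- a preconnected set with a point inside and a point outside meets the circle -/
theorem cross {A : Set ℂ} (hA : IsPreconnected A) {x y : ℂ} (hx : x ∈ A) (hy : y ∈ A) {t : ℝ}
    (h1 : ‖x‖ ≤ t) (h2 : t ≤ ‖y‖) : ∃ z ∈ A, ‖z‖ = t := by
  have := hA.intermediate_value hx hy continuous_norm.continuousOn
  obtain ⟨z, hz, hzt⟩ := this ⟨h1, h2⟩
  exact ⟨z, hz, hzt⟩

theorem U_bdd {n : ℕ} {z : ℂ} (hz : z ∈ U n) : ‖z‖ < a (n + 1) / 2 := by
  by_contra hcon
  push Not at hcon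
  have h1 := x_lt n
  have h2 := a_pos (n + 1)
  obtain ⟨w, hw, hwt⟩ := cross (U_pre n) (X_U n) hz (t := a (n + 1) / 2)
    (by rw [norm_X]; linarith) hcon
  exact Set.disjoint_left.1 (U_disj (Nat.lt_succ_self n).ne) hw (half_U hwt)

theorem U_lower {n : ℕ} {z : ℂ} (hz : z ∈ U (n + 1)) : a n / 2 < ‖z‖ := by
  by_contra hcon
  push Not at hcon
  have h1 := x_gt (n + 1)
  have h2 := a_pos (n + 1)
  have h3 := a_step n
  have h4 := a_pos n
  obtain ⟨w, hw, hwt⟩ := cross (U_pre (n + 1)) hz (X_U (n + 1)) (t := a n / 2) hcon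
    (by rw [norm_X]; linarith)
  exact Set.disjoint_left.1 (U_disj (Nat.lt_succ_self n).ne') hw (half_U hwt)

/-- the iterates tend to infinity on `U n` -/
theorem U_esc {n : ℕ} {z : ℂ} (hz : z ∈ U n) : Tendsto (fun k => ‖f^[k] z‖) atTop atTop := by
  obtain ⟨r, hr, -, h⟩ := esc_near (X_F n) ((H_open n).mem_nhds (X_H n)) (H_esc n) hz
  rw [Filter.tendsto_atTop]
  intro R
  filter_upwards [h R] with k hk
  exact hk z (mem_ball_self hr)

theorem iter_zero (k : ℕ) : f^[k] 0 = 0 := by
  induction k with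
  | zero => rfl
  | succ k ih => rw [Function.iterate_succ_apply', ih, f_zero]

theorem not_U_of_hits {n j : ℕ} {z : ℂ} (hz : f^[j] z = 0) : z ∉ U n := by
  intro hzU
  obtain ⟨k, hk, hkj⟩ := (((U_esc hzU).eventually_gt_atTop 0).and (eventually_ge_atTop j)).exists
  obtain ⟨l, rfl⟩ := Nat.exists_eq_add_of_le hkj
  rw [add_comm j l, Function.iterate_add_apply, hz, iter_zero, norm_zero] at hk
  exact lt_irrefl _ hk

/-- points of the disc `‖z‖ < 12 a n` mapped into `U (n + 1)` are in `U n` -/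
theorem back {n : ℕ} {w : ℂ} (h2 : ‖w‖ < 12 * a n) (hw : f w ∈ U (n + 1)) :
    w ∈ U n := by
  have hA := a_pos n
  have hstep := a_step n
  set V : Set ℂ := FatouComponent f w with hV
  have hwF : w ∈ FatouSet f := fatou_backward f_cont (U_fatou _ hw)
  have hwV : w ∈ V := mem_connectedComponentIn hwF
  have hVp : IsPreconnected V := isPreconnected_connectedComponentIn
  have hVF : V ⊆ FatouSet f := connectedComponentIn_subset _ _
  by_contra hcon
  have hVU : Disjoint V (U n) := by
    rw [Set.disjoint_left]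
    intro z hz1 hz2
    exact hcon (sub_U hVp hVF ⟨z, hz1, hz2⟩ hwV)
  -- `V` is in the annulus
  have hV1 : ∀ z ∈ V, ‖z‖ < 12 * a n := by
    intro z hz
    by_contra h3
    push Not at h3
    obtain ⟨v, hv, hvt⟩ := cross hVp hwV hz (t := 12 * a n) h2.le h3
    have : v ∈ H n := ⟨by rw [hvt]; linarith, by rw [hvt]; linarith⟩
    exact Set.disjoint_left.1 hVU hv (H_U n this)
  -- `f V = U (n + 1)`
  have hfV : f '' V ⊆ U (n + 1) := by
    have h3 := component_map f_cont f_open hwF 1
    rw [Function.iterate_one] at h3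
    rw [comp_eq' hw]
    exact h3
  have hVc : IsCompact (closure V) := by
    apply Bornology.IsBounded.isCompact_closure
    apply (isBounded_ball (x := (0 : ℂ)) (r := 12 * a n)).subset
    intro z hz
    rw [mem_ball_zero_iff]
    exact hV1 z hz
  have honto : U (n + 1) ⊆ f '' V := by
    apply (U_pre (n + 1)).subset_of_closure_inter_subset (f_open _ (component_isOpen f w))
    · exact ⟨f w, hw, w, hwV, rfl⟩
    · rintro y ⟨hy1, hy2⟩
      have h4 : closure (f '' V) ⊆ f '' closure V :=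
        closure_minimal (image_mono subset_closure) (hVc.image f_cont).isClosed
      obtain ⟨z, hz, rfl⟩ := h4 hy1
      refine ⟨z, ?_, rfl⟩
      have hzF : z ∈ FatouSet f := fatou_backward f_cont (U_fatou _ hy2)
      obtain ⟨v, hv1, hv2⟩ := mem_closure_iff_nhds.1 hz _
        ((component_isOpen f z).mem_nhds (mem_connectedComponentIn hzF))
      have e1 : V = FatouComponent f v := connectedComponentIn_eq hv2
      have e2 : FatouComponent f z = FatouComponent f v := connectedComponentIn_eq hv1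
      show z ∈ V
      rw [e1, ← e2]
      exact mem_connectedComponentIn hzF
  -- a point of `U (n + 1)` of large modulus
  have hE : ∀ z ∈ V, ‖f z‖ ≤ F (12 * a n) := fun z hz =>
    (f_le_F z).trans (F_mono (norm_nonneg z) (hV1 z hz).le)
  have h12 : F (12 * a n) < a (n + 2) / 200 := by
    have := E3 (n := n) (z := Complex.I * ((12 * a n : ℝ) : ℂ)) (by
      rw [norm_mul, Complex.norm_I, one_mul, Complex.norm_real, Real.norm_eq_abs,
        abs_of_pos (by linarith)]
      linarith)
    rwa [norm_imag (by linarith)] at this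
  have h12' : 10 * a (n + 1) < F (12 * a n) := by
    have := E2 (n := n) (z := Complex.I * ((12 * a n : ℝ) : ℂ)) (by
      rw [norm_mul, Complex.norm_I, one_mul, Complex.norm_real, Real.norm_eq_abs,
        abs_of_pos (by linarith)]
      linarith) (by
      rw [norm_mul, Complex.norm_I, one_mul, Complex.norm_real, Real.norm_eq_abs,
        abs_of_pos (by linarith)]
      linarith)
    rw [norm_imag (by linarith)] at this
    linarith [a_pos (n + 1)]
  set t : ℝ := (F (12 * a n) + a (n + 2) / 200) / 2 with ht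
  have ht0 : 0 < t := by
    have := a_pos (n + 1)
    have := a_pos (n + 2)
    rw [ht]; linarith
  have htU : (t : ℂ) ∈ U (n + 1) := by
    apply H_U
    have e : ‖(t : ℂ)‖ = t := by
      rw [Complex.norm_real, Real.norm_eq_abs, abs_of_pos ht0]
    refine ⟨?_, ?_⟩
    · rw [e, ht]; linarith
    · rw [e]
      show t < a (n + 2) / 200
      rw [ht]; linarith
  obtain ⟨z, hz, hzt⟩ := honto htU
  have h5 := hE z hz
  rw [hzt, Complex.norm_real, Real.norm_eq_abs, abs_of_pos ht0] at h5
  linarith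

end Pool.Agent.Q75.Bw
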