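import Pool.Agent.Q75.BwC

set_option autoImplicit false

/-!
The function near its zeros: expansion.
-/

open Filter Topology Metric Set

namespace Pool.Agent.Q75.Bw

open Pool.Agent.H384R2.Fatou Pool.Agent.W723.MC

theorem P_sub' {n N : ℕ} (hN : n ≤ N) {z : ℂ} (hz : ‖z‖ ≤ a n / 200) :
    ‖P N z - P n z‖ ≤ ‖P n z‖ * (4 * (‖z‖ / a n) ^ 2) := by
  have h1 : P N z = P n z * ∏ j ∈ Finset.Ico n N, (1 + -(z ^ 2 / (a j : ℂ) ^ 2)) := by
    rw [P, P, ← Finset.prod_range_mul_prod_Ico _ hN]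
    simp only [sub_eq_add_neg]
    ring
  have h2 := (Finset.norm_prod_one_add_sub_one_le (Finset.Ico n N)
    (fun j => -(z ^ 2 / (a j : ℂ) ^ 2)))
  have h3 := tail_sum z n N
  have h4 : ‖z‖ / a n ≤ 1 / 200 := by
    rw [div_le_iff₀ (a_pos n)]; linarith
  have h40 : 0 ≤ ‖z‖ / a n := div_nonneg (norm_nonneg _) (a_pos n).le
  have h5 : 2 * (‖z‖ / a n) ^ 2 ≤ 1 / 8 := by nlinarith
  have h6 : Real.exp (∑ j ∈ Finset.Ico n N, ‖-(z ^ 2 / (a j : ℂ) ^ 2)‖) - 1 ≤
      4 * (‖z‖ / a n) ^ 2 := by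
    have h7 : Real.exp (∑ j ∈ Finset.Ico n N, ‖-(z ^ 2 / (a j : ℂ) ^ 2)‖) ≤
        Real.exp (2 * (‖z‖ / a n) ^ 2) := Real.exp_le_exp.2 h3
    set t := 2 * (‖z‖ / a n) ^ 2 with ht
    have ht0 : 0 ≤ t := by positivity
    have h8 := Real.exp_bound_div_one_sub_of_interval ht0 (by linarith)
    have h9 : 1 / (1 - t) ≤ 1 + 2 * t := by
      rw [div_le_iff₀ (by linarith)]; nlinarith
    linarith
  have e : P N z - P n z = P n z * (∏ j ∈ Finset.Ico n N, (1 + -(z ^ 2 / (a j : ℂ) ^ 2)) - 1) := by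
    rw [h1]; ring
  rw [e, norm_mul]
  gcongr
  exact h2.trans h6

theorem f_sub' {k : ℕ} {z : ℂ} (hz : ‖z‖ ≤ 2 * a k) :
    ‖f z - P (k + 1) z‖ ≤ ‖P (k + 1) z‖ / 100 := by
  have hs := a_step k
  have hA := a_pos k
  have hA' := a_pos (k + 1)
  have hz' : ‖z‖ ≤ a (k + 1) / 200 := by linarith
  have h1 : Tendsto (fun N => ‖P N z - P (k + 1) z‖) atTop (𝓝 ‖f z - P (k + 1) z‖) :=
    ((tendsto_P z).sub_const _).norm
  have h2 : ‖f z - P (k + 1) z‖ ≤ ‖P (k + 1) z‖ * (4 * (‖z‖ / a (k + 1)) ^ 2) :=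
    le_of_tendsto h1 (by
      filter_upwards [eventually_ge_atTop (k + 1)] with N hN
      exact P_sub' hN hz')
  have h3 : ‖z‖ / a (k + 1) ≤ 1 / 20 := by
    rw [div_le_iff₀ hA']; linarith
  have h30 : 0 ≤ ‖z‖ / a (k + 1) := div_nonneg (norm_nonneg _) hA'.le
  have h4 : 4 * (‖z‖ / a (k + 1)) ^ 2 ≤ 1 / 100 := by nlinarith
  calc _ ≤ _ := h2
    _ ≤ ‖P (k + 1) z‖ * (1 / 100) := by gcongr
    _ = _ := by ring

/-- `P (k + 1) z / (z - p)` -/
noncomputable def G (k : ℕ) (p z : ℂ) : ℂ :=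
  -(8000000 * z * (z + p) / (a k : ℂ) ^ 2) * ∏ j ∈ Finset.range k, (1 - z ^ 2 / (a j : ℂ) ^ 2)

section
variable {k : ℕ} {p : ℂ}

theorem norm_p (hp : p ^ 2 = (a k : ℂ) ^ 2) : ‖p‖ = a k := by
  have h1 : ‖p‖ ^ 2 = a k ^ 2 := by
    rw [← norm_pow, hp, norm_pow, Complex.norm_real, Real.norm_eq_abs, sq_abs]
  exact (sq_eq_sq₀ (norm_nonneg _) (a_pos k).le).1 h1

theorem p_ne (hp : p ^ 2 = (a k : ℂ) ^ 2) : p ≠ 0 := by
  rw [← norm_pos_iff, norm_p hp]; exact a_pos k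

theorem P_eq_G (hp : p ^ 2 = (a k : ℂ) ^ 2) (z : ℂ) : P (k + 1) z = (z - p) * G k p z := by
  rw [P_succ, P, G]
  have h1 : 1 - z ^ 2 / (a k : ℂ) ^ 2 = -((z - p) * (z + p)) / (a k : ℂ) ^ 2 := by
    have := ac_ne k
    field_simp
    rw [← hp]; ring
  rw [h1]
  ring

theorem norm_G (hp : p ^ 2 = (a k : ℂ) ^ 2) :
    ‖G k p p‖ = 16000000 * ∏ j ∈ Finset.range k, (a k ^ 2 / a j ^ 2 - 1) := by
  have hA := a_pos k
  rw [G, norm_mul, norm_prod]
  congr 1
  · rw [norm_neg, norm_div, norm_mul, norm_mul, ← two_mul, norm_mul, norm_p hp, norm_pow,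
      Complex.norm_real, Real.norm_eq_abs, sq_abs]
    norm_num
    field_simp
    norm_num
  · apply Finset.prod_congr rfl
    intro j hj
    have h1 := a_lt (Finset.mem_range.1 hj)
    have h2 := a_pos j
    have h3 : 1 ≤ a k ^ 2 / a j ^ 2 := by
      rw [le_div_iff₀ (by positivity)]; nlinarith
    have h4 : 1 - p ^ 2 / (a j : ℂ) ^ 2 = ((1 - a k ^ 2 / a j ^ 2 : ℝ) : ℂ) := by
      rw [hp]; push_cast; rfl
    rw [h4, Complex.norm_real, Real.norm_eq_abs, abs_sub_comm, abs_of_nonneg (by linarith)]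

theorem G_pos (hp : p ^ 2 = (a k : ℂ) ^ 2) : 0 < ‖G k p p‖ := by
  rw [norm_G hp]
  refine mul_pos (by norm_num) (Finset.prod_pos fun j hj => ?_)
  have h1 := a_lt (Finset.mem_range.1 hj)
  have h2 := a_pos j
  have h3 : 2 ≤ a k ^ 2 / a j ^ 2 := by
    rw [le_div_iff₀ (by positivity)]; nlinarith
  linarith

theorem G_ge (hp : p ^ 2 = (a k : ℂ) ^ 2) :
    80 * a (k + 1) ≤ a k / (64 * (k + 1)) * ‖G k p p‖ := by
  have hA := a_pos k
  rw [norm_G hp, a_succ, Finset.prod_range_succ]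
  have h5 : |1 - (a k / 2) ^ 2 / (a k) ^ 2| = 3 / 4 := by
    have : 1 - (a k / 2) ^ 2 / (a k) ^ 2 = 3 / 4 := by field_simp; ring
    rw [this]; norm_num
  rw [h5]
  set Y := ∏ j ∈ Finset.range k, |1 - (a k / 2) ^ 2 / (a j) ^ 2| with hY
  have hY0 : 0 ≤ Y := Finset.prod_nonneg fun _ _ => abs_nonneg _
  have h1 : 4 ^ k * Y ≤ ∏ j ∈ Finset.range k, (a k ^ 2 / a j ^ 2 - 1) := by
    have h2 : ∏ j ∈ Finset.range k, (4 * |1 - (a k / 2) ^ 2 / (a j) ^ 2|) ≤
        ∏ j ∈ Finset.range k, (a k ^ 2 / a j ^ 2 - 1) := by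
      apply Finset.prod_le_prod (fun _ _ => by positivity)
      intro j hj
      have h1 := a_lt (Finset.mem_range.1 hj)
      have h2 := a_pos j
      have h3 : 4 ≤ a k ^ 2 / a j ^ 2 := by
        rw [le_div_iff₀ (by positivity)]; nlinarith
      have e : (a k / 2) ^ 2 / a j ^ 2 = a k ^ 2 / a j ^ 2 / 4 := by ring
      rw [e, abs_sub_comm, abs_of_nonneg (by linarith)]
      linarith
    rwa [Finset.prod_mul_distrib, Finset.prod_const, Finset.card_range] at h2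
  have h2 : ((k : ℝ) + 1) ≤ 4 ^ k := by
    have h3 := one_add_mul_le_pow (a := (3 : ℝ)) (by norm_num) k
    have h4 : (0 : ℝ) ≤ k := Nat.cast_nonneg k
    have e : (1 + 3 : ℝ) = 4 := by norm_num
    rw [e] at h3
    linarith
  have hk : (0 : ℝ) < k + 1 := by positivity
  have h3 : Y * (k + 1) ≤ ∏ j ∈ Finset.range k, (a k ^ 2 / a j ^ 2 - 1) := by
    refine le_trans ?_ h1
    rw [mul_comm]
    gcongr
  calc 80 * (4000 * a k * (Y * (3 / 4))) ≤ 250000 * a k * Y := by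
        have : 0 ≤ a k * Y := by positivity
        nlinarith
    _ = a k / (64 * (k + 1)) * (16000000 * (Y * (k + 1))) := by field_simp; ring
    _ ≤ _ := by gcongr

theorem G_close (hp : p ^ 2 = (a k : ℂ) ^ 2) {z : ℂ} (hz : ‖z - p‖ ≤ a k / (16 * (k + 1))) :
    ‖G k p z - G k p p‖ ≤ 27 / 100 * ‖G k p p‖ := by
  have hA := a_pos k
  have hk : (0 : ℝ) < k + 1 := by positivity
  have hk1 : (1 : ℝ) ≤ k + 1 := by linarith [(Nat.cast_nonneg k : (0 : ℝ) ≤ k)]
  have hpn := norm_p hp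
  have hp0 := p_ne hp
  set u : ℂ := (z - p) / p with hu
  have hu1 : ‖u‖ ≤ 1 / (16 * (k + 1)) := by
    rw [hu, norm_div, hpn, div_le_iff₀ hA]
    calc ‖z - p‖ ≤ _ := hz
      _ = _ := by ring
  have hu2 : ‖u‖ ≤ 1 / 16 := by
    refine hu1.trans ?_
    apply one_div_le_one_div_of_le (by norm_num)
    linarith
  have hzu : z = p * (1 + u) := by rw [hu]; field_simp; ring
  set δ : ℕ → ℂ := fun j => (p ^ 2 - z ^ 2) / ((a j : ℂ) ^ 2 - p ^ 2) with hδ
  have hden : ∀ j ∈ Finset.range k, (999 / 1000 * a k ^ 2 ≤ ‖(a j : ℂ) ^ 2 - p ^ 2‖ ∧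
      (a j : ℂ) ^ 2 - p ^ 2 ≠ 0) := by
    intro j hj
    have h1 := a_lt (Finset.mem_range.1 hj)
    have h2 := a_pos j
    have h3 : (a j : ℂ) ^ 2 - p ^ 2 = ((a j ^ 2 - a k ^ 2 : ℝ) : ℂ) := by rw [hp]; push_cast; rfl
    have h4 : 999 / 1000 * a k ^ 2 ≤ ‖(a j : ℂ) ^ 2 - p ^ 2‖ := by
      rw [h3, Complex.norm_real, Real.norm_eq_abs, abs_sub_comm]
      refine le_trans ?_ (le_abs_self _)
      nlinarith
    refine ⟨h4, ?_⟩
    rw [← norm_pos_iff]
    have : 0 < a k ^ 2 := by positivity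
    linarith
  have hG : G k p z = G k p p * (((1 + u) * (1 + u / 2)) * ∏ j ∈ Finset.range k, (1 + δ j)) := by
    have h1 : ∏ j ∈ Finset.range k, (1 - z ^ 2 / (a j : ℂ) ^ 2) =
        (∏ j ∈ Finset.range k, (1 - p ^ 2 / (a j : ℂ) ^ 2)) * ∏ j ∈ Finset.range k, (1 + δ j) := by
      rw [← Finset.prod_mul_distrib]
      apply Finset.prod_congr rfl
      intro j hj
      have h2 := (hden j hj).2
      have h3 := ac_ne j
      rw [hδ]
      field_simp
      ring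
    rw [G, G, h1]
    have h2 := ac_ne k
    have h3 : z * (z + p) = p * (p + p) * ((1 + u) * (1 + u / 2)) := by
      rw [hzu]; ring
    have h4 : 8000000 * z * (z + p) = 8000000 * p * (p + p) * ((1 + u) * (1 + u / 2)) := by
      rw [mul_assoc, h3]; ring
    rw [h4]
    ring
  have hδ1 : ∀ j ∈ Finset.range k, ‖δ j‖ ≤ 21 / 10 * (1 / (16 * (k + 1))) := by
    intro j hj
    have h1 := (hden j hj).1
    have h2 : ‖p ^ 2 - z ^ 2‖ ≤ a k ^ 2 * (‖u‖ * (33 / 16)) := by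
      have e : p ^ 2 - z ^ 2 = -(p ^ 2 * (u * (2 + u))) := by rw [hzu]; ring
      rw [e, norm_neg, norm_mul, norm_mul, norm_pow, hpn]
      gcongr
      refine (norm_add_le _ _).trans ?_
      norm_num
      linarith
    rw [hδ]
    show ‖(p ^ 2 - z ^ 2) / ((a j : ℂ) ^ 2 - p ^ 2)‖ ≤ _
    rw [norm_div]
    have h3 : 0 < 999 / 1000 * a k ^ 2 := by positivity
    calc ‖p ^ 2 - z ^ 2‖ / ‖(a j : ℂ) ^ 2 - p ^ 2‖
        ≤ (a k ^ 2 * (‖u‖ * (33 / 16))) / (999 / 1000 * a k ^ 2) := by gcongr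
      _ = ‖u‖ * (33 / 16 * (1000 / 999)) := by field_simp
      _ ≤ (1 / (16 * (k + 1))) * (21 / 10) := by
        gcongr
        norm_num
      _ = _ := by ring
  have hB : ‖∏ j ∈ Finset.range k, (1 + δ j) - 1‖ ≤ 152 / 1000 := by
    refine (Finset.norm_prod_one_add_sub_one_le _ _).trans ?_
    have h1 : ∑ j ∈ Finset.range k, ‖δ j‖ ≤ 21 / 160 := by
      calc ∑ j ∈ Finset.range k, ‖δ j‖ ≤ ∑ j ∈ Finset.range k, 21 / 10 * (1 / (16 * ((k : ℝ) + 1))) :=
            Finset.sum_le_sum hδ1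
        _ = k * (21 / 10 * (1 / (16 * ((k : ℝ) + 1)))) := by
            rw [Finset.sum_const, Finset.card_range, nsmul_eq_mul]
        _ ≤ (k + 1) * (21 / 10 * (1 / (16 * ((k : ℝ) + 1)))) := by
            gcongr
            linarith
        _ = 21 / 160 := by field_simp; norm_num
    have h2 : Real.exp (∑ j ∈ Finset.range k, ‖δ j‖) ≤ Real.exp (21 / 160) :=
      Real.exp_le_exp.2 h1
    have h3 := Real.exp_bound_div_one_sub_of_interval (x := 21 / 160) (by norm_num) (by norm_num)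
    have h4 : (1 : ℝ) / (1 - 21 / 160) ≤ 1152 / 1000 := by norm_num
    linarith
  have hAu : ‖(1 + u) * (1 + u / 2) - 1‖ ≤ 96 / 1000 := by
    have e : (1 + u) * (1 + u / 2) - 1 = u * (3 / 2 + u / 2) := by ring
    rw [e, norm_mul]
    have h1 : ‖(3 / 2 : ℂ) + u / 2‖ ≤ 3 / 2 + 1 / 32 := by
      refine (norm_add_le _ _).trans ?_
      rw [norm_div, norm_div]
      norm_num
      linarith
    calc ‖u‖ * ‖(3 / 2 : ℂ) + u / 2‖ ≤ 1 / 16 * (3 / 2 + 1 / 32) := by gcongr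
      _ ≤ 96 / 1000 := by norm_num
  have hfin : ‖((1 + u) * (1 + u / 2)) * ∏ j ∈ Finset.range k, (1 + δ j) - 1‖ ≤ 27 / 100 := by
    set A' := (1 + u) * (1 + u / 2)
    set B' := ∏ j ∈ Finset.range k, (1 + δ j)
    have e : A' * B' - 1 = (A' - 1) * (B' - 1) + (A' - 1) + (B' - 1) := by ring
    rw [e]
    calc ‖(A' - 1) * (B' - 1) + (A' - 1) + (B' - 1)‖
        ≤ ‖A' - 1‖ * ‖B' - 1‖ + ‖A' - 1‖ + ‖B' - 1‖ := by
          refine (norm_add_le _ _).trans ?_
          gcongr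
          refine (norm_add_le _ _).trans ?_
          rw [norm_mul]
      _ ≤ 96 / 1000 * (152 / 1000) + 96 / 1000 + 152 / 1000 := by gcongr
      _ ≤ 27 / 100 := by norm_num
  have e : G k p z - G k p p = G k p p *
      (((1 + u) * (1 + u / 2)) * ∏ j ∈ Finset.range k, (1 + δ j) - 1) := by rw [hG]; ring
  rw [e, norm_mul, mul_comm]
  gcongr

theorem f_p (hp : p ^ 2 = (a k : ℂ) ^ 2) : f p = 0 := by
  have hA := a_pos k
  have h1 := f_sub' (k := k) (z := p) (by rw [norm_p hp]; linarith)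
  have h2 : P (k + 1) p = 0 := by rw [P_eq_G hp, sub_self, zero_mul]
  rw [h2, norm_zero, zero_div, sub_zero] at h1
  exact norm_le_zero_iff.1 h1

theorem f_eq_q (hp : p ^ 2 = (a k : ℂ) ^ 2) (z : ℂ) : f z = (z - p) * dslope f p z := by
  have h := sub_smul_dslope f p z
  rw [f_p hp, sub_zero, smul_eq_mul] at h
  exact h.symm

theorem q_cont (p : ℂ) : Continuous (dslope f p) := by
  rw [continuous_iff_continuousAt]
  intro z
  by_cases h : z = p
  · rw [h]
    exact continuousAt_dslope_same.2 f_differentiable.differentiableAt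
  · exact (continuousAt_dslope_of_ne h).2 f_cont.continuousAt

theorem q_diff (p : ℂ) (s : Set ℂ) : DifferentiableOn ℂ (dslope f p) s := by
  have h : DifferentiableOn ℂ (dslope f p) univ :=
    (Complex.differentiableOn_dslope univ_mem).2 f_differentiable.differentiableOn
  exact h.mono (subset_univ s)

theorem near (hp : p ^ 2 = (a k : ℂ) ^ 2) {z : ℂ} (hz : ‖z - p‖ < a k / (16 * (k + 1))) :
    ‖dslope f p z - G k p p‖ ≤ 29 / 100 * ‖G k p p‖ := by
  have hA := a_pos k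
  have hk : (0 : ℝ) < k + 1 := by positivity
  have hk1 : (1 : ℝ) ≤ k + 1 := by linarith [(Nat.cast_nonneg k : (0 : ℝ) ≤ k)]
  -- off `p`
  have key : ∀ z : ℂ, z ≠ p → ‖z - p‖ < a k / (16 * (k + 1)) →
      ‖dslope f p z - G k p p‖ ≤ 29 / 100 * ‖G k p p‖ := by
    intro z hzp hz
    have h1 := G_close hp hz.le
    have hzn : ‖z‖ ≤ 2 * a k := by
      have h2 : ‖z‖ ≤ ‖z - p‖ + ‖p‖ := by simpa using norm_add_le (z - p) p
      have h3 : a k / (16 * (k + 1)) ≤ a k := by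
        rw [div_le_iff₀ (by positivity)]; nlinarith
      rw [norm_p hp] at h2
      linarith
    have h2 := f_sub' hzn
    rw [f_eq_q hp z, P_eq_G hp z, ← mul_sub, norm_mul, norm_mul] at h2
    have h3 : 0 < ‖z - p‖ := norm_pos_iff.2 (sub_ne_zero.2 hzp)
    have h4 : ‖dslope f p z - G k p z‖ ≤ ‖G k p z‖ / 100 := by
      have h5 : ‖z - p‖ * ‖dslope f p z - G k p z‖ ≤ ‖z - p‖ * (‖G k p z‖ / 100) := by
        calc _ ≤ _ := h2
          _ = _ := by ring
      exact le_of_mul_le_mul_left h5 h3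
    have h5 : ‖G k p z‖ ≤ 127 / 100 * ‖G k p p‖ := by
      have := norm_le_norm_sub_add (G k p z) (G k p p)
      linarith
    have h6 := norm_sub_le_norm_sub_add_norm_sub (dslope f p z) (G k p z) (G k p p)
    have h7 := G_pos hp
    linarith
  by_cases hzp : z = p
  · rw [hzp]
    have h1 : Tendsto (fun w => ‖dslope f p w - G k p p‖) (𝓝[≠] p)
        (𝓝 ‖dslope f p p - G k p p‖) :=
      ((((q_cont p).tendsto p).sub_const _).norm).mono_left nhdsWithin_le_nhds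
    refine le_of_tendsto h1 ?_
    have h2 : ball p (a k / (16 * (k + 1))) ∈ 𝓝 p := ball_mem_nhds p (by positivity)
    filter_upwards [nhdsWithin_le_nhds h2, self_mem_nhdsWithin] with w hw1 hw2
    exact key w hw2 (by rwa [mem_ball, dist_eq_norm] at hw1)
  · exact key z hzp hz

/-- `f` is expanding near its zeros -/
theorem expand (hp : p ^ 2 = (a k : ℂ) ^ 2) {x y : ℂ} (hx : ‖x - p‖ ≤ a k / (64 * (k + 1)))
    (hy : ‖y - p‖ ≤ a k / (64 * (k + 1))) : 1 / 2 * ‖G k p p‖ * ‖x - y‖ ≤ ‖f x - f y‖ := by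
  have hA := a_pos k
  have hk : (0 : ℝ) < k + 1 := by positivity
  set R : ℝ := a k / (16 * (k + 1)) with hR
  have hR0 : 0 < R := by positivity
  have hR4 : a k / (64 * (k + 1)) = R / 4 := by rw [hR]; field_simp; norm_num
  rw [hR4] at hx hy
  have hG := G_pos hp
  have hx1 := near hp (z := x) (by linarith)
  -- Schwarz on `ball x (3 R / 4)`
  have hmaps : MapsTo (dslope f p) (ball x (3 * R / 4))
      (closedBall (dslope f p x) (58 / 100 * ‖G k p p‖)) := by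
    intro w hw
    rw [mem_ball, dist_eq_norm] at hw
    rw [mem_closedBall, dist_eq_norm]
    have h1 : ‖w - p‖ < R := by
      have := norm_sub_le_norm_sub_add_norm_sub w x p
      linarith
    have h2 := near hp h1
    have h3 := norm_sub_le_norm_sub_add_norm_sub (dslope f p w) (G k p p) (dslope f p x)
    rw [norm_sub_rev (G k p p)] at h3
    linarith
  have hxy : ‖y - x‖ ≤ R / 2 := by
    have := norm_sub_le_norm_sub_add_norm_sub y p x
    rw [norm_sub_rev p x] at this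
    linarith
  have hyb : y ∈ ball x (3 * R / 4) := by rw [mem_ball, dist_eq_norm]; linarith
  have h4 := Complex.dist_le_div_mul_dist_of_mapsTo_ball (q_diff p _) hmaps hyb
  rw [dist_eq_norm, dist_eq_norm] at h4
  have h5 : ‖y - p‖ * ‖dslope f p y - dslope f p x‖ ≤ 20 / 100 * ‖G k p p‖ * ‖x - y‖ := by
    have e : 58 / 100 * ‖G k p p‖ / (3 * R / 4) * ‖y - x‖ =
        (232 / 300 * ‖G k p p‖ * ‖x - y‖) / R := by
      rw [norm_sub_rev y x]; field_simp; ring
    have h00 : 0 ≤ ‖G k p p‖ * ‖x - y‖ := by positivity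
    calc ‖y - p‖ * ‖dslope f p y - dslope f p x‖
        ≤ R / 4 * (58 / 100 * ‖G k p p‖ / (3 * R / 4) * ‖y - x‖) := by gcongr
      _ = 232 / 1200 * ‖G k p p‖ * ‖x - y‖ := by rw [e]; field_simp; ring
      _ ≤ _ := by nlinarith
  have h6 : f x - f y = (x - y) * dslope f p x - (y - p) * (dslope f p y - dslope f p x) := by
    rw [f_eq_q hp x, f_eq_q hp y]; ring
  have h7 : 71 / 100 * ‖G k p p‖ ≤ ‖dslope f p x‖ := by
    have := norm_le_norm_sub_add (G k p p) (dslope f p x)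
    rw [norm_sub_rev] at this
    linarith
  rw [h6]
  have h8 := norm_sub_norm_le ((x - y) * dslope f p x) ((y - p) * (dslope f p y - dslope f p x))
  rw [norm_mul, norm_mul] at h8
  have h9 : 71 / 100 * ‖G k p p‖ * ‖x - y‖ ≤ ‖x - y‖ * ‖dslope f p x‖ := by
    rw [mul_comm ‖x - y‖]
    gcongr
  have h10 : 0 ≤ ‖G k p p‖ * ‖x - y‖ := by positivity
  nlinarith

/-- large values on the small circles around the zeros -/
theorem small_circle (hp : p ^ 2 = (a k : ℂ) ^ 2) {z : ℂ} (hz : ‖z - p‖ = a k / (64 * (k + 1))) :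
    50 * a (k + 1) ≤ ‖f z‖ := by
  have hA := a_pos k
  have hk : (0 : ℝ) < k + 1 := by positivity
  have h0 : a k / (64 * (k + 1)) < a k / (16 * (k + 1)) := by
    gcongr
    norm_num
  have h1 := near hp (z := z) (by rw [hz]; exact h0)
  have h2 : 71 / 100 * ‖G k p p‖ ≤ ‖dslope f p z‖ := by
    have := norm_le_norm_sub_add (G k p p) (dslope f p z)
    rw [norm_sub_rev] at this
    linarith
  have h3 := G_ge hp
  rw [f_eq_q hp z, norm_mul, hz]
  have h4 : a k / (64 * (k + 1)) * (71 / 100 * ‖G k p p‖) ≤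
      a k / (64 * (k + 1)) * ‖dslope f p z‖ := by gcongr
  have h5 := a_pos (k + 1)
  nlinarith

theorem deriv_p_ne (hp : p ^ 2 = (a k : ℂ) ^ 2) : deriv f p ≠ 0 := by
  have hA := a_pos k
  have h1 := near hp (z := p) (by rw [sub_self, norm_zero]; positivity)
  rw [dslope_same] at h1
  intro h
  rw [h, zero_sub, norm_neg] at h1
  have := G_pos hp
  linarith

end

end Pool.Agent.Q75.Bw
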