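import Pool.Agent.Q75.BwD

set_option autoImplicit false

/-!
All critical points are in the wandering domains; points with prescribed itineraries.
-/

open Filter Topology Metric Set

namespace Pool.Agent.Q75.Bw

open Pool.Agent.H384R2.Fatou Pool.Agent.W723.MC

theorem f_odd (z : ℂ) : f (-z) = -f z := by
  simp only [f, neg_sq]; ring

theorem deriv_neg_arg (z : ℂ) : deriv f (-z) = deriv f z := by
  have h1 : HasDerivAt f (deriv f z) z := f_differentiable.differentiableAt.hasDerivAt
  have h2 : HasDerivAt (fun w => -f (-w)) (deriv f z) (-z) := by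
    have h3 : HasDerivAt (fun w : ℂ => f (-w)) (deriv f z * -1) (-z) := by
      have h4 : HasDerivAt (fun w : ℂ => -w) (-1) (-z) := (hasDerivAt_id (-z)).neg
      have h5 : HasDerivAt f (deriv f z) (-(-z)) := by rw [neg_neg]; exact h1
      exact HasDerivAt.comp (-z) h5 h4
    have h6 := h3.neg
    refine h6.congr_deriv ?_
    ring
  have e : (fun w => -f (-w)) = f := by
    funext w; rw [f_odd]; ring
  rw [e] at h2
  exact h2.deriv

theorem deriv_zero_ne : deriv f 0 ≠ 0 := by
  have h1 : ∀ n, deriv (P n) 0 = 8000000 := by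
    intro n
    have h2 : DifferentiableAt ℂ (fun z : ℂ => ∏ j ∈ Finset.range n, (1 - z ^ 2 / (a j : ℂ) ^ 2)) 0 := by
      fun_prop
    have h3 : HasDerivAt (fun z : ℂ => 8000000 * z) (8000000 * 1) 0 :=
      (hasDerivAt_id (0 : ℂ)).const_mul _
    have h4 := (h3.mul h2.hasDerivAt).deriv
    refine h4.trans ?_
    simp
  have h2 := tendsto_deriv_P 0
  simp only [h1] at h2
  have h3 := tendsto_nhds_unique h2 tendsto_const_nhds
  rw [h3]
  norm_num

/-- points between consecutive zeros -/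
theorem same_of {k : ℕ} {x c : ℝ} (hx1 : x < a k) (hx2 : ∀ j < k, a j < x) (hx0 : 0 < x)
    (hc1 : c < a k) (hc2 : ∀ j < k, a j < c) (hc0 : 0 < c) : Same x c := by
  refine ⟨hx0, hc0, fun j => ?_⟩
  rcases Nat.lt_or_ge j k with h | h
  · exact div_pos (by linarith [hx2 j h]) (by linarith [hc2 j h])
  · have := a_mono h
    exact div_pos_of_neg_of_neg (by linarith) (by linarith)

theorem half_real {k : ℕ} : 750 * a (k + 1) ≤ ‖f ((a k / 2 : ℝ) : ℂ)‖ := by
  apply E1
  rw [Complex.norm_real, Real.norm_eq_abs, abs_of_pos (by linarith [a_pos k])]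

theorem crit_real {r : ℝ} (hr : 0 < r) (h : deriv f (r : ℂ) = 0) :
    ∃ k, ∀ z : ℂ, ‖z‖ = r → z ∈ U k := by
  classical
  have hex : ∃ k, r < a k := (a_tendsto.eventually_gt_atTop r).exists
  set k := Nat.find hex with hk
  have h1 : r < a k := Nat.find_spec hex
  have h2 : ∀ j < k, a j < r := by
    intro j hj
    have h3 := Nat.find_min hex hj
    push Not at h3
    rcases h3.lt_or_eq with h4 | h4
    · exact h4
    · exfalso
      rw [← h4] at h
      exact deriv_p_ne (k := j) rfl h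
  have hA := a_pos k
  have hs : Same (a k / 2) r := by
    refine same_of (by linarith) (fun j hj => ?_) (by linarith) h1 h2 hr
    linarith [a_lt hj, a_pos j]
  have h3 := crit_max hs h
  have h4 := @half_real k
  refine ⟨k, fun z hz => circle_U hr (by linarith) ?_ hz⟩
  linarith [a_pos (k + 1)]

/-- every critical point is in one of the wandering domains -/
theorem crit_mem {c : ℂ} (h : deriv f c = 0) : ∃ k, c ∈ U k := by
  have him : c.im = 0 := by
    by_contra h1
    exact deriv_ne_of_im h1 h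
  have hc : c = (c.re : ℂ) := by
    apply Complex.ext
    · simp
    · simp [him]
  have hn : ‖c‖ = |c.re| := by rw [hc, Complex.norm_real, Real.norm_eq_abs]; simp
  rcases lt_trichotomy c.re 0 with h1 | h1 | h1
  · have h2 : deriv f ((-c.re : ℝ) : ℂ) = 0 := by
      rw [Complex.ofReal_neg, deriv_neg_arg, ← hc]; exact h
    obtain ⟨k, hk⟩ := crit_real (by linarith) h2
    exact ⟨k, hk c (by rw [hn, abs_of_neg h1])⟩
  · exfalso
    rw [hc, h1, Complex.ofReal_zero] at h
    exact deriv_zero_ne h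
  · rw [hc] at h
    obtain ⟨k, hk⟩ := crit_real h1 h
    exact ⟨k, hk c (by rw [hn, abs_of_pos h1])⟩

/-! ### small circles around the zeros -/

/-- radii -/
noncomputable def rad (k : ℕ) : ℝ := a k / (64 * (k + 1))

theorem rad_pos (k : ℕ) : 0 < rad k := by
  have := a_pos k
  unfold rad; positivity

theorem rad_le (k : ℕ) : rad k ≤ a k / 64 := by
  have hA := a_pos k
  have hk : (0 : ℝ) ≤ k := Nat.cast_nonneg k
  unfold rad
  apply div_le_div_of_nonneg_left hA.le (by norm_num)
  linarith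

theorem sphere_U {k : ℕ} {p : ℂ} (hp : p ^ 2 = (a k : ℂ) ^ 2) {z : ℂ} (hz : ‖z - p‖ = rad k) :
    z ∈ U k := by
  have hA := a_pos k
  have hA' := a_pos (k + 1)
  have hstep := a_step k
  have hr0 := rad_pos k
  have hr1 := rad_le k
  have hpn := norm_p hp
  set t₁ : ℝ := 1 - rad k / a k with ht₁
  have ht₁' : t₁ * a k = a k - rad k := by rw [ht₁]; field_simp
  have ht1 : 1 / 2 ≤ t₁ := by
    rw [ht₁]
    have : rad k / a k ≤ 1 / 64 := by rw [div_le_iff₀ hA]; linarith
    linarith
  have ht2 : t₁ < 1 := by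
    rw [ht₁]
    have : 0 < rad k / a k := by positivity
    linarith
  set S1 : Set ℂ := sphere p (rad k) with hS1
  set S2 : Set ℂ := (fun t : ℝ => (t : ℂ) * p) '' Icc (1 / 2) t₁ with hS2
  have h1 : IsPreconnected S1 :=
    isPreconnected_sphere (by rw [Complex.rank_real_complex]; norm_num) p (rad k)
  have h2 : IsPreconnected S2 := isPreconnected_Icc.image _ (by fun_prop)
  have hI : (t₁ : ℂ) * p ∈ S1 := by
    rw [hS1, mem_sphere, dist_eq_norm]
    have e : (t₁ : ℂ) * p - p = ((t₁ - 1 : ℝ) : ℂ) * p := by push_cast; ring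
    rw [e, norm_mul, Complex.norm_real, Real.norm_eq_abs, abs_of_neg (by linarith), hpn]
    nlinarith
  have h3 : IsPreconnected (S1 ∪ S2) :=
    IsPreconnected.union _ hI ⟨t₁, ⟨ht1, le_rfl⟩, rfl⟩ h1 h2
  -- the real segment
  have hq : 50 * a (k + 1) ≤ ‖f ((a k - rad k : ℝ) : ℂ)‖ := by
    apply small_circle (k := k) (p := (a k : ℂ)) rfl
    have e : ((a k - rad k : ℝ) : ℂ) - (a k : ℂ) = ((-rad k : ℝ) : ℂ) := by push_cast; ring
    rw [e, Complex.norm_real, Real.norm_eq_abs, abs_neg, abs_of_pos hr0]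
    rfl
  have hseg : ∀ t ∈ Icc (1 / 2) t₁, 50 * a (k + 1) ≤ ‖f ((t * a k : ℝ) : ℂ)‖ := by
    intro t ht
    have e1 : a k / 2 ≤ t * a k := by nlinarith [ht.1]
    have e2 : t * a k ≤ a k - rad k := by rw [← ht₁']; exact mul_le_mul_of_nonneg_right ht.2 hA.le
    have hlt : ∀ j < k, a j < a k / 2 := fun j hj => by linarith [a_lt hj, a_pos j]
    refine quasi (p := a k / 2) (q := a k - rad k) ?_ ?_ e1 e2 ?_ hq
    · exact same_of (k := k) (by linarith) hlt (by linarith) (by linarith)
        (fun j hj => by linarith [hlt j hj]) (by linarith)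
    · exact same_of (k := k) (by linarith) (fun j hj => by linarith [hlt j hj]) (by linarith)
        (by linarith) (fun j hj => by linarith [hlt j hj]) (by linarith)
    · linarith [@half_real k]
  have hmap : ∀ w ∈ S1 ∪ S2, f w ∈ H (k + 1) := by
    intro w hw
    rcases hw with hw | ⟨t, ht, rfl⟩
    · rw [hS1, mem_sphere, dist_eq_norm] at hw
      apply mem_H
      · have h4 : ‖w‖ ≤ ‖w - p‖ + ‖p‖ := by simpa using norm_add_le (w - p) p
        rw [hpn, hw] at h4
        linarith
      · have := small_circle hp hw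
        linarith
    · have ht0 : 0 < t := by linarith [ht.1]
      have e : ‖(t : ℂ) * p‖ = t * a k := by
        rw [norm_mul, Complex.norm_real, Real.norm_eq_abs, abs_of_pos ht0, hpn]
      apply mem_H
      · show ‖(t : ℂ) * p‖ ≤ _
        rw [e]
        nlinarith [ht.2]
      · have h4 := min_real ((t : ℂ) * p)
        rw [e] at h4
        have h5 := hseg t ht
        show _ < ‖f ((t : ℂ) * p)‖
        linarith
  have hend : ((1 / 2 : ℝ) : ℂ) * p ∈ S2 := ⟨1 / 2, ⟨le_rfl, ht1⟩, rfl⟩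
  have hendU : ((1 / 2 : ℝ) : ℂ) * p ∈ U k := by
    apply half_U
    rw [norm_mul, Complex.norm_real, Real.norm_eq_abs, abs_of_pos (by norm_num), hpn]
    ring
  apply sub_U h3 (fun w hw => fatou_of_H (hmap w hw)) ⟨_, Or.inr hend, hendU⟩
  left
  rw [hS1, mem_sphere, dist_eq_norm]
  exact hz

/-- the small disc is mapped onto a large disc -/
theorem disc_onto {k : ℕ} {p : ℂ} (hp : p ^ 2 = (a k : ℂ) ^ 2) {w : ℂ}
    (hw : ‖w‖ < 50 * a (k + 1)) : ∃ z ∈ ball p (rad k), f z = w := by
  have hr0 := rad_pos k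
  have h1 : ball (0 : ℂ) (50 * a (k + 1)) ⊆ f '' ball p (rad k) := by
    apply (convex_ball _ _).isPreconnected.subset_of_closure_inter_subset (f_open _ isOpen_ball)
    · refine ⟨0, mem_ball_self (by linarith [a_pos (k + 1)]), p, mem_ball_self hr0, f_p hp⟩
    · rintro y ⟨hy1, hy2⟩
      have h4 : closure (f '' ball p (rad k)) ⊆ f '' closedBall p (rad k) :=
        closure_minimal (image_mono ball_subset_closedBall)
          ((isCompact_closedBall _ _).image f_cont).isClosed
      obtain ⟨z, hz, rfl⟩ := h4 hy1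
      refine ⟨z, ?_, rfl⟩
      rw [mem_closedBall, dist_eq_norm] at hz
      rw [mem_ball, dist_eq_norm]
      rcases hz.lt_or_eq with h5 | h5
      · exact h5
      · exfalso
        have h6 := small_circle hp h5
        rw [mem_ball_zero_iff] at hy2
        linarith
  obtain ⟨z, hz, hzw⟩ := h1 (mem_ball_zero_iff.2 hw)
  exact ⟨z, hz, hzw⟩

/-! ### itineraries -/

/-- the centres -/
noncomputable def ctr (b : Bool) (k : ℕ) : ℂ := if b then (a k : ℂ) else -(a k : ℂ)

theorem ctr_sq (b : Bool) (k : ℕ) : ctr b k ^ 2 = (a k : ℂ) ^ 2 := by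
  cases b <;> simp [ctr]

theorem norm_ctr (b : Bool) (k : ℕ) : ‖ctr b k‖ = a k := norm_p (ctr_sq b k)

theorem norm_le_of_disc {b : Bool} {k : ℕ} {z : ℂ} (hz : ‖z - ctr b k‖ ≤ rad k) :
    ‖z‖ ≤ 2 * a k := by
  have h1 := rad_le k
  have h2 := a_pos k
  have h4 : ‖z‖ ≤ ‖z - ctr b k‖ + ‖ctr b k‖ := by simpa using norm_add_le (z - ctr b k) (ctr b k)
  rw [norm_ctr] at h4
  linarith

/-- points with a finite itinerary which are mapped to `0` -/
theorem hits (s : ℕ → Bool) (n : ℕ) : ∀ m, ∃ z : ℂ,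
    (∀ i ≤ n, ‖f^[i] z - ctr (s (m + i)) (m + i)‖ ≤ rad (m + i)) ∧ f^[n + 1] z = 0 := by
  induction n with
  | zero =>
    intro m
    refine ⟨ctr (s m) m, fun i hi => ?_, ?_⟩
    · have : i = 0 := by omega
      rw [this]
      simp only [Function.iterate_zero, id, add_zero, sub_self, norm_zero]
      exact (rad_pos m).le
    · rw [zero_add, Function.iterate_one]
      exact f_p (ctr_sq _ _)
  | succ n ih =>
    intro m
    obtain ⟨w, hw1, hw2⟩ := ih (m + 1)
    have h0 := hw1 0 (Nat.zero_le _)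
    simp only [Function.iterate_zero, id, add_zero] at h0
    have h1 := norm_le_of_disc h0
    obtain ⟨z, hz, hzw⟩ := disc_onto (ctr_sq (s m) m) (w := w) (by linarith [a_pos (m + 1)])
    rw [mem_ball, dist_eq_norm] at hz
    refine ⟨z, fun i hi => ?_, ?_⟩
    · rcases i with _ | i
      · exact hz.le
      · rw [Function.iterate_succ_apply, hzw]
        have h2 := hw1 i (by omega)
        have e : m + 1 + i = m + (i + 1) := by omega
        rwa [e] at h2
    · rw [Function.iterate_succ_apply, hzw]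
      exact hw2

/-- expansion along itineraries -/
theorem itin_expand (s : ℕ → Bool) (m : ℕ) {y y' : ℂ} (n : ℕ)
    (h : ∀ i ≤ n, ‖f^[i] y - ctr (s (m + i)) (m + i)‖ ≤ rad (m + i))
    (h' : ∀ i ≤ n, ‖f^[i] y' - ctr (s (m + i)) (m + i)‖ ≤ rad (m + i)) :
    2 ^ n * ‖y - y'‖ ≤ a m := by
  have hG : ∀ k (b : Bool) (u v : ℂ), ‖u - ctr b k‖ ≤ rad k → ‖v - ctr b k‖ ≤ rad k →
      2 * a (k + 1) * ‖u - v‖ ≤ a k * ‖f u - f v‖ := by
    intro k b u v hu hv
    have h1 := expand (ctr_sq b k) hu hv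
    have h2 := G_ge (ctr_sq b k)
    have hA := a_pos k
    have h3 : a k / (64 * ((k : ℝ) + 1)) ≤ a k := by
      have := rad_le k
      unfold rad at this
      linarith
    have h4 : 80 * a (k + 1) ≤ a k * ‖G k (ctr b k) (ctr b k)‖ :=
      h2.trans (mul_le_mul_of_nonneg_right h3 (norm_nonneg _))
    have h5 := a_pos (k + 1)
    have h6 : 0 ≤ ‖u - v‖ := norm_nonneg _
    have h7 : a k * (1 / 2 * ‖G k (ctr b k) (ctr b k)‖ * ‖u - v‖) ≤ a k * ‖f u - f v‖ := by gcongr
    have h8 : 80 * a (k + 1) * ‖u - v‖ ≤ a k * ‖G k (ctr b k) (ctr b k)‖ * ‖u - v‖ := by gcongr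
    nlinarith
  have key : ∀ i ≤ n, 2 ^ i * a (m + i) * ‖y - y'‖ ≤ a m * ‖f^[i] y - f^[i] y'‖ := by
    intro i
    induction i with
    | zero => intro _; simp
    | succ i ih =>
      intro hi
      have h1 := ih (by omega)
      have h2 := hG (m + i) _ _ _ (h i (by omega)) (h' i (by omega))
      rw [Function.iterate_succ_apply', Function.iterate_succ_apply']
      have hA := a_pos (m + i)
      have hM := a_pos m
      have e : m + (i + 1) = m + i + 1 := rfl
      rw [e]
      have h3 : a (m + i) * (2 ^ (i + 1) * a (m + i + 1) * ‖y - y'‖) ≤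
          a (m + i) * (a m * ‖f (f^[i] y) - f (f^[i] y')‖) := by
        calc a (m + i) * (2 ^ (i + 1) * a (m + i + 1) * ‖y - y'‖)
            = 2 * a (m + i + 1) * (2 ^ i * a (m + i) * ‖y - y'‖) := by ring
          _ ≤ 2 * a (m + i + 1) * (a m * ‖f^[i] y - f^[i] y'‖) := by
              have := a_pos (m + i + 1)
              gcongr
          _ = a m * (2 * a (m + i + 1) * ‖f^[i] y - f^[i] y'‖) := by ring
          _ ≤ a m * (a (m + i) * ‖f (f^[i] y) - f (f^[i] y')‖) := by gcongr
          _ = _ := by ring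
      exact le_of_mul_le_mul_left h3 hA
  have h1 := key n le_rfl
  have h2 : ‖f^[n] y - f^[n] y'‖ ≤ a (m + n) := by
    have h3 := norm_sub_le_norm_sub_add_norm_sub (f^[n] y) (ctr (s (m + n)) (m + n)) (f^[n] y')
    rw [norm_sub_rev (ctr (s (m + n)) (m + n))] at h3
    have h4 := rad_le (m + n)
    have h5 := a_pos (m + n)
    linarith [h n le_rfl, h' n le_rfl]
  have hA := a_pos (m + n)
  have hM := a_pos m
  have h3 : a (m + n) * (2 ^ n * ‖y - y'‖) ≤ a (m + n) * a m := by
    calc a (m + n) * (2 ^ n * ‖y - y'‖) = 2 ^ n * a (m + n) * ‖y - y'‖ := by ring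
      _ ≤ _ := h1
      _ ≤ a m * a (m + n) := by gcongr
      _ = _ := by ring
  exact le_of_mul_le_mul_left h3 hA

/-- `z` has the itinerary `s` from level `m` on -/
def Itin (s : ℕ → Bool) (m : ℕ) (z : ℂ) : Prop :=
  ∀ i, ‖f^[i] z - ctr (s (m + i)) (m + i)‖ ≤ rad (m + i)

theorem itin_exists (s : ℕ → Bool) (m : ℕ) : ∃ z, Itin s m z := by
  set K : ℕ → Set ℂ := fun n => {z | ∀ i ≤ n, ‖f^[i] z - ctr (s (m + i)) (m + i)‖ ≤ rad (m + i)}
    with hK
  have hcl : ∀ n, IsClosed (K n) := by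
    intro n
    have : K n = ⋂ i, ⋂ (_ : i ≤ n), {z | ‖f^[i] z - ctr (s (m + i)) (m + i)‖ ≤ rad (m + i)} := by
      ext z; simp [hK]
    rw [this]
    refine isClosed_iInter fun i => isClosed_iInter fun _ => ?_
    exact isClosed_le (((f_cont.iterate i).sub continuous_const).norm) continuous_const
  have hsub : K 0 ⊆ closedBall (ctr (s m) m) (rad m) := by
    intro z hz
    have := hz 0 le_rfl
    rw [mem_closedBall, dist_eq_norm]
    exact this
  have hc0 : IsCompact (K 0) := (isCompact_closedBall _ _).of_isClosed_subset (hcl 0) hsub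
  obtain ⟨z, hz⟩ := IsCompact.nonempty_iInter_of_sequence_nonempty_isCompact_isClosed K
    (fun n z hz i hi => hz i (by omega)) (fun n => by
      obtain ⟨z, hz, -⟩ := hits s n m
      exact ⟨z, hz⟩) hc0 hcl
  rw [mem_iInter] at hz
  exact ⟨z, fun i => hz i i le_rfl⟩

theorem eq_of_pow {t c : ℝ} (ht : 0 ≤ t) (h : ∀ n : ℕ, 2 ^ n * t ≤ c) : t = 0 := by
  by_contra hne
  have h0 : 0 < t := lt_of_le_of_ne ht (Ne.symm hne)
  have h1 : Tendsto (fun n : ℕ => (2 : ℝ) ^ n * t) atTop atTop :=
    (tendsto_pow_atTop_atTop_of_one_lt (by norm_num)).atTop_mul_const h0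
  obtain ⟨n, hn⟩ := (h1.eventually_gt_atTop c).exists
  linarith [h n]

theorem itin_unique {s : ℕ → Bool} {m : ℕ} {y y' : ℂ} (h : Itin s m y) (h' : Itin s m y') :
    y = y' := by
  have h1 : ‖y - y'‖ = 0 := eq_of_pow (norm_nonneg _) fun n =>
    itin_expand s m n (fun i _ => h i) fun i _ => h' i
  rwa [norm_eq_zero, sub_eq_zero] at h1

theorem itin_not_U {s : ℕ → Bool} {m : ℕ} {z : ℂ} (h : Itin s m z) : z ∉ U m := by
  intro hz
  obtain ⟨ε, hε, hb⟩ := Metric.isOpen_iff.1 (U_open m) z hz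
  have h1 : Tendsto (fun n : ℕ => (2 : ℝ) ^ n * ε) atTop atTop :=
    (tendsto_pow_atTop_atTop_of_one_lt (by norm_num)).atTop_mul_const hε
  obtain ⟨n, hn⟩ := (h1.eventually_gt_atTop (a m)).exists
  obtain ⟨y, hy1, hy2⟩ := hits s n m
  have h2 := itin_expand s m n (y := y) (y' := z) hy1 (fun i _ => h i)
  have h3 : ‖y - z‖ < ε := by
    have : (2 : ℝ) ^ n * ‖y - z‖ < 2 ^ n * ε := by linarith
    exact lt_of_mul_lt_mul_left this (by positivity)
  exact not_U_of_hits hy2 (hb (by rwa [mem_ball, dist_eq_norm]))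

/-- a connected set that misses `U m` and contains the point with itinerary `s` is this point -/
theorem single {s : ℕ → Bool} {m : ℕ} {z : ℂ} (h : Itin s m z) {X : Set ℂ} (hX : IsPreconnected X)
    (hz : z ∈ X) (hXU : ∀ w ∈ X, w ∉ U m) : X ⊆ {z} := by
  -- the images
  have key : ∀ i, (∀ w ∈ X, f^[i] w ∉ U (m + i)) ∧
      ∀ w ∈ X, ‖f^[i] w - ctr (s (m + i)) (m + i)‖ ≤ rad (m + i) := by
    have hdisc : ∀ i, (∀ w ∈ X, f^[i] w ∉ U (m + i)) →
        ∀ w ∈ X, ‖f^[i] w - ctr (s (m + i)) (m + i)‖ ≤ rad (m + i) := by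
      intro i hi w hw
      by_contra hcon
      push Not at hcon
      have h1 : IsPreconnected (f^[i] '' X) := hX.image _ (f_cont.iterate i).continuousOn
      have h2 := h1.intermediate_value (⟨z, hz, rfl⟩ : f^[i] z ∈ f^[i] '' X)
        (⟨w, hw, rfl⟩ : f^[i] w ∈ f^[i] '' X)
        (f := fun v => ‖v - ctr (s (m + i)) (m + i)‖) (by fun_prop)
      obtain ⟨v, ⟨u, hu, rfl⟩, hv⟩ := h2 ⟨h i, hcon.le⟩
      exact hi u hu (sphere_U (ctr_sq _ _) hv)
    intro i
    induction i with
    | zero =>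
      have h0 : ∀ w ∈ X, f^[0] w ∉ U (m + 0) := hXU
      exact ⟨h0, hdisc 0 h0⟩
    | succ i ih =>
      have h0 : ∀ w ∈ X, f^[i + 1] w ∉ U (m + (i + 1)) := by
        intro w hw hcon
        rw [Function.iterate_succ_apply'] at hcon
        have h1 := norm_le_of_disc (ih.2 w hw)
        exact ih.1 w hw (back (by linarith [a_pos (m + i)]) hcon)
      exact ⟨h0, hdisc (i + 1) h0⟩
  intro w hw
  exact itin_unique (fun i => (key i).2 w hw) h

theorem itin_inj {s s' : ℕ → Bool} {m : ℕ} {z : ℂ} (h : Itin s m z) (h' : Itin s' m z) (i : ℕ) :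
    s (m + i) = s' (m + i) := by
  by_contra hne
  have h1 := h i
  have h2 := h' i
  have h3 := norm_sub_le_norm_sub_add_norm_sub (ctr (s (m + i)) (m + i)) (f^[i] z)
    (ctr (s' (m + i)) (m + i))
  rw [norm_sub_rev (ctr (s (m + i)) (m + i)) (f^[i] z)] at h3
  have h4 := rad_le (m + i)
  have h5 := a_pos (m + i)
  have h6 : ‖ctr (s (m + i)) (m + i) - ctr (s' (m + i)) (m + i)‖ = 2 * a (m + i) := by
    have e : ∀ b b' : Bool, b ≠ b' → ‖ctr b (m + i) - ctr b' (m + i)‖ = 2 * a (m + i) := by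
      intro b b' hb
      have e2 : ∀ t : ℂ, ‖t‖ = a (m + i) → ‖t + t‖ = 2 * a (m + i) := by
        intro t ht
        rw [← two_mul, norm_mul, ht]; norm_num
      have e3 : ‖(a (m + i) : ℂ)‖ = a (m + i) := by
        rw [Complex.norm_real, Real.norm_eq_abs, abs_of_pos h5]
      cases b <;> cases b'
      · exact absurd rfl hb
      · simp only [ctr]
        simp only [Bool.false_eq_true, if_false, if_true]
        rw [← neg_add', norm_neg]
        exact e2 _ e3
      · simp only [ctr]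
        simp only [Bool.false_eq_true, if_false, if_true, sub_neg_eq_add]
        exact e2 _ e3
      · exact absurd rfl hb
    exact e _ _ hne
  linarith

end Pool.Agent.Q75.Bw
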