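import Pool.Agent.Q75.BwE
import Pool.Agent.TH224.SC.Defs

/-!
Complementary components in the Riemann sphere.
-/

set_option autoImplicit false

open Filter Topology Metric Set Polynomial

namespace Pool.Agent.Q75.Bw

open Pool.Agent.H384R2.Fatou Pool.Agent.W723.MC Pool.Agent.TH224.SC

/-- a component of the complement inside a disc whose boundary circle is in the set -/
theorem sep {A : Set ℂ} {p z : ℂ} {ρ : ℝ} (hz : ‖z - p‖ < ρ) (hzA : z ∉ A)
    (hS : ∀ w : ℂ, ‖w - p‖ = ρ → w ∈ A) :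
    ∃ X : Set ℂ, IsPreconnected X ∧ z ∈ X ∧ (∀ w ∈ X, w ∉ A) ∧ (∀ w ∈ X, ‖w - p‖ < ρ) ∧
      connectedComponentIn (((↑) : ℂ → OnePoint ℂ) '' A)ᶜ (z : OnePoint ℂ) =
        ((↑) : ℂ → OnePoint ℂ) '' X := by
  set B : Set (OnePoint ℂ) := ((↑) : ℂ → OnePoint ℂ) '' A with hB
  have hxA : ((z : ℂ) : OnePoint ℂ) ∈ Bᶜ := by
    rintro ⟨w, hw, hwz⟩
    rw [OnePoint.coe_injective hwz] at hw
    exact hzA hw
  set C := connectedComponentIn Bᶜ (z : OnePoint ℂ) with hC
  have hCp : IsPreconnected C := isPreconnected_connectedComponentIn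
  have hCA : C ⊆ Bᶜ := connectedComponentIn_subset _ _
  have hzC : ((z : ℂ) : OnePoint ℂ) ∈ C := mem_connectedComponentIn hxA
  set D0 : Set (OnePoint ℂ) := ((↑) : ℂ → OnePoint ℂ) '' closedBall p ρ with hD0
  set D1 : Set (OnePoint ℂ) := (((↑) : ℂ → OnePoint ℂ) '' ball p ρ)ᶜ with hD1
  have hD0c : IsClosed D0 :=
    ((isCompact_closedBall p ρ).image OnePoint.continuous_coe).isClosed
  have hD1c : IsClosed D1 :=
    (OnePoint.isOpenEmbedding_coe.isOpenMap _ isOpen_ball).isClosed_compl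
  have hcov : C ⊆ D0 ∪ D1 := by
    intro w _
    by_cases hw1 : w ∈ D1
    · exact Or.inr hw1
    · left
      have hw2 : w ∈ ((↑) : ℂ → OnePoint ℂ) '' ball p ρ := by
        by_contra h3
        exact hw1 h3
      obtain ⟨v, hv, rfl⟩ := hw2
      exact ⟨v, ball_subset_closedBall hv, rfl⟩
  have hCD : ∀ w ∈ C, w ∉ D1 := by
    intro w hw hw1
    obtain ⟨v, hvC, hv1, hv2⟩ := isPreconnected_closed_iff.1 hCp D0 D1 hD0c hD1c hcov
      ⟨_, hzC, ⟨z, by rw [mem_closedBall, dist_eq_norm]; exact hz.le, rfl⟩⟩ ⟨w, hw, hw1⟩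
    obtain ⟨u, hu, rfl⟩ := hv1
    apply hCA hvC
    refine ⟨u, hS u ?_, rfl⟩
    rw [mem_closedBall, dist_eq_norm] at hu
    rcases lt_or_eq_of_le hu with h | h
    · exact absurd ⟨u, by rw [mem_ball, dist_eq_norm]; exact h, rfl⟩ hv2
    · exact h
  have hCD0 : ∀ w ∈ C, ∃ v : ℂ, ‖v - p‖ < ρ ∧ (v : OnePoint ℂ) = w := by
    intro w hw
    have hw2 : w ∈ ((↑) : ℂ → OnePoint ℂ) '' ball p ρ := by
      by_contra h3
      exact hCD w hw h3
    obtain ⟨v, hv, rfl⟩ := hw2
    exact ⟨v, by rwa [mem_ball, dist_eq_norm] at hv, rfl⟩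
  set X : Set ℂ := ((↑) : ℂ → OnePoint ℂ) ⁻¹' C with hX
  have hXC : ((↑) : ℂ → OnePoint ℂ) '' X = C := by
    rw [hX, image_preimage_eq_inter_range]
    apply inter_eq_left.2
    intro w hw
    obtain ⟨v, -, rfl⟩ := hCD0 w hw
    exact ⟨v, rfl⟩
  refine ⟨X, ?_, hzC, ?_, ?_, hXC.symm⟩
  · rw [← OnePoint.isOpenEmbedding_coe.isInducing.isPreconnected_image, hXC]
    exact hCp
  · intro w hw hwA
    exact hCA hw ⟨w, hwA, rfl⟩
  · intro w hw
    obtain ⟨v, hv, hvw⟩ := hCD0 _ hw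
    rwa [OnePoint.coe_injective hvw] at hv

/-- a point with an itinerary is strictly inside its disc -/
theorem itin_lt {s : ℕ → Bool} {m : ℕ} {z : ℂ} (h : Itin s m z) : ‖z - ctr (s m) m‖ < rad m := by
  have h0 : ‖z - ctr (s m) m‖ ≤ rad m := h 0
  rcases lt_or_eq_of_le h0 with h1 | h1
  · exact h1
  · exact absurd (sphere_U (ctr_sq _ _) h1) (itin_not_U h)

/-- the point with an itinerary is a singleton component -/
theorem itin_comp {s : ℕ → Bool} {m : ℕ} {z : ℂ} (h : Itin s m z) :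
    connectedComponentIn (((↑) : ℂ → OnePoint ℂ) '' U m)ᶜ (z : OnePoint ℂ) =
      {(z : OnePoint ℂ)} := by
  obtain ⟨X, hX, hzX, hXU, -, hC⟩ := sep (itin_lt h) (itin_not_U h)
    (fun w hw => sphere_U (ctr_sq _ _) hw)
  have h1 := single h hX hzX hXU
  have h2 : X = {z} := Subset.antisymm h1 (singleton_subset_iff.2 hzX)
  rw [hC, h2, image_singleton]

/-- the itinerary with a single change at the place `j` -/
def chg (j : ℕ) : ℕ → Bool := fun i => decide (i = j)

theorem holes_inf (m : ℕ) : (SphereHoles (U m)).Infinite := by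
  have hex : ∀ j, ∃ z, Itin (chg (m + j)) m z := fun j => itin_exists _ m
  choose z hz using hex
  apply Set.infinite_of_injective_forall_mem
    (f := fun j : ℕ => connectedComponentIn (((↑) : ℂ → OnePoint ℂ) '' U m)ᶜ (z j : OnePoint ℂ))
  · intro j k hjk
    have hjk : connectedComponentIn (((↑) : ℂ → OnePoint ℂ) '' U m)ᶜ (z j : OnePoint ℂ) =
      connectedComponentIn (((↑) : ℂ → OnePoint ℂ) '' U m)ᶜ (z k : OnePoint ℂ) := hjk
    rw [itin_comp (hz j), itin_comp (hz k), singleton_eq_singleton_iff] at hjk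
    have h1 : z j = z k := OnePoint.coe_injective hjk
    have h2 := hz k
    rw [← h1] at h2
    have h3 := itin_inj (hz j) h2 j
    simpa [chg] using h3
  · intro j
    refine ⟨_, ?_, rfl⟩
    rintro ⟨w, hw, hwz⟩
    rw [OnePoint.coe_injective hwz] at hw
    exact itin_not_U (hz j) hw

theorem zero_not_U (m : ℕ) : (0 : ℂ) ∉ U m := not_U_of_hits (j := 0) rfl

theorem zero_comp (m : ℕ) : connectedComponentIn (((↑) : ℂ → OnePoint ℂ) '' U m)ᶜ
    ((0 : ℂ) : OnePoint ℂ) ⊆ ((↑) : ℂ → OnePoint ℂ) '' ball 0 (a m / 2) := by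
  obtain ⟨X, -, -, -, hX, hC⟩ := sep (A := U m) (p := 0) (z := 0) (ρ := a m / 2)
    (by rw [sub_zero, norm_zero]; linarith [a_pos m]) (zero_not_U m)
    (fun w hw => half_U (by rwa [sub_zero] at hw))
  rw [hC]
  apply image_mono
  intro w hw
  have := hX w hw
  rwa [mem_ball, dist_eq_norm]

theorem U_bounded (m : ℕ) : Bornology.IsBounded (U m) := by
  apply (Metric.isBounded_ball (x := (0 : ℂ)) (r := a (m + 1) / 2)).subset
  intro z hz
  rw [mem_ball_zero_iff]
  exact U_bdd hz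

theorem transE : TransEntire f := by
  refine ⟨f_differentiable, ?_⟩
  rintro ⟨p, hp⟩
  -- growth of a polynomial
  obtain ⟨C, hC⟩ : ∃ C : ℝ, ∀ z : ℂ, 1 ≤ ‖z‖ → ‖p.eval z‖ ≤ C * ‖z‖ ^ p.natDegree := by
    refine ⟨∑ i ∈ Finset.range (p.natDegree + 1), ‖p.coeff i‖, fun z hz => ?_⟩
    rw [eval_eq_sum_range, Finset.sum_mul]
    apply norm_sum_le_of_le
    intro i hi
    rw [norm_mul, norm_pow]
    apply mul_le_mul_of_nonneg_left _ (norm_nonneg _)
    exact pow_le_pow_right₀ hz (by have := Finset.mem_range.1 hi; omega)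
  obtain ⟨r, h1, h2, h3⟩ := ((F_growth (p.natDegree + 1)).and
    ((eventually_gt_atTop C).and (eventually_ge_atTop 1))).exists
  have h0 : (0 : ℝ) < r := by linarith
  have h4 := hC (Complex.I * r) (by
    rw [norm_mul, Complex.norm_I, one_mul, Complex.norm_real, Real.norm_eq_abs, abs_of_pos h0]
    exact h3)
  rw [← hp, norm_imag h0.le, norm_mul, Complex.norm_I, one_mul, Complex.norm_real,
    Real.norm_eq_abs, abs_of_pos h0] at h4
  have h5 : r ^ (p.natDegree + 1) ≤ C * r ^ p.natDegree := h1.trans h4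
  have h7 : 0 < r ^ p.natDegree := by positivity
  rw [pow_succ, mul_comm] at h5
  have h8 : C * r ^ p.natDegree < r * r ^ p.natDegree := mul_lt_mul_of_pos_right h2 h7
  linarith

/-- `f` maps `U n` onto `U (n + 1)` -/
theorem U_surj (n : ℕ) : f '' U n = U (n + 1) := by
  apply Subset.antisymm
  · rintro _ ⟨z, hz, rfl⟩
    exact U_map n hz
  · apply (U_pre (n + 1)).subset_of_closure_inter_subset (f_open _ (U_open n))
    · exact ⟨X (n + 1), X_U (n + 1), X n, X_U n, X_succ n⟩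
    · rintro y ⟨hy1, hy2⟩
      have hK : IsCompact (closure (U n)) := (U_bounded n).isCompact_closure
      have h1 : closure (f '' U n) ⊆ f '' closure (U n) :=
        closure_minimal (image_mono subset_closure) (hK.image f_cont).isClosed
      obtain ⟨z, hz, rfl⟩ := h1 hy1
      have hzF : z ∈ FatouSet f := fatou_backward f_cont (U_fatou _ hy2)
      obtain ⟨ε, hε, hb⟩ := Metric.isOpen_iff.1 (isOpen_fatou f) z hzF
      obtain ⟨w, hw1, hw2⟩ := Metric.mem_closure_iff.1 hz ε hε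
      refine ⟨z, ?_, rfl⟩
      refine sub_U (convex_ball z ε).isPreconnected hb ⟨w, ?_, hw1⟩ (mem_ball_self hε)
      rw [mem_ball, dist_comm]
      exact hw2

theorem U_iter_eq (n k : ℕ) : f^[k] '' U n = U (n + k) := by
  induction k with
  | zero => simp
  | succ k ih =>
    rw [Function.iterate_succ', image_comp, ih, U_surj]
    rfl

end Pool.Agent.Q75.Bw
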