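import Pool.Agent.Q75.BwF

/-!
Infinite inner connectivity; uncountably many one-point complementary components.
-/

set_option autoImplicit false

open Filter Topology Metric Set

namespace Pool.Agent.Q75.Bw

open Pool.Agent.H384R2.Fatou Pool.Agent.W723.MC Pool.Agent.TH224.SC

theorem itin_comp' {s : ℕ → Bool} {m : ℕ} {z : ℂ} (h : Itin s m z) {ρ : ℝ} (hρ : 2 * a m < ρ) :
    z ∉ U m ∩ ball 0 ρ ∧
    connectedComponentIn (((↑) : ℂ → OnePoint ℂ) '' (U m ∩ ball 0 ρ))ᶜ (z : OnePoint ℂ) =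
      {(z : OnePoint ℂ)} := by
  have hz : z ∉ U m ∩ ball 0 ρ := fun h1 => itin_not_U h h1.1
  refine ⟨hz, ?_⟩
  have hin : ∀ w : ℂ, ‖w - ctr (s m) m‖ ≤ rad m → w ∈ ball (0 : ℂ) ρ := by
    intro w hw
    rw [mem_ball_zero_iff]
    exact (norm_le_of_disc hw).trans_lt hρ
  obtain ⟨X, hX, hzX, hXU, hXb, hC⟩ := sep (A := U m ∩ ball 0 ρ) (itin_lt h) hz
    (fun w hw => ⟨sphere_U (ctr_sq _ _) hw, hin w hw.le⟩)
  have h1 := single h hX hzX fun w hw hwU => hXU w hw ⟨hwU, hin w (hXb w hw).le⟩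
  have h2 : X = {z} := Subset.antisymm h1 (singleton_subset_iff.2 hzX)
  rw [hC, h2, image_singleton]

theorem holes_inf' (m : ℕ) {ρ : ℝ} (hρ : 2 * a m < ρ) :
    (SphereHoles (U m ∩ ball 0 ρ)).Infinite := by
  have hex : ∀ j, ∃ z, Itin (chg (m + j)) m z := fun j => itin_exists _ m
  choose z hz using hex
  apply Set.infinite_of_injective_forall_mem
    (f := fun j : ℕ => connectedComponentIn (((↑) : ℂ → OnePoint ℂ) '' (U m ∩ ball 0 ρ))ᶜ
      (z j : OnePoint ℂ))
  · intro j k hjk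
    have hjk : connectedComponentIn (((↑) : ℂ → OnePoint ℂ) '' (U m ∩ ball 0 ρ))ᶜ
        (z j : OnePoint ℂ) =
      connectedComponentIn (((↑) : ℂ → OnePoint ℂ) '' (U m ∩ ball 0 ρ))ᶜ (z k : OnePoint ℂ) := hjk
    rw [(itin_comp' (hz j) hρ).2, (itin_comp' (hz k) hρ).2, singleton_eq_singleton_iff] at hjk
    have h1 : z j = z k := OnePoint.coe_injective hjk
    have h2 := hz k
    rw [← h1] at h2
    have h3 := itin_inj (hz j) h2 j
    simpa [chg] using h3
  · intro j
    refine ⟨_, ?_, rfl⟩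
    rintro ⟨w, hw, hwz⟩
    rw [OnePoint.coe_injective hwz] at hw
    exact (itin_comp' (hz j) hρ).1 hw

theorem codes_uncountable : Uncountable (ℕ → Bool) := by
  rw [← Cardinal.aleph0_lt_mk_iff, Cardinal.mk_pi]
  simp only [Cardinal.prod_const, Cardinal.mk_bool, Cardinal.mk_nat, Cardinal.lift_id,
    Cardinal.two_power_aleph0]
  exact Cardinal.aleph0_lt_continuum

/-- uncountably many one-point components in the plane -/
theorem uncountable_single :
    ¬ {x : ℂ | x ∈ (U 0)ᶜ ∧ connectedComponentIn (U 0)ᶜ x = {x}}.Countable := by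
  intro hc
  have hex : ∀ s : ℕ → Bool, ∃ z, Itin s 0 z := fun s => itin_exists s 0
  choose z hz using hex
  have hinj : Function.Injective z := by
    intro s s' h
    have h2 := hz s'
    rw [← h] at h2
    funext i
    have := itin_inj (hz s) h2 i
    rwa [zero_add] at this
  have hsub : range z ⊆ {x : ℂ | x ∈ (U 0)ᶜ ∧ connectedComponentIn (U 0)ᶜ x = {x}} := by
    rintro _ ⟨s, rfl⟩
    have h1 : z s ∈ (U 0)ᶜ := itin_not_U (hz s)
    refine ⟨h1, Subset.antisymm ?_ (singleton_subset_iff.2 (mem_connectedComponentIn h1))⟩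
    exact single (hz s) isPreconnected_connectedComponentIn (mem_connectedComponentIn h1)
      fun w hw => connectedComponentIn_subset _ _ hw
  have h3 : (range z).Countable := hc.mono hsub
  have h4 : Countable (ℕ → Bool) := by
    have h5 : Countable (range z) := h3.to_subtype
    exact (Function.Injective.of_comp (f := Subtype.val) (g := fun s => (⟨z s, s, rfl⟩ : range z))
      (by intro s s' h; exact hinj h)).countable
  have h5 := codes_uncountable
  exact not_countable h4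

/-- Harnack chains -/
theorem chain {W : Set ℂ} (hWo : IsOpen W) (hWc : IsPreconnected W) {g : ℕ → ℂ → ℂ}
    (hg : ∀ n, DifferentiableOn ℂ (g n) W) (h1 : ∀ n, ∀ z ∈ W, 1 < ‖g n z‖) {p q : ℂ}
    (hp : p ∈ W) (hq : q ∈ W) :
    ∃ C : ℝ, 0 < C ∧ ∀ n, Real.log ‖g n p‖ ≤ C * Real.log ‖g n q‖ := by
  have hloc : ∀ w ∈ W, ∃ r : ℝ, 0 < r ∧ ball w r ⊆ W ∧ ∀ u ∈ ball w r, ∀ v ∈ ball w r, ∀ n,
      Real.log ‖g n u‖ ≤ 3 * Real.log ‖g n v‖ := by
    intro w hw
    obtain ⟨r, hr, hb⟩ := Metric.isOpen_iff.1 hWo w hw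
    refine ⟨r / 8, by linarith, (ball_subset_ball (by linarith)).trans hb, ?_⟩
    intro u hu v hv n
    have hsub : ball v (r / 2) ⊆ W := by
      refine Subset.trans ?_ hb
      apply ball_subset_ball'
      rw [mem_ball] at hv
      linarith
    have h2 := harnack_half (g := g n) (c := v) (r := r / 2) (z := u) (t := 1 / 2) (by linarith)
      ((hg n).mono hsub) (fun z hz => h1 n z (hsub hz)) (by norm_num) (by
        rw [mem_ball] at hu hv
        have := dist_triangle_right u v w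
        linarith) (by norm_num)
    norm_num at h2
    exact h2
  set T : Set ℂ := {q | q ∈ W ∧ ∃ C : ℝ, 0 < C ∧ ∀ n, Real.log ‖g n p‖ ≤ C * Real.log ‖g n q‖}
    with hT
  have hTo : IsOpen T := by
    rw [Metric.isOpen_iff]
    rintro w ⟨hw, C, hC, h2⟩
    obtain ⟨r, hr, hb, h3⟩ := hloc w hw
    refine ⟨r, hr, fun v hv => ⟨hb hv, 3 * C, by linarith, fun n => ?_⟩⟩
    have h4 := h3 w (mem_ball_self hr) v hv n
    have h5 := h2 n
    nlinarith
  have hsub : W ⊆ T := by
    apply hWc.subset_of_closure_inter_subset hTo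
    · exact ⟨p, hp, hp, 1, one_pos, fun n => by rw [one_mul]⟩
    · rintro w ⟨hw1, hw2⟩
      obtain ⟨r, hr, hb, h3⟩ := hloc w hw2
      obtain ⟨v, ⟨hvW, C, hC, h2⟩, hv⟩ := Metric.mem_closure_iff.1 hw1 r hr
      refine ⟨hw2, 3 * C, by linarith, fun n => ?_⟩
      have h4 := h3 v (by rw [mem_ball, dist_comm]; exact hv) w (mem_ball_self hr) n
      have h5 := h2 n
      nlinarith
  exact (hsub hq).2

/-- upper bound for the sequence `a` -/
theorem a_upper (n : ℕ) : a (n + 1) ≤ 3000 * a n ^ (2 * n + 1) := by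
  have hA := a_pos n
  rw [a_succ, Finset.prod_range_succ]
  have h5 : |1 - (a n / 2) ^ 2 / (a n) ^ 2| = 3 / 4 := by
    have : 1 - (a n / 2) ^ 2 / (a n) ^ 2 = 3 / 4 := by field_simp; norm_num
    rw [this]; norm_num
  rw [h5]
  have h6 : ∏ j ∈ Finset.range n, |1 - (a n / 2) ^ 2 / (a j) ^ 2| ≤
      ∏ j ∈ Finset.range n, a n ^ 2 := by
    apply Finset.prod_le_prod (fun _ _ => abs_nonneg _)
    intro j hj
    have h1 := a_lt (Finset.mem_range.1 hj)
    have h2 := a_pos j
    have h3 := one_le_a j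
    have h4 : (a n / 2) ^ 2 / (a j) ^ 2 ≤ a n ^ 2 := by
      rw [div_le_iff₀ (by positivity)]
      have : (1 : ℝ) ≤ a j ^ 2 := by nlinarith
      nlinarith [sq_nonneg (a n)]
    have h4' : 1 ≤ a n ^ 2 := by have := one_le_a n; nlinarith
    have h4'' : 0 ≤ (a n / 2) ^ 2 / (a j) ^ 2 := by positivity
    rw [abs_le]
    constructor <;> linarith
  rw [Finset.prod_const, Finset.card_range] at h6
  have e : a n ^ (2 * n + 1) = (a n ^ 2) ^ n * a n := by rw [pow_succ, pow_mul]
  rw [e]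
  have h7 := mul_le_mul_of_nonneg_left h6 hA.le
  nlinarith [h7]

/-- growth of `x n / a n` -/
theorem sigma_step (n : ℕ) : (x n / a n) ^ (2 * n + 3) ≤ x (n + 1) / a (n + 1) := by
  have hA := a_pos n
  have hA' := a_pos (n + 1)
  have hx := x_pos n
  rw [le_div_iff₀ hA']
  have h1 : mx (n + 1) (x n) ≤ x (n + 1) := by
    have := mx_le_F (n + 1) hx.le
    rw [x]
    exact this
  have h2 : a (n + 1) ≤ 4000 * a n * ∏ j ∈ Finset.range (n + 1), (a n ^ 2 / a j ^ 2) := by
    rw [a_succ]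
    gcongr with j hj
    have h3 : a j ≤ a n := a_mono (by have := Finset.mem_range.1 hj; omega)
    have h4 := a_pos j
    have h5 : 1 ≤ a n ^ 2 / a j ^ 2 := by
      rw [one_le_div (by positivity)]
      exact pow_le_pow_left₀ h4.le h3 2
    have h6 : (a n / 2) ^ 2 / a j ^ 2 = a n ^ 2 / a j ^ 2 / 4 := by ring
    rw [h6, abs_le]
    constructor <;> linarith
  have h3 : 8000000 * x n * ∏ j ∈ Finset.range (n + 1), (x n ^ 2 / a j ^ 2) ≤ mx (n + 1) (x n) := by
    rw [mx]
    gcongr with j hj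
    linarith
  have h4 : ∏ j ∈ Finset.range (n + 1), (x n ^ 2 / a j ^ 2) =
      ((x n / a n) ^ 2) ^ (n + 1) * ∏ j ∈ Finset.range (n + 1), (a n ^ 2 / a j ^ 2) := by
    rw [← Finset.card_range (n + 1), ← Finset.prod_const, Finset.card_range,
      ← Finset.prod_mul_distrib]
    apply Finset.prod_congr rfl
    intro j _
    have := a_pos j
    field_simp
  rw [h4] at h3
  have h5 : (x n / a n) ^ (2 * n + 3) * a (n + 1) ≤ (x n / a n) ^ (2 * n + 3) *
      (4000 * a n * ∏ j ∈ Finset.range (n + 1), (a n ^ 2 / a j ^ 2)) :=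
    mul_le_mul_of_nonneg_left h2 (by positivity)
  have h6 : (x n / a n) ^ (2 * n + 3) *
      (4000 * a n * ∏ j ∈ Finset.range (n + 1), (a n ^ 2 / a j ^ 2)) =
      4000 * x n * (((x n / a n) ^ 2) ^ (n + 1) *
        ∏ j ∈ Finset.range (n + 1), (a n ^ 2 / a j ^ 2)) := by
    have e : (x n / a n) ^ (2 * n + 3) = ((x n / a n) ^ 2) ^ (n + 1) * (x n / a n) := by
      rw [← pow_mul, ← pow_succ]
      congr 1
    rw [e]
    field_simp
  rw [h6] at h5
  have h7 : 0 ≤ x n * (((x n / a n) ^ 2) ^ (n + 1) *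
        ∏ j ∈ Finset.range (n + 1), (a n ^ 2 / a j ^ 2)) := by
    apply mul_nonneg hx.le
    apply mul_nonneg (by positivity)
    exact Finset.prod_nonneg fun j _ => by positivity
  nlinarith [h1, h3, h5, h7]

theorem x_zero : x 0 = 12 := by rw [x]

theorem sigma_lower (n : ℕ) : 10 ^ 6 * a n ^ (2 * n + 1) ≤ (x n / a n) ^ 6 := by
  induction n with
  | zero => rw [a_zero, x_zero]; norm_num
  | succ n ih =>
    have h1 := sigma_step n
    have hA := a_pos n
    have hx := x_pos n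
    have h2 := a_upper n
    have hA' := a_pos (n + 1)
    set σ := x n / a n with hσ
    have hσ0 : 0 < σ := by positivity
    have h3 : (σ ^ (2 * n + 3)) ^ 6 ≤ (x (n + 1) / a (n + 1)) ^ 6 :=
      pow_le_pow_left₀ (by positivity) h1 6
    have h4 : (10 ^ 6 * a n ^ (2 * n + 1)) ^ (2 * n + 3) ≤ (σ ^ 6) ^ (2 * n + 3) :=
      pow_le_pow_left₀ (by positivity) ih _
    have h5 : a (n + 1) ^ (2 * n + 3) ≤ (3000 * a n ^ (2 * n + 1)) ^ (2 * n + 3) :=
      pow_le_pow_left₀ hA'.le h2 _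
    have h6 : (10 : ℝ) ^ 6 * 3000 ^ (2 * n + 3) ≤ (10 ^ 6) ^ (2 * n + 3) := by
      have e1 : ((10 : ℝ) ^ 6) ^ (2 * n + 3) = (1000 / 3) ^ (2 * n + 3) * 3000 ^ (2 * n + 3) := by
        rw [← mul_pow]; norm_num
      rw [e1]
      apply mul_le_mul_of_nonneg_right _ (by positivity)
      calc (10 : ℝ) ^ 6 ≤ (1000 / 3) ^ 3 := by norm_num
        _ ≤ (1000 / 3) ^ (2 * n + 3) := pow_le_pow_right₀ (by norm_num) (by omega)
    have e2 : 2 * (n + 1) + 1 = 2 * n + 3 := by ring
    rw [e2]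
    calc (10 : ℝ) ^ 6 * a (n + 1) ^ (2 * n + 3)
        ≤ 10 ^ 6 * (3000 * a n ^ (2 * n + 1)) ^ (2 * n + 3) := by gcongr
      _ = (10 ^ 6 * 3000 ^ (2 * n + 3)) * (a n ^ (2 * n + 1)) ^ (2 * n + 3) := by
          rw [mul_pow]; ring
      _ ≤ (10 ^ 6) ^ (2 * n + 3) * (a n ^ (2 * n + 1)) ^ (2 * n + 3) := by gcongr
      _ = (10 ^ 6 * a n ^ (2 * n + 1)) ^ (2 * n + 3) := by rw [mul_pow]
      _ ≤ (σ ^ 6) ^ (2 * n + 3) := h4
      _ = (σ ^ (2 * n + 3)) ^ 6 := by rw [← pow_mul, ← pow_mul, mul_comm]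
      _ ≤ _ := h3

/-- growth of `a (n + 1) / x n` -/
theorem rho_step (n : ℕ) : 3 / 10000 * (a (n + 1) / x n) * ((a (n + 1) / x n) ^ 2 / 5) ^ (n + 1) ≤
    a (n + 2) / x (n + 1) := by
  have hA := a_pos n
  have hA' := a_pos (n + 1)
  have hx := x_pos n
  have hx' := x_pos (n + 1)
  rw [le_div_iff₀ hx']
  set ρ := a (n + 1) / x n with hρ
  have hρ0 : 0 < ρ := by positivity
  have hAρ : a (n + 1) = ρ * x n := by rw [hρ]; field_simp
  have h1 : x (n + 1) ≤ 5 / 4 * mx (n + 1) (x n) := by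
    have h2 := f_le (n := n + 1) (z := Complex.I * x n) (by
      have h0 : ‖Complex.I * (x n : ℂ)‖ = x n := norm_X n
      rw [h0]
      exact (x_lt n).le)
    have h3 := norm_P_le (n + 1) (Complex.I * x n)
    have h4 : ‖Complex.I * (x n : ℂ)‖ = x n := norm_X n
    rw [norm_imag hx.le] at h2
    rw [h4] at h3
    rw [x]
    linarith
  have h2 : mx (n + 1) (x n) ≤
      8000000 * x n * ∏ j ∈ Finset.range (n + 1), (101 / 100 * (x n ^ 2 / a j ^ 2)) := by
    rw [mx]
    gcongr with j hj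
    have h3 : a j ≤ a n := a_mono (by have := Finset.mem_range.1 hj; omega)
    have h4 := a_pos j
    have h5 := x_gt n
    have h6 : 100 ≤ x n ^ 2 / a j ^ 2 := by
      rw [le_div_iff₀ (by positivity)]
      nlinarith
    linarith
  have h3 : 3000 * a (n + 1) * ∏ j ∈ Finset.range (n + 1),
      (ρ ^ 2 / 5 * (101 / 100 * (x n ^ 2 / a j ^ 2))) ≤ a (n + 2) := by
    have h4 : a (n + 2) = 3000 * a (n + 1) *
        ∏ j ∈ Finset.range (n + 1), |1 - (a (n + 1) / 2) ^ 2 / (a j) ^ 2| := by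
      have h5 := a_succ (n + 1)
      rw [Finset.prod_range_succ] at h5
      have h6 : |1 - (a (n + 1) / 2) ^ 2 / (a (n + 1)) ^ 2| = 3 / 4 := by
        have : 1 - (a (n + 1) / 2) ^ 2 / (a (n + 1)) ^ 2 = 3 / 4 := by field_simp; norm_num
        rw [this]; norm_num
      rw [h6] at h5
      rw [h5]; ring
    rw [h4]
    gcongr with j hj
    have h5 : 3000 * a j ≤ a (n + 1) := a_lt (by have := Finset.mem_range.1 hj; omega)
    have h6 := a_pos j
    have h7 : (a (n + 1) / 2) ^ 2 / a j ^ 2 = a (n + 1) ^ 2 / a j ^ 2 / 4 := by ring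
    have h8 : 9000000 ≤ a (n + 1) ^ 2 / a j ^ 2 := by
      rw [le_div_iff₀ (by positivity)]
      nlinarith
    have h9 : ρ ^ 2 / 5 * (101 / 100 * (x n ^ 2 / a j ^ 2)) =
        101 / 500 * (a (n + 1) ^ 2 / a j ^ 2) := by
      rw [hAρ]; ring
    rw [h7, h9, abs_sub_comm]
    refine le_trans ?_ (le_abs_self _)
    linarith
  rw [Finset.prod_mul_distrib, Finset.prod_const, Finset.card_range] at h3
  set Q := ∏ j ∈ Finset.range (n + 1), (101 / 100 * (x n ^ 2 / a j ^ 2)) with hQ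
  have hQ0 : 0 ≤ Q := Finset.prod_nonneg fun j _ => by positivity
  have h4 : x (n + 1) ≤ 10000000 * x n * Q := by linarith
  calc 3 / 10000 * ρ * (ρ ^ 2 / 5) ^ (n + 1) * x (n + 1)
      ≤ 3 / 10000 * ρ * (ρ ^ 2 / 5) ^ (n + 1) * (10000000 * x n * Q) := by gcongr
    _ = 3000 * a (n + 1) * ((ρ ^ 2 / 5) ^ (n + 1) * Q) := by rw [hAρ]; ring
    _ ≤ a (n + 2) := h3

theorem rho_lower (n : ℕ) : a (n + 1) ≤ (a (n + 1) / x n / 150) ^ 100 := by
  induction n with
  | zero =>
    have h1 : a 1 = 3000 := by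
      have := a_succ 0
      rw [zero_add] at this
      rw [this, a_zero]
      simp [a_zero]
      norm_num
    rw [zero_add, h1, x_zero]
    norm_num
  | succ n ih =>
    have h1 := rho_step n
    have h2 := a_upper (n + 1)
    have hA' := a_pos (n + 1)
    have hx := x_pos n
    set u := a (n + 1) / x n / 150 with hu
    have hu0 : 0 < u := by positivity
    have hρ : a (n + 1) / x n = 150 * u := by rw [hu]; ring
    rw [hρ] at h1
    have h3 : 27 / 20 * u ^ (2 * n + 3) ≤ a (n + 1 + 1) / x (n + 1) / 150 := by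
      have e : 3 / 10000 * (150 * u) * ((150 * u) ^ 2 / 5) ^ (n + 1) =
          150 * (3 / 10000 * 4500 ^ (n + 1) * u ^ (2 * n + 3)) := by
        have e1 : (150 * u) ^ 2 / 5 = 4500 * u ^ 2 := by ring
        rw [e1, mul_pow, ← pow_mul]
        have e2 : 2 * n + 3 = 2 * (n + 1) + 1 := by ring
        rw [e2, pow_succ]
        ring
      rw [e] at h1
      have h4 : (27 : ℝ) / 20 ≤ 3 / 10000 * 4500 ^ (n + 1) := by
        have : (4500 : ℝ) ^ 1 ≤ 4500 ^ (n + 1) := pow_le_pow_right₀ (by norm_num) (by omega)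
        linarith
      have h5 : 27 / 20 * u ^ (2 * n + 3) ≤ 3 / 10000 * 4500 ^ (n + 1) * u ^ (2 * n + 3) :=
        mul_le_mul_of_nonneg_right h4 (by positivity)
      rw [le_div_iff₀ (by norm_num)]
      linarith
    have e2 : 2 * (n + 1) + 1 = 2 * n + 3 := by ring
    rw [e2] at h2
    calc a (n + 1 + 1) ≤ 3000 * a (n + 1) ^ (2 * n + 3) := h2
      _ ≤ (27 / 20) ^ 100 * (u ^ 100) ^ (2 * n + 3) := by
          apply mul_le_mul (by norm_num) (pow_le_pow_left₀ hA'.le ih _) (by positivity)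
            (by positivity)
      _ = (27 / 20 * u ^ (2 * n + 3)) ^ 100 := by
          rw [mul_pow, ← pow_mul, ← pow_mul, mul_comm 100]
      _ ≤ _ := pow_le_pow_left₀ (by positivity) h3 100

theorem X_iter0 (n : ℕ) : f^[n] (X 0) = X n := by rw [X_iter, zero_add]

theorem infInner : InfInner f (U 0) := by
  intro z₀ hz₀
  -- lower bound
  obtain ⟨C1, hC1, hg⟩ := growth hz₀
  simp only [zero_add] at hg
  -- upper bound
  set g : ℕ → ℂ → ℂ := fun n z => (a (n + 1) : ℂ) / f^[n] z with hgdef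
  have hne : ∀ n, ∀ z ∈ U 0, f^[n] z ≠ 0 := fun n z hz h => not_U_of_hits h hz
  have hgd : ∀ n, DifferentiableOn ℂ (g n) (U 0) := fun n =>
    (differentiableOn_const _).div (f_differentiable.iterate n).differentiableOn (hne n)
  have hgn : ∀ n z, ‖g n z‖ = a (n + 1) / ‖f^[n] z‖ := by
    intro n z
    rw [hgdef]
    simp only
    rw [norm_div, Complex.norm_real, Real.norm_eq_abs, abs_of_pos (a_pos _)]
  have hbd : ∀ n, ∀ z ∈ U 0, ‖f^[n] z‖ < a (n + 1) / 2 := by
    intro n z hz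
    have := U_bdd (U_iter 0 n hz)
    rwa [zero_add] at this
  have hg1 : ∀ n, ∀ z ∈ U 0, 1 < ‖g n z‖ := by
    intro n z hz
    have h0 : 0 < ‖f^[n] z‖ := norm_pos_iff.2 (hne n z hz)
    rw [hgn, lt_div_iff₀ h0]
    have := hbd n z hz
    have := a_pos (n + 1)
    linarith
  obtain ⟨C0, hC0, hch⟩ := chain (U_open 0) (U_pre 0) hgd hg1 (X_U 0) hz₀
  set C : ℝ := max C0 1 with hC
  have hC1' : 1 ≤ C := le_max_right _ _
  have hCpos : 0 < C := by linarith
  have hup : ∀ n, Real.log (a (n + 1)) ≤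
      100 * C * (Real.log (a (n + 1)) - Real.log ‖f^[n] z₀‖) := by
    intro n
    have h1 := hch n
    have hA' := a_pos (n + 1)
    have hx := x_pos n
    have h0 : 0 < ‖f^[n] z₀‖ := norm_pos_iff.2 (hne n _ hz₀)
    rw [hgn, hgn, X_iter0, norm_X] at h1
    have h2 : 0 ≤ Real.log (a (n + 1) / ‖f^[n] z₀‖) := by
      have := hg1 n _ hz₀
      rw [hgn] at this
      exact Real.log_nonneg this.le
    have h3 : Real.log (a (n + 1)) ≤ 100 * Real.log (a (n + 1) / x n / 150) := by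
      have := Real.log_le_log hA' (rho_lower n)
      rwa [Real.log_pow] at this
    have h4 : Real.log (a (n + 1) / x n / 150) ≤ Real.log (a (n + 1) / x n) := by
      apply Real.log_le_log (by positivity)
      have : 0 < a (n + 1) / x n := by positivity
      linarith
    rw [Real.log_div hA'.ne' h0.ne'] at h1 h2
    have h5 : C0 * (Real.log (a (n + 1)) - Real.log ‖f^[n] z₀‖) ≤
        C * (Real.log (a (n + 1)) - Real.log ‖f^[n] z₀‖) :=
      mul_le_mul_of_nonneg_right (le_max_left _ _) h2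
    nlinarith
  set δ : ℝ := 1 / (100 * C) with hδ
  have hδ0 : 0 < δ := by positivity
  have hδ1 : δ ≤ 1 / 100 := by
    rw [hδ]
    apply div_le_div_of_nonneg_left (by norm_num) (by norm_num)
    linarith
  have hup' : ∀ n, Real.log ‖f^[n] z₀‖ ≤ (1 - δ) * Real.log (a (n + 1)) := by
    intro n
    have h1 := hup n
    have h2 : δ * Real.log (a (n + 1)) ≤ Real.log (a (n + 1)) - Real.log ‖f^[n] z₀‖ := by
      rw [hδ, one_div_mul_eq_div, div_le_iff₀ (by positivity)]
      linarith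
    linarith
  -- asymptotics
  have hla : Tendsto (fun n => Real.log (a n)) atTop atTop := Real.tendsto_log_atTop.comp a_tendsto
  have hla' : Tendsto (fun n => Real.log (a (n + 1))) atTop atTop :=
    hla.comp (tendsto_add_atTop_nat 1)
  refine ⟨δ / 2, by positivity, ?_⟩
  filter_upwards [hg, hla'.eventually_gt_atTop (Real.log 200 / δ ^ 2),
    hla.eventually_ge_atTop (Real.log 10),
    (tendsto_natCast_atTop_atTop (R := ℝ)).eventually_ge_atTop (24 * C1)] with n h1 h2 h3 h4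
  obtain ⟨-, h1⟩ := h1
  have hA := a_pos n
  have hA' := a_pos (n + 1)
  have hx := x_pos n
  set r : ℝ := ‖f^[n] z₀‖ with hr
  have hr0 : 0 < r := norm_pos_iff.2 (hne n _ hz₀)
  have hU : f^[n] '' U 0 = U n := by rw [U_iter_eq, zero_add]
  rw [hU]
  have hlog10 : 0 < Real.log 10 := Real.log_pos (by norm_num)
  -- lower
  have h5 : Real.log (10 * a n) ≤ 1 / 2 * Real.log r := by
    rw [Real.log_mul (by norm_num) hA.ne']
    have h6 : (2 * n + 1 : ℝ) * Real.log (a n) ≤ 6 * Real.log (x n) := by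
      have h7 : a n ^ (2 * n + 1) ≤ x n ^ 6 := by
        have h8 := sigma_lower n
        have h9 : (x n / a n) ^ 6 ≤ x n ^ 6 := by
          apply pow_le_pow_left₀ (by positivity)
          exact div_le_self hx.le (one_le_a n)
        have h10 : 0 ≤ a n ^ (2 * n + 1) := by positivity
        linarith
      have h8 := Real.log_le_log (by positivity) h7
      rw [Real.log_pow, Real.log_pow] at h8
      push_cast at h8
      exact h8
    have h7 : 48 * C1 * Real.log (a n) ≤ 6 * Real.log (x n) := by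
      refine le_trans ?_ h6
      apply mul_le_mul_of_nonneg_right (by linarith) (by linarith)
    have h8 : 8 * C1 * Real.log (a n) ≤ C1 * Real.log r := by linarith
    have h9 : 8 * Real.log (a n) ≤ Real.log r := by
      have : C1 * (8 * Real.log (a n)) ≤ C1 * Real.log r := by linarith
      exact le_of_mul_le_mul_left this hC1
    linarith
  have h6 : 10 * a n ≤ r ^ (1 / 2 : ℝ) := by
    rw [← Real.log_le_log_iff (by positivity) (Real.rpow_pos_of_pos hr0 _), Real.log_rpow hr0]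
    exact h5
  have h7 : 2 * a n < r := by
    have h8 : Real.log (10 * a n) ≤ Real.log r := by
      have h9 : 0 ≤ Real.log (10 * a n) := Real.log_nonneg (by linarith [one_le_a n])
      linarith
    have h9 := (Real.log_le_log_iff (by positivity) hr0).1 h8
    linarith
  refine ⟨⟨1 / 2, 1 + δ, by norm_num, by linarith, by linarith, ?_⟩, holes_inf' n h7⟩
  rintro z ⟨hz1, hz2⟩
  apply H_U n
  refine ⟨lt_of_le_of_lt h6 hz1, hz2.trans ?_⟩
  rw [← Real.log_lt_log_iff (Real.rpow_pos_of_pos hr0 _) (by positivity), Real.log_rpow hr0,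
    Real.log_div hA'.ne' (by norm_num)]
  have h8 := hup' n
  rw [div_lt_iff₀ (by positivity)] at h2
  have h9 : (1 + δ) * Real.log r ≤ (1 + δ) * ((1 - δ) * Real.log (a (n + 1))) :=
    mul_le_mul_of_nonneg_left h8 (by linarith)
  nlinarith

theorem wandering : IsWanderingDomain f (U 0) := by
  refine ⟨U, rfl, fun k => ⟨_, X_F k, rfl⟩, fun k => ?_, fun j k hjk h => ?_⟩
  · rw [U_iter_eq, zero_add]
  · have h1 := U_disj hjk
    rw [h] at h1
    exact h1.ne_of_mem (X_U k) (X_U k) rfl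

theorem mult : (0 : ℂ) ∈ (U 0)ᶜ ∧ Bornology.IsBounded (connectedComponentIn (U 0)ᶜ 0) := by
  have h0 : (0 : ℂ) ∈ (U 0)ᶜ := zero_not_U 0
  refine ⟨h0, ?_⟩
  apply (Metric.isBounded_ball (x := (0 : ℂ)) (r := a 0 / 2)).subset
  intro z hz
  by_contra hcon
  rw [mem_ball_zero_iff] at hcon
  push Not at hcon
  obtain ⟨w, hw, hwt⟩ := cross (isPreconnected_connectedComponentIn)
    (mem_connectedComponentIn h0) hz (t := a 0 / 2) (by rw [norm_zero]; linarith [a_pos 0]) hcon
  exact connectedComponentIn_subset _ _ hw (half_U hwt)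

end Pool.Agent.Q75.Bw
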