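import Mathlib

set_option autoImplicit false

/-! Haar measure on the unitary group `U(q)` and a vanishing criterion. -/

open MeasureTheory Matrix Metric Set
open scoped Real ComplexConjugate

namespace Pool.Agent.Q75.Cu

/-- The unitary group. -/
abbrev UG (q : ℕ) := Matrix.unitaryGroup (Fin q) ℂ

variable {q : ℕ}

instance scMat : SecondCountableTopology (Matrix (Fin q) (Fin q) ℂ) :=
  inferInstanceAs (SecondCountableTopology (Fin q → Fin q → ℂ))

instance scUG : SecondCountableTopology (UG q) :=
  TopologicalSpace.Subtype.secondCountableTopology _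

theorem isClosed_UG : IsClosed (Matrix.unitaryGroup (Fin q) ℂ : Set (Matrix (Fin q) (Fin q) ℂ)) :=
  isClosed_unitary

theorem isCompact_UG :
    IsCompact (Matrix.unitaryGroup (Fin q) ℂ : Set (Matrix (Fin q) (Fin q) ℂ)) := by
  have hc : IsCompact (Set.pi Set.univ fun _ : Fin q => Set.pi Set.univ fun _ : Fin q =>
      closedBall (0 : ℂ) 1) :=
    isCompact_univ_pi fun _ => isCompact_univ_pi fun _ => isCompact_closedBall _ _
  refine IsCompact.of_isClosed_subset (s := (Set.pi Set.univ fun _ : Fin q =>
    Set.pi Set.univ fun _ : Fin q => closedBall (0 : ℂ) 1)) hc isClosed_UG ?_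
  intro U hU a _ b _
  rw [mem_closedBall_zero_iff]
  exact entry_norm_bound_of_unitary hU a b

instance compactUG : CompactSpace (UG q) := isCompact_iff_compactSpace.1 isCompact_UG

noncomputable instance measUG : MeasurableSpace (UG q) := borel _
instance borelUG : BorelSpace (UG q) := ⟨rfl⟩

/-- The normalised Haar measure. -/
noncomputable def mu (q : ℕ) : Measure (UG q) := Measure.haarMeasure ⊤

instance : (mu q).IsMulLeftInvariant := by unfold mu; infer_instance
instance : IsProbabilityMeasure (mu q) := ⟨by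
  have := Measure.haarMeasure_self (G := UG q) (K₀ := ⊤)
  simpa [mu] using this⟩

/-- The diagonal matrix with entry `ζ` at position `a` and `1` elsewhere. -/
noncomputable def Dg (a : Fin q) (ζ : ℂ) : Matrix (Fin q) (Fin q) ℂ :=
  Matrix.diagonal (Function.update 1 a ζ)

theorem Dg_mul_apply (a : Fin q) (ζ : ℂ) (Z : Matrix (Fin q) (Fin q) ℂ) (b c : Fin q) :
    (Dg a ζ * Z) b c = (if b = a then ζ else 1) * Z b c := by
  rw [Dg, Matrix.diagonal_mul, Function.update_apply]
  simp

theorem det_Dg (a : Fin q) (ζ : ℂ) : (Dg a ζ).det = ζ := by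
  rw [Dg, Matrix.det_diagonal, Finset.prod_update_of_mem (Finset.mem_univ a)]
  simp

/-- The unitary diagonal matrix. -/
noncomputable def Du (a : Fin q) (θ : ℝ) : UG q :=
  ⟨Dg a (Complex.exp (θ * Complex.I)), by
    rw [Matrix.mem_unitaryGroup_iff, Dg, Matrix.star_eq_conjTranspose,
      Matrix.diagonal_conjTranspose, Matrix.diagonal_mul_diagonal]
    rw [← Matrix.diagonal_one]
    congr 1
    ext b
    rw [Pi.star_apply, Function.update_apply]
    split_ifs
    · rw [Complex.star_def, Complex.mul_conj, Complex.normSq_eq_norm_sq,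
        Complex.norm_exp_ofReal_mul_I]
      simp
    · simp⟩

theorem Du_coe (a : Fin q) (θ : ℝ) :
    ((Du a θ : UG q) : Matrix (Fin q) (Fin q) ℂ) = Dg a (Complex.exp (θ * Complex.I)) := rfl

theorem continuous_Du (a : Fin q) : Continuous (Du a) := by
  refine Continuous.subtype_mk ?_ _
  refine continuous_matrix fun b c => ?_
  unfold Dg
  simp only [Matrix.diagonal_apply, Function.update_apply]
  split_ifs <;> fun_prop

/-- **Vanishing criterion.** -/
theorem vanish (a : Fin q) (f : UG q → ℂ) (hf : Continuous f) (G : UG q → ℂ → ℂ)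
    (hG : ∀ U, ∃ R : ℝ, 1 < R ∧ DifferentiableOn ℂ (G U) (ball 0 R))
    (h : ∀ U (θ : ℝ), f (Du a θ * U) = Complex.exp (θ * Complex.I) *
      G U (Complex.exp (θ * Complex.I))) : ∫ U, f U ∂(mu q) = 0 := by
  have h1 : ∀ U, ∫ θ in (0 : ℝ)..2 * π, f (Du a θ * U) = 0 := by
    intro U
    obtain ⟨R, hR, hd⟩ := hG U
    have h2 : ∮ z in C(0, 1), G U z = 0 := by
      refine Complex.circleIntegral_eq_zero_of_differentiable_on_off_countable zero_le_one
        Set.countable_empty ?_ ?_
      · exact hd.continuousOn.mono (closedBall_subset_ball hR)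
      · intro z hz
        exact hd.differentiableAt (isOpen_ball.mem_nhds (ball_subset_ball hR.le hz.1))
    have h3 : ∮ z in C(0, 1), G U z = ∫ θ in (0 : ℝ)..2 * π, Complex.I * f (Du a θ * U) := by
      rw [circleIntegral]
      refine intervalIntegral.integral_congr fun θ _ => ?_
      simp only [deriv_circleMap, circleMap_zero, Complex.ofReal_one, one_mul, smul_eq_mul]
      rw [h U θ]
      ring
    rw [h3, intervalIntegral.integral_const_mul] at h2
    exact (mul_eq_zero.1 h2).resolve_left Complex.I_ne_zero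
  have h4 : ∀ θ : ℝ, ∫ U, f (Du a θ * U) ∂(mu q) = ∫ U, f U ∂(mu q) := fun θ =>
    integral_mul_left_eq_self f (Du a θ)
  have h5 : ∫ θ in (0 : ℝ)..2 * π, ∫ U, f (Du a θ * U) ∂(mu q) = (2 * π : ℝ) • ∫ U, f U ∂(mu q) := by
    simp_rw [h4]
    rw [intervalIntegral.integral_const, sub_zero]
  have h6 : ∫ θ in (0 : ℝ)..2 * π, ∫ U, f (Du a θ * U) ∂(mu q) =
      ∫ U, (∫ θ in (0 : ℝ)..2 * π, f (Du a θ * U)) ∂(mu q) := by
    rw [intervalIntegral.integral_of_le (by positivity)]
    simp_rw [intervalIntegral.integral_of_le (show (0 : ℝ) ≤ 2 * π by positivity)]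
    refine integral_integral_swap ?_
    have hcont : Continuous (Function.uncurry fun (θ : ℝ) (U : UG q) => f (Du a θ * U)) := by
      refine hf.comp ?_
      exact ((continuous_Du a).comp continuous_fst).mul continuous_snd
    obtain ⟨C, hC⟩ : ∃ C, ∀ U, ‖f U‖ ≤ C := by
      obtain ⟨C, hC⟩ := (isCompact_univ (X := UG q)).exists_bound_of_continuousOn hf.continuousOn
      exact ⟨C, fun U => hC U (Set.mem_univ _)⟩
    refine MeasureTheory.Integrable.of_bound (C := C) hcont.aestronglyMeasurable
      (Filter.Eventually.of_forall fun x => hC _)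
  rw [h5] at h6
  simp_rw [h1] at h6
  rw [integral_zero] at h6
  exact (smul_eq_zero.1 h6).resolve_left (by positivity)

end Pool.Agent.Q75.Cu
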