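import Mathlib
import Pool.Agent.Q75.CuA

set_option autoImplicit false

/-! Integrals over the unitary group of holomorphic functions on the ball of matrices. -/

open MeasureTheory Matrix Metric Set
open scoped Real ComplexConjugate

namespace Pool.Agent.Q75.Cu

variable {q : ℕ}

/-- The squared Frobenius norm. -/
noncomputable def frob (Z : Matrix (Fin q) (Fin q) ℂ) : ℝ := ∑ a, ∑ b, ‖Z a b‖ ^ 2

theorem frob_nonneg (Z : Matrix (Fin q) (Fin q) ℂ) : 0 ≤ frob Z :=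
  Finset.sum_nonneg fun _ _ => Finset.sum_nonneg fun _ _ => by positivity

theorem frob_eq (Z : Matrix (Fin q) (Fin q) ℂ) : ((frob Z : ℝ) : ℂ) = (Zᴴ * Z).trace := by
  unfold frob
  rw [Matrix.trace, Finset.sum_comm]
  push_cast
  refine Finset.sum_congr rfl fun b _ => ?_
  rw [Matrix.diag_apply, Matrix.mul_apply]
  refine Finset.sum_congr rfl fun a _ => ?_
  rw [Matrix.conjTranspose_apply, Complex.star_def, ← Complex.normSq_eq_conj_mul_self,
    Complex.normSq_eq_norm_sq]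
  push_cast
  rfl

theorem frob_unitary_mul (g : UG q) (Z : Matrix (Fin q) (Fin q) ℂ) :
    frob ((g : Matrix (Fin q) (Fin q) ℂ) * Z) = frob Z := by
  have h : ((frob ((g : Matrix (Fin q) (Fin q) ℂ) * Z) : ℝ) : ℂ) = ((frob Z : ℝ) : ℂ) := by
    rw [frob_eq, frob_eq, Matrix.conjTranspose_mul]
    have hg : (g : Matrix (Fin q) (Fin q) ℂ)ᴴ * (g : Matrix (Fin q) (Fin q) ℂ) = 1 := by
      rw [← Matrix.star_eq_conjTranspose]
      exact Unitary.coe_star_mul_self g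
    rw [Matrix.mul_assoc, ← Matrix.mul_assoc _ _ Z, hg, Matrix.one_mul]
  exact_mod_cast h

theorem frob_smul (s : ℂ) (Z : Matrix (Fin q) (Fin q) ℂ) :
    frob (s • Z) = ‖s‖ ^ 2 * frob Z := by
  unfold frob
  simp only [Matrix.smul_apply, smul_eq_mul, norm_mul, mul_pow, Finset.mul_sum]

theorem row_unitary (U : UG q) (b : Fin q) :
    ∑ c, ‖(U : Matrix (Fin q) (Fin q) ℂ) b c‖ ^ 2 = 1 := by
  have h : (U : Matrix (Fin q) (Fin q) ℂ) * (U : Matrix (Fin q) (Fin q) ℂ)ᴴ = 1 := by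
    rw [← Matrix.star_eq_conjTranspose]
    exact Unitary.coe_mul_star_self U
  have h1 := congrFun (congrFun h b) b
  rw [Matrix.mul_apply, Matrix.one_apply_eq] at h1
  have h2 : ((∑ c, ‖(U : Matrix (Fin q) (Fin q) ℂ) b c‖ ^ 2 : ℝ) : ℂ) = 1 := by
    rw [← h1]
    push_cast
    refine Finset.sum_congr rfl fun c _ => ?_
    rw [Matrix.conjTranspose_apply, Complex.star_def, Complex.mul_conj, Complex.normSq_eq_norm_sq]
    push_cast
    rfl
  exact_mod_cast h2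

/-- The unit ball of matrices. -/
def BM (q : ℕ) : Set (Matrix (Fin q) (Fin q) ℂ) := {Z | frob Z < 1}

/-- Continuous functions on the ball, holomorphic on complex lines. -/
structure Hol (H : Matrix (Fin q) (Fin q) ℂ → ℂ) : Prop where
  cont : ContinuousOn H (BM q)
  diff : ∀ (Z Y : Matrix (Fin q) (Fin q) ℂ) (ζ : ℂ), Z + ζ • Y ∈ BM q →
    DifferentiableAt ℂ (fun ζ : ℂ => H (Z + ζ • Y)) ζ

theorem Hol.mul {H K : Matrix (Fin q) (Fin q) ℂ → ℂ} (hH : Hol H) (hK : Hol K) :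
    Hol fun Z => H Z * K Z :=
  ⟨hH.cont.mul hK.cont, fun Z Y ζ h => (hH.diff Z Y ζ h).mul (hK.diff Z Y ζ h)⟩

theorem Hol.left {H : Matrix (Fin q) (Fin q) ℂ → ℂ} (hH : Hol H) (g : UG q) :
    Hol fun Z => H ((g : Matrix (Fin q) (Fin q) ℂ) * Z) := by
  refine ⟨?_, ?_⟩
  · refine hH.cont.comp (Continuous.continuousOn (by fun_prop)) ?_
    intro Z hZ
    show frob _ < 1
    rw [frob_unitary_mul]
    exact hZ
  · intro Z Y ζ h
    have h1 : (fun ζ : ℂ => H ((g : Matrix (Fin q) (Fin q) ℂ) * (Z + ζ • Y))) =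
        fun ζ : ℂ => H ((g : Matrix (Fin q) (Fin q) ℂ) * Z +
          ζ • ((g : Matrix (Fin q) (Fin q) ℂ) * Y)) := by
      funext ζ
      rw [Matrix.mul_add, Matrix.mul_smul]
    simp only [h1]
    refine hH.diff _ _ ζ ?_
    rw [← Matrix.mul_smul, ← Matrix.mul_add]
    show frob _ < 1
    rw [frob_unitary_mul]
    exact h

theorem frob_Dg (a : Fin q) (ζ : ℂ) (U : UG q) :
    frob (Dg a ζ * (U : Matrix (Fin q) (Fin q) ℂ)) = (q : ℝ) - 1 + ‖ζ‖ ^ 2 := by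
  unfold frob
  simp only [Dg_mul_apply, norm_mul, mul_pow]
  simp only [← Finset.mul_sum, row_unitary, mul_one]
  rw [← Finset.add_sum_erase _ _ (Finset.mem_univ a)]
  simp only [if_true]
  rw [Finset.sum_congr rfl (g := fun _ => (1 : ℝ))]
  · rw [Finset.sum_const, Finset.card_erase_of_mem (Finset.mem_univ a)]
    have : 1 ≤ q := by have := a.2; omega
    simp [Nat.cast_sub this]
    ring
  · intro x hx
    rw [if_neg (Finset.ne_of_mem_erase hx)]
    simp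

theorem frob_unitary (U : UG q) : frob (U : Matrix (Fin q) (Fin q) ℂ) = q := by
  unfold frob
  simp only [row_unitary]
  simp

/-- a radius slightly larger than one -/
theorem exists_R {s : ℝ} (hs : s ^ 2 * q < 1) (hq : 1 ≤ q) :
    ∃ R : ℝ, 1 < R ∧ ∀ ρ : ℝ, 0 ≤ ρ → ρ < R → s ^ 2 * (q - 1 + ρ ^ 2) < 1 := by
  have hq' : (1 : ℝ) ≤ q := by exact_mod_cast hq
  have h1 : s ^ 2 ≤ s ^ 2 * q := by nlinarith [sq_nonneg s]
  set η : ℝ := (1 - s ^ 2 * q) / 4 with hη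
  have hη0 : 0 < η := by rw [hη]; linarith
  have hη1 : η ≤ 1 / 4 := by rw [hη]; nlinarith [sq_nonneg s]
  refine ⟨1 + η, by linarith, fun ρ h0 hρ => ?_⟩
  have h2 : ρ ^ 2 ≤ 1 + 3 * η := by nlinarith
  have h3 : s ^ 2 * (q - 1 + ρ ^ 2) ≤ s ^ 2 * q + s ^ 2 * (3 * η) := by nlinarith [sq_nonneg s]
  have h4 : s ^ 2 * (3 * η) ≤ 3 * η := by nlinarith [sq_nonneg s]
  have h5 : 1 - s ^ 2 * q = 4 * η := by rw [hη]; ring
  linarith

theorem Hol.slice {H : Matrix (Fin q) (Fin q) ℂ → ℂ} (hH : Hol H) (a : Fin q) {s : ℝ}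
    (U : UG q) {ζ : ℂ} (h : s ^ 2 * (q - 1 + ‖ζ‖ ^ 2) < 1) :
    DifferentiableAt ℂ (fun ζ : ℂ => H ((s : ℂ) • (Dg a ζ * (U : Matrix (Fin q) (Fin q) ℂ)))) ζ := by
  have h1 : ∀ ζ : ℂ, (s : ℂ) • (Dg a ζ * (U : Matrix (Fin q) (Fin q) ℂ)) =
      (s : ℂ) • (Dg a 0 * (U : Matrix (Fin q) (Fin q) ℂ)) +
        ζ • ((s : ℂ) • Matrix.of fun b c => if b = a then (U : Matrix (Fin q) (Fin q) ℂ) b c else 0) := by
    intro ζ
    ext b c
    simp only [Matrix.add_apply, Matrix.smul_apply, Dg_mul_apply, Matrix.of_apply, smul_eq_mul]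
    split_ifs <;> ring
  have h2 : (fun ζ : ℂ => H ((s : ℂ) • (Dg a ζ * (U : Matrix (Fin q) (Fin q) ℂ)))) =
      fun ζ : ℂ => H ((s : ℂ) • (Dg a 0 * (U : Matrix (Fin q) (Fin q) ℂ)) +
        ζ • ((s : ℂ) • Matrix.of fun b c => if b = a then (U : Matrix (Fin q) (Fin q) ℂ) b c else 0)) :=
    funext fun ζ => by rw [h1 ζ]
  rw [h2]
  refine hH.diff _ _ ζ ?_
  rw [← h1 ζ]
  show frob _ < 1
  rw [frob_smul, frob_Dg, Complex.norm_real, Real.norm_eq_abs, sq_abs]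
  exact h

theorem mem_BM {s : ℝ} (hs : s ^ 2 * q < 1) (U : UG q) :
    (s : ℂ) • (U : Matrix (Fin q) (Fin q) ℂ) ∈ BM q := by
  show frob _ < 1
  rw [frob_smul, frob_unitary, Complex.norm_real, Real.norm_eq_abs, sq_abs]
  exact hs

theorem Hol.continuous {H : Matrix (Fin q) (Fin q) ℂ → ℂ} (hH : Hol H) {s : ℝ}
    (hs : s ^ 2 * q < 1) : Continuous fun U : UG q => H ((s : ℂ) • (U : Matrix (Fin q) (Fin q) ℂ)) :=
  hH.cont.comp_continuous ((continuous_const_smul (s : ℂ)).comp continuous_subtype_val)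
    fun U => mem_BM hs U

theorem norm_det (U : UG q) : ‖(U : Matrix (Fin q) (Fin q) ℂ).det‖ = 1 := by
  exact CStarRing.norm_of_mem_unitary (Matrix.det_of_mem_unitary U.2)

/-- The mean value property. -/
theorem int_det {H : Matrix (Fin q) (Fin q) ℂ → ℂ} (hH : Hol H) (hq : 1 ≤ q) {s : ℝ}
    (hs : s ^ 2 * q < 1) :
    ∫ U : UG q, (U : Matrix (Fin q) (Fin q) ℂ).det * H ((s : ℂ) • (U : Matrix (Fin q) (Fin q) ℂ))
      ∂(mu q) = 0 := by
  obtain ⟨R, hR, hR'⟩ := exists_R hs hq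
  refine vanish ⟨0, hq⟩ _ ?_ (fun U ζ => (U : Matrix (Fin q) (Fin q) ℂ).det *
    H ((s : ℂ) • (Dg ⟨0, hq⟩ ζ * (U : Matrix (Fin q) (Fin q) ℂ)))) ?_ ?_
  · exact (continuous_subtype_val.matrix_det).mul (hH.continuous hs)
  · intro U
    refine ⟨R, hR, fun ζ hζ => ?_⟩
    rw [mem_ball_zero_iff] at hζ
    exact ((hH.slice _ U (hR' _ (norm_nonneg _) hζ)).const_mul _).differentiableWithinAt
  · intro U θ
    simp only [Submonoid.coe_mul, Du_coe, Matrix.det_mul, det_Dg]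
    ring

end Pool.Agent.Q75.Cu
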