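import Mathlib
import Pool.Agent.Q75.CuB

set_option autoImplicit false

/-! The ideal property: integrals with row families constant on a large set of positions. -/

open MeasureTheory Matrix Metric Set
open scoped Real ComplexConjugate

namespace Pool.Agent.Q75.Cu

variable {q m : ℕ}

/-- The integrand. -/
noncomputable def Fn (r : Fin m → Fin q → ℂ) (w' : Fin m → Fin q) (j : ℕ)
    (H : Matrix (Fin q) (Fin q) ℂ → ℂ) (s : ℝ) (U : UG q) : ℂ :=
  (∏ p, (r p ᵥ* ((s : ℂ) • (U : Matrix (Fin q) (Fin q) ℂ))) (w' p)) *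
    H ((s : ℂ) • (U : Matrix (Fin q) (Fin q) ℂ)) * conj ((U : Matrix (Fin q) (Fin q) ℂ).det) ^ j

theorem continuous_Fn (r : Fin m → Fin q → ℂ) (w' : Fin m → Fin q) (j : ℕ)
    {H : Matrix (Fin q) (Fin q) ℂ → ℂ} (hH : Hol H) {s : ℝ} (hs : s ^ 2 * q < 1) :
    Continuous (Fn r w' j H s) := by
  unfold Fn
  refine Continuous.mul (Continuous.mul ?_ (hH.continuous hs)) ?_
  · refine continuous_finsetProd _ fun p _ => ?_
    have h1 : Continuous fun U : UG q => (s : ℂ) • (U : Matrix (Fin q) (Fin q) ℂ) :=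
      (continuous_const_smul (s : ℂ)).comp continuous_subtype_val
    exact (continuous_apply _).comp (Continuous.matrix_vecMul continuous_const h1)
  · exact (Complex.continuous_conj.comp (continuous_subtype_val.matrix_det)).pow _

theorem step1 (A : Finset (Fin m)) {j : ℕ} (hj : j < A.card) (a : Fin q)
    (r : Fin m → Fin q → ℂ) (lam : ℂ) (hr : ∀ p ∈ A, r p = Pi.single a lam)
    (w' : Fin m → Fin q) {H : Matrix (Fin q) (Fin q) ℂ → ℂ} (hH : Hol H) {s : ℝ}
    (hs : s ^ 2 * q < 1) : ∫ U, Fn r w' j H s U ∂(mu q) = 0 := by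
  have hq : 1 ≤ q := by have := a.2; omega
  obtain ⟨R, hR, hR'⟩ := exists_R hs hq
  have hA : ∀ p ∈ A, ∀ (ζ : ℂ) (U : UG q),
      (r p ᵥ* ((s : ℂ) • (Dg a ζ * (U : Matrix (Fin q) (Fin q) ℂ)))) (w' p) =
        ζ * (lam * s * (U : Matrix (Fin q) (Fin q) ℂ) a (w' p)) := by
    intro p hp ζ U
    rw [hr p hp, Matrix.single_vecMul, Pi.smul_apply, smul_eq_mul, Matrix.row_apply, Matrix.smul_apply, Dg_mul_apply, if_pos rfl, smul_eq_mul]
    ring
  refine vanish a _ (continuous_Fn r w' j hH hs) (fun U ζ => ζ ^ (A.card - j - 1) *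
    ((∏ p ∈ A, (lam * s * (U : Matrix (Fin q) (Fin q) ℂ) a (w' p))) *
    (∏ p ∈ Finset.univ \ A, (r p ᵥ* ((s : ℂ) • (Dg a ζ * (U : Matrix (Fin q) (Fin q) ℂ)))) (w' p)) *
    H ((s : ℂ) • (Dg a ζ * (U : Matrix (Fin q) (Fin q) ℂ))) *
      conj ((U : Matrix (Fin q) (Fin q) ℂ).det) ^ j)) ?_ ?_
  · intro U
    refine ⟨R, hR, fun ζ hζ => ?_⟩
    rw [mem_ball_zero_iff] at hζ
    refine DifferentiableAt.differentiableWithinAt ?_
    refine DifferentiableAt.mul (by fun_prop) ?_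
    refine DifferentiableAt.mul_const ?_ _
    refine DifferentiableAt.mul ?_ (hH.slice _ U (hR' _ (norm_nonneg _) hζ))
    refine DifferentiableAt.const_mul ?_ _
    refine DifferentiableAt.fun_finsetProd fun p _ => ?_
    have : (fun ζ : ℂ => (r p ᵥ* ((s : ℂ) • (Dg a ζ * (U : Matrix (Fin q) (Fin q) ℂ)))) (w' p)) =
        fun ζ : ℂ => ∑ b, r p b * (s * ((if b = a then ζ else 1) *
          (U : Matrix (Fin q) (Fin q) ℂ) b (w' p))) := by
      funext ζ
      simp only [Matrix.vecMul, dotProduct, Matrix.smul_apply, Dg_mul_apply, smul_eq_mul]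
    rw [this]
    refine DifferentiableAt.fun_sum fun b _ => ?_
    split_ifs <;> fun_prop
  · intro U θ
    set ζ : ℂ := Complex.exp (θ * Complex.I) with hζ
    have hζ1 : ζ * conj ζ = 1 := by
      rw [Complex.mul_conj, Complex.normSq_eq_norm_sq, hζ, Complex.norm_exp_ofReal_mul_I]
      simp
    unfold Fn
    simp only [Submonoid.coe_mul, Du_coe, Matrix.det_mul, det_Dg]
    rw [← hζ]
    rw [← Finset.prod_sdiff (Finset.subset_univ A)]
    rw [Finset.prod_congr rfl (fun p hp => hA p hp ζ U), Finset.prod_mul_distrib, Finset.prod_const]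
    have h2 : ζ ^ A.card * conj ζ ^ j = ζ * ζ ^ (A.card - j - 1) := by
      have h3 : A.card = j + 1 + (A.card - j - 1) := by omega
      rw [← pow_succ']
      conv_lhs => rw [show A.card = (A.card - j - 1 + 1) + j by omega, pow_add, mul_assoc, ← mul_pow, hζ1, one_pow, mul_one]
    rw [map_mul, mul_pow]
    linear_combination ((∏ p ∈ A, (lam * s * (U : Matrix (Fin q) (Fin q) ℂ) a (w' p))) *
      (∏ p ∈ Finset.univ \ A, (r p ᵥ* ((s : ℂ) • (Dg a ζ * (U : Matrix (Fin q) (Fin q) ℂ)))) (w' p)) *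
      H ((s : ℂ) • (Dg a ζ * (U : Matrix (Fin q) (Fin q) ℂ))) *
      conj ((U : Matrix (Fin q) (Fin q) ℂ).det) ^ j) * h2

/-- There is a unitary matrix with a given unit row. -/
theorem exists_row (a : Fin q) (ξ : Fin q → ℂ) (hξ : ξ ≠ 0) :
    ∃ (g : UG q) (lam : ℂ), ξ = Pi.single a lam ᵥ* (g : Matrix (Fin q) (Fin q) ℂ) := by
  set x : EuclideanSpace ℂ (Fin q) := WithLp.toLp 2 ξ with hx
  have hx0 : x ≠ 0 := by
    intro h
    apply hξ
    have : WithLp.ofLp x = 0 := by rw [h]; rfl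
    exact this
  have hn : ‖x‖ ≠ 0 := norm_ne_zero_iff.2 hx0
  set v : Fin q → EuclideanSpace ℂ (Fin q) := fun _ => ((‖x‖⁻¹ : ℝ) : ℂ) • x with hv
  have ho : Orthonormal ℂ (({a} : Set (Fin q)).domRestrict v) := by
    rw [orthonormal_iff_ite]
    rintro ⟨i, hi⟩ ⟨i', hi'⟩
    rw [Set.mem_singleton_iff] at hi hi'
    subst hi; subst hi'
    rw [if_pos rfl]
    show inner ℂ (((‖x‖⁻¹ : ℝ) : ℂ) • x) (((‖x‖⁻¹ : ℝ) : ℂ) • x) = 1
    rw [inner_self_eq_norm_sq_to_K, norm_smul, Complex.norm_real, norm_inv, norm_norm,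
      inv_mul_cancel₀ hn]
    simp
  obtain ⟨b, hb⟩ := ho.exists_orthonormalBasis_extension_of_card_eq (by simp)
  have hba : b a = ((‖x‖⁻¹ : ℝ) : ℂ) • x := hb a rfl
  refine ⟨⟨Matrix.of fun i c => b i c, ?_⟩, (‖x‖ : ℂ), ?_⟩
  · rw [Matrix.mem_unitaryGroup_iff]
    ext i i'
    rw [Matrix.mul_apply, Matrix.one_apply]
    have h1 := orthonormal_iff_ite.1 b.orthonormal i' i
    rw [PiLp.inner_apply] at h1
    simp only [Matrix.of_apply, Matrix.star_apply]
    simp only [RCLike.inner_apply] at h1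
    have h2 : (if i = i' then (1 : ℂ) else 0) = if i' = i then 1 else 0 := by
      by_cases hii : i = i'
      · rw [if_pos hii, if_pos hii.symm]
      · rw [if_neg hii, if_neg (Ne.symm hii)]
    rw [h2, ← h1]
    refine Finset.sum_congr rfl fun c _ => ?_
    rfl
  · rw [Matrix.single_vecMul]
    ext c
    rw [Pi.smul_apply, Matrix.row_apply]
    simp only [Matrix.of_apply, hba, PiLp.smul_apply, smul_eq_mul, hx]
    push_cast
    rw [← mul_assoc, mul_inv_cancel₀ (by exact_mod_cast hn), one_mul]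

theorem step2 (A : Finset (Fin m)) {j : ℕ} (hj : j < A.card)
    (r : Fin m → Fin q → ℂ) (hr : ∀ p ∈ A, ∀ p' ∈ A, r p = r p')
    (w' : Fin m → Fin q) {H : Matrix (Fin q) (Fin q) ℂ → ℂ} (hH : Hol H) {s : ℝ}
    (hs : s ^ 2 * q < 1) : ∫ U, Fn r w' j H s U ∂(mu q) = 0 := by
  obtain ⟨p₀, hp₀⟩ : A.Nonempty := Finset.card_pos.1 (by omega)
  by_cases hξ : r p₀ = 0
  · have : ∀ U, Fn r w' j H s U = 0 := by
      intro U
      unfold Fn
      rw [Finset.prod_eq_zero (Finset.mem_univ p₀) (by rw [hξ, Matrix.zero_vecMul]; rfl)]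
      simp
    simp [this]
  · set a : Fin q := w' p₀
    obtain ⟨g, lam, hg⟩ := exists_row a (r p₀) hξ
    set r' : Fin m → Fin q → ℂ := fun p => if p ∈ A then Pi.single a lam else
      r p ᵥ* ((g⁻¹ : UG q) : Matrix (Fin q) (Fin q) ℂ) with hr'
    have hrr : ∀ p, r p = r' p ᵥ* (g : Matrix (Fin q) (Fin q) ℂ) := by
      intro p
      by_cases hp : p ∈ A
      · rw [hr']
        simp only [hp, if_true]
        rw [← hg]
        exact hr p hp p₀ hp₀
      · rw [hr']
        simp only [hp, if_false]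
        rw [Matrix.vecMul_vecMul, ← Submonoid.coe_mul, inv_mul_cancel]
        simp
    set F : UG q → ℂ := fun V => conj ((g⁻¹ : UG q) : Matrix (Fin q) (Fin q) ℂ).det ^ j *
      Fn r' w' j (fun Z => H (((g⁻¹ : UG q) : Matrix (Fin q) (Fin q) ℂ) * Z)) s V with hF
    have h1 : ∀ U, Fn r w' j H s U = F (g * U) := by
      intro U
      rw [hF]
      unfold Fn
      have h2 : ∀ p, (r p ᵥ* ((s : ℂ) • (U : Matrix (Fin q) (Fin q) ℂ))) =
          (r' p ᵥ* ((s : ℂ) • ((g * U : UG q) : Matrix (Fin q) (Fin q) ℂ))) := by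
        intro p
        rw [hrr p, Matrix.vecMul_vecMul, Matrix.mul_smul, Submonoid.coe_mul]
      have h3 : ((g⁻¹ : UG q) : Matrix (Fin q) (Fin q) ℂ) *
          ((s : ℂ) • ((g * U : UG q) : Matrix (Fin q) (Fin q) ℂ)) =
            (s : ℂ) • (U : Matrix (Fin q) (Fin q) ℂ) := by
        rw [Matrix.mul_smul, ← Submonoid.coe_mul, inv_mul_cancel_left]
      have h4 : ((U : UG q) : Matrix (Fin q) (Fin q) ℂ).det =
          ((g⁻¹ : UG q) : Matrix (Fin q) (Fin q) ℂ).det *
            ((g * U : UG q) : Matrix (Fin q) (Fin q) ℂ).det := by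
        rw [← Matrix.det_mul, ← Submonoid.coe_mul, inv_mul_cancel_left]
      simp only [h3]
      rw [Finset.prod_congr rfl fun p _ => by rw [h2 p]]
      rw [h4, map_mul, mul_pow]
      ring
    simp_rw [h1]
    rw [integral_mul_left_eq_self F g, hF, integral_const_mul]
    rw [step1 A hj a r' lam (fun p hp => by simp [hr', hp]) w' (hH.left g⁻¹) hs, mul_zero]

end Pool.Agent.Q75.Cu
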