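import Mathlib

set_option autoImplicit false
set_option linter.unusedSectionVars false

/-! Orthogonal projections on column spaces, tensor powers of matrices. -/

open Matrix
open scoped ComplexOrder

namespace Pool.Agent.Q75.Cu

section proj

variable {n d : Type} [Fintype n] [DecidableEq n] [Fintype d] [DecidableEq d]

/-- The orthogonal projection on the column space of an injective matrix. -/
noncomputable def proj (B : Matrix n d ℂ) : Matrix n n ℂ := B * (Bᴴ * B)⁻¹ * Bᴴ

variable {B : Matrix n d ℂ}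

theorem isUnit_gram (hB : Function.Injective B.mulVec) : IsUnit (Bᴴ * B).det := by
  rw [← Matrix.isUnit_iff_isUnit_det]
  exact (Matrix.PosDef.conjTranspose_mul_self B hB).isUnit

theorem proj_mul (hB : Function.Injective B.mulVec) : proj B * B = B := by
  unfold proj
  rw [Matrix.mul_assoc, Matrix.mul_assoc, Matrix.nonsing_inv_mul _ (isUnit_gram hB), Matrix.mul_one]

theorem proj_herm : (proj B)ᴴ = proj B := by
  unfold proj
  rw [Matrix.conjTranspose_mul, Matrix.conjTranspose_mul, Matrix.conjTranspose_conjTranspose,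
    Matrix.conjTranspose_nonsing_inv, Matrix.conjTranspose_mul, Matrix.conjTranspose_conjTranspose,
    Matrix.mul_assoc]

theorem proj_idem (hB : Function.Injective B.mulVec) : proj B * proj B = proj B := by
  have h : proj B * proj B = (proj B * B) * (Bᴴ * B)⁻¹ * Bᴴ := by
    conv_lhs => rw [show proj B * proj B = proj B * (B * (Bᴴ * B)⁻¹ * Bᴴ) from rfl]
    simp only [Matrix.mul_assoc]
  rw [h, proj_mul hB]
  rfl

theorem proj_trace (hB : Function.Injective B.mulVec) {D : Matrix n n ℂ} {M : Matrix d d ℂ}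
    (h : D * B = B * M) : (proj B * D).trace = M.trace := by
  unfold proj
  rw [Matrix.mul_assoc, Matrix.mul_assoc, Matrix.trace_mul_comm, Matrix.mul_assoc,
    Matrix.mul_assoc, h, ← Matrix.mul_assoc Bᴴ, ← Matrix.mul_assoc,
    Matrix.nonsing_inv_mul _ (isUnit_gram hB), Matrix.one_mul]

theorem proj_inv (hB : Function.Injective B.mulVec) {X : Matrix n n ℂ} {M : Matrix d d ℂ}
    (h : X * B = B * M) : proj B * X * proj B = X * proj B := by
  have h1 : X * proj B = B * (M * (Bᴴ * B)⁻¹ * Bᴴ) := by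
    unfold proj
    rw [← Matrix.mul_assoc, ← Matrix.mul_assoc, h]
    simp only [Matrix.mul_assoc]
  rw [Matrix.mul_assoc, h1, ← Matrix.mul_assoc, proj_mul hB]

theorem proj_comm (hB : Function.Injective B.mulVec) {X : Matrix n n ℂ} {M M' : Matrix d d ℂ}
    (h : X * B = B * M) (h' : Xᴴ * B = B * M') : proj B * X = X * proj B := by
  have h1 := proj_inv hB h
  have h2 := congrArg Matrix.conjTranspose (proj_inv hB h')
  rw [Matrix.conjTranspose_mul, Matrix.conjTranspose_mul, Matrix.conjTranspose_mul, proj_herm,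
    Matrix.conjTranspose_conjTranspose] at h2
  rw [← h1, Matrix.mul_assoc, h2]

theorem diag_bounds {P : Matrix n n ℂ} (h1 : Pᴴ = P) (h2 : P * P = P) (i : n) :
    ∃ x : ℝ, P i i = x ∧ 0 ≤ x ∧ x ≤ 1 := by
  have h3 : P i i = ((∑ j, ‖P i j‖ ^ 2 : ℝ) : ℂ) := by
    conv_lhs => rw [← h2, Matrix.mul_apply]
    push_cast
    refine Finset.sum_congr rfl fun j _ => ?_
    have h4 : P j i = star (P i j) := by
      conv_lhs => rw [← h1, Matrix.conjTranspose_apply]
    rw [h4, Complex.star_def, Complex.mul_conj, Complex.normSq_eq_norm_sq]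
    push_cast
    rfl
  refine ⟨_, h3, Finset.sum_nonneg fun j _ => by positivity, ?_⟩
  set x : ℝ := ∑ j, ‖P i j‖ ^ 2 with hx
  have h5 : x ^ 2 ≤ x := by
    have h6 : ‖P i i‖ ^ 2 ≤ x := Finset.single_le_sum (f := fun j => ‖P i j‖ ^ 2)
      (fun j _ => by positivity) (Finset.mem_univ i)
    rw [h3, Complex.norm_real, Real.norm_eq_abs, sq_abs] at h6
    exact h6
  nlinarith [sq_nonneg (x - 1)]

/-- The sum of the squares of the absolute values of the entries. -/
noncomputable def hs (Y : Matrix n n ℂ) : ℝ := ∑ i, ∑ j, ‖Y i j‖ ^ 2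

theorem hs_eq (Y : Matrix n n ℂ) : ((hs Y : ℝ) : ℂ) = (Y * Yᴴ).trace := by
  unfold hs
  rw [Matrix.trace]
  push_cast
  refine Finset.sum_congr rfl fun b _ => ?_
  rw [Matrix.diag_apply, Matrix.mul_apply]
  refine Finset.sum_congr rfl fun a _ => ?_
  rw [Matrix.conjTranspose_apply, Complex.star_def, Complex.mul_conj,
    Complex.normSq_eq_norm_sq]
  push_cast
  rfl

theorem hs_compl {P : Matrix n n ℂ} (h1 : Pᴴ = P) (h2 : P * P = P) (X : Matrix n n ℂ) :
    ((hs ((1 - P) * X) : ℝ) : ℂ) = ((hs X : ℝ) : ℂ) - (P * (X * Xᴴ)).trace := by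
  rw [hs_eq, hs_eq, Matrix.conjTranspose_mul, Matrix.conjTranspose_sub, h1,
    Matrix.conjTranspose_one]
  have h3 : (1 - P) * X * (Xᴴ * (1 - P)) = (1 - P) * (X * Xᴴ) * (1 - P) := by
    simp only [Matrix.mul_assoc]
  have h4 : (1 - P) * (1 - P) = 1 - P := by
    rw [Matrix.mul_sub, Matrix.sub_mul, Matrix.sub_mul, Matrix.mul_one, Matrix.one_mul,
      Matrix.mul_one, h2]
    simp
  rw [h3, Matrix.trace_mul_comm, ← Matrix.mul_assoc, h4, Matrix.sub_mul, Matrix.one_mul,
    Matrix.trace_sub]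

end proj

section tens

variable {q : ℕ}

/-- Tensor powers of a matrix. -/
def tens (m : ℕ) (Z : Matrix (Fin q) (Fin q) ℂ) : Matrix (Fin m → Fin q) (Fin m → Fin q) ℂ :=
  Matrix.of fun w w' => ∏ p, Z (w p) (w' p)

theorem sum_prod_swap {m : ℕ} (F : Fin m → Fin q → ℂ) :
    ∑ w : Fin m → Fin q, ∏ p, F p (w p) = ∏ p, ∑ c, F p c := by
  rw [Finset.prod_univ_sum, Fintype.piFinset_univ]

theorem sum_prod_swap_real {m : ℕ} (F : Fin m → Fin q → ℝ) :
    ∑ w : Fin m → Fin q, ∏ p, F p (w p) = ∏ p, ∑ c, F p c := by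
  rw [Finset.prod_univ_sum, Fintype.piFinset_univ]

theorem tens_mul (m : ℕ) (Z Y : Matrix (Fin q) (Fin q) ℂ) :
    tens m (Z * Y) = tens m Z * tens m Y := by
  ext w w'
  simp only [tens, Matrix.mul_apply, Matrix.of_apply]
  rw [← sum_prod_swap fun p c => Z (w p) c * Y c (w' p)]
  refine Finset.sum_congr rfl fun u _ => ?_
  rw [Finset.prod_mul_distrib]

theorem tens_one (m : ℕ) : tens m (1 : Matrix (Fin q) (Fin q) ℂ) = 1 := by
  ext w w'
  simp only [tens, Matrix.of_apply]
  rw [Matrix.one_apply]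
  split_ifs with h
  · subst h
    exact Finset.prod_eq_one fun p _ => Matrix.one_apply_eq _
  · obtain ⟨p, hp⟩ := Function.ne_iff.1 h
    exact Finset.prod_eq_zero (Finset.mem_univ p) (Matrix.one_apply_ne hp)

theorem tens_conjTranspose (m : ℕ) (Z : Matrix (Fin q) (Fin q) ℂ) :
    (tens m Z)ᴴ = tens m Zᴴ := by
  ext w w'
  simp only [tens, Matrix.conjTranspose_apply, Matrix.of_apply]
  rw [star_prod]

theorem tens_diagonal (m : ℕ) (x : Fin q → ℂ) :
    tens m (Matrix.diagonal x) = Matrix.diagonal fun w : Fin m → Fin q => ∏ p, x (w p) := by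
  ext w w'
  simp only [tens, Matrix.of_apply]
  rw [Matrix.diagonal_apply]
  split_ifs with h
  · subst h
    exact Finset.prod_congr rfl fun p _ => Matrix.diagonal_apply_eq _ _
  · obtain ⟨p, hp⟩ := Function.ne_iff.1 h
    exact Finset.prod_eq_zero (Finset.mem_univ p) (Matrix.diagonal_apply_ne _ hp)

theorem hs_tens (m : ℕ) (Z : Matrix (Fin q) (Fin q) ℂ) :
    hs (tens m Z) = (∑ a, ∑ b, ‖Z a b‖ ^ 2) ^ m := by
  unfold hs
  simp only [tens, Matrix.of_apply, norm_prod, ← Finset.prod_pow]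
  have h1 : ∀ w : Fin m → Fin q, ∑ w' : Fin m → Fin q, ∏ p, ‖Z (w p) (w' p)‖ ^ 2 =
      ∏ p, ∑ c, ‖Z (w p) c‖ ^ 2 := fun w =>
    sum_prod_swap_real fun p c => ‖Z (w p) c‖ ^ 2
  simp only [h1]
  rw [sum_prod_swap_real fun _ c => ∑ c', ‖Z c c'‖ ^ 2]
  simp

/-- The space of tensors annihilated by all contractions with powers `ξ^{k+1}`. -/
def TT (m q k : ℕ) : Submodule ℂ ((Fin m → Fin q) → ℂ) where
  carrier := {v | ∀ A : Finset (Fin m), A.card = k + 1 → ∀ r : Fin m → Fin q → ℂ,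
    (∀ p ∈ A, ∀ p' ∈ A, r p = r p') → ∑ W, (∏ p, r p (W p)) * v W = 0}
  add_mem' := by
    intro v v' hv hv' A hA r hr
    simp only [Pi.add_apply, mul_add, Finset.sum_add_distrib]
    rw [hv A hA r hr, hv' A hA r hr, add_zero]
  zero_mem' := by
    intro A hA r hr
    simp
  smul_mem' := by
    intro c v hv A hA r hr
    have h1 := hv A hA r hr
    calc ∑ W, (∏ p, r p (W p)) * (c • v) W = c * ∑ W, (∏ p, r p (W p)) * v W := by
          rw [Finset.mul_sum]
          refine Finset.sum_congr rfl fun W _ => ?_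
          rw [Pi.smul_apply, smul_eq_mul]; ring
      _ = 0 := by rw [h1, mul_zero]

theorem mem_TT {m q k : ℕ} {v : (Fin m → Fin q) → ℂ} : v ∈ TT m q k ↔
    ∀ A : Finset (Fin m), A.card = k + 1 → ∀ r : Fin m → Fin q → ℂ,
    (∀ p ∈ A, ∀ p' ∈ A, r p = r p') → ∑ W, (∏ p, r p (W p)) * v W = 0 := Iff.rfl

theorem TT_inv {m k : ℕ} (Z : Matrix (Fin q) (Fin q) ℂ) {v : (Fin m → Fin q) → ℂ}
    (hv : v ∈ TT m q k) : tens m Z *ᵥ v ∈ TT m q k := by
  rw [mem_TT]
  intro A hA r hr
  have h1 := hv A hA (fun p => r p ᵥ* Z) fun p hp p' hp' => by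
    show r p ᵥ* Z = r p' ᵥ* Z
    rw [hr p hp p' hp']
  rw [← h1]
  simp only [Matrix.mulVec, dotProduct, Finset.mul_sum]
  rw [Finset.sum_comm]
  refine Finset.sum_congr rfl fun W' _ => ?_
  simp only [tens, Matrix.of_apply, Matrix.vecMul, dotProduct]
  rw [← sum_prod_swap fun p c => r p c * Z c (W' p), Finset.sum_mul]
  refine Finset.sum_congr rfl fun W _ => ?_
  rw [Finset.prod_mul_distrib]
  ring

end tens

end Pool.Agent.Q75.Cu
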