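import Mathlib
import Pool.Agent.Q75.CuD

set_option autoImplicit false
set_option linter.unusedSectionVars false

/-! Words without long weakly increasing subsequences. -/

open Matrix

namespace Pool.Agent.Q75.Cu

variable {m q k : ℕ}

/-- All weakly increasing subsequences of the word have length at most `k`. -/
def Good (k : ℕ) (w : Fin m → Fin q) : Prop :=
  ∀ A : Finset (Fin m), MonotoneOn w A → A.card ≤ k

theorem content_eval (A : Finset (Fin m)) (W : Fin m → Fin q) (l : Fin q) :
    ∑ c ∈ Finset.Iic l, (∑ p ∈ A, Finsupp.single (W p) 1 : Fin q →₀ ℕ) c =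
      (A.filter fun p => W p ≤ l).card := by
  rw [Finset.card_filter]
  simp only [Finsupp.finsetSum_apply, Finsupp.single_apply]
  rw [Finset.sum_comm]
  refine Finset.sum_congr rfl fun p _ => ?_
  rw [Finset.sum_ite_eq]
  simp

theorem lex_lt (A : Finset (Fin m)) {w W : Fin m → Fin q} (hmono : MonotoneOn w A)
    (hoff : ∀ p, p ∉ A → W p = w p)
    (hc : (∑ p ∈ A, Finsupp.single (W p) 1 : Fin q →₀ ℕ) = ∑ p ∈ A, Finsupp.single (w p) 1)
    (hne : W ≠ w) : toLex w < toLex W := by
  rcases lt_trichotomy (toLex w) (toLex W) with h | h | h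
  · exact h
  · exact absurd (toLex.injective h).symm hne
  · exfalso
    obtain ⟨p, hp1, hp2⟩ : ∃ p, (∀ p', p' < p → W p' = w p') ∧ W p < w p := h
    have hpA : p ∈ A := by
      by_contra hp
      rw [hoff p hp] at hp2
      exact lt_irrefl _ hp2
    have h1 : (A.filter fun p' => W p' ≤ W p).card = (A.filter fun p' => w p' ≤ W p).card := by
      rw [← content_eval, ← content_eval, hc]
    have h2 : (A.filter fun p' => w p' ≤ W p) ⊂ (A.filter fun p' => W p' ≤ W p) := by
      rw [Finset.ssubset_iff_of_subset]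
      · refine ⟨p, by simp [hpA], ?_⟩
        simp only [Finset.mem_filter, not_and, not_le]
        exact fun _ => hp2
      · intro p' hp'
        rw [Finset.mem_filter] at hp' ⊢
        refine ⟨hp'.1, ?_⟩
        have h3 : p' < p := by
          by_contra h4
          have h5 := hmono hpA hp'.1 (not_lt.1 h4)
          exact absurd (h5.trans hp'.2) (not_le.2 hp2)
        rw [hp1 p' h3]
        exact hp'.2
    exact absurd h1 (Finset.card_lt_card h2).ne'

open MvPolynomial in
theorem TT_inj {v : (Fin m → Fin q) → ℂ} (hv : v ∈ TT m q k)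
    (h : ∀ w, Good k w → v w = 0) : v = 0 := by
  classical
  by_contra hne
  have hS : (Finset.univ.filter fun w : Fin m → Fin q => v w ≠ 0).Nonempty := by
    obtain ⟨w, hw⟩ := Function.ne_iff.1 hne
    exact ⟨w, by simpa using hw⟩
  obtain ⟨w, hw, hmax⟩ := Finset.exists_max_image _ (fun w : Fin m → Fin q => toLex w) hS
  rw [Finset.mem_filter] at hw
  have hng : ¬ Good k w := fun hg => hw.2 (h w hg)
  unfold Good at hng
  push Not at hng
  obtain ⟨A', hA', hcard⟩ := hng
  obtain ⟨A, hAA, hA⟩ := Finset.exists_subset_card_eq (show k + 1 ≤ A'.card from hcard)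
  have hmono : MonotoneOn w A := hA'.mono (by exact_mod_cast hAA)
  -- the polynomial identity
  set Q : MvPolynomial (Fin q) ℂ := ∑ W : Fin m → Fin q,
    monomial (∑ p ∈ A, Finsupp.single (W p) 1) ((if ∀ p, p ∉ A → W p = w p then 1 else 0) * v W)
    with hQ
  have hQ0 : Q = 0 := by
    refine MvPolynomial.funext fun ξ => ?_
    rw [map_zero]
    have h1 := hv A hA (fun p => if p ∈ A then ξ else Pi.single (w p) 1) (fun p hp p' hp' => by
      simp only [hp, hp', if_true])
    rw [← h1, hQ, map_sum]
    refine Finset.sum_congr rfl fun W _ => ?_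
    rw [eval_monomial]
    rw [← Finset.prod_sdiff (Finset.subset_univ A)]
    have h2 : (∑ p ∈ A, Finsupp.single (W p) 1 : Fin q →₀ ℕ).prod (fun i e => ξ i ^ e) =
        ∏ p ∈ A, ξ (W p) := by
      rw [← Finsupp.prod_finsetSum_index]
      · refine Finset.prod_congr rfl fun p _ => ?_
        rw [Finsupp.prod_single_index] <;> simp
      · simp
      · intro a b₁ b₂
        rw [pow_add]
    rw [h2]
    have h3 : ∏ p ∈ A, (if p ∈ A then ξ else Pi.single (w p) (1 : ℂ)) (W p) = ∏ p ∈ A, ξ (W p) :=
      Finset.prod_congr rfl fun p hp => by rw [if_pos hp]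
    have h4 : ∏ p ∈ Finset.univ \ A, (if p ∈ A then ξ else Pi.single (w p) (1 : ℂ)) (W p) =
        if ∀ p, p ∉ A → W p = w p then 1 else 0 := by
      split_ifs with hc
      · refine Finset.prod_eq_one fun p hp => ?_
        rw [Finset.mem_sdiff] at hp
        rw [if_neg hp.2, hc p hp.2, Pi.single_eq_same]
      · push Not at hc
        obtain ⟨p, hp1, hp2⟩ := hc
        refine Finset.prod_eq_zero (i := p) (by simp [hp1]) ?_
        rw [if_neg hp1, Pi.single_eq_of_ne hp2]
    rw [h3, h4]
    ring
  have hcoef : MvPolynomial.coeff (∑ p ∈ A, Finsupp.single (w p) 1) Q = v w := by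
    rw [hQ, coeff_sum, Finset.sum_eq_single w]
    · rw [coeff_monomial, if_pos rfl, if_pos fun p _ => rfl, one_mul]
    · intro W _ hW
      rw [coeff_monomial]
      split_ifs with h1 h2
      · have h3 := lex_lt A hmono h2 h1 hW
        have h4 : v W = 0 := by
          by_contra h5
          exact absurd (hmax W (by simp [h5])) (not_le.2 h3)
        rw [h4, mul_zero]
      · rw [zero_mul]
      · rfl
    · intro h1
      exact absurd (Finset.mem_univ _) h1
  rw [hQ0, coeff_zero] at hcoef
  exact hw.2 hcoef.symm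

/-- Length of the longest weakly increasing subsequence ending at a position. -/
noncomputable def len (w : Fin m → Fin q) (p : Fin m) : ℕ := by
  classical
  exact (Finset.univ.filter fun A : Finset (Fin m) =>
    MonotoneOn w A ∧ p ∈ A ∧ ∀ p' ∈ A, p' ≤ p).sup Finset.card

theorem le_len {w : Fin m → Fin q} {p : Fin m} {A : Finset (Fin m)} (h1 : MonotoneOn w A)
    (h2 : p ∈ A) (h3 : ∀ p' ∈ A, p' ≤ p) : A.card ≤ len w p := by
  classical
  unfold len
  exact Finset.le_sup (f := Finset.card) (Finset.mem_filter.2 ⟨Finset.mem_univ _, h1, h2, h3⟩)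

theorem exists_len (w : Fin m → Fin q) (p : Fin m) : ∃ A : Finset (Fin m), MonotoneOn w A ∧
    p ∈ A ∧ (∀ p' ∈ A, p' ≤ p) ∧ A.card = len w p := by
  classical
  have hne : (Finset.univ.filter fun A : Finset (Fin m) =>
      MonotoneOn w A ∧ p ∈ A ∧ ∀ p' ∈ A, p' ≤ p).Nonempty := by
    refine ⟨{p}, ?_⟩
    simp
  obtain ⟨A, hA, hc⟩ := Finset.exists_mem_eq_sup _ hne Finset.card
  rw [Finset.mem_filter] at hA
  refine ⟨A, hA.2.1, hA.2.2.1, hA.2.2.2, ?_⟩
  unfold len
  convert hc.symm

theorem len_lt {w : Fin m → Fin q} {p p' : Fin m} (h : p < p') (hw : w p ≤ w p') :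
    len w p < len w p' := by
  classical
  obtain ⟨A, h1, h2, h3, h4⟩ := exists_len w p
  have hn : p' ∉ A := fun hp => absurd (h3 p' hp) (not_le.2 h)
  have h5 : (insert p' A).card ≤ len w p' := by
    refine le_len ?_ (Finset.mem_insert_self _ _) ?_
    · intro x hx y hy hxy
      rw [Finset.coe_insert] at hx hy
      rcases hx with rfl | hx
      · rcases hy with rfl | hy
        · exact le_rfl
        · exact absurd (hxy.trans (h3 y hy)) (not_le.2 h)
      · rcases hy with rfl | hy
        · exact (h1 hx h2 (h3 x hx)).trans hw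
        · exact h1 hx hy hxy
    · intro x hx
      rw [Finset.mem_insert] at hx
      rcases hx with rfl | hx
      · exact le_rfl
      · exact (h3 x hx).trans h.le
  rw [Finset.card_insert_of_notMem hn, h4] at h5
  omega

theorem len_le {w : Fin m → Fin q} (hw : Good k w) (p : Fin m) : len w p ≤ k := by
  obtain ⟨A, h1, h2, h3, h4⟩ := exists_len w p
  rw [← h4]
  exact hw A h1

theorem perm_eq {v : Fin m → Fin q} {σ τ : Equiv.Perm (Fin m)}
    (h1 : len (v ∘ σ) = len (v ∘ τ))
    (h2 : len (v ∘ σ) ∘ σ.symm = len (v ∘ τ) ∘ τ.symm) : σ = τ := by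
  have hs : ∀ p p', p < p' → len (v ∘ σ) p = len (v ∘ σ) p' → v (σ p') < v (σ p) := by
    intro p p' h hc
    by_contra hcon
    exact absurd hc (len_lt (w := v ∘ σ) h (not_lt.1 hcon)).ne
  have ht : ∀ p p', p < p' → len (v ∘ τ) p = len (v ∘ τ) p' → v (τ p') < v (τ p) := by
    intro p p' h hc
    by_contra hcon
    exact absurd hc (len_lt (w := v ∘ τ) h (not_lt.1 hcon)).ne
  have key : ∀ p, σ p = τ p := by
    intro p
    induction p using WellFoundedLT.induction with
    | ind p ih =>
      -- x = σ p is τ p''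
      have e1 : len (v ∘ τ) (τ.symm (σ p)) = len (v ∘ τ) p := by
        have := congrFun h2 (σ p)
        simp only [Function.comp_apply, Equiv.symm_apply_apply] at this
        rw [← h1, this, h1]
      have e2 : len (v ∘ σ) (σ.symm (τ p)) = len (v ∘ σ) p := by
        have := congrFun h2 (τ p)
        simp only [Function.comp_apply, Equiv.symm_apply_apply] at this
        rw [h1, ← this, h1]
      have g1 : p ≤ τ.symm (σ p) := by
        by_contra hcon
        push Not at hcon
        have h3 := ih _ hcon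
        rw [Equiv.apply_symm_apply] at h3
        have h4 := σ.injective h3
        exact absurd h4 hcon.ne
      have g2 : p ≤ σ.symm (τ p) := by
        by_contra hcon
        push Not at hcon
        have h3 := ih _ hcon
        rw [Equiv.apply_symm_apply] at h3
        have h4 := τ.injective h3
        exact absurd h4.symm hcon.ne
      rcases g1.eq_or_lt with g1 | g1
      · conv_rhs => rw [g1]
        rw [Equiv.apply_symm_apply]
      · rcases g2.eq_or_lt with g2 | g2
        · conv_lhs => rw [g2]
          rw [Equiv.apply_symm_apply]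
        · exfalso
          have f1 := ht _ _ g1 e1.symm
          have f2 := hs _ _ g2 e2.symm
          rw [Equiv.apply_symm_apply] at f1 f2
          exact lt_asymm f1 f2
  exact Equiv.ext key

theorem card_perm_good (v : Fin m → Fin q) [DecidablePred fun σ : Equiv.Perm (Fin m) => Good k (v ∘ σ)] :
    (Finset.univ.filter fun σ : Equiv.Perm (Fin m) => Good k (v ∘ σ)).card ≤
      (k + 1) ^ (2 * m) := by
  classical
  have hcard : Fintype.card ((Fin m → Fin (k + 1)) × (Fin m → Fin (k + 1))) = (k + 1) ^ (2 * m) := by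
    rw [Fintype.card_prod, Fintype.card_fun, Fintype.card_fin, Fintype.card_fin, ← pow_add]
    congr 1
    ring
  rw [← hcard, ← Finset.card_univ]
  refine Finset.card_le_card_of_injOn (fun σ => ((fun p => Fin.ofNat (k + 1) (len (v ∘ σ) p)),
    fun p => Fin.ofNat (k + 1) (len (v ∘ σ) (σ.symm p)))) (fun _ _ => Finset.mem_coe.2 (Finset.mem_univ _)) ?_
  intro σ hσ τ hτ h
  rw [Finset.coe_filter] at hσ hτ
  have hσ' : Good k (v ∘ σ) := hσ.2
  have hτ' : Good k (v ∘ τ) := hτ.2
  rw [Prod.mk.injEq] at h
  have hval : ∀ a b : ℕ, a ≤ k → b ≤ k → Fin.ofNat (k + 1) a = Fin.ofNat (k + 1) b → a = b := by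
    intro a b ha hb hab
    have := congrArg Fin.val hab
    simp only [Fin.ofNat] at this
    rwa [Nat.mod_eq_of_lt (by omega), Nat.mod_eq_of_lt (by omega)] at this
  refine perm_eq (v := v) ?_ ?_
  · funext p
    exact hval _ _ (len_le hσ' p) (len_le hτ' p) (congrFun h.1 p)
  · funext p
    exact hval _ _ (len_le hσ' _) (len_le hτ' _) (congrFun h.2 p)

open scoped Classical in
/-- **Counting good words.** -/
theorem sum_good (x : Fin q → ℝ) (hx : ∀ c, 0 ≤ x c) :
    (m.factorial : ℝ) * ∑ w ∈ Finset.univ.filter (fun w : Fin m → Fin q => Good k w), ∏ p, x (w p) ≤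
      (k + 1 : ℝ) ^ (2 * m) * (∑ c, x c) ^ m := by
  have h1 : ∀ σ : Equiv.Perm (Fin m),
      ∑ w ∈ Finset.univ.filter (fun w : Fin m → Fin q => Good k w), ∏ p, x (w p) =
        ∑ v : Fin m → Fin q, if Good k (v ∘ σ) then ∏ p, x (v p) else 0 := by
    intro σ
    rw [Finset.sum_filter]
    refine (Equiv.sum_comp (Equiv.arrowCongr σ.symm (Equiv.refl (Fin q)))
      (fun w : Fin m → Fin q => if Good k w then ∏ p, x (w p) else 0)).symm.trans ?_
    refine Finset.sum_congr rfl fun v _ => ?_
    have h2 : (Equiv.arrowCongr σ.symm (Equiv.refl (Fin q))) v = v ∘ σ := by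
      funext p
      simp [Equiv.arrowCongr]
    rw [h2]
    have h3 : ∏ p, x ((v ∘ σ) p) = ∏ p, x (v p) := Equiv.prod_comp σ fun p => x (v p)
    rw [h3]
  have h2 : (m.factorial : ℝ) *
      ∑ w ∈ Finset.univ.filter (fun w : Fin m → Fin q => Good k w), ∏ p, x (w p) =
      ∑ σ : Equiv.Perm (Fin m), ∑ v : Fin m → Fin q, if Good k (v ∘ σ) then ∏ p, x (v p) else 0 := by
    rw [← Finset.sum_congr rfl fun σ _ => h1 σ, Finset.sum_const, Finset.card_univ,
      Fintype.card_perm, Fintype.card_fin, nsmul_eq_mul]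
  rw [h2, Finset.sum_comm]
  have h3 : (∑ c, x c) ^ m = ∑ v : Fin m → Fin q, ∏ p, x (v p) := by
    rw [sum_prod_swap_real fun _ c => x c]
    simp
  rw [h3, Finset.mul_sum]
  refine Finset.sum_le_sum fun v _ => ?_
  rw [← Finset.sum_filter, Finset.sum_const, nsmul_eq_mul]
  refine mul_le_mul_of_nonneg_right ?_ (Finset.prod_nonneg fun p _ => hx _)
  exact_mod_cast card_perm_good v

end Pool.Agent.Q75.Cu
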