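import Mathlib
import Pool.Agent.Q75.CuE
import Pool.Agent.Q75.CuC

set_option autoImplicit false
set_option linter.unusedSectionVars false

/-! The projection onto the space `TT` and the size of the tensors outside of it. -/

open Matrix
open scoped ComplexOrder

namespace Pool.Agent.Q75.Cu

variable {m q k : ℕ}

/-- The matrix whose columns are a basis of `TT`. -/
noncomputable def Bm (m q k : ℕ) : Matrix (Fin m → Fin q) (Fin (Module.finrank ℂ (TT m q k))) ℂ :=
  Matrix.of fun w i => ((Module.finBasis ℂ (TT m q k) i : TT m q k) : (Fin m → Fin q) → ℂ) w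

theorem Bm_mulVec (c : Fin (Module.finrank ℂ (TT m q k)) → ℂ) :
    Bm m q k *ᵥ c = (((Module.finBasis ℂ (TT m q k)).equivFun.symm c : TT m q k) :
      (Fin m → Fin q) → ℂ) := by
  rw [Module.Basis.equivFun_symm_apply]
  funext w
  simp only [Matrix.mulVec, dotProduct, Bm, Matrix.of_apply, Submodule.coe_sum,
    Submodule.coe_smul, Finset.sum_apply, Pi.smul_apply, smul_eq_mul]
  exact Finset.sum_congr rfl fun i _ => mul_comm _ _

theorem Bm_mem (c : Fin (Module.finrank ℂ (TT m q k)) → ℂ) : Bm m q k *ᵥ c ∈ TT m q k := by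
  rw [Bm_mulVec]
  exact Submodule.coe_mem _

theorem Bm_inj : Function.Injective (Bm m q k).mulVec := by
  intro c c' h
  have h1 : Bm m q k *ᵥ c = Bm m q k *ᵥ c' := h
  rw [Bm_mulVec, Bm_mulVec] at h1
  exact (Module.finBasis ℂ (TT m q k)).equivFun.symm.injective (Subtype.ext h1)

theorem Bm_surj {v : (Fin m → Fin q) → ℂ} (hv : v ∈ TT m q k) : ∃ c, Bm m q k *ᵥ c = v := by
  refine ⟨(Module.finBasis ℂ (TT m q k)).equivFun ⟨v, hv⟩, ?_⟩
  rw [Bm_mulVec, LinearEquiv.symm_apply_apply]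

theorem exists_M (X : Matrix (Fin m → Fin q) (Fin m → Fin q) ℂ)
    (hX : ∀ v ∈ TT m q k, X *ᵥ v ∈ TT m q k) :
    ∃ M : Matrix (Fin (Module.finrank ℂ (TT m q k))) (Fin (Module.finrank ℂ (TT m q k))) ℂ,
      X * Bm m q k = Bm m q k * M := by
  choose! c hc using fun v => fun hv : v ∈ TT m q k => Bm_surj (k := k) hv
  refine ⟨Matrix.of fun i j => c (X *ᵥ (Bm m q k *ᵥ Pi.single j 1)) i, ?_⟩
  ext w j
  have h1 := congrFun (hc _ (hX _ (Bm_mem (Pi.single j 1)))) w
  rw [Matrix.mul_apply (M := Bm m q k)]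
  simp only [Matrix.of_apply]
  rw [Matrix.mulVec, dotProduct] at h1
  rw [h1, Matrix.mulVec_mulVec, Matrix.mulVec_single_one, Matrix.col_apply]

/-- The restriction to good words. -/
noncomputable def Gm (m q k : ℕ) :
    Matrix {w : Fin m → Fin q // Good k w} (Fin (Module.finrank ℂ (TT m q k))) ℂ :=
  (Bm m q k).submatrix Subtype.val id

theorem Gm_inj : Function.Injective (Gm m q k).mulVec := by
  intro c c' h
  have h1 : Bm m q k *ᵥ (c - c') = 0 := by
    refine TT_inj (Bm_mem _) fun w hw => ?_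
    have h2 := congrFun h ⟨w, hw⟩
    rw [Matrix.mulVec_sub, Pi.sub_apply, sub_eq_zero]
    exact h2
  have h2 : Bm m q k *ᵥ (c - c') = Bm m q k *ᵥ 0 := by rw [h1, Matrix.mulVec_zero]
  exact sub_eq_zero.1 (Bm_inj h2)

open scoped Classical in
theorem trace_diag (x : Fin q → ℝ) (hx : ∀ c, 0 ≤ x c) :
    ∃ t : ℝ, (proj (Bm m q k) * tens m (Matrix.diagonal fun c => (x c : ℂ))).trace = t ∧ 0 ≤ t ∧
      t ≤ ∑ w ∈ Finset.univ.filter (fun w : Fin m → Fin q => Good k w), ∏ p, x (w p) := by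
  obtain ⟨M, hM⟩ := exists_M (k := k) (tens m (Matrix.diagonal fun c => (x c : ℂ)))
    fun v hv => TT_inv _ hv
  rw [proj_trace Bm_inj hM]
  have hG : Matrix.diagonal (fun w : {w : Fin m → Fin q // Good k w} => ∏ p, (x (w.1 p) : ℂ)) *
      Gm m q k = Gm m q k * M := by
    ext w i
    have h1 := congrFun (congrFun hM w.1) i
    rw [tens_diagonal, Matrix.diagonal_mul] at h1
    rw [Matrix.diagonal_mul]
    exact h1
  rw [← proj_trace Gm_inj hG]
  have hb := fun w => diag_bounds (P := proj (Gm m q k)) proj_herm (proj_idem Gm_inj) w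
  choose y hy1 hy2 hy3 using hb
  refine ⟨∑ w : {w : Fin m → Fin q // Good k w}, y w * ∏ p, x (w.1 p), ?_, ?_, ?_⟩
  · rw [Matrix.trace]
    push_cast
    refine Finset.sum_congr rfl fun w _ => ?_
    rw [Matrix.diag_apply, Matrix.mul_diagonal, hy1]
  · exact Finset.sum_nonneg fun w _ => mul_nonneg (hy2 w) (Finset.prod_nonneg fun p _ => hx _)
  · have h2 : ∑ w ∈ Finset.univ.filter (fun w : Fin m → Fin q => Good k w), ∏ p, x (w p) =
        ∑ w : {w : Fin m → Fin q // Good k w}, ∏ p, x (w.1 p) :=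
      Finset.sum_subtype _ (by simp) _
    rw [h2]
    refine Finset.sum_le_sum fun w _ => ?_
    have := Finset.prod_nonneg fun p (_ : p ∈ Finset.univ) => hx (w.1 p)
    nlinarith [hy3 w]

theorem tens_comm (Z : Matrix (Fin q) (Fin q) ℂ) :
    proj (Bm m q k) * tens m Z = tens m Z * proj (Bm m q k) := by
  obtain ⟨M, hM⟩ := exists_M (k := k) (tens m Z) fun v hv => TT_inv _ hv
  obtain ⟨M', hM'⟩ := exists_M (k := k) (tens m Zᴴ) fun v hv => TT_inv _ hv
  exact proj_comm Bm_inj hM (by rw [tens_conjTranspose]; exact hM')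

theorem trace_tens (Z : Matrix (Fin q) (Fin q) ℂ) :
    ∃ t : ℝ, (proj (Bm m q k) * (tens m Z * (tens m Z)ᴴ)).trace = t ∧ 0 ≤ t ∧
      (m.factorial : ℝ) * t ≤ (k + 1 : ℝ) ^ (2 * m) * frob Z ^ m := by
  classical
  have hH : (Z * Zᴴ).IsHermitian := Matrix.isHermitian_mul_conjTranspose_self Z
  have hP : (Z * Zᴴ).PosSemidef := Matrix.posSemidef_self_mul_conjTranspose Z
  set x : Fin q → ℝ := hH.eigenvalues with hx
  have hx0 : ∀ c, 0 ≤ x c := hP.eigenvalues_nonneg
  obtain ⟨t, ht1, ht2, ht3⟩ := trace_diag (m := m) (k := k) x hx0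
  refine ⟨t, ?_, ht2, ?_⟩
  · rw [← ht1, tens_conjTranspose, ← tens_mul]
    set U : Matrix (Fin q) (Fin q) ℂ := (hH.eigenvectorUnitary : Matrix (Fin q) (Fin q) ℂ) with hU
    have hUU : Uᴴ * U = 1 := by
      rw [← Matrix.star_eq_conjTranspose]
      exact Unitary.coe_star_mul_self hH.eigenvectorUnitary
    have h1 : Z * Zᴴ = U * Matrix.diagonal (fun c => (x c : ℂ)) * Uᴴ := by
      have := hH.spectral_theorem
      rw [Unitary.conjStarAlgAut_apply] at this
      exact this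
    rw [h1, tens_mul, tens_mul, Matrix.mul_assoc (tens m U), ← Matrix.mul_assoc, tens_comm,
      Matrix.mul_assoc, Matrix.trace_mul_comm, Matrix.mul_assoc, Matrix.mul_assoc, ← tens_mul,
      hUU, tens_one, Matrix.mul_one]
  · have h2 : (∑ c, x c) = frob Z := by
      have h3 : ((∑ c, x c : ℝ) : ℂ) = ((frob Z : ℝ) : ℂ) := by
        rw [frob_eq, Matrix.trace_mul_comm, hH.trace_eq_sum_eigenvalues]
        push_cast
        rfl
      exact_mod_cast h3
    rw [← h2]
    refine le_trans ?_ (sum_good (k := k) x hx0)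
    exact mul_le_mul_of_nonneg_left (by convert ht3) (by positivity)

/-- **The projection.** -/
theorem exists_P (m q k : ℕ) : ∃ P : Matrix (Fin m → Fin q) (Fin m → Fin q) ℂ,
    (∀ v ∈ TT m q k, P *ᵥ v = v) ∧
    ∀ Z : Matrix (Fin q) (Fin q) ℂ, hs ((1 - P) * tens m Z) ≤ frob Z ^ m ∧
      (1 - (k + 1 : ℝ) ^ (2 * m) / m.factorial) * frob Z ^ m ≤ hs ((1 - P) * tens m Z) := by
  refine ⟨proj (Bm m q k), ?_, ?_⟩
  · intro v hv
    obtain ⟨c, rfl⟩ := Bm_surj hv
    rw [Matrix.mulVec_mulVec, proj_mul Bm_inj]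
  · intro Z
    obtain ⟨t, ht1, ht2, ht3⟩ := trace_tens (m := m) (k := k) Z
    have h1 := hs_compl (P := proj (Bm m q k)) proj_herm (proj_idem Bm_inj) (tens m Z)
    rw [ht1, hs_tens] at h1
    have h2 : hs ((1 - proj (Bm m q k)) * tens m Z) = frob Z ^ m - t := by
      have : ((hs ((1 - proj (Bm m q k)) * tens m Z) : ℝ) : ℂ) = ((frob Z ^ m - t : ℝ) : ℂ) := by
        rw [h1, Complex.ofReal_sub]
        rfl
      exact_mod_cast this
    rw [h2]
    refine ⟨by linarith, ?_⟩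
    have h3 : t ≤ (k + 1 : ℝ) ^ (2 * m) / m.factorial * frob Z ^ m := by
      rw [div_mul_eq_mul_div, le_div_iff₀ (by positivity)]
      linarith
    nlinarith

end Pool.Agent.Q75.Cu
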