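import Mathlib
import Pool.Agent.Q75.CuF
import Pool.Agent.H720R2.Combi

set_option autoImplicit false
set_option linter.unusedSectionVars false

/-! The normalised determinant, the functional, and the basic inequality. -/

open MeasureTheory Matrix Metric Set
open scoped Real ComplexConjugate

namespace Pool.Agent.Q75.Cu

variable {m q k : ℕ}

/-- The normalised determinant. -/
noncomputable def uu (Z : Matrix (Fin q) (Fin q) ℂ) : ℂ := ((Real.sqrt q ^ q : ℝ) : ℂ) * Z.det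

open scoped ComplexOrder in
theorem norm_uu_sq_le (Z : Matrix (Fin q) (Fin q) ℂ) : ‖uu Z‖ ^ 2 ≤ frob Z ^ q := by
  have hH : (Z * Zᴴ).IsHermitian := Matrix.isHermitian_mul_conjTranspose_self Z
  have hP : (Z * Zᴴ).PosSemidef := Matrix.posSemidef_self_mul_conjTranspose Z
  set x : Fin q → ℝ := hH.eigenvalues with hx
  have hx0 : ∀ c, 0 ≤ x c := hP.eigenvalues_nonneg
  have h2 : (∑ c, x c) = frob Z := by
    have h3 : ((∑ c, x c : ℝ) : ℂ) = ((frob Z : ℝ) : ℂ) := by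
      rw [frob_eq, Matrix.trace_mul_comm, hH.trace_eq_sum_eigenvalues]
      push_cast
      rfl
    exact_mod_cast h3
  have h4 : ‖Z.det‖ ^ 2 = ∏ c, x c := by
    have h5 : ((‖Z.det‖ ^ 2 : ℝ) : ℂ) = ((∏ c, x c : ℝ) : ℂ) := by
      have h6 := hH.det_eq_prod_eigenvalues
      rw [Matrix.det_mul, Matrix.det_conjTranspose, Complex.star_def, Complex.mul_conj,
        Complex.normSq_eq_norm_sq] at h6
      rw [h6]
      push_cast
      rfl
    exact_mod_cast h5
  rw [← h2]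
  refine le_trans (le_of_eq ?_) (Pool.Agent.H720R2.prod_le_pow_sum hx0)
  unfold uu
  rw [norm_mul, mul_pow, h4, Complex.norm_real, Real.norm_of_nonneg (by positivity), ← pow_mul,
    mul_comm q 2, pow_mul, Real.sq_sqrt (Nat.cast_nonneg q), Finset.prod_mul_distrib]
  simp

theorem norm_uu_lt (hq : 1 ≤ q) {Z : Matrix (Fin q) (Fin q) ℂ} (hZ : Z ∈ BM q) : ‖uu Z‖ < 1 := by
  have h1 := norm_uu_sq_le Z
  have h2 : frob Z ^ q < 1 := pow_lt_one₀ (frob_nonneg Z) hZ (by omega)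
  have h3 : ‖uu Z‖ ^ 2 < 1 := lt_of_le_of_lt h1 h2
  nlinarith [norm_nonneg (uu Z)]

theorem continuous_uu : Continuous (uu : Matrix (Fin q) (Fin q) ℂ → ℂ) := by
  unfold uu
  exact continuous_const.mul (Continuous.matrix_det continuous_id)

theorem differentiable_uu_line (Z Y : Matrix (Fin q) (Fin q) ℂ) :
    Differentiable ℂ fun ζ : ℂ => uu (Z + ζ • Y) := by
  unfold uu
  simp only [Matrix.det_apply, Matrix.add_apply, Matrix.smul_apply, smul_eq_mul]
  refine Differentiable.const_mul ?_ _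
  refine Differentiable.fun_sum fun σ _ => ?_
  refine Differentiable.const_smul ?_ _
  exact Differentiable.fun_finsetProd fun i _ => by fun_prop

theorem Hol.comp_uu (hq : 1 ≤ q) {G : ℂ → ℂ} (hG : DifferentiableOn ℂ G (ball 0 1)) :
    Hol fun Z : Matrix (Fin q) (Fin q) ℂ => G (uu Z) := by
  refine ⟨?_, ?_⟩
  · refine hG.continuousOn.comp continuous_uu.continuousOn fun Z hZ => ?_
    rw [mem_ball_zero_iff]
    exact norm_uu_lt hq hZ
  · intro Z Y ζ h
    have h1 : DifferentiableAt ℂ G (uu (Z + ζ • Y)) :=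
      hG.differentiableAt (isOpen_ball.mem_nhds (mem_ball_zero_iff.2 (norm_uu_lt hq h)))
    exact DifferentiableAt.comp (f := fun ζ : ℂ => uu (Z + ζ • Y)) ζ h1
      (differentiable_uu_line Z Y ζ)

theorem uu_smul {r : ℝ} (hq : 1 ≤ q) (U : Matrix (Fin q) (Fin q) ℂ) :
    uu (((r / Real.sqrt q : ℝ) : ℂ) • U) = ((r ^ q : ℝ) : ℂ) * U.det := by
  have hs : Real.sqrt q ≠ 0 := by
    rw [Real.sqrt_ne_zero']
    exact_mod_cast hq
  unfold uu
  rw [Matrix.det_smul, Fintype.card_fin, ← mul_assoc, ← Complex.ofReal_pow, ← Complex.ofReal_mul,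
    ← mul_pow, mul_div_cancel₀ _ hs]

theorem sq_lt {r : ℝ} (hr : 0 ≤ r) (hr1 : r < 1) (hq : 1 ≤ q) :
    (r / Real.sqrt q) ^ 2 * q < 1 := by
  have hq' : (0 : ℝ) < q := by exact_mod_cast hq
  rw [div_pow, Real.sq_sqrt hq'.le, div_mul_cancel₀ _ hq'.ne']
  nlinarith

theorem integ {f : UG q → ℂ} (hf : Continuous f) : Integrable f (mu q) := by
  obtain ⟨C, hC⟩ := (isCompact_univ (X := UG q)).exists_bound_of_continuousOn hf.continuousOn
  exact Integrable.of_bound (C := C) hf.aestronglyMeasurable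
    (Filter.Eventually.of_forall fun x => hC x (Set.mem_univ _))

theorem continuous_det : Continuous fun U : UG q => (U : Matrix (Fin q) (Fin q) ℂ).det :=
  continuous_subtype_val.matrix_det

theorem continuous_cdet (j : ℕ) :
    Continuous fun U : UG q => conj (U : Matrix (Fin q) (Fin q) ℂ).det ^ j :=
  (Complex.continuous_conj.comp continuous_det).pow _

theorem int_conj_det_pow (hq : 1 ≤ q) {j : ℕ} (hj : 1 ≤ j) :
    ∫ U : UG q, conj (U : Matrix (Fin q) (Fin q) ℂ).det ^ j ∂(mu q) = 0 := by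
  have h1 : ∫ U : UG q, (U : Matrix (Fin q) (Fin q) ℂ).det ^ j ∂(mu q) = 0 := by
    refine vanish ⟨0, hq⟩ _ (continuous_det.pow j)
      (fun U ζ => ζ ^ (j - 1) * (U : Matrix (Fin q) (Fin q) ℂ).det ^ j) ?_ ?_
    · intro U
      exact ⟨2, by norm_num, by fun_prop⟩
    · intro U θ
      simp only [Submonoid.coe_mul, Du_coe, Matrix.det_mul, det_Dg]
      rw [mul_pow, ← mul_assoc, ← pow_succ', Nat.sub_add_cancel hj]
  have h2 : ∀ U : UG q, conj (U : Matrix (Fin q) (Fin q) ℂ).det ^ j =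
      conj ((U : Matrix (Fin q) (Fin q) ℂ).det ^ j) := fun U => by rw [map_pow]
  simp_rw [h2]
  rw [integral_conj, h1, map_zero]

/-- The vector of integrals. -/
noncomputable def Kv (w' : Fin m → Fin q) (j : ℕ) (H : Matrix (Fin q) (Fin q) ℂ → ℂ) (s : ℝ)
    (w : Fin m → Fin q) : ℂ :=
  ∫ U : UG q, tens m ((s : ℂ) • (U : Matrix (Fin q) (Fin q) ℂ)) w w' *
    H ((s : ℂ) • (U : Matrix (Fin q) (Fin q) ℂ)) * conj (U : Matrix (Fin q) (Fin q) ℂ).det ^ j ∂(mu q)

theorem continuous_tens (w w' : Fin m → Fin q) (s : ℝ) :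
    Continuous fun U : UG q => tens m ((s : ℂ) • (U : Matrix (Fin q) (Fin q) ℂ)) w w' := by
  simp only [tens, Matrix.of_apply]
  refine continuous_finsetProd _ fun p _ => ?_
  have h1 : Continuous fun U : UG q => (s : ℂ) • (U : Matrix (Fin q) (Fin q) ℂ) :=
    (continuous_const_smul (s : ℂ)).comp continuous_subtype_val
  exact h1.matrix_elem _ _

theorem continuous_Ki (w w' : Fin m → Fin q) (j : ℕ) {H : Matrix (Fin q) (Fin q) ℂ → ℂ}
    (hH : Hol H) {s : ℝ} (hs : s ^ 2 * q < 1) : Continuous fun U : UG q =>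
      tens m ((s : ℂ) • (U : Matrix (Fin q) (Fin q) ℂ)) w w' *
      H ((s : ℂ) • (U : Matrix (Fin q) (Fin q) ℂ)) * conj (U : Matrix (Fin q) (Fin q) ℂ).det ^ j :=
  ((continuous_tens w w' s).mul (hH.continuous hs)).mul (continuous_cdet j)

theorem Kv_mem (w' : Fin m → Fin q) {j : ℕ} (hj : j ≤ k) {H : Matrix (Fin q) (Fin q) ℂ → ℂ}
    (hH : Hol H) {s : ℝ} (hs : s ^ 2 * q < 1) : Kv w' j H s ∈ TT m q k := by
  rw [mem_TT]
  intro A hA r hr
  rw [← step2 A (show j < A.card by omega) r hr w' hH hs]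
  unfold Kv
  simp_rw [← integral_const_mul]
  rw [← integral_finsetSum]
  · refine integral_congr_ae (Filter.Eventually.of_forall fun U => ?_)
    show ∑ W, (∏ p, r p (W p)) * (tens m ((s : ℂ) • (U : Matrix (Fin q) (Fin q) ℂ)) W w' *
      H ((s : ℂ) • (U : Matrix (Fin q) (Fin q) ℂ)) *
        conj (U : Matrix (Fin q) (Fin q) ℂ).det ^ j) = Fn r w' j H s U
    unfold Fn
    have h1 : ∏ p, (r p ᵥ* ((s : ℂ) • (U : Matrix (Fin q) (Fin q) ℂ))) (w' p) =
        ∑ W : Fin m → Fin q, ∏ p, (r p (W p) *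
          ((s : ℂ) • (U : Matrix (Fin q) (Fin q) ℂ)) (W p) (w' p)) := by
      rw [sum_prod_swap fun p c => r p c * ((s : ℂ) • (U : Matrix (Fin q) (Fin q) ℂ)) c (w' p)]
      rfl
    rw [h1, Finset.sum_mul, Finset.sum_mul]
    refine Finset.sum_congr rfl fun W _ => ?_
    rw [Finset.prod_mul_distrib]
    simp only [tens, Matrix.of_apply]
    ring
  · intro W _
    exact (integ (continuous_Ki W w' j hH hs)).const_mul _

theorem int_phi {P : Matrix (Fin m → Fin q) (Fin m → Fin q) ℂ}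
    (hP : ∀ v ∈ TT m q k, P *ᵥ v = v) (w w' : Fin m → Fin q) {j : ℕ} (hj : j ≤ k)
    {H : Matrix (Fin q) (Fin q) ℂ → ℂ} (hH : Hol H) {s : ℝ} (hs : s ^ 2 * q < 1) :
    ∫ U : UG q, ((1 - P) * tens m ((s : ℂ) • (U : Matrix (Fin q) (Fin q) ℂ))) w w' *
      H ((s : ℂ) • (U : Matrix (Fin q) (Fin q) ℂ)) *
        conj (U : Matrix (Fin q) (Fin q) ℂ).det ^ j ∂(mu q) = 0 := by
  have h1 := hP _ (Kv_mem (k := k) w' hj hH hs)
  have h2 : ∀ U : UG q, ((1 - P) * tens m ((s : ℂ) • (U : Matrix (Fin q) (Fin q) ℂ))) w w' *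
      H ((s : ℂ) • (U : Matrix (Fin q) (Fin q) ℂ)) *
        conj (U : Matrix (Fin q) (Fin q) ℂ).det ^ j =
      ∑ W, (1 - P) w W * (tens m ((s : ℂ) • (U : Matrix (Fin q) (Fin q) ℂ)) W w' *
      H ((s : ℂ) • (U : Matrix (Fin q) (Fin q) ℂ)) *
        conj (U : Matrix (Fin q) (Fin q) ℂ).det ^ j) := by
    intro U
    rw [Matrix.mul_apply, Finset.sum_mul, Finset.sum_mul]
    exact Finset.sum_congr rfl fun W _ => by ring
  simp_rw [h2]
  rw [integral_finsetSum _ fun W _ => (integ (continuous_Ki W w' j hH hs)).const_mul _]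
  simp_rw [integral_const_mul]
  have h3 : ∑ W, (1 - P) w W * Kv w' j H s W = ((1 - P) *ᵥ Kv w' j H s) w := rfl
  refine h3.trans ?_
  rw [Matrix.sub_mulVec, Matrix.one_mulVec, h1, sub_self]
  rfl

end Pool.Agent.Q75.Cu
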