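import Mathlib
import Pool.Agent.Q75.CuG

set_option autoImplicit false
set_option linter.unusedSectionVars false

/-! The main inequality. -/

open MeasureTheory Matrix Metric Set
open scoped Real ComplexConjugate

namespace Pool.Agent.Q75.Cu

variable {m q k : ℕ}

/-- telescoping -/
theorem tele {D z β : ℂ} (hD : D * conj D = 1) (k : ℕ) :
    (∑ j ∈ Finset.range (k + 1), z ^ j * conj D ^ j) * (β * D - β * z) =
      β * (D - z ^ (k + 1) * conj D ^ k) := by
  induction k with
  | zero => simp; ring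
  | succ k ih =>
    rw [Finset.sum_range_succ, add_mul, ih]
    linear_combination (β * z ^ (k + 1) * conj D ^ k) * hD

theorem det_mul_conj (U : UG q) :
    (U : Matrix (Fin q) (Fin q) ℂ).det * conj (U : Matrix (Fin q) (Fin q) ℂ).det = 1 := by
  rw [Complex.mul_conj, Complex.normSq_eq_norm_sq, norm_det]
  simp

theorem main_ineq (hq : 1 ≤ q) {r : ℝ} (hr0 : 0 < r) (hr1 : r < 1)
    {P : Matrix (Fin m → Fin q) (Fin m → Fin q) ℂ} (hP : ∀ v ∈ TT m q k, P *ᵥ v = v)
    {ρ : ℂ} {G : ℂ → ℂ} (hG : DifferentiableOn ℂ G (ball 0 1)) {C : ℝ}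
    (hC : ∀ z : ℂ, ‖z‖ = r ^ q → ‖G z‖ ≤ C)
    {H0 : Matrix (Fin q) (Fin q) ℂ → ℂ} (hH0 : Hol H0)
    {H : (Fin m → Fin q) → (Fin m → Fin q) → Matrix (Fin q) (Fin q) ℂ → ℂ}
    (hH : ∀ w w', Hol (H w w'))
    (heq : ∀ Z ∈ BM q, (uu Z - ρ) * G (uu Z) * H0 Z +
      ∑ w, ∑ w', ((1 - P) * tens m Z) w w' * H w w' Z = 1)
    {M : ℝ} (hM : ∀ Z ∈ BM q, ‖H0 Z‖ ≤ M) :
    1 ≤ r ^ q * ((‖ρ‖ / r ^ q) ^ (k + 1) * (C * M)) := by
  set s : ℝ := r / Real.sqrt q with hs
  have hsq : s ^ 2 * q < 1 := sq_lt hr0.le hr1 hq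
  set β : ℂ := ((r ^ q : ℝ) : ℂ) with hβ
  have hβ0 : β ≠ 0 := by rw [hβ]; exact_mod_cast (pow_pos hr0 q).ne'
  set z : ℂ := ρ / β with hz
  have hρ : ρ = β * z := by rw [hz, mul_div_cancel₀ _ hβ0]
  -- abbreviations
  set D : UG q → ℂ := fun U => (U : Matrix (Fin q) (Fin q) ℂ).det with hDdef
  set S : UG q → Matrix (Fin q) (Fin q) ℂ := fun U => (s : ℂ) • (U : Matrix (Fin q) (Fin q) ℂ) with hS
  have hcD : Continuous D := continuous_det
  have huu : ∀ U, uu (S U) = β * D U := fun U => uu_smul hq _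
  have hmem : ∀ U, S U ∈ BM q := fun U => mem_BM hsq U
  set g : UG q → ℂ := fun U => G (uu (S U)) * H0 (S U) with hg
  have hgH : Hol fun Z : Matrix (Fin q) (Fin q) ℂ => G (uu Z) * H0 Z := (Hol.comp_uu hq hG).mul hH0
  have hgc : Continuous g := hgH.continuous hsq
  set φ : UG q → ℂ := fun U => ∑ w, ∑ w', ((1 - P) * tens m (S U)) w w' * H w w' (S U) with hφ
  have hid : ∀ U, (β * D U - β * z) * g U + φ U = 1 := by
    intro U
    have h1 := heq _ (hmem U)
    rw [huu U, hρ] at h1
    simp only [hg, hφ, huu U]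
    linear_combination h1
  -- the kernel
  set K : UG q → ℂ := fun U => ∑ j ∈ Finset.range (k + 1), z ^ j * conj (D U) ^ j with hK
  have hcK : Continuous K := by
    refine continuous_finsetSum _ fun j _ => ?_
    exact continuous_const.mul (continuous_cdet j)
  have hK1 : ∫ U, K U ∂(mu q) = 1 := by
    rw [hK, integral_finsetSum _ fun j _ => (integ (continuous_cdet j)).const_mul _]
    rw [Finset.sum_eq_single 0]
    · simp
    · intro j _ hj
      rw [integral_const_mul, int_conj_det_pow hq (Nat.one_le_iff_ne_zero.2 hj), mul_zero]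
    · intro h; simp at h
  -- terms with φ
  have hcT : ∀ w w' j, Continuous fun U : UG q => ((1 - P) * tens m (S U)) w w' *
      H w w' (S U) * conj (D U) ^ j := by
    intro w w' j
    refine ((?_ : Continuous fun U : UG q => ((1 - P) * tens m (S U)) w w').mul
      ((hH w w').continuous hsq)).mul (continuous_cdet j)
    simp only [Matrix.mul_apply]
    exact continuous_finsetSum _ fun W _ => continuous_const.mul (continuous_tens W w' s)
  have hKφ : ∫ U, K U * φ U ∂(mu q) = 0 := by
    have h1 : ∀ U, K U * φ U = ∑ j ∈ Finset.range (k + 1), ∑ w, ∑ w', z ^ j *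
        (((1 - P) * tens m (S U)) w w' * H w w' (S U) * conj (D U) ^ j) := by
      intro U
      show (∑ j ∈ Finset.range (k + 1), z ^ j * conj (D U) ^ j) *
        (∑ w, ∑ w', ((1 - P) * tens m (S U)) w w' * H w w' (S U)) = _
      rw [Finset.sum_mul]
      refine Finset.sum_congr rfl fun j _ => ?_
      rw [Finset.mul_sum]
      refine Finset.sum_congr rfl fun w _ => ?_
      rw [Finset.mul_sum]
      refine Finset.sum_congr rfl fun w' _ => ?_
      ring
    simp_rw [h1]
    have c3 : ∀ j w w', Continuous fun U : UG q => z ^ j *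
        (((1 - P) * tens m (S U)) w w' * H w w' (S U) * conj (D U) ^ j) :=
      fun j w w' => continuous_const.mul (hcT w w' j)
    have c2 : ∀ j w, Continuous fun U : UG q => ∑ w', z ^ j *
        (((1 - P) * tens m (S U)) w w' * H w w' (S U) * conj (D U) ^ j) :=
      fun j w => continuous_finsetSum _ fun w' _ => c3 j w w'
    have c1 : ∀ j, Continuous fun U : UG q => ∑ w, ∑ w', z ^ j *
        (((1 - P) * tens m (S U)) w w' * H w w' (S U) * conj (D U) ^ j) :=
      fun j => continuous_finsetSum _ fun w _ => c2 j w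
    rw [integral_finsetSum _ fun j _ => integ (c1 j)]
    refine Finset.sum_eq_zero fun j hj => ?_
    rw [integral_finsetSum _ fun w _ => integ (c2 j w)]
    refine Finset.sum_eq_zero fun w _ => ?_
    rw [integral_finsetSum _ fun w' _ => integ (c3 j w w')]
    refine Finset.sum_eq_zero fun w' _ => ?_
    rw [integral_const_mul]
    have hjk : j ≤ k := by rw [Finset.mem_range] at hj; omega
    rw [int_phi hP w w' hjk (hH w w') hsq, mul_zero]
  -- the first term
  have hDg : ∫ U, D U * g U ∂(mu q) = 0 := int_det hgH hq hsq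
  have hcc : Continuous fun U => conj (D U) ^ k * g U := (continuous_cdet k).mul hgc
  have hfirst : ∫ U, K U * ((β * D U - β * z) * g U) ∂(mu q) =
      -(β * z ^ (k + 1)) * ∫ U, conj (D U) ^ k * g U ∂(mu q) := by
    have h1 : ∀ U, K U * ((β * D U - β * z) * g U) =
        β * (D U * g U) + (-(β * z ^ (k + 1))) * (conj (D U) ^ k * g U) := by
      intro U
      have h2 := tele (z := z) (β := β) (det_mul_conj U) k
      rw [← mul_assoc]
      rw [show K U * (β * D U - β * z) = _ from h2]
      ring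
    simp_rw [h1]
    have i1 : Integrable (fun U => β * (D U * g U)) (mu q) := integ (by fun_prop)
    have i2 : Integrable (fun U => (-(β * z ^ (k + 1))) * (conj (D U) ^ k * g U)) (mu q) :=
      integ (continuous_const.mul hcc)
    rw [integral_add i1 i2, integral_const_mul, integral_const_mul, hDg, mul_zero, zero_add]
  have hcf : Continuous fun U => K U * ((β * D U - β * z) * g U) := by fun_prop
  have hcφ : Continuous φ := by
    have : φ = fun U => ∑ w, ∑ w', ((1 - P) * tens m (S U)) w w' * H w w' (S U) *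
        conj (D U) ^ 0 := by
      funext U; simp only [hφ, pow_zero, mul_one]
    rw [this]
    exact continuous_finsetSum _ fun w _ => continuous_finsetSum _ fun w' _ => hcT w w' 0
  have hone : (1 : ℂ) = -(β * z ^ (k + 1)) * ∫ U, conj (D U) ^ k * g U ∂(mu q) := by
    have i1 : Integrable (fun U => K U * ((β * D U - β * z) * g U)) (mu q) := integ hcf
    have i2 : Integrable (fun U => K U * φ U) (mu q) := integ (hcK.mul hcφ)
    rw [← hfirst, ← hK1, ← add_zero (∫ U, K U * ((β * D U - β * z) * g U) ∂(mu q)), ← hKφ,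
      ← integral_add i1 i2]
    refine integral_congr_ae (Filter.Eventually.of_forall fun U => ?_)
    show K U = K U * ((β * D U - β * z) * g U) + K U * φ U
    linear_combination -(K U) * hid U
  have hbound : ‖∫ U, conj (D U) ^ k * g U ∂(mu q)‖ ≤ C * M := by
    have h1 : ∀ U, ‖conj (D U) ^ k * g U‖ ≤ C * M := by
      intro U
      rw [norm_mul, norm_pow, Complex.norm_conj, norm_det, one_pow, one_mul, norm_mul]
      have h2 : ‖G (uu (S U))‖ ≤ C := by
        refine hC _ ?_
        rw [huu U, norm_mul, norm_det, mul_one, hβ, Complex.norm_real,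
          Real.norm_of_nonneg (pow_nonneg hr0.le q)]
      exact mul_le_mul h2 (hM _ (hmem U)) (norm_nonneg _) ((norm_nonneg _).trans h2)
    have h2 := norm_integral_le_of_norm_le_const (μ := mu q) (Filter.Eventually.of_forall h1)
    simpa using h2
  have h3 := congrArg norm hone
  rw [norm_one, norm_mul, norm_neg, norm_mul, norm_pow, hz, norm_div, hβ, Complex.norm_real,
    Real.norm_of_nonneg (pow_nonneg hr0.le q)] at h3
  calc (1 : ℝ) = r ^ q * (‖ρ‖ / r ^ q) ^ (k + 1) * ‖∫ U, conj (D U) ^ k * g U ∂(mu q)‖ := h3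
    _ ≤ r ^ q * (‖ρ‖ / r ^ q) ^ (k + 1) * (C * M) := by gcongr
    _ = _ := by ring

end Pool.Agent.Q75.Cu
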