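import Mathlib
import Pool.Agent.Q75.CuH
import Pool.Agent.H720R2.Core3

set_option autoImplicit false
set_option linter.unusedSectionVars false

/-! The corona data on the unit ball of `ℂⁿ`. -/

open MeasureTheory Matrix Metric Set
open scoped Real ComplexConjugate
open Pool.Agent.H720R2

namespace Pool.Agent.Q75.Cu

variable {m q k n : ℕ}

/-- Matrix of the coordinates. -/
def piM (e : Fin q × Fin q → Fin n) (z : Fin n → ℂ) : Matrix (Fin q) (Fin q) ℂ :=
  Matrix.of fun a b => z (e (a, b))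

/-- Embedding of matrices. -/
noncomputable def io (e : Fin q × Fin q → Fin n) (Z : Matrix (Fin q) (Fin q) ℂ) : Fin n → ℂ :=
  Function.extend e (fun x => Z x.1 x.2) 0

variable {e : Fin q × Fin q → Fin n}

theorem piM_io (he : Function.Injective e) (Z : Matrix (Fin q) (Fin q) ℂ) : piM e (io e Z) = Z := by
  ext a b
  simp only [piM, io, Matrix.of_apply]
  rw [he.extend_apply]

theorem sum_io (he : Function.Injective e) (Z : Matrix (Fin q) (Fin q) ℂ) :
    ∑ i, ‖io e Z i‖ ^ 2 = frob Z := by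
  unfold frob
  rw [← Fintype.sum_prod_type']
  symm
  refine Fintype.sum_of_injective e he _ _ ?_ ?_
  · intro i hi
    unfold io
    rw [Function.extend_apply' _ _ _ (by simpa using hi)]
    simp
  · intro x
    unfold io
    rw [he.extend_apply]

theorem frob_piM (he : Function.Injective e) (z : Fin n → ℂ) : frob (piM e z) ≤ ∑ i, ‖z i‖ ^ 2 := by
  unfold frob
  rw [← Fintype.sum_prod_type']
  simp only [piM, Matrix.of_apply]
  calc ∑ x : Fin q × Fin q, ‖z (e (x.1, x.2))‖ ^ 2 = ∑ i ∈ Finset.univ.map ⟨e, he⟩, ‖z i‖ ^ 2 := by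
        rw [Finset.sum_map]; rfl
    _ ≤ ∑ i, ‖z i‖ ^ 2 := Finset.sum_le_sum_of_subset_of_nonneg (Finset.subset_univ _)
        fun _ _ _ => by positivity

theorem io_add_smul (he : Function.Injective e) (Z Y : Matrix (Fin q) (Fin q) ℂ) (ζ : ℂ) :
    io e (Z + ζ • Y) = io e Z + ζ • io e Y := by
  funext i
  by_cases hi : ∃ x, e x = i
  · obtain ⟨x, rfl⟩ := hi
    simp only [io, Pi.add_apply, Pi.smul_apply, he.extend_apply, Matrix.add_apply,
      Matrix.smul_apply]
  · simp only [io, Pi.add_apply, Pi.smul_apply, Function.extend_apply' _ _ _ hi]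
    simp

theorem continuous_io (he : Function.Injective e) :
    Continuous (io e : Matrix (Fin q) (Fin q) ℂ → Fin n → ℂ) := by
  refine continuous_pi fun i => ?_
  by_cases hi : ∃ x, e x = i
  · obtain ⟨x, rfl⟩ := hi
    simp only [io, he.extend_apply]
    exact continuous_id.matrix_elem _ _
  · simp only [io, Function.extend_apply' _ _ _ hi]
    exact continuous_const

theorem io_mem (he : Function.Injective e) {Z : Matrix (Fin q) (Fin q) ℂ} (hZ : Z ∈ BM q) :
    io e Z ∈ Bn n := by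
  show ∑ i, ‖io e Z i‖ ^ 2 < 1
  rw [sum_io he]
  exact hZ

theorem piM_mem (he : Function.Injective e) {z : Fin n → ℂ} (hz : z ∈ Bn n) : piM e z ∈ BM q :=
  lt_of_le_of_lt (frob_piM he z) hz

theorem hol_io (he : Function.Injective e) {h : (Fin n → ℂ) → ℂ} (hh : DifferentiableOn ℂ h (Bn n)) :
    Hol fun Z : Matrix (Fin q) (Fin q) ℂ => h (io e Z) := by
  refine ⟨?_, ?_⟩
  · exact hh.continuousOn.comp (continuous_io he).continuousOn fun Z hZ => io_mem he hZ
  · intro Z Y ζ hZ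
    simp only [io_add_smul he]
    have h1 : DifferentiableAt ℂ h (io e Z + ζ • io e Y) := by
      refine hh.differentiableAt ((isOpen_Bn n).mem_nhds ?_)
      rw [← io_add_smul he]
      exact io_mem he hZ
    exact DifferentiableAt.comp (f := fun ζ : ℂ => io e Z + ζ • io e Y) ζ h1 (by fun_prop)

theorem differentiable_uu_piM (e : Fin q × Fin q → Fin n) :
    Differentiable ℂ fun z : Fin n → ℂ => uu (piM e z) := by
  unfold uu
  simp only [Matrix.det_apply, piM, Matrix.of_apply]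
  refine Differentiable.const_mul ?_ _
  refine Differentiable.fun_sum fun σ _ => ?_
  refine Differentiable.const_smul ?_ _
  fun_prop

theorem diffOn_comp_uu (he : Function.Injective e) (hq : 1 ≤ q) {G : ℂ → ℂ}
    (hG : DifferentiableOn ℂ G (ball 0 1)) :
    DifferentiableOn ℂ (fun z : Fin n → ℂ => G (uu (piM e z))) (Bn n) := by
  refine hG.comp (differentiable_uu_piM e).differentiableOn fun z hz => ?_
  rw [mem_ball_zero_iff]
  exact norm_uu_lt hq (piM_mem he hz)

theorem differentiable_phi (e : Fin q × Fin q → Fin n)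
    (P : Matrix (Fin m → Fin q) (Fin m → Fin q) ℂ) (w w' : Fin m → Fin q) :
    Differentiable ℂ fun z : Fin n → ℂ => ((1 - P) * tens m (piM e z)) w w' := by
  simp only [Matrix.mul_apply, tens, piM, Matrix.of_apply]
  refine Differentiable.fun_sum fun W _ => ?_
  refine Differentiable.const_mul ?_ _
  fun_prop

theorem pow_est {τ : ℝ} (h0 : 0 ≤ τ) (h1 : τ ≤ 1) (m q : ℕ) (hq : 1 ≤ q) :
    τ ^ q * (1 - τ ^ m) ≤ m / q := by
  have hq' : (0 : ℝ) < q := by exact_mod_cast hq
  have h2 : 1 - τ ^ m ≤ m * (1 - τ) := by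
    have := one_add_mul_le_pow (a := τ - 1) (by linarith) m
    rw [add_sub_cancel] at this
    linarith
  have h3 := pow_mul_one_sub_le h0 h1 q
  have h4 : (0 : ℝ) ≤ τ ^ q := by positivity
  have h5 : (1 : ℝ) / (q + 1) ≤ 1 / q := by
    apply one_div_le_one_div_of_le hq'
    linarith
  calc τ ^ q * (1 - τ ^ m) ≤ τ ^ q * (m * (1 - τ)) := by gcongr
    _ = m * (τ ^ q * (1 - τ)) := by ring
    _ ≤ m * (1 / q) := by gcongr; linarith
    _ = m / q := by ring

/-- **The data.** -/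
theorem core {δ c : ℝ} (hc : 0 < c) (hc2 : Real.cosh (2 * (c * π)) ≤ 2) (hq : 1 ≤ q)
    (he : Function.Injective e) (hε : (k + 1 : ℝ) ^ (2 * m) / m.factorial ≤ 1)
    (hlow : δ ^ 2 < (Real.cosh (2 * (c * π)))⁻¹ -
      (4 * (m / q) + 2 * ((k + 1 : ℝ) ^ (2 * m) / m.factorial)))
    {t₀ : ℂ} (ht₀ : fA c t₀ = 0) {β C : ℝ} (ht : ‖t₀‖ < β) (hβ : β < 1)
    (hC : ∀ z : ℂ, ‖z‖ = β → ‖dslope (fA c) t₀ z‖ ≤ C) :
    ∃ (N : ℕ) (f : Fin (N + 1) → (Fin n → ℂ) → ℂ),
      (∀ j, DifferentiableOn ℂ (f j) (Bn n)) ∧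
      (∀ z ∈ Bn n, ∑ j, ‖f j z‖ ^ 2 ≤ 1) ∧
      (∀ z ∈ Bn n, δ ^ 2 < ∑ j, ‖f j z‖ ^ 2) ∧
      ∀ h : Fin (N + 1) → (Fin n → ℂ) → ℂ, (∀ j, DifferentiableOn ℂ (h j) (Bn n)) →
        (∀ z ∈ Bn n, ∑ j, f j z * h j z = 1) → ∀ M : ℝ, (∀ z ∈ Bn n, ‖h 0 z‖ ≤ M) →
        1 ≤ β * ((‖t₀‖ / β) ^ (k + 1) * (C * M)) := by
  classical
  obtain ⟨P, hP1, hP2⟩ := exists_P m q k
  set κ : ℝ := Real.cosh (2 * (c * π)) with hκ
  have hκ1 : 1 ≤ κ := Real.one_le_cosh _
  have hκ0 : 0 < κ := by linarith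
  set a : ℂ := (((Real.sqrt κ)⁻¹ : ℝ) : ℂ) with ha
  have hsκ : 0 < Real.sqrt κ := Real.sqrt_pos.2 hκ0
  have hna : ‖a‖ ^ 2 = κ⁻¹ := by
    rw [ha, Complex.norm_real, norm_inv, Real.norm_of_nonneg hsκ.le, inv_pow, Real.sq_sqrt hκ0.le]
  have hna1 : ‖a‖ ≤ 1 := by
    have : ‖a‖ ^ 2 ≤ 1 := by
      rw [hna]
      exact inv_le_one_of_one_le₀ hκ1
    nlinarith [norm_nonneg a]
  set ι := (Fin m → Fin q) × (Fin m → Fin q) with hι
  let E := Fintype.equivFin ι
  set F0 : (Fin n → ℂ) → ℂ := fun z => a * fA c (uu (piM e z)) with hF0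
  set F1 : ι → (Fin n → ℂ) → ℂ := fun x z => a * fB c (uu (piM e z)) *
    ((1 - P) * tens m (piM e z)) x.1 x.2 with hF1
  let f : Fin (Fintype.card ι + 1) → (Fin n → ℂ) → ℂ := Fin.cons F0 fun j => F1 (E.symm j)
  have hfs : ∀ z, ∑ j, ‖f j z‖ ^ 2 = κ⁻¹ * (‖fA c (uu (piM e z))‖ ^ 2 +
      ‖fB c (uu (piM e z))‖ ^ 2 * hs ((1 - P) * tens m (piM e z))) := by
    intro z
    rw [Fin.sum_univ_succ]
    simp only [f, Fin.cons_zero, Fin.cons_succ]
    rw [Equiv.sum_comp E.symm (fun x => ‖F1 x z‖ ^ 2)]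
    simp only [hF0, hF1, norm_mul, mul_pow, hna]
    unfold hs
    rw [Fintype.sum_prod_type]
    simp only [Finset.mul_sum, mul_add, mul_assoc]
  have hbd : ∀ z ∈ Bn n, ‖uu (piM e z)‖ < 1 ∧ 0 ≤ frob (piM e z) ∧ frob (piM e z) ≤ 1 ∧
      ‖uu (piM e z)‖ ^ 2 ≤ frob (piM e z) ^ q := by
    intro z hz
    exact ⟨norm_uu_lt hq (piM_mem he hz), frob_nonneg _, (piM_mem he hz).le, norm_uu_sq_le _⟩
  refine ⟨Fintype.card ι, f, ?_, ?_, ?_, ?_⟩
  · intro j
    refine Fin.cases ?_ (fun j => ?_) j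
    · exact (diffOn_comp_uu he hq (differentiableOn_fA c)).const_mul a
    · exact ((diffOn_comp_uu he hq (differentiableOn_fB c)).const_mul a).mul
        (differentiable_phi e P _ _).differentiableOn
  · intro z hz
    obtain ⟨h1, h2, h3, h4⟩ := hbd z hz
    rw [hfs, inv_mul_le_iff₀ hκ0, mul_one]
    have h5 : hs ((1 - P) * tens m (piM e z)) ≤ 1 := (hP2 _).1.trans (pow_le_one₀ h2 h3)
    have h6 := fAB_le hc.le h1
    nlinarith [sq_nonneg ‖fB c (uu (piM e z))‖]
  · intro z hz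
    obtain ⟨h1, h2, h3, h4⟩ := hbd z hz
    rw [hfs]
    set x : ℝ := ‖fA c (uu (piM e z))‖ ^ 2 with hx
    set y : ℝ := ‖fB c (uu (piM e z))‖ ^ 2 with hy
    set ε : ℝ := (k + 1 : ℝ) ^ (2 * m) / m.factorial with hεdef
    set τ : ℝ := frob (piM e z) with hτ
    have h5 : (1 - ε) * τ ^ m ≤ hs ((1 - P) * tens m (piM e z)) := (hP2 _).2
    have h6 : 1 ≤ x + y := fAB_ge c _
    have h7 : y ≤ 4 * τ ^ q := by
      have := fB_le hc.le hc2 h1
      have h8 : y ≤ (2 * ‖uu (piM e z)‖) ^ 2 := by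
        rw [hy]; gcongr
      nlinarith
    have h8 : y ≤ 2 := by
      have := fAB_le hc.le h1
      have h9 : 0 ≤ x := sq_nonneg _
      linarith
    have hy0 : 0 ≤ y := sq_nonneg _
    have hε0 : 0 ≤ ε := by positivity
    have hτm : 0 ≤ τ ^ m := pow_nonneg h2 m
    have hτm1 : τ ^ m ≤ 1 := pow_le_one₀ h2 h3
    have h9 : y * (1 - τ ^ m) ≤ 4 * (m / q) := by
      calc y * (1 - τ ^ m) ≤ (4 * τ ^ q) * (1 - τ ^ m) := by
            apply mul_le_mul_of_nonneg_right h7; linarith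
        _ = 4 * (τ ^ q * (1 - τ ^ m)) := by ring
        _ ≤ 4 * (m / q) := by
            have := pow_est h2 h3 m q hq
            linarith
    have h10 : y * (ε * τ ^ m) ≤ 2 * ε := by
      calc y * (ε * τ ^ m) ≤ 2 * (ε * 1) := by gcongr
        _ = 2 * ε := by ring
    have h11 : 1 - (4 * (m / q) + 2 * ε) ≤ x + y * hs ((1 - P) * tens m (piM e z)) := by
      have h12 : y * ((1 - ε) * τ ^ m) ≤ y * hs ((1 - P) * tens m (piM e z)) := by gcongr
      nlinarith
    have hnn : (0 : ℝ) ≤ 4 * (m / q) + 2 * ε := by positivity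
    calc δ ^ 2 < κ⁻¹ - (4 * (m / q) + 2 * ε) := hlow
      _ ≤ κ⁻¹ * (1 - (4 * (m / q) + 2 * ε)) := by
          have : κ⁻¹ ≤ 1 := inv_le_one_of_one_le₀ hκ1
          nlinarith
      _ ≤ _ := by
          apply mul_le_mul_of_nonneg_left h11 (by positivity)
  · intro h hh hsol M hM
    -- the radius
    have hβ0 : 0 < β := lt_of_le_of_lt (norm_nonneg _) ht
    set r : ℝ := β ^ ((1 : ℝ) / q) with hr
    have hq' : (0 : ℝ) < q := by exact_mod_cast hq
    have hr0 : 0 < r := Real.rpow_pos_of_pos hβ0 _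
    have hr1 : r < 1 := Real.rpow_lt_one hβ0.le hβ (by positivity)
    have hrq : r ^ q = β := by
      rw [hr, ← Real.rpow_natCast, ← Real.rpow_mul hβ0.le, one_div, inv_mul_cancel₀ hq'.ne',
        Real.rpow_one]
    have hG : DifferentiableOn ℂ (fun z => a * dslope (fA c) t₀ z) (ball 0 1) := by
      have h1 : ball (0 : ℂ) 1 ∈ nhds t₀ := isOpen_ball.mem_nhds (by
        rw [mem_ball_zero_iff]; linarith)
      exact ((Complex.differentiableOn_dslope h1).2 (differentiableOn_fA c)).const_mul a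
    have key := main_ineq (k := k) hq hr0 hr1 hP1 (ρ := t₀) hG (C := C)
      (fun z hz => by
        rw [hrq] at hz
        rw [norm_mul]
        have h1 := hC z hz
        have h2 := norm_nonneg (dslope (fA c) t₀ z)
        nlinarith [norm_nonneg a])
      (hol_io he (hh 0))
      (H := fun w w' Z => a * fB c (uu Z) * h (Fin.succ (E (w, w'))) (io e Z))
      (fun w w' => ((Hol.comp_uu hq (G := fun z => a * fB c z)
        ((differentiableOn_fB c).const_mul a)).mul (hol_io he (hh _))))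
      (by
        intro Z hZ
        have h1 := hsol (io e Z) (io_mem he hZ)
        rw [Fin.sum_univ_succ] at h1
        simp only [f, Fin.cons_zero, Fin.cons_succ] at h1
        have h2 : (uu Z - t₀) * (a * dslope (fA c) t₀ (uu Z)) = a * fA c (uu Z) := by
          have := sub_smul_dslope (fA c) t₀ (uu Z)
          rw [ht₀, sub_zero, smul_eq_mul] at this
          rw [← this]; ring
        rw [h2]
        have h3 : F0 (io e Z) = a * fA c (uu Z) := by simp only [hF0, piM_io he]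
        rw [h3] at h1
        rw [← h1]
        congr 1
        have h4 : ∑ j, F1 (E.symm j) (io e Z) * h j.succ (io e Z) =
            ∑ x : ι, F1 x (io e Z) * h (Fin.succ (E x)) (io e Z) := by
          rw [← Equiv.sum_comp E]
          refine Finset.sum_congr rfl fun x _ => ?_
          rw [Equiv.symm_apply_apply]
        rw [h4, Fintype.sum_prod_type]
        refine Finset.sum_congr rfl fun w _ => Finset.sum_congr rfl fun w' _ => ?_
        simp only [hF1, piM_io he]
        ring)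
      (M := M) (fun Z hZ => hM _ (io_mem he hZ))
    rw [hrq] at key
    exact key

end Pool.Agent.Q75.Cu
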