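import Mathlib
import Pool.Agent.Q75.CuI

set_option autoImplicit false

/-! Corona data on polydiscs. -/

open Complex Set Function Metric
open scoped Real Topology
open Pool.Agent.H720R2

namespace Pool.Agent.Q75.Cp

variable {n : ℕ}

theorem rec_coeff {r : ℝ} (hr : 0 < r) (hn : 0 < n) {D : Set (Fin n → ℂ)} (hD : IsOpen D)
    (hrD : closedBall 0 r ⊆ D) {G : ℂ → ℂ} {h : (Fin n → ℂ) → ℂ}
    (hG : DifferentiableOn ℂ (fun z => G (W 0 z)) D) (hh : DifferentiableOn ℂ h D) {t₀ : ℂ} (k : ℕ)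
    (hk : ∀ j ≤ k, Lc 0 r j (fun z => (W 0 z - t₀) * G (W 0 z) * h z) = if j = 0 then 1 else 0) :
    ∀ j ≤ k, -(t₀ ^ (j + 1)) * Lc 0 r j (fun z => G (W 0 z) * h z) = 1 := by
  have hg : DifferentiableOn ℂ (fun z => G (W 0 z) * h z) D := hG.mul hh
  have hgc : Continuous fun θ => (fun z => G (W 0 z) * h z) (torusMap 0 (fun _ => r) θ) :=
    continuous_comp_torusMap hr hrD hg
  have hsplit : ∀ j, Lc 0 r j (fun z => (W 0 z - t₀) * G (W 0 z) * h z) =
      Lc 0 r j (fun z => W 0 z * (G (W 0 z) * h z)) -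
        t₀ * Lc 0 r j (fun z => G (W 0 z) * h z) := by
    intro j
    have h1 := Lc_add hr j (F := fun z => W 0 z * (G (W 0 z) * h z))
      (G := fun z => (-t₀) * (G (W 0 z) * h z)) ((continuous_W_torusMap 0 r).mul hgc)
      (continuous_const.mul hgc)
    rw [Lc_const_mul] at h1
    rw [show (fun z : Fin n → ℂ => (W 0 z - t₀) * G (W 0 z) * h z) =
      fun z => W 0 z * (G (W 0 z) * h z) + (-t₀) * (G (W 0 z) * h z) from by funext z; ring, h1]
    ring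
  intro j
  induction j with
  | zero =>
    intro _
    have h1 := hk 0 (Nat.zero_le _)
    rw [hsplit, Lc_W_mul_zero hr hn hD hrD hg, if_pos rfl] at h1
    rw [zero_add, pow_one]
    linear_combination h1
  | succ j ih =>
    intro hj
    have h1 := hk (j + 1) hj
    rw [hsplit, Lc_W_mul_succ hr j, if_neg (Nat.succ_ne_zero j)] at h1
    have h2 := ih (by omega)
    rw [← h2]
    linear_combination (t₀ ^ (j + 1)) * h1

theorem Lc_one {r : ℝ} (hr : 0 < r) (hn : 0 < n) (j : ℕ) :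
    Lc (0 : Fin n → ℂ) r j (fun _ => 1) = if j = 0 then 1 else 0 := by
  split_ifs with h
  · subst h
    have := Lc_W_pow_self (p := (0 : Fin n → ℂ)) hr 0
    simpa using this
  · have := Lc_W_pow_ne (p := (0 : Fin n → ℂ)) hr (k := j) (l := 0) (Ne.symm h) hn
    simpa using this

theorem norm_W_lt (hn : 0 < n) {z : Fin n → ℂ} (hz : z ∈ ball (0 : Fin n → ℂ) 1) : ‖W 0 z‖ < 1 := by
  rw [mem_ball_zero_iff, pi_norm_lt_iff one_pos] at hz
  unfold W
  rw [norm_prod]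
  obtain ⟨m, rfl⟩ : ∃ m, n = m + 1 := ⟨n - 1, by omega⟩
  rw [Fin.prod_univ_succ]
  simp only [Pi.zero_apply, sub_zero]
  have h1 : ∏ i : Fin m, ‖z i.succ‖ ≤ 1 :=
    Finset.prod_le_one (fun i _ => norm_nonneg _) fun i _ => (hz _).le
  calc ‖z 0‖ * ∏ i : Fin m, ‖z i.succ‖ ≤ ‖z 0‖ * 1 := by gcongr
    _ < 1 := by rw [mul_one]; exact hz 0

theorem amgm (hn : 0 < n) {x : Fin n → ℝ} (hx : ∀ i, 0 ≤ x i) (K : ℕ) :
    ∃ τ : ℝ, 0 ≤ τ ∧ τ ^ n = ∏ i, x i ∧ τ ^ K ≤ (n : ℝ)⁻¹ * ∑ i, x i ^ K := by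
  have hn' : (0 : ℝ) < n := by exact_mod_cast hn
  have hp : 0 ≤ ∏ i, x i := Finset.prod_nonneg fun i _ => hx i
  refine ⟨(∏ i, x i) ^ ((n : ℝ)⁻¹), Real.rpow_nonneg hp _, ?_, ?_⟩
  · exact Real.rpow_inv_natCast_pow hp hn.ne'
  · have h1 := Real.geom_mean_le_arith_mean_weighted Finset.univ (fun _ : Fin n => (n : ℝ)⁻¹)
      (fun i => x i ^ K) (fun _ _ => by positivity)
      (by simp [hn'.ne']) (fun i _ => pow_nonneg (hx i) K)
    rw [Finset.mul_sum]
    refine le_trans (le_of_eq ?_) h1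
    rw [Real.finset_prod_rpow _ _ (fun i _ => pow_nonneg (hx i) K), Finset.prod_pow,
      ← Real.rpow_natCast, ← Real.rpow_natCast, ← Real.rpow_mul hp, ← Real.rpow_mul hp, mul_comm]

/-- **The data on the polydisc.** -/
theorem core {δ c : ℝ} (hc : 0 < c) (hc2 : Real.cosh (2 * (c * π)) ≤ 2) (hn : 0 < n) {k : ℕ}
    (hlow : δ ^ 2 < (Real.cosh (2 * (c * π)))⁻¹ - 4 * ((k + 1 : ℕ) / n : ℝ))
    {t₀ : ℂ} (ht₀ : fA c t₀ = 0) {β C : ℝ} (ht : ‖t₀‖ < β) (hβ : β < 1)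
    (hC : ∀ z : ℂ, ‖z‖ = β → ‖dslope (fA c) t₀ z‖ ≤ C) :
    ∃ (f : Fin (n + 1) → (Fin n → ℂ) → ℂ),
      (∀ j, DifferentiableOn ℂ (f j) (ball 0 1)) ∧
      (∀ z ∈ ball (0 : Fin n → ℂ) 1, ∑ j, ‖f j z‖ ^ 2 ≤ 1) ∧
      (∀ z ∈ ball (0 : Fin n → ℂ) 1, δ ^ 2 < ∑ j, ‖f j z‖ ^ 2) ∧
      ∃ r : ℝ, 0 < r ∧ r < 1 ∧ ∀ D : Set (Fin n → ℂ), IsOpen D → closedBall 0 r ⊆ D → D ⊆ ball 0 1 →
      ∀ h : Fin (n + 1) → (Fin n → ℂ) → ℂ, (∀ j, DifferentiableOn ℂ (h j) D) →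
        (∀ z ∈ D, ∑ j, f j z * h j z = 1) → ∀ M : ℝ, (∀ z ∈ D, ‖h 0 z‖ ≤ M) →
        (β / ‖t₀‖) ^ k ≤ C * M := by
  have hn' : (0 : ℝ) < n := by exact_mod_cast hn
  set κ : ℝ := Real.cosh (2 * (c * π)) with hκ
  have hκ1 : 1 ≤ κ := Real.one_le_cosh _
  have hκ0 : 0 < κ := by linarith
  set a : ℂ := (((Real.sqrt κ)⁻¹ : ℝ) : ℂ) with ha
  have hsκ : 0 < Real.sqrt κ := Real.sqrt_pos.2 hκ0
  have hna : ‖a‖ ^ 2 = κ⁻¹ := by
    rw [ha, Complex.norm_real, norm_inv, Real.norm_of_nonneg hsκ.le, inv_pow, Real.sq_sqrt hκ0.le]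
  have hna1 : ‖a‖ ≤ 1 := by
    have : ‖a‖ ^ 2 ≤ 1 := by
      rw [hna]
      exact inv_le_one_of_one_le₀ hκ1
    nlinarith [norm_nonneg a]
  set b : ℂ := (((Real.sqrt n)⁻¹ : ℝ) : ℂ) with hb
  have hsn : 0 < Real.sqrt n := Real.sqrt_pos.2 hn'
  have hnb : ‖b‖ ^ 2 = (n : ℝ)⁻¹ := by
    rw [hb, Complex.norm_real, norm_inv, Real.norm_of_nonneg hsn.le, inv_pow, Real.sq_sqrt hn'.le]
  have hdW : ∀ {A : ℂ → ℂ}, DifferentiableOn ℂ A (ball 0 1) →
      DifferentiableOn ℂ (fun z : Fin n → ℂ => A (W 0 z)) (ball 0 1) := by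
    intro A hA
    refine hA.comp (differentiable_W 0).differentiableOn fun z hz => ?_
    rw [mem_ball_zero_iff]
    exact norm_W_lt hn hz
  set F0 : (Fin n → ℂ) → ℂ := fun z => a * fA c (W 0 z) with hF0
  set F1 : Fin n → (Fin n → ℂ) → ℂ := fun i z => a * fB c (W 0 z) * (b * z i ^ (k + 1)) with hF1
  let f : Fin (n + 1) → (Fin n → ℂ) → ℂ := Fin.cons F0 F1
  have hfs : ∀ z, ∑ j, ‖f j z‖ ^ 2 = κ⁻¹ * (‖fA c (W 0 z)‖ ^ 2 +
      ‖fB c (W 0 z)‖ ^ 2 * ((n : ℝ)⁻¹ * ∑ i, (‖z i‖ ^ 2) ^ (k + 1))) := by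
    intro z
    rw [Fin.sum_univ_succ]
    simp only [f, Fin.cons_zero, Fin.cons_succ, hF0, hF1, norm_mul, mul_pow, hna, hnb, norm_pow]
    rw [mul_add, Finset.mul_sum, Finset.mul_sum, Finset.mul_sum]
    congr 1
    refine Finset.sum_congr rfl fun i _ => ?_
    rw [← pow_mul, ← pow_mul, mul_comm 2]
    ring
  refine ⟨f, ?_, ?_, ?_, ?_⟩
  · intro j
    refine Fin.cases ?_ (fun j => ?_) j
    · exact (hdW (differentiableOn_fA c)).const_mul a
    · refine ((hdW (differentiableOn_fB c)).const_mul a).mul ?_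
      exact Differentiable.differentiableOn (by fun_prop)
  · intro z hz
    have h1 := norm_W_lt hn hz
    rw [mem_ball_zero_iff, pi_norm_lt_iff one_pos] at hz
    rw [hfs, inv_mul_le_iff₀ hκ0, mul_one]
    have h5 : (n : ℝ)⁻¹ * ∑ i, (‖z i‖ ^ 2) ^ (k + 1) ≤ 1 := by
      rw [inv_mul_le_iff₀ hn', mul_one]
      calc ∑ i, (‖z i‖ ^ 2) ^ (k + 1) ≤ ∑ _i : Fin n, (1 : ℝ) := by
            refine Finset.sum_le_sum fun i _ => ?_
            refine pow_le_one₀ (by positivity) (pow_le_one₀ (norm_nonneg _) (hz i).le)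
        _ = n := by simp
    have h6 := fAB_le hc.le h1
    nlinarith [sq_nonneg ‖fB c (W 0 z)‖]
  · intro z hz
    have h1 := norm_W_lt hn hz
    rw [mem_ball_zero_iff, pi_norm_lt_iff one_pos] at hz
    rw [hfs]
    obtain ⟨τ, hτ0, hτn, hτK⟩ := amgm hn (x := fun i => ‖z i‖ ^ 2) (fun i => by positivity) (k + 1)
    have hW : ‖W 0 z‖ ^ 2 = τ ^ n := by
      rw [hτn]
      unfold W
      rw [norm_prod, ← Finset.prod_pow]
      simp
    have hτ1 : τ ≤ 1 := by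
      by_contra hcon
      push Not at hcon
      have h2 : 1 < τ ^ n := one_lt_pow₀ hcon hn.ne'
      have h3 : ‖W 0 z‖ ^ 2 < 1 := by nlinarith [norm_nonneg (W 0 z)]
      rw [hW] at h3
      linarith
    set x : ℝ := ‖fA c (W 0 z)‖ ^ 2 with hx
    set y : ℝ := ‖fB c (W 0 z)‖ ^ 2 with hy
    set S : ℝ := (n : ℝ)⁻¹ * ∑ i, (‖z i‖ ^ 2) ^ (k + 1) with hS
    have h6 : 1 ≤ x + y := fAB_ge c _
    have h7 : y ≤ 4 * τ ^ n := by
      have := fB_le hc.le hc2 h1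
      have h8 : y ≤ (2 * ‖W 0 z‖) ^ 2 := by
        rw [hy]; gcongr
      nlinarith
    have hy0 : 0 ≤ y := sq_nonneg _
    have hτK1 : τ ^ (k + 1) ≤ 1 := pow_le_one₀ hτ0 hτ1
    have h9 : y * (1 - τ ^ (k + 1)) ≤ 4 * ((k + 1 : ℕ) / n : ℝ) := by
      calc y * (1 - τ ^ (k + 1)) ≤ (4 * τ ^ n) * (1 - τ ^ (k + 1)) := by
            apply mul_le_mul_of_nonneg_right h7; linarith
        _ = 4 * (τ ^ n * (1 - τ ^ (k + 1))) := by ring
        _ ≤ 4 * ((k + 1 : ℕ) / n : ℝ) := by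
            have := Pool.Agent.Q75.Cu.pow_est hτ0 hτ1 (k + 1) n hn
            linarith
    have h11 : 1 - 4 * ((k + 1 : ℕ) / n : ℝ) ≤ x + y * S := by
      have h12 : y * τ ^ (k + 1) ≤ y * S := by gcongr
      nlinarith
    have hnn : (0 : ℝ) ≤ 4 * ((k + 1 : ℕ) / n : ℝ) := by positivity
    calc δ ^ 2 < κ⁻¹ - 4 * ((k + 1 : ℕ) / n : ℝ) := hlow
      _ ≤ κ⁻¹ * (1 - 4 * ((k + 1 : ℕ) / n : ℝ)) := by
          have : κ⁻¹ ≤ 1 := inv_le_one_of_one_le₀ hκ1
          nlinarith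
      _ ≤ _ := by
          apply mul_le_mul_of_nonneg_left h11 (by positivity)
  · have hβ0 : 0 < β := lt_of_le_of_lt (norm_nonneg _) ht
    set r : ℝ := β ^ ((n : ℝ)⁻¹) with hr
    have hr0 : 0 < r := Real.rpow_pos_of_pos hβ0 _
    have hr1 : r < 1 := Real.rpow_lt_one hβ0.le hβ (by positivity)
    have hrn : r ^ n = β := Real.rpow_inv_natCast_pow hβ0.le hn.ne'
    refine ⟨r, hr0, hr1, fun D hD hrD hD1 h hh hsol M hM => ?_⟩
    set G : ℂ → ℂ := fun z => a * dslope (fA c) t₀ z with hGdef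
    have hG : DifferentiableOn ℂ G (ball 0 1) := by
      have h1 : ball (0 : ℂ) 1 ∈ nhds t₀ := isOpen_ball.mem_nhds (by
        rw [mem_ball_zero_iff]; linarith)
      exact ((Complex.differentiableOn_dslope h1).2 (differentiableOn_fA c)).const_mul a
    have hGW : DifferentiableOn ℂ (fun z => G (W 0 z)) D := (hdW hG).mono hD1
    have hAG : ∀ z, (z - t₀) * G z = a * fA c z := by
      intro z
      have := sub_smul_dslope (fA c) t₀ z
      rw [ht₀, sub_zero, smul_eq_mul] at this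
      rw [hGdef]
      rw [← this]; ring
    have key := rec_coeff hr0 hn hD hrD hGW (hh 0) (t₀ := t₀) k (by
      intro j hj
      have hB : ∀ i : Fin n, DifferentiableOn ℂ
          (fun z => (a * fB c (W 0 z)) * b * h i.succ z) D := by
        intro i
        exact ((((hdW (differentiableOn_fB c)).mono hD1).const_mul a).mul_const b).mul (hh _)
      have hA0 : DifferentiableOn ℂ (fun z => (W 0 z - t₀) * G (W 0 z) * h 0 z) D :=
        (((differentiable_W 0).sub_const _).differentiableOn.mul hGW).mul (hh 0)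
      have h1 : ∀ i : Fin n, Lc 0 r j (fun z => (z i - (0 : Fin n → ℂ) i) ^ (k + 1) *
          ((a * fB c (W 0 z)) * b * h i.succ z)) = 0 := fun i =>
        Lc_mul_pow_eq_zero hr0 (by omega) i hD hrD (hB i)
      have hBi : ∀ i : Fin n, DifferentiableOn ℂ (fun z => (z i - (0 : Fin n → ℂ) i) ^ (k + 1) *
          ((a * fB c (W 0 z)) * b * h i.succ z)) D := fun i =>
        (Differentiable.differentiableOn (by fun_prop)).mul (hB i)
      have h2 := Lc_add hr0 j (F := fun z => (W 0 z - t₀) * G (W 0 z) * h 0 z)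
        (G := fun z => ∑ i ∈ Finset.univ, (z i - (0 : Fin n → ℂ) i) ^ (k + 1) *
          ((a * fB c (W 0 z)) * b * h i.succ z))
        (continuous_comp_torusMap hr0 hrD hA0)
        (continuous_finsetSum _ fun i _ => continuous_comp_torusMap hr0 hrD (hBi i))
      rw [Lc_sum hr0 j Finset.univ fun i _ => continuous_comp_torusMap hr0 hrD (hBi i),
        Finset.sum_eq_zero fun i _ => h1 i, add_zero] at h2
      rw [← h2, ← Lc_one hr0 hn j]
      refine Lc_congr hr0 j fun θ => ?_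
      have hz := hrD (torusMap_mem_closedBall (0 : Fin n → ℂ) hr0.le θ)
      have h3 := hsol _ hz
      rw [Fin.sum_univ_succ] at h3
      simp only [f, Fin.cons_zero, Fin.cons_succ, hF0, hF1] at h3
      rw [hAG, ← h3]
      congr 1
      refine Finset.sum_congr rfl fun i _ => ?_
      simp only [Pi.zero_apply, sub_zero]
      ring) k le_rfl
    have hM0 : 0 ≤ M := (norm_nonneg _).trans (hM 0 (hrD (mem_closedBall_self hr0.le)))
    have hb1 : ‖Lc 0 r k (fun z => G (W 0 z) * h 0 z)‖ ≤ C * M / (r ^ n) ^ k := by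
      refine Lc_bound hr0 k fun θ => ?_
      rw [norm_mul]
      have h4 : ‖G (W 0 (torusMap (0 : Fin n → ℂ) (fun _ => r) θ))‖ ≤ C := by
        rw [hGdef, norm_mul]
        have h5 := hC (W 0 (torusMap (0 : Fin n → ℂ) (fun _ => r) θ)) (by
          rw [norm_W_torusMap 0 hr0.le, hrn])
        have h6 := norm_nonneg (dslope (fA c) t₀ (W 0 (torusMap (0 : Fin n → ℂ) (fun _ => r) θ)))
        nlinarith [norm_nonneg a]
      exact mul_le_mul h4 (hM _ (hrD (torusMap_mem_closedBall (0 : Fin n → ℂ) hr0.le θ)))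
        (norm_nonneg _) ((norm_nonneg _).trans h4)
    have ht00 : 0 < ‖t₀‖ := by
      rw [norm_pos_iff]
      rintro rfl
      rw [fA_zero] at ht₀
      exact one_ne_zero ht₀
    have h7 := congrArg norm key
    rw [norm_mul, norm_neg, norm_pow, norm_one] at h7
    rw [hrn] at hb1
    have h8 : 1 ≤ ‖t₀‖ ^ (k + 1) * (C * M / β ^ k) := by
      rw [← h7]; gcongr
    have hCM : 0 ≤ C * M := by
      have h9 : 0 ≤ C * M / β ^ k := (norm_nonneg _).trans hb1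
      have h10 : 0 < β ^ k := by positivity
      have := mul_nonneg h9 h10.le
      rwa [div_mul_cancel₀ _ h10.ne'] at this
    rw [div_pow, div_le_iff₀ (by positivity)]
    have h11 : β ^ k ≤ ‖t₀‖ ^ (k + 1) * (C * M) := by
      have h12 : 0 < β ^ k := by positivity
      rw [← mul_div_assoc, le_div_iff₀ h12, one_mul] at h8
      exact h8
    calc β ^ k ≤ ‖t₀‖ ^ (k + 1) * (C * M) := h11
      _ ≤ ‖t₀‖ ^ k * (C * M) := by
          gcongr ?_ * _
          exact pow_le_pow_of_le_one ht00.le (by linarith) (by omega)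
      _ = C * M * ‖t₀‖ ^ k := by ring

end Pool.Agent.Q75.Cp
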