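import Mathlib

/-!
# Infinite order contact along a real trajectory of a holomorphic vector field
-/

namespace Pool.Agent.Q75.Cr

open Set Filter Topology Metric

section bound

variable {E : Type*} [NormedAddCommGroup E] [NormedSpace ℂ E]

/-- The derivative of `w` in the direction of the vector field `v`. -/
noncomputable def lie (v : E → E) (w : E → ℂ) : E → ℂ := fun x => fderiv ℂ w x (v x)

lemma lie_bound {v : E → E} {w : E → ℂ} {x₀ : E} {r s M C : ℝ} (hs : s < r) (hM : 0 < M)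
    (hw : DifferentiableOn ℂ w (ball x₀ r)) (hv : ∀ x ∈ ball x₀ r, ‖v x‖ ≤ M)
    (hC : ∀ x ∈ ball x₀ r, ‖w x‖ ≤ C) :
    ∀ x ∈ ball x₀ s, ‖lie v w x‖ ≤ C * M / (r - s) := by
  intro x hx
  have hrs : 0 < r - s := by linarith
  have hR : 0 < (r - s) / M := by positivity
  have hxr : x ∈ ball x₀ r := ball_subset_ball hs.le hx
  have hmem : ∀ τ ∈ closedBall (0 : ℂ) ((r - s) / M), x + τ • v x ∈ ball x₀ r := by
    intro τ hτ
    rw [mem_ball_iff_norm] at hx ⊢
    have h1 : ‖τ‖ ≤ (r - s) / M := by simpa using hτ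
    have h2 : ‖τ • v x‖ ≤ r - s := by
      rw [norm_smul]
      calc ‖τ‖ * ‖v x‖ ≤ ((r - s) / M) * M :=
            mul_le_mul h1 (hv x hxr) (norm_nonneg _) hR.le
        _ = r - s := by field_simp
    calc ‖x + τ • v x - x₀‖ = ‖(x - x₀) + τ • v x‖ := by congr 1; abel
      _ ≤ ‖x - x₀‖ + ‖τ • v x‖ := norm_add_le _ _
      _ < r := by linarith
  have hφd : DifferentiableOn ℂ (fun τ : ℂ => w (x + τ • v x)) (closedBall 0 ((r - s) / M)) := by
    intro τ hτ
    have h1 : DifferentiableAt ℂ w (x + τ • v x) :=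
      (hw _ (hmem τ hτ)).differentiableAt (isOpen_ball.mem_nhds (hmem τ hτ))
    have h2 : DifferentiableAt ℂ (fun τ : ℂ => x + τ • v x) τ := by fun_prop
    exact (h1.comp τ h2).differentiableWithinAt
  have hcl : DiffContOnCl ℂ (fun τ : ℂ => w (x + τ • v x)) (ball 0 ((r - s) / M)) := by
    apply DifferentiableOn.diffContOnCl
    rwa [closure_ball _ hR.ne']
  have hb := Complex.norm_deriv_le_of_forall_mem_sphere_norm_le hR hcl
    (C := C) (fun z hz => hC _ (hmem z (sphere_subset_closedBall hz)))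
  have hder : deriv (fun τ : ℂ => w (x + τ • v x)) 0 = lie v w x := by
    have h1 : HasFDerivAt w (fderiv ℂ w x) (x + (0 : ℂ) • v x) := by
      simpa using ((hw _ hxr).differentiableAt (isOpen_ball.mem_nhds hxr)).hasFDerivAt
    have h2 : HasDerivAt (fun τ : ℂ => x + τ • v x) (v x) 0 := by
      have := ((hasDerivAt_id (0 : ℂ)).smul_const (v x)).const_add x
      simpa using this
    exact (h1.comp_hasDerivAt (0 : ℂ) h2).deriv
  rw [hder] at hb
  calc ‖lie v w x‖ ≤ C / ((r - s) / M) := hb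
    _ = C * M / (r - s) := by field_simp

lemma iter_bound {v : E → E} {W : ℕ → E → ℂ} {x₀ : E} {ρ M C : ℝ} (hρ : 0 < ρ) (hM : 0 < M)
    (hW : ∀ q, DifferentiableOn ℂ (W q) (ball x₀ ρ))
    (hstep : ∀ q, ∀ x ∈ ball x₀ ρ, W (q + 1) x = lie v (W q) x)
    (hv : ∀ x ∈ ball x₀ ρ, ‖v x‖ ≤ M) (hC : ∀ x ∈ ball x₀ ρ, ‖W 0 x‖ ≤ C) (N : ℕ) :
    ∀ x ∈ ball x₀ (ρ / 2), ‖W N x‖ ≤ C * (2 * N * M / ρ) ^ N := by
  rcases Nat.eq_zero_or_pos N with h0 | hN
  · subst h0
    intro x hx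
    simpa using hC x (ball_subset_ball (by linarith) hx)
  have hNr : (0 : ℝ) < N := by exact_mod_cast hN
  set δ : ℝ := ρ / (2 * N) with hδ
  have hδ0 : 0 < δ := by positivity
  have key : ∀ q : ℕ, q ≤ N → ∀ x ∈ ball x₀ (ρ - q * δ), ‖W q x‖ ≤ C * (M / δ) ^ q := by
    intro q
    induction q with
    | zero => intro _ x hx; simpa using hC x (by simpa using hx)
    | succ q ih =>
      intro hq x hx
      have hsub : ball x₀ (ρ - q * δ) ⊆ ball x₀ ρ := ball_subset_ball (by nlinarith [(Nat.cast_nonneg q : (0:ℝ) ≤ q)])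
      have hlt : ρ - ((q + 1 : ℕ) : ℝ) * δ < ρ - q * δ := by push_cast; linarith
      have h1 := lie_bound (v := v) (w := W q) (x₀ := x₀) hlt hM ((hW q).mono hsub)
        (fun y hy => hv y (hsub hy)) (ih (by omega)) x hx
      rw [hstep q x (hsub (ball_subset_ball hlt.le hx))]
      calc ‖lie v (W q) x‖ ≤ C * (M / δ) ^ q * M / ((ρ - q * δ) - (ρ - ((q + 1 : ℕ) : ℝ) * δ)) := h1
        _ = C * (M / δ) ^ (q + 1) := by
            have : (ρ - q * δ) - (ρ - ((q + 1 : ℕ) : ℝ) * δ) = δ := by push_cast; ring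
            rw [this, pow_succ]; ring
  intro x hx
  have h2 := key N le_rfl x (by
    have : ρ - N * δ = ρ / 2 := by rw [hδ]; field_simp; ring
    rwa [this])
  have h3 : M / δ = 2 * N * M / ρ := by rw [hδ]; field_simp
  rwa [h3] at h2

lemma real_taylor {G : ℕ → ℝ → ℂ} {T : ℝ} (hT : 0 ≤ T)
    (hG : ∀ q, ∀ t ∈ Icc 0 T, HasDerivAt (G q) (G (q + 1) t) t) (h0 : ∀ q, G q 0 = 0)
    {N : ℕ} {B : ℝ} (hB : ∀ t ∈ Icc 0 T, ‖G N t‖ ≤ B) :
    ∀ m : ℕ, m ≤ N → ∀ t ∈ Icc 0 T, ‖G (N - m) t‖ ≤ B * t ^ m / m.factorial := by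
  intro m
  induction m with
  | zero => intro _ t ht; simpa using hB t ht
  | succ m ih =>
    intro hm t ht
    have hNm : N - (m + 1) + 1 = N - m := by omega
    refine image_norm_le_of_norm_deriv_right_le_deriv_boundary (a := 0) (b := T)
      (f := G (N - (m + 1))) (f' := fun t => G (N - m) t)
      (B := fun t => B * t ^ (m + 1) / (m + 1).factorial)
      (B' := fun t => B * t ^ m / m.factorial) ?_ ?_ ?_ ?_ ?_ ht
    · intro s hs
      exact (hG _ s hs).continuousAt.continuousWithinAt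
    · intro s hs
      have := hG (N - (m + 1)) s ⟨hs.1, hs.2.le⟩
      rw [hNm] at this
      exact this.hasDerivWithinAt
    · simp [h0]
    · intro s
      have h1 : HasDerivAt (fun t : ℝ => t ^ (m + 1)) (((m + 1 : ℕ) : ℝ) * s ^ m) s := by
        simpa using hasDerivAt_pow (m + 1) s
      have h2 := (h1.const_mul B).div_const ((m + 1).factorial : ℝ)
      refine h2.congr_deriv ?_
      rw [Nat.factorial_succ]
      have : ((m : ℝ) + 1) ≠ 0 := by positivity
      have h3 : ((m.factorial : ℝ)) ≠ 0 := by positivity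
      push_cast
      field_simp
    · intro s hs
      exact ih (by omega) s ⟨hs.1, hs.2.le⟩

/-- If all iterated derivatives of `W 0` along `v` vanish at `x₀`, then `W 0` vanishes on the
real trajectory of `v` through `x₀`. -/
lemma vanish_on_curve {v : E → E} {W : ℕ → E → ℂ} {x₀ : E} {ρ M C ε : ℝ} (hρ : 0 < ρ) (hM : 0 < M)
    (hε : 0 < ε)
    (hW : ∀ q, DifferentiableOn ℂ (W q) (ball x₀ ρ))
    (hstep : ∀ q, ∀ x ∈ ball x₀ ρ, W (q + 1) x = lie v (W q) x)
    (hv : ∀ x ∈ ball x₀ ρ, ‖v x‖ ≤ M) (hC : ∀ x ∈ ball x₀ ρ, ‖W 0 x‖ ≤ C)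
    (h0 : ∀ q, W q x₀ = 0) {γ : ℝ → E} (hγ0 : γ 0 = x₀)
    [NormedSpace ℝ E] [IsScalarTower ℝ ℂ E]
    (hγ : ∀ t ∈ Ioo (-ε) ε, HasDerivAt γ (v (γ t)) t) :
    ∀ᶠ t in 𝓝[>] (0 : ℝ), W 0 (γ t) = 0 := by
  have hcont : ContinuousAt γ 0 := (hγ 0 ⟨by linarith, hε⟩).continuousAt
  have hnear : ∀ᶠ t in 𝓝 (0 : ℝ), γ t ∈ ball x₀ (ρ / 2) := by
    apply hcont
    rw [hγ0]
    exact ball_mem_nhds _ (by positivity)
  obtain ⟨δ, hδ0, hδ⟩ := Metric.eventually_nhds_iff.1 hnear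
  set T : ℝ := min (min (δ / 2) (ε / 2)) (ρ / (4 * Real.exp 1 * M)) with hTdef
  have hT0 : 0 < T := by positivity
  have hTδ : T < δ := by
    have : T ≤ δ / 2 := (min_le_left _ _).trans (min_le_left _ _)
    linarith
  have hTε : T < ε := by
    have : T ≤ ε / 2 := (min_le_left _ _).trans (min_le_right _ _)
    linarith
  have hTρ : T ≤ ρ / (4 * Real.exp 1 * M) := min_le_right _ _
  have hin : ∀ t ∈ Icc 0 T, γ t ∈ ball x₀ (ρ / 2) := by
    intro t ht
    apply hδ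
    rw [Real.dist_eq, sub_zero, abs_of_nonneg ht.1]
    linarith [ht.2]
  have hin' : ∀ t ∈ Icc 0 T, γ t ∈ ball x₀ ρ := fun t ht =>
    ball_subset_ball (by linarith) (hin t ht)
  have hG : ∀ q, ∀ t ∈ Icc 0 T, HasDerivAt (fun t => W q (γ t)) (W (q + 1) (γ t)) t := by
    intro q t ht
    have h1 : HasFDerivAt (W q) (fderiv ℂ (W q) (γ t)) (γ t) :=
      ((hW q _ (hin' t ht)).differentiableAt (isOpen_ball.mem_nhds (hin' t ht))).hasFDerivAt
    have h2 := (h1.restrictScalars ℝ).comp_hasDerivAt t (hγ t ⟨by linarith [ht.1], by linarith [ht.2]⟩)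
    rw [hstep q _ (hin' t ht)]
    exact h2
  have hC0 : 0 ≤ C := (norm_nonneg _).trans (hC x₀ (mem_ball_self hρ))
  have hbd : ∀ N : ℕ, ∀ t ∈ Icc 0 T, ‖W 0 (γ t)‖ ≤ C * (1 / 2) ^ N := by
    intro N t ht
    have h1 := real_taylor (G := fun q t => W q (γ t)) (T := T) hT0.le hG
      (fun q => by simpa [hγ0] using h0 q) (N := N) (B := C * (2 * N * M / ρ) ^ N)
      (fun t ht => iter_bound hρ hM hW hstep hv hC N _ (hin t ht)) N le_rfl t ht
    rw [Nat.sub_self] at h1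
    refine h1.trans ?_
    have h2 : (N : ℝ) ^ N / (N.factorial : ℝ) ≤ Real.exp 1 ^ N := by
      have := Real.pow_div_factorial_le_exp (N : ℝ) (Nat.cast_nonneg N) N
      rwa [show Real.exp (N : ℝ) = Real.exp 1 ^ N by rw [← Real.exp_nat_mul]; simp] at this
    have h3 : 0 ≤ t := ht.1
    have h4 : 2 * M / ρ * t * Real.exp 1 ≤ 1 / 2 := by
      have h5 : t ≤ ρ / (4 * Real.exp 1 * M) := ht.2.trans hTρ
      calc 2 * M / ρ * t * Real.exp 1
          ≤ 2 * M / ρ * (ρ / (4 * Real.exp 1 * M)) * Real.exp 1 := by gcongr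
        _ = 1 / 2 := by
            have := Real.exp_pos 1
            field_simp
            norm_num
    calc C * (2 * N * M / ρ) ^ N * t ^ N / (N.factorial : ℝ)
        = C * ((2 * M / ρ * t) ^ N * ((N : ℝ) ^ N / (N.factorial : ℝ))) := by
          have : (2 * (N : ℝ) * M / ρ) = (2 * M / ρ) * N := by ring
          rw [this, mul_pow (2 * M / ρ) (N : ℝ) N, mul_pow (2 * M / ρ) t N]
          ring
      _ ≤ C * ((2 * M / ρ * t) ^ N * Real.exp 1 ^ N) := by gcongr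
      _ = C * (2 * M / ρ * t * Real.exp 1) ^ N := by rw [mul_pow (2 * M / ρ * t) (Real.exp 1) N]
      _ ≤ C * (1 / 2) ^ N := by
          gcongr
  have hlim : Tendsto (fun N : ℕ => C * (1 / 2 : ℝ) ^ N) atTop (𝓝 0) := by
    simpa using (tendsto_pow_atTop_nhds_zero_of_lt_one (r := (1 / 2 : ℝ)) (by norm_num)
      (by norm_num)).const_mul C
  have hzero : ∀ t ∈ Icc 0 T, W 0 (γ t) = 0 := by
    intro t ht
    have h1 : ‖W 0 (γ t)‖ ≤ 0 := ge_of_tendsto' hlim (fun N => hbd N t ht)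
    exact norm_le_zero_iff.1 h1
  filter_upwards [Ioo_mem_nhdsGT hT0] with t ht
  exact hzero t ⟨ht.1.le, ht.2.le⟩

end bound

end Pool.Agent.Q75.Cr
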