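import Mathlib
import Pool.Agent.Q75.CrA

/-!
# Fibre-isolated zeros are covered by countably many graphs
-/

namespace Pool.Agent.Q75.Cr

open Set Filter Topology Metric

/-- Formal differential-polynomial expressions in `r` functions and `n` partial derivatives. -/
inductive Tm (r n : ℕ) : Type
  | u (i : Fin r) : Tm r n
  | zero : Tm r n
  | one : Tm r n
  | add (s t : Tm r n) : Tm r n
  | neg (t : Tm r n) : Tm r n
  | mul (s t : Tm r n) : Tm r n
  | D (j : Fin n) (t : Tm r n) : Tm r n
  deriving Encodable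

variable {r n : ℕ} {F : Type*} [NormedAddCommGroup F] [NormedSpace ℂ F]

/-- Abbreviation for `ℂⁿ`. -/
abbrev En (n : ℕ) := EuclideanSpace ℂ (Fin n)

/-- The partial derivative in the `j`-th coordinate of the first factor. -/
noncomputable def pd (j : Fin n) (w : En n × F → ℂ) : En n × F → ℂ :=
  fun p => fderiv ℂ w p (EuclideanSpace.single j 1, 0)

/-- Evaluation of a formal expression. -/
noncomputable def Tm.ev (U : Fin r → En n × F → ℂ) : Tm r n → (En n × F → ℂ)
  | .u i => U i
  | .zero => 0
  | .one => 1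
  | .add s t => s.ev U + t.ev U
  | .neg t => - t.ev U
  | .mul s t => s.ev U * t.ev U
  | .D j t => pd j (t.ev U)

/-- The ring of all differential polynomials in the functions `U i`. -/
noncomputable def Rg (U : Fin r → En n × F → ℂ) : Subring (En n × F → ℂ) where
  carrier := range (Tm.ev U)
  mul_mem' := by
    rintro _ _ ⟨s, rfl⟩ ⟨t, rfl⟩
    exact ⟨.mul s t, rfl⟩
  one_mem' := ⟨.one, rfl⟩
  add_mem' := by
    rintro _ _ ⟨s, rfl⟩ ⟨t, rfl⟩
    exact ⟨.add s t, rfl⟩
  zero_mem' := ⟨.zero, rfl⟩
  neg_mem' := by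
    rintro _ ⟨s, rfl⟩
    exact ⟨.neg s, rfl⟩

lemma Rg_countable (U : Fin r → En n × F → ℂ) : Countable (Rg U) := by
  have h : (range (Tm.ev U)).Countable := countable_range _
  exact h.to_subtype

lemma U_mem (U : Fin r → En n × F → ℂ) (i : Fin r) : U i ∈ Rg U := ⟨.u i, rfl⟩

lemma pd_mem (U : Fin r → En n × F → ℂ) (j : Fin n) {w : En n × F → ℂ} (hw : w ∈ Rg U) :
    pd j w ∈ Rg U := by
  obtain ⟨t, rfl⟩ := hw
  exact ⟨.D j t, rfl⟩

lemma analytic_pd {V : Set (En n × F)} (j : Fin n) {w : En n × F → ℂ}
    (hw : AnalyticOnNhd ℂ w V) : AnalyticOnNhd ℂ (pd j w) V := by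
  intro p hp
  have h1 : AnalyticAt ℂ (fderiv ℂ w) p := hw.fderiv p hp
  exact ((ContinuousLinearMap.apply ℂ ℂ ((EuclideanSpace.single j 1, 0) : En n × F)).analyticAt
    _).comp h1

lemma analytic_Rg {V : Set (En n × F)} {U : Fin r → En n × F → ℂ}
    (hU : ∀ i, AnalyticOnNhd ℂ (U i) V) {w : En n × F → ℂ} (hw : w ∈ Rg U) :
    AnalyticOnNhd ℂ w V := by
  obtain ⟨t, rfl⟩ := hw
  induction t with
  | u i => exact hU i
  | zero => exact analyticOnNhd_const
  | one => exact analyticOnNhd_const
  | add s t hs ht => exact hs.add ht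
  | neg t ht => exact ht.neg
  | mul s t hs ht => exact hs.mul ht
  | D j t ht => exact analytic_pd j ht

/-- The derivations of the ring `Rg U`. -/
noncomputable def Dr (U : Fin r → En n × F → ℂ) (j : Fin n) (w : Rg U) : Rg U :=
  ⟨pd j w.1, pd_mem U j w.2⟩

/-- The vector field on `ℂⁿ` attached to `δ`, `w`, `σ`, `l`. -/
noncomputable def vf {c : ℕ} (σ : Fin c → Fin n) (l : Fin n) (δ : En n × F → ℂ)
    (w : Fin c → En n × F → ℂ) (y : F) : En n → En n :=
  fun x => δ (x, y) • EuclideanSpace.single l 1 - ∑ j, w j (x, y) • EuclideanSpace.single (σ j) 1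

lemma lie_vf {c : ℕ} {V : Set (En n × F)} (hV : IsOpen V) (σ : Fin c → Fin n) (l : Fin n)
    (δ : En n × F → ℂ) (w : Fin c → En n × F → ℂ) (y : F) {g : En n × F → ℂ}
    (hg : AnalyticOnNhd ℂ g V) {x : En n} (hx : (x, y) ∈ V) :
    lie (vf σ l δ w y) (fun x => g (x, y)) x =
      δ (x, y) * pd l g (x, y) - ∑ j, w j (x, y) * pd (σ j) g (x, y) := by
  have h1 : HasFDerivAt g (fderiv ℂ g (x, y)) (x, y) := (hg _ hx).differentiableAt.hasFDerivAt
  have h2 : HasFDerivAt (fun x : En n => (x, y)) (ContinuousLinearMap.inl ℂ (En n) F) x :=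
    hasFDerivAt_prodMk_left x y
  have h3 : fderiv ℂ (fun x => g (x, y)) x = (fderiv ℂ g (x, y)).comp
      (ContinuousLinearMap.inl ℂ (En n) F) := (h1.comp x h2).fderiv
  unfold lie vf pd
  rw [h3]
  simp only [ContinuousLinearMap.comp_apply, map_sub, map_smul, map_sum, smul_eq_mul,
    ContinuousLinearMap.inl_apply]

/-- The isolated common zeros in the fibres are regular points of a system in `Rg U`. -/
theorem exists_regular [CompleteSpace F] {V : Set (En n × F)} (hV : IsOpen V)
    {U : Fin r → En n × F → ℂ}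
    (hU : ∀ i, AnalyticOnNhd ℂ (U i) V) {a : En n × F} (ha : a ∈ V) (hz : ∀ i, U i a = 0)
    (hiso : ∀ᶠ x in 𝓝[≠] a.1, ¬ ∀ i, U i (x, a.2) = 0) (c : ℕ) (hc : c ≤ n) :
    ∃ (h : Fin c → Rg U) (σ : Fin c → Fin n), Function.Injective σ ∧ (∀ i, (h i).1 a = 0) ∧
      (Matrix.of fun i j => (Dr U (σ j) (h i)).1 a).det ≠ 0 := by
  induction c with
  | zero =>
    refine ⟨fun i => i.elim0, fun i => i.elim0, fun i => i.elim0, fun i => i.elim0, ?_⟩
    simp
  | succ c ih =>
    obtain ⟨h, σ, hσ, hh, hdet⟩ := ih (by omega)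
    have hne : ∃ l : Fin n, l ∉ range σ := by
      by_contra hcon
      push_neg at hcon
      have hsurj : Function.Surjective σ := hcon
      have := Fintype.card_le_of_surjective σ hsurj
      simp at this
      omega
    obtain ⟨l, hl⟩ := hne
    obtain ⟨x₀, y⟩ := a
    set A : Matrix (Fin c) (Fin c) (Rg U) := Matrix.of fun i j => Dr U (σ j) (h i) with hA
    set δ : Rg U := A.det with hδ
    set b : Fin c → Rg U := fun i => Dr U l (h i) with hb
    set w : Fin c → Rg U := A.adjugate.mulVec b with hw
    set L : Rg U → Rg U := fun g => δ * Dr U l g - ∑ j, w j * Dr U (σ j) g with hL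
    -- evaluation homomorphism
    let ev : Rg U →+* ℂ := (Pi.evalRingHom (fun _ : En n × F => ℂ) (x₀, y)).comp (Rg U).subtype
    have hev : ∀ g : Rg U, ev g = g.1 (x₀, y) := fun g => rfl
    have hδa : ev δ ≠ 0 := by
      rw [hδ, RingHom.map_det]
      exact hdet
    set v : En n → En n := vf σ l δ.1 (fun j => (w j).1) y with hv
    have hLval : ∀ g : Rg U, ∀ p : En n × F, (L g).1 p =
        δ.1 p * pd l g.1 p - ∑ j, (w j).1 p * pd (σ j) g.1 p := by
      intro g p
      simp only [hL]
      simp only [AddSubgroupClass.coe_sub, Subring.coe_mul, Pi.sub_apply, Pi.mul_apply, Dr,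
        AddSubmonoidClass.coe_finset_sum, Finset.sum_apply]
    have hlie : ∀ g : Rg U, ∀ x : En n, (x, y) ∈ V →
        (L g).1 (x, y) = lie v (fun x => g.1 (x, y)) x := by
      intro g x hx
      rw [hLval, hv, lie_vf hV σ l _ _ y (analytic_Rg hU g.2) hx]
    -- some iterate does not vanish
    have hex : ∃ i : Fin r, ∃ q : ℕ, ev (L^[q] ⟨U i, U_mem U i⟩) ≠ 0 := by
      by_contra hcon
      push_neg at hcon
      -- the trajectory
      have hδan : ∀ g : Rg U, AnalyticAt ℂ (fun x : En n => g.1 (x, y)) x₀ := by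
        intro g
        have h1 : AnalyticAt ℂ g.1 (x₀, y) := analytic_Rg hU g.2 _ ha
        have h2 : AnalyticAt ℂ (fun x : En n => (x, y)) x₀ := by fun_prop
        exact AnalyticAt.comp' h1 h2
      have hvan : AnalyticAt ℂ v x₀ := by
        rw [hv]
        unfold vf
        apply AnalyticAt.sub
        · exact (hδan δ).smul analyticAt_const
        · apply Finset.analyticAt_fun_sum
          intro j _
          exact (hδan (w j)).smul analyticAt_const
      have hvC : ContDiffAt ℝ 1 v x₀ := (hvan.contDiffAt (n := 1)).restrict_scalars ℝ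
      obtain ⟨γ, hγ0, ε, hε, hγ⟩ :=
        hvC.exists_forall_mem_closedBall_exists_eq_forall_mem_Ioo_hasDerivAt₀ 0
      simp only [zero_sub, zero_add] at hγ
      -- a good radius
      have hO : ∀ᶠ x in 𝓝 x₀, (x, y) ∈ V :=
        (Continuous.prodMk_left y).continuousAt.eventually (hV.mem_nhds ha)
      have hvb : ∀ᶠ x in 𝓝 x₀, ‖v x‖ < ‖v x₀‖ + 1 :=
        hvan.continuousAt.norm.eventually (gt_mem_nhds (by linarith))
      have hUb : ∀ i, ∀ᶠ x in 𝓝 x₀, ‖U i (x, y)‖ < ‖U i (x₀, y)‖ + 1 := fun i =>
        (hδan ⟨U i, U_mem U i⟩).continuousAt.norm.eventually (gt_mem_nhds (by linarith))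
      have hUb' : ∀ᶠ x in 𝓝 x₀, ∀ i, ‖U i (x, y)‖ < ‖U i (x₀, y)‖ + 1 :=
        eventually_all.2 hUb
      obtain ⟨ρ, hρ, hball⟩ := Metric.eventually_nhds_iff_ball.1 (hO.and (hvb.and hUb'))
      have hvanish : ∀ i, ∀ᶠ t in 𝓝[>] (0 : ℝ), U i (γ t, y) = 0 := by
        intro i
        have := vanish_on_curve (v := v)
          (W := fun q x => (L^[q] ⟨U i, U_mem U i⟩).1 (x, y)) (x₀ := x₀) (ρ := ρ)
          (M := ‖v x₀‖ + 1) (C := ‖U i (x₀, y)‖ + 1) (ε := ε) hρ (by positivity) hε ?_ ?_ ?_ ?_ ?_
          hγ0 hγ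
        · simpa using this
        · intro q x hx
          have h1 : AnalyticAt ℂ (L^[q] ⟨U i, U_mem U i⟩).1 (x, y) :=
            analytic_Rg hU (L^[q] ⟨U i, U_mem U i⟩).2 _ (hball x hx).1
          have h2 : AnalyticAt ℂ (fun x : En n => (x, y)) x := by fun_prop
          have h3 : AnalyticAt ℂ ((L^[q] ⟨U i, U_mem U i⟩).1 ∘ (fun x : En n => (x, y))) x :=
            AnalyticAt.comp h1 h2
          exact h3.differentiableAt.differentiableWithinAt
        · intro q x hx
          rw [Function.iterate_succ_apply']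
          exact hlie _ x (hball x hx).1
        · intro x hx
          exact (hball x hx).2.1.le
        · intro x hx
          exact ((hball x hx).2.2 i).le
        · intro q
          exact hcon i q
      have hall : ∀ᶠ t in 𝓝[>] (0 : ℝ), ∀ i, U i (γ t, y) = 0 := eventually_all.2 hvanish
      have hv0 : v x₀ ≠ 0 := by
        intro h0
        have h1 : (v x₀) l = 0 := by rw [h0]; rfl
        rw [hv] at h1
        unfold vf at h1
        have h2 : ∀ j, (EuclideanSpace.single (σ j) (1 : ℂ) : En n) l = 0 := by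
          intro j
          rw [PiLp.single_apply, if_neg]
          intro hcon
          exact hl ⟨j, hcon.symm⟩
        simp only [PiLp.sub_apply, PiLp.smul_apply, smul_eq_mul] at h1
        have hsum : (∑ j, (w j).1 (x₀, y) • (EuclideanSpace.single (σ j) (1 : ℂ) : En n)) l
          = ∑ j, (w j).1 (x₀, y) * (EuclideanSpace.single (σ j) (1 : ℂ) : En n) l := 
            map_sum (EuclideanSpace.proj l : EuclideanSpace ℂ (Fin n) →L[ℂ] ℂ)
              (fun j => (w j).1 (x₀, y) • (EuclideanSpace.single (σ j) (1 : ℂ) : En n)) Finset.univ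
        rw [hsum] at h1
        simp only [h2, mul_zero, Finset.sum_const_zero, sub_zero] at h1
        rw [PiLp.single_apply, if_pos rfl, mul_one] at h1
        exact hδa h1
      have hγ' : HasDerivAt γ (v x₀) 0 := by
        have := hγ 0 ⟨by linarith, hε⟩
        rwa [hγ0] at this
      have hneq : ∀ᶠ t in 𝓝[≠] (0 : ℝ), γ t ≠ x₀ := hγ'.eventually_ne hv0
      have hneq' : ∀ᶠ t in 𝓝[>] (0 : ℝ), γ t ≠ x₀ :=
        hneq.filter_mono (nhdsWithin_mono _ (fun t ht => ne_of_gt ht))
      have hγt : Tendsto γ (𝓝[>] (0 : ℝ)) (𝓝[≠] x₀) := by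
        rw [tendsto_nhdsWithin_iff]
        refine ⟨?_, hneq'⟩
        have := hγ'.continuousAt.tendsto
        rw [hγ0] at this
        exact this.mono_left nhdsWithin_le_nhds
      have hev2 := hγt.eventually hiso
      obtain ⟨t, ht1, ht2⟩ := (hev2.and hall).exists
      exact ht1 ht2
    obtain ⟨i, hi⟩ := hex
    classical
    set q := Nat.find hi with hq
    have hq1 : ev (L^[q] ⟨U i, U_mem U i⟩) ≠ 0 := Nat.find_spec hi
    have hq0 : q ≠ 0 := by
      intro h0
      rw [h0] at hq1
      exact hq1 (hz i)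
    obtain ⟨m, hm⟩ := Nat.exists_eq_succ_of_ne_zero hq0
    have hg0 : ev (L^[m] ⟨U i, U_mem U i⟩) = 0 := by
      by_contra hcon
      exact Nat.find_min hi (m := m) (by omega) hcon
    set g : Rg U := L^[m] ⟨U i, U_mem U i⟩ with hg
    have hLg : ev (L g) ≠ 0 := by
      rw [hm, Nat.succ_eq_add_one, Function.iterate_succ_apply'] at hq1
      exact hq1
    refine ⟨Fin.snoc h g, Fin.snoc σ l, ?_, ?_, ?_⟩
    · -- injectivity
      intro i j hij
      induction i using Fin.lastCases with
      | last =>
        induction j using Fin.lastCases with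
        | last => rfl
        | cast j =>
          rw [Fin.snoc_last, Fin.snoc_castSucc] at hij
          exact absurd ⟨j, hij.symm⟩ hl
      | cast i =>
        induction j using Fin.lastCases with
        | last =>
          rw [Fin.snoc_last, Fin.snoc_castSucc] at hij
          exact absurd ⟨i, hij⟩ hl
        | cast j =>
          rw [Fin.snoc_castSucc, Fin.snoc_castSucc] at hij
          rw [hσ hij]
    · intro i
      induction i using Fin.lastCases with
      | last => rw [Fin.snoc_last]; exact hg0
      | cast i => rw [Fin.snoc_castSucc]; exact hh i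
    · intro hdet0
      obtain ⟨z, hz0, hzz⟩ := Matrix.exists_mulVec_eq_zero_iff.2 hdet0
      apply hz0
      -- equations
      have heq : ∀ i : Fin c, ∑ j, ev (A i j) * z (Fin.castSucc j) + ev (b i) * z (Fin.last c) = 0 := by
        intro i
        have h1 := congrFun hzz (Fin.castSucc i)
        rw [Matrix.mulVec, dotProduct, Fin.sum_univ_castSucc] at h1
        simp only [Matrix.of_apply, Fin.snoc_castSucc, Fin.snoc_last, Pi.zero_apply] at h1
        exact h1
      have heq2 : ∑ j, ev (Dr U (σ j) g) * z (Fin.castSucc j) + ev (Dr U l g) * z (Fin.last c) = 0 := by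
        have h1 := congrFun hzz (Fin.last c)
        rw [Matrix.mulVec, dotProduct, Fin.sum_univ_castSucc] at h1
        simp only [Matrix.of_apply, Fin.snoc_castSucc, Fin.snoc_last, Pi.zero_apply] at h1
        exact h1
      -- matrix over ℂ
      set Ac : Matrix (Fin c) (Fin c) ℂ := ev.mapMatrix A with hAc
      have hAcdet : Ac.det = ev δ := by rw [hAc, ← RingHom.map_det]
      have hm1 : Ac.mulVec (fun j => z (Fin.castSucc j)) = - (z (Fin.last c) • fun i => ev (b i)) := by
        funext i
        have := heq i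
        have h3 : (Ac.mulVec fun j => z (Fin.castSucc j)) i = ∑ j, ev (A i j) * z (Fin.castSucc j) := rfl
        rw [h3]
        simp only [Pi.neg_apply, Pi.smul_apply, smul_eq_mul]
        linear_combination this
      have hm2 : (ev δ) • (fun j => z (Fin.castSucc j)) =
          - (z (Fin.last c) • fun j => ev (w j)) := by
        have h4 : Ac.adjugate.mulVec (Ac.mulVec (fun j => z (Fin.castSucc j))) =
            (ev δ) • (fun j => z (Fin.castSucc j)) := by
          rw [Matrix.mulVec_mulVec, Matrix.adjugate_mul, hAcdet, Matrix.smul_mulVec,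
            Matrix.one_mulVec]
        rw [← h4, hm1, Matrix.mulVec_neg, Matrix.mulVec_smul]
        congr 2
        funext j
        have h5 : Ac.adjugate = ev.mapMatrix A.adjugate := (RingHom.map_adjugate ev A).symm
        rw [h5, hw]
        simp only [Matrix.mulVec, dotProduct, RingHom.mapMatrix_apply, Matrix.map_apply, map_sum,
          map_mul]
      have hzlast : z (Fin.last c) = 0 := by
        have h6 : ∀ j, ev δ * z (Fin.castSucc j) = - (z (Fin.last c) * ev (w j)) := by
          intro j
          have := congrFun hm2 j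
          simpa using this
        have h7 : ev (L g) * z (Fin.last c) = 0 := by
          have h8 : ev (L g) = ev δ * ev (Dr U l g) - ∑ j, ev (w j) * ev (Dr U (σ j) g) := by
            simp only [hL, map_sub, map_mul, map_sum]
          rw [h8]
          have h9 : ev δ * (∑ j, ev (Dr U (σ j) g) * z (Fin.castSucc j)
              + ev (Dr U l g) * z (Fin.last c)) = 0 := by rw [heq2, mul_zero]
          rw [mul_add, Finset.mul_sum] at h9
          have h10 : ∀ j, ev δ * (ev (Dr U (σ j) g) * z (Fin.castSucc j)) =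
              - (z (Fin.last c) * (ev (w j) * ev (Dr U (σ j) g))) := by
            intro j
            linear_combination ev (Dr U (σ j) g) * h6 j
          rw [Finset.sum_congr rfl (fun j _ => h10 j), Finset.sum_neg_distrib, ← Finset.mul_sum] at h9
          linear_combination h9
        rcases mul_eq_zero.1 h7 with h | h
        · exact absurd h hLg
        · exact h
      funext k
      induction k using Fin.lastCases with
      | last => exact hzlast
      | cast j =>
        have := congrFun hm2 j
        simp only [hzlast, zero_smul, neg_zero, Pi.smul_apply, smul_eq_mul, Pi.zero_apply] at this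
        rcases mul_eq_zero.1 this with h | h
        · exact absurd h hδa
        · exact h

end Pool.Agent.Q75.Cr
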