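import Mathlib
import Pool.Agent.Q75.CrB

/-!
# Hausdorff dimension of the fibre-isolated part over a set
-/

namespace Pool.Agent.Q75.Cr

open Set Filter Topology Metric
open scoped NNReal ENNReal

variable {r n : ℕ} {F : Type*} [NormedAddCommGroup F] [NormedSpace ℂ F]

/-- A set on which the second projection has a Lipschitz inverse. -/
lemma dimH_le_of_graph {E : Type*} [NormedAddCommGroup E] (S : Set (E × F)) (Z : Set F) (K : ℝ≥0)
    (hK : ∀ p ∈ S, ∀ q ∈ S, ‖p - q‖ ≤ K * ‖p.2 - q.2‖) (hS : ∀ p ∈ S, p.2 ∈ Z) :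
    dimH S ≤ dimH Z := by
  have h1 : AntilipschitzWith K (fun t : S => t.1.2) := by
    apply AntilipschitzWith.of_le_mul_dist
    intro a b
    have := hK a.1 a.2 b.1 b.2
    rw [Subtype.dist_eq, dist_eq_norm, dist_eq_norm]
    exact this
  have h2 : dimH (univ : Set S) = dimH S := by
    have := (isometry_subtype_coe (s := S)).dimH_image (univ : Set S)
    rw [image_univ, Subtype.range_coe] at this
    exact this.symm
  calc dimH S = dimH (univ : Set S) := h2.symm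
    _ ≤ dimH ((fun t : S => t.1.2) '' univ) := h1.le_dimH_image _
    _ ≤ dimH Z := by
        apply dimH_mono
        rintro _ ⟨t, _, rfl⟩
        exact hS t.1 t.2

lemma graph_nhds {H : En n × F → (Fin n → ℂ)} {p : En n × F} {L : En n × F →L[ℂ] (Fin n → ℂ)}
    (hH : HasStrictFDerivAt H L p) (hinj : ∀ x : En n, L (x, 0) = 0 → x = 0) :
    ∃ K : ℝ≥0, ∃ O ∈ 𝓝 p, ∀ q ∈ O, ∀ q' ∈ O, H q = 0 → H q' = 0 →
      ‖q - q'‖ ≤ K * ‖q.2 - q'.2‖ := by
  set T : En n →L[ℂ] (Fin n → ℂ) := L.comp (ContinuousLinearMap.inl ℂ (En n) F) with hT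
  have hker : (T : En n →ₗ[ℂ] (Fin n → ℂ)).ker = ⊥ := by
    rw [LinearMap.ker_eq_bot']
    intro x hx
    exact hinj x hx
  obtain ⟨K₁, hK₁, hanti⟩ := LinearMap.exists_antilipschitzWith _ hker
  set c : ℝ≥0 := (2 * K₁)⁻¹ with hc
  have hc0 : 0 < c := by positivity
  obtain ⟨O, hO, happ⟩ := hH.approximates_deriv_on_nhds (c := c) (Or.inr hc0)
  refine ⟨1 + 2 * K₁ * ‖L‖₊, O, hO, ?_⟩
  intro q hq q' hq' h0 h0'
  have h1 : ‖L (q - q')‖ ≤ c * ‖q - q'‖ := by
    have := happ q hq q' hq'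
    rw [h0, h0', sub_zero, zero_sub, norm_neg] at this
    exact this
  have h2 : ‖(q - q').1‖ ≤ K₁ * ‖T ((q - q').1)‖ := by
    have := hanti.le_mul_dist (q - q').1 0
    simpa using this
  have h3 : T ((q - q').1) = L (q - q') - L (0, (q - q').2) := by
    rw [hT, ← map_sub]
    simp only [ContinuousLinearMap.comp_apply, ContinuousLinearMap.inl_apply]
    congr 1
    ext <;> simp
  have h4 : ‖L (0, (q - q').2)‖ ≤ ‖L‖ * ‖(q - q').2‖ := by
    refine (L.le_opNorm _).trans ?_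
    rw [Prod.norm_mk, norm_zero, max_eq_right (norm_nonneg _)]
  have h5 : ‖q - q'‖ = max ‖(q - q').1‖ ‖(q - q').2‖ := rfl
  set a := ‖(q - q').1‖ with ha
  set b := ‖(q - q').2‖ with hb
  have ha0 : 0 ≤ a := norm_nonneg _
  have hb0 : 0 ≤ b := norm_nonneg _
  have h6 : ‖q - q'‖ ≤ a + b := by rw [h5]; exact max_le (by linarith) (by linarith)
  have hK1c : (K₁ : ℝ) * c = 1 / 2 := by
    rw [hc]
    push_cast
    have : (K₁ : ℝ) ≠ 0 := by exact_mod_cast hK₁.ne'
    field_simp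
  have hc0' : (0 : ℝ) ≤ c := c.2
  have hK0' : (0 : ℝ) ≤ K₁ := K₁.2
  have h7 : a ≤ 1 / 2 * (a + b) + K₁ * ‖L‖ * b := by
    calc a ≤ K₁ * ‖T ((q - q').1)‖ := h2
      _ ≤ K₁ * (c * (a + b) + ‖L‖ * b) := by
          rw [h3]
          refine mul_le_mul_of_nonneg_left ?_ hK0'
          refine (norm_sub_le _ _).trans (add_le_add (h1.trans ?_) h4)
          exact mul_le_mul_of_nonneg_left h6 hc0'
      _ = (K₁ * c) * (a + b) + K₁ * ‖L‖ * b := by ring
      _ = 1 / 2 * (a + b) + K₁ * ‖L‖ * b := by rw [hK1c]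
  have h8 : a ≤ (1 + 2 * K₁ * ‖L‖) * b := by linarith
  have h9 : b ≤ (1 + 2 * K₁ * ‖L‖) * b := by
    have : 0 ≤ 2 * K₁ * ‖L‖ * b := by positivity
    linarith
  have h10 : ((1 + 2 * K₁ * ‖L‖₊ : ℝ≥0) : ℝ) = 1 + 2 * K₁ * ‖L‖ := by push_cast; rfl
  rw [h10, h5]
  exact max_le h8 h9

/-- The regular points of a system in `Rg U`. -/
def Reg {V : Set (En n × F)} (h : Fin n → En n × F → ℂ) : Set (En n × F) :=
  {p | p ∈ V ∧ (∀ i, h i p = 0) ∧ ∀ x : En n, (∀ i, fderiv ℂ (h i) p (x, 0) = 0) → x = 0}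

lemma dimH_Reg [CompleteSpace F] [SecondCountableTopology F] {V : Set (En n × F)}
    {h : Fin n → En n × F → ℂ} (hh : ∀ i, AnalyticOnNhd ℂ (h i) V) (Z : Set F) :
    dimH (Reg (V := V) h ∩ {p | p.2 ∈ Z}) ≤ dimH Z := by
  by_contra hcon
  push Not at hcon
  obtain ⟨p, hp, hpt⟩ := exists_mem_nhdsWithin_lt_dimH_of_lt_dimH hcon
  obtain ⟨⟨hpV, hp0, hpinj⟩, hpZ⟩ := hp
  have hstrict : HasStrictFDerivAt (fun q i => h i q)
      (ContinuousLinearMap.pi fun i => fderiv ℂ (h i) p) p := by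
    rw [hasStrictFDerivAt_pi]
    intro i
    have : AnalyticAt ℂ (h i) p := hh i p hpV
    exact this.hasStrictFDerivAt
  obtain ⟨K, O, hO, hKO⟩ := graph_nhds hstrict (by
    intro x hx
    apply hpinj
    intro i
    exact congrFun hx i)
  have h1 := hpt ((Reg (V := V) h ∩ {p | p.2 ∈ Z}) ∩ O)
    (inter_mem self_mem_nhdsWithin (mem_nhdsWithin_of_mem_nhds hO))
  refine absurd h1 (not_lt.2 ?_)
  apply dimH_le_of_graph _ _ K
  · intro q hq q' hq'
    exact hKO q hq.2 q' hq'.2 (funext hq.1.1.2.1) (funext hq'.1.1.2.1)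
  · intro q hq
    exact hq.1.2

/-- The points of an analytic set that are isolated in their fibre, over a set `Z`. -/
theorem local_dim [CompleteSpace F] [SecondCountableTopology F] {V : Set (En n × F)}
    (hV : IsOpen V) {U : Fin r → En n × F → ℂ} (hU : ∀ i, AnalyticOnNhd ℂ (U i) V) (Z : Set F) :
    dimH {p : En n × F | p ∈ V ∧ (∀ i, U i p = 0) ∧
      (∀ᶠ x in 𝓝[≠] p.1, ¬ ∀ i, U i (x, p.2) = 0) ∧ p.2 ∈ Z} ≤ dimH Z := by
  haveI := Rg_countable U
  have hsub : {p : En n × F | p ∈ V ∧ (∀ i, U i p = 0) ∧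
      (∀ᶠ x in 𝓝[≠] p.1, ¬ ∀ i, U i (x, p.2) = 0) ∧ p.2 ∈ Z} ⊆
      ⋃ h : Fin n → Rg U, (Reg (V := V) (fun i => (h i).1) ∩ {p | p.2 ∈ Z}) := by
    rintro p ⟨hpV, hp0, hpiso, hpZ⟩
    obtain ⟨h, σ, hσ, hh, hdet⟩ := exists_regular hV hU hpV hp0 hpiso n le_rfl
    refine mem_iUnion.2 ⟨h, ⟨hpV, hh, ?_⟩, hpZ⟩
    intro x hx
    have hσs : Function.Surjective σ := Finite.surjective_of_injective hσ
    have hexp : x = ∑ j, x (σ j) • (EuclideanSpace.single (σ j) (1 : ℂ) : En n) := by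
      have h1 : ∑ j, x (σ j) • (EuclideanSpace.single (σ j) (1 : ℂ) : En n) =
          ∑ j, x j • (EuclideanSpace.single j (1 : ℂ) : En n) :=
        Function.Bijective.sum_comp ⟨hσ, hσs⟩
          (fun j => x j • (EuclideanSpace.single j (1 : ℂ) : En n))
      rw [h1]
      have h2 := (EuclideanSpace.basisFun (Fin n) ℂ).sum_repr x
      simpa using h2.symm
    have hmul : (Matrix.of fun i j => (Dr U (σ j) (h i)).1 p).mulVec (fun j => x (σ j)) = 0 := by
      funext i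
      have h1 := hx i
      have h2 : ((x, 0) : En n × F) =
          ∑ j, x (σ j) • ((EuclideanSpace.single (σ j) (1 : ℂ), 0) : En n × F) := by
        have h3 : ∑ j, x (σ j) • ((EuclideanSpace.single (σ j) (1 : ℂ), 0) : En n × F) =
            ContinuousLinearMap.inl ℂ (En n) F
              (∑ j, x (σ j) • (EuclideanSpace.single (σ j) (1 : ℂ) : En n)) := by
          rw [map_sum]
          refine Finset.sum_congr rfl fun j _ => ?_
          rw [map_smul]
          rfl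
        rw [h3, ← hexp]
        rfl
      rw [h2, map_sum] at h1
      simp only [map_smul, smul_eq_mul] at h1
      simp only [Matrix.mulVec, dotProduct, Matrix.of_apply, Pi.zero_apply]
      rw [← h1]
      refine Finset.sum_congr rfl fun j _ => ?_
      rw [mul_comm]
      rfl
    have hz := Matrix.eq_zero_of_mulVec_eq_zero hdet hmul
    rw [hexp]
    refine Finset.sum_eq_zero fun j _ => ?_
    have := congrFun hz j
    simp only [Pi.zero_apply] at this
    rw [this, zero_smul]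
  refine (dimH_mono hsub).trans ?_
  rw [dimH_iUnion]
  exact iSup_le fun h => dimH_Reg (fun i => analytic_Rg hU (h i).2) Z

end Pool.Agent.Q75.Cr
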