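import Pool.Agent.Q75.IvyTop

/-!
# Three invariant spanning trees for `z ^ 2 - 2`
-/

set_option autoImplicit false

open Set Topology Filter

namespace Q75.Ivy

noncomputable section

/-- The three post-critical points of `z ^ 2 - 2`. -/
def P2 : Set Sph := {((-2 : ℂ) : Sph), ((2 : ℂ) : Sph), OnePoint.infty}

theorem quad_infty (c : ℂ) : quad c OnePoint.infty = OnePoint.infty := rfl

theorem quad_coe (c z : ℂ) : quad c (z : Sph) = ((z ^ 2 + c : ℂ) : Sph) := rfl

theorem quad_iterate_two (n : ℕ) : (quad (-2))^[n] ((2 : ℂ) : Sph) = ((2 : ℂ) : Sph) := by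
  induction n with
  | zero => rfl
  | succ n ih =>
    rw [Function.iterate_succ_apply', ih, quad_coe]
    norm_num

theorem postcrit_two : postcrit (-2) = P2 := by
  ext x
  constructor
  · rintro (⟨n, rfl⟩ | hx)
    · rcases n with _ | n
      · left; rfl
      · right; left
        rw [Function.iterate_succ_apply, quad_coe]
        have : ((-2 : ℂ) ^ 2 + -2) = 2 := by norm_num
        rw [this, quad_iterate_two]
    · right; right; exact hx
  · rintro (h | h | h)
    · left; exact ⟨0, h⟩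
    · left
      refine ⟨1, ?_⟩
      rw [h, Function.iterate_one, quad_coe]
      norm_num
    · right; exact h

theorem P2_finite : P2.Finite := by
  unfold P2
  exact (finite_singleton _).insert _ |>.insert _

theorem mem_P2_neg : ((-2 : ℂ) : Sph) ∈ P2 := Or.inl rfl
theorem mem_P2_pos : ((2 : ℂ) : Sph) ∈ P2 := Or.inr (Or.inl rfl)
theorem mem_P2_inf : (OnePoint.infty : Sph) ∈ P2 := Or.inr (Or.inr rfl)

/-! ### The first tree `[-2, ∞]` -/

/-- the arc `[-2, ∞]`, from `∞` to `-2` -/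
def g1 : ℝ → Sph := ratio (fun s : ℝ => (1 - 3 * s : ℂ)) (fun s : ℝ => (s : ℂ))

theorem g1_zero : g1 0 = OnePoint.infty := by simp [g1, ratio]

theorem g1_pos {s : ℝ} (hs : s ≠ 0) : g1 s = (((1 / s - 3 : ℝ) : ℂ) : Sph) := by
  have : ((s : ℝ) : ℂ) ≠ 0 := by exact_mod_cast hs
  simp only [g1, ratio, this, if_false]
  congr 1
  push_cast
  field_simp

theorem g1_cont : Continuous g1 := by
  refine continuous_ratio (by fun_prop) (by fun_prop) ?_
  intro s hs
  have : s = 0 := by exact_mod_cast hs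
  rw [this]
  simp

theorem g1_inj : Function.Injective g1 := by
  intro s t h
  by_cases hs : s = 0 <;> by_cases ht : t = 0
  · rw [hs, ht]
  · rw [hs, g1_zero, g1_pos ht] at h
    exact absurd h (OnePoint.infty_ne_coe _)
  · rw [ht, g1_zero, g1_pos hs] at h
    exact absurd h (OnePoint.coe_ne_infty _)
  · rw [g1_pos hs, g1_pos ht] at h
    have h1 : ((1 / s - 3 : ℝ) : ℂ) = ((1 / t - 3 : ℝ) : ℂ) := OnePoint.coe_injective h
    have h2 : (1 / s - 3 : ℝ) = 1 / t - 3 := by exact_mod_cast h1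
    have h3 : (1 / s : ℝ) = 1 / t := by linarith
    simpa using h3

/-- The tree `[-2, ∞]`. -/
def T1 : Set Sph := g1 '' Icc 0 1

theorem mem_T1_iff (x : Sph) :
    x ∈ T1 ↔ x = OnePoint.infty ∨ ∃ u : ℝ, -2 ≤ u ∧ x = ((u : ℂ) : Sph) := by
  constructor
  · rintro ⟨s, hs, rfl⟩
    by_cases h : s = 0
    · left; rw [h, g1_zero]
    · right
      have hpos : 0 < s := lt_of_le_of_ne hs.1 (Ne.symm h)
      refine ⟨1 / s - 3, ?_, g1_pos h⟩
      have : 1 ≤ 1 / s := by
        rw [le_div_iff₀ hpos]; linarith [hs.2]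
      linarith
  · rintro (rfl | ⟨u, hu, rfl⟩)
    · exact ⟨0, ⟨le_rfl, zero_le_one⟩, g1_zero⟩
    · have h3 : 0 < u + 3 := by linarith
      refine ⟨1 / (u + 3), ⟨by positivity, ?_⟩, ?_⟩
      · rw [div_le_one h3]; linarith
      · rw [g1_pos (by positivity)]
        congr 2
        field_simp
        ring

/-! ### The second tree `[2, ∞] ∪ [∞, -2]` -/

/-- the arc from `-2` through `∞` to `2` -/
def g2 : ℝ → Sph := ratio (fun _ : ℝ => (1 : ℂ)) (fun s : ℝ => (s - 1 / 2 : ℂ))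

theorem g2_half : g2 (1 / 2) = OnePoint.infty := by simp [g2, ratio]

theorem g2_ne {s : ℝ} (hs : s ≠ 1 / 2) : g2 s = (((1 / (s - 1 / 2) : ℝ) : ℂ) : Sph) := by
  have : ((s : ℝ) : ℂ) - 1 / 2 ≠ 0 := by
    intro h
    apply hs
    have h2 : ((s - 1 / 2 : ℝ) : ℂ) = 0 := by push_cast; exact h
    have h3 : s - 1 / 2 = 0 := by exact_mod_cast h2
    linarith
  simp only [g2, ratio, this, if_false]
  congr 1
  push_cast
  rfl

theorem g2_cont : Continuous g2 := by
  refine continuous_ratio (by fun_prop) (by fun_prop) ?_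
  intro s _
  exact one_ne_zero

theorem g2_inj : Function.Injective g2 := by
  intro s t h
  by_cases hs : s = 1 / 2 <;> by_cases ht : t = 1 / 2
  · rw [hs, ht]
  · rw [hs, g2_half, g2_ne ht] at h
    exact absurd h (OnePoint.infty_ne_coe _)
  · rw [ht, g2_half, g2_ne hs] at h
    exact absurd h (OnePoint.coe_ne_infty _)
  · rw [g2_ne hs, g2_ne ht] at h
    have h1 : ((1 / (s - 1 / 2) : ℝ) : ℂ) = ((1 / (t - 1 / 2) : ℝ) : ℂ) :=
      OnePoint.coe_injective h
    have h2 : (1 / (s - 1 / 2) : ℝ) = 1 / (t - 1 / 2) := by exact_mod_cast h1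
    have h3 : s - 1 / 2 = t - 1 / 2 := by simpa using h2
    linarith

/-- The tree `[2, ∞] ∪ [∞, -2]`. -/
def T2 : Set Sph := g2 '' Icc 0 1

theorem mem_T2_iff (x : Sph) :
    x ∈ T2 ↔ x = OnePoint.infty ∨ ∃ u : ℝ, 2 ≤ |u| ∧ x = ((u : ℂ) : Sph) := by
  constructor
  · rintro ⟨s, hs, rfl⟩
    by_cases h : s = 1 / 2
    · left; rw [h, g2_half]
    · right
      refine ⟨1 / (s - 1 / 2), ?_, g2_ne h⟩
      have hpos : 0 < |s - 1 / 2| := abs_pos.2 (sub_ne_zero.2 h)
      rw [abs_div, abs_one, le_div_iff₀ hpos]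
      have : |s - 1 / 2| ≤ 1 / 2 := by
        rw [abs_le]
        constructor <;> linarith [hs.1, hs.2]
      linarith
  · rintro (rfl | ⟨u, hu, rfl⟩)
    · exact ⟨1 / 2, ⟨by norm_num, by norm_num⟩, g2_half⟩
    · have hu0 : u ≠ 0 := by
        intro h
        rw [h, abs_zero] at hu
        norm_num at hu
      have hpos : 0 < |u| := abs_pos.2 hu0
      have h1 : |1 / u| ≤ 1 / 2 := by
        rw [abs_div, abs_one, div_le_div_iff₀ hpos (by norm_num)]
        linarith
      rw [abs_le] at h1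
      refine ⟨1 / 2 + 1 / u, ⟨by linarith [h1.1], by linarith [h1.2]⟩, ?_⟩
      rw [g2_ne]
      · congr 2
        field_simp
        ring
      · intro h
        have h2 : 1 / u = 0 := by linarith
        rw [one_div, inv_eq_zero] at h2
        exact hu0 h2

/-! ### The third tree: a tripod -/

/-- the segment from `-2` to `2` -/
def ga (s : ℝ) : Sph := (((4 * s - 2 : ℝ) : ℂ) : Sph)

theorem ga_cont : Continuous ga :=
  OnePoint.continuous_coe.comp (Complex.continuous_ofReal.comp (by fun_prop))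

theorem ga_inj : Function.Injective ga := by
  intro s t h
  have h1 : ((4 * s - 2 : ℝ) : ℂ) = ((4 * t - 2 : ℝ) : ℂ) := OnePoint.coe_injective h
  have h2 : (4 * s - 2 : ℝ) = 4 * t - 2 := by exact_mod_cast h1
  linarith

/-- the vertical ray from `0` to `∞` -/
def gd : ℝ → Sph := ratio (fun s : ℝ => (s * Complex.I : ℂ)) (fun s : ℝ => (1 - s : ℂ))

theorem gd_one : gd 1 = OnePoint.infty := by simp [gd, ratio]

theorem gd_ne {s : ℝ} (hs : s ≠ 1) : gd s = ((((s / (1 - s) : ℝ) : ℂ) * Complex.I : ℂ) : Sph) := by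
  have : (1 : ℂ) - ((s : ℝ) : ℂ) ≠ 0 := by
    intro h
    apply hs
    have h2 : ((1 - s : ℝ) : ℂ) = 0 := by push_cast; exact h
    have h3 : 1 - s = 0 := by exact_mod_cast h2
    linarith
  simp only [gd, ratio, this, if_false]
  congr 1
  push_cast
  ring

theorem gd_cont : Continuous gd := by
  refine continuous_ratio (by fun_prop) (by fun_prop) ?_
  intro s hs
  have h2 : ((1 - s : ℝ) : ℂ) = 0 := by push_cast; exact hs
  have h3 : 1 - s = 0 := by exact_mod_cast h2
  have h4 : s = 1 := by linarith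
  rw [h4]
  simp

theorem gd_inj : Function.Injective gd := by
  intro s t h
  by_cases hs : s = 1 <;> by_cases ht : t = 1
  · rw [hs, ht]
  · rw [hs, gd_one, gd_ne ht] at h
    exact absurd h (OnePoint.infty_ne_coe _)
  · rw [ht, gd_one, gd_ne hs] at h
    exact absurd h (OnePoint.coe_ne_infty _)
  · rw [gd_ne hs, gd_ne ht] at h
    have h1 := OnePoint.coe_injective h
    have h2 := congrArg Complex.im h1
    simp only [Complex.mul_I_im, Complex.ofReal_re] at h2
    have hs' : 1 - s ≠ 0 := sub_ne_zero.2 (Ne.symm hs)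
    have ht' : 1 - t ≠ 0 := sub_ne_zero.2 (Ne.symm ht)
    rw [div_eq_div_iff hs' ht'] at h2
    linarith

/-- The tripod with centre `0` and ends `-2`, `2`, `∞`. -/
def T3 : Set Sph := ga '' Icc 0 1 ∪ gd '' Icc 0 1

theorem mem_ga_iff (x : Sph) :
    x ∈ ga '' Icc 0 1 ↔ ∃ u : ℝ, -2 ≤ u ∧ u ≤ 2 ∧ x = ((u : ℂ) : Sph) := by
  constructor
  · rintro ⟨s, hs, rfl⟩
    exact ⟨4 * s - 2, by linarith [hs.1], by linarith [hs.2], rfl⟩
  · rintro ⟨u, hu1, hu2, rfl⟩
    refine ⟨(u + 2) / 4, ⟨by linarith, by linarith⟩, ?_⟩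
    unfold ga
    congr 2
    ring

theorem mem_gd_iff (x : Sph) : x ∈ gd '' Icc 0 1 ↔
    x = OnePoint.infty ∨ ∃ v : ℝ, 0 ≤ v ∧ x = (((v : ℂ) * Complex.I : ℂ) : Sph) := by
  constructor
  · rintro ⟨s, hs, rfl⟩
    by_cases h : s = 1
    · left; rw [h, gd_one]
    · right
      have hpos : 0 < 1 - s := sub_pos.2 (lt_of_le_of_ne hs.2 h)
      exact ⟨s / (1 - s), div_nonneg hs.1 hpos.le, gd_ne h⟩
  · rintro (rfl | ⟨v, hv, rfl⟩)
    · exact ⟨1, ⟨zero_le_one, le_rfl⟩, gd_one⟩
    · have h1 : 0 < 1 + v := by linarith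
      refine ⟨v / (1 + v), ⟨by positivity, ?_⟩, ?_⟩
      · rw [div_le_one h1]; linarith
      · rw [gd_ne]
        · congr 3
          field_simp
          ring
        · intro h
          rw [div_eq_one_iff_eq h1.ne'] at h
          linarith

theorem mem_T3_iff (x : Sph) : x ∈ T3 ↔ (∃ u : ℝ, -2 ≤ u ∧ u ≤ 2 ∧ x = ((u : ℂ) : Sph)) ∨
    x = OnePoint.infty ∨ ∃ v : ℝ, 0 ≤ v ∧ x = (((v : ℂ) * Complex.I : ℂ) : Sph) := by
  unfold T3
  rw [mem_union, mem_ga_iff, mem_gd_iff]

end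

end Q75.Ivy
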