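import Mathlib

/-!
# Spanning trees and ivy objects of quadratic polynomials

Definitions for problem MP_6faade_an.
-/

set_option autoImplicit false

open Set Topology

namespace Q75.Ivy

/-- The Riemann sphere. -/
abbrev Sph : Type := OnePoint ℂ

/-- The quadratic polynomial `z ^ 2 + c` as a self-map of the sphere; it fixes `∞`. -/
def quad (c : ℂ) : Sph → Sph := OnePoint.map fun z : ℂ => z ^ 2 + c

/-- The post-critical set `P(p) = {p^n(c) : n ≥ 0} ∪ {∞}` of `p(z) = z ^ 2 + c`. -/
def postcrit (c : ℂ) : Set Sph :=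
  {x | ∃ n : ℕ, x = (quad c)^[n] (c : Sph)} ∪ {OnePoint.infty}

/-- Finite topological trees in the sphere: the sets obtained from a one-point set by finitely
many times attaching an arc, one end of which (and nothing else) lies in the tree obtained
before. -/
inductive IsTree : Set Sph → Prop
  | point (x : Sph) : IsTree {x}
  | attach (T : Set Sph) (γ : ℝ → Sph) (hT : IsTree T) (hc : ContinuousOn γ (Icc 0 1))
      (hi : InjOn γ (Icc 0 1)) (h0 : γ 0 ∈ T) (h1 : ∀ t ∈ Ioc (0 : ℝ) 1, γ t ∉ T) :
      IsTree (T ∪ γ '' Icc 0 1)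

/-- `x` is an endpoint of `T`: removing it from `T` leaves a connected set. -/
def IsEndpoint (T : Set Sph) (x : Sph) : Prop := x ∈ T ∧ IsPreconnected (T \ {x})

/-- `x` is a branch point of `T`: the set `T \ {x}` has more than two components. -/
def IsBranch (T : Set Sph) (x : Sph) : Prop :=
  x ∈ T ∧ 2 < Cardinal.mk (ConnectedComponents ↥(T \ {x}))

/-- `T` is a spanning tree for `P`: a finite topological tree which contains `P` and all
endpoints of which are in `P`. -/
def IsSpanning (P T : Set Sph) : Prop :=
  IsTree T ∧ P ⊆ T ∧ ∀ x, IsEndpoint T x → x ∈ P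

/-- The vertices of a spanning tree for `P`: the points of `P` and the branch points. -/
def vertices (P T : Set Sph) : Set Sph := P ∪ {x | IsBranch T x}

/-- `T` and `T'` are isotopic relative to `P`: there is an isotopy of the sphere which fixes all
points of `P` and which ends with a homeomorphism that maps `T` onto `T'`. -/
def Isotopic (P T T' : Set Sph) : Prop :=
  ∃ H : unitInterval × Sph → Sph, Continuous H ∧ (∀ t, IsHomeomorph fun x => H (t, x)) ∧
    (∀ x, H (0, x) = x) ∧ (∀ t, ∀ x ∈ P, H (t, x) = x) ∧ (fun x => H (1, x)) '' T = T'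

/-- The spanning trees for the post-critical set of `z ^ 2 + c`. -/
def Spanning (c : ℂ) : Type := {T : Set Sph // IsSpanning (postcrit c) T}

theorem Isotopic.refl (P T : Set Sph) : Isotopic P T T :=
  ⟨fun q => q.2, continuous_snd, fun _ => IsHomeomorph.id, fun _ => rfl, fun _ _ _ => rfl,
    by simp⟩

theorem Isotopic.trans {P T T' T'' : Set Sph} (h : Isotopic P T T') (h' : Isotopic P T' T'') :
    Isotopic P T T'' := by
  obtain ⟨H, hc, hh, h0, hP, hT⟩ := h
  obtain ⟨H', hc', hh', h0', hP', hT'⟩ := h'
  refine ⟨fun q => H' (q.1, H q), hc'.comp (continuous_fst.prodMk hc), fun t => ?_, fun x => ?_,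
    fun t x hx => ?_, ?_⟩
  · exact (hh' t).comp (hh t)
  · show H' (0, H (0, x)) = x
    rw [h0, h0']
  · show H' (t, H (t, x)) = x
    rw [hP t x hx, hP' t x hx]
  · rw [← hT', ← hT, image_image]

theorem Isotopic.symm {P T T' : Set Sph} (h : Isotopic P T T') : Isotopic P T' T := by
  obtain ⟨H, hc, hh, h0, hP, hT⟩ := h
  -- the total map is a homeomorphism
  have hΦc : Continuous (fun q : unitInterval × Sph => (q.1, H q)) := continuous_fst.prodMk hc
  have hΦb : Function.Bijective (fun q : unitInterval × Sph => (q.1, H q)) := by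
    constructor
    · rintro ⟨t, x⟩ ⟨s, y⟩ hxy
      simp only [Prod.mk.injEq] at hxy
      obtain ⟨rfl, h2⟩ := hxy
      exact Prod.ext rfl ((hh t).injective h2)
    · rintro ⟨t, y⟩
      obtain ⟨x, hx⟩ := (hh t).surjective y
      exact ⟨(t, x), Prod.ext rfl hx⟩
  have hΦ : IsHomeomorph (fun q : unitInterval × Sph => (q.1, H q)) :=
    isHomeomorph_iff_continuous_bijective.2 ⟨hΦc, hΦb⟩
  let e := (hΦ.homeomorph)
  let φ := ((hh 1).homeomorph)
  have hφ : ∀ x, φ x = H (1, x) := fun x => rfl
  refine ⟨fun q => H (unitInterval.symm q.1, φ.symm q.2), ?_, fun t => ?_, fun x => ?_,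
    fun t x hx => ?_, ?_⟩
  · exact hc.comp ((unitInterval.continuous_symm.comp continuous_fst).prodMk
      (φ.symm.continuous.comp continuous_snd))
  · exact (hh (unitInterval.symm t)).comp φ.symm.isHomeomorph
  · show H (unitInterval.symm 0, φ.symm x) = x
    rw [unitInterval.symm_zero, ← hφ, φ.apply_symm_apply]
  · show H (unitInterval.symm t, φ.symm x) = x
    have : φ.symm x = x := by
      rw [Homeomorph.symm_apply_eq, hφ, hP 1 x hx]
    rw [this, hP _ x hx]
  · show (fun x => H (unitInterval.symm 1, φ.symm x)) '' T' = T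
    rw [unitInterval.symm_one]
    have : (fun x => H (0, φ.symm x)) = φ.symm := by
      funext x
      exact h0 _
    rw [this, ← hT]
    show φ.symm '' (φ '' T) = T
    rw [← image_comp]
    simp

/-- Isotopy relative to the post-critical set, as an equivalence relation. -/
instance isotopySetoid (c : ℂ) : Setoid (Spanning c) where
  r T T' := Isotopic (postcrit c) T.1 T'.1
  iseqv := ⟨fun _ => Isotopic.refl _ _, Isotopic.symm, Isotopic.trans⟩

/-- `Ivy(p)` for `p(z) = z ^ 2 + c`: the set of ivy objects, i.e. of isotopy classes relative to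
the post-critical set of spanning trees for the post-critical set. -/
def IvyObj (c : ℂ) : Type := Quotient (isotopySetoid c)

/-- `(T', T)` is a dynamical tree pair for `p(z) = z ^ 2 + c`: `p(T') ⊆ T`,
`p(V(T')) ⊆ V(T)`, and the critical values `c` and `∞` are vertices of `T`. -/
def IsDynPair (c : ℂ) (T' T : Spanning c) : Prop :=
  quad c '' T'.1 ⊆ T.1 ∧
    quad c '' vertices (postcrit c) T'.1 ⊆ vertices (postcrit c) T.1 ∧
    (c : Sph) ∈ vertices (postcrit c) T.1 ∧ OnePoint.infty ∈ vertices (postcrit c) T.1

/-- The pullback relation `[T] ⊸ [T']` on ivy objects: some `(T', T)` in the given classes is a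
dynamical tree pair. -/
def Pullback (c : ℂ) (x x' : IvyObj c) : Prop :=
  ∃ T T' : Spanning c, (Quotient.mk _ T : IvyObj c) = x ∧ (Quotient.mk _ T' : IvyObj c) = x' ∧
    IsDynPair c T' T

end Q75.Ivy
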