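import Pool.Agent.Q75.IvyTripod

/-!
# The isotopy, and the three invariant ivy objects
-/

set_option autoImplicit false

open Set Topology Filter

namespace Q75.Ivy

noncomputable section

/-- the horizontal shear -/
def shear (L m u : ℝ) : ℝ := u + m * max 0 (1 - |u| / L)

theorem shear_lip {L m : ℝ} (hL : 0 < L) (hm : 0 ≤ m) (hmL : m < L) {u v : ℝ} (huv : u < v) :
    shear L m u < shear L m v := by
  unfold shear
  have h1 : |max 0 (1 - |u| / L) - max 0 (1 - |v| / L)| ≤ (v - u) / L := by
    have h2 : |max 0 (1 - |u| / L) - max 0 (1 - |v| / L)| ≤ |(1 - |u| / L) - (1 - |v| / L)| := by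
      have := abs_max_sub_max_le_abs (1 - |u| / L) (1 - |v| / L) 0
      rwa [max_comm (1 - |u| / L) 0, max_comm (1 - |v| / L) 0] at this
    refine h2.trans ?_
    have h3 : (1 - |u| / L) - (1 - |v| / L) = (|v| - |u|) / L := by ring
    rw [h3, abs_div, abs_of_pos hL]
    apply div_le_div_of_nonneg_right _ hL.le
    have := abs_abs_sub_abs_le v u
    rwa [abs_of_pos (sub_pos.2 huv)] at this
  have h4 := le_abs_self (max 0 (1 - |u| / L) - max 0 (1 - |v| / L))
  have h5 : m * (max 0 (1 - |u| / L) - max 0 (1 - |v| / L)) ≤ m * ((v - u) / L) :=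
    mul_le_mul_of_nonneg_left (h4.trans h1) hm
  have h6 : m * ((v - u) / L) < v - u := by
    rw [← mul_div_assoc, div_lt_iff₀ hL]
    nlinarith [sub_pos.2 huv]
  linarith

theorem shear_of_ge {L m u : ℝ} (hL : 0 < L) (hu : L ≤ |u|) : shear L m u = u := by
  unfold shear
  have : 1 - |u| / L ≤ 0 := by
    rw [sub_nonpos, le_div_iff₀ hL, one_mul]; exact hu
  rw [max_eq_left this, mul_zero, add_zero]

theorem shear_continuous (L m : ℝ) : Continuous (shear L m) := by
  unfold shear
  fun_prop

theorem shear_surjective {L m : ℝ} (hL : 0 < L) : Function.Surjective (shear L m) := by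
  intro w
  have hR : -(L + |w|) ≤ L + |w| := by
    have := abs_nonneg w; linarith
  have h1 : shear L m (-(L + |w|)) = -(L + |w|) := by
    apply shear_of_ge hL
    rw [abs_neg]
    exact le_trans (by linarith [abs_nonneg w]) (le_abs_self _)
  have h2 : shear L m (L + |w|) = L + |w| := by
    apply shear_of_ge hL
    exact le_trans (by linarith [abs_nonneg w]) (le_abs_self _)
  have h3 := intermediate_value_Icc hR (shear_continuous L m).continuousOn
  have h4 : w ∈ Icc (shear L m (-(L + |w|))) (shear L m (L + |w|)) := by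
    rw [h1, h2]
    constructor
    · linarith [neg_abs_le w]
    · linarith [le_abs_self w]
  obtain ⟨u, _, hu⟩ := h3 h4
  exact ⟨u, hu⟩

/-- the width of the sheared part of the horizontal line at height `v` -/
def wid (v : ℝ) : ℝ := 2 + |v|

theorem wid_pos (v : ℝ) : 0 < wid v := by
  unfold wid; positivity

/-- the displacement of the point on the imaginary axis at height `v` -/
def disp (v : ℝ) : ℝ := √(2 + v ^ 2)

theorem disp_nonneg (v : ℝ) : 0 ≤ disp v := Real.sqrt_nonneg _

theorem disp_lt (v : ℝ) : disp v < wid v := by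
  unfold disp wid
  rw [Real.sqrt_lt' (by positivity)]
  have := abs_nonneg v
  nlinarith [sq_abs v]

/-- the isotopy of the plane -/
def Hc (t : ℝ) (z : ℂ) : ℂ := ⟨shear (wid z.im) (t * disp z.im) z.re, z.im⟩

theorem Hc_bij {t : ℝ} (ht : t ∈ Icc (0 : ℝ) 1) : Function.Bijective (Hc t) := by
  have hm : ∀ v, 0 ≤ t * disp v := fun v => mul_nonneg ht.1 (disp_nonneg v)
  have hm2 : ∀ v, t * disp v < wid v := fun v =>
    lt_of_le_of_lt (mul_le_of_le_one_left (disp_nonneg v) ht.2) (disp_lt v)
  constructor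
  · intro z w h
    have h1 := congrArg Complex.im h
    have h2 := congrArg Complex.re h
    simp only [Hc] at h1 h2
    rw [h1] at h2
    have hmono : StrictMono (shear (wid w.im) (t * disp w.im)) := fun u v huv =>
      shear_lip (wid_pos _) (hm _) (hm2 _) huv
    exact Complex.ext (hmono.injective h2) h1
  · intro w
    obtain ⟨u, hu⟩ := shear_surjective (L := wid w.im) (m := t * disp w.im) (wid_pos _) w.re
    exact ⟨⟨u, w.im⟩, Complex.ext hu rfl⟩

theorem Hc_continuous : Continuous (fun q : ℝ × ℂ => Hc q.1 q.2) := by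
  have h : (fun q : ℝ × ℂ => Hc q.1 q.2) = fun q : ℝ × ℂ =>
      ((q.2.re + (q.1 * √(2 + q.2.im ^ 2)) * max 0 (1 - |q.2.re| / (2 + |q.2.im|)) : ℝ) : ℂ)
        + (q.2.im : ℂ) * Complex.I := by
    funext q
    apply Complex.ext
    · simp [Hc, shear, disp, wid]
    · simp [Hc]
  rw [h]
  have hne : ∀ q : ℝ × ℂ, (2 + |q.2.im|) ≠ 0 := fun q => by positivity
  have hre : Continuous fun q : ℝ × ℂ => q.2.re := Complex.continuous_re.comp continuous_snd
  have him : Continuous fun q : ℝ × ℂ => q.2.im := Complex.continuous_im.comp continuous_snd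
  have h1 : Continuous fun q : ℝ × ℂ => |q.2.re| / (2 + |q.2.im|) :=
    hre.abs.div (continuous_const.add him.abs) hne
  have h2 : Continuous fun q : ℝ × ℂ => √(2 + q.2.im ^ 2) :=
    (continuous_const.add (him.pow 2)).sqrt
  have h3 : Continuous fun q : ℝ × ℂ =>
      q.2.re + (q.1 * √(2 + q.2.im ^ 2)) * max 0 (1 - |q.2.re| / (2 + |q.2.im|)) :=
    hre.add ((continuous_fst.mul h2).mul (continuous_const.max (continuous_const.sub h1)))
  exact (Complex.continuous_ofReal.comp h3).add
    ((Complex.continuous_ofReal.comp him).mul continuous_const)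

theorem Hc_norm (t : ℝ) (z : ℂ) : (‖z‖ - 2) / 2 ≤ ‖Hc t z‖ := by
  have h1 : ‖z‖ ≤ |z.re| + |z.im| := Complex.norm_le_abs_re_add_abs_im z
  by_cases h : wid z.im ≤ |z.re|
  · have : Hc t z = z := by
      apply Complex.ext
      · exact shear_of_ge (wid_pos _) h
      · rfl
    rw [this]
    linarith [norm_nonneg z]
  · push Not at h
    have h2 : |z.im| ≤ ‖Hc t z‖ := by
      have := Complex.abs_im_le_norm (Hc t z)
      exact this
    unfold wid at h
    linarith

/-- the isotopy of the sphere -/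
def HS (q : unitInterval × Sph) : Sph := OnePoint.map (Hc (q.1 : ℝ)) q.2

theorem HS_coe (t : unitInterval) (z : ℂ) : HS (t, (z : Sph)) = ((Hc t z : ℂ) : Sph) := rfl

theorem HS_infty (t : unitInterval) : HS (t, OnePoint.infty) = OnePoint.infty := rfl

theorem HS_continuous : Continuous HS := by
  rw [continuous_iff_continuousAt]
  rintro ⟨t, x⟩
  induction x using OnePoint.rec with
  | infty =>
    unfold ContinuousAt
    rw [HS_infty, tendsto_def]
    intro s hs
    obtain ⟨R, hR, hRs⟩ := nhds_infty_ball hs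
    have h1 : ∀ᶠ q : unitInterval × Sph in 𝓝 (t, (OnePoint.infty : Sph)),
        ∀ z : ℂ, q.2 = (z : Sph) → 2 * R + 2 < ‖z‖ :=
      (continuous_snd.tendsto (t, (OnePoint.infty : Sph))).eventually
        (ball_mem_nhds_infty (2 * R + 2))
    filter_upwards [h1] with q hq
    obtain ⟨t', x⟩ := q
    show HS (t', x) ∈ s
    induction x using OnePoint.rec with
    | infty => rw [HS_infty]; exact mem_of_mem_nhds hs
    | coe z =>
      rw [HS_coe]
      apply hRs
      have h2 := hq z rfl
      have h3 := Hc_norm t' z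
      linarith
  | coe z =>
    have hemb : IsOpenEmbedding (Prod.map (id : unitInterval → unitInterval)
        ((↑) : ℂ → Sph)) := IsOpenEmbedding.id.prodMap OnePoint.isOpenEmbedding_coe
    have h1 : ContinuousAt (HS ∘ Prod.map (id : unitInterval → unitInterval) ((↑) : ℂ → Sph))
        (t, z) := by
      have h2 : HS ∘ Prod.map (id : unitInterval → unitInterval) ((↑) : ℂ → Sph) =
          fun q : unitInterval × ℂ => ((Hc (q.1 : ℝ) q.2 : ℂ) : Sph) := by
        funext q
        rfl
      rw [h2]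
      have h3 : Continuous fun q : unitInterval × ℂ => Hc (q.1 : ℝ) q.2 :=
        Hc_continuous.comp
          ((continuous_subtype_val.comp continuous_fst).prodMk continuous_snd)
      exact (OnePoint.continuous_coe.comp h3).continuousAt
    exact (hemb.continuousAt_iff).1 h1

theorem HS_homeo (t : unitInterval) : IsHomeomorph fun x => HS (t, x) := by
  rw [isHomeomorph_iff_continuous_bijective]
  refine ⟨HS_continuous.comp (continuous_const.prodMk continuous_id), ?_⟩
  obtain ⟨hi, hs⟩ := Hc_bij t.2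
  constructor
  · intro x y h
    induction x using OnePoint.rec with
    | infty =>
      induction y using OnePoint.rec with
      | infty => rfl
      | coe w => exact absurd h (OnePoint.infty_ne_coe _)
    | coe z =>
      induction y using OnePoint.rec with
      | infty => exact absurd h (OnePoint.coe_ne_infty _)
      | coe w => rw [hi (OnePoint.coe_injective h)]
  · intro y
    induction y using OnePoint.rec with
    | infty => exact ⟨OnePoint.infty, rfl⟩
    | coe w =>
      obtain ⟨z, hz⟩ := hs w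
      exact ⟨(z : Sph), by rw [← hz]; rfl⟩

theorem HS_zero (x : Sph) : HS (0, x) = x := by
  induction x using OnePoint.rec with
  | infty => rfl
  | coe z =>
    rw [HS_coe]
    congr 1
    apply Complex.ext
    · simp [Hc, shear]
    · rfl

theorem Hc_real_ge (t : ℝ) {u : ℝ} (hu : 2 ≤ |u|) : Hc t (u : ℂ) = (u : ℂ) := by
  apply Complex.ext
  · show shear (wid (u : ℂ).im) _ (u : ℂ).re = (u : ℂ).re
    apply shear_of_ge (wid_pos _)
    rw [Complex.ofReal_im, Complex.ofReal_re]
    unfold wid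
    rw [abs_zero, add_zero]
    exact hu
  · rfl

theorem HS_fix (t : unitInterval) : ∀ x ∈ P2, HS (t, x) = x := by
  rintro x (rfl | rfl | rfl)
  · rw [HS_coe]
    congr 1
    have := Hc_real_ge t (u := -2) (by norm_num)
    push_cast at this
    exact this
  · rw [HS_coe]
    congr 1
    have := Hc_real_ge t (u := 2) (by norm_num)
    push_cast at this
    exact this
  · rfl

/-- The end homeomorphism of the isotopy. -/
def φ1 : Sph ≃ₜ Sph := (HS_homeo 1).homeomorph

theorem φ1_apply (x : Sph) : φ1 x = HS (1, x) := rfl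

/-- The pulled back tripod. -/
def T3' : Set Sph := φ1 '' T3

theorem T3_isotopic : Isotopic P2 T3 T3' :=
  ⟨HS, HS_continuous, HS_homeo, HS_zero, HS_fix, rfl⟩

theorem T3'_isSpanning : IsSpanning P2 T3' :=
  T3_isSpanning.image_homeo φ1 (fun x hx => HS_fix 1 x hx)

/-! ### Dynamics -/

theorem quad_T1 : quad (-2) '' T1 ⊆ T1 := by
  rintro _ ⟨x, hx, rfl⟩
  rw [mem_T1_iff] at hx ⊢
  rcases hx with rfl | ⟨u, hu, rfl⟩
  · left; rfl
  · right
    refine ⟨u ^ 2 - 2, by nlinarith [sq_nonneg u], ?_⟩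
    rw [quad_coe]
    congr 1
    push_cast
    ring

theorem quad_T2 : quad (-2) '' T2 ⊆ T2 := by
  rintro _ ⟨x, hx, rfl⟩
  rw [mem_T2_iff] at hx ⊢
  rcases hx with rfl | ⟨u, hu, rfl⟩
  · left; rfl
  · right
    refine ⟨u ^ 2 - 2, ?_, ?_⟩
    · refine le_trans ?_ (le_abs_self _)
      have : 4 ≤ u ^ 2 := by
        rw [← sq_abs]
        nlinarith
      linarith
    · rw [quad_coe]
      congr 1
      push_cast
      ring

theorem quad_T3' : quad (-2) '' T3' ⊆ T3 := by
  rintro _ ⟨_, ⟨x, hx, rfl⟩, rfl⟩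
  rw [φ1_apply]
  rcases (mem_T3_iff _).1 hx with ⟨u, hu1, hu2, rfl⟩ | rfl | ⟨v, hv, rfl⟩
  · rw [HS_coe, quad_coe, mem_T3_iff]
    left
    set w : ℝ := shear (wid 0) (1 * disp 0) u with hw
    have e : Hc ((1 : unitInterval) : ℝ) (u : ℂ) = (w : ℂ) := by
      apply Complex.ext
      · show shear (wid (u : ℂ).im) (((1 : unitInterval) : ℝ) * disp (u : ℂ).im) (u : ℂ).re = _
        rw [Complex.ofReal_im, Complex.ofReal_re, Complex.ofReal_re, hw]
        norm_num
      · show (u : ℂ).im = _
        rw [Complex.ofReal_im, Complex.ofReal_im]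
    have hmono : StrictMono (shear (wid 0) (1 * disp 0)) := fun a b hab =>
      shear_lip (wid_pos _) (by rw [one_mul]; exact disp_nonneg _)
        (by rw [one_mul]; exact disp_lt _) hab
    have hwid : wid 0 = 2 := by unfold wid; simp
    have h1 : shear (wid 0) (1 * disp 0) (-2) = -2 :=
      shear_of_ge (wid_pos _) (by rw [hwid]; norm_num)
    have h2 : shear (wid 0) (1 * disp 0) 2 = 2 :=
      shear_of_ge (wid_pos _) (by rw [hwid]; norm_num)
    have h3 : -2 ≤ w := by rw [← h1]; exact hmono.monotone hu1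
    have h4 : w ≤ 2 := by rw [← h2]; exact hmono.monotone hu2
    refine ⟨w ^ 2 - 2, by nlinarith [sq_nonneg w], by nlinarith, ?_⟩
    rw [e]
    congr 1
    push_cast
    ring
  · rw [HS_infty]
    exact (mem_T3_iff _).2 (Or.inr (Or.inl rfl))
  · rw [HS_coe, quad_coe, mem_T3_iff]
    right; right
    have e : Hc ((1 : unitInterval) : ℝ) ((v : ℂ) * Complex.I) = (disp v : ℂ) + (v : ℂ) * Complex.I := by
      apply Complex.ext
      · simp [Hc, shear]
      · simp [Hc]
    refine ⟨2 * v * disp v, mul_nonneg (by linarith) (disp_nonneg v), ?_⟩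
    rw [e]
    congr 1
    have hd : (disp v) ^ 2 = 2 + v ^ 2 := by
      unfold disp
      exact Real.sq_sqrt (by positivity)
    have hd' : ((disp v : ℝ) : ℂ) ^ 2 = 2 + (v : ℂ) ^ 2 := by
      rw [← Complex.ofReal_pow, hd]; push_cast; ring
    calc ((disp v : ℂ) + (v : ℂ) * Complex.I) ^ 2 + -2
        = (disp v : ℂ) ^ 2 + 2 * (disp v : ℂ) * ((v : ℂ) * Complex.I) + (v : ℂ) ^ 2 * Complex.I ^ 2
          + -2 := by ring
      _ = ((2 * v * disp v : ℝ) : ℂ) * Complex.I := by
          rw [hd', Complex.I_sq]; push_cast; ring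

theorem P2_quad {x : Sph} (hx : x ∈ P2) : quad (-2) x ∈ P2 := by
  rcases hx with rfl | rfl | rfl
  · right; left
    rw [quad_coe]; norm_num
  · right; left
    rw [quad_coe]; norm_num
  · exact mem_P2_inf

theorem P2_subset_T1 : P2 ⊆ T1 := by
  rintro x (rfl | rfl | rfl) <;> rw [mem_T1_iff]
  · right; exact ⟨-2, le_rfl, by norm_num⟩
  · right; exact ⟨2, by norm_num, by norm_num⟩
  · left; rfl

theorem P2_subset_T2 : P2 ⊆ T2 := by
  rintro x (rfl | rfl | rfl) <;> rw [mem_T2_iff]
  · right; exact ⟨-2, by norm_num, by norm_num⟩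
  · right; exact ⟨2, by norm_num, by norm_num⟩
  · left; rfl

theorem g1_one : g1 1 = ((-2 : ℂ) : Sph) := by
  rw [g1_pos one_ne_zero]; norm_num

theorem g2_zero : g2 0 = ((-2 : ℂ) : Sph) := by
  rw [g2_ne (by norm_num)]; norm_num

theorem g2_one : g2 1 = ((2 : ℂ) : Sph) := by
  rw [g2_ne (by norm_num)]; norm_num

theorem T1_isSpanning : IsSpanning P2 T1 :=
  arc_isSpanning g1_cont.continuousOn g1_inj.injOn P2_subset_T1
    (by rw [g1_zero]; exact mem_P2_inf) (by rw [g1_one]; exact mem_P2_neg)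

theorem T2_isSpanning : IsSpanning P2 T2 :=
  arc_isSpanning g2_cont.continuousOn g2_inj.injOn P2_subset_T2
    (by rw [g2_zero]; exact mem_P2_neg) (by rw [g2_one]; exact mem_P2_pos)

/-! ### The three trees are not isotopic -/

theorem T1_end_inf : IsEndpoint T1 OnePoint.infty := by
  refine ⟨P2_subset_T1 mem_P2_inf, ?_⟩
  have := arc_preconnected_left g1_cont.continuousOn g1_inj.injOn
  rwa [g1_zero] at this

theorem T1_not_end_two : ¬ IsEndpoint T1 ((2 : ℂ) : Sph) := by
  rintro ⟨-, h⟩
  have h5 : g1 (1 / 5) = ((2 : ℂ) : Sph) := by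
    rw [g1_pos (by norm_num)]; norm_num
  rw [← h5] at h
  exact arc_not_preconnected g1_cont.continuousOn g1_inj.injOn ⟨by norm_num, by norm_num⟩ h

theorem T2_not_end_inf : ¬ IsEndpoint T2 OnePoint.infty := by
  rintro ⟨-, h⟩
  rw [← g2_half] at h
  exact arc_not_preconnected g2_cont.continuousOn g2_inj.injOn ⟨by norm_num, by norm_num⟩ h

theorem T3_end_inf : IsEndpoint T3 OnePoint.infty := by
  refine ⟨P2_subset_T3 mem_P2_inf, ?_⟩
  rw [← gd_one, T3_diff_gd ⟨zero_lt_one, le_rfl⟩, Ioc_self, image_empty, union_empty]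
  exact IsPreconnected.union ((0 : ℂ) : Sph) ⟨1 / 2, ⟨by norm_num, by norm_num⟩, ga_half⟩
    ⟨0, ⟨le_rfl, zero_lt_one⟩, gd_zero⟩ (isPreconnected_Icc.image _ ga_cont.continuousOn)
    (isPreconnected_Ico.image _ gd_cont.continuousOn)

theorem T3_end_two : IsEndpoint T3 ((2 : ℂ) : Sph) := by
  refine ⟨P2_subset_T3 mem_P2_pos, ?_⟩
  rw [← ga_one, T3_diff_ga ⟨zero_le_one, le_rfl⟩ (by norm_num), Ioc_self, image_empty,
    empty_union]
  exact IsPreconnected.union ((0 : ℂ) : Sph) ⟨1 / 2, ⟨by norm_num, by norm_num⟩, ga_half⟩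
    ⟨0, ⟨le_rfl, zero_le_one⟩, gd_zero⟩ (isPreconnected_Ico.image _ ga_cont.continuousOn)
    (isPreconnected_Icc.image _ gd_cont.continuousOn)

/-! ### The three ivy objects -/

def S1 : Spanning (-2) := ⟨T1, by rw [postcrit_two]; exact T1_isSpanning⟩
def S2 : Spanning (-2) := ⟨T2, by rw [postcrit_two]; exact T2_isSpanning⟩
def S3 : Spanning (-2) := ⟨T3, by rw [postcrit_two]; exact T3_isSpanning⟩
def S3' : Spanning (-2) := ⟨T3', by rw [postcrit_two]; exact T3'_isSpanning⟩

theorem S1_dyn : IsDynPair (-2) S1 S1 := by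
  refine ⟨quad_T1, ?_, Or.inl ?_, Or.inl ?_⟩
  · rintro _ ⟨x, hx | hx, rfl⟩
    · left
      rw [postcrit_two] at hx ⊢
      exact P2_quad hx
    · exact absurd hx (arc_not_isBranch g1_cont.continuousOn g1_inj.injOn x)
  · rw [postcrit_two]; exact mem_P2_neg
  · rw [postcrit_two]; exact mem_P2_inf

theorem S2_dyn : IsDynPair (-2) S2 S2 := by
  refine ⟨quad_T2, ?_, Or.inl ?_, Or.inl ?_⟩
  · rintro _ ⟨x, hx | hx, rfl⟩
    · left
      rw [postcrit_two] at hx ⊢
      exact P2_quad hx
    · exact absurd hx (arc_not_isBranch g2_cont.continuousOn g2_inj.injOn x)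
  · rw [postcrit_two]; exact mem_P2_neg
  · rw [postcrit_two]; exact mem_P2_inf

theorem S3_dyn : IsDynPair (-2) S3' S3 := by
  refine ⟨quad_T3', ?_, Or.inl ?_, Or.inl ?_⟩
  · rintro _ ⟨x, hx | hx, rfl⟩
    · left
      rw [postcrit_two] at hx ⊢
      exact P2_quad hx
    · right
      obtain ⟨y, rfl⟩ := φ1.surjective x
      have hy : IsBranch T3 y := isBranch_image_imp φ1 T3 y hx
      have hy0 := T3_branch hy
      have e : quad (-2) (φ1 y) = ((0 : ℂ) : Sph) := by
        rw [hy0, φ1_apply, HS_coe, quad_coe]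
        congr 1
        have : Hc ((1 : unitInterval) : ℝ) 0 = ((√2 : ℝ) : ℂ) := by
          apply Complex.ext
          · simp [Hc, shear, disp]
          · simp [Hc]
        rw [this, ← Complex.ofReal_pow, Real.sq_sqrt (by norm_num)]
        norm_num
      show IsBranch T3 (quad (-2) (φ1 y))
      rw [e]
      exact T3_branch_zero
  · rw [postcrit_two]; exact mem_P2_neg
  · rw [postcrit_two]; exact mem_P2_inf

def I1 : IvyObj (-2) := Quotient.mk _ S1
def I2 : IvyObj (-2) := Quotient.mk _ S2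
def I3 : IvyObj (-2) := Quotient.mk _ S3

theorem I1_inv : Pullback (-2) I1 I1 := ⟨S1, S1, rfl, rfl, S1_dyn⟩
theorem I2_inv : Pullback (-2) I2 I2 := ⟨S2, S2, rfl, rfl, S2_dyn⟩
theorem I3_inv : Pullback (-2) I3 I3 := by
  refine ⟨S3, S3', rfl, ?_, S3_dyn⟩
  apply Quotient.sound
  show Isotopic (postcrit (-2)) T3' T3
  rw [postcrit_two]
  exact T3_isotopic.symm

theorem I1_ne_I2 : I1 ≠ I2 := by
  intro h
  have h1 : Isotopic (postcrit (-2)) T1 T2 := Quotient.exact h
  rw [postcrit_two] at h1
  exact T2_not_end_inf ((h1.isEndpoint_iff mem_P2_inf).1 T1_end_inf)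

theorem I1_ne_I3 : I1 ≠ I3 := by
  intro h
  have h1 : Isotopic (postcrit (-2)) T1 T3 := Quotient.exact h
  rw [postcrit_two] at h1
  exact T1_not_end_two ((h1.isEndpoint_iff mem_P2_pos).2 T3_end_two)

theorem I2_ne_I3 : I2 ≠ I3 := by
  intro h
  have h1 : Isotopic (postcrit (-2)) T2 T3 := Quotient.exact h
  rw [postcrit_two] at h1
  exact T2_not_end_inf ((h1.isEndpoint_iff mem_P2_inf).2 T3_end_inf)

theorem three_invariant :
    (postcrit (-2)).Finite ∧ 2 < Set.encard {x : IvyObj (-2) | Pullback (-2) x x} := by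
  refine ⟨by rw [postcrit_two]; exact P2_finite, ?_⟩
  have hsub : ({I1, I2, I3} : Set (IvyObj (-2))) ⊆ {x | Pullback (-2) x x} := by
    rintro x (rfl | rfl | rfl)
    · exact I1_inv
    · exact I2_inv
    · exact I3_inv
  refine lt_of_lt_of_le ?_ (Set.encard_le_encard hsub)
  have h3 : Set.encard ({I1, I2, I3} : Set (IvyObj (-2))) = 3 := by
    rw [Set.encard_insert_of_notMem, Set.encard_insert_of_notMem, Set.encard_singleton]
    · norm_num
    · intro h
      exact I2_ne_I3 h
    · rintro (h | h)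
      · exact I1_ne_I2 h
      · exact I1_ne_I3 h
  rw [h3]
  norm_num

end

end Q75.Ivy
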