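import Pool.Agent.Q75.IvyDef

/-!
# Trees in the sphere: general facts
-/

set_option autoImplicit false

open Set Topology Filter

namespace Q75.Ivy

theorem nhds_infty_ball {s : Set Sph} (hs : s ∈ 𝓝 (OnePoint.infty : Sph)) :
    ∃ R : ℝ, 0 < R ∧ ∀ z : ℂ, R < ‖z‖ → (z : Sph) ∈ s := by
  obtain ⟨K, ⟨_, hK⟩, hKs⟩ := OnePoint.hasBasis_nhds_infty.mem_iff.1 hs
  obtain ⟨R, hR⟩ := hK.isBounded.exists_norm_le
  refine ⟨max R 1, by positivity, fun z hz => hKs (Or.inl ⟨z, fun hzK => ?_, rfl⟩)⟩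
  have := hR z hzK
  have h2 := le_max_left R 1
  linarith

theorem ball_mem_nhds_infty (R : ℝ) :
    {x : Sph | ∀ z : ℂ, x = (z : Sph) → R < ‖z‖} ∈ 𝓝 (OnePoint.infty : Sph) := by
  rw [OnePoint.hasBasis_nhds_infty.mem_iff]
  refine ⟨Metric.closedBall 0 R, ⟨Metric.isClosed_closedBall, isCompact_closedBall _ _⟩, ?_⟩
  rintro x (⟨z, hz, rfl⟩ | hx) w hw
  · have : z = w := OnePoint.coe_injective hw
    rw [← this]
    simpa using hz
  · rw [hx] at hw
    exact absurd hw (OnePoint.infty_ne_coe w)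

/-- The ratio of two functions without common zeros, as a map into the sphere. -/
noncomputable def ratio {X : Type*} (a b : X → ℂ) (x : X) : Sph :=
  open Classical in if b x = 0 then OnePoint.infty else ((a x / b x : ℂ) : Sph)

theorem continuous_ratio {X : Type*} [TopologicalSpace X] {a b : X → ℂ} (ha : Continuous a)
    (hb : Continuous b) (h : ∀ x, b x = 0 → a x ≠ 0) : Continuous (ratio a b) := by
  rw [continuous_iff_continuousAt]
  intro x
  by_cases hx : b x = 0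
  · have hax := h x hx
    have hpos : 0 < ‖a x‖ := norm_pos_iff.2 hax
    unfold ContinuousAt
    have : ratio a b x = OnePoint.infty := by simp [ratio, hx]
    rw [this, tendsto_def]
    intro s hs
    obtain ⟨R, hR, hRs⟩ := nhds_infty_ball hs
    have h1 : ∀ᶠ y in 𝓝 x, ‖a x‖ / 2 < ‖a y‖ :=
      (ha.norm.continuousAt).eventually (lt_mem_nhds (by linarith))
    have h2 : ∀ᶠ y in 𝓝 x, ‖b y‖ < ‖a x‖ / (2 * (R + 1)) := by
      refine (hb.norm.continuousAt).eventually (gt_mem_nhds ?_)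
      show ‖b x‖ < _
      rw [hx, norm_zero]
      positivity
    filter_upwards [h1, h2] with y hy1 hy2
    show ratio a b y ∈ s
    by_cases hby : b y = 0
    · have : ratio a b y = OnePoint.infty := by simp [ratio, hby]
      rw [this]
      exact mem_of_mem_nhds hs
    · have : ratio a b y = ((a y / b y : ℂ) : Sph) := by simp [ratio, hby]
      rw [this]
      apply hRs
      rw [norm_div]
      have hbpos : 0 < ‖b y‖ := norm_pos_iff.2 hby
      rw [lt_div_iff₀ hbpos]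
      rw [lt_div_iff₀ (by positivity)] at hy2
      nlinarith
  · have h1 : ∀ᶠ y in 𝓝 x, b y ≠ 0 := hb.continuousAt.eventually_ne hx
    have h2 : ContinuousAt (fun y => ((a y / b y : ℂ) : Sph)) x :=
      (OnePoint.continuous_coe.continuousAt).comp
        ((ha.continuousAt).div (hb.continuousAt) hx)
    refine h2.congr ?_
    filter_upwards [h1] with y hy
    simp [ratio, hy]

/-! ### Arcs -/

theorem arc_isInducing {γ : ℝ → Sph} (hc : ContinuousOn γ (Icc 0 1)) (hi : InjOn γ (Icc 0 1)) :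
    IsInducing (fun t : Icc (0 : ℝ) 1 => γ t) := by
  have h1 : Continuous (fun t : Icc (0 : ℝ) 1 => γ t) :=
    continuousOn_iff_continuous_domRestrict.1 hc
  have h2 : Function.Injective (fun t : Icc (0 : ℝ) 1 => γ t) := fun s t h =>
    Subtype.ext (hi s.2 t.2 h)
  exact (h1.isClosedEmbedding h2).isInducing

theorem arc_isPreconnected {γ : ℝ → Sph} (hc : ContinuousOn γ (Icc 0 1))
    (hi : InjOn γ (Icc 0 1)) {S : Set ℝ} (hS : S ⊆ Icc 0 1) :
    IsPreconnected (γ '' S) ↔ IsPreconnected S := by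
  have h1 : γ '' S = (fun t : Icc (0 : ℝ) 1 => γ t) '' ((↑) ⁻¹' S) := by
    ext x
    constructor
    · rintro ⟨t, ht, rfl⟩
      exact ⟨⟨t, hS ht⟩, ht, rfl⟩
    · rintro ⟨t, ht, rfl⟩
      exact ⟨t, ht, rfl⟩
  have h2 : ((↑) : Icc (0 : ℝ) 1 → ℝ) '' ((↑) ⁻¹' S) = S := by
    rw [Subtype.image_preimage_coe]
    exact inter_eq_right.2 hS
  rw [h1, (arc_isInducing hc hi).isPreconnected_image,
    ← (IsInducing.subtypeVal).isPreconnected_image, h2]

theorem arc_diff {γ : ℝ → Sph} (hi : InjOn γ (Icc 0 1)) {t : ℝ} (ht : t ∈ Icc (0 : ℝ) 1) :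
    γ '' Icc 0 1 \ {γ t} = γ '' (Icc 0 1 \ {t}) := by
  ext x
  constructor
  · rintro ⟨⟨s, hs, rfl⟩, hst⟩
    exact ⟨s, ⟨hs, fun h => hst (by rw [h]; rfl)⟩, rfl⟩
  · rintro ⟨s, ⟨hs, hst⟩, rfl⟩
    exact ⟨⟨s, hs, rfl⟩, fun h => hst (hi hs ht h)⟩

theorem Icc_diff {t : ℝ} (ht : t ∈ Icc (0 : ℝ) 1) : Icc (0 : ℝ) 1 \ {t} = Ico 0 t ∪ Ioc t 1 := by
  ext x
  simp only [Set.mem_sdiff, mem_Icc, mem_singleton_iff, mem_union, mem_Ico, mem_Ioc]
  obtain ⟨h0, h1⟩ := ht
  constructor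
  · rintro ⟨⟨h2, h3⟩, h4⟩
    rcases lt_or_gt_of_ne h4 with h | h
    · exact Or.inl ⟨h2, h⟩
    · exact Or.inr ⟨h, h3⟩
  · rintro (⟨h2, h3⟩ | ⟨h2, h3⟩)
    · exact ⟨⟨h2, by linarith⟩, by linarith⟩
    · exact ⟨⟨by linarith, h3⟩, by linarith⟩

theorem arc_not_preconnected {γ : ℝ → Sph} (hc : ContinuousOn γ (Icc 0 1))
    (hi : InjOn γ (Icc 0 1)) {t : ℝ} (ht : t ∈ Ioo (0 : ℝ) 1) :
    ¬ IsPreconnected (γ '' Icc 0 1 \ {γ t}) := by
  have ht' : t ∈ Icc (0 : ℝ) 1 := ⟨ht.1.le, ht.2.le⟩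
  rw [arc_diff hi ht', arc_isPreconnected hc hi sdiff_subset]
  intro h
  have h1 : (0 : ℝ) ∈ Icc (0 : ℝ) 1 \ {t} := ⟨⟨le_rfl, zero_le_one⟩, ht.1.ne⟩
  have h2 : (1 : ℝ) ∈ Icc (0 : ℝ) 1 \ {t} := ⟨⟨zero_le_one, le_rfl⟩, ht.2.ne'⟩
  exact (h.ordConnected.out h1 h2 ht').2 rfl

theorem arc_preconnected_left {γ : ℝ → Sph} (hc : ContinuousOn γ (Icc 0 1))
    (hi : InjOn γ (Icc 0 1)) : IsPreconnected (γ '' Icc 0 1 \ {γ 0}) := by
  have h0 : (0 : ℝ) ∈ Icc (0 : ℝ) 1 := ⟨le_rfl, zero_le_one⟩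
  rw [arc_diff hi h0, Icc_diff h0, Ico_self, empty_union]
  exact isPreconnected_Ioc.image _ (hc.mono Ioc_subset_Icc_self)

theorem arc_preconnected_right {γ : ℝ → Sph} (hc : ContinuousOn γ (Icc 0 1))
    (hi : InjOn γ (Icc 0 1)) : IsPreconnected (γ '' Icc 0 1 \ {γ 1}) := by
  have h0 : (1 : ℝ) ∈ Icc (0 : ℝ) 1 := ⟨zero_le_one, le_rfl⟩
  rw [arc_diff hi h0, Icc_diff h0, Ioc_self, union_empty]
  exact isPreconnected_Ico.image _ (hc.mono Ico_subset_Icc_self)

/-! ### Numbers of components -/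

theorem not_isBranch_of_two {T A B : Set Sph} {x : Sph} (hA : IsPreconnected A)
    (hB : IsPreconnected B) (h : T \ {x} = A ∪ B) : ¬ IsBranch T x := by
  rintro ⟨_, hcard⟩
  have h3 : ((3 : ℕ) : Cardinal) ≤ Cardinal.mk (ConnectedComponents ↥(T \ {x})) := by
    have : (((2 : ℕ) : Cardinal)) < Cardinal.mk (ConnectedComponents ↥(T \ {x})) := by
      exact_mod_cast hcard
    have h4 := Order.succ_le_of_lt this
    rwa [← Cardinal.nat_succ] at h4
  have h4 : Cardinal.mk (Fin 3) ≤ Cardinal.mk (ConnectedComponents ↥(T \ {x})) := by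
    rw [Cardinal.mk_fin]
    exact h3
  obtain ⟨f⟩ := Cardinal.le_def _ _ |>.1 h4
  -- choose representatives
  choose g hg using fun i : Fin 3 => ConnectedComponents.surjective_coe (f i)
  have hgi : ∀ i, ((g i : ↥(T \ {x})) : Sph) ∈ A ∪ B := fun i => by
    rw [← h]
    exact (g i).2
  have key : ∀ (S : Set Sph), IsPreconnected S → S ⊆ T \ {x} → ∀ i j, ((g i : ↥(T \ {x})) : Sph) ∈ S →
      ((g j : ↥(T \ {x})) : Sph) ∈ S → i = j := by
    intro S hS hST i j hi hj
    apply f.injective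
    rw [← hg i, ← hg j, ConnectedComponents.coe_eq_coe']
    have h5 : IsPreconnected ((↑) ⁻¹' S : Set ↥(T \ {x})) := by
      rw [← (IsInducing.subtypeVal).isPreconnected_image, Subtype.image_preimage_coe,
        inter_eq_right.2 hST]
      exact hS
    exact h5.subset_connectedComponent hj hi
  have hAT : A ⊆ T \ {x} := by rw [h]; exact subset_union_left
  have hBT : B ⊆ T \ {x} := by rw [h]; exact subset_union_right
  rcases hgi 0 with h0 | h0 <;> rcases hgi 1 with h1 | h1 <;> rcases hgi 2 with h2 | h2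
  · exact absurd (key A hA hAT 0 1 h0 h1) (by decide)
  · exact absurd (key A hA hAT 0 1 h0 h1) (by decide)
  · exact absurd (key A hA hAT 0 2 h0 h2) (by decide)
  · exact absurd (key B hB hBT 1 2 h1 h2) (by decide)
  · exact absurd (key A hA hAT 1 2 h1 h2) (by decide)
  · exact absurd (key B hB hBT 0 2 h0 h2) (by decide)
  · exact absurd (key B hB hBT 0 1 h0 h1) (by decide)
  · exact absurd (key B hB hBT 0 1 h0 h1) (by decide)

theorem isBranch_of_three {T : Set Sph} {x : Sph} (hx : x ∈ T) (U : Fin 3 → Set Sph)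
    (hU : ∀ i, IsOpen (U i)) (hcov : T \ {x} ⊆ ⋃ i, U i)
    (hdis : ∀ i j, i ≠ j → ∀ y ∈ T \ {x}, y ∈ U i → y ∉ U j)
    (hne : ∀ i, ((T \ {x}) ∩ U i).Nonempty) : IsBranch T x := by
  refine ⟨hx, ?_⟩
  choose g hg using hne
  have hinj : Function.Injective
      (fun i : Fin 3 => ((⟨g i, (hg i).1⟩ : ↥(T \ {x})) : ConnectedComponents ↥(T \ {x}))) := by
    intro i j hij
    by_contra hne
    simp only at hij
    rw [ConnectedComponents.coe_eq_coe'] at hij
    -- the trace of `U j` is clopen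
    have hclopen : IsClopen ((↑) ⁻¹' U j : Set ↥(T \ {x})) := by
      constructor
      · rw [← isOpen_compl_iff]
        have : ((↑) ⁻¹' U j : Set ↥(T \ {x}))ᶜ = ⋃ k ∈ ({k | k ≠ j} : Set (Fin 3)),
            ((↑) ⁻¹' U k : Set ↥(T \ {x})) := by
          ext y
          simp only [mem_compl_iff, mem_preimage, mem_iUnion, exists_prop]
          constructor
          · intro hy
            obtain ⟨k, hk⟩ := mem_iUnion.1 (hcov y.2)
            refine ⟨k, ?_, hk⟩
            intro hkj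
            rw [hkj] at hk
            exact hy hk
          · rintro ⟨k, hkj, hk⟩
            exact hdis k j hkj y y.2 hk
        rw [this]
        exact isOpen_biUnion fun k _ => (hU k).preimage continuous_subtype_val
      · exact (hU j).preimage continuous_subtype_val
    have h1 := hclopen.connectedComponent_subset (x := ⟨g j, (hg j).1⟩) (hg j).2 hij
    exact hdis i j hne (g i) (hg i).1 (hg i).2 h1
  have h3 : Cardinal.mk (Fin 3) ≤ Cardinal.mk (ConnectedComponents ↥(T \ {x})) :=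
    Cardinal.mk_le_of_injective hinj
  rw [Cardinal.mk_fin] at h3
  refine lt_of_lt_of_le ?_ h3
  exact_mod_cast (by norm_num : (2 : ℕ) < 3)

/-! ### Arcs as spanning trees -/

theorem arc_isTree {γ : ℝ → Sph} (hc : ContinuousOn γ (Icc 0 1)) (hi : InjOn γ (Icc 0 1)) :
    IsTree (γ '' Icc 0 1) := by
  have h0 : (0 : ℝ) ∈ Icc (0 : ℝ) 1 := ⟨le_rfl, zero_le_one⟩
  have h := IsTree.attach {γ 0} γ (IsTree.point _) hc hi rfl (fun t ht h => by
    have := hi (Ioc_subset_Icc_self ht) h0 h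
    exact ht.1.ne' this)
  rwa [singleton_union, insert_eq_of_mem (mem_image_of_mem γ h0)] at h

theorem arc_isSpanning {P : Set Sph} {γ : ℝ → Sph} (hc : ContinuousOn γ (Icc 0 1))
    (hi : InjOn γ (Icc 0 1)) (hP : P ⊆ γ '' Icc 0 1) (h0 : γ 0 ∈ P) (h1 : γ 1 ∈ P) :
    IsSpanning P (γ '' Icc 0 1) := by
  refine ⟨arc_isTree hc hi, hP, ?_⟩
  rintro x ⟨⟨t, ht, rfl⟩, hpre⟩
  by_cases ht0 : t = 0
  · rw [ht0]; exact h0
  by_cases ht1 : t = 1
  · rw [ht1]; exact h1
  exact absurd hpre (arc_not_preconnected hc hi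
    ⟨lt_of_le_of_ne ht.1 (Ne.symm ht0), lt_of_le_of_ne ht.2 ht1⟩)

theorem arc_not_isBranch {γ : ℝ → Sph} (hc : ContinuousOn γ (Icc 0 1))
    (hi : InjOn γ (Icc 0 1)) (x : Sph) : ¬ IsBranch (γ '' Icc 0 1) x := by
  by_cases hx : x ∈ γ '' Icc 0 1
  · obtain ⟨t, ht, rfl⟩ := hx
    refine not_isBranch_of_two (A := γ '' Ico 0 t) (B := γ '' Ioc t 1) ?_ ?_ ?_
    · exact isPreconnected_Ico.image _ (hc.mono fun s hs => ⟨hs.1, hs.2.le.trans ht.2⟩)
    · exact isPreconnected_Ioc.image _ (hc.mono fun s hs => ⟨ht.1.trans hs.1.le, hs.2⟩)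
    · rw [arc_diff hi ht, Icc_diff ht, image_union]
  · exact fun h => hx h.1

/-! ### Homeomorphic images -/

theorem IsTree.image_homeo (φ : Sph ≃ₜ Sph) {T : Set Sph} (hT : IsTree T) : IsTree (φ '' T) := by
  induction hT with
  | point x => rw [image_singleton]; exact IsTree.point _
  | attach T γ hT hc hi h0 h1 ih =>
    rw [image_union, ← image_comp]
    refine IsTree.attach (φ '' T) (φ ∘ γ) ih (φ.continuous.comp_continuousOn hc) ?_ ?_ ?_
    · exact fun s hs t ht h => hi hs ht (φ.injective h)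
    · exact mem_image_of_mem φ h0
    · rintro t ht ⟨y, hy, hyt⟩
      have : y = γ t := φ.injective hyt
      exact h1 t ht (this ▸ hy)

theorem image_diff_homeo (φ : Sph ≃ₜ Sph) (T : Set Sph) (x : Sph) :
    φ '' T \ {φ x} = φ '' (T \ {x}) := by
  rw [image_sdiff φ.injective, image_singleton]

theorem isEndpoint_image (φ : Sph ≃ₜ Sph) (T : Set Sph) (x : Sph) :
    IsEndpoint (φ '' T) (φ x) ↔ IsEndpoint T x := by
  unfold IsEndpoint
  rw [image_diff_homeo, φ.isPreconnected_image, φ.injective.mem_set_image]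

theorem isBranch_image_imp (φ : Sph ≃ₜ Sph) (T : Set Sph) (x : Sph)
    (h : IsBranch (φ '' T) (φ x)) : IsBranch T x := by
  obtain ⟨h1, h2⟩ := h
  refine ⟨(φ.injective.mem_set_image).1 h1, lt_of_lt_of_le h2 ?_⟩
  rw [image_diff_homeo]
  -- a surjection of the component spaces
  let e : ↥(T \ {x}) ≃ₜ ↥(φ '' (T \ {x})) := φ.image (T \ {x})
  refine Cardinal.mk_le_of_surjective (f := e.continuous.connectedComponentsMap) ?_
  intro y
  obtain ⟨z, rfl⟩ := ConnectedComponents.surjective_coe y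
  refine ⟨((e.symm z : ↥(T \ {x})) : ConnectedComponents ↥(T \ {x})), ?_⟩
  have := Continuous.connectedComponentsMap_mk (f := e) e.continuous (e.symm z)
  rw [this, e.apply_symm_apply]

theorem IsSpanning.image_homeo {P T : Set Sph} (φ : Sph ≃ₜ Sph) (hφ : ∀ x ∈ P, φ x = x)
    (hT : IsSpanning P T) : IsSpanning P (φ '' T) := by
  obtain ⟨h1, h2, h3⟩ := hT
  refine ⟨h1.image_homeo φ, fun x hx => ⟨x, h2 hx, hφ x hx⟩, fun y hy => ?_⟩
  obtain ⟨x, rfl⟩ := φ.surjective y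
  have := h3 x ((isEndpoint_image φ T x).1 hy)
  rw [hφ x this]
  exact this

/-- Being an endpoint is an invariant of isotopies. -/
theorem Isotopic.isEndpoint_iff {P T T' : Set Sph} (h : Isotopic P T T') {x : Sph} (hx : x ∈ P) :
    IsEndpoint T x ↔ IsEndpoint T' x := by
  obtain ⟨H, _, hh, _, hP, hT⟩ := h
  let φ : Sph ≃ₜ Sph := (hh 1).homeomorph
  have hφx : φ x = x := hP 1 x hx
  have hφT : φ '' T = T' := hT
  have := isEndpoint_image φ T x
  rw [hφx, hφT] at this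
  exact this.symm

end Q75.Ivy
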