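import Pool.Agent.Q75.IvyCheb

/-!
# The tripod: endpoints and branch points, and the isotopy
-/

set_option autoImplicit false

open Set Topology Filter

namespace Q75.Ivy

noncomputable section

theorem ga_half : ga (1 / 2) = ((0 : ℂ) : Sph) := by
  unfold ga; norm_num

theorem gd_zero : gd 0 = ((0 : ℂ) : Sph) := by
  rw [gd_ne (by norm_num)]; norm_num

theorem ga_zero : ga 0 = ((-2 : ℂ) : Sph) := by
  unfold ga; norm_num

theorem ga_one : ga 1 = ((2 : ℂ) : Sph) := by
  unfold ga; norm_num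

/-- the segment and the ray meet at the origin only -/
theorem ga_eq_gd {s t : ℝ} (h : ga s = gd t) : s = 1 / 2 ∧ t = 0 := by
  by_cases ht : t = 1
  · rw [ht, gd_one] at h
    exact absurd h (OnePoint.coe_ne_infty _)
  · rw [gd_ne ht] at h
    have h1 : ((4 * s - 2 : ℝ) : ℂ) = (((t / (1 - t) : ℝ) : ℂ) * Complex.I : ℂ) :=
      OnePoint.coe_injective h
    have h2 := congrArg Complex.re h1
    have h3 := congrArg Complex.im h1
    simp only [Complex.ofReal_re, Complex.mul_I_re, Complex.ofReal_im, neg_zero] at h2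
    simp only [Complex.ofReal_im, Complex.mul_I_im, Complex.ofReal_re] at h3
    refine ⟨by linarith, ?_⟩
    have ht' : 1 - t ≠ 0 := sub_ne_zero.2 (Ne.symm ht)
    have := h3.symm
    rw [div_eq_zero_iff] at this
    rcases this with h | h
    · exact h
    · exact absurd h ht'

theorem T3_isTree : IsTree T3 := by
  refine IsTree.attach (ga '' Icc 0 1) gd (arc_isTree ga_cont.continuousOn ga_inj.injOn)
    gd_cont.continuousOn gd_inj.injOn ?_ ?_
  · rw [gd_zero, ← ga_half]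
    exact ⟨1 / 2, ⟨by norm_num, by norm_num⟩, rfl⟩
  · rintro t ht ⟨s, _, hst⟩
    exact ht.1.ne' (ga_eq_gd hst).2

theorem P2_subset_T3 : P2 ⊆ T3 := by
  rintro x (rfl | rfl | rfl)
  · left; exact ⟨0, ⟨le_rfl, zero_le_one⟩, ga_zero⟩
  · left; exact ⟨1, ⟨zero_le_one, le_rfl⟩, ga_one⟩
  · right; exact ⟨1, ⟨zero_le_one, le_rfl⟩, gd_one⟩

/-! open sets of the sphere -/

theorem isOpen_coe {s : Set ℂ} (hs : IsOpen s) : IsOpen ((↑) '' s : Set Sph) :=
  OnePoint.isOpenEmbedding_coe.isOpenMap _ hs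

theorem isOpen_compl_coe {s : Set ℂ} (hs : IsCompact s) : IsOpen ((↑) '' s : Set Sph)ᶜ :=
  (hs.image OnePoint.continuous_coe).isClosed.isOpen_compl

/-- the closed real segment `[a, b]` -/
def seg (a b : ℝ) : Set ℂ := Complex.ofReal '' Icc a b

theorem seg_compact (a b : ℝ) : IsCompact (seg a b) :=
  isCompact_Icc.image Complex.continuous_ofReal

/-- Removing a point from the interior of the segment disconnects the tripod. -/
theorem T3_cut_seg {u : ℝ} (hu : u ∈ Ioo (-2 : ℝ) 2) : ¬ IsPreconnected (T3 \ {((u : ℂ) : Sph)}) := by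
  intro h
  rcases le_total u 0 with h0 | h0
  · -- the left part
    have := h ((↑) '' {z : ℂ | z.re < u}) ((↑) '' seg (-2) u)ᶜ
      (isOpen_coe (isOpen_lt Complex.continuous_re continuous_const))
      (isOpen_compl_coe (seg_compact _ _)) ?_ ?_ ?_
    · obtain ⟨x, ⟨hxT, hxu⟩, ⟨z, hz, rfl⟩, hx2⟩ := this
      have hz : z.re < u := hz
      rcases (mem_T3_iff _).1 hxT with ⟨w, hw1, hw2, hw⟩ | hw | ⟨v, hv, hw⟩
      · have e := OnePoint.coe_injective hw
        apply hx2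
        refine ⟨z, ⟨w, ⟨hw1, ?_⟩, e.symm⟩, rfl⟩
        rw [e, Complex.ofReal_re] at hz
        exact hz.le
      · exact OnePoint.coe_ne_infty _ hw
      · have e := OnePoint.coe_injective hw
        rw [e] at hz
        simp only [Complex.mul_I_re, Complex.ofReal_im, neg_zero] at hz
        linarith
    · rintro x ⟨hxT, hxu⟩
      rcases (mem_T3_iff _).1 hxT with ⟨w, hw1, hw2, rfl⟩ | rfl | ⟨v, hv, rfl⟩
      · rcases lt_trichotomy w u with hwu | hwu | hwu
        · left; exact ⟨_, by simpa using hwu, rfl⟩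
        · exact absurd (by rw [hwu]; rfl) hxu
        · right
          rintro ⟨z, ⟨w', hw', rfl⟩, hz⟩
          have e := OnePoint.coe_injective hz
          have e2 : w' = w := by exact_mod_cast e
          rw [e2] at hw'
          linarith [hw'.2]
      · right
        rintro ⟨z, _, hz⟩
        exact OnePoint.coe_ne_infty _ hz
      · right
        rintro ⟨z, ⟨w', hw', rfl⟩, hz⟩
        have e := OnePoint.coe_injective hz
        have e1 := congrArg Complex.re e
        have e2 := congrArg Complex.im e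
        simp only [Complex.ofReal_re, Complex.mul_I_re, Complex.ofReal_im, neg_zero] at e1
        simp only [Complex.ofReal_im, Complex.mul_I_im, Complex.ofReal_re] at e2
        have hu0 : u = 0 := le_antisymm h0 (by rw [← e1]; exact hw'.2)
        apply hxu
        rw [← e2, hu0]
        simp
    · refine ⟨((-2 : ℝ) : ℂ), ⟨⟨(mem_T3_iff _).2 (Or.inl ⟨-2, le_rfl, by norm_num, rfl⟩), ?_⟩,
        ⟨_, ?_, rfl⟩⟩⟩
      · intro h
        have e : ((-2 : ℝ) : ℂ) = (u : ℂ) := OnePoint.coe_injective h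
        have e2 : (-2 : ℝ) = u := by exact_mod_cast e
        exact hu.1.ne e2
      · show ((-2 : ℝ) : ℂ).re < u
        rw [Complex.ofReal_re]; exact hu.1
    · refine ⟨OnePoint.infty, ⟨⟨(mem_T3_iff _).2 (Or.inr (Or.inl rfl)), ?_⟩, ?_⟩⟩
      · exact OnePoint.infty_ne_coe _
      · rintro ⟨z, _, hz⟩
        exact OnePoint.coe_ne_infty _ hz
  · -- the right part
    have := h ((↑) '' {z : ℂ | u < z.re}) ((↑) '' seg u 2)ᶜ
      (isOpen_coe (isOpen_lt continuous_const Complex.continuous_re))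
      (isOpen_compl_coe (seg_compact _ _)) ?_ ?_ ?_
    · obtain ⟨x, ⟨hxT, hxu⟩, ⟨z, hz, rfl⟩, hx2⟩ := this
      have hz : u < z.re := hz
      rcases (mem_T3_iff _).1 hxT with ⟨w, hw1, hw2, hw⟩ | hw | ⟨v, hv, hw⟩
      · have e := OnePoint.coe_injective hw
        apply hx2
        refine ⟨z, ⟨w, ⟨?_, hw2⟩, e.symm⟩, rfl⟩
        rw [e, Complex.ofReal_re] at hz
        exact hz.le
      · exact OnePoint.coe_ne_infty _ hw
      · have e := OnePoint.coe_injective hw
        rw [e] at hz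
        simp only [Complex.mul_I_re, Complex.ofReal_im, neg_zero] at hz
        linarith
    · rintro x ⟨hxT, hxu⟩
      rcases (mem_T3_iff _).1 hxT with ⟨w, hw1, hw2, rfl⟩ | rfl | ⟨v, hv, rfl⟩
      · rcases lt_trichotomy u w with hwu | hwu | hwu
        · left; exact ⟨_, by simpa using hwu, rfl⟩
        · exact absurd (by rw [hwu]; rfl) hxu
        · right
          rintro ⟨z, ⟨w', hw', rfl⟩, hz⟩
          have e := OnePoint.coe_injective hz
          have e2 : w' = w := by exact_mod_cast e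
          rw [e2] at hw'
          linarith [hw'.1]
      · right
        rintro ⟨z, _, hz⟩
        exact OnePoint.coe_ne_infty _ hz
      · right
        rintro ⟨z, ⟨w', hw', rfl⟩, hz⟩
        have e := OnePoint.coe_injective hz
        have e1 := congrArg Complex.re e
        have e2 := congrArg Complex.im e
        simp only [Complex.ofReal_re, Complex.mul_I_re, Complex.ofReal_im, neg_zero] at e1
        simp only [Complex.ofReal_im, Complex.mul_I_im, Complex.ofReal_re] at e2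
        have hu0 : u = 0 := le_antisymm (by rw [← e1]; exact hw'.1) h0
        apply hxu
        rw [← e2, hu0]
        simp
    · refine ⟨((2 : ℝ) : ℂ), ⟨⟨(mem_T3_iff _).2 (Or.inl ⟨2, by norm_num, le_rfl, rfl⟩), ?_⟩,
        ⟨_, ?_, rfl⟩⟩⟩
      · intro h
        have e : ((2 : ℝ) : ℂ) = (u : ℂ) := OnePoint.coe_injective h
        have e2 : (2 : ℝ) = u := by exact_mod_cast e
        exact hu.2.ne' e2
      · show u < ((2 : ℝ) : ℂ).re
        rw [Complex.ofReal_re]; exact hu.2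
    · refine ⟨OnePoint.infty, ⟨⟨(mem_T3_iff _).2 (Or.inr (Or.inl rfl)), ?_⟩, ?_⟩⟩
      · exact OnePoint.infty_ne_coe _
      · rintro ⟨z, _, hz⟩
        exact OnePoint.coe_ne_infty _ hz

/-- the box `|re| ≤ 2`, `0 ≤ im ≤ v` -/
def box (v : ℝ) : Set ℂ := {z : ℂ | z.re ∈ Icc (-2 : ℝ) 2 ∧ z.im ∈ Icc (0 : ℝ) v}

theorem box_compact (v : ℝ) : IsCompact (box v) := by
  have : box v = Icc (-2 : ℝ) 2 ×ℂ Icc (0 : ℝ) v := rfl
  rw [this]
  exact isCompact_Icc.reProdIm isCompact_Icc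

/-- Removing a point from the interior of the ray disconnects the tripod. -/
theorem T3_cut_ray {v : ℝ} (hv : 0 < v) :
    ¬ IsPreconnected (T3 \ {(((v : ℂ) * Complex.I : ℂ) : Sph)}) := by
  intro h
  have := h ((↑) '' {z : ℂ | z.im < v}) ((↑) '' box v)ᶜ
    (isOpen_coe (isOpen_lt Complex.continuous_im continuous_const))
    (isOpen_compl_coe (box_compact _)) ?_ ?_ ?_
  · obtain ⟨x, ⟨hxT, hxu⟩, ⟨z, hz, rfl⟩, hx2⟩ := this
    have hz : z.im < v := hz
    rcases (mem_T3_iff _).1 hxT with ⟨w, hw1, hw2, hw⟩ | hw | ⟨w, hw1, hw⟩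
    · have e := OnePoint.coe_injective hw
      apply hx2
      refine ⟨z, ⟨?_, ?_⟩, rfl⟩
      · rw [e, Complex.ofReal_re]; exact ⟨hw1, hw2⟩
      · rw [e, Complex.ofReal_im]; exact ⟨le_rfl, hv.le⟩
    · exact OnePoint.coe_ne_infty _ hw
    · have e := OnePoint.coe_injective hw
      apply hx2
      refine ⟨z, ⟨?_, ?_⟩, rfl⟩
      · rw [e]
        simp
      · rw [e] at hz ⊢
        simp only [Complex.mul_I_im, Complex.ofReal_re] at hz ⊢
        exact ⟨hw1, hz.le⟩
  · rintro x ⟨hxT, hxu⟩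
    rcases (mem_T3_iff _).1 hxT with ⟨w, hw1, hw2, rfl⟩ | rfl | ⟨w, hw, rfl⟩
    · left
      refine ⟨_, ?_, rfl⟩
      show (w : ℂ).im < v
      rw [Complex.ofReal_im]; exact hv
    · right
      rintro ⟨z, _, hz⟩
      exact OnePoint.coe_ne_infty _ hz
    · rcases lt_trichotomy w v with hwv | hwv | hwv
      · left
        refine ⟨_, ?_, rfl⟩
        show ((w : ℂ) * Complex.I).im < v
        simpa using hwv
      · exact absurd (by rw [hwv]; rfl) hxu
      · right
        rintro ⟨z, ⟨_, hz2⟩, hz⟩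
        have e := OnePoint.coe_injective hz
        rw [e] at hz2
        simp only [Complex.mul_I_im, Complex.ofReal_re] at hz2
        linarith [hz2.2]
  · refine ⟨((0 : ℝ) : ℂ), ⟨⟨(mem_T3_iff _).2 (Or.inl ⟨0, by norm_num, by norm_num, rfl⟩), ?_⟩,
      ⟨_, ?_, rfl⟩⟩⟩
    · intro h
      have e : ((0 : ℝ) : ℂ) = ((v : ℂ) * Complex.I) := OnePoint.coe_injective h
      have e2 := congrArg Complex.im e
      simp only [Complex.ofReal_im, Complex.mul_I_im, Complex.ofReal_re] at e2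
      linarith
    · show ((0 : ℝ) : ℂ).im < v
      rw [Complex.ofReal_im]; exact hv
  · refine ⟨OnePoint.infty, ⟨⟨(mem_T3_iff _).2 (Or.inr (Or.inl rfl)), ?_⟩, ?_⟩⟩
    · exact OnePoint.infty_ne_coe _
    · rintro ⟨z, _, hz⟩
      exact OnePoint.coe_ne_infty _ hz

theorem T3_endpoint {x : Sph} (h : IsEndpoint T3 x) : x ∈ P2 := by
  obtain ⟨hxT, hpre⟩ := h
  rcases (mem_T3_iff _).1 hxT with ⟨w, hw1, hw2, rfl⟩ | rfl | ⟨v, hv, rfl⟩
  · by_cases h1 : w = -2
    · left; rw [h1]; norm_num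
    · by_cases h2 : w = 2
      · right; left; rw [h2]; norm_num
      · exact absurd hpre (T3_cut_seg ⟨lt_of_le_of_ne hw1 (Ne.symm h1), lt_of_le_of_ne hw2 h2⟩)
  · exact mem_P2_inf
  · rcases hv.eq_or_lt with h0 | h0
    · have e : (((v : ℂ) * Complex.I : ℂ) : Sph) = (((0 : ℝ) : ℂ) : Sph) := by
        rw [← h0]; simp
      rw [e] at hpre
      exact absurd hpre (T3_cut_seg ⟨by norm_num, by norm_num⟩)
    · exact absurd hpre (T3_cut_ray h0)

theorem T3_isSpanning : IsSpanning P2 T3 := ⟨T3_isTree, P2_subset_T3, fun _ h => T3_endpoint h⟩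

/-! ### Branch points -/

theorem T3_diff_ga {s : ℝ} (hs : s ∈ Icc (0 : ℝ) 1) (hs2 : s ≠ 1 / 2) :
    T3 \ {ga s} = ga '' Ico 0 s ∪ (ga '' Ioc s 1 ∪ gd '' Icc 0 1) := by
  unfold T3
  rw [union_sdiff_distrib, arc_diff ga_inj.injOn hs, Icc_diff hs, image_union, union_assoc]
  congr 2
  ext x
  constructor
  · exact fun h => h.1
  · rintro ⟨t, ht, rfl⟩
    exact ⟨⟨t, ht, rfl⟩, fun h => hs2 (ga_eq_gd (h : gd t = ga s).symm).1⟩

theorem T3_diff_gd {s : ℝ} (hs : s ∈ Ioc (0 : ℝ) 1) :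
    T3 \ {gd s} = (ga '' Icc 0 1 ∪ gd '' Ico 0 s) ∪ gd '' Ioc s 1 := by
  have hs' : s ∈ Icc (0 : ℝ) 1 := ⟨hs.1.le, hs.2⟩
  unfold T3
  rw [union_sdiff_distrib, arc_diff gd_inj.injOn hs', Icc_diff hs', image_union, union_assoc]
  congr 1
  ext x
  constructor
  · exact fun h => h.1
  · rintro ⟨t, ht, rfl⟩
    exact ⟨⟨t, ht, rfl⟩, fun h => hs.1.ne' (ga_eq_gd (h : ga t = gd s)).2⟩

theorem T3_branch {x : Sph} (h : IsBranch T3 x) : x = ((0 : ℂ) : Sph) := by
  by_contra hx0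
  obtain ⟨hxT, -⟩ := id h
  rcases hxT with ⟨s, hs, rfl⟩ | ⟨s, hs, rfl⟩
  · have hs2 : s ≠ 1 / 2 := by
      intro hh
      rw [hh, ga_half] at hx0
      exact hx0 rfl
    rcases lt_or_gt_of_ne hs2 with h1 | h1
    · refine not_isBranch_of_two (A := ga '' Ico 0 s) (B := ga '' Ioc s 1 ∪ gd '' Icc 0 1)
        (isPreconnected_Ico.image _ ga_cont.continuousOn) ?_ (T3_diff_ga hs hs2) h
      refine IsPreconnected.union ((0 : ℂ) : Sph) ⟨1 / 2, ⟨h1, by norm_num⟩, ga_half⟩
        ⟨0, ⟨le_rfl, zero_le_one⟩, gd_zero⟩ (isPreconnected_Ioc.image _ ga_cont.continuousOn)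
        (isPreconnected_Icc.image _ gd_cont.continuousOn)
    · refine not_isBranch_of_two (A := ga '' Ioc s 1) (B := ga '' Ico 0 s ∪ gd '' Icc 0 1)
        (isPreconnected_Ioc.image _ ga_cont.continuousOn) ?_ ?_ h
      · refine IsPreconnected.union ((0 : ℂ) : Sph) ⟨1 / 2, ⟨by norm_num, h1⟩, ga_half⟩
          ⟨0, ⟨le_rfl, zero_le_one⟩, gd_zero⟩ (isPreconnected_Ico.image _ ga_cont.continuousOn)
          (isPreconnected_Icc.image _ gd_cont.continuousOn)
      · rw [T3_diff_ga hs hs2]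
        ext y
        simp only [mem_union]
        tauto
  · have hs0 : s ≠ 0 := by
      intro hh
      rw [hh, gd_zero] at hx0
      exact hx0 rfl
    have hs' : s ∈ Ioc (0 : ℝ) 1 := ⟨lt_of_le_of_ne hs.1 (Ne.symm hs0), hs.2⟩
    refine not_isBranch_of_two (A := ga '' Icc 0 1 ∪ gd '' Ico 0 s) (B := gd '' Ioc s 1)
      ?_ (isPreconnected_Ioc.image _ gd_cont.continuousOn) (T3_diff_gd hs') h
    exact IsPreconnected.union ((0 : ℂ) : Sph) ⟨1 / 2, ⟨by norm_num, by norm_num⟩, ga_half⟩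
      ⟨0, ⟨le_rfl, hs'.1⟩, gd_zero⟩ (isPreconnected_Icc.image _ ga_cont.continuousOn)
      (isPreconnected_Ico.image _ gd_cont.continuousOn)

theorem T3_branch_zero : IsBranch T3 ((0 : ℂ) : Sph) := by
  have h0 : ((0 : ℂ) : Sph) ∈ T3 := Or.inl ⟨1 / 2, ⟨by norm_num, by norm_num⟩, ga_half⟩
  refine isBranch_of_three h0 ![(↑) '' {z : ℂ | z.re < 0}, (↑) '' {z : ℂ | 0 < z.re},
    ((↑) '' seg (-2) 2)ᶜ] ?_ ?_ ?_ ?_
  · intro i
    fin_cases i
    · exact isOpen_coe (isOpen_lt Complex.continuous_re continuous_const)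
    · exact isOpen_coe (isOpen_lt continuous_const Complex.continuous_re)
    · exact isOpen_compl_coe (seg_compact _ _)
  · rintro x ⟨hxT, hx0⟩
    rw [mem_iUnion]
    rcases (mem_T3_iff _).1 hxT with ⟨w, hw1, hw2, rfl⟩ | rfl | ⟨v, hv, rfl⟩
    · rcases lt_trichotomy w 0 with h | h | h
      · exact ⟨0, ⟨_, by simpa using h, rfl⟩⟩
      · exact absurd (by rw [h]; simp) hx0
      · exact ⟨1, ⟨_, by simpa using h, rfl⟩⟩
    · refine ⟨2, ?_⟩
      rintro ⟨z, _, hz⟩
      exact OnePoint.coe_ne_infty _ hz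
    · refine ⟨2, ?_⟩
      rintro ⟨z, ⟨w, _, rfl⟩, hz⟩
      have e := OnePoint.coe_injective hz
      have e2 := congrArg Complex.im e
      simp only [Complex.ofReal_im, Complex.mul_I_im, Complex.ofReal_re] at e2
      apply hx0
      rw [← e2]
      simp
  · have key : ∀ y ∈ T3 \ {((0 : ℂ) : Sph)}, ∀ z : ℂ, y = (z : Sph) → z.re ≠ 0 →
        y ∈ ((↑) '' seg (-2) 2 : Set Sph) := by
      rintro y ⟨hyT, hy0⟩ z rfl hz
      rcases (mem_T3_iff _).1 hyT with ⟨w, hw1, hw2, hw⟩ | hw | ⟨v, hv, hw⟩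
      · have e := OnePoint.coe_injective hw
        exact ⟨z, ⟨w, ⟨hw1, hw2⟩, e.symm⟩, rfl⟩
      · exact absurd hw (OnePoint.coe_ne_infty _)
      · have e := OnePoint.coe_injective hw
        rw [e] at hz
        simp at hz
    intro i j hij y hy
    fin_cases i <;> fin_cases j
    · exact absurd rfl hij
    · rintro ⟨z, hz, rfl⟩ ⟨w, hw, hwz⟩
      have e := OnePoint.coe_injective hwz
      rw [e] at hw
      exact lt_asymm (show z.re < 0 from hz) hw
    · rintro ⟨z, hz, rfl⟩ h2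
      exact h2 (key _ hy z rfl (ne_of_lt hz))
    · rintro ⟨z, hz, rfl⟩ ⟨w, hw, hwz⟩
      have e := OnePoint.coe_injective hwz
      rw [e] at hw
      exact lt_asymm (show 0 < z.re from hz) hw
    · exact absurd rfl hij
    · rintro ⟨z, hz, rfl⟩ h2
      exact h2 (key _ hy z rfl (ne_of_gt hz))
    · rintro h2 ⟨z, hz, rfl⟩
      exact h2 (key _ hy z rfl (ne_of_lt hz))
    · rintro h2 ⟨z, hz, rfl⟩
      exact h2 (key _ hy z rfl (ne_of_gt hz))
    · exact absurd rfl hij
  · intro i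
    fin_cases i
    · refine ⟨((-1 : ℝ) : ℂ), ⟨⟨(mem_T3_iff _).2 (Or.inl ⟨-1, by norm_num, by norm_num, rfl⟩), ?_⟩,
        ⟨_, ?_, rfl⟩⟩⟩
      · intro h
        have e : ((-1 : ℝ) : ℂ) = 0 := OnePoint.coe_injective h
        norm_num at e
      · show ((-1 : ℝ) : ℂ).re < 0
        rw [Complex.ofReal_re]; norm_num
    · refine ⟨((1 : ℝ) : ℂ), ⟨⟨(mem_T3_iff _).2 (Or.inl ⟨1, by norm_num, by norm_num, rfl⟩), ?_⟩,
        ⟨_, ?_, rfl⟩⟩⟩
      · intro h
        have e : ((1 : ℝ) : ℂ) = 0 := OnePoint.coe_injective h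
        norm_num at e
      · show 0 < ((1 : ℝ) : ℂ).re
        rw [Complex.ofReal_re]; norm_num
    · refine ⟨OnePoint.infty, ⟨⟨(mem_T3_iff _).2 (Or.inr (Or.inl rfl)), ?_⟩, ?_⟩⟩
      · exact OnePoint.infty_ne_coe _
      · rintro ⟨z, _, hz⟩
        exact OnePoint.coe_ne_infty _ hz

end

end Q75.Ivy
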