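import Pool.Agent.TH229.Kan.Local

/-!
# Escape of a whole line of the fibre plane for the Kan skew product
-/

set_option autoImplicit false

namespace Q75.Kan

open Complex Filter Topology MeasureTheory Pool.Agent.TH229.Kan

/-- one step in the rescaled coordinate `w = α c z` -/
lemma w_step (L : ℕ) (α z : ℂ) (u : ℝ) (j : ℕ) (hc : cr L j u ≠ 0) :
    α * cr L (j + 1) u * Phi L α z (j + 1) u =
      ((cr L (j + 1) u / cr L j u : ℝ) : ℂ) * (α * cr L j u * Phi L α z j u) *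
        (1 + α * cr L j u - α * cr L j u * Phi L α z j u) := by
  rw [Phi_succ_real']
  push_cast
  have : (cr L j u : ℂ) ≠ 0 := by exact_mod_cast hc
  field_simp
  ring

/-- the rescaled orbit -/
noncomputable def W (L : ℕ) (α z : ℂ) (u : ℝ) (j : ℕ) : ℂ := α * cr L j u * Phi L α z j u

lemma W_step_norm (L : ℕ) (α z : ℂ) (u : ℝ) (j : ℕ) (hc : cr L j u ≠ 0) :
    ‖W L α z u (j + 1)‖ = |cr L (j + 1) u / cr L j u| * ‖W L α z u j‖ *
      ‖1 + α * cr L j u - W L α z u j‖ := by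
  unfold W
  rw [w_step L α z u j hc, norm_mul, norm_mul, Complex.norm_real, Real.norm_eq_abs]

/-- general lower bound for one step -/
lemma W_step_lower {L : ℕ} {α z : ℂ} {u : ℝ} {j : ℕ} (hc : cr L j u ≠ 0) {r δ A : ℝ}
    (_hr0 : 0 ≤ r) (hr : r ≤ |cr L (j + 1) u / cr L j u|) (hδ : ‖α * cr L j u‖ ≤ δ)
    (hA : 1 + δ ≤ A) (hW : A ≤ ‖W L α z u j‖) :
    r * A * (A - 1 - δ) ≤ ‖W L α z u (j + 1)‖ := by
  rw [W_step_norm L α z u j hc]
  have h1 : ‖W L α z u j‖ - 1 - δ ≤ ‖1 + α * cr L j u - W L α z u j‖ := by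
    have h2 := norm_sub_norm_le (W L α z u j) (1 + α * cr L j u)
    have h3 : ‖(1 : ℂ) + α * cr L j u‖ ≤ 1 + δ := by
      refine (norm_add_le _ _).trans ?_
      rw [norm_one]
      linarith
    rw [norm_sub_rev] at h2
    linarith
  have h0 : 0 ≤ δ := (norm_nonneg _).trans hδ
  have hA0 : 0 ≤ A := by linarith
  calc r * A * (A - 1 - δ) ≤ |cr L (j + 1) u / cr L j u| * ‖W L α z u j‖ * (A - 1 - δ) := by
        apply mul_le_mul_of_nonneg_right _ (by linarith)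
        exact mul_le_mul hr hW hA0 (abs_nonneg _)
    _ ≤ _ := mul_le_mul_of_nonneg_left (by linarith) (by positivity)

/-- tripling phase -/
lemma W_triple {L : ℕ} {α z : ℂ} {u : ℝ} {p n : ℕ} (hα : ‖α‖ ≤ 1)
    (hc : ∀ j, p ≤ j → j < n → cr L j u ≠ 0 ∧ 1 / 2 ≤ |cr L (j + 1) u / cr L j u|)
    (hW : 8 ≤ ‖W L α z u p‖) (k : ℕ) (hk : p + k ≤ n) : 8 * 3 ^ k ≤ ‖W L α z u (p + k)‖ := by
  induction k with
  | zero => simpa using hW
  | succ k ih =>
    have h1 := ih (by omega)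
    obtain ⟨h2, h3⟩ := hc (p + k) (by omega) (by omega)
    have h4 : ‖α * cr L (p + k) u‖ ≤ 1 := by
      rw [norm_mul, Complex.norm_real, Real.norm_eq_abs]
      exact mul_le_one₀ hα (abs_nonneg _) (cr_abs_le _ _ _)
    have h5 : (1 : ℝ) ≤ 3 ^ k := one_le_pow₀ (by norm_num)
    have h6 := W_step_lower h2 (by norm_num) h3 h4 (A := 8 * 3 ^ k) (by linarith) h1
    rw [← add_assoc]
    refine le_trans ?_ h6
    rw [pow_succ]
    nlinarith

lemma norm_Phi_ge_W {L : ℕ} {α z : ℂ} {u : ℝ} (n : ℕ) (hα : ‖α‖ ≤ 1) :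
    ‖W L α z u n‖ ≤ ‖Phi L α z n u‖ := by
  unfold W
  rw [norm_mul]
  have h4 : ‖α * cr L n u‖ ≤ 1 := by
    rw [norm_mul, Complex.norm_real, Real.norm_eq_abs]
    exact mul_le_one₀ hα (abs_nonneg _) (cr_abs_le _ _ _)
  calc ‖α * cr L n u‖ * ‖Phi L α z n u‖ ≤ 1 * ‖Phi L α z n u‖ :=
        mul_le_mul_of_nonneg_right h4 (norm_nonneg _)
    _ = _ := one_mul _

/-- The critical point of `f_u`. -/
noncomputable def crit (α : ℂ) (c : ℝ) : ℂ := (1 + α * c) / (2 * α * c)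

lemma crit_ne_zero {α : ℂ} {c : ℝ} (hα0 : α ≠ 0) (hα : ‖α‖ < 1) (hc : c ≠ 0) (hc1 : |c| ≤ 1) :
    crit α c ≠ 0 := by
  unfold crit
  have h1 : (c : ℂ) ≠ 0 := by exact_mod_cast hc
  apply div_ne_zero
  · intro h
    have h2 : α * (c : ℂ) = -1 := by linear_combination h
    have h3 := congrArg norm h2
    rw [norm_mul, Complex.norm_real, Real.norm_eq_abs, norm_neg, norm_one] at h3
    nlinarith [norm_nonneg α, abs_nonneg c]
  · exact mul_ne_zero (mul_ne_zero two_ne_zero hα0) h1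

/-- First step on the critical line `{k (1 + i s)}`. -/
lemma W_one {L : ℕ} {α : ℂ} {u : ℝ} (hα0 : α ≠ 0) (hc : cr L 0 u ≠ 0) (s : ℝ) :
    W L α (crit α (cr L 0 u) * (1 + s * I)) u 1 =
      ((cr L 1 u / cr L 0 u : ℝ) : ℂ) * ((1 + α * cr L 0 u) ^ 2 * ((1 + s ^ 2 : ℝ) : ℂ) / 4) := by
  have h1 : (cr L 0 u : ℂ) ≠ 0 := by exact_mod_cast hc
  have h := w_step L α (crit α (cr L 0 u) * (1 + s * I)) u 0 hc
  rw [W, h, Phi_zero, crit]
  push_cast
  have hI : I ^ 2 = -1 := I_sq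
  have e1 : α * (cr L 0 u : ℂ) * ((1 + α * cr L 0 u) / (2 * α * cr L 0 u) * (1 + s * I)) =
      (1 + α * cr L 0 u) * (1 + s * I) / 2 := by
    field_simp
  rw [e1]
  linear_combination (-((cr L 1 u : ℂ) / cr L 0 u * (1 + α * cr L 0 u) ^ 2 * s ^ 2 / 4)) * hI

end Q75.Kan
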