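import Pool.Agent.Q75.KanA

/-!
# The base points `1/4 + x / L^n`
-/

set_option autoImplicit false

namespace Q75.Kan

open Complex Filter Topology MeasureTheory Pool.Agent.TH229.Kan

/-- the base point -/
noncomputable def bp (L n : ℕ) (x : ℝ) : ℝ := 1 / 4 + x / (L : ℝ) ^ n

/-- `y_j = L^j x / L^n` -/
noncomputable def yy (L n : ℕ) (x : ℝ) (j : ℕ) : ℝ := (L : ℝ) ^ j * (x / (L : ℝ) ^ n)

lemma pow_mul_bp (L n : ℕ) (x : ℝ) (j : ℕ) :
    2 * Real.pi * ((L : ℝ) ^ j * bp L n x) = (L : ℝ) ^ j * (Real.pi / 2) + 2 * Real.pi * yy L n x j := by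
  unfold bp yy
  ring

lemma yy_succ (L n : ℕ) (x : ℝ) (j : ℕ) : yy L n x (j + 1) = L * yy L n x j := by
  unfold yy
  rw [pow_succ]
  ring

lemma yy_pos {L n : ℕ} (hL : 0 < L) {x : ℝ} (hx : 0 < x) (j : ℕ) : 0 < yy L n x j := by
  unfold yy
  have : (0 : ℝ) < L := by exact_mod_cast hL
  positivity

lemma yy_le {L n : ℕ} (hL : 0 < L) {x : ℝ} (hx : 0 < x) {m j : ℕ} (hj : j + m ≤ n) :
    yy L n x j ≤ x / (L : ℝ) ^ m := by
  unfold yy
  have hL0 : (0 : ℝ) < L := by exact_mod_cast hL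
  have hL1 : (1 : ℝ) ≤ L := by exact_mod_cast hL
  rw [← mul_div_assoc, div_le_div_iff₀ (by positivity) (by positivity)]
  have : (L : ℝ) ^ j * (L : ℝ) ^ m ≤ (L : ℝ) ^ n := by
    rw [← pow_add]
    exact pow_le_pow_right₀ hL1 hj
  nlinarith

lemma abs_cr_even {L n : ℕ} (hL : Even L) (x : ℝ) {j : ℕ} (hj : 1 ≤ j) :
    |cr L j (bp L n x)| = |Real.cos (2 * Real.pi * yy L n x j)| := by
  obtain ⟨N, hN⟩ : ∃ N : ℕ, L ^ j = 2 * N := by
    have : Even (L ^ j) := hL.pow_of_ne_zero (by omega)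
    obtain ⟨N, hN⟩ := this
    exact ⟨N, by omega⟩
  have hN' : (L : ℝ) ^ j = 2 * N := by exact_mod_cast hN
  unfold cr
  rw [pow_mul_bp, hN', show 2 * (N : ℝ) * (Real.pi / 2) + 2 * Real.pi * yy L n x j =
    2 * Real.pi * yy L n x j + N * Real.pi by ring, Real.cos_add_nat_mul_pi, abs_mul, abs_pow,
    abs_neg, abs_one, one_pow, one_mul]

lemma cr_odd_val {L n N : ℕ} (x : ℝ) {j : ℕ} (hN : L ^ j = 2 * N + 1) :
    cr L j (bp L n x) = -((-1) ^ N * Real.sin (2 * Real.pi * yy L n x j)) := by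
  have hN' : (L : ℝ) ^ j = 2 * N + 1 := by exact_mod_cast hN
  unfold cr
  rw [pow_mul_bp, hN', show (2 * (N : ℝ) + 1) * (Real.pi / 2) + 2 * Real.pi * yy L n x j =
    (2 * Real.pi * yy L n x j + Real.pi / 2) + N * Real.pi by ring, Real.cos_add_nat_mul_pi,
    Real.cos_add_pi_div_two]
  ring

lemma abs_cr_odd {L n : ℕ} (hL : Odd L) (x : ℝ) (j : ℕ) :
    |cr L j (bp L n x)| = |Real.sin (2 * Real.pi * yy L n x j)| := by
  obtain ⟨N, hN⟩ : Odd (L ^ j) := hL.pow
  rw [cr_odd_val x hN, abs_neg, abs_mul, abs_pow, abs_neg, abs_one, one_pow, one_mul]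

lemma cos_lower {y : ℝ} (hy0 : 0 ≤ y) (hy : y ≤ 1 / 8) : 1 / 2 ≤ Real.cos (2 * Real.pi * y) := by
  have h1 : Real.cos (Real.pi / 4) ≤ Real.cos (2 * Real.pi * y) := by
    apply Real.cos_le_cos_of_nonneg_of_le_pi
    · positivity
    · linarith [Real.pi_pos]
    · nlinarith [Real.pi_pos]
  rw [Real.cos_pi_div_four] at h1
  have h2 : (1 : ℝ) ≤ √2 := Real.one_le_sqrt.2 (by norm_num)
  linarith

lemma cr_zero_abs {L n : ℕ} (x : ℝ) :
    |cr L 0 (bp L n x)| = |Real.sin (2 * Real.pi * yy L n x 0)| := by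
  rw [cr_odd_val (L := L) (n := n) (N := 0) x (j := 0) (by simp), abs_neg, pow_zero, one_mul]

lemma norm_one_add_sq_lower {a : ℂ} {δ : ℝ} (ha : ‖a‖ ≤ δ) (hδ : δ ≤ 1) :
    (1 - δ) ^ 2 ≤ ‖(1 + a) ^ 2‖ := by
  rw [norm_pow]
  apply pow_le_pow_left₀ (by linarith)
  have := norm_sub_norm_le (1 : ℂ) (-a)
  rw [norm_one, norm_neg, sub_neg_eq_add] at this
  linarith

/-- Conclusion of this file: data for a good base point. -/
def Good (L : ℕ) (α : ℂ) (u : ℝ) (n : ℕ) : Prop :=
  (∀ j ≤ n, cr L j u ≠ 0) ∧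
    ∀ s : ℝ, 8 * 3 ^ (n - 5) ≤ ‖Phi L α (crit α (cr L 0 u) * (1 + s * I)) n u‖

theorem good_even {L : ℕ} (hL : Even L) (hL2 : 2 ≤ L) {α : ℂ} (hα0 : α ≠ 0) (hα : ‖α‖ < 1)
    {x : ℝ} (hx0 : 0 < x) (hx : x ≤ 1 / 8) {n : ℕ} (hn : 7 ≤ n) : Good L α (bp L n x) n := by
  have hLpos : 0 < L := by omega
  have hypos := fun j => yy_pos (n := n) hLpos hx0 j
  have hyle : ∀ j, j ≤ n → yy L n x j ≤ 1 / 8 := by
    intro j hj
    have := yy_le (m := 0) hLpos hx0 (j := j) (n := n) (by omega)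
    rw [pow_zero, div_one] at this
    linarith
  have hcos : ∀ j, 1 ≤ j → j ≤ n → 1 / 2 ≤ |cr L j (bp L n x)| := by
    intro j hj1 hj
    rw [abs_cr_even hL x hj1]
    exact (cos_lower (hypos j).le (hyle j hj)).trans (le_abs_self _)
  have hL7 : (128 : ℝ) ≤ (L : ℝ) ^ n := by
    have h1 : (2 : ℝ) ≤ L := by exact_mod_cast hL2
    calc (128 : ℝ) = 2 ^ 7 := by norm_num
      _ ≤ 2 ^ n := pow_le_pow_right₀ (by norm_num) hn
      _ ≤ (L : ℝ) ^ n := pow_le_pow_left₀ (by norm_num) h1 n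
  have hy0 : 2 * Real.pi * yy L n x 0 ≤ 1 / 128 := by
    have h1 := yy_le (m := n) hLpos hx0 (j := 0) (n := n) (by omega)
    have h2 : x / (L : ℝ) ^ n ≤ (1 / 8) / 128 := by
      apply div_le_div₀ (by norm_num) hx (by norm_num) hL7
    nlinarith [Real.pi_lt_four, Real.pi_pos]
  have hy0' : 0 < 2 * Real.pi * yy L n x 0 := by
    have := hypos 0
    have := Real.pi_pos
    positivity
  have hsin : 0 < Real.sin (2 * Real.pi * yy L n x 0) :=
    Real.sin_pos_of_pos_of_lt_pi hy0' (by linarith [Real.pi_gt_three])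
  have hc0 : |cr L 0 (bp L n x)| ≤ 1 / 128 := by
    rw [cr_zero_abs, abs_of_pos hsin]
    exact (Real.sin_le hy0'.le).trans hy0
  have hc0' : cr L 0 (bp L n x) ≠ 0 := by
    have : 0 < |cr L 0 (bp L n x)| := by
      rw [cr_zero_abs, abs_of_pos hsin]
      exact hsin
    exact abs_pos.1 this
  have hne : ∀ j ≤ n, cr L j (bp L n x) ≠ 0 := by
    intro j hj
    rcases Nat.eq_zero_or_pos j with rfl | hj0
    · exact hc0'
    · exact abs_pos.1 (lt_of_lt_of_le (by norm_num) (hcos j hj0 hj))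
  refine ⟨hne, fun s => ?_⟩
  have hW1 : 8 ≤ ‖W L α (crit α (cr L 0 (bp L n x)) * (1 + s * I)) (bp L n x) 1‖ := by
    rw [W_one hα0 hc0', norm_mul, Complex.norm_real, Real.norm_eq_abs, norm_div, norm_mul,
      Complex.norm_real, Real.norm_eq_abs, abs_div]
    have h1 : 64 ≤ |cr L 1 (bp L n x)| / |cr L 0 (bp L n x)| := by
      rw [le_div_iff₀ (abs_pos.2 hc0')]
      have := hcos 1 le_rfl (by omega)
      linarith
    have h2 : ‖α * (cr L 0 (bp L n x) : ℂ)‖ ≤ 1 / 128 := by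
      rw [norm_mul, Complex.norm_real, Real.norm_eq_abs]
      nlinarith [norm_nonneg α, abs_nonneg (cr L 0 (bp L n x))]
    have h3 := norm_one_add_sq_lower h2 (by norm_num)
    have h4 : (1 : ℝ) ≤ |1 + s ^ 2| := by
      rw [abs_of_nonneg (by positivity)]
      nlinarith [sq_nonneg s]
    have h5 : ‖(4 : ℂ)‖ = 4 := by norm_num
    rw [h5]
    calc (8 : ℝ) ≤ 64 * ((1 - 1 / 128) ^ 2 * 1 / 4) := by norm_num
      _ ≤ _ := by
        apply mul_le_mul h1 _ (by norm_num) (by positivity)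
        apply div_le_div_of_nonneg_right _ (by norm_num)
        exact mul_le_mul h3 h4 (by norm_num) (norm_nonneg _)
  have h := W_triple (p := 1) (n := n) hα.le (u := bp L n x) (L := L) (α := α)
    (fun j hj1 hjn => ⟨hne j hjn.le, by
      rw [abs_div, le_div_iff₀ (abs_pos.2 (hne j hjn.le))]
      have h1 := hcos (j + 1) (by omega) (by omega)
      have h2 := cr_abs_le L j (bp L n x)
      linarith⟩) hW1 (n - 1) (by omega)
  have h2 : 1 + (n - 1) = n := by omega
  rw [h2] at h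
  refine le_trans ?_ (h.trans (norm_Phi_ge_W n hα.le))
  have : (3 : ℝ) ^ (n - 5) ≤ 3 ^ (n - 1) := pow_le_pow_right₀ (by norm_num) (by omega)
  linarith

lemma sin_ratio {θ L : ℝ} (hθ : 0 < θ) (hL : 1 ≤ L) (hθL : L * θ ≤ 1 / 1000) :
    L * (999999 / 1000000) ≤ Real.sin (L * θ) / Real.sin θ := by
  have h1 : 0 < L * θ := by positivity
  have h2 : θ ≤ L * θ := by nlinarith
  have h3 := Real.sin_gt_sub_cube h1
  have h4 : 0 < Real.sin θ := Real.sin_pos_of_pos_of_lt_pi hθ (by linarith [Real.pi_gt_three])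
  have h5 := Real.sin_le hθ.le
  rw [le_div_iff₀ h4]
  have h6 : (L * θ) ^ 2 ≤ 1 / 1000000 := by nlinarith
  calc L * (999999 / 1000000) * Real.sin θ ≤ L * (999999 / 1000000) * θ :=
        mul_le_mul_of_nonneg_left h5 (by positivity)
    _ ≤ L * θ - (L * θ) ^ 3 / 6 := by nlinarith
    _ ≤ _ := h3.le

lemma sin_mono {θ L : ℝ} (hθ : 0 < θ) (hL : 1 ≤ L) (hθL : L * θ ≤ Real.pi / 2) :
    Real.sin θ ≤ Real.sin (L * θ) := by
  apply Real.sin_le_sin_of_le_of_le_pi_div_two _ hθL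
  · nlinarith
  · linarith [Real.pi_pos]

theorem good_odd {L : ℕ} (hL : Odd L) (hL2 : 2 ≤ L) {α : ℂ} (hα0 : α ≠ 0) (hα : ‖α‖ < 1)
    {x : ℝ} (hx0 : 0 < x) (hx : x ≤ 1 / 8) {n : ℕ} (hn : 12 ≤ n) : Good L α (bp L n x) n := by
  have hL3 : 3 ≤ L := by
    obtain ⟨m, hm⟩ := hL
    omega
  have hLpos : 0 < L := by omega
  have hLr : (3 : ℝ) ≤ L := by exact_mod_cast hL3
  have hypos := fun j => yy_pos (n := n) hLpos hx0 j
  set θ : ℕ → ℝ := fun j => 2 * Real.pi * yy L n x j with hθ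
  have hθpos : ∀ j, 0 < θ j := fun j => by
    have := hypos j
    have := Real.pi_pos
    simp only [hθ]
    positivity
  have hθsucc : ∀ j, θ (j + 1) = L * θ j := by
    intro j
    simp only [hθ, yy_succ]
    ring
  have hθle : ∀ j, j ≤ n → θ j ≤ Real.pi / 4 := by
    intro j hj
    have := yy_le (m := 0) hLpos hx0 (j := j) (n := n) (by omega)
    rw [pow_zero, div_one] at this
    simp only [hθ]
    nlinarith [Real.pi_pos]
  have hθsmall : ∀ j, j ≤ 5 → θ j ≤ 1 / 1000 := by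
    intro j hj
    have h1 := yy_le (m := 7) hLpos hx0 (j := j) (n := n) (by omega)
    have h2 : (2187 : ℝ) ≤ (L : ℝ) ^ 7 := by
      calc (2187 : ℝ) = 3 ^ 7 := by norm_num
        _ ≤ (L : ℝ) ^ 7 := pow_le_pow_left₀ (by norm_num) hLr 7
    have h3 : x / (L : ℝ) ^ 7 ≤ (1 / 8) / 2187 := div_le_div₀ (by norm_num) hx (by norm_num) h2
    simp only [hθ]
    nlinarith [Real.pi_lt_four, Real.pi_pos]
  have hsinpos : ∀ j, j ≤ n → 0 < Real.sin (θ j) := fun j hj =>
    Real.sin_pos_of_pos_of_lt_pi (hθpos j) (by linarith [hθle j hj, Real.pi_pos])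
  have habs : ∀ j, j ≤ n → |cr L j (bp L n x)| = Real.sin (θ j) := by
    intro j hj
    rw [abs_cr_odd hL x j]
    exact abs_of_pos (hsinpos j hj)
  have hne : ∀ j ≤ n, cr L j (bp L n x) ≠ 0 := by
    intro j hj
    apply abs_pos.1
    rw [habs j hj]
    exact hsinpos j hj
  have hratio : ∀ j, j < n → |cr L (j + 1) (bp L n x) / cr L j (bp L n x)| =
      Real.sin (L * θ j) / Real.sin (θ j) := by
    intro j hj
    rw [abs_div, habs j hj.le, habs (j + 1) hj, hθsucc]
  have hα1 : ∀ j, j ≤ 5 → ‖α * (cr L j (bp L n x) : ℂ)‖ ≤ 1 / 1000 := by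
    intro j hj
    rw [norm_mul, Complex.norm_real, Real.norm_eq_abs, habs j (by omega)]
    have h1 := Real.sin_le (hθpos j).le
    have h2 := hθsmall j hj
    have h3 := hsinpos j (by omega)
    nlinarith [norm_nonneg α]
  have hr : ∀ j, j ≤ 4 → (L : ℝ) * (999999 / 1000000) ≤
      |cr L (j + 1) (bp L n x) / cr L j (bp L n x)| := by
    intro j hj
    rw [hratio j (by omega)]
    apply sin_ratio (hθpos j) (by linarith)
    rw [← hθsucc]
    exact hθsmall (j + 1) (by omega)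
  have hr3 : ∀ j, j ≤ 4 → (299 / 100 : ℝ) ≤ |cr L (j + 1) (bp L n x) / cr L j (bp L n x)| := by
    intro j hj
    have := hr j hj
    linarith
  refine ⟨hne, fun s => ?_⟩
  set z := crit α (cr L 0 (bp L n x)) * (1 + s * I) with hz
  have hW2 : (14 / 10 : ℝ) ≤ ‖W L α z (bp L n x) 2‖ := by
    have hs : (1 : ℝ) ≤ |1 + s ^ 2| := by
      rw [abs_of_nonneg (by positivity)]
      nlinarith [sq_nonneg s]
    have h5 : ‖(4 : ℂ)‖ = 4 := by norm_num
    have h3 := norm_one_add_sq_lower (hα1 0 (by omega)) (by norm_num)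
    rcases Nat.lt_or_ge L 5 with hL5 | hL5
    · -- `L = 3`
      have hLeq : L = 3 := by
        obtain ⟨m, hm⟩ := hL
        omega
      have hsign : cr L 1 (bp L n x) / cr L 0 (bp L n x) =
          -(Real.sin (L * θ 0) / Real.sin (θ 0)) := by
        rw [cr_odd_val (L := L) (n := n) (N := 1) x (j := 1) (by rw [hLeq]; norm_num),
          cr_odd_val (L := L) (n := n) (N := 0) x (j := 0) (by simp)]
        have e1 : 2 * Real.pi * yy L n x 1 = L * θ 0 := by rw [← hθsucc]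
        rw [e1]
        simp only [pow_one, pow_zero, one_mul, neg_mul, neg_neg]
        rw [div_neg]
      have hρ : (299 / 100 : ℝ) ≤ Real.sin (L * θ 0) / Real.sin (θ 0) := by
        rw [← hratio 0 (by omega)]
        exact hr3 0 (by omega)
      set ρ := Real.sin (L * θ 0) / Real.sin (θ 0) with hρd
      set b := α * (cr L 0 (bp L n x) : ℂ) with hb
      have hb1 := hα1 0 (by omega)
      rw [← hb] at hb1
      have hWeq : W L α z (bp L n x) 1 = -((ρ * (1 + s ^ 2) / 4 : ℝ) : ℂ) * (1 + b) ^ 2 := by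
        rw [hz, W_one hα0 (hne 0 (by omega)), hsign]
        push_cast
        ring
      have hre : (997 / 1000 : ℝ) ≤ ((1 + b) ^ 2).re := by
        have h7 : ((1 + b) ^ 2 : ℂ) = 1 + (2 * b + b ^ 2) := by ring
        rw [h7, Complex.add_re, Complex.one_re]
        have h8 : |(2 * b + b ^ 2).re| ≤ ‖2 * b + b ^ 2‖ := Complex.abs_re_le_norm _
        have h9 : ‖2 * b + b ^ 2‖ ≤ 2 * ‖b‖ + ‖b‖ ^ 2 := by
          refine (norm_add_le _ _).trans ?_
          rw [norm_mul, norm_pow]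
          norm_num
        have h10 := (abs_le.1 (h8.trans h9)).1
        nlinarith [norm_nonneg b]
      have hWre : (W L α z (bp L n x) 1).re ≤ -(74 / 100) := by
        rw [hWeq, neg_mul, Complex.neg_re, Complex.re_ofReal_mul]
        have h11 : (299 / 400 : ℝ) ≤ ρ * (1 + s ^ 2) / 4 := by
          nlinarith [sq_nonneg s]
        nlinarith
      have hWn : (74 / 100 : ℝ) ≤ ‖W L α z (bp L n x) 1‖ := by
        have := Complex.abs_re_le_norm (W L α z (bp L n x) 1)
        rw [abs_of_neg (by linarith)] at this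
        linarith
      have hfac : (173 / 100 : ℝ) ≤ ‖1 + α * (cr L 1 (bp L n x) : ℂ) - W L α z (bp L n x) 1‖ := by
        have h12 := Complex.abs_re_le_norm (1 + α * (cr L 1 (bp L n x) : ℂ) - W L α z (bp L n x) 1)
        have h13 := Complex.abs_re_le_norm (α * (cr L 1 (bp L n x) : ℂ))
        have h14 := (abs_le.1 (h13.trans (hα1 1 (by omega)))).1
        have h15 : (1 + α * (cr L 1 (bp L n x) : ℂ) - W L α z (bp L n x) 1).re =
            1 + (α * (cr L 1 (bp L n x) : ℂ)).re - (W L α z (bp L n x) 1).re := by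
          simp
        have h16 := (le_abs_self _).trans h12
        rw [h15] at h16
        linarith
      rw [W_step_norm L α z (bp L n x) 1 (hne 1 (by omega))]
      have h17 := hr3 1 (by omega)
      calc (14 / 10 : ℝ) ≤ (299 / 100) * (74 / 100) * (173 / 100) := by norm_num
        _ ≤ _ := by
          apply mul_le_mul (mul_le_mul h17 hWn (by norm_num) (by positivity)) hfac (by norm_num)
          positivity
    · -- `L ≥ 5`
      have hL5r : (5 : ℝ) ≤ L := by exact_mod_cast hL5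
      have hW1 : (124 / 100 : ℝ) ≤ ‖W L α z (bp L n x) 1‖ := by
        rw [hz, W_one hα0 (hne 0 (by omega)), norm_mul, Complex.norm_real, Real.norm_eq_abs,
          norm_div, norm_mul, Complex.norm_real, Real.norm_eq_abs, h5]
        have h1 : (499 / 100 : ℝ) ≤ |cr L (0 + 1) (bp L n x) / cr L 0 (bp L n x)| := by
          have := hr 0 (by omega)
          linarith
        calc (124 / 100 : ℝ) ≤ (499 / 100) * ((1 - 1 / 1000) ^ 2 * 1 / 4) := by norm_num
          _ ≤ _ := by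
            apply mul_le_mul h1 _ (by norm_num) (by positivity)
            apply div_le_div_of_nonneg_right _ (by norm_num)
            exact mul_le_mul h3 hs (by norm_num) (norm_nonneg _)
      have h := W_step_lower (hne 1 (by omega)) (r := 499 / 100) (by norm_num)
        (by have := hr 1 (by omega); linarith) (hα1 1 (by omega)) (A := 124 / 100) (by norm_num) hW1
      refine le_trans ?_ h
      norm_num
  have hW3 : (16 / 10 : ℝ) ≤ ‖W L α z (bp L n x) 3‖ := by
    have h := W_step_lower (hne 2 (by omega)) (r := 299 / 100) (by norm_num)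
      (hr3 2 (by omega)) (hα1 2 (by omega)) (A := 14 / 10) (by norm_num) hW2
    refine le_trans ?_ h
    norm_num
  have hW4 : (28 / 10 : ℝ) ≤ ‖W L α z (bp L n x) 4‖ := by
    have h := W_step_lower (hne 3 (by omega)) (r := 299 / 100) (by norm_num)
      (hr3 3 (by omega)) (hα1 3 (by omega)) (A := 16 / 10) (by norm_num) hW3
    refine le_trans ?_ h
    norm_num
  have hW5 : (8 : ℝ) ≤ ‖W L α z (bp L n x) 5‖ := by
    have h := W_step_lower (hne 4 (by omega)) (r := 299 / 100) (by norm_num)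
      (hr3 4 (by omega)) (hα1 4 (by omega)) (A := 28 / 10) (by norm_num) hW4
    refine le_trans ?_ h
    norm_num
  have h := W_triple (p := 5) (n := n) hα.le (u := bp L n x) (L := L) (α := α)
    (fun j hj1 hjn => ⟨hne j hjn.le, by
      rw [hratio j hjn, le_div_iff₀ (hsinpos j hjn.le)]
      have h1 : L * θ j ≤ Real.pi / 2 := by
        rw [← hθsucc]
        linarith [hθle (j + 1) hjn, Real.pi_pos]
      have h2 := sin_mono (hθpos j) (by linarith) h1
      have h3 := hsinpos j hjn.le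
      linarith⟩) hW5 (n - 5) (by omega)
  have h2 : 5 + (n - 5) = n := by omega
  rw [h2] at h
  exact h.trans (norm_Phi_ge_W n hα.le)

end Q75.Kan
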