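import Pool.Agent.TH229.Kan.Sphere
import Pool.Agent.Helper242.RK.Log

/-!
# Divergence to infinity propagates through normal points
-/

set_option autoImplicit false

namespace Q75.Kan

open Complex Filter Topology Metric Pool.Agent.TH229.Kan

lemma harnack {f : ℂ → ℂ} {c : ℂ} {r M1 M2 : ℝ} (hr : 0 < r) (hf : DifferentiableOn ℂ f (ball c r))
    (h0 : ∀ z ∈ ball c r, f z ≠ 0) (hM1 : ∀ z ∈ ball c r, ‖f z‖ ≤ Real.exp M1)
    (hM2 : Real.exp (-M2) ≤ ‖f c‖) (hM : 0 < M1 + M2) {z : ℂ} (hz : z ∈ ball c r) :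
    Real.exp (-M2 - 2 * (M1 + M2) * r / (r - ‖z - c‖)) ≤ ‖f z‖ := by
  obtain ⟨L, hLd, hL⟩ := Pool.Agent.Helper242.RK.exists_log (convex_ball c r) isOpen_ball
    ⟨c, mem_ball_self hr⟩ hf h0
  have hmem : ∀ w ∈ ball (0 : ℂ) r, c + w ∈ ball c r := by
    intro w hw
    simpa [mem_ball, dist_eq_norm] using hw
  have hre : ∀ w ∈ ball c r, (L w).re = Real.log ‖f w‖ := by
    intro w hw
    rw [← hL w hw, norm_exp, Real.log_exp]
  have hcm : c ∈ ball c r := mem_ball_self hr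
  have hLc : -M2 ≤ (L c).re := by
    rw [hre c hcm]
    rw [← Real.log_exp (-M2)]
    exact Real.log_le_log (Real.exp_pos _) hM2
  have hd : DifferentiableOn ℂ (fun w => L (c + w) - L c) (ball 0 r) := by
    refine DifferentiableOn.sub_const ?_ _
    refine DifferentiableOn.comp hLd (by fun_prop) hmem
  have hmaps : Set.MapsTo (fun w => L (c + w) - L c) (ball 0 r) {z | z.re ≤ M1 + M2} := by
    intro w hw
    simp only [Set.mem_ofPred_eq, sub_re]
    have h1 : (L (c + w)).re ≤ M1 := by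
      rw [hre _ (hmem w hw), ← Real.log_exp M1]
      exact Real.log_le_log (norm_pos_iff.2 (h0 _ (hmem w hw))) (hM1 _ (hmem w hw))
    linarith
  have hzm : z - c ∈ ball (0 : ℂ) r := by
    simpa [mem_ball, dist_eq_norm] using hz
  have h := borelCaratheodory_zero hM hd hmaps hr hzm (by simp)
  simp only [add_sub_cancel] at h
  have hzr : ‖z - c‖ < r := by simpa using hzm
  have h2 : -(2 * (M1 + M2) * r / (r - ‖z - c‖)) ≤ (L z - L c).re := by
    have h3 : |(L z - L c).re| ≤ 2 * (M1 + M2) * ‖z - c‖ / (r - ‖z - c‖) :=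
      (abs_re_le_norm _).trans h
    have h4 : 2 * (M1 + M2) * ‖z - c‖ / (r - ‖z - c‖) ≤ 2 * (M1 + M2) * r / (r - ‖z - c‖) := by
      have : 0 < r - ‖z - c‖ := by linarith
      gcongr
    linarith [(abs_le.1 h3).1]
  rw [← hL z hz, norm_exp]
  refine Real.exp_le_exp.2 ?_
  rw [sub_re] at h2
  linarith

/-- Harnack inequality for functions of modulus at least one. -/
lemma harnack_one {F : ℂ → ℂ} {c : ℂ} {r : ℝ} (hF : DifferentiableOn ℂ F (ball c r))
    (h1 : ∀ z ∈ ball c r, 1 ≤ ‖F z‖) {z : ℂ} (hz : z ∈ ball c (r / 4)) :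
    ‖F c‖ ≤ (Real.exp 1 * ‖F z‖) ^ 5 := by
  have hr : 0 < r := by
    have := (dist_nonneg.trans_lt (mem_ball.1 hz))
    linarith
  have hd : ‖c - z‖ < r / 4 := by
    rw [norm_sub_rev, ← dist_eq_norm]
    exact mem_ball.1 hz
  have hsub : ball z (r / 2) ⊆ ball c r := by
    intro w hw
    rw [mem_ball] at hw hz ⊢
    have := dist_triangle w z c
    linarith
  have hzc : z ∈ ball c r := hsub (mem_ball_self (by linarith))
  have hz1 := h1 z hzc
  have hz0 : 0 < ‖F z‖ := by linarith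
  have hcc : c ∈ ball z (r / 2) := by
    rw [mem_ball, dist_eq_norm]
    linarith
  set M2 : ℝ := Real.log ‖F z‖ + 1 with hM2
  have hlog : 0 ≤ Real.log ‖F z‖ := Real.log_nonneg hz1
  have h := harnack (f := fun w => (F w)⁻¹) (c := z) (r := r / 2) (M1 := 0) (M2 := M2) (by linarith)
    ((hF.mono hsub).inv fun w hw => by
      have := h1 w (hsub hw)
      exact norm_pos_iff.1 (by linarith))
    (fun w hw => inv_ne_zero (by
      have := h1 w (hsub hw)
      exact norm_pos_iff.1 (by linarith)))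
    (fun w hw => by
      rw [Real.exp_zero, norm_inv]
      exact inv_le_one_of_one_le₀ (h1 w (hsub hw)))
    (by
      rw [norm_inv, Real.exp_neg]
      apply inv_anti₀ hz0
      rw [hM2, Real.exp_add, Real.exp_log hz0]
      have := Real.add_one_le_exp (1 : ℝ)
      nlinarith)
    (by linarith) hcc
  have h2 : 2 * (0 + M2) * (r / 2) / (r / 2 - ‖c - z‖) ≤ 4 * M2 := by
    rw [div_le_iff₀ (by linarith)]
    nlinarith
  have h3 : Real.exp (-(5 * M2)) ≤ ‖(F c)⁻¹‖ := by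
    refine le_trans (Real.exp_le_exp.2 ?_) h
    linarith
  rw [norm_inv, Real.exp_neg] at h3
  have hc0 : 0 < ‖F c‖ := by
    have := h1 c (mem_ball_self hr)
    linarith
  have h4 := (inv_le_inv₀ (Real.exp_pos _) hc0).1 h3
  refine h4.trans (le_of_eq ?_)
  rw [show 5 * M2 = (5 : ℕ) * M2 by norm_num, Real.exp_nat_mul, hM2, Real.exp_add,
    Real.exp_log hz0, mul_comm]

/-- chordal distance to infinity -/
noncomputable def di (a : ℂ) : ℝ := 2 / Real.sqrt (1 + ‖a‖ ^ 2)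

lemma di_pos (a : ℂ) : 0 < di a := by
  unfold di
  positivity

lemma di_cont {g : ℂ → ℂ} (hg : Continuous g) : Continuous fun w => di (g w) := by
  unfold di
  apply Continuous.div continuous_const
  · fun_prop
  · intro w
    positivity

lemma sqrt_lip (a b : ℂ) : Real.sqrt (1 + ‖b‖ ^ 2) ≤ ‖a - b‖ + Real.sqrt (1 + ‖a‖ ^ 2) := by
  set A := Real.sqrt (1 + ‖a‖ ^ 2) with hA
  have hA1 : 1 ≤ A := one_le_sq a
  have hA2 : A ^ 2 = 1 + ‖a‖ ^ 2 := Real.sq_sqrt (by positivity)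
  have hA3 : ‖a‖ ≤ A := norm_le_sq a
  have h1 : ‖b‖ ≤ ‖a - b‖ + ‖a‖ := by
    have := norm_sub_le a (a - b)
    rw [sub_sub_cancel] at this
    linarith
  rw [Real.sqrt_le_left (by positivity)]
  nlinarith [norm_nonneg a, norm_nonneg b, norm_nonneg (a - b)]

/-- triangle inequality with `∞` -/
lemma di_le (a b : ℂ) : di a ≤ dd a b + di b := by
  unfold di dd
  have ha := one_le_sq a
  have hb := one_le_sq b
  have h := sqrt_lip a b
  set A := Real.sqrt (1 + ‖a‖ ^ 2)
  set B := Real.sqrt (1 + ‖b‖ ^ 2)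
  have hA0 : 0 < A := by linarith
  have hB0 : 0 < B := by linarith
  rw [div_add_div _ _ (by positivity) (by positivity), div_le_div_iff₀ (by positivity)
    (by positivity)]
  have : 2 * B * (A * B) ≤ 2 * (‖a - b‖ + A) * (A * B) := by
    apply mul_le_mul_of_nonneg_right _ (by positivity)
    linarith
  nlinarith

lemma norm_of_di {a : ℂ} {B : ℝ} (hB : 1 ≤ B) (h : di a ≤ 1 / B) : B ≤ ‖a‖ := by
  unfold di at h
  rw [div_le_div_iff₀ (by positivity) (by linarith)] at h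
  by_contra hcon
  push Not at hcon
  have h1 : Real.sqrt (1 + ‖a‖ ^ 2) ^ 2 = 1 + ‖a‖ ^ 2 := Real.sq_sqrt (by positivity)
  have h2 : (2 * B) ^ 2 ≤ Real.sqrt (1 + ‖a‖ ^ 2) ^ 2 :=
    pow_le_pow_left₀ (by positivity) (by linarith) 2
  rw [h1] at h2
  have h3 : ‖a‖ ^ 2 < B ^ 2 := pow_lt_pow_left₀ hcon (norm_nonneg a) two_ne_zero
  nlinarith

lemma di_le_of_norm {a : ℂ} {B : ℝ} (hB : 0 < B) (h : B ≤ ‖a‖) : di a ≤ 2 / B := by
  unfold di
  have h1 := norm_le_sq a
  apply div_le_div_of_nonneg_left (by norm_num) hB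
  linarith

lemma tendsto_di {G : ℕ → ℂ} : Tendsto (fun m => ‖G m‖) atTop atTop ↔
    ∀ ε : ℝ, 0 < ε → ∃ N, ∀ m ≥ N, di (G m) ≤ ε := by
  constructor
  · intro h ε hε
    obtain ⟨N, hN⟩ := eventually_atTop.1 (h.eventually_ge_atTop (2 / ε))
    refine ⟨N, fun m hm => (di_le_of_norm (by positivity) (hN m hm)).trans (le_of_eq ?_)⟩
    field_simp
  · intro h
    rw [Filter.tendsto_atTop]
    intro B
    obtain ⟨N, hN⟩ := h (1 / max B 1) (by positivity)
    filter_upwards [eventually_ge_atTop N] with m hm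
    exact (le_max_left _ _).trans (norm_of_di (le_max_right _ _) (hN m hm))

/-- If a sequence of entire functions is uniformly chordally Cauchy on a disc and diverges at a
point of the disc, it diverges uniformly on the disc. -/
theorem diverge_of_cauchy {G : ℕ → ℂ → ℂ} (hG : ∀ n, Differentiable ℂ (G n)) {z : ℂ} {r : ℝ}
    (hC : ∀ ε : ℝ, 0 < ε → ∃ N, ∀ m ≥ N, ∀ m' ≥ N, ∀ w ∈ ball z r, dd (G m w) (G m' w) < ε)
    {a : ℂ} (ha : a ∈ ball z r) (hinf : Tendsto (fun n => ‖G n a‖) atTop atTop) :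
    ∀ B : ℝ, ∃ N, ∀ m ≥ N, ∀ w ∈ ball z r, B ≤ ‖G m w‖ := by
  set S : Set ℂ := {w | Tendsto (fun n => ‖G n w‖) atTop atTop} with hS
  -- points of `S` in the disc: uniform bound
  have key : ∀ ε : ℝ, 0 < ε → ∃ N, ∀ m ≥ N, ∀ w ∈ ball z r, w ∈ S → di (G m w) ≤ ε := by
    intro ε hε
    obtain ⟨N, hN⟩ := hC (ε / 2) (by linarith)
    refine ⟨N, fun m hm w hw hwS => ?_⟩
    obtain ⟨N', hN'⟩ := tendsto_di.1 hwS (ε / 2) (by linarith)
    have h1 := hN m hm (max N N') (le_max_left _ _) w hw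
    have h2 := hN' (max N N') (le_max_right _ _)
    have h3 := di_le (G m w) (G (max N N') w)
    linarith
  have hopen : IsOpen (S ∩ ball z r) := by
    rw [Metric.isOpen_iff]
    rintro w ⟨hwS, hw⟩
    -- a neighbourhood on which all late functions have modulus at least one
    obtain ⟨N, hN⟩ := hC (1 / 4) (by norm_num)
    obtain ⟨N', hN'⟩ := tendsto_di.1 hwS (1 / 4) (by norm_num)
    set M := max N N' with hM
    have h1 : di (G M w) < 1 / 2 := by
      have := hN' M (le_max_right _ _)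
      linarith
    have h2 : ∀ᶠ w' in 𝓝 w, di (G M w') < 1 / 2 :=
      (di_cont (hG M).continuous).continuousAt.eventually_lt continuousAt_const h1
    obtain ⟨δ, hδ, hδball⟩ := Metric.eventually_nhds_iff_ball.1
      (h2.and (isOpen_ball.mem_nhds hw))
    have h3 : ∀ m ≥ N, ∀ w' ∈ ball w δ, 1 ≤ ‖G m w'‖ := by
      intro m hm w' hw'
      apply norm_of_di le_rfl
      have h4 := hN m hm M (le_max_left _ _) w' (hδball w' hw').2
      have h5 := (hδball w' hw').1
      have h6 := di_le (G m w') (G M w')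
      linarith
    refine ⟨δ / 4, by linarith, fun w' hw' => ⟨?_, ?_⟩⟩
    · change Tendsto (fun n => ‖G n w'‖) atTop atTop
      have h4 : ∀ᶠ m in atTop, ‖G m w‖ ≤ (Real.exp 1 * ‖G m w'‖) ^ 5 := by
        filter_upwards [eventually_ge_atTop N] with m hm
        exact harnack_one (hG m).differentiableOn (h3 m hm) hw'
      rw [Filter.tendsto_atTop]
      intro B
      have h5 := (Filter.tendsto_atTop.1 hwS) ((Real.exp 1 * max B 1) ^ 5 + 1)
      filter_upwards [h4, h5] with m h6 h7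
      by_contra hcon
      push Not at hcon
      have h8 : ‖G m w'‖ < max B 1 := lt_of_lt_of_le hcon (le_max_left _ _)
      have h9 : (Real.exp 1 * ‖G m w'‖) ^ 5 ≤ (Real.exp 1 * max B 1) ^ 5 := by
        apply pow_le_pow_left₀ (by positivity)
        exact mul_le_mul_of_nonneg_left h8.le (Real.exp_pos _).le
      linarith
    · exact (hδball w' (ball_subset_ball (by linarith) hw')).2
  have hopen2 : IsOpen (ball z r \ S) := by
    rw [Metric.isOpen_iff]
    rintro w ⟨hw, hwS⟩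
    have h1 : ∃ ε : ℝ, 0 < ε ∧ ∀ N, ∃ m ≥ N, ε < di (G m w) := by
      by_contra hcon
      push Not at hcon
      exact hwS (tendsto_di.2 fun ε hε => hcon ε hε)
    obtain ⟨ε, hε, h1⟩ := h1
    obtain ⟨N, hN⟩ := key ε hε
    obtain ⟨m, hm, hlt⟩ := h1 N
    have h2 : ∀ᶠ w' in 𝓝 w, ε < di (G m w') :=
      continuousAt_const.eventually_lt (di_cont (hG m).continuous).continuousAt hlt
    obtain ⟨δ, hδ, hδball⟩ := Metric.eventually_nhds_iff_ball.1
      (h2.and (isOpen_ball.mem_nhds hw))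
    refine ⟨δ, hδ, fun w' hw' => ⟨(hδball w' hw').2, fun hS' => ?_⟩⟩
    have h3 := hN m hm w' (hδball w' hw').2 hS'
    have h4 := (hδball w' hw').1
    linarith
  have hall : ball z r ⊆ S := by
    have hpre : IsPreconnected (ball z r) := (convex_ball z r).isPreconnected
    by_contra hcon
    obtain ⟨b, hb, hbS⟩ := Set.not_subset.1 hcon
    obtain ⟨y, -, hy1, hy2⟩ := hpre _ _ hopen hopen2 (fun w hw => by
      by_cases h : w ∈ S
      · exact Or.inl ⟨h, hw⟩
      · exact Or.inr ⟨hw, h⟩) ⟨a, ha, hinf, ha⟩ ⟨b, hb, hb, hbS⟩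
    exact hy2.2 hy1.1
  intro B
  obtain ⟨N, hN⟩ := key (1 / max B 1) (by positivity)
  refine ⟨N, fun m hm w hw => ?_⟩
  exact (le_max_left _ _).trans (norm_of_di (le_max_right _ _) (hN m hm w hw (hall hw)))

/-- At a point where the sequence does not diverge uniformly nearby, but diverges at points
nearby, the sequence is not normal. -/
theorem not_normal {g : ℕ → ℂ → ℂ} (hg : ∀ n, Differentiable ℂ (g n)) {z : ℂ} {r : ℝ}
    {a : ℂ} (ha : a ∈ ball z r) (hinf : Tendsto (fun n => ‖g n a‖) atTop atTop)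
    (hbad : ∃ B : ℝ, ∀ N, ∃ n ≥ N, ∃ w ∈ ball z r, ‖g n w‖ < B) :
    ¬ ∀ φ : ℕ → ℕ, StrictMono φ → ∃ ψ : ℕ → ℕ, StrictMono ψ ∧ ∀ ε : ℝ, 0 < ε → ∃ N, ∀ m ≥ N,
      ∀ m' ≥ N, ∀ w ∈ ball z r, dd (g (φ (ψ m)) w) (g (φ (ψ m')) w) < ε := by
  intro h
  obtain ⟨B, hB⟩ := hbad
  have hfreq : ∃ᶠ n in atTop, ∃ w ∈ ball z r, ‖g n w‖ < B := by
    rw [frequently_atTop]
    intro N
    obtain ⟨n, hn, hw⟩ := hB N
    exact ⟨n, hn, hw⟩
  obtain ⟨φ, hφ, hφB⟩ := extraction_of_frequently_atTop hfreq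
  obtain ⟨ψ, hψ, hC⟩ := h φ hφ
  have hto : Tendsto (fun m => φ (ψ m)) atTop atTop := hφ.tendsto_atTop.comp hψ.tendsto_atTop
  obtain ⟨N, hN⟩ := diverge_of_cauchy (G := fun m => g (φ (ψ m))) (fun n => hg _) hC ha
    (hinf.comp hto) B
  obtain ⟨w, hw, hlt⟩ := hφB (ψ N)
  have := hN N le_rfl w hw
  linarith

/-! ### Polynomial growth -/

lemma Phi_diff_z (L : ℕ) (α : ℂ) (n : ℕ) (u : ℝ) : Differentiable ℂ fun z : ℂ => Phi L α z n u := by
  induction n with
  | zero =>
    have : (fun z : ℂ => Phi L α z 0 u) = fun z => z := rfl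
    rw [this]
    exact differentiable_id
  | succ n ih =>
    have : (fun z : ℂ => Phi L α z (n + 1) u) = fun z => Phi L α z n u *
        (1 + α * cr L n u * (1 - Phi L α z n u)) := by
      ext z
      rw [Phi_succ_real']
    rw [this]
    exact ih.mul ((((differentiable_const 1).sub ih).const_mul _).const_add 1)

lemma Phi_large {L : ℕ} {α : ℂ} (hα : α ≠ 0) {u : ℝ} {n : ℕ} (hc : ∀ j < n, cr L j u ≠ 0) (B : ℝ) :
    ∃ ρ : ℝ, ∀ z : ℂ, ρ ≤ ‖z‖ → B ≤ ‖Phi L α z n u‖ := by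
  induction n generalizing B with
  | zero => exact ⟨B, fun z hz => by rwa [Phi_zero]⟩
  | succ n ih =>
    set κ : ℝ := ‖α * (cr L n u : ℂ)‖ with hκ
    have hκ0 : 0 < κ := by
      apply norm_pos_iff.2
      exact mul_ne_zero hα (by exact_mod_cast hc n (Nat.lt_succ_self n))
    obtain ⟨ρ, hρ⟩ := ih (fun j hj => hc j (Nat.lt_succ_of_lt hj)) (max (max B 1) (1 + 2 / κ))
    refine ⟨ρ, fun z hz => ?_⟩
    have h1 := hρ z hz
    have hB : B ≤ ‖Phi L α z n u‖ := ((le_max_left _ _).trans (le_max_left _ _)).trans h1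
    have h2 : 1 + 2 / κ ≤ ‖Phi L α z n u‖ := (le_max_right _ _).trans h1
    rw [Phi_succ_real', norm_mul]
    have h3 : ‖Phi L α z n u‖ - 1 ≤ ‖1 - Phi L α z n u‖ := by
      have := norm_sub_norm_le (Phi L α z n u) 1
      rw [norm_one] at this
      rw [norm_sub_rev]
      exact this
    have h4 : 2 ≤ ‖α * cr L n u * (1 - Phi L α z n u)‖ := by
      rw [norm_mul, ← hκ]
      calc (2 : ℝ) = κ * (2 / κ) := by field_simp
        _ ≤ _ := mul_le_mul_of_nonneg_left (by linarith) hκ0.le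
    have h5 : 1 ≤ ‖1 + α * cr L n u * (1 - Phi L α z n u)‖ := by
      have := norm_sub_norm_le (α * cr L n u * (1 - Phi L α z n u)) (-1)
      rw [norm_neg, norm_one, sub_neg_eq_add, add_comm _ (1 : ℂ)] at this
      linarith
    nlinarith [norm_nonneg (Phi L α z n u)]

lemma Phi_zero_pt (L : ℕ) (α : ℂ) (n : ℕ) (u : ℝ) : Phi L α 0 n u = 0 := by
  induction n with
  | zero => rfl
  | succ n ih => rw [Phi_succ_real', ih, zero_mul]

end Q75.Kan
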