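import Mathlib
import Pool.Agent.Q79.PerLawC

set_option autoImplicit false

open MeasureTheory Set Filter Topology

namespace Pool.Agent.Q75.Lw

/-- the mean of a function over the circle -/
noncomputable def mean (κ : ℝ → ℝ) : ℝ := (∫ t in (-Real.pi)..Real.pi, κ t) / (2 * Real.pi)

/-- a periodic primitive of `κ - mean κ` -/
theorem per_prim {κ : ℝ → ℝ} (hc : Continuous κ) (hp : ∀ t, κ (t + 2 * Real.pi) = κ t)
    (h0 : ∀ t, 0 ≤ κ t) (h1 : ∀ t, κ t ≤ 1) :
    0 ≤ mean κ ∧ mean κ ≤ 1 ∧ ∃ Γ : ℝ → ℝ, (∀ t, HasDerivAt Γ (κ t - mean κ) t) ∧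
      (∀ t, Γ (t + 2 * Real.pi) = Γ t) ∧ ∀ t, |Γ t| ≤ 7 := by
  have hπ := Real.pi_pos
  have hii' : ∀ a b : ℝ, IntervalIntegrable κ volume a b := fun a b => hc.intervalIntegrable a b
  have hm0 : 0 ≤ mean κ := by
    apply div_nonneg _ (by positivity)
    exact intervalIntegral.integral_nonneg (by linarith) (fun t _ => h0 t)
  have hm1 : mean κ ≤ 1 := by
    unfold mean
    rw [div_le_one (by positivity)]
    have h2 : ∫ t in (-Real.pi)..Real.pi, κ t ≤ ∫ t in (-Real.pi)..Real.pi, (1:ℝ) :=
      intervalIntegral.integral_mono_on (by linarith) (hii' _ _) (by simp) (fun t _ => h1 t)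
    rw [intervalIntegral.integral_const] at h2
    simp only [sub_neg_eq_add, smul_eq_mul, mul_one] at h2
    linarith
  refine ⟨hm0, hm1, ?_⟩
  set m := mean κ with hm
  have hii : ∀ a b : ℝ, IntervalIntegrable (fun t => κ t - m) volume a b := fun a b =>
    (hc.sub continuous_const).intervalIntegrable a b
  set Γ : ℝ → ℝ := fun t => ∫ x in (0:ℝ)..t, (κ x - m) with hΓ
  have hdΓ : ∀ t, HasDerivAt Γ (κ t - m) t := by
    intro t
    exact intervalIntegral.integral_hasDerivAt_right (hii 0 t)
      ((hc.sub continuous_const).stronglyMeasurableAtFilter _ _)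
      (hc.sub continuous_const).continuousAt
  have hper : Function.Periodic (fun t => κ t - m) (2 * Real.pi) := by
    intro t; simp only [hp]
  have hzero : ∫ t in (-Real.pi)..Real.pi, (κ t - m) = 0 := by
    rw [intervalIntegral.integral_sub (hii' _ _) (by simp), intervalIntegral.integral_const, hm]
    unfold mean
    simp only [sub_neg_eq_add, smul_eq_mul]
    field_simp
    ring
  have hpΓ : ∀ t, Γ (t + 2 * Real.pi) = Γ t := by
    intro t
    have h2 : Γ (t + 2 * Real.pi) = Γ t + ∫ x in t..(t + 2 * Real.pi), (κ x - m) := by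
      rw [hΓ]
      simp only
      rw [intervalIntegral.integral_add_adjacent_intervals (hii 0 t) (hii t _)]
    rw [h2, hper.intervalIntegral_add_eq t (-Real.pi)]
    have h3 : -Real.pi + 2 * Real.pi = Real.pi := by ring
    rw [h3, hzero, add_zero]
  refine ⟨Γ, hdΓ, hpΓ, ?_⟩
  intro t
  obtain ⟨s, hs, hst⟩ := (show Function.Periodic Γ (2 * Real.pi) from hpΓ).exists_mem_Ico₀
    (by positivity) t
  rw [hst]
  have h3 : ‖∫ x in (0:ℝ)..s, (κ x - m)‖ ≤ 1 * |s - 0| := by
    apply intervalIntegral.norm_integral_le_of_norm_le_const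
    intro x _
    rw [Real.norm_eq_abs, abs_le]
    constructor
    · linarith [h0 x]
    · linarith [h1 x]
  rw [sub_zero, abs_of_nonneg hs.1, one_mul, Real.norm_eq_abs] at h3
  have := Real.pi_lt_d2
  have h4 := hs.2
  exact h3.trans (by linarith)

/-- the ramp -/
noncomputable def ramp (δ x : ℝ) : ℝ := min 1 (max 0 (x / δ))

theorem ramp_cont (δ : ℝ) : Continuous (ramp δ) := by unfold ramp; fun_prop

theorem ramp_nonneg (δ x : ℝ) : 0 ≤ ramp δ x := by unfold ramp; positivity

theorem ramp_le (δ x : ℝ) : ramp δ x ≤ 1 := min_le_left _ _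

theorem ramp_pos {δ x : ℝ} (hδ : 0 < δ) (h : ramp δ x ≠ 0) : 0 < x := by
  by_contra hcon
  push Not at hcon
  apply h
  unfold ramp
  have : x / δ ≤ 0 := div_nonpos_of_nonpos_of_nonneg hcon hδ.le
  rw [max_eq_left this]
  norm_num

theorem ramp_one {δ x : ℝ} (hδ : 0 < δ) (h : δ ≤ x) : ramp δ x = 1 := by
  unfold ramp
  have : 1 ≤ x / δ := by rwa [one_le_div hδ]
  rw [max_eq_right (by linarith), min_eq_left this]

/-- the distance of the direction `t` to the negative axis -/
noncomputable def phi (t : ℝ) : ℝ := Real.arccos (-Real.cos t)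

theorem phi_cont : Continuous phi := by
  unfold phi
  exact Real.continuous_arccos.comp Real.continuous_cos.neg

theorem phi_nonneg (t : ℝ) : 0 ≤ phi t := Real.arccos_nonneg _

theorem phi_le (t : ℝ) : phi t ≤ Real.pi := Real.arccos_le_pi _

theorem phi_per (t : ℝ) : phi (t + 2 * Real.pi) = phi t := by
  unfold phi; rw [Real.cos_add_two_pi]

theorem cos_phi (t : ℝ) : Real.cos (phi t) = -Real.cos t := by
  unfold phi
  rw [Real.cos_arccos]
  · linarith [Real.cos_le_one t]
  · linarith [Real.neg_one_le_cos t]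

theorem phi_eq {t : ℝ} (h1 : 0 ≤ t) (h2 : t ≤ 2 * Real.pi) : phi t = |Real.pi - t| := by
  unfold phi
  have e1 : -Real.cos t = Real.cos |Real.pi - t| := by
    rw [Real.cos_abs, Real.cos_pi_sub]
  rw [e1, Real.arccos_cos (abs_nonneg _)]
  rw [abs_le]; constructor <;> linarith

/-- the trapezoid -/
noncomputable def kap (δ u v t : ℝ) : ℝ := ramp δ (phi t - u) * ramp δ (v - phi t)

theorem kap_cont (δ u v : ℝ) : Continuous (kap δ u v) := by
  unfold kap
  exact ((ramp_cont δ).comp (phi_cont.sub continuous_const)).mul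
    ((ramp_cont δ).comp (continuous_const.sub phi_cont))

theorem kap_nonneg (δ u v t : ℝ) : 0 ≤ kap δ u v t := mul_nonneg (ramp_nonneg _ _) (ramp_nonneg _ _)

theorem kap_le (δ u v t : ℝ) : kap δ u v t ≤ 1 :=
  mul_le_one₀ (ramp_le _ _) (ramp_nonneg _ _) (ramp_le _ _)

theorem kap_per (δ u v t : ℝ) : kap δ u v (t + 2 * Real.pi) = kap δ u v t := by
  unfold kap; rw [phi_per]

theorem kap_supp {δ u v t : ℝ} (hδ : 0 < δ) (h : kap δ u v t ≠ 0) : u < phi t ∧ phi t < v := by
  have h1 := ramp_pos hδ (left_ne_zero_of_mul h)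
  have h2 := ramp_pos hδ (right_ne_zero_of_mul h)
  constructor <;> linarith

/-- lower bound of the mean of the trapezoid -/
theorem kap_mean {δ u v : ℝ} (hδ : 0 < δ) (hv : v ≤ Real.pi) :
    (v - max u 0 - 2 * δ) / Real.pi ≤ mean (kap δ u v) := by
  have hπ := Real.pi_pos
  have hm0 := (per_prim (kap_cont δ u v) (kap_per δ u v) (kap_nonneg δ u v) (kap_le δ u v)).1
  rcases le_or_gt (v - max u 0 - 2 * δ) 0 with hneg | hpos
  · exact (div_nonpos_of_nonpos_of_nonneg hneg hπ.le).trans hm0
  have hii : ∀ a b : ℝ, IntervalIntegrable (kap δ u v) volume a b := fun a b =>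
    (kap_cont δ u v).intervalIntegrable a b
  have hper : Function.Periodic (kap δ u v) (2 * Real.pi) := kap_per δ u v
  have e1 : ∫ t in (-Real.pi)..Real.pi, kap δ u v t = ∫ t in (0:ℝ)..(2 * Real.pi), kap δ u v t := by
    have h1 := hper.intervalIntegral_add_eq (-Real.pi) 0
    rw [show -Real.pi + 2 * Real.pi = Real.pi by ring, zero_add] at h1
    exact h1
  set a := max u 0 + δ with ha
  set b := v - δ with hb
  have ha0 : 0 < a := by have := le_max_right u 0; linarith
  have hab : a < b := by linarith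
  have hone : ∀ t, 0 ≤ t → t ≤ 2 * Real.pi → a ≤ |Real.pi - t| → |Real.pi - t| ≤ b →
      kap δ u v t = 1 := by
    intro t h1 h2 h3 h4
    unfold kap
    rw [phi_eq h1 h2, ramp_one hδ, ramp_one hδ, one_mul]
    · linarith
    · have := le_max_left u 0
      linarith
  have e2 : ∀ p q : ℝ, p ≤ q → (∀ t, p ≤ t → t ≤ q → kap δ u v t = 1) →
      ∫ t in p..q, kap δ u v t = q - p := by
    intro p q hpq h
    have h1 : ∫ t in p..q, kap δ u v t = ∫ t in p..q, (1:ℝ) := by
      apply intervalIntegral.integral_congr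
      intro t ht
      rw [uIcc_of_le hpq] at ht
      exact h t ht.1 ht.2
    rw [h1, intervalIntegral.integral_const]
    simp
  have hn : ∀ p q : ℝ, p ≤ q → 0 ≤ ∫ t in p..q, kap δ u v t := fun p q hpq =>
    intervalIntegral.integral_nonneg hpq (fun t _ => kap_nonneg _ _ _ _)
  have hb2 : b ≤ Real.pi := by linarith
  have h1 := e2 (Real.pi - b) (Real.pi - a) (by linarith) (fun t ht1 ht2 => by
    have h3 : |Real.pi - t| = Real.pi - t := abs_of_nonneg (by linarith)
    exact hone t (by linarith) (by linarith) (by rw [h3]; linarith) (by rw [h3]; linarith))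
  have h2 := e2 (Real.pi + a) (Real.pi + b) (by linarith) (fun t ht1 ht2 => by
    have h3 : |Real.pi - t| = t - Real.pi := by rw [abs_sub_comm]; exact abs_of_nonneg (by linarith)
    exact hone t (by linarith) (by linarith) (by rw [h3]; linarith) (by rw [h3]; linarith))
  have h3 : ∫ t in (0:ℝ)..(2 * Real.pi), kap δ u v t =
      (∫ t in (0:ℝ)..(Real.pi - b), kap δ u v t) + (∫ t in (Real.pi - b)..(Real.pi - a), kap δ u v t)
      + (∫ t in (Real.pi - a)..(Real.pi + a), kap δ u v t)
      + (∫ t in (Real.pi + a)..(Real.pi + b), kap δ u v t)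
      + ∫ t in (Real.pi + b)..(2 * Real.pi), kap δ u v t := by
    rw [intervalIntegral.integral_add_adjacent_intervals (hii _ _) (hii _ _),
      intervalIntegral.integral_add_adjacent_intervals (hii _ _) (hii _ _),
      intervalIntegral.integral_add_adjacent_intervals (hii _ _) (hii _ _),
      intervalIntegral.integral_add_adjacent_intervals (hii _ _) (hii _ _)]
  have h4 := hn 0 (Real.pi - b) (by linarith)
  have h5 := hn (Real.pi - a) (Real.pi + a) (by linarith)
  have h6 := hn (Real.pi + b) (2 * Real.pi) (by linarith)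
  unfold mean
  rw [e1, h3, h1, h2, div_le_div_iff₀ hπ (by positivity)]
  have h7 : v - max u 0 - 2 * δ = b - a := by rw [ha, hb]; ring
  rw [h7]
  nlinarith

end Pool.Agent.Q75.Lw
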