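import Mathlib
import Pool.Agent.Q75.LwA

set_option autoImplicit false

open MeasureTheory Set Filter Topology

namespace Pool.Agent.Q75.Lw

open Pool.Agent.W747.MB Pool.Agent.TH363.CD Pool.Agent.Q79.PA Pool.Agent.Q79.PL

/-- the data -/
structure Da (n k : ℕ) (a b δ m C Cψ τ : ℝ) (η η' Γ ψ ψ' : ℝ → ℝ) : Prop where
  tow : Tow2 n k a b
  δ0 : 0 < δ
  δ1 : δ ≤ 1 / 10
  ang : Ang δ m C η η' Γ
  C7 : 7 ≤ C
  cut : Cut2 (Real.log a) (Real.log b) τ Cψ ψ ψ'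
  t : ∀ c, Y n c ≤ b → ∀ i ≤ k, ‖X n c i‖ ≤ δ * n

section

variable {n k : ℕ} {a b δ m C Cψ τ : ℝ} {η η' Γ ψ ψ' : ℝ → ℝ}

theorem Da.ηc (h : Da n k a b δ m C Cψ τ η η' Γ ψ ψ') : Continuous η := by
  rw [continuous_iff_continuousAt]; intro t; exact (h.ang.d t).continuousAt

theorem Da.ψc (h : Da n k a b δ m C Cψ τ η η' Γ ψ ψ') : Continuous ψ := by
  rw [continuous_iff_continuousAt]; intro t; exact (h.cut.d t).continuousAt

theorem Da.a0 (h : Da n k a b δ m C Cψ τ η η' Γ ψ ψ') : 0 < a := by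
  have := h.tow.ha; linarith

theorem Da.b20 (h : Da n k a b δ m C Cψ τ η η' Γ ψ ψ') : 20 ≤ b := h.tow.ha.trans h.tow.hab

theorem Da.Cψ0 (h : Da n k a b δ m C Cψ τ η η' Γ ψ ψ') : 0 ≤ Cψ := (abs_nonneg _).trans (h.cut.b 0)

theorem Da.err0 (h : Da n k a b δ m C Cψ τ η η' Γ ψ ψ') : 0 ≤ err2 n k a b C Cψ := by
  unfold err2
  have := h.ang.C0
  have := h.Cψ0
  have := h.a0
  have h0 : 0 ≤ (volume (Ann n a b)).toReal := ENNReal.toReal_nonneg
  positivity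

/-- equidistribution of the next argument -/
theorem Da.step (h : Da n k a b δ m C Cψ τ η η' Γ ψ ψ') {j : ℕ} (hj : j ≤ k) {κ : ℝ → ℝ}
    (hc : Continuous κ) (hp : ∀ t, κ (t + 2 * Real.pi) = κ t)
    (h0 : ∀ t, 0 ≤ κ t) (h1 : ∀ t, κ t ≤ 1) :
    |(∫ c, κ (X n c (j + 1)).arg * chi n ψ η j c) - mean κ * ∫ c, chi n ψ η j c| ≤
      err2 n k a b C Cψ := by
  have hm := err2_mono (n := n) (b := b) (Cψ := Cψ) h.ang.C0 h.a0 hj
  have hang := h.ang
  obtain ⟨hm0, hm1, G, hG, hGp, hGb⟩ := per_prim hc hp h0 h1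
  rcases Nat.eq_zero_or_pos j with hj0 | hj0
  · subst hj0
    have T0 := h.tow.mono (Nat.zero_le k)
    rw [rot0 T0 h.cut h.ηc hang.n0 hang.n1 hc hG hGp (fun t => (hGb t).trans h.C7) h0 h1
        hm0 hm1, sub_self, abs_zero]
    exact h.err0
  · refine le_trans ?_ hm
    exact ibp2 hj0 (h.tow.mono hj) h.δ0 h.cut hang.d hang.p hang.n0 hang.n1 hang.b hang.z hc
        hG hGp (fun t => (hGb t).trans h.C7) h0 h1 hm0 hm1

/-- the mean of `η` is `m` -/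
theorem ang_mean (h : Ang δ m C η η' Γ) (hc : Continuous η) : mean η = m := by
  have hπ := Real.pi_pos
  have h1 : ∫ t in (-Real.pi)..Real.pi, (η t - m) = Γ Real.pi - Γ (-Real.pi) :=
    intervalIntegral.integral_eq_sub_of_hasDerivAt (fun t _ => h.dG t)
      ((hc.sub continuous_const).intervalIntegrable _ _)
  have h2 : Γ Real.pi = Γ (-Real.pi) := by
    rw [← h.pG (-Real.pi)]; congr 1; ring
  rw [h2, sub_self, intervalIntegral.integral_sub (hc.intervalIntegrable _ _) (by simp),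
    intervalIntegral.integral_const] at h1
  unfold mean
  rw [div_eq_iff (by positivity)]
  simp only [sub_neg_eq_add, smul_eq_mul] at h1
  linarith

theorem Da.I_ge (h : Da n k a b δ m C Cψ τ η η' Γ ψ ψ') (j : ℕ) (hj : j ≤ k + 1) :
    m ^ j * (∫ c, chi n ψ η 0 c) - j * err2 n k a b C Cψ ≤ ∫ c, chi n ψ η j c := by
  induction j with
  | zero => simp
  | succ j ih =>
    have h1 := ih (by omega)
    have h2 := h.step (j := j) (by omega) h.ηc h.ang.p h.ang.n0 h.ang.n1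
    rw [← Dat.I_succ (n := n) (ψ := ψ) (η := η) j, ang_mean h.ang h.ηc] at h2
    rw [abs_le] at h2
    have hm0 := h.ang.m0
    have hm1 := h.ang.m1
    have he := h.err0
    have h3 := mul_le_mul_of_nonneg_left h1 hm0
    have h4 : m * (j * err2 n k a b C Cψ) ≤ 1 * (j * err2 n k a b C Cψ) :=
      mul_le_mul_of_nonneg_right hm1 (by positivity)
    push_cast
    rw [pow_succ]
    nlinarith [h2.1]

/-- an admissible test function -/
structure Adm (δ : ℝ) (κ : ℝ → ℝ) : Prop where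
  c : Continuous κ
  p : ∀ t, κ (t + 2 * Real.pi) = κ t
  n0 : ∀ t, 0 ≤ κ t
  n1 : ∀ t, κ t ≤ 1
  z : ∀ t, δ ≤ Real.cos t → κ t = 0

theorem Da.J_ge (h : Da n k a b δ m C Cψ τ η η' Γ ψ ψ') (j : ℕ) (hj : j ≤ k) {κ : ℝ → ℝ}
    (hκ : Adm δ κ) :
    mean κ * m ^ j * (∫ c, chi n ψ η 0 c) - (j + 1) * err2 n k a b C Cψ ≤
      ∫ c, κ (X n c (j + 1)).arg * chi n ψ η j c := by
  have h1 := h.I_ge j (by omega)
  have h2 := h.step hj hκ.c hκ.p hκ.n0 hκ.n1
  rw [abs_le] at h2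
  obtain ⟨hm0, hm1, _⟩ := per_prim hκ.c hκ.p hκ.n0 hκ.n1
  have he := h.err0
  have h3 := mul_le_mul_of_nonneg_left h1 hm0
  have h4 : mean κ * (j * err2 n k a b C Cψ) ≤ 1 * (j * err2 n k a b C Cψ) :=
    mul_le_mul_of_nonneg_right hm1 (by positivity)
  nlinarith [h2.1]

/-- the sum of the disjoint pieces -/
noncomputable def PG (n : ℕ) (ψ η : ℝ → ℝ) (κ : ℕ → ℝ → ℝ) (F : Finset ℕ) (c : ℂ) : ℝ :=
  ∑ j ∈ F, κ j (X n c (j + 1)).arg * chi n ψ η j c

theorem Da.PG_le (h : Da n k a b δ m C Cψ τ η η' Γ ψ ψ') {κ : ℕ → ℝ → ℝ}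
    (hκ : ∀ j, Adm δ (κ j)) {K : ℕ} {F : Finset ℕ} (hF : F ⊆ Finset.range K) (c : ℂ) :
    PG n ψ η κ F c ≤ chi n ψ η 0 c := by
  have hd : ∀ j t, κ j t + η t ≤ 1 := by
    intro j t
    rcases lt_or_ge (Real.cos t) δ with h1 | h1
    · rw [h.ang.z t h1, add_zero]; exact (hκ j).n1 t
    · rw [(hκ j).z t h1, zero_add]; exact h.ang.n1 t
  have key : ∀ K, ∑ j ∈ Finset.range K, κ j (X n c (j + 1)).arg * chi n ψ η j c +
      chi n ψ η K c ≤ chi n ψ η 0 c := by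
    intro K
    induction K with
    | zero => simp
    | succ K ih =>
      rw [Finset.sum_range_succ, chi_succ]
      have h1 := hd K (X n c (K + 1)).arg
      have h2 := chi_nonneg (n := n) h.cut.n0 h.ang.n0 K c
      nlinarith
  have h1 := key K
  have h2 := chi_nonneg (n := n) h.cut.n0 h.ang.n0 K c
  have h3 : PG n ψ η κ F c ≤
      ∑ j ∈ Finset.range K, κ j (X n c (j + 1)).arg * chi n ψ η j c := by
    unfold PG
    apply Finset.sum_le_sum_of_subset_of_nonneg hF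
    intro j _ _
    exact mul_nonneg ((hκ j).n0 _) (chi_nonneg h.cut.n0 h.ang.n0 j c)
  linarith

theorem Da.PG_nonneg (h : Da n k a b δ m C Cψ τ η η' Γ ψ ψ') {κ : ℕ → ℝ → ℝ}
    (hκ : ∀ j, Adm δ (κ j)) (F : Finset ℕ) (c : ℂ) : 0 ≤ PG n ψ η κ F c :=
  Finset.sum_nonneg fun j _ => mul_nonneg ((hκ j).n0 _) (chi_nonneg h.cut.n0 h.ang.n0 j c)

theorem Da.PG_term_int (h : Da n k a b δ m C Cψ τ η η' Γ ψ ψ') {κ : ℕ → ℝ → ℝ}
    (hκ : ∀ j, Adm δ (κ j)) (j : ℕ) :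
    Integrable fun c => κ j (X n c (j + 1)).arg * chi n ψ η j c := by
  have hu : Measurable fun c => κ j (X n c (j + 1)).arg :=
    (hκ j).c.measurable.comp (Complex.measurable_arg.comp (X_continuous n (j + 1)).measurable)
  apply chi_integrable2 h.tow.hn h.tow.ha h.b20 h.tow.hbn h.cut h.ηc h.ang.n0 h.ang.n1 j hu
  intro c
  rw [abs_of_nonneg ((hκ j).n0 _)]; exact (hκ j).n1 _

theorem Da.PG_int (h : Da n k a b δ m C Cψ τ η η' Γ ψ ψ') {κ : ℕ → ℝ → ℝ}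
    (hκ : ∀ j, Adm δ (κ j)) (F : Finset ℕ) : Integrable (PG n ψ η κ F) := by
  unfold PG
  exact integrable_finsetSum _ fun j _ => h.PG_term_int hκ j

theorem Da.PG_meas (h : Da n k a b δ m C Cψ τ η η' Γ ψ ψ') {κ : ℕ → ℝ → ℝ}
    (hκ : ∀ j, Adm δ (κ j)) (F : Finset ℕ) : Measurable (PG n ψ η κ F) := by
  unfold PG
  apply Finset.measurable_sum
  intro j _
  exact ((hκ j).c.measurable.comp (Complex.measurable_arg.comp
      (X_continuous n (j + 1)).measurable)).mul (chi_measurable h.ψc h.ηc j)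

/-- the integral of the pieces -/
theorem Da.PG_ge (h : Da n k a b δ m C Cψ τ η η' Γ ψ ψ') {κ : ℕ → ℝ → ℝ}
    (hκ : ∀ j, Adm δ (κ j)) {F : Finset ℕ} (hF : F ⊆ Finset.range k) :
    (∑ j ∈ F, mean (κ j) * m ^ j) * (∫ c, chi n ψ η 0 c) - (k:ℝ) ^ 2 * err2 n k a b C Cψ ≤
      ∫ c, PG n ψ η κ F c := by
  have he := h.err0
  have hint : ∫ c, PG n ψ η κ F c =
      ∑ j ∈ F, (∫ c, κ j (X n c (j + 1)).arg * chi n ψ η j c) := by
    unfold PG
    rw [integral_finsetSum _ fun j _ => h.PG_term_int hκ j]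
  have hsum : ∑ j ∈ F, (mean (κ j) * m ^ j * (∫ c, chi n ψ η 0 c) -
      (k:ℝ) * err2 n k a b C Cψ) ≤
      ∑ j ∈ F, (∫ c, κ j (X n c (j + 1)).arg * chi n ψ η j c) := by
    apply Finset.sum_le_sum
    intro j hj
    have hj' := Finset.mem_range.1 (hF hj)
    have h1 := h.J_ge j (by omega) (hκ j)
    have h2 : ((j:ℝ) + 1) * err2 n k a b C Cψ ≤ (k:ℝ) * err2 n k a b C Cψ := by
      apply mul_le_mul_of_nonneg_right _ he
      have : (j:ℝ) + 1 ≤ k := by exact_mod_cast hj'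
      linarith
    linarith
  rw [Finset.sum_sub_distrib, ← Finset.sum_mul, Finset.sum_const, nsmul_eq_mul] at hsum
  have hcard : (F.card : ℝ) ≤ k := by
    have := Finset.card_le_card hF
    rw [Finset.card_range] at this
    exact_mod_cast this
  have h3 : (F.card : ℝ) * ((k:ℝ) * err2 n k a b C Cψ) ≤ k * ((k:ℝ) * err2 n k a b C Cψ) :=
    mul_le_mul_of_nonneg_right hcard (by positivity)
  rw [hint]
  have e1 : (k:ℝ) ^ 2 * err2 n k a b C Cψ = k * ((k:ℝ) * err2 n k a b C Cψ) := by ring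
  rw [e1]
  linarith

theorem Da.mem_of_ne (h : Da n k a b δ m C Cψ τ η η' Γ ψ ψ') {j : ℕ} {c : ℂ}
    (hc : chi n ψ η j c ≠ 0) :
    c ∈ Ann n a b ∧ ∀ i < j, δ ≤ Real.cos (X n c (i + 1)).arg := by
  have ha := h.tow.ha
  have hb := h.b20
  constructor
  · by_contra hcon
    apply hc
    have : Y n c < a ∨ b < Y n c := by
      by_contra h2
      push Not at h2
      exact hcon ⟨h2.1, h2.2⟩
    unfold chi
    rw [psi_zero ha hb h.cut.z1 h.cut.z2 this, zero_mul]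
  · intro i hi
    by_contra hcon
    push Not at hcon
    apply hc
    unfold chi
    rw [Finset.prod_eq_zero (Finset.mem_range.mpr hi) (h.ang.z _ hcon), mul_zero]

/-- the good parameters of level `j`, with the last argument in the support of `κ` -/
theorem Da.low (h : Da n k a b δ m C Cψ τ η η' Γ ψ ψ') {κ : ℕ → ℝ → ℝ}
    (hκ : ∀ j, Adm δ (κ j)) {F : Finset ℕ} (hF : F ⊆ Finset.range k) {S : Set ℂ}
    (hS : ∀ j ∈ F, ∀ c ∈ Ann n a b, (∀ i < j, δ ≤ Real.cos (X n c (i + 1)).arg) →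
      κ j (X n c (j + 1)).arg ≠ 0 → c ∈ S) :
    ENNReal.ofReal (∫ c, PG n ψ η κ F c) ≤ volume S := by
  apply vol_ge (h.PG_meas hκ F) (h.PG_int hκ F) (h.PG_nonneg hκ F)
  · intro c
    exact (h.PG_le hκ hF c).trans (chi_le_one h.cut.n0 h.cut.n1 h.ang.n0 h.ang.n1 0 c)
  · intro c hc
    obtain ⟨j, hj, hjc⟩ := Finset.exists_ne_zero_of_sum_ne_zero hc
    obtain ⟨h1, h2⟩ := h.mem_of_ne (right_ne_zero_of_mul hjc)
    exact hS j hj c h1 h2 (left_ne_zero_of_mul hjc)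

/-- upper bound -/
theorem Da.up (h : Da n k a b δ m C Cψ τ η η' Γ ψ ψ') {κ : ℕ → ℝ → ℝ}
    (hκ : ∀ j, Adm δ (κ j)) {F : Finset ℕ} (hF : F ⊆ Finset.range k) {S : Set ℂ}
    (hSA : S ⊆ Ann n a b)
    (hS : ∀ j ∈ F, ∀ c ∈ Ann n a b, (∀ i < j, δ ≤ Real.cos (X n c (i + 1)).arg) →
      κ j (X n c (j + 1)).arg ≠ 0 → c ∉ S) :
    volume S ≤ ENNReal.ofReal ((volume (Ann n a b)).toReal - ∫ c, PG n ψ η κ F c) := by
  apply vol_le (h.PG_meas hκ F) (h.PG_int hκ F) (h.PG_nonneg hκ F) _ (Ann_meas n a b) hSA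
  · intro c hc
    apply Finset.sum_eq_zero
    intro j hj
    by_contra hjc
    obtain ⟨h1, h2⟩ := h.mem_of_ne (right_ne_zero_of_mul hjc)
    exact hS j hj c h1 h2 (left_ne_zero_of_mul hjc) hc
  · intro c hc
    obtain ⟨j, hj, hjc⟩ := Finset.exists_ne_zero_of_sum_ne_zero hc
    exact (h.mem_of_ne (right_ne_zero_of_mul hjc)).1
  · rw [ENNReal.ofReal_toReal (Ann_ne_top h.tow.hn h.tow.hbn)]
  · intro c
    exact (h.PG_le hκ hF c).trans (chi_le_one h.cut.n0 h.cut.n1 h.ang.n0 h.ang.n1 0 c)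

end

/-- the trapezoids are admissible -/
theorem kap_adm {δ u v : ℝ} (hδ : 0 < δ) (hv : v ≤ Real.pi / 2) : Adm δ (kap δ u v) where
  c := kap_cont _ _ _
  p := kap_per _ _ _
  n0 := kap_nonneg _ _ _
  n1 := kap_le _ _ _
  z := by
    intro t ht
    by_contra hne
    obtain ⟨h1, h2⟩ := kap_supp hδ hne
    have h3 : Real.cos (phi t) = -Real.cos t := cos_phi t
    have h4 : 0 ≤ Real.cos (phi t) := by
      apply Real.cos_nonneg_of_mem_Icc
      have := phi_nonneg t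
      constructor
      · linarith [Real.pi_pos]
      · linarith
    linarith

end Pool.Agent.Q75.Lw
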