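import Mathlib
import Pool.Agent.Q75.LwB

set_option autoImplicit false

open MeasureTheory Set Filter Topology

namespace Pool.Agent.Q75.Lw

open Pool.Agent.W747.MB Pool.Agent.TH363.CD Pool.Agent.Q79.PA Pool.Agent.Q79.PL

theorem ang_bump {δ m C C' : ℝ} {η η' Γ : ℝ → ℝ} (h : Ang δ m C η η' Γ) (hC : C ≤ C') :
    Ang δ m C' η η' Γ :=
  ⟨h.d, h.dG, h.p, h.pG, h.n0, h.n1, h.z, fun t => (h.b t).trans hC, fun t => (h.bG t).trans hC,
    h.m0, h.m1, h.C0.trans hC⟩

section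

variable {n k : ℕ} {a b δ m C Cψ τ : ℝ} {η η' Γ ψ ψ' : ℝ → ℝ}

theorem Da.int0 (h : Da n k a b δ m C Cψ τ η η' Γ ψ ψ') : Integrable (fun c => chi n ψ η 0 c) := by
  have := chi_integrable2 h.tow.hn h.tow.ha h.b20 h.tow.hbn h.cut h.ηc h.ang.n0 h.ang.n1 0
    (u := fun _ => (1:ℝ)) measurable_const (fun c => by simp)
  simpa using this

theorem Da.I_zero (h : Da n k a b δ m C Cψ τ η η' Γ ψ ψ') (hτ : 0 ≤ τ) :
    (volume (Ann n (a * Real.exp τ) (b / Real.exp τ))).toReal ≤ ∫ c, chi n ψ η 0 c := by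
  have ha := h.tow.ha
  have hb := h.b20
  have hn := h.tow.hn
  have hbn := h.tow.hbn
  have he1 : (1:ℝ) ≤ Real.exp τ := Real.one_le_exp hτ
  have ha0 : 0 < a := by linarith
  have hb0 : 0 < b := by linarith
  have hbn' : b / Real.exp τ ≤ n := (div_le_self hb0.le he1).trans hbn
  have hind : Integrable ((Ann n (a * Real.exp τ) (b / Real.exp τ)).indicator
      (fun _ => (1:ℝ))) := by
    rw [integrable_indicator_iff (Ann_meas n _ _)]
    exact integrableOn_const (Ann_ne_top hn hbn')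
  have h1 : ∫ c, (Ann n (a * Real.exp τ) (b / Real.exp τ)).indicator (fun _ => (1:ℝ)) c ≤
      ∫ c, chi n ψ η 0 c := by
    apply integral_mono hind h.int0
    intro c
    simp only
    by_cases hc : c ∈ Ann n (a * Real.exp τ) (b / Real.exp τ)
    · rw [indicator_of_mem hc]
      unfold chi
      obtain ⟨c1, c2⟩ := hc
      have hY0 : 0 < Y n c := lt_of_lt_of_le (by positivity) c1
      rw [h.cut.o]
      · simp
      · have := Real.log_le_log (by positivity) c1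
        rwa [Real.log_mul ha0.ne' (Real.exp_pos _).ne', Real.log_exp] at this
      · have := Real.log_le_log hY0 c2
        rwa [Real.log_div hb0.ne' (Real.exp_pos _).ne', Real.log_exp] at this
    · rw [indicator_of_notMem hc]
      exact chi_nonneg h.cut.n0 h.ang.n0 0 c
  rw [integral_indicator_const _ (Ann_meas n _ _)] at h1
  simpa [measureReal_def] using h1

theorem Da.I_zero_le (h : Da n k a b δ m C Cψ τ η η' Γ ψ ψ') :
    ∫ c, chi n ψ η 0 c ≤ (volume (Ann n a b)).toReal := by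
  have hfin : volume (Ann n a b) ≠ ⊤ := Ann_ne_top h.tow.hn h.tow.hbn
  have h1 := vol_ge (chi_measurable h.ψc h.ηc 0) h.int0 (fun c => chi_nonneg h.cut.n0 h.ang.n0 0 c)
    (fun c => chi_le_one h.cut.n0 h.cut.n1 h.ang.n0 h.ang.n1 0 c) (S := Ann n a b)
    (fun c hc => (h.mem_of_ne hc).1)
  exact (ENNReal.ofReal_le_iff_le_toReal hfin).1 h1

end

/-- the data exist for large `n` -/
theorem da_eventually (K : ℕ) {δ lam ε : ℝ} (h0 : 0 < δ) (h1 : δ ≤ 1 / 10) (hε : 0 < ε)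
    (hε1 : ε ≤ 1) (hl : 1 < lam) :
    ∃ (m C Cψ τ T : ℝ), 1 / 2 - δ ≤ m ∧ m ≤ 1 ∧ 20 ≤ T ∧ ∀ᶠ n : ℕ in atTop,
      ∀ Y : ℝ, T ≤ Y → lam * Y ≤ δ * Real.log^[K] (n:ℝ) →
      ∃ η η' Γ ψ ψ' : ℝ → ℝ, Da n (K + 1) Y (lam * Y) δ m C Cψ τ η η' Γ ψ ψ' ∧
        (1 - ε) * (volume (Ann n Y (lam * Y))).toReal ≤ ∫ c, chi n ψ η 0 c ∧
        (((K + 1 : ℕ) : ℝ)) ^ 2 * err2 n (K + 1) Y (lam * Y) C Cψ ≤
          ε * (volume (Ann n Y (lam * Y))).toReal := by
  have hπ := Real.pi_pos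
  have hll : 0 < Real.log lam := Real.log_pos hl
  set τ := ε / 2 * Real.log lam / 2 with hτd
  have hτ : 0 < τ := by positivity
  obtain ⟨m, C₀, η, η', Γ, hA₀, hm⟩ := exists_ang h0 (by linarith : δ ≤ 1 / 4)
  set C := max C₀ 7 with hCd
  have hA : Ang δ m C η η' Γ := ang_bump hA₀ (le_max_left _ _)
  have hC7 : 7 ≤ C := le_max_right _ _
  obtain ⟨Cψ, hCψ, hcut⟩ := exists_cut2 hτ
  set R := ((K:ℝ) + 1) ^ 2 * (2 * C * (2 * Cψ + 2 * C * (K + 1) + 16)) with hR
  have hC0 : 0 ≤ C := by linarith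
  have hR0 : 0 ≤ R := by positivity
  refine ⟨m, C, Cψ, τ, max 20 (R / ε), hm, hA.m1, le_max_left _ _, ?_⟩
  have hexp : Tendsto (fun n : ℕ => Real.exp (-(2 * (Real.log n / ((n:ℝ) - 1))))) atTop
      (𝓝 (Real.exp (-(2 * 0)))) :=
    (Real.continuous_exp.tendsto _).comp ((log_n_tendsto.const_mul 2).neg)
  have hev := hexp.eventually_const_lt (show 1 - ε / 2 < Real.exp (-(2 * 0)) by
    rw [mul_zero, neg_zero, Real.exp_zero]; linarith)
  filter_upwards [iter_bound' h0 (by linarith : δ ≤ 1 / 4) K, hev, eventually_ge_atTop 2]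
    with n a1 a2 a7
  intro Y hTY hY
  have hY20 : 20 ≤ Y := (le_max_left _ _).trans hTY
  have hYR : R / ε ≤ Y := (le_max_right _ _).trans hTY
  set s := Real.log^[K] (n:ℝ) with hs
  have hbs : δ * s ≤ δ * n := (le_iter K _).trans a1
  have hnr : (2:ℝ) ≤ n := by exact_mod_cast a7
  have hYl : Y ≤ lam * Y := by nlinarith
  have hn1 : (0:ℝ) < (n:ℝ) - 1 := by linarith
  have hY0 : 0 < Y := by linarith
  have hlevel : ∀ c, Pool.Agent.W747.MB.Y n c ≤ lam * Y → ∀ i ≤ K + 1, ‖X n c i‖ ≤ δ * n := by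
    intro c hc i hi
    rcases Nat.eq_zero_or_pos i with h | h
    · subst h
      simp only [X, norm_zero]
      positivity
    · obtain ⟨j, rfl⟩ : ∃ j, i = j + 1 := ⟨i - 1, by omega⟩
      have hb1 : 1 ≤ δ * s := by linarith
      exact (tower_bound a7 hb1 (hc.trans hY) j).trans ((tower_mono (by omega)).trans a1)
  have tow : Tow2 n (K + 1) Y (lam * Y) := by
    refine ⟨a7, by linarith, hYl, by nlinarith, ?_⟩
    intro c hc i hi
    refine (hlevel c hc i hi).trans ?_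
    nlinarith
  obtain ⟨ψ, ψ', hψ⟩ := hcut (Real.log Y) (Real.log (lam * Y))
  have hd : Da n (K + 1) Y (lam * Y) δ m C Cψ τ η η' Γ ψ ψ' :=
    ⟨tow, h0, h1, hA, hC7, hψ, hlevel⟩
  refine ⟨η, η', Γ, ψ, ψ', hd, ?_, ?_⟩
  · have hbn := hd.tow.hbn
    set V := (volume (Ann n Y (lam * Y))).toReal with hV
    have hV1 : V ≤ 2 * Real.pi * Real.log lam / (n - 1) := by
      have h2 := (vol_Ann_bounds a7 (by linarith : (1:ℝ) ≤ Y) hd.tow.hab hbn).1
      have h3 : lam * Y / Y = lam := by field_simp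
      rw [h3] at h2
      exact ENNReal.toReal_le_of_le_ofReal (by positivity) h2
    refine le_trans ?_ (hd.I_zero hτ.le)
    have e0 : 1 ≤ Real.exp τ := Real.one_le_exp hτ.le
    have hτ2 : 2 * τ ≤ Real.log lam := by
      rw [hτd]
      nlinarith
    have e1 : Y * Real.exp τ ≤ lam * Y / Real.exp τ := by
      rw [le_div_iff₀ (Real.exp_pos _), mul_assoc, ← Real.exp_add, ← two_mul, mul_comm lam]
      apply mul_le_mul_of_nonneg_left _ hY0.le
      rw [← Real.exp_log (by linarith : 0 < lam)]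
      exact Real.exp_le_exp.2 hτ2
    have e2 : lam * Y / Real.exp τ ≤ n := (div_le_self (by positivity) e0).trans hbn
    have h2 := (vol_Ann_bounds a7 (show 1 ≤ Y * Real.exp τ by nlinarith) e1 e2).2
    have hfin : volume (Ann n (Y * Real.exp τ) (lam * Y / Real.exp τ)) ≠ ⊤ := Ann_ne_top a7 e2
    have h3 := (ENNReal.ofReal_le_iff_le_toReal hfin).1 h2
    refine le_trans ?_ h3
    have e3 : Real.log (lam * Y / Real.exp τ / (Y * Real.exp τ)) = Real.log lam - 2 * τ := by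
      have : lam * Y / Real.exp τ / (Y * Real.exp τ) = lam / (Real.exp τ * Real.exp τ) := by
        field_simp
      rw [this, Real.log_div (by linarith) (by positivity), ← Real.exp_add, Real.log_exp]
      ring
    have e4 : -(2 * Real.log n / ((n:ℝ) - 1)) = -(2 * (Real.log n / ((n:ℝ) - 1))) := by ring
    rw [e3, e4]
    have e5 : Real.log lam - 2 * τ = (1 - ε / 2) * Real.log lam := by
      rw [hτd]; ring
    rw [e5]
    have e6 : 0 ≤ 1 - ε / 2 := by linarith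
    calc (1 - ε) * V ≤ ((1 - ε / 2) * (1 - ε / 2)) * V := by
          apply mul_le_mul_of_nonneg_right _ ENNReal.toReal_nonneg
          nlinarith
      _ ≤ ((1 - ε / 2) * (1 - ε / 2)) * (2 * Real.pi * Real.log lam / (n - 1)) :=
          mul_le_mul_of_nonneg_left hV1 (by positivity)
      _ = 2 * Real.pi * ((1 - ε / 2) * Real.log lam) / (n - 1) * (1 - ε / 2) := by ring
      _ ≤ 2 * Real.pi * ((1 - ε / 2) * Real.log lam) / (n - 1) *
          Real.exp (-(2 * (Real.log n / ((n:ℝ) - 1)))) := by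
          apply mul_le_mul_of_nonneg_left a2.le
          positivity
  · unfold err2
    push_cast
    have e1 : ((K:ℝ) + 1) ^ 2 * (2 * C * ((2 * Cψ + 2 * C * (K + 1) + 16) / Y) *
        (volume (Ann n Y (lam * Y))).toReal) =
      R / Y * (volume (Ann n Y (lam * Y))).toReal := by rw [hR]; ring
    rw [e1]
    apply mul_le_mul_of_nonneg_right _ ENNReal.toReal_nonneg
    rw [div_le_iff₀ hY0]
    rw [div_le_iff₀ hε] at hYR
    linarith

/-- lower bound of the weights -/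
theorem weight {δ m p M : ℝ} (hδ : 0 < δ) (hδ1 : δ ≤ 1 / 10) (hm : 1 / 2 - δ ≤ m) (hm1 : m ≤ 1)
    (hp0 : 0 ≤ p) (hp1 : p ≤ 1) (hM : p - 2 * δ ≤ M) (j : ℕ) :
    p * (1 / 2) ^ j - 3 * δ ≤ M * m ^ j := by
  have h1 : (1 / 2 : ℝ) ^ j - δ ≤ m ^ j := by
    refine le_trans ?_ (pow_le_pow_left₀ (by linarith) hm j)
    have h2 : (1:ℝ) + j * (-(2 * δ)) ≤ (1 + -(2 * δ)) ^ j :=
      one_add_mul_le_pow (by linarith) j
    have h3 : (1 / 2 - δ) ^ j = (1 / 2) ^ j * (1 + -(2 * δ)) ^ j := by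
      rw [← mul_pow]; congr 1; ring
    rw [h3]
    have h4 : (0:ℝ) < (1 / 2) ^ j := by positivity
    have h5 : (j:ℝ) * 2 * (1 / 2) ^ j ≤ 1 := by
      have : ∀ j : ℕ, (j:ℝ) * 2 ≤ 2 ^ j := by
        intro j
        induction j with
        | zero => norm_num
        | succ j ih =>
          rcases Nat.eq_zero_or_pos j with h | h
          · subst h; norm_num
          · push_cast
            rw [pow_succ]
            have : (1:ℝ) ≤ j := by exact_mod_cast h
            linarith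
      have h6 := this j
      have h7 : (1 / 2 : ℝ) ^ j = 1 / 2 ^ j := by rw [one_div, inv_pow, one_div]
      rw [h7, mul_one_div, div_le_one (by positivity)]
      exact h6
    nlinarith [mul_le_mul_of_nonneg_left h2 h4.le]
  have h2 : 0 ≤ m ^ j := pow_nonneg (by linarith) j
  have h3 : m ^ j ≤ 1 := pow_le_one₀ (by linarith) hm1
  have e1 : M * m ^ j - p * (1 / 2) ^ j = (M - p) * m ^ j + p * (m ^ j - (1 / 2) ^ j) := by ring
  have e2 : -(2 * δ) * 1 ≤ (M - p) * m ^ j := by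
    rcases le_or_gt 0 (M - p) with h | h
    · have := mul_nonneg h h2
      linarith
    · have h5 : (M - p) * 1 ≤ (M - p) * m ^ j := mul_le_mul_of_nonpos_left h3 h.le
      linarith
  have e3 : -δ ≤ p * (m ^ j - (1 / 2) ^ j) := by
    have h5 : p * (-δ) ≤ p * (m ^ j - (1 / 2) ^ j) := mul_le_mul_of_nonneg_left (by linarith) hp0
    nlinarith
  linarith

/-- from the weights to the integral -/
theorem PG_final {n K : ℕ} {a b δ m C Cψ τ ε : ℝ} {η η' Γ ψ ψ' : ℝ → ℝ}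
    (h : Da n (K + 1) a b δ m C Cψ τ η η' Γ ψ ψ') (hm : 1 / 2 - δ ≤ m) (hε : 0 < ε)
    (hI : (1 - ε) * (volume (Ann n a b)).toReal ≤ ∫ c, chi n ψ η 0 c)
    (hE : (((K + 1 : ℕ) : ℝ)) ^ 2 * err2 n (K + 1) a b C Cψ ≤ ε * (volume (Ann n a b)).toReal)
    {κ : ℕ → ℝ → ℝ} (hκ : ∀ j, Adm δ (κ j)) {F : Finset ℕ} (hF : F ⊆ Finset.range (K + 1))
    {p : ℕ → ℝ} (hp0 : ∀ j, 0 ≤ p j) (hp1 : ∀ j, p j ≤ 1 / 2)
    (hp : ∀ j ∈ F, p j - 2 * δ ≤ mean (κ j)) :
    (∑ j ∈ F, p j * (1 / 2) ^ j - 3 * δ * (K + 1) - 2 * ε) * (volume (Ann n a b)).toReal ≤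
      ∫ c, PG n ψ η κ F c := by
  refine le_trans ?_ (h.PG_ge hκ hF)
  set V := (volume (Ann n a b)).toReal with hV
  have hV0 : 0 ≤ V := ENNReal.toReal_nonneg
  set I0 := ∫ c, chi n ψ η 0 c with hI0
  have hI1 : I0 ≤ V := h.I_zero_le
  have hI00 : 0 ≤ I0 := integral_nonneg fun c => chi_nonneg h.cut.n0 h.ang.n0 0 c
  have h1 : ∑ j ∈ F, p j * (1 / 2) ^ j - 3 * δ * (K + 1) ≤ ∑ j ∈ F, mean (κ j) * m ^ j := by
    have h2 : ∑ j ∈ F, (p j * (1 / 2) ^ j - 3 * δ) ≤ ∑ j ∈ F, mean (κ j) * m ^ j :=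
      Finset.sum_le_sum fun j hj =>
        weight h.δ0 h.δ1 hm h.ang.m1 (hp0 j) (by linarith [hp1 j]) (hp j hj) j
    rw [Finset.sum_sub_distrib, Finset.sum_const, nsmul_eq_mul] at h2
    have hcard : (F.card : ℝ) ≤ K + 1 := by
      have := Finset.card_le_card hF
      rw [Finset.card_range] at this
      exact_mod_cast this
    have := h.δ0
    nlinarith
  set s := ∑ j ∈ F, p j * (1 / 2) ^ j with hs
  have hs1 : s ≤ 1 := by
    have h2 : s ≤ ∑ j ∈ Finset.range (K + 1), (1 / 2 : ℝ) ^ (j + 1) := by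
      have h3 : s ≤ ∑ j ∈ F, (1 / 2 : ℝ) ^ (j + 1) := by
        apply Finset.sum_le_sum
        intro j _
        rw [pow_succ]
        have : (0:ℝ) < (1 / 2) ^ j := by positivity
        nlinarith [hp1 j]
      exact h3.trans (Finset.sum_le_sum_of_subset_of_nonneg hF fun j _ _ => by positivity)
    have e3 : ∀ K : ℕ, ∑ j ∈ Finset.range K, (1 / 2 : ℝ) ^ (j + 1) = 1 - (1 / 2) ^ K := by
      intro K
      induction K with
      | zero => simp
      | succ K ih => rw [Finset.sum_range_succ, ih, pow_succ]; ring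
    rw [e3] at h2
    have : (0:ℝ) ≤ (1 / 2) ^ (K + 1) := by positivity
    linarith
  have hδ0 := h.δ0
  have h3 : (s - 3 * δ * (K + 1)) * I0 ≤ (∑ j ∈ F, mean (κ j) * m ^ j) * I0 :=
    mul_le_mul_of_nonneg_right h1 hI00
  have h4 : (s - 3 * δ * (K + 1) - ε) * V ≤ (s - 3 * δ * (K + 1)) * I0 := by
    have h5 : 0 ≤ 3 * δ * ((K:ℝ) + 1) := by positivity
    rcases le_or_gt 0 (s - 3 * δ * (K + 1)) with h6 | h6
    · have h7 := mul_le_mul_of_nonneg_left hI h6
      have h8 : 0 ≤ ε * V := by positivity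
      nlinarith
    · have h7 := mul_le_mul_of_nonpos_left hI1 h6.le
      have h8 : 0 ≤ ε * V := by positivity
      nlinarith
  have e1 : (s - 3 * δ * (K + 1) - 2 * ε) * V = (s - 3 * δ * (K + 1) - ε) * V - ε * V := by ring
  rw [e1]
  linarith

open Classical in
/-- the general law -/
theorem gen_law {lam ε : ℝ} (hl : 1 < lam) (hε : 0 < ε) :
    ∃ (K : ℕ) (δ0 : ℝ), 0 < δ0 ∧ δ0 ≤ 1 / 10 ∧ ∀ δ : ℝ, 0 < δ → δ ≤ δ0 → ∃ Y0 : ℝ,
    ∀ᶠ n : ℕ in atTop, ∀ Y : ℝ, Y0 ≤ Y → Y ≤ Real.log^[K + 1] (n:ℝ) →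
    ∀ α : ℝ, 0 ≤ α → α ≤ Real.pi / 2 → ∀ (S : Set ℕ) (B : Set ℂ),
    (∀ j ≤ K, ∀ c ∈ Ann n Y (lam * Y), (∀ i ≤ K + 1, ‖X n c i‖ ≤ δ * n) →
      (∀ i < j, δ ≤ Real.cos (X n c (i + 1)).arg) →
      phi (X n c (j + 1)).arg < Real.pi / 2 - δ → j + 2 ∈ S →
      α + δ < phi (X n c (j + 1)).arg → c ∈ B) →
    (∀ j ≤ K, ∀ c ∈ Ann n Y (lam * Y), (∀ i ≤ K + 1, ‖X n c i‖ ≤ δ * n) →
      (∀ i < j, δ ≤ Real.cos (X n c (i + 1)).arg) →
      phi (X n c (j + 1)).arg < Real.pi / 2 - δ →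
      (j + 2 ∉ S ∨ phi (X n c (j + 1)).arg < α - δ) → c ∉ B) →
    0 < (volume (Ann n Y (lam * Y))).toReal ∧
    |(volume (B ∩ Ann n Y (lam * Y))).toReal -
      (∑' j : ℕ, if j + 2 ∈ S then (1 / 2 : ℝ) ^ (j + 1) else 0) * (1 - 2 * α / Real.pi) *
        (volume (Ann n Y (lam * Y))).toReal| ≤ ε * (volume (Ann n Y (lam * Y))).toReal := by
  have hπ := Real.pi_pos
  have hπ3 := Real.pi_gt_three
  obtain ⟨K, hK⟩ := exists_pow_lt_of_lt_one (show 0 < ε / 2 by positivity)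
    (show (1 / 2 : ℝ) < 1 by norm_num)
  have hK1 : (1 / 2 : ℝ) ^ (K + 1) ≤ ε / 2 := by
    refine le_trans ?_ hK.le
    exact pow_le_pow_of_le_one (by norm_num) (by norm_num) (by omega)
  set δ0 := min (1 / 10) (ε / (12 * (K + 1))) with hδ0
  refine ⟨K, δ0, lt_min (by norm_num) (by positivity), min_le_left _ _, ?_⟩
  intro δ hδ hδle
  have hδ1 : δ ≤ 1 / 10 := hδle.trans (min_le_left _ _)
  have hδ2 : 3 * δ * (K + 1) ≤ ε / 4 := by
    have h1 : δ ≤ ε / (12 * (K + 1)) := hδle.trans (min_le_right _ _)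
    rw [le_div_iff₀ (by positivity)] at h1
    linarith
  set ε₁ := min (ε / 8) 1 with hε₁
  have hε₁0 : 0 < ε₁ := lt_min (by positivity) (by norm_num)
  have hε₁1 : ε₁ ≤ ε / 8 := min_le_left _ _
  obtain ⟨m, C, Cψ, τ, T, hm, hm1, hT, hdat⟩ :=
    da_eventually K hδ hδ1 hε₁0 (min_le_right _ _) hl
  refine ⟨T, ?_⟩
  have hlog : ∀ᶠ t : ℝ in atTop, lam * Real.log t ≤ δ * t := by
    have h2 : Tendsto (fun t : ℝ => Real.log t / t) atTop (𝓝 0) := by
      have := Real.isLittleO_log_id_atTop.tendsto_div_nhds_zero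
      simpa using this
    filter_upwards [h2.eventually_lt_const (show 0 < δ / lam by positivity),
      eventually_gt_atTop 0] with t h3 h4
    rw [div_lt_div_iff₀ h4 (by linarith)] at h3
    linarith
  filter_upwards [hdat, (tendsto_iterlog K).eventually hlog, eventually_ge_atTop 2] with n a1 a2 a3
  intro Y hYT hYn α hα0 hα1 S B hin hout
  have hYn' : lam * Y ≤ δ * Real.log^[K] (n:ℝ) := by
    rw [Function.iterate_succ_apply'] at hYn
    exact (mul_le_mul_of_nonneg_left hYn (by linarith)).trans a2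
  obtain ⟨η, η', Γ, ψ, ψ', hd, hI, hE⟩ := a1 Y hYT hYn'
  set A := Ann n Y (lam * Y) with hA
  set V := (volume A).toReal with hV
  have hV0 : 0 ≤ V := ENNReal.toReal_nonneg
  have hfinA : volume A ≠ ⊤ := Ann_ne_top a3 hd.tow.hbn
  set Q : Set ℂ := B ∩ A with hQ
  have hfinQ : volume Q ≠ ⊤ := ((measure_mono inter_subset_right).trans_lt hfinA.lt_top).ne
  set F := (Finset.range (K + 1)).filter (fun j => j + 2 ∈ S) with hF
  have hFs : F ⊆ Finset.range (K + 1) := Finset.filter_subset _ _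
  obtain ⟨g1, g2⟩ := geo_bounds S (K + 1)
  rw [← hF] at g1 g2
  set P := (∑' j : ℕ, if j + 2 ∈ S then (1 / 2 : ℝ) ^ (j + 1) else 0) with hP
  set α' := α / Real.pi with hα'
  have hα'0 : 0 ≤ α' := by positivity
  have hα'1 : α' ≤ 1 / 2 := by rw [hα', div_le_iff₀ hπ]; linarith
  have hα2 : 1 - 2 * α / Real.pi = 1 - 2 * α' := by rw [hα']; ring
  rw [hα2]
  have hδπ : δ / Real.pi ≤ δ / 3 := div_le_div_of_nonneg_left hδ.le (by norm_num) hπ3.le
  -- lower bound
  have hκ1 : ∀ _j : ℕ, Adm δ (kap δ (α + δ) (Real.pi / 2 - δ)) := fun _ =>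
    kap_adm hδ (by linarith)
  have low1 := hd.low hκ1 hFs (S := Q) (by
    intro j hj c hc hcos hne
    rw [hF, Finset.mem_filter, Finset.mem_range] at hj
    obtain ⟨s1, s2⟩ := kap_supp hδ hne
    exact ⟨hin j (by omega) c hc (fun i hi => hd.t c hc.2 i hi) hcos s2 hj.2 s1, hc⟩)
  have low2 := PG_final hd hm hε₁0 hI hE hκ1 hFs (p := fun _ => 1 / 2 - α')
    (fun _ => by linarith) (fun _ => by linarith) (fun j _ => by
      refine le_trans ?_ (kap_mean hδ (by linarith))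
      rw [max_eq_left (by linarith)]
      have e1 : (Real.pi / 2 - δ - (α + δ) - 2 * δ) / Real.pi = 1 / 2 - α' - 4 * (δ / Real.pi) := by
        rw [hα']; field_simp; ring
      rw [e1]
      linarith)
  have low3 := (ENNReal.ofReal_le_iff_le_toReal hfinQ).1 low1
  -- upper bound
  set κ2 : ℕ → ℝ → ℝ := fun j => if j + 2 ∈ S then kap δ (-1) (α - δ) else
    kap δ (-1) (Real.pi / 2 - δ) with hκ2d
  have hκ2 : ∀ j : ℕ, Adm δ (κ2 j) := by
    intro j
    rw [hκ2d]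
    simp only
    split_ifs
    · exact kap_adm hδ (by linarith)
    · exact kap_adm hδ (by linarith)
  have up1 := hd.up hκ2 (le_refl (Finset.range (K + 1))) (S := Q) inter_subset_right (by
    intro j hj c hc hcos hne hcQ
    rw [Finset.mem_range] at hj
    by_cases hjS : j + 2 ∈ S
    · rw [hκ2d] at hne
      simp only [hjS, if_true] at hne
      obtain ⟨s1, s2⟩ := kap_supp hδ hne
      exact hout j (by omega) c hc (fun i hi => hd.t c hc.2 i hi) hcos (by linarith)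
        (Or.inr s2) hcQ.1
    · rw [hκ2d] at hne
      simp only [hjS, if_false] at hne
      obtain ⟨s1, s2⟩ := kap_supp hδ hne
      exact hout j (by omega) c hc (fun i hi => hd.t c hc.2 i hi) hcos s2 (Or.inl hjS) hcQ.1)
  have up2 := PG_final hd hm hε₁0 hI hE hκ2 (le_refl (Finset.range (K + 1)))
    (p := fun j => if j + 2 ∈ S then α' else 1 / 2)
    (fun j => by split_ifs <;> linarith) (fun j => by split_ifs <;> linarith) (fun j _ => by
      rw [hκ2d]
      simp only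
      split_ifs with hjS
      · refine le_trans ?_ (kap_mean hδ (by linarith))
        rw [max_eq_right (by norm_num)]
        have e1 : (α - δ - 0 - 2 * δ) / Real.pi = α' - 3 * (δ / Real.pi) := by
          rw [hα']; field_simp; ring
        rw [e1]
        linarith
      · refine le_trans ?_ (kap_mean hδ (by linarith))
        rw [max_eq_right (by norm_num)]
        have e1 : (Real.pi / 2 - δ - 0 - 2 * δ) / Real.pi = 1 / 2 - 3 * (δ / Real.pi) := by
          field_simp; ring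
        rw [e1]
        linarith)
  have hPGle : ∫ c, PG n ψ η κ2 (Finset.range (K + 1)) c ≤ V := by
    have h3 := vol_ge (hd.PG_meas hκ2 _) (hd.PG_int hκ2 _) (hd.PG_nonneg hκ2 _)
      (fun c => (hd.PG_le hκ2 (le_refl (Finset.range (K + 1))) c).trans
        (chi_le_one hd.cut.n0 hd.cut.n1 hd.ang.n0 hd.ang.n1 0 c))
      (S := A) (fun c hc => by
        obtain ⟨j, hj, hjc⟩ := Finset.exists_ne_zero_of_sum_ne_zero hc
        exact (hd.mem_of_ne (right_ne_zero_of_mul hjc)).1)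
    exact (ENNReal.ofReal_le_iff_le_toReal hfinA).1 h3
  have up3 := ENNReal.toReal_le_of_le_ofReal (by linarith) up1
  -- the sums
  have hsum1 : ∑ j ∈ F, (1 / 2 - α') * (1 / 2 : ℝ) ^ j =
      (1 - 2 * α') * ∑ j ∈ F, (1 / 2 : ℝ) ^ (j + 1) := by
    rw [Finset.mul_sum]
    apply Finset.sum_congr rfl
    intro j _
    rw [pow_succ]; ring
  have hsum2 : ∑ j ∈ Finset.range (K + 1), (if j + 2 ∈ S then α' else 1 / 2) * (1 / 2 : ℝ) ^ j =
      1 - (1 / 2) ^ (K + 1) - (1 - 2 * α') * ∑ j ∈ F, (1 / 2 : ℝ) ^ (j + 1) := by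
    have e3 : ∀ K : ℕ, ∑ j ∈ Finset.range K, (1 / 2 : ℝ) ^ (j + 1) = 1 - (1 / 2) ^ K := by
      intro K
      induction K with
      | zero => simp
      | succ K ih => rw [Finset.sum_range_succ, ih, pow_succ]; ring
    rw [← e3, hF, Finset.mul_sum, Finset.sum_filter, ← Finset.sum_sub_distrib]
    apply Finset.sum_congr rfl
    intro j _
    rw [pow_succ]
    split_ifs <;> ring
  rw [hsum1] at low2
  rw [hsum2] at up2
  set sF := ∑ j ∈ F, (1 / 2 : ℝ) ^ (j + 1) with hsF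
  refine ⟨vol_Ann_pos a3 (by have := hd.tow.ha; linarith) (by
    have := hd.tow.ha; nlinarith) hd.tow.hbn, ?_⟩
  have hw0 : 0 ≤ 1 - 2 * α' := by linarith
  have hw1 : 1 - 2 * α' ≤ 1 := by linarith
  rw [abs_le]
  constructor
  · -- lower bound
    have h1 : (P * (1 - 2 * α') - ε) * V ≤
        ((1 - 2 * α') * sF - 3 * δ * (K + 1) - 2 * ε₁) * V := by
      apply mul_le_mul_of_nonneg_right _ hV0
      have h2 : P * (1 - 2 * α') ≤ (1 - 2 * α') * sF + (1 / 2) ^ (K + 1) := by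
        have h3 : P * (1 - 2 * α') ≤ (sF + (1 / 2) ^ (K + 1)) * (1 - 2 * α') :=
          mul_le_mul_of_nonneg_right g2 hw0
        have h4 : (0:ℝ) ≤ (1 / 2) ^ (K + 1) := by positivity
        nlinarith
      linarith
    linarith
  · have h1 : V - (1 - (1 / 2) ^ (K + 1) - (1 - 2 * α') * sF - 3 * δ * (K + 1) - 2 * ε₁) * V ≤
        (P * (1 - 2 * α') + ε) * V := by
      have e1 : V - (1 - (1 / 2) ^ (K + 1) - (1 - 2 * α') * sF - 3 * δ * (K + 1) - 2 * ε₁) * V =
        ((1 / 2) ^ (K + 1) + (1 - 2 * α') * sF + 3 * δ * (K + 1) + 2 * ε₁) * V := by ring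
      rw [e1]
      apply mul_le_mul_of_nonneg_right _ hV0
      have h3 : sF * (1 - 2 * α') ≤ P * (1 - 2 * α') := mul_le_mul_of_nonneg_right g1 hw0
      linarith
    linarith

end Pool.Agent.Q75.Lw
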