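import Mathlib
import Pool.Agent.Q75.LwC

set_option autoImplicit false

open MeasureTheory Set Filter Topology Metric

namespace Pool.Agent.Q75.Lw

open Pool.Agent.W747.MB Pool.Agent.TH363.CD Pool.Agent.Q79.PA Pool.Agent.Q79.PL

/-- smallness of all levels compared with `n` -/
theorem levels (K : ℕ) {ε lam : ℝ} (h0 : 0 < ε) (h1 : ε ≤ 1 / 4) (hl : 0 < lam) :
    ∀ᶠ n : ℕ in atTop, ∀ c : ℂ, Y n c ≤ lam * Real.log^[K + 1] (n:ℝ) →
      ∀ i ≤ K + 1, ‖X n c i‖ ≤ ε * n := by
  have hlog : ∀ᶠ t : ℝ in atTop, lam * Real.log t ≤ ε * t := by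
    have h2 : Tendsto (fun t : ℝ => Real.log t / t) atTop (𝓝 0) := by
      have := Real.isLittleO_log_id_atTop.tendsto_div_nhds_zero
      simpa using this
    filter_upwards [h2.eventually_lt_const (show 0 < ε / lam by positivity),
      eventually_gt_atTop 0] with t h3 h4
    rw [div_lt_div_iff₀ h4 (by linarith)] at h3
    linarith
  filter_upwards [iter_bound' h0 h1 K, (tendsto_iterlog K).eventually hlog,
    (tendsto_iterlog K).eventually_ge_atTop (1 / ε), eventually_ge_atTop 2] with n a1 a2 a3 a4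
  intro c hc i hi
  rw [Function.iterate_succ_apply'] at hc
  rcases Nat.eq_zero_or_pos i with h | h
  · subst h
    simp only [X, norm_zero]
    positivity
  · obtain ⟨j, rfl⟩ : ∃ j, i = j + 1 := ⟨i - 1, by omega⟩
    have hb1 : 1 ≤ ε * Real.log^[K] (n:ℝ) := by
      rw [div_le_iff₀ h0] at a3
      linarith
    exact (tower_bound a4 hb1 (hc.trans a2) j).trans ((tower_mono (by omega)).trans a1)

/-- the levels increase -/
theorem level_mono {n : ℕ} (hn : 2 ≤ n) {c : ℂ} {δ T : ℝ} (hδ : 0 < δ) (hδ1 : δ ≤ 1) (hB : Big δ T)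
    (hY : T ≤ Y n c) (j : ℕ) (ht : ∀ i ≤ j + 1, ‖X n c i‖ ≤ n / 10)
    (hcos : ∀ i < j, δ ≤ Real.cos (X n c (i + 1)).arg) :
    (∀ i ≤ j, T ≤ ‖X n c (i + 1)‖ ∧ ‖X n c (i + 1)‖ ≤ ‖X n c (j + 1)‖) := by
  obtain ⟨hT1, hT2, hT3⟩ := hB
  induction j with
  | zero =>
    intro i hi
    obtain rfl : i = 0 := by omega
    exact ⟨by rw [norm_X1]; exact hY, le_rfl⟩
  | succ j ih =>
    have h1 := ih (fun i hi => ht i (by omega)) (fun i hi => hcos i (by omega))
    have hg := grow hn hδ hδ1 (ht (j + 1) (by omega)) (hcos j (by omega))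
    obtain ⟨b1, b2⟩ := hT3 _ (h1 j le_rfl).1
    set x := ‖X n c (j + 1)‖ with hx
    have hxT : T ≤ x := (h1 j le_rfl).1
    have h2 : x ≤ ‖X n c (j + 2)‖ := by
      refine le_trans ?_ hg
      have := Real.exp_pos (δ * x / 2)
      nlinarith
    intro i hi
    rcases Nat.lt_or_ge j i with h | h
    · obtain rfl : i = j + 1 := by omega
      exact ⟨hxT.trans h2, le_rfl⟩
    · exact ⟨(h1 i h).1, (h1 i h).2.trans h2⟩

/-- the product formula for the derivative of the iterates -/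
theorem deriv_iter (n : ℕ) (c z : ℂ) (i : ℕ) :
    deriv (f n c)^[i] z = ∏ l ∈ Finset.range i, (n * ((f n c)^[l] z) ^ (n - 1)) := by
  have hdi : ∀ i, Differentiable ℂ (f n c)^[i] := Pool.Agent.W410.MB.ATT.diff_iter n c
  induction i with
  | zero => simp
  | succ i ih =>
    have h1 : HasDerivAt (f n c)^[i + 1]
        (n * ((f n c)^[i] z) ^ (n - 1) * deriv (f n c)^[i] z) z := by
      rw [Function.iterate_succ']
      exact (Pool.Agent.H749R2.Hyp.hasDerivAt_f n c _).comp z ((hdi i) z).hasDerivAt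
    rw [h1.deriv, ih, Finset.prod_range_succ]
    ring

/-- the multiplier is constant along a cycle -/
theorem mult_inv {n : ℕ} {c z : ℂ} {p : ℕ} (hz : Function.IsPeriodicPt (f n c) p z) (l : ℕ) :
    deriv (f n c)^[p] ((f n c)^[l] z) = deriv (f n c)^[p] z := by
  induction l with
  | zero => simp
  | succ l ih =>
    rw [← ih, Function.iterate_succ_apply']
    set w := (f n c)^[l] z with hw
    have hwp : Function.IsPeriodicPt (f n c) p w := hz.apply_iterate l
    rw [deriv_iter, deriv_iter]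
    rcases Nat.eq_zero_or_pos p with h0 | h0
    · subst h0; simp
    obtain ⟨q, rfl⟩ : ∃ q, p = q + 1 := ⟨p - 1, by omega⟩
    rw [Finset.prod_range_succ]
    have h1 : ∏ l ∈ Finset.range (q + 1), ((n:ℂ) * ((f n c)^[l] w) ^ (n - 1)) =
        (∏ l ∈ Finset.range q, ((n:ℂ) * ((f n c)^[l + 1] w) ^ (n - 1))) *
        ((n:ℂ) * ((f n c)^[0] w) ^ (n - 1)) := Finset.prod_range_succ' _ _
    rw [h1]
    have h2 : ∀ l, (f n c)^[l] (f n c w) = (f n c)^[l + 1] w := fun l =>
      (Function.iterate_succ_apply (f n c) l w).symm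
    simp only [h2]
    congr 1
    have h3 : (f n c)^[q + 1] w = w := hwp
    rw [h3]
    simp

/-- two attracting cycles have the same multiplier -/
theorem mult_unique {n : ℕ} (hn : 2 ≤ n) {c z z' : ℂ} {p : ℕ}
    (hz : N62a1eb23.IsAttractingCycle (f n c) p z)
    (hz' : N62a1eb23.IsAttractingCycle (f n c) p z') :
    deriv (f n c)^[p] z = deriv (f n c)^[p] z' := by
  obtain ⟨l, h1⟩ := crit_conv hn hz
  obtain ⟨l', h2⟩ := crit_conv hn hz'
  have h3 := tendsto_nhds_unique h1 h2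
  rw [← mult_inv hz.2.1 l, ← mult_inv hz'.2.1 l', h3]

/-- the attracting cycle, with its position -/
theorem att_loc {n : ℕ} (hn : 2 ≤ n) {c : ℂ} {j : ℕ} {D : ℝ} (hj : 1 ≤ j) (hY : 1 ≤ Y n c)
    (hD : 1 ≤ D) (hph : ∀ i, 1 ≤ i → i ≤ j → PhAt n c i D)
    (hfar : ∀ i, 1 ≤ i → i ≤ j → 1 ≤ ‖X n c i‖)
    (hcr : Y n c * (‖A n c j‖ + 1 / (10 * n)) ^ (n - 1) ≤ 1 / (40 * D)) :
    ∃ z, N62a1eb23.IsAttractingCycle (f n c) (j + 1) z ∧
      Function.minimalPeriod (f n c) z = j + 1 ∧ 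
      ∀ i ≤ j, ‖(f n c)^[i] z - c * A n c i‖ ≤ ‖c‖ / (10 * n) := by
  have hn0 : (0 : ℝ) < n := by
    have : 0 < n := by omega
    exact_mod_cast this
  have hD0 : 0 < D := by linarith
  have hYd : Y n c = n * ‖c‖ ^ (n - 1) := rfl
  have hc0 : 0 < ‖c‖ := by
    rcases (norm_nonneg c).lt_or_eq with h | h
    · exact h
    · rw [hYd, ← h, zero_pow (by omega)] at hY
      norm_num at hY
  set a := ‖A n c j‖ with ha
  have ha0 : 0 ≤ a := norm_nonneg _
  set r : ℝ := ‖c‖ / (10 * n * D) with hr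
  have hr0 : 0 < r := by positivity
  have hYpos : 0 < Y n c := by linarith
  have hdi : ∀ i, Differentiable ℂ (f n c)^[i] := Pool.Agent.W410.MB.ATT.diff_iter n c
  -- all iterates
  have hbd : ∀ z ∈ closedBall c r, ∀ i, 1 ≤ i → i ≤ j →
      ‖(f n c)^[i] z - c * A n c i‖ ≤ ‖c‖ / (10 * n) := by
    intro z hz i hi1 hi2
    have h1 := (convex_closedBall c r).norm_image_sub_le_of_norm_deriv_le
      (f := (f n c)^[i]) (C := D) (fun z _ => (hdi i) z)
      (fun z hz => hph i hi1 hi2 z (by simpa [dist_eq_norm] using hz))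
      (mem_closedBall_self hr0.le) hz
    rw [Pool.Agent.W410.MB.ATT.orbit hn] at h1
    refine h1.trans ?_
    have h2 : ‖z - c‖ ≤ r := by simpa [dist_eq_norm] using hz
    calc D * ‖z - c‖ ≤ D * r := by gcongr
      _ = ‖c‖ / (10 * n) := by rw [hr]; field_simp
  have hnorm : ∀ z ∈ closedBall c r, ‖(f n c)^[j] z‖ ≤ ‖c‖ * (a + 1 / (10 * n)) := by
    intro z hz
    have h1 := hbd z hz j hj le_rfl
    calc ‖(f n c)^[j] z‖ = ‖((f n c)^[j] z - c * A n c j) + c * A n c j‖ := by ring_nf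
      _ ≤ ‖(f n c)^[j] z - c * A n c j‖ + ‖c * A n c j‖ := norm_add_le _ _
      _ ≤ ‖c‖ / (10 * n) + ‖c‖ * a := by rw [norm_mul]; gcongr
      _ = _ := by ring
  have hder : ∀ z ∈ closedBall c r, ‖deriv (f n c)^[j + 1] z‖ ≤ 1 / 40 := by
    intro z hz
    have h1 : HasDerivAt (f n c)^[j + 1]
        (n * ((f n c)^[j] z) ^ (n - 1) * deriv (f n c)^[j] z) z := by
      rw [Function.iterate_succ']
      exact (Pool.Agent.H749R2.Hyp.hasDerivAt_f n c _).comp z
        ((hdi j) z).hasDerivAt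
    rw [h1.deriv, norm_mul, norm_mul, norm_pow, Complex.norm_natCast]
    have h2 : ‖deriv (f n c)^[j] z‖ ≤ D := hph j hj le_rfl z (by simpa [dist_eq_norm] using hz)
    have h3 := hnorm z hz
    calc (n : ℝ) * ‖(f n c)^[j] z‖ ^ (n - 1) * ‖deriv (f n c)^[j] z‖
        ≤ n * (‖c‖ * (a + 1 / (10 * n))) ^ (n - 1) * D := by gcongr
      _ = Y n c * (a + 1 / (10 * n)) ^ (n - 1) * D := by rw [hYd, mul_pow]; ring
      _ ≤ 1 / (40 * D) * D := by gcongr
      _ = 1 / 40 := by field_simp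
  have hpow : Y n c * a ^ (n - 1) ≤ 1 / (40 * D) := by
    refine le_trans ?_ hcr
    gcongr
    have : 0 ≤ 1 / (10 * (n : ℝ)) := by positivity
    linarith
  have ha1 : a ≤ 1 := by
    by_contra hlt
    push Not at hlt
    have h1 : 1 ≤ a ^ (n - 1) := one_le_pow₀ hlt.le
    have h2 : 1 / (40 * D) ≤ 1 / 40 := by
      apply one_div_le_one_div_of_le (by norm_num); linarith
    nlinarith
  have hcen : ‖(f n c)^[j + 1] c - c‖ ≤ r / 4 := by
    rw [Function.iterate_succ_apply', Pool.Agent.W410.MB.ATT.orbit hn]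
    simp only [f]
    rw [add_sub_cancel_right, norm_pow, norm_mul, mul_pow]
    have h2 : ‖c‖ ^ n = ‖c‖ * ‖c‖ ^ (n - 1) := by
      rw [← pow_succ']
      congr 1
      omega
    have h3 : a ^ n = a ^ (n - 1) * a := by
      rw [← pow_succ]
      congr 1
      omega
    calc ‖c‖ ^ n * a ^ n = ‖c‖ / n * (Y n c * a ^ (n - 1)) * a := by
          rw [h2, h3, hYd]; field_simp
      _ ≤ ‖c‖ / n * (1 / (40 * D)) * 1 := by gcongr
      _ = r / 4 := by rw [hr]; field_simp; norm_num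
  have hmaps : MapsTo (f n c)^[j + 1] (closedBall c r) (closedBall c r) := by
    intro z hz
    have h1 := (convex_closedBall c r).norm_image_sub_le_of_norm_deriv_le
      (f := (f n c)^[j + 1]) (C := 1 / 40) (fun z _ => (hdi (j + 1)) z)
      hder (mem_closedBall_self hr0.le) hz
    rw [mem_closedBall, dist_eq_norm]
    have h2 : ‖z - c‖ ≤ r := by simpa [dist_eq_norm] using hz
    calc ‖(f n c)^[j + 1] z - c‖
        = ‖((f n c)^[j + 1] z - (f n c)^[j + 1] c) + ((f n c)^[j + 1] c - c)‖ := by ring_nf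
      _ ≤ ‖(f n c)^[j + 1] z - (f n c)^[j + 1] c‖ + ‖(f n c)^[j + 1] c - c‖ := norm_add_le _ _
      _ ≤ 1 / 40 * ‖z - c‖ + r / 4 := add_le_add h1 hcen
      _ ≤ 1 / 40 * r + r / 4 := by gcongr
      _ ≤ r := by linarith
  obtain ⟨z, hz, hfix, hlt⟩ := Pool.Agent.H749R2.Hyp.fixed_of_contr (g := (f n c)^[j + 1])
    (c := c) (ρ := r) (q := 1 / 40) hr0.le (by norm_num) (by norm_num) (hdi (j + 1))
    hmaps hder
  have hrle : r ≤ ‖c‖ / (10 * n) := by
    rw [hr]
    apply div_le_div_of_nonneg_left hc0.le (by positivity)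
    nlinarith
  have hpos : ∀ i ≤ j, ‖(f n c)^[i] z - c * A n c i‖ ≤ ‖c‖ / (10 * n) := by
    intro i hi
    rcases Nat.eq_zero_or_pos i with h | h
    · subst h
      have h9 : ‖z - c‖ ≤ r := by simpa [dist_eq_norm] using hz
      simpa [A, X] using h9.trans hrle
    · exact hbd z hz i h hi
  refine ⟨z, ⟨Nat.succ_pos j, hfix, (hdi (j + 1)) z, hlt⟩, ?_, hpos⟩
  -- exact period
  have hper : Function.IsPeriodicPt (f n c) (j + 1) z := hfix
  set p := Function.minimalPeriod (f n c) z with hp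
  have hp0 : 0 < p := hper.minimalPeriod_pos (Nat.succ_pos j)
  have hple : p ≤ j + 1 := hper.minimalPeriod_le (Nat.succ_pos j)
  by_contra hne
  have hpj : p ≤ j := by omega
  have hfixp : (f n c)^[p] z = z := Function.iterate_minimalPeriod
  have h1 := hbd z hz p hp0 hpj
  have h2 := hfar p hp0 hpj
  have h3 : A n c p - 1 = X n c p / n := by unfold A; ring
  have h4 : c * A n c p - c = c * X n c p / n := by
    have : c * A n c p - c = c * (A n c p - 1) := by ring
    rw [this, h3]; ring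
  have h5 : ‖c * A n c p - c‖ = ‖c‖ * ‖X n c p‖ / n := by
    rw [h4, norm_div, norm_mul, Complex.norm_natCast]
  have h6 : ‖c‖ / n ≤ ‖c * A n c p - c‖ := by
    rw [h5]
    apply div_le_div_of_nonneg_right _ hn0.le
    nlinarith
  have h7 : ‖c * A n c p - c‖ ≤ ‖c‖ / (10 * n) + r := by
    have h8 : c * A n c p - c = -((f n c)^[p] z - c * A n c p) + (z - c) := by
      rw [hfixp]; ring
    rw [h8]
    refine (norm_add_le _ _).trans ?_
    rw [norm_neg]
    have h9 : ‖z - c‖ ≤ r := by simpa [dist_eq_norm] using hz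
    linarith
  have h9 : ‖c‖ / (10 * n) = (‖c‖ / n) / 10 := by field_simp
  have h10 : 0 < ‖c‖ / n := by positivity
  linarith

/-- an attracting cycle of exact period `j + 2`, with its position -/
theorem attracted_loc {n : ℕ} (hn : 2 ≤ n) {c : ℂ} {δ T : ℝ} (hδ : 0 < δ) (hδ1 : δ ≤ 1 / 10)
    (hB : Big δ T) (hY : T ≤ Y n c) (j : ℕ) (ht : ∀ i ≤ j + 1, ‖X n c i‖ ≤ δ * n)
    (hcos : ∀ i < j, δ ≤ Real.cos (X n c (i + 1)).arg)
    (hneg : Real.cos (X n c (j + 1)).arg ≤ -δ) :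
    ∃ z, N62a1eb23.IsAttractingCycle (f n c) (j + 2) z ∧
      Function.minimalPeriod (f n c) z = j + 2 ∧
      ∀ i ≤ j + 1, ‖(f n c)^[i] z - c * A n c i‖ ≤ ‖c‖ / (10 * n) := by
  have hnr : (2:ℝ) ≤ n := by exact_mod_cast hn
  have hn0 : (0:ℝ) < n := by linarith
  obtain ⟨h1, D, hD1, hD2, hD3, hD4⟩ := phase hn hδ (by linarith) hB hY j
    (fun i hi => (ht i hi).trans (by nlinarith)) hcos
  obtain ⟨hT1, hT2, hT3⟩ := hB
  set x := ‖X n c (j + 1)‖ with hx
  have hxT : T ≤ x := hY.trans h1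
  obtain ⟨b1, b2⟩ := hT3 x hxT
  have hx0 : 0 < x := by linarith
  refine att_loc hn (by omega) (by linarith) hD1 hD3 hD4 ?_
  have hxn := ht (j + 1) le_rfl
  rw [← hx] at hxn
  -- `‖A‖ ≤ 1 - δ x / (2 n)`
  have hA : ‖A n c (j + 1)‖ ≤ 1 - δ * x / (2 * n) := by
    have e1 : ‖A n c (j + 1)‖ ^ 2 = 1 + 2 * (X n c (j + 1)).re / n + x ^ 2 / n ^ 2 := by
      have h2 : (A n c (j + 1)).re = 1 + (X n c (j + 1)).re / n := by
        unfold A
        rw [Complex.add_re, Complex.one_re, Complex.div_natCast_re]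
      have h3 : (A n c (j + 1)).im = (X n c (j + 1)).im / n := by
        unfold A
        rw [Complex.add_im, Complex.one_im, Complex.div_natCast_im, zero_add]
      rw [hx, Complex.sq_norm, Complex.sq_norm, Complex.normSq_apply, Complex.normSq_apply,
        h2, h3]
      field_simp
      ring
    have e2 : (X n c (j + 1)).re ≤ -(δ * x) := by
      have : (X n c (j + 1)).re = x * Real.cos (X n c (j + 1)).arg := by
        rw [hx, Complex.norm_mul_cos_arg]
      rw [this]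
      nlinarith
    have e3 : 2 * (X n c (j + 1)).re / n ≤ -(2 * (δ * x / n)) := by
      rw [div_le_iff₀ hn0]
      have : -(2 * (δ * x / n)) * n = -(2 * (δ * x)) := by field_simp
      rw [this]; linarith
    have e4 : x ^ 2 / n ^ 2 ≤ δ * x / n := by
      rw [div_le_div_iff₀ (by positivity) hn0]
      have h2 : x * x ≤ x * (δ * n) := mul_le_mul_of_nonneg_left hxn hx0.le
      have : x ^ 2 * n ≤ x * (δ * n) * n := by
        apply mul_le_mul_of_nonneg_right _ hn0.le
        rw [pow_two]; exact h2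
      nlinarith
    have hu : δ * x / n ≤ 1 := by
      rw [div_le_one hn0]
      nlinarith
    have hu0 : 0 ≤ δ * x / n := by positivity
    have e5 : ‖A n c (j + 1)‖ ^ 2 ≤ (1 - δ * x / (2 * n)) ^ 2 := by
      have e6 : δ * x / (2 * n) = (δ * x / n) / 2 := by field_simp
      rw [e1, e6]
      nlinarith [sq_nonneg (δ * x / n)]
    have e7 : δ * x / (2 * n) = (δ * x / n) / 2 := by field_simp
    exact le_of_sq_le_sq e5 (by rw [e7]; linarith)
  have hbase : ‖A n c (j + 1)‖ + 1 / (10 * n) ≤ 1 - δ * x / (4 * n) := by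
    have e1 : 1 / (10 * (n:ℝ)) ≤ δ * x / (4 * n) := by
      rw [div_le_div_iff₀ (by positivity) (by positivity)]
      have : 1 ≤ δ * x := hT2.trans (mul_le_mul_of_nonneg_left hxT hδ.le)
      nlinarith
    have e2 : δ * x / (2 * n) = δ * x / (4 * n) + δ * x / (4 * n) := by field_simp; norm_num
    linarith
  have hcast : ((n - 1 : ℕ) : ℝ) = n - 1 := by
    rw [Nat.cast_sub (by omega)]; simp
  have hpow : (‖A n c (j + 1)‖ + 1 / (10 * n)) ^ (n - 1) ≤ Real.exp (-(δ * x / 8)) := by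
    have h0 : 0 ≤ ‖A n c (j + 1)‖ + 1 / (10 * (n:ℝ)) := by positivity
    have h2 := Real.add_one_le_exp (-(δ * x / (4 * n)))
    calc (‖A n c (j + 1)‖ + 1 / (10 * n)) ^ (n - 1) ≤ (Real.exp (-(δ * x / (4 * n)))) ^ (n - 1) :=
          pow_le_pow_left₀ h0 (by linarith) _
      _ = Real.exp (((n:ℝ) - 1) * -(δ * x / (4 * n))) := by
          rw [← Real.exp_nat_mul, hcast]
      _ ≤ Real.exp (-(δ * x / 8)) := by
          apply Real.exp_le_exp.2
          have e1 : ((n:ℝ) - 1) * -(δ * x / (4 * n)) = -(((n:ℝ) - 1) / n * (δ * x / 4)) := by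
            field_simp
          have e2 : 1 / 2 ≤ ((n:ℝ) - 1) / n := by
            rw [le_div_iff₀ hn0]; linarith
          have e3 : 0 ≤ δ * x / 4 := by positivity
          rw [e1]
          nlinarith
  rw [le_div_iff₀ (by linarith)]
  calc Y n c * (‖A n c (j + 1)‖ + 1 / (10 * n)) ^ (n - 1) * (40 * D)
      ≤ x * Real.exp (-(δ * x / 8)) * (40 * x ^ 2) := by gcongr
    _ = 40 * x ^ 3 * Real.exp (-(δ * x / 8)) := by ring
    _ ≤ Real.exp (δ * x / 8) * Real.exp (-(δ * x / 8)) := by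
        apply mul_le_mul_of_nonneg_right b2 (Real.exp_pos _).le
    _ = 1 := by rw [← Real.exp_add]; simp

end Pool.Agent.Q75.Lw
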