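import Mathlib
import Pool.Agent.Q75.LwD

set_option autoImplicit false

open MeasureTheory Set Filter Topology Metric

namespace Pool.Agent.Q75.Lw

open Pool.Agent.W747.MB Pool.Agent.TH363.CD Pool.Agent.Q79.PA Pool.Agent.Q79.PL

/-- `n log |1 + X / n|` is close to `Re X` -/
theorem log_A {n : ℕ} (hn : 2 ≤ n) {c : ℂ} {i : ℕ} {ε : ℝ} (hε : ε ≤ 1 / 10)
    (hX : ‖X n c i‖ ≤ ε * n) :
    |n * Real.log ‖A n c i‖ - (X n c i).re| ≤ 5 * ε * ‖X n c i‖ := by
  have hnr : (2:ℝ) ≤ n := by exact_mod_cast hn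
  have hn0 : (0:ℝ) < n := by linarith
  set x := ‖X n c i‖ with hx
  have hx0 : 0 ≤ x := norm_nonneg _
  set u := 2 * (X n c i).re / n + x ^ 2 / n ^ 2 with hu
  have e1 : ‖A n c i‖ ^ 2 = 1 + u := by
    have h2 : (A n c i).re = 1 + (X n c i).re / n := by
      unfold A
      rw [Complex.add_re, Complex.one_re, Complex.div_natCast_re]
    have h3 : (A n c i).im = (X n c i).im / n := by
      unfold A
      rw [Complex.add_im, Complex.one_im, Complex.div_natCast_im, zero_add]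
    rw [hu, hx, Complex.sq_norm, Complex.sq_norm, Complex.normSq_apply, Complex.normSq_apply,
      h2, h3]
    field_simp
    ring
  have hre : |(X n c i).re| ≤ x := Complex.abs_re_le_norm _
  have hxn : x / n ≤ ε := by rw [div_le_iff₀ hn0]; exact hX
  have hxn0 : 0 ≤ x / n := by positivity
  have hu1 : |u| ≤ 21 / 10 * (x / n) := by
    rw [hu]
    have h1 : |2 * (X n c i).re / n| ≤ 2 * (x / n) := by
      rw [abs_div, abs_mul, abs_of_pos hn0, abs_of_pos (by norm_num : (0:ℝ) < 2)]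
      rw [← mul_div_assoc]
      gcongr
    have h2 : |x ^ 2 / (n:ℝ) ^ 2| ≤ 1 / 10 * (x / n) := by
      rw [abs_of_nonneg (by positivity), ← div_pow, pow_two]
      exact mul_le_mul_of_nonneg_right (by linarith) hxn0
    have h3 := abs_add_le (2 * (X n c i).re / n) (x ^ 2 / (n:ℝ) ^ 2)
    linarith
  have hu2 : |u| ≤ 21 / 100 := by
    refine hu1.trans ?_
    have : x / n ≤ 1 / 10 := by linarith
    linarith
  rw [abs_le] at hu2
  have hpos : 0 < 1 + u := by linarith [hu2.1]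
  have hA0 : ‖A n c i‖ ≠ 0 := by
    intro h
    rw [h] at e1
    norm_num at e1
    linarith
  have e2 : Real.log ‖A n c i‖ = Real.log (1 + u) / 2 := by
    rw [← e1, Real.log_pow]
    push_cast
    ring
  have l1 : Real.log (1 + u) ≤ u := by
    have := Real.log_le_sub_one_of_pos hpos
    linarith
  have l2 : u - 2 * u ^ 2 ≤ Real.log (1 + u) := by
    have h1 := Real.one_sub_inv_le_log_of_pos hpos
    refine le_trans ?_ h1
    have h2 : 1 - (1 + u)⁻¹ = u / (1 + u) := by field_simp; ring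
    rw [h2, le_div_iff₀ hpos]
    have h3 : (u - 2 * u ^ 2) * (1 + u) = u - u ^ 2 * (1 + 2 * u) := by ring
    rw [h3]
    have h4 : 0 ≤ u ^ 2 * (1 + 2 * u) := mul_nonneg (sq_nonneg _) (by linarith [hu2.1])
    linarith
  have hu3 : u ^ 2 ≤ 441 / 100 * (x / n) ^ 2 := by
    have h1 : |u| ^ 2 ≤ (21 / 10 * (x / n)) ^ 2 := pow_le_pow_left₀ (abs_nonneg _) hu1 2
    rw [sq_abs] at h1
    nlinarith
  have e3 : n * Real.log ‖A n c i‖ - (X n c i).re = n / 2 * (Real.log (1 + u) - u) +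
      x * (x / n) / 2 := by
    rw [e2, hu]
    field_simp
    ring
  have hxx : x * (x / n) ≤ ε * x := by nlinarith
  have e4 : (n:ℝ) * (x / n) ^ 2 = x * (x / n) := by field_simp
  have e5 : (n:ℝ) * u ^ 2 ≤ 441 / 100 * (x * (x / n)) := by
    have := mul_le_mul_of_nonneg_left hu3 hn0.le
    rw [← e4]
    linarith
  rw [e3, abs_le]
  constructor
  · have h1 : n / 2 * (Real.log (1 + u) - u) ≥ n / 2 * (-(2 * u ^ 2)) :=
      mul_le_mul_of_nonneg_left (by linarith) (by positivity)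
    have h2 : 0 ≤ x * (x / n) := by positivity
    nlinarith
  · have h1 : n / 2 * (Real.log (1 + u) - u) ≤ 0 :=
      mul_nonpos_of_nonneg_of_nonpos (by positivity) (by linarith)
    have h2 : 0 ≤ x * (x / n) := by positivity
    nlinarith

/-- one factor of the multiplier -/
theorem factor {n : ℕ} (hn : 2 ≤ n) {c w : ℂ} {i : ℕ} (hc : c ≠ 0)
    (hX : ‖X n c i‖ ≤ n / 10) (hw : ‖w - c * A n c i‖ ≤ ‖c‖ / (10 * n)) :
    0 < n * ‖w‖ ^ (n - 1) ∧ |Real.log (n * ‖w‖ ^ (n - 1)) -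
      (Real.log (Y n c) + (n - 1) * Real.log ‖A n c i‖)| ≤ 1 / 8 := by
  have hnr : (2:ℝ) ≤ n := by exact_mod_cast hn
  have hn0 : (0:ℝ) < n := by linarith
  have hc0 : 0 < ‖c‖ := norm_pos_iff.2 hc
  have hA : 9 / 10 ≤ ‖A n c i‖ := by
    have e1 : (1:ℝ) ≤ ‖A n c i‖ + ‖X n c i‖ / n := by
      have : (1:ℂ) = A n c i - X n c i / n := by unfold A; ring
      calc (1:ℝ) = ‖(1:ℂ)‖ := by simp
        _ = ‖A n c i - X n c i / n‖ := by rw [← this]
        _ ≤ _ := by
          refine (norm_sub_le _ _).trans ?_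
          rw [norm_div, Complex.norm_natCast]
    have e2 : ‖X n c i‖ / n ≤ 1 / 10 := by
      rw [div_le_iff₀ hn0]; linarith
    linarith
  have hA0 : 0 < ‖A n c i‖ := by linarith
  set b := ‖c‖ * ‖A n c i‖ with hb
  have hb0 : 0 < b := by positivity
  have h1 : ‖c‖ / (10 * n) ≤ b * (1 / (9 * n)) := by
    rw [hb, div_le_iff₀ (by positivity)]
    have : ‖c‖ * ‖A n c i‖ * (1 / (9 * n)) * (10 * n) = ‖c‖ * (‖A n c i‖ * (10 / 9)) := by
      field_simp
    rw [this]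
    nlinarith
  have h2 : |‖w‖ - b| ≤ b * (1 / (9 * n)) := by
    have h3 := abs_norm_sub_norm_le w (c * A n c i)
    rw [norm_mul] at h3
    exact h3.trans (hw.trans h1)
  rw [abs_le] at h2
  have hu : 1 / (9 * (n:ℝ)) ≤ 1 / 18 := by
    apply one_div_le_one_div_of_le (by norm_num); linarith
  have hu0 : 0 < 1 / (9 * (n:ℝ)) := by positivity
  have hw0 : 0 < ‖w‖ := by nlinarith [h2.1]
  refine ⟨by positivity, ?_⟩
  have hl1 : Real.log ‖w‖ - Real.log b ≤ 1 / (9 * n) := by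
    rw [← Real.log_div hw0.ne' hb0.ne']
    refine (Real.log_le_sub_one_of_pos (by positivity)).trans ?_
    rw [sub_le_iff_le_add, div_le_iff₀ hb0]
    linarith [h2.2]
  have hl2 : -(1 / (8 * n)) ≤ Real.log ‖w‖ - Real.log b := by
    rw [← Real.log_div hw0.ne' hb0.ne']
    refine le_trans ?_ (Real.one_sub_inv_le_log_of_pos (by positivity))
    rw [inv_div]
    have h3 : b / ‖w‖ ≤ 1 + 1 / (8 * n) := by
      rw [div_le_iff₀ hw0]
      have h4 : b * (1 - 1 / (9 * n)) ≤ ‖w‖ := by linarith [h2.1]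
      have h5 : 1 ≤ (1 + 1 / (8 * (n:ℝ))) * (1 - 1 / (9 * n)) := by
        have e1 : 1 / (8 * (n:ℝ)) = 9 / 8 * (1 / (9 * n)) := by field_simp
        rw [e1]
        nlinarith
      have h6 : 0 ≤ 1 + 1 / (8 * (n:ℝ)) := by positivity
      calc b ≤ b * ((1 + 1 / (8 * (n:ℝ))) * (1 - 1 / (9 * n))) := by nlinarith
        _ = (1 + 1 / (8 * (n:ℝ))) * (b * (1 - 1 / (9 * n))) := by ring
        _ ≤ _ := mul_le_mul_of_nonneg_left h4 h6
    linarith
  have hcast : ((n - 1 : ℕ) : ℝ) = n - 1 := by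
    rw [Nat.cast_sub (by omega)]; simp
  have e1 : Real.log (n * ‖w‖ ^ (n - 1)) = Real.log n + (n - 1) * Real.log ‖w‖ := by
    rw [Real.log_mul hn0.ne' (by positivity), Real.log_pow, hcast]
  have e2 : Real.log (Y n c) = Real.log n + (n - 1) * Real.log ‖c‖ := by
    unfold Y
    rw [Real.log_mul hn0.ne' (by positivity), Real.log_pow, hcast]
  have e3 : Real.log b = Real.log ‖c‖ + Real.log ‖A n c i‖ := by
    rw [hb, Real.log_mul hc0.ne' hA0.ne']
  have e4 : Real.log (n * ‖w‖ ^ (n - 1)) -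
      (Real.log (Y n c) + (n - 1) * Real.log ‖A n c i‖) =
      (n - 1) * (Real.log ‖w‖ - Real.log b) := by
    rw [e1, e2, e3]; ring
  rw [e4, abs_le]
  have hn1 : (0:ℝ) ≤ n - 1 := by linarith
  constructor
  · have h5 : ((n:ℝ) - 1) * (-(1 / (8 * n))) ≤ (n - 1) * (Real.log ‖w‖ - Real.log b) :=
      mul_le_mul_of_nonneg_left hl2 hn1
    refine le_trans ?_ h5
    have h6 : ((n:ℝ) - 1) * (-(1 / (8 * n))) = -(1 / 8) + 1 / (8 * n) := by field_simp; ring
    rw [h6]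
    have : 0 < 1 / (8 * (n:ℝ)) := by positivity
    linarith
  · have h5 : ((n:ℝ) - 1) * (Real.log ‖w‖ - Real.log b) ≤ (n - 1) * (1 / (9 * n)) :=
      mul_le_mul_of_nonneg_left hl1 hn1
    refine h5.trans ?_
    have h6 : ((n:ℝ) - 1) * (1 / (9 * n)) = 1 / 9 - 1 / (9 * n) := by field_simp
    rw [h6]
    linarith

theorem log_norm_A {n : ℕ} (hn : 2 ≤ n) {c : ℂ} {i : ℕ} (hX : ‖X n c i‖ ≤ n / 10) :
    |Real.log ‖A n c i‖| ≤ 1 / 8 ∧ 0 < ‖A n c i‖ := by
  have hnr : (2:ℝ) ≤ n := by exact_mod_cast hn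
  have hn0 : (0:ℝ) < n := by linarith
  have e2 : ‖X n c i‖ / n ≤ 1 / 10 := by
    rw [div_le_iff₀ hn0]; linarith
  have hA : 9 / 10 ≤ ‖A n c i‖ := by
    have e1 : (1:ℝ) ≤ ‖A n c i‖ + ‖X n c i‖ / n := by
      have : (1:ℂ) = A n c i - X n c i / n := by unfold A; ring
      calc (1:ℝ) = ‖(1:ℂ)‖ := by simp
        _ = ‖A n c i - X n c i / n‖ := by rw [← this]
        _ ≤ _ := by
          refine (norm_sub_le _ _).trans ?_
          rw [norm_div, Complex.norm_natCast]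
    linarith
  have hA2 : ‖A n c i‖ ≤ 11 / 10 := by
    unfold A
    refine (norm_add_le _ _).trans ?_
    rw [norm_one, norm_div, Complex.norm_natCast]
    linarith
  have hA0 : 0 < ‖A n c i‖ := by linarith
  refine ⟨?_, hA0⟩
  rw [abs_le]
  constructor
  · refine le_trans ?_ (Real.one_sub_inv_le_log_of_pos hA0)
    have : ‖A n c i‖⁻¹ ≤ 10 / 9 := by
      rw [inv_le_comm₀ hA0 (by norm_num)]
      norm_num
      exact hA
    linarith
  · refine (Real.log_le_sub_one_of_pos hA0).trans ?_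
    linarith

/-- the multiplier of the attracting cycle -/
theorem mult_est {n : ℕ} (hn : 2 ≤ n) {c : ℂ} {δ T ε : ℝ} (hδ : 0 < δ) (hδ1 : δ ≤ 1 / 10)
    (hε : 0 < ε) (hεδ : ε ≤ δ)
    (hB : Big δ T) (hY : T ≤ Y n c) (j K : ℕ) (hjK : j ≤ K) (ht : ∀ i ≤ j + 1, ‖X n c i‖ ≤ ε * n)
    (hcos : ∀ i < j, δ ≤ Real.cos (X n c (i + 1)).arg)
    (hneg : Real.cos (X n c (j + 1)).arg ≤ -δ)
    (hbig : (K + 2) * (Real.log ‖X n c (j + 1)‖ + 1) ≤ ε * ‖X n c (j + 1)‖) :
    ∃ z, N62a1eb23.IsAttractingCycle (f n c) (j + 2) z ∧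
      Function.minimalPeriod (f n c) z = j + 2 ∧ 0 < ‖deriv (f n c)^[j + 2] z‖ ∧
      |Real.log ‖deriv (f n c)^[j + 2] z‖ - (X n c (j + 1)).re| ≤ 6 * ε * ‖X n c (j + 1)‖ := by
  have hnr : (2:ℝ) ≤ n := by exact_mod_cast hn
  have hn0 : (0:ℝ) < n := by linarith
  have ht' : ∀ i ≤ j + 1, ‖X n c i‖ ≤ δ * n := fun i hi =>
    (ht i hi).trans (mul_le_mul_of_nonneg_right hεδ hn0.le)
  have ht'' : ∀ i ≤ j + 1, ‖X n c i‖ ≤ n / 10 := fun i hi => (ht' i hi).trans (by nlinarith)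
  obtain ⟨z, hz1, hz2, hz3⟩ := attracted_loc hn hδ hδ1 hB hY j ht' hcos hneg
  have hT1 := hB.1
  have hY20 : 20 ≤ Y n c := by linarith
  have hc := Y_pos_ne hn hY20
  have hmono := level_mono hn hδ (by linarith) hB hY j ht'' hcos
  set x := ‖X n c (j + 1)‖ with hx
  have hxT : T ≤ x := (hmono j le_rfl).1
  have hlx : 0 ≤ Real.log x := Real.log_nonneg (by linarith)
  have hlY : 0 ≤ Real.log (Y n c) ∧ Real.log (Y n c) ≤ Real.log x := by
    refine ⟨Real.log_nonneg (by linarith), ?_⟩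
    apply Real.log_le_log (by linarith)
    have := (hmono 0 (by omega)).2
    rwa [norm_X1] at this
  have hfac : ∀ i ≤ j + 1, 0 < (n:ℝ) * ‖(f n c)^[i] z‖ ^ (n - 1) ∧
      |Real.log (n * ‖(f n c)^[i] z‖ ^ (n - 1)) -
      (Real.log (Y n c) + (n - 1) * Real.log ‖A n c i‖)| ≤ 1 / 8 := fun i hi =>
    factor hn hc (ht'' i hi) (hz3 i hi)
  have hnorm : ‖deriv (f n c)^[j + 2] z‖ =
      ∏ i ∈ Finset.range (j + 2), ((n:ℝ) * ‖(f n c)^[i] z‖ ^ (n - 1)) := by
    rw [deriv_iter, norm_prod]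
    apply Finset.prod_congr rfl
    intro i _
    rw [norm_mul, norm_pow, Complex.norm_natCast]
  refine ⟨z, hz1, hz2, ?_, ?_⟩
  · rw [hnorm]
    apply Finset.prod_pos
    intro i hi
    rw [Finset.mem_range] at hi
    exact (hfac i (by omega)).1
  · rw [hnorm, Real.log_prod (fun i hi => ?_)]
    swap
    · rw [Finset.mem_range] at hi
      exact (hfac i (by omega)).1.ne'
    rw [Finset.sum_range_succ]
    -- the first factors
    have hfirst : |∑ i ∈ Finset.range (j + 1), Real.log (n * ‖(f n c)^[i] z‖ ^ (n - 1))| ≤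
        (j + 1) * (Real.log x + 1 / 4) := by
      refine (Finset.abs_sum_le_sum_abs _ _).trans ?_
      have h1 : ∀ i ∈ Finset.range (j + 1), |Real.log (n * ‖(f n c)^[i] z‖ ^ (n - 1))| ≤
          Real.log x + 1 / 4 := by
        intro i hi
        rw [Finset.mem_range] at hi
        obtain ⟨f1, f2⟩ := hfac i (by omega)
        obtain ⟨a1, a2⟩ := log_norm_A hn (ht'' i (by omega))
        have h2 : Real.log ‖X n c (i + 1)‖ = Real.log (Y n c) + n * Real.log ‖A n c i‖ := by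
          rw [Pool.Agent.W12.MB.norm_X, Real.log_mul (by linarith) (by positivity), Real.log_pow]
        have h3 := hmono i (by omega)
        have h4 : 0 ≤ Real.log ‖X n c (i + 1)‖ := Real.log_nonneg (by linarith [h3.1])
        have h5 : Real.log ‖X n c (i + 1)‖ ≤ Real.log x :=
          Real.log_le_log (by linarith [h3.1]) h3.2
        rw [abs_le] at f2 a1 ⊢
        constructor <;> nlinarith [f2.1, f2.2, a1.1, a1.2]
      have h2 := Finset.sum_le_card_nsmul _ _ _ h1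
      rw [Finset.card_range, nsmul_eq_mul] at h2
      push_cast at h2
      exact h2
    -- the last factor
    have hlast : |Real.log (n * ‖(f n c)^[j + 1] z‖ ^ (n - 1)) - (X n c (j + 1)).re| ≤
        Real.log x + 1 / 4 + 5 * ε * x := by
      obtain ⟨f1, f2⟩ := hfac (j + 1) le_rfl
      obtain ⟨a1, a2⟩ := log_norm_A hn (ht'' (j + 1) le_rfl)
      have h2 := log_A hn (by linarith : ε ≤ 1 / 10) (ht (j + 1) le_rfl)
      rw [← hx] at h2
      rw [abs_le] at f2 a1 h2 ⊢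
      constructor <;> nlinarith [f2.1, f2.2, a1.1, a1.2, h2.1, h2.2, hlY.1, hlY.2]
    have hjr : (j:ℝ) ≤ K := by exact_mod_cast hjK
    have h3 : (j + 1) * (Real.log x + 1 / 4) + (Real.log x + 1 / 4) ≤
        (K + 2) * (Real.log x + 1) := by nlinarith
    have h4 := abs_add_le (∑ i ∈ Finset.range (j + 1), Real.log (n * ‖(f n c)^[i] z‖ ^ (n - 1)))
      (Real.log (n * ‖(f n c)^[j + 1] z‖ ^ (n - 1)) - (X n c (j + 1)).re)
    have e1 : ∑ i ∈ Finset.range (j + 1), Real.log (n * ‖(f n c)^[i] z‖ ^ (n - 1)) +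
        Real.log (n * ‖(f n c)^[j + 1] z‖ ^ (n - 1)) - (X n c (j + 1)).re =
        ∑ i ∈ Finset.range (j + 1), Real.log (n * ‖(f n c)^[i] z‖ ^ (n - 1)) +
        (Real.log (n * ‖(f n c)^[j + 1] z‖ ^ (n - 1)) - (X n c (j + 1)).re) := by ring
    rw [e1]
    linarith

/-- cosine gap -/
theorem cos_gap {x y δ : ℝ} (hx : 0 ≤ x) (hδ : 0 ≤ δ) (hxy : x + δ ≤ y) (hy : y ≤ Real.pi / 2) :
    Real.cos y + δ ^ 2 / 5 ≤ Real.cos x := by
  have hπ := Real.pi_pos
  have hπ4 := Real.pi_lt_d2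
  have h1 : Real.cos (y - δ) ≤ Real.cos x :=
    Real.cos_le_cos_of_nonneg_of_le_pi hx (by linarith) (by linarith)
  have h2 : Real.cos (y - δ) - Real.cos y = 2 * Real.sin (y - δ / 2) * Real.sin (δ / 2) := by
    rw [Real.cos_sub_cos]
    have e1 : (y - δ + y) / 2 = y - δ / 2 := by ring
    have e2 : (y - δ - y) / 2 = -(δ / 2) := by ring
    rw [e1, e2, Real.sin_neg]
    ring
  have h3 : Real.sin (δ / 2) ≤ Real.sin (y - δ / 2) :=
    Real.sin_le_sin_of_le_of_le_pi_div_two (by linarith) (by linarith) (by linarith)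
  have h4 : 2 / Real.pi * (δ / 2) ≤ Real.sin (δ / 2) := Real.mul_le_sin (by linarith) (by linarith)
  have h5 : 0 ≤ Real.sin (δ / 2) := Real.sin_nonneg_of_nonneg_of_le_pi (by linarith) (by linarith)
  have h6 : 2 / Real.pi * (δ / 2) = δ / Real.pi := by ring
  rw [h6] at h4
  have h7 : (δ / Real.pi) ^ 2 ≤ Real.sin (δ / 2) * Real.sin (y - δ / 2) := by
    have := mul_le_mul h4 (h4.trans h3) (by positivity) h5
    nlinarith
  have h8 : δ ^ 2 / 10 ≤ (δ / Real.pi) ^ 2 := by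
    rw [div_pow, div_le_div_iff₀ (by norm_num) (by positivity)]
    have : Real.pi ^ 2 ≤ 10 := by nlinarith
    nlinarith [sq_nonneg δ]
  nlinarith

end Pool.Agent.Q75.Lw
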