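import Mathlib
import Pool.Agent.Q75.LwE

set_option autoImplicit false

open MeasureTheory Set Filter Topology Metric

namespace Pool.Agent.Q75.Lw

open Pool.Agent.W747.MB Pool.Agent.TH363.CD Pool.Agent.Q79.PA Pool.Agent.Q79.PL

/-- the logarithm on a disc -/
theorem expo {X L M : ℂ → ℂ} {c : ℂ} {r : ℝ} (hr : 0 < r)
    (hX : ∀ z ∈ ball c r, HasDerivAt X (X z * L z) z)
    (hL : ∀ z ∈ ball c r, HasDerivAt L (M z) z) :
    ∃ g : ℂ → ℂ, g c = 0 ∧ (∀ z ∈ ball c r, HasDerivAt g (L z) z) ∧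
      ∀ z ∈ ball c r, X z = X c * Complex.exp (g z) := by
  have h1 : DifferentiableOn ℂ L (ball c r) := fun z hz =>
    (hL z hz).differentiableAt.differentiableWithinAt
  obtain ⟨g, hg0, hg⟩ := h1.isExactOn_ball.with_val_at c 0
  refine ⟨g, hg0, hg, ?_⟩
  intro z hz
  have h2 : ∀ w ∈ ball c r, HasDerivAt (fun w => X w * Complex.exp (-g w)) 0 w := by
    intro w hw
    have h3 := (hX w hw).mul (hg w hw).neg.cexp
    refine h3.congr_deriv ?_
    simp only [Pi.neg_apply]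
    ring
  have h4 : X z * Complex.exp (-g z) = X c * Complex.exp (-g c) := by
    have h5 := (convex_ball c r).norm_image_sub_le_of_norm_hasDerivWithin_le
      (f := fun w => X w * Complex.exp (-g w)) (f' := fun _ => 0) (C := 0)
      (fun w hw => (h2 w hw).hasDerivWithinAt) (fun w _ => by simp) (mem_ball_self hr) hz
    rw [zero_mul] at h5
    have := norm_le_zero_iff.1 h5
    exact sub_eq_zero.1 this
  rw [hg0, neg_zero, Complex.exp_zero, mul_one] at h4
  rw [← h4, mul_assoc, ← Complex.exp_add]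
  simp

theorem cos_arg_mul_exp {w g : ℂ} (hw : w ≠ 0) :
    Real.cos (w * Complex.exp g).arg = Real.cos (w.arg + g.im) := by
  have hz : w * Complex.exp g ≠ 0 := mul_ne_zero hw (Complex.exp_ne_zero _)
  have h1 := Complex.norm_mul_cos_arg (w * Complex.exp g)
  have h2 : w * Complex.exp g =
      ((‖w‖ * Real.exp g.re : ℝ) : ℂ) * Complex.exp (((w.arg + g.im : ℝ) : ℂ) * Complex.I) := by
    conv_lhs => rw [← Complex.norm_mul_exp_arg_mul_I w]
    have : g = (g.re : ℂ) + g.im * Complex.I := (Complex.re_add_im g).symm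
    conv_lhs => rw [this]
    push_cast
    rw [Complex.exp_add, add_mul, Complex.exp_add]
    ring
  have h3 : (w * Complex.exp g).re = ‖w * Complex.exp g‖ * Real.cos (w.arg + g.im) := by
    have h4 : ‖w * Complex.exp g‖ = ‖w‖ * Real.exp g.re := by
      rw [norm_mul, Complex.norm_exp]
    rw [h4, h2, Complex.re_ofReal_mul, Complex.exp_ofReal_mul_I_re]
  rw [h3] at h1
  exact mul_left_cancel₀ (norm_ne_zero_iff.2 hz) h1

/-- the hypotheses of the local analysis -/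
structure Loc (n : ℕ) (c : ℂ) (j : ℕ) (δ R : ℝ) : Prop where
  n100 : 100 ≤ n
  R0 : 0 < R
  R15 : R ≤ 15
  δ0 : 0 < δ
  δ1 : δ ≤ 1
  big : 10 ^ 20 / δ ≤ Y n c
  small : 10 ^ 14 * Y n c ≤ n
  lev : ∀ c', Y n c' ≤ 10 ^ 14 * Y n c → ∀ i ≤ j + 1, ‖X n c' i‖ ≤ n / 10
  cos : ∀ i < j, δ ≤ Real.cos (X n c (i + 1)).arg

section

variable {n : ℕ} {c : ℂ} {j : ℕ} {δ R : ℝ}

theorem Loc.Y20 (h : Loc n c j δ R) : 10 ^ 20 ≤ Y n c := by
  refine le_trans ?_ h.big
  rw [le_div_iff₀ h.δ0]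
  have := h.δ1
  linarith

theorem re_nonneg_of_cos' {z : ℂ} (h : 0 ≤ Real.cos z.arg) : 0 ≤ z.re := by
  rw [← Complex.norm_mul_cos_arg]
  exact mul_nonneg (norm_nonneg _) h

/-- geometry at the centre -/
theorem Loc.geo (h : Loc n c j δ R) : ∀ i, 1 ≤ i → i ≤ j + 1 → Y n c ≤ ‖X n c i‖ ∧ 0 < ‖L n c i‖ ∧
    ‖L n c 1‖ ≤ ‖L n c i‖ ∧ ‖M n c i‖ ≤ 16 / Y n c * ‖L n c i‖ ^ 2 ∧
      ∀ i', 1 ≤ i' → i' < i → Y n c / 2 * ‖L n c i'‖ ≤ ‖L n c i‖ := by
  have h1 := h.Y20
  have h2 := h.small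
  have h3 := h.n100
  apply geo_all (by omega) (by linarith) (by linarith) j
  intro i hi1 hi2
  obtain ⟨i', rfl⟩ : ∃ i', i = i' + 1 := ⟨i - 1, by omega⟩
  exact ⟨re_nonneg_of_cos' (h.δ0.le.trans (h.cos i' (by omega))),
    h.lev c (by linarith) _ (by omega)⟩

theorem Loc.rad (h : Loc n c j δ R) : R / ‖L n c (j + 1)‖ ≤ R * ‖c‖ / (n - 1) := by
  have h3 := h.n100
  have hn : (100:ℝ) ≤ n := by exact_mod_cast h3
  obtain ⟨-, g2, g3, -, -⟩ := h.geo (j + 1) (by omega) le_rfl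
  have hc : c ≠ 0 := Y_pos_ne (n := n) (by omega) (by linarith [h.Y20])
  have hc0 : 0 < ‖c‖ := norm_pos_iff.2 hc
  rw [norm_L1 (by omega)] at g3
  have h4 : 0 < ((n:ℝ) - 1) / ‖c‖ := by
    apply div_pos (by linarith) hc0
  calc R / ‖L n c (j + 1)‖ ≤ R / (((n:ℝ) - 1) / ‖c‖) :=
        div_le_div_of_nonneg_left h.R0.le h4 g3
    _ = R * ‖c‖ / (n - 1) := by field_simp

theorem Loc.Ybd (h : Loc n c j δ R) {c' : ℂ} (hc' : c' ∈ ball c (R / ‖L n c (j + 1)‖)) :
    Y n c ≤ 10 ^ 14 * Y n c' ∧ Y n c' ≤ 10 ^ 14 * Y n c := by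
  have h3 := h.n100
  have hn : (100:ℝ) ≤ n := by exact_mod_cast h3
  have hn1 : (0:ℝ) < n - 1 := by linarith
  have hcast : ((n - 1 : ℕ) : ℝ) = n - 1 := by
    rw [Nat.cast_sub (by omega)]; simp
  have hc : c ≠ 0 := Y_pos_ne (n := n) (by omega) (by linarith [h.Y20])
  have hc0 : 0 < ‖c‖ := norm_pos_iff.2 hc
  have hd : ‖c' - c‖ ≤ ‖c‖ * (15 / (n - 1)) := by
    have h4 : ‖c' - c‖ < R / ‖L n c (j + 1)‖ := by simpa [dist_eq_norm] using hc'
    refine h4.le.trans (h.rad.trans ?_)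
    rw [div_le_iff₀ hn1]
    have : ‖c‖ * (15 / ((n:ℝ) - 1)) * (n - 1) = 15 * ‖c‖ := by field_simp
    rw [this]
    exact mul_le_mul_of_nonneg_right h.R15 hc0.le
  set u := 15 / ((n:ℝ) - 1) with hu
  have hu0 : 0 ≤ u := by positivity
  have hu1 : u ≤ 1 / 2 := by rw [hu, div_le_iff₀ hn1]; linarith
  have hup : ‖c'‖ ≤ ‖c‖ * (1 + u) := by
    calc ‖c'‖ = ‖(c' - c) + c‖ := by ring_nf
      _ ≤ ‖c' - c‖ + ‖c‖ := norm_add_le _ _
      _ ≤ ‖c‖ * (1 + u) := by linarith
  have hlo : ‖c‖ * (1 - u) ≤ ‖c'‖ := by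
    have : ‖c‖ ≤ ‖c' - c‖ + ‖c'‖ := by
      calc ‖c‖ = ‖-(c' - c) + c'‖ := by ring_nf
        _ ≤ ‖-(c' - c)‖ + ‖c'‖ := norm_add_le _ _
        _ = _ := by rw [norm_neg]
    linarith
  have he : Real.exp 30 ≤ 10 ^ 14 := by
    have h1 : Real.exp 1 < 2.7182818286 := Real.exp_one_lt_d9
    have h2 : Real.exp 30 = Real.exp 1 ^ 30 := by
      rw [← Real.exp_nat_mul]; norm_num
    rw [h2]
    calc Real.exp 1 ^ 30 ≤ (2.72:ℝ) ^ 30 := by
          apply pow_le_pow_left₀ (Real.exp_pos _).le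
          linarith
      _ ≤ 10 ^ 14 := by norm_num
  have e1 : (1 + u) ^ (n - 1) ≤ Real.exp 30 := by
    have h5 := Real.add_one_le_exp u
    calc (1 + u) ^ (n - 1) ≤ (Real.exp u) ^ (n - 1) :=
          pow_le_pow_left₀ (by linarith) (by linarith) _
      _ = Real.exp (((n:ℝ) - 1) * u) := by rw [← Real.exp_nat_mul, hcast]
      _ ≤ Real.exp 30 := by
          apply Real.exp_le_exp.2
          rw [hu]
          have : ((n:ℝ) - 1) * (15 / (n - 1)) = 15 := by field_simp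
          rw [this]; norm_num
  have e2 : 1 ≤ Real.exp 30 * (1 - u) ^ (n - 1) := by
    have h5 : Real.exp (-(2 * u)) ≤ 1 - u := by
      have h6 : Real.exp (-(2 * u)) ≤ 1 / (1 + 2 * u) := by
        rw [Real.exp_neg, ← one_div]
        apply one_div_le_one_div_of_le (by linarith)
        have := Real.add_one_le_exp (2 * u)
        linarith
      refine h6.trans ?_
      rw [div_le_iff₀ (by linarith)]
      nlinarith
    have h7 : Real.exp (-30) ≤ (1 - u) ^ (n - 1) := by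
      calc Real.exp (-30) = (Real.exp (-(2 * u))) ^ (n - 1) := by
            rw [← Real.exp_nat_mul, hcast]
            congr 1
            rw [hu]
            field_simp
            norm_num
        _ ≤ _ := pow_le_pow_left₀ (Real.exp_pos _).le h5 _
    have h8 : Real.exp 30 * Real.exp (-30) = 1 := by rw [← Real.exp_add]; simp
    calc (1:ℝ) = Real.exp 30 * Real.exp (-30) := h8.symm
      _ ≤ _ := mul_le_mul_of_nonneg_left h7 (Real.exp_pos _).le
  have hY0 : 0 ≤ Y n c := by linarith [h.Y20]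
  unfold Y at *
  constructor
  · have h5 : (‖c‖ * (1 - u)) ^ (n - 1) ≤ ‖c'‖ ^ (n - 1) :=
      pow_le_pow_left₀ (mul_nonneg hc0.le (by linarith)) hlo _
    rw [mul_pow] at h5
    have h6 : 0 ≤ ‖c‖ ^ (n - 1) := by positivity
    have h7 : 0 ≤ (1 - u) ^ (n - 1) := pow_nonneg (by linarith) _
    have h8 : ‖c‖ ^ (n - 1) ≤ Real.exp 30 * ‖c'‖ ^ (n - 1) := by
      calc ‖c‖ ^ (n - 1) ≤ ‖c‖ ^ (n - 1) * (Real.exp 30 * (1 - u) ^ (n - 1)) :=
            le_mul_of_one_le_right h6 e2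
        _ = Real.exp 30 * (‖c‖ ^ (n - 1) * (1 - u) ^ (n - 1)) := by ring
        _ ≤ _ := mul_le_mul_of_nonneg_left h5 (Real.exp_pos _).le
    have h9 : Real.exp 30 * ‖c'‖ ^ (n - 1) ≤ 10 ^ 14 * ‖c'‖ ^ (n - 1) :=
      mul_le_mul_of_nonneg_right he (by positivity)
    have hn0 : (0:ℝ) ≤ n := by linarith
    have := mul_le_mul_of_nonneg_left (h8.trans h9) hn0
    linarith
  · have h5 : ‖c'‖ ^ (n - 1) ≤ (‖c‖ * (1 + u)) ^ (n - 1) :=
      pow_le_pow_left₀ (norm_nonneg _) hup _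
    rw [mul_pow] at h5
    have h6 : 0 ≤ ‖c‖ ^ (n - 1) := by positivity
    have h8 : ‖c'‖ ^ (n - 1) ≤ ‖c‖ ^ (n - 1) * 10 ^ 14 :=
      h5.trans (mul_le_mul_of_nonneg_left (e1.trans he) h6)
    have hn0 : (0:ℝ) ≤ n := by linarith
    have := mul_le_mul_of_nonneg_left h8 hn0
    linarith

/-- the induction over the levels -/
theorem Loc.main (h : Loc n c j δ R) (i : ℕ) (hi : i ≤ j) :
    ∀ c' ∈ ball c (R / ‖L n c (j + 1)‖), (∀ i' < i, δ / 2 ≤ Real.cos (X n c' (i' + 1)).arg) ∧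
      0 < ‖L n c' (i + 1)‖ ∧
      ‖(L n c' (i + 1))⁻¹ - (L n c (i + 1))⁻¹‖ ≤ 16 * 10 ^ 14 / Y n c * ‖c' - c‖ ∧
      HasDerivAt (fun z => X n z (i + 1)) (X n c' (i + 1) * L n c' (i + 1)) c' ∧
      HasDerivAt (fun z => L n z (i + 1)) (M n c' (i + 1)) c' := by
  have h3 := h.n100
  have hn : (100:ℝ) ≤ n := by exact_mod_cast h3
  have hn2 : 2 ≤ n := by omega
  have hY20 := h.Y20
  have hY0 : 0 < Y n c := by linarith
  have hgc := h.geo
  have hLk := (hgc (j + 1) (by omega) le_rfl).2.1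
  set r := R / ‖L n c (j + 1)‖ with hr
  have hr0 : 0 < r := div_pos h.R0 hLk
  have hδ0 := h.δ0
  induction i with
  | zero =>
    have hall : ∀ c' ∈ ball c r, 0 < ‖L n c' 1‖ ∧ ‖M n c' 1‖ ≤ 16 / Y n c' * ‖L n c' 1‖ ^ 2 ∧
      HasDerivAt (fun z => X n z 1) (X n c' 1 * L n c' 1) c' ∧
      HasDerivAt (fun z => L n z 1) (M n c' 1) c' ∧ Y n c ≤ 10 ^ 14 * Y n c' := by
      intro c' hc'
      obtain ⟨y1, y2⟩ := h.Ybd hc'
      have hY' : 20 ≤ Y n c' := by linarith
      have hc0 := Y_pos_ne hn2 hY'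
      obtain ⟨-, g2, -, g4, -⟩ := geo_all hn2 hY' (y2.trans h.small) 0
        (fun i h1 h2 => by omega) 1 le_rfl (by omega)
      obtain ⟨d1, d2⟩ := Pool.Agent.W366.MB.main n hn2 c' 1 hc0 (fun i hi => by
        obtain rfl : i = 0 := by omega
        simp [A, X])
      exact ⟨g2, g4, d1, d2, y1⟩
    intro c' hc'
    obtain ⟨a1, a2, a3, a4, a5⟩ := hall c' hc'
    refine ⟨fun i' hi' => absurd hi' (Nat.not_lt_zero _), a1, ?_, a3, a4⟩
    have h5 := (convex_ball c r).norm_image_sub_le_of_norm_hasDerivWithin_le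
      (f := fun z => (L n z 1)⁻¹) (f' := fun z => -M n z 1 / L n z 1 ^ 2)
      (C := 16 * 10 ^ 14 / Y n c)
      (fun w hw => ((hall w hw).2.2.2.1.inv (norm_pos_iff.1 (hall w hw).1)).hasDerivWithinAt)
      (fun w hw => by
        obtain ⟨b1, b2, -, -, b5⟩ := hall w hw
        rw [norm_div, norm_neg, norm_pow, div_le_iff₀ (by positivity)]
        refine b2.trans (mul_le_mul_of_nonneg_right ?_ (by positivity))
        rw [div_le_div_iff₀ (by linarith) hY0]
        linarith) (mem_ball_self hr0) hc'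
    exact h5
  | succ i ih =>
    have ih' := ih (by omega)
    -- the cosine at level `i + 1`
    have hcosi : ∀ c' ∈ ball c r, δ / 2 ≤ Real.cos (X n c' (i + 1)).arg := by
      have hLi := (hgc (i + 1) (by omega) (by omega)).2.1
      have hgap : ‖L n c (i + 1)‖ * r ≤ 2 * R / Y n c := by
        have h5 := (hgc (j + 1) (by omega) le_rfl).2.2.2.2 (i + 1) (by omega) (by omega)
        rw [hr, ← mul_div_assoc, div_le_div_iff₀ hLk hY0]
        have := h.R0
        nlinarith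
      have hR15 := h.R15
      have hsmall : 2 * R / Y n c ≤ 1 / 10 ^ 16 := by
        rw [div_le_div_iff₀ hY0 (by positivity)]
        linarith
      have hquot : ∀ c' ∈ ball c r, ‖L n c' (i + 1)‖ ≤ 2 * ‖L n c (i + 1)‖ := by
        intro c' hc'
        obtain ⟨-, b2, b3, -, -⟩ := ih' c' hc'
        have hd : ‖c' - c‖ < r := by simpa [dist_eq_norm] using hc'
        have h6 : ‖(L n c (i + 1))⁻¹‖ ≤ ‖(L n c' (i + 1))⁻¹‖ +
            16 * 10 ^ 14 / Y n c * ‖c' - c‖ := by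
          calc ‖(L n c (i + 1))⁻¹‖ = ‖(L n c' (i + 1))⁻¹ -
                ((L n c' (i + 1))⁻¹ - (L n c (i + 1))⁻¹)‖ := by ring_nf
            _ ≤ _ := (norm_sub_le _ _).trans (by linarith)
        rw [norm_inv, norm_inv] at h6
        have h7 : 16 * 10 ^ 14 / Y n c * ‖c' - c‖ ≤ ‖L n c (i + 1)‖⁻¹ / 2 := by
          rw [le_div_iff₀ (by norm_num), ← mul_le_mul_iff_left₀ hLi,
            inv_mul_cancel₀ hLi.ne']
          have h8 : 16 * 10 ^ 14 / Y n c ≤ 1 / 100 := by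
            rw [div_le_div_iff₀ hY0 (by norm_num)]; linarith
          have h9 : ‖c' - c‖ * ‖L n c (i + 1)‖ ≤ 1 := by
            calc ‖c' - c‖ * ‖L n c (i + 1)‖ ≤ r * ‖L n c (i + 1)‖ :=
                  mul_le_mul_of_nonneg_right hd.le hLi.le
              _ = ‖L n c (i + 1)‖ * r := mul_comm _ _
              _ ≤ 1 := hgap.trans (hsmall.trans (by norm_num))
          have h10 : 0 ≤ ‖c' - c‖ * ‖L n c (i + 1)‖ := by positivity
          calc 16 * 10 ^ 14 / Y n c * ‖c' - c‖ * 2 * ‖L n c (i + 1)‖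
              = 16 * 10 ^ 14 / Y n c * (‖c' - c‖ * ‖L n c (i + 1)‖) * 2 := by ring
            _ ≤ 1 / 100 * 1 * 2 := by
                have := mul_le_mul h8 h9 h10 (by norm_num)
                linarith
            _ ≤ 1 := by norm_num
        have h11 : ‖L n c (i + 1)‖⁻¹ / 2 ≤ ‖L n c' (i + 1)‖⁻¹ := by linarith
        rw [div_le_iff₀ (by norm_num), ← mul_le_mul_iff_left₀ hLi,
          inv_mul_cancel₀ hLi.ne', ← mul_le_mul_iff_left₀ b2] at h11
        have h12 : ‖L n c' (i + 1)‖⁻¹ * 2 * ‖L n c (i + 1)‖ * ‖L n c' (i + 1)‖ =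
            2 * ‖L n c (i + 1)‖ := by field_simp
        rw [h12] at h11
        linarith
      obtain ⟨g, hg0, hg, hXg⟩ := expo hr0 (X := fun z => X n z (i + 1))
        (L := fun z => L n z (i + 1)) (M := fun z => M n z (i + 1))
        (fun z hz => (ih' z hz).2.2.2.1) (fun z hz => (ih' z hz).2.2.2.2)
      intro c' hc'
      have hd : ‖c' - c‖ < r := by simpa [dist_eq_norm] using hc'
      have hgn : ‖g c'‖ ≤ 4 * R / Y n c := by
        have h5 := (convex_ball c r).norm_image_sub_le_of_norm_hasDerivWithin_le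
          (f := g) (f' := fun z => L n z (i + 1)) (C := 2 * ‖L n c (i + 1)‖)
          (fun w hw => (hg w hw).hasDerivWithinAt) (fun w hw => hquot w hw)
          (mem_ball_self hr0) hc'
        rw [hg0, sub_zero] at h5
        refine h5.trans ?_
        calc 2 * ‖L n c (i + 1)‖ * ‖c' - c‖ ≤ 2 * ‖L n c (i + 1)‖ * r :=
              mul_le_mul_of_nonneg_left hd.le (by positivity)
          _ = 2 * (‖L n c (i + 1)‖ * r) := by ring
          _ ≤ 2 * (2 * R / Y n c) := by linarith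
          _ = _ := by ring
      have hX0 : X n c (i + 1) ≠ 0 := by
        have := (hgc (i + 1) (by omega) (by omega)).1
        rw [← norm_pos_iff]; linarith
      have h6 := hXg c' hc'
      rw [h6, cos_arg_mul_exp hX0]
      have h7 := h.cos i (by omega)
      have h8 : |Real.cos ((X n c (i + 1)).arg + (g c').im) - Real.cos (X n c (i + 1)).arg| ≤
          |(g c').im| := by
        have := Real.abs_cos_sub_cos_le ((X n c (i + 1)).arg + (g c').im) (X n c (i + 1)).arg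
        simpa using this
      have h9 : |(g c').im| ≤ δ / 2 := by
        refine (Complex.abs_im_le_norm _).trans (hgn.trans ?_)
        have hb := h.big
        rw [div_le_iff₀ hδ0] at hb
        rw [div_le_iff₀ hY0]
        nlinarith
      rw [abs_le] at h8
      linarith [h8.1]
    have hall : ∀ c' ∈ ball c r, 0 < ‖L n c' (i + 2)‖ ∧
      ‖M n c' (i + 2)‖ ≤ 16 / Y n c' * ‖L n c' (i + 2)‖ ^ 2 ∧
      HasDerivAt (fun z => X n z (i + 2)) (X n c' (i + 2) * L n c' (i + 2)) c' ∧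
      HasDerivAt (fun z => L n z (i + 2)) (M n c' (i + 2)) c' ∧ Y n c ≤ 10 ^ 14 * Y n c' ∧
      ∀ i' < i + 1, δ / 2 ≤ Real.cos (X n c' (i' + 1)).arg := by
      intro c' hc'
      obtain ⟨y1, y2⟩ := h.Ybd hc'
      have hY' : 20 ≤ Y n c' := by linarith
      have hc0 := Y_pos_ne hn2 hY'
      have hlev := h.lev c' y2
      have hcos' : ∀ i' < i + 1, δ / 2 ≤ Real.cos (X n c' (i' + 1)).arg := by
        intro i' hi'
        rcases Nat.lt_or_ge i' i with h7 | h7
        · exact (ih' c' hc').1 i' h7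
        · obtain rfl : i' = i := by omega
          exact hcosi c' hc'
      obtain ⟨-, g2, -, g4, -⟩ := geo_all hn2 hY' (y2.trans h.small) (i + 1)
        (fun i' h1 h2 => by
          obtain ⟨i'', rfl⟩ : ∃ i'', i' = i'' + 1 := ⟨i' - 1, by omega⟩
          exact ⟨re_nonneg_of_cos' ((by positivity : 0 ≤ δ / 2).trans (hcos' i'' (by omega))),
            hlev _ (by omega)⟩) (i + 2) (by omega) (by omega)
      obtain ⟨hA, -⟩ := nz_of_tower hn2 hY' (k := i + 1) (fun i' hi' => hlev i' (by omega))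
      obtain ⟨d1, d2⟩ := Pool.Agent.W366.MB.main n hn2 c' (i + 2) hc0
        (fun i' hi' => hA i' (by omega))
      exact ⟨g2, g4, d1, d2, y1, hcos'⟩
    intro c' hc'
    obtain ⟨a1, a2, a3, a4, a5, a6⟩ := hall c' hc'
    refine ⟨a6, a1, ?_, a3, a4⟩
    have h5 := (convex_ball c r).norm_image_sub_le_of_norm_hasDerivWithin_le
      (f := fun z => (L n z (i + 2))⁻¹) (f' := fun z => -M n z (i + 2) / L n z (i + 2) ^ 2)
      (C := 16 * 10 ^ 14 / Y n c)
      (fun w hw => ((hall w hw).2.2.2.1.inv (norm_pos_iff.1 (hall w hw).1)).hasDerivWithinAt)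
      (fun w hw => by
        obtain ⟨b1, b2, -, -, b5, -⟩ := hall w hw
        rw [norm_div, norm_neg, norm_pow, div_le_iff₀ (by positivity)]
        refine b2.trans (mul_le_mul_of_nonneg_right ?_ (by positivity))
        rw [div_le_div_iff₀ (by linarith) hY0]
        linarith) (mem_ball_self hr0) hc'
    exact h5

/-- the last level -/
theorem Loc.last (h : Loc n c j δ R) :
    (∀ c' ∈ ball c (R / ‖L n c (j + 1)‖),
      ‖L n c' (j + 1) - L n c (j + 1)‖ ≤ 10 ^ 17 / Y n c * ‖L n c (j + 1)‖) ∧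
    ∃ g : ℂ → ℂ, ∀ c' ∈ ball c (R / ‖L n c (j + 1)‖),
      X n c' (j + 1) = X n c (j + 1) * Complex.exp (g c') ∧
      ‖g c' - L n c (j + 1) * (c' - c)‖ ≤ 10 ^ 17 / Y n c * R := by
  have hY20 := h.Y20
  have hY0 : 0 < Y n c := by linarith
  have hLk := (h.geo (j + 1) (by omega) le_rfl).2.1
  have hmain := h.main j le_rfl
  set r := R / ‖L n c (j + 1)‖ with hr
  have hr0 : 0 < r := div_pos h.R0 hLk
  set l := ‖L n c (j + 1)‖ with hl
  have hlr : l * r = R := by rw [hr]; field_simp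
  have hR15 := h.R15
  have hR0 := h.R0
  have hk : 16 * 10 ^ 14 / Y n c * R ≤ 1 / 2 := by
    rw [div_mul_eq_mul_div, div_le_div_iff₀ hY0 (by norm_num)]
    nlinarith
  have hvar : ∀ c' ∈ ball c r, ‖L n c' (j + 1) - L n c (j + 1)‖ ≤ 10 ^ 17 / Y n c * l := by
    intro c' hc'
    obtain ⟨-, b2, b3, -, -⟩ := hmain c' hc'
    have hd : ‖c' - c‖ < r := by simpa [dist_eq_norm] using hc'
    set l' := ‖L n c' (j + 1)‖ with hl'
    set κ := 16 * 10 ^ 14 / Y n c with hκ
    have hκ0 : 0 < κ := by positivity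
    have hid : L n c' (j + 1) - L n c (j + 1) =
        -(L n c' (j + 1) * L n c (j + 1) * ((L n c' (j + 1))⁻¹ - (L n c (j + 1))⁻¹)) := by
      have e1 := norm_pos_iff.1 b2
      have e2 := norm_pos_iff.1 hLk
      field_simp
      ring
    have h1 : ‖L n c' (j + 1) - L n c (j + 1)‖ ≤ l' * l * (κ * ‖c' - c‖) := by
      rw [hid, norm_neg, norm_mul, norm_mul]
      exact mul_le_mul_of_nonneg_left b3 (by positivity)
    have h2 : l' * l * (κ * ‖c' - c‖) ≤ l' * (κ * R) := by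
      have : l * ‖c' - c‖ ≤ R := by
        rw [← hlr]; exact mul_le_mul_of_nonneg_left hd.le hLk.le
      have h3 := mul_le_mul_of_nonneg_left this (by positivity : 0 ≤ l' * κ)
      nlinarith
    have h3 : l' ≤ 2 * l := by
      have h4 : l' ≤ ‖L n c' (j + 1) - L n c (j + 1)‖ + l := by
        calc l' = ‖(L n c' (j + 1) - L n c (j + 1)) + L n c (j + 1)‖ := by
              rw [hl']; congr 1; ring
          _ ≤ _ := norm_add_le _ _
      have h5 : l' * (κ * R) ≤ l' * (1 / 2) := mul_le_mul_of_nonneg_left hk b2.le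
      linarith
    calc ‖L n c' (j + 1) - L n c (j + 1)‖ ≤ l' * (κ * R) := h1.trans h2
      _ ≤ 2 * l * (κ * R) := mul_le_mul_of_nonneg_right h3 (by positivity)
      _ ≤ 10 ^ 17 / Y n c * l := by
        rw [hκ]
        have e1 : 2 * l * (16 * 10 ^ 14 / Y n c * R) = (32 * 10 ^ 14 * R) / Y n c * l := by ring
        rw [e1]
        apply mul_le_mul_of_nonneg_right _ hLk.le
        apply div_le_div_of_nonneg_right _ hY0.le
        nlinarith
  refine ⟨hvar, ?_⟩
  obtain ⟨g, hg0, hg, hXg⟩ := expo hr0 (X := fun z => X n z (j + 1))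
    (L := fun z => L n z (j + 1)) (M := fun z => M n z (j + 1))
    (fun z hz => (hmain z hz).2.2.2.1) (fun z hz => (hmain z hz).2.2.2.2)
  refine ⟨g, ?_⟩
  intro c' hc'
  refine ⟨hXg c' hc', ?_⟩
  have hd : ‖c' - c‖ < r := by simpa [dist_eq_norm] using hc'
  have h5 := (convex_ball c r).norm_image_sub_le_of_norm_hasDerivWithin_le
    (f := fun z => g z - L n c (j + 1) * (z - c)) (f' := fun z => L n z (j + 1) - L n c (j + 1))
    (C := 10 ^ 17 / Y n c * l)
    (fun w hw => by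
      have h6 := (hg w hw).sub (((hasDerivAt_id w).sub_const c).const_mul (L n c (j + 1)))
      refine (h6.congr_deriv ?_).hasDerivWithinAt
      simp) hvar (mem_ball_self hr0) hc'
  simp only [hg0, sub_self, mul_zero, sub_zero] at h5
  refine h5.trans ?_
  have h7 : l * ‖c' - c‖ ≤ R := by
    rw [← hlr]; exact mul_le_mul_of_nonneg_left hd.le hLk.le
  have h8 := mul_le_mul_of_nonneg_left h7 (by positivity : 0 ≤ (10:ℝ) ^ 17 / Y n c)
  nlinarith

end

end Pool.Agent.Q75.Lw
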