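import Mathlib
import Pool.Agent.Q75.LwE

set_option autoImplicit false

open MeasureTheory Set Filter Topology Metric

namespace Pool.Agent.Q75.Lw

open Pool.Agent.W747.MB Pool.Agent.TH363.CD Pool.Agent.Q79.PA Pool.Agent.Q79.PL

/-- attracting cycle of exact period in `S` with a multiplier which is not too small -/
def WeakM (n : ℕ) (S : Set ℕ) (t : ℝ) : Set ℂ :=
  {c | ∃ p ∈ S, ∃ z, N62a1eb23.IsAttractingCycle (f n c) p z ∧
    Function.minimalPeriod (f n c) z = p ∧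
    Real.exp (-(t * (n * ‖(f n c)^[p] 0 / c - 1‖))) ≤ ‖deriv (f n c)^[p] z‖}

theorem orbit0 {n : ℕ} (hn : 2 ≤ n) {c : ℂ} (hc : c ≠ 0) (j : ℕ) :
    n * ‖(f n c)^[j + 2] 0 / c - 1‖ = ‖X n c (j + 1)‖ := by
  have hn0 : (0:ℝ) < n := by
    have : 0 < n := by omega
    exact_mod_cast this
  have hn0' : (n:ℂ) ≠ 0 := by exact_mod_cast hn0.ne'
  have h1 : (f n c)^[j + 2] 0 = c * A n c (j + 1) := by
    rw [← Pool.Agent.W410.MB.ATT.orbit hn, Function.iterate_succ_apply]
    congr 1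
    simp only [f]
    rw [zero_pow (by omega), zero_add]
  rw [h1, mul_div_cancel_left₀ _ hc]
  have h2 : A n c (j + 1) - 1 = X n c (j + 1) / n := by unfold A; ring
  rw [h2, norm_div, Complex.norm_natCast]
  field_simp

theorem cos_arg_of_phi {t δ : ℝ} (hδ : 0 ≤ δ) (h : phi t < Real.pi / 2 - δ) :
    Real.cos t ≤ -(δ / 2) := by
  have hπ := Real.pi_pos
  have h1 := cos_phi t
  have h0 := phi_nonneg t
  have h2 : Real.cos (Real.pi / 2 - δ) ≤ Real.cos (phi t) :=
    Real.cos_le_cos_of_nonneg_of_le_pi h0 (by linarith) h.le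
  rw [Real.cos_pi_div_two_sub] at h2
  have h3 : 2 / Real.pi * δ ≤ Real.sin δ := Real.mul_le_sin hδ (by linarith)
  have h4 : δ / 2 ≤ 2 / Real.pi * δ := by
    have : 1 / 2 ≤ 2 / Real.pi := by
      rw [div_le_div_iff₀ (by norm_num) hπ]
      linarith [Real.pi_lt_d2]
    nlinarith
  linarith

open Classical in
/-- the law of the multiplier -/
theorem lawM {lam ε : ℝ} (hl : 1 < lam) (hε : 0 < ε) : ∃ (K : ℕ) (Y0 : ℝ),
    ∀ᶠ n : ℕ in atTop, ∀ Y : ℝ, Y0 ≤ Y → Y ≤ Real.log^[K] (n:ℝ) → ∀ (S : Set ℕ) (t : ℝ),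
      0 ≤ t → t ≤ 1 →
      0 < (volume (Ann n Y (lam * Y))).toReal ∧
      |(volume (WeakM n S t ∩ Ann n Y (lam * Y))).toReal -
        (∑' j : ℕ, if j + 2 ∈ S then (1 / 2 : ℝ) ^ (j + 1) else 0) *
          (2 / Real.pi * Real.arcsin t) *
          (volume (Ann n Y (lam * Y))).toReal| ≤ ε * (volume (Ann n Y (lam * Y))).toReal := by
  have hπ := Real.pi_pos
  obtain ⟨K, δ0, hδ0, hδ1, hgen⟩ := gen_law hl hε
  set δ := min δ0 (1 / 60) with hδd
  have hδ : 0 < δ := lt_min hδ0 (by norm_num)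
  have hδle : δ ≤ δ0 := min_le_left _ _
  have hδ30 : δ ≤ 1 / 60 := min_le_right _ _
  obtain ⟨Y1, hY1⟩ := hgen δ hδ hδle
  obtain ⟨T, hT⟩ := exists_big (show 0 < δ / 2 by positivity)
  -- the size of the logarithms
  have hlogx : ∀ᶠ x : ℝ in atTop, (K + 2) * (Real.log x + 1) ≤ δ ^ 3 * x := by
    have h2 : Tendsto (fun x : ℝ => (K + 2) * (Real.log x / x + 1 / x)) atTop
        (𝓝 ((K + 2) * (0 + 0))) := by
      apply Tendsto.const_mul
      apply Tendsto.add
      · have := Real.isLittleO_log_id_atTop.tendsto_div_nhds_zero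
        simpa using this
      · exact (tendsto_inv_atTop_zero (𝕜 := ℝ)).congr fun x => (one_div x).symm
    rw [add_zero, mul_zero] at h2
    filter_upwards [h2.eventually_lt_const (show 0 < δ ^ 3 by positivity),
      eventually_gt_atTop 0] with x h3 h4
    have e1 : (K + 2) * (Real.log x / x + 1 / x) = (K + 2) * (Real.log x + 1) / x := by
      field_simp
    rw [e1, div_lt_iff₀ h4] at h3
    linarith
  obtain ⟨x0, hx0⟩ := eventually_atTop.1 hlogx
  set T' := max T x0 with hT'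
  refine ⟨K + 1, max Y1 T', ?_⟩
  have hδ3 : 0 < δ ^ 3 := by positivity
  have hδ34 : δ ^ 3 ≤ 1 / 4 := by
    have : δ ^ 3 ≤ (1 / 60) ^ 3 := pow_le_pow_left₀ hδ.le hδ30 3
    linarith
  filter_upwards [hY1, levels K hδ3 hδ34 (show 0 < lam by linarith), eventually_ge_atTop 2]
    with n a1 a2 a3
  intro Y hYY hYn S t ht0 ht1
  have hY1' : Y1 ≤ Y := (le_max_left _ _).trans hYY
  have hYT : T ≤ Y := (le_max_left _ _).trans ((le_max_right _ _).trans hYY)
  have hYx0 : x0 ≤ Y := (le_max_right _ _).trans ((le_max_right _ _).trans hYY)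
  have hnr : (2:ℝ) ≤ n := by exact_mod_cast a3
  have hn0 : (0:ℝ) < n := by linarith
  have hT1 := hT.1
  have hδδ : δ ^ 3 ≤ δ / 2 := by nlinarith [sq_nonneg δ]
  -- the common estimate
  have hest : ∀ j ≤ K, ∀ c ∈ Ann n Y (lam * Y), (∀ i < j, δ ≤ Real.cos (X n c (i + 1)).arg) →
      phi (X n c (j + 1)).arg < Real.pi / 2 - δ →
      0 < ‖X n c (j + 1)‖ ∧ c ≠ 0 ∧
      ∃ z, N62a1eb23.IsAttractingCycle (f n c) (j + 2) z ∧
      Function.minimalPeriod (f n c) z = j + 2 ∧ 0 < ‖deriv (f n c)^[j + 2] z‖ ∧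
      |Real.log ‖deriv (f n c)^[j + 2] z‖ +
        Real.cos (phi (X n c (j + 1)).arg) * ‖X n c (j + 1)‖| ≤
        6 * δ ^ 3 * ‖X n c (j + 1)‖ := by
    intro j hj c hc hcos hphi
    obtain ⟨hc1, hc2⟩ := hc
    have ht3 := a2 c (hc2.trans (mul_le_mul_of_nonneg_left hYn (by linarith)))
    have hmono := level_mono a3 (show 0 < δ / 2 by positivity) (by linarith) hT
      (hYT.trans hc1) j (fun i hi => (ht3 i (by omega)).trans (by nlinarith))
      (fun i hi => by linarith [hcos i hi])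
    have h1 := hmono j le_rfl
    have hYX : Y ≤ ‖X n c (j + 1)‖ := by
      have := (hmono 0 (by omega)).2
      rw [norm_X1] at this
      exact hc1.trans this
    obtain ⟨z, hz1, hz2, hz3, hz4⟩ := mult_est a3 (show 0 < δ / 2 by positivity) (by linarith)
      hδ3 hδδ hT (hYT.trans hc1) j K hj (fun i hi => ht3 i (by omega))
      (fun i hi => by linarith [hcos i hi]) (cos_arg_of_phi hδ.le hphi)
      (hx0 _ (hYx0.trans hYX))
    refine ⟨by linarith [h1.1], Y_pos_ne a3 (by linarith), z, hz1, hz2, hz3, ?_⟩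
    have e1 : (X n c (j + 1)).re = -(Real.cos (phi (X n c (j + 1)).arg) * ‖X n c (j + 1)‖) := by
      rw [cos_phi]
      have : (X n c (j + 1)).re = ‖X n c (j + 1)‖ * Real.cos (X n c (j + 1)).arg := by
        rw [Complex.norm_mul_cos_arg]
      rw [this]; ring
    rw [e1, sub_neg_eq_add] at hz4
    exact hz4
  have hα0 : 0 ≤ Real.arccos t := Real.arccos_nonneg t
  have hα1 : Real.arccos t ≤ Real.pi / 2 := Real.arccos_le_pi_div_two.2 ht0
  have hcα : Real.cos (Real.arccos t) = t := Real.cos_arccos (by linarith) ht1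
  have hgap : 6 * δ ^ 3 < δ ^ 2 / 5 := by
    have : 0 < δ ^ 2 := by positivity
    have e1 : 6 * δ ^ 3 = δ ^ 2 * (6 * δ) := by ring
    rw [e1]
    nlinarith
  obtain ⟨r1, r2⟩ := a1 Y hY1' hYn (Real.arccos t) hα0 hα1 S (WeakM n S t) (by
    intro j hj c hc _ hcos hphi hjS hαφ
    obtain ⟨hx, hc0, z, hz1, hz2, hz3, hz4⟩ := hest j hj c hc hcos hphi
    refine ⟨j + 2, hjS, z, hz1, hz2, ?_⟩
    rw [orbit0 a3 hc0, ← Real.le_log_iff_exp_le hz3]
    have h1 := cos_gap hα0 hδ.le hαφ.le (by linarith)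
    rw [hcα] at h1
    rw [abs_le] at hz4
    set x := ‖X n c (j + 1)‖ with hxd
    have h2 : (Real.cos (phi (X n c (j + 1)).arg) + 6 * δ ^ 3) * x ≤ t * x :=
      mul_le_mul_of_nonneg_right (by linarith) hx.le
    linarith [hz4.1]) (by
    intro j hj c hc _ hcos hphi hor hmem
    obtain ⟨hx, hc0, z, hz1, hz2, hz3, hz4⟩ := hest j hj c hc hcos hphi
    obtain ⟨p, hpS, z', hz1', hz2', hz3'⟩ := hmem
    have hp : p = j + 2 := by
      rw [← hz2', ← hz2]
      exact period_unique a3 hz1 hz1'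
    subst hp
    rcases hor with h | h
    · exact h hpS
    · rw [orbit0 a3 hc0, ← mult_unique a3 hz1 hz1', ← Real.le_log_iff_exp_le hz3] at hz3'
      have h1 := cos_gap (phi_nonneg _) hδ.le (by linarith : phi (X n c (j + 1)).arg + δ ≤
        Real.arccos t) hα1
      rw [hcα] at h1
      rw [abs_le] at hz4
      set x := ‖X n c (j + 1)‖ with hxd
      have h2 : t * x < (Real.cos (phi (X n c (j + 1)).arg) - 6 * δ ^ 3) * x :=
        mul_lt_mul_of_pos_right (by linarith) hx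
      linarith [hz4.2])
  refine ⟨r1, ?_⟩
  have e1 : 1 - 2 * Real.arccos t / Real.pi = 2 / Real.pi * Real.arcsin t := by
    rw [Real.arccos_eq_pi_div_two_sub_arcsin]
    field_simp
    ring
  rw [← e1]
  exact r2

end Pool.Agent.Q75.Lw
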