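import Mathlib
import Pool.Agent.Q75.LwF
import Pool.Agent.Q75.LwM

set_option autoImplicit false

open MeasureTheory Set Filter Topology Metric

namespace Pool.Agent.Q75.Lw

open Pool.Agent.W747.MB Pool.Agent.TH363.CD Pool.Agent.Q79.PA Pool.Agent.Q79.PL

theorem sin_phi (t : ℝ) : Real.sin (phi t) = |Real.sin t| := by
  have h1 : 0 ≤ Real.sin (phi t) := Real.sin_nonneg_of_nonneg_of_le_pi (phi_nonneg t) (phi_le t)
  have h2 := Real.sin_sq_add_cos_sq (phi t)
  have h3 := Real.sin_sq_add_cos_sq t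
  rw [cos_phi] at h2
  have h4 : Real.sin (phi t) ^ 2 = Real.sin t ^ 2 := by nlinarith
  rw [← abs_of_nonneg h1]
  exact (sq_eq_sq_iff_abs_eq_abs _ _).1 h4

theorem phi_add_le (t y : ℝ) : phi (t + y) ≤ phi t + |y| := by
  rcases le_or_gt Real.pi (phi t + |y|) with h | h
  · exact (phi_le _).trans h
  have hy := abs_nonneg y
  have h0 := phi_nonneg t
  have h1 : Real.cos (phi t + |y|) ≤ Real.cos (phi (t + y)) := by
    rw [Real.cos_add, cos_phi, cos_phi, sin_phi, Real.cos_abs, Real.cos_add]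
    have h2 : Real.sin |y| = |Real.sin y| := by
      rcases le_total 0 y with h3 | h3
      · rw [abs_of_nonneg h3, abs_of_nonneg]
        rw [abs_of_nonneg h3] at h
        exact Real.sin_nonneg_of_nonneg_of_le_pi h3 (by linarith)
      · rw [abs_of_nonpos h3] at h ⊢
        rw [Real.sin_neg]
        have : Real.sin y ≤ 0 := Real.sin_nonpos_of_nonpos_of_neg_pi_le h3 (by linarith)
        rw [abs_of_nonpos this]
    rw [h2, ← abs_mul]
    have := neg_abs_le (Real.sin t * Real.sin y)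
    linarith
  by_contra hcon
  push Not at hcon
  have h3 := Real.cos_lt_cos_of_nonneg_of_le_pi (by linarith) (phi_le (t + y)) hcon
  linarith

theorem phi_sub_le (t y : ℝ) : phi t - |y| ≤ phi (t + y) := by
  have h := phi_add_le (t + y) (-y)
  rw [abs_neg] at h
  have e : t + y + -y = t := by ring
  rw [e] at h
  linarith

theorem phi_dir (t : ℝ) : ∃ σ : ℝ, (σ = 1 ∨ σ = -1) ∧
    ∀ y, 0 ≤ y → phi t + y ≤ Real.pi → phi (t + σ * y) = phi t + y := by
  have key : ∀ σ : ℝ, (σ = 1 ∨ σ = -1) → Real.sin t = -(σ * Real.sin (phi t)) →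
      ∀ y, 0 ≤ y → phi t + y ≤ Real.pi → phi (t + σ * y) = phi t + y := by
    intro σ hσ hs y hy hyp
    have h0 := phi_nonneg t
    have h1 : -Real.cos (t + σ * y) = Real.cos (phi t + y) := by
      rw [Real.cos_add, Real.cos_add, cos_phi, hs]
      rcases hσ with rfl | rfl
      · rw [one_mul]; ring
      · have e : -1 * y = -y := by ring
        rw [e, Real.cos_neg, Real.sin_neg]; ring
    unfold phi
    rw [h1]
    exact Real.arccos_cos (by unfold phi at h0; unfold phi; linarith) hyp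
  rcases le_total 0 (Real.sin t) with h | h
  · refine ⟨-1, Or.inr rfl, key (-1) (Or.inr rfl) ?_⟩
    rw [sin_phi, abs_of_nonneg h]; ring
  · refine ⟨1, Or.inl rfl, key 1 (Or.inl rfl) ?_⟩
    rw [sin_phi, abs_of_nonpos h]; ring

theorem phi_congr {s t : ℝ} (h : Real.cos s = Real.cos t) : phi s = phi t := by
  unfold phi; rw [h]

/-- the hypotheses for the estimate of the distance -/
structure LocD (n : ℕ) (c : ℂ) (j : ℕ) (δ e T : ℝ) : Prop where
  n100 : 100 ≤ n
  e0 : 0 < e
  eδ : e ≤ δ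
  δ1 : δ ≤ 1 / 10
  B : Big (e / 8) T
  T1 : 10 ^ 28 * T ≤ Y n c
  big : 10 ^ 40 / e ≤ Y n c
  small : 10 ^ 28 * Y n c ≤ n
  lev : ∀ c', Y n c' ≤ 10 ^ 28 * Y n c → ∀ i ≤ j + 2, ‖X n c' i‖ ≤ e / 8 * n
  cos : ∀ i < j, δ ≤ Real.cos (X n c (i + 1)).arg
  ph : phi (X n c (j + 1)).arg < Real.pi / 2 - δ

section

variable {n : ℕ} {c : ℂ} {j : ℕ} {δ e T : ℝ}

theorem LocD.Y40 (h : LocD n c j δ e T) : 10 ^ 40 ≤ Y n c := by
  refine le_trans ?_ h.big
  rw [le_div_iff₀ h.e0]
  have := h.δ1
  have := h.eδ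
  linarith

theorem LocD.loc (h : LocD n c j δ e T) : Loc n c j δ 2 where
  n100 := h.n100
  R0 := by norm_num
  R15 := by norm_num
  δ0 := h.e0.trans_le h.eδ
  δ1 := h.δ1.trans (by norm_num)
  big := by
    refine le_trans ?_ h.big
    have h1 := h.eδ
    have h2 := h.e0
    apply div_le_div₀ (by positivity) (by norm_num) h2 h1
  small := by
    have := h.small
    have := h.Y40
    linarith
  lev := by
    intro c' hc' i hi
    have h1 := h.Y40
    have h2 := h.lev c' (by linarith) i (by omega)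
    have h3 := h.eδ
    have h4 := h.δ1
    have hn : (0:ℝ) ≤ n := Nat.cast_nonneg n
    refine h2.trans ?_
    nlinarith
  cos := h.cos

/-- the lower bound: a disc of parameters with the same period -/
theorem LocD.lower (h : LocD n c j δ e T) {c' : ℂ}
    (hc' : c' ∈ ball c ((Real.pi / 2 - phi (X n c (j + 1)).arg - e) / ‖L n c (j + 1)‖)) :
    c' ∈ Ex n (j + 2) := by
  have hπ := Real.pi_pos
  have hπ4 := Real.pi_lt_d2
  have hl := h.loc
  have hLk := (hl.geo (j + 1) (by omega) le_rfl).2.1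
  have hY40 := h.Y40
  have hY0 : 0 < Y n c := by linarith
  have he0 := h.e0
  have heδ := h.eδ
  have hδ1 := h.δ1
  set φ := Lw.phi (X n c (j + 1)).arg with hφ
  have hφ0 : 0 ≤ φ := phi_nonneg _
  have hball : c' ∈ ball c (2 / ‖L n c (j + 1)‖) := by
    refine ball_subset_ball ?_ hc'
    apply div_le_div_of_nonneg_right _ hLk.le
    linarith
  obtain ⟨m1, -, -, -, -⟩ := hl.main j le_rfl c' hball
  obtain ⟨y1, y2⟩ := hl.Ybd hball
  obtain ⟨-, g, hg⟩ := hl.last
  obtain ⟨g1, g2⟩ := hg c' hball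
  have hX0 : X n c (j + 1) ≠ 0 := by
    have := (hl.geo (j + 1) (by omega) le_rfl).1
    rw [← norm_pos_iff]; linarith
  have hd : ‖c' - c‖ < (Real.pi / 2 - φ - e) / ‖L n c (j + 1)‖ := by
    simpa [dist_eq_norm] using hc'
  rw [lt_div_iff₀ hLk] at hd
  have hη : (10:ℝ) ^ 17 / Y n c * 2 ≤ e / 2 := by
    have hb := h.big
    rw [div_le_iff₀ he0] at hb
    rw [div_mul_eq_mul_div, div_le_iff₀ hY0]
    nlinarith
  have him : |(g c').im| ≤ Real.pi / 2 - φ - e / 2 := by
    have h1 : ‖g c'‖ ≤ ‖L n c (j + 1) * (c' - c)‖ + ‖g c' - L n c (j + 1) * (c' - c)‖ := by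
      calc ‖g c'‖ = ‖L n c (j + 1) * (c' - c) + (g c' - L n c (j + 1) * (c' - c))‖ := by
            congr 1; ring
        _ ≤ _ := norm_add_le _ _
    rw [norm_mul, mul_comm] at h1
    have h2 := Complex.abs_im_le_norm (g c')
    linarith
  have hphi : phi (X n c' (j + 1)).arg ≤ Real.pi / 2 - e / 2 := by
    rw [g1, phi_congr (cos_arg_mul_exp hX0)]
    have := phi_add_le (X n c (j + 1)).arg (g c').im
    linarith
  have hn : (0:ℝ) ≤ n := Nat.cast_nonneg n
  have hn100 := h.n100
  refine attracted (δ := e / 8) (T := T) (by omega) (by positivity) (by linarith) h.B ?_ j ?_ ?_ ?_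
  · have := h.T1
    have := h.B.1
    linarith
  · intro i hi
    exact h.lev c' (by linarith) i (by omega)
  · intro i hi
    have := m1 i hi
    linarith
  · have h3 := cos_arg_of_phi (δ := e / 3) (by positivity)
      (show phi (X n c' (j + 1)).arg < Real.pi / 2 - e / 3 by linarith)
    linarith

/-- the upper bound: a parameter with another period -/
theorem LocD.upper (h : LocD n c j δ e T) :
    ∃ c'' ∉ Ex n (j + 2), ‖L n c (j + 1)‖ * ‖c'' - c‖ ≤
      Real.pi / 2 - phi (X n c (j + 1)).arg + 2 * e := by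
  have hπ := Real.pi_pos
  have hπ4 := Real.pi_lt_d2
  have hl := h.loc
  have hLk := (hl.geo (j + 1) (by omega) le_rfl).2.1
  have hY40 := h.Y40
  have hY0 : 0 < Y n c := by linarith
  have he0 := h.e0
  have heδ := h.eδ
  have hδ1 := h.δ1
  have hn100 := h.n100
  have hn : (100:ℝ) ≤ n := by exact_mod_cast hn100
  set φ := Lw.phi (X n c (j + 1)).arg with hφ
  have hφ0 : 0 ≤ φ := phi_nonneg _
  have hφ1 := h.ph
  rw [← hφ] at hφ1
  set l := ‖L n c (j + 1)‖ with hld
  have hL0 : L n c (j + 1) ≠ 0 := norm_pos_iff.1 hLk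
  set ρ := Real.pi / 2 - φ + e with hρ
  have hρ0 : 0 < ρ := by linarith
  have hρ2 : ρ < 2 := by linarith
  obtain ⟨σ, hσ, hdir⟩ := phi_dir (X n c (j + 1)).arg
  set c' := c + Complex.I * (σ * ρ : ℝ) / L n c (j + 1) with hc'
  have hdist : ‖c' - c‖ = ρ / l := by
    rw [hc', add_sub_cancel_left, norm_div, norm_mul, Complex.norm_I, one_mul, Complex.norm_real,
      Real.norm_eq_abs, abs_mul, abs_of_pos hρ0]
    rcases hσ with rfl | rfl <;> simp [hld]
  have hball : c' ∈ ball c (2 / l) := by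
    rw [mem_ball, dist_eq_norm, hdist]
    exact div_lt_div_of_pos_right hρ2 hLk
  have hLc : L n c (j + 1) * (c' - c) = Complex.I * (σ * ρ : ℝ) := by
    rw [hc', add_sub_cancel_left]; field_simp
  obtain ⟨m1, m2, -, -, -⟩ := hl.main j le_rfl c' hball
  obtain ⟨y1, y2⟩ := hl.Ybd hball
  obtain ⟨v1, g, hg⟩ := hl.last
  have v1' := v1 c' hball
  obtain ⟨g1, g2⟩ := hg c' hball
  have hX0 : X n c (j + 1) ≠ 0 := by
    have := (hl.geo (j + 1) (by omega) le_rfl).1
    rw [← norm_pos_iff]; linarith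
  have hη : (10:ℝ) ^ 17 / Y n c * 2 ≤ e / 2 := by
    have hb := h.big
    rw [div_le_iff₀ he0] at hb
    rw [div_mul_eq_mul_div, div_le_iff₀ hY0]
    nlinarith
  -- the argument at `c'`
  have him : |(g c').im - σ * ρ| ≤ e / 2 := by
    have h1 : (g c').im - σ * ρ = (g c' - L n c (j + 1) * (c' - c)).im := by
      rw [hLc, Complex.sub_im]
      simp
    rw [h1]
    exact (Complex.abs_im_le_norm _).trans (g2.trans hη)
  have hphi : Real.pi / 2 + e / 2 ≤ phi (X n c' (j + 1)).arg := by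
    rw [g1, phi_congr (cos_arg_mul_exp hX0)]
    have h1 := phi_sub_le ((X n c (j + 1)).arg + σ * ρ) ((g c').im - σ * ρ)
    have e1 : (X n c (j + 1)).arg + σ * ρ + ((g c').im - σ * ρ) =
      (X n c (j + 1)).arg + (g c').im := by ring
    rw [e1, hdir ρ hρ0.le (by linarith)] at h1
    linarith
  have hcosj : e / 4 ≤ Real.cos (X n c' (j + 1)).arg := by
    have h1 : Real.cos (phi (X n c' (j + 1)).arg) ≤ Real.cos (Real.pi / 2 + e / 2) :=
      Real.cos_le_cos_of_nonneg_of_le_pi (by linarith) (phi_le _) hphi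
    rw [cos_phi, add_comm (Real.pi / 2) (e / 2), Real.cos_add_pi_div_two] at h1
    have h3 : 2 / Real.pi * (e / 2) ≤ Real.sin (e / 2) :=
      Real.mul_le_sin (by linarith) (by linarith)
    have h4 : e / 4 ≤ 2 / Real.pi * (e / 2) := by
      have : 1 / 2 ≤ 2 / Real.pi := by
        rw [div_le_div_iff₀ (by norm_num) hπ]
        linarith
      nlinarith
    linarith
  -- the next level at `c'`
  have hloc' : Loc n c' (j + 1) (e / 4) 15 := by
    refine ⟨hn100, by norm_num, le_rfl, by positivity, by linarith, ?_, ?_, ?_, ?_⟩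
    · have hb := h.big
      rw [div_le_iff₀ he0] at hb
      rw [div_le_iff₀ (by positivity)]
      nlinarith
    · have := h.small
      linarith
    · intro c'' hc'' i hi
      have h1 := h.lev c'' (by linarith) i (by omega)
      refine h1.trans ?_
      nlinarith
    · intro i hi
      rcases Nat.lt_or_ge i j with h1 | h1
      · have := m1 i h1
        linarith
      · obtain rfl : i = j := by omega
        exact hcosj
  have hgeo' := hloc'.geo
  have hL2 := (hgeo' (j + 2) (by omega) le_rfl).2.1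
  have hYc' : 0 < Y n c' := by linarith
  obtain ⟨w1, G, hG⟩ := hloc'.last
  obtain ⟨c'', hc''1, t, ht0, ht⟩ := exists_dir (g := fun z => X n z (j + 2))
    (ℓ := fun z => L n z (j + 2)) (x := c') (ℓ₀ := L n c' (j + 2)) (w := -1)
    (r := 15 / ‖L n c' (j + 2)‖) (norm_pos_iff.1 hL2)
    (div_lt_div_of_pos_right (by norm_num) hL2) (by
      intro z hz
      obtain ⟨-, b2, -, b4, b5⟩ := hloc'.main (j + 1) le_rfl z hz
      obtain ⟨G1, -⟩ := hG z hz
      refine ⟨?_, b4, ?_, b5.continuousAt⟩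
      · rw [G1]
        apply mul_ne_zero _ (Complex.exp_ne_zero _)
        have := (hgeo' (j + 2) (by omega) le_rfl).1
        rw [← norm_pos_iff]; linarith
      · refine (w1 z hz).trans ?_
        have : (10:ℝ) ^ 17 / Y n c' ≤ 1 / 2 := by
          rw [div_le_div_iff₀ hYc' (by norm_num)]; linarith
        nlinarith) (by norm_num)
  have hball'' : c'' ∈ ball c' (15 / ‖L n c' (j + 2)‖) :=
    closedBall_subset_ball (div_lt_div_of_pos_right (by norm_num) hL2) hc''1
  obtain ⟨k1, -, -, -, -⟩ := hloc'.main (j + 1) le_rfl c'' hball''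
  obtain ⟨z1, z2⟩ := hloc'.Ybd hball''
  have hEx : c'' ∈ Ex n (j + 3) := by
    refine attracted (δ := e / 8) (T := T) (by omega) (by positivity) (by linarith) h.B ?_
      (j + 1) ?_ ?_ ?_
    · have h1 := h.T1
      have h2 := h.B.1
      linarith
    · intro i hi
      exact h.lev c'' (by linarith) i (by omega)
    · intro i hi
      have := k1 i hi
      linarith
    · have h1 : X n c'' (j + 1 + 1) = ((-t : ℝ) : ℂ) := by
        have : X n c'' (j + 2) = t * (-1) := ht
        rw [show j + 1 + 1 = j + 2 from rfl, this]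
        push_cast; ring
      rw [h1, Complex.arg_ofReal_of_neg (by linarith), Real.cos_pi]
      linarith
  refine ⟨c'', ?_, ?_⟩
  · rintro ⟨z, hz, hzp⟩
    obtain ⟨z', hz', hzp'⟩ := hEx
    have := period_unique (by omega : 2 ≤ n) hz hz'
    omega
  · have hd2 : ‖c'' - c'‖ ≤ 14 / ‖L n c' (j + 2)‖ := by simpa [dist_eq_norm] using hc''1
    have h5 : Y n c' / 2 * ‖L n c' (j + 1)‖ ≤ ‖L n c' (j + 2)‖ :=
      (hgeo' (j + 2) (by omega) le_rfl).2.2.2.2 (j + 1) (by omega) (by omega)
    have h6 : l / 2 ≤ ‖L n c' (j + 1)‖ := by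
      have h7 : l ≤ ‖L n c' (j + 1)‖ + ‖L n c' (j + 1) - L n c (j + 1)‖ := by
        calc l = ‖L n c' (j + 1) - (L n c' (j + 1) - L n c (j + 1))‖ := by
              rw [hld]; congr 1; ring
          _ ≤ _ := norm_sub_le _ _
      have h8 : (10:ℝ) ^ 17 / Y n c ≤ 1 / 2 := by
        rw [div_le_div_iff₀ hY0 (by norm_num)]; linarith
      have h9 := mul_le_mul_of_nonneg_right h8 hLk.le
      linarith
    have h10 : Y n c / (4 * 10 ^ 14) * l ≤ ‖L n c' (j + 2)‖ := by
      refine le_trans ?_ h5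
      have h11 : Y n c / (2 * 10 ^ 14) ≤ Y n c' / 2 := by
        rw [div_le_div_iff₀ (by positivity) (by norm_num)]
        linarith
      calc Y n c / (4 * 10 ^ 14) * l = Y n c / (2 * 10 ^ 14) * (l / 2) := by ring
        _ ≤ _ := mul_le_mul h11 h6 (by positivity) (by positivity)
    have h12 : l * ‖c'' - c'‖ ≤ e := by
      have h13 : l * ‖c'' - c'‖ ≤ l * (14 / ‖L n c' (j + 2)‖) :=
        mul_le_mul_of_nonneg_left hd2 hLk.le
      refine h13.trans ?_
      rw [← mul_div_assoc, div_le_iff₀ hL2]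
      have hb := h.big
      rw [div_le_iff₀ he0] at hb
      have h14 : e * (Y n c / (4 * 10 ^ 14) * l) ≤ e * ‖L n c' (j + 2)‖ :=
        mul_le_mul_of_nonneg_left h10 he0.le
      refine le_trans ?_ h14
      have : e * (Y n c / (4 * 10 ^ 14) * l) = (Y n c * e) / (4 * 10 ^ 14) * l := by ring
      rw [this, mul_comm l 14]
      apply mul_le_mul_of_nonneg_right _ hLk.le
      rw [le_div_iff₀ (by positivity)]
      linarith
    have h15 : l * ‖c'' - c‖ ≤ l * (‖c'' - c'‖ + ‖c' - c‖) := by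
      apply mul_le_mul_of_nonneg_left _ hLk.le
      calc ‖c'' - c‖ = ‖(c'' - c') + (c' - c)‖ := by congr 1; ring
        _ ≤ _ := norm_add_le _ _
    have h16 : l * (ρ / l) = ρ := by field_simp
    rw [hdist] at h15
    linarith

/-- the distance to the complement of the parameters of the same period -/
theorem LocD.dist (h : LocD n c j δ e T) : c ∈ Ex n (j + 2) ∧
    |Metric.infDist c (Ex n (j + 2))ᶜ * ‖L n c (j + 1)‖ -
      (Real.pi / 2 - phi (X n c (j + 1)).arg)| ≤ 2 * e := by
  have hl := h.loc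
  have hLk := (hl.geo (j + 1) (by omega) le_rfl).2.1
  have he0 := h.e0
  have heδ := h.eδ
  have hφ1 := h.ph
  obtain ⟨c'', hc'', hd⟩ := h.upper
  set φ := Lw.phi (X n c (j + 1)).arg with hφ
  set l := ‖L n c (j + 1)‖ with hld
  have hr : 0 < (Real.pi / 2 - φ - e) / l := div_pos (by linarith) hLk
  refine ⟨h.lower (mem_ball_self hr), ?_⟩
  have hne : (Ex n (j + 2))ᶜ.Nonempty := ⟨c'', hc''⟩
  rw [abs_le]
  constructor
  · have h1 : (Real.pi / 2 - φ - e) / l ≤ Metric.infDist c (Ex n (j + 2))ᶜ := by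
      rw [Metric.le_infDist hne]
      intro y hy
      by_contra hcon
      push Not at hcon
      exact hy (h.lower (by rw [mem_ball, dist_comm]; exact hcon))
    rw [div_le_iff₀ hLk] at h1
    linarith
  · have h1 : Metric.infDist c (Ex n (j + 2))ᶜ ≤ ‖c'' - c‖ := by
      have := Metric.infDist_le_dist_of_mem (x := c) (show c'' ∈ (Ex n (j + 2))ᶜ from hc'')
      rwa [dist_comm, dist_eq_norm] at this
    have h2 := mul_le_mul_of_nonneg_right h1 hLk.le
    linarith

end

end Pool.Agent.Q75.Lw
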