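import Mathlib
import Pool.Agent.Q75.LwG

set_option autoImplicit false

open MeasureTheory Set Filter Topology Metric

namespace Pool.Agent.Q75.Lw

open Pool.Agent.W747.MB Pool.Agent.TH363.CD Pool.Agent.Q79.PA Pool.Agent.Q79.PL

/-- attracting cycle of exact period in `S`, not too far from the boundary -/
def DistE (n : ℕ) (S : Set ℕ) (t : ℝ) : Set ℂ :=
  {c | ∃ p ∈ S, c ∈ Ex n p ∧ Metric.infDist c (Ex n p)ᶜ *
    ‖logDeriv (fun z => (f n z)^[p] 0 / z - 1) c‖ ≤ t * (Real.pi / 2)}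

theorem orbit1 {n : ℕ} (hn : 2 ≤ n) {c : ℂ} (hc : c ≠ 0) (j : ℕ) :
    (f n c)^[j + 2] 0 / c - 1 = X n c (j + 1) / n := by
  have h1 : (f n c)^[j + 2] 0 = c * A n c (j + 1) := by
    rw [← Pool.Agent.W410.MB.ATT.orbit hn, Function.iterate_succ_apply]
    congr 1
    simp only [f]
    rw [zero_pow (by omega), zero_add]
  rw [h1, mul_div_cancel_left₀ _ hc]
  unfold A; ring

theorem Loc.logd {n : ℕ} {c : ℂ} {j : ℕ} {δ R : ℝ} (h : Loc n c j δ R) :
    logDeriv (fun z => (f n z)^[j + 2] 0 / z - 1) c = L n c (j + 1) := by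
  have h3 := h.n100
  have hn2 : 2 ≤ n := by omega
  have hY20 := h.Y20
  have hc : c ≠ 0 := Y_pos_ne (n := n) hn2 (by linarith)
  have hLk := (h.geo (j + 1) (by omega) le_rfl).2.1
  have hr0 : 0 < R / ‖L n c (j + 1)‖ := div_pos h.R0 hLk
  obtain ⟨-, -, -, d1, -⟩ := h.main j le_rfl c (mem_ball_self hr0)
  have hn0 : (n:ℂ) ≠ 0 := by
    have : n ≠ 0 := by omega
    exact_mod_cast this
  have hX0 : X n c (j + 1) ≠ 0 := by
    have := (h.geo (j + 1) (by omega) le_rfl).1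
    rw [← norm_pos_iff]; linarith
  have hev : (fun z => (f n z)^[j + 2] 0 / z - 1) =ᶠ[𝓝 c] fun z => X n z (j + 1) / n := by
    filter_upwards [isOpen_ne.mem_nhds hc] with z hz
    exact orbit1 hn2 hz j
  have hd : HasDerivAt (fun z => X n z (j + 1) / n) (X n c (j + 1) * L n c (j + 1) / n) c :=
    d1.div_const _
  rw [logDeriv_apply, hev.deriv_eq, hd.deriv, hev.eq_of_nhds]
  field_simp

open Classical in
/-- the law of the distance to the boundary -/
theorem lawD {lam ε : ℝ} (hl : 1 < lam) (hε : 0 < ε) : ∃ (K : ℕ) (Y0 : ℝ),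
    ∀ᶠ n : ℕ in atTop, ∀ Y : ℝ, Y0 ≤ Y → Y ≤ Real.log^[K] (n:ℝ) → ∀ (S : Set ℕ) (t : ℝ),
      0 ≤ t → t ≤ 1 →
      0 < (volume (Ann n Y (lam * Y))).toReal ∧
      |(volume (DistE n S t ∩ Ann n Y (lam * Y))).toReal -
        (∑' j : ℕ, if j + 2 ∈ S then (1 / 2 : ℝ) ^ (j + 1) else 0) * t *
          (volume (Ann n Y (lam * Y))).toReal| ≤ ε * (volume (Ann n Y (lam * Y))).toReal := by
  have hπ := Real.pi_pos
  obtain ⟨K, δ0, hδ0, hδ1, hgen⟩ := gen_law hl hε
  obtain ⟨Y1, hY1⟩ := hgen δ0 hδ0 le_rfl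
  set e := δ0 / 4 with hed
  have he0 : 0 < e := by positivity
  obtain ⟨T, hT⟩ := exists_big (show 0 < e / 8 by positivity)
  refine ⟨K + 2, max Y1 (max (10 ^ 28 * T) (10 ^ 40 / e)), ?_⟩
  have hlog : ∀ᶠ t : ℝ in atTop, (10 ^ 28 * lam) * Real.log t ≤ 1 / 4 * t := by
    have h2 : Tendsto (fun t : ℝ => Real.log t / t) atTop (𝓝 0) := by
      have := Real.isLittleO_log_id_atTop.tendsto_div_nhds_zero
      simpa using this
    filter_upwards [h2.eventually_lt_const (show 0 < 1 / 4 / (10 ^ 28 * lam) by positivity),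
      eventually_gt_atTop 0] with t h3 h4
    rw [div_lt_div_iff₀ h4 (by positivity)] at h3
    linarith
  filter_upwards [hY1, levels (K + 1) (show 0 < e / 8 by positivity) (by linarith)
    (show 0 < 10 ^ 28 * lam by positivity), iter_bound' (show (0:ℝ) < 1 / 4 by norm_num) le_rfl K,
    (tendsto_iterlog K).eventually hlog, (tendsto_iterlog (K + 1)).eventually_gt_atTop 0,
    eventually_ge_atTop 100] with n a1 a2 a3 a4 a5 a6
  intro Y hYY hYn S t ht0 ht1
  have hY1' : Y1 ≤ Y := (le_max_left _ _).trans hYY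
  have hYT : 10 ^ 28 * T ≤ Y := (le_max_left _ _).trans ((le_max_right _ _).trans hYY)
  have hYe : 10 ^ 40 / e ≤ Y := (le_max_right _ _).trans ((le_max_right _ _).trans hYY)
  have hnr : (100:ℝ) ≤ n := by exact_mod_cast a6
  have hn0 : (0:ℝ) < n := by linarith
  have hT1 := hT.1
  have hYn1 : Y ≤ Real.log^[K + 1] (n:ℝ) := by
    refine hYn.trans ?_
    rw [Function.iterate_succ_apply' Real.log (K + 1)]
    have := Real.log_le_sub_one_of_pos a5
    linarith
  have hsmall : 10 ^ 28 * lam * Y ≤ n := by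
    have h1 : 10 ^ 28 * lam * Y ≤ 10 ^ 28 * lam * Real.log^[K + 1] (n:ℝ) :=
      mul_le_mul_of_nonneg_left hYn1 (by positivity)
    rw [Function.iterate_succ_apply'] at h1
    have h2 : 1 / 4 * Real.log^[K] (n:ℝ) ≤ 1 / 4 * n := (le_iter K _).trans a3
    linarith
  -- the common estimate
  have hest : ∀ j ≤ K, ∀ c ∈ Ann n Y (lam * Y), (∀ i < j, δ0 ≤ Real.cos (X n c (i + 1)).arg) →
      phi (X n c (j + 1)).arg < Real.pi / 2 - δ0 → c ∈ Ex n (j + 2) ∧
      |Metric.infDist c (Ex n (j + 2))ᶜ * ‖logDeriv (fun z => (f n z)^[j + 2] 0 / z - 1) c‖ -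
        (Real.pi / 2 - phi (X n c (j + 1)).arg)| ≤ 2 * e := by
    intro j hj c hc hcos hphi
    obtain ⟨hc1, hc2⟩ := hc
    have hloc : LocD n c j δ0 e T := by
      refine ⟨a6, he0, by linarith, hδ1, hT, hYT.trans hc1, hYe.trans hc1, ?_, ?_, hcos, hphi⟩
      · linarith
      · intro c' hc' i hi
        apply a2 c' _ i (by omega)
        have h1 : 10 ^ 28 * Pool.Agent.W747.MB.Y n c ≤ 10 ^ 28 * (lam * Y) :=
          mul_le_mul_of_nonneg_left hc2 (by norm_num)
        have h2 : 10 ^ 28 * lam * Y ≤ 10 ^ 28 * lam * Real.log^[K + 1 + 1] (n:ℝ) :=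
          mul_le_mul_of_nonneg_left hYn (by positivity)
        linarith
    rw [hloc.loc.logd]
    exact hloc.dist
  obtain ⟨r1, r2⟩ := a1 Y hY1' hYn1 ((1 - t) * (Real.pi / 2)) (by
    apply mul_nonneg (by linarith) (by linarith)) (by nlinarith) S (DistE n S t) (by
    intro j hj c hc _ hcos hphi hjS hαφ
    obtain ⟨h1, h2⟩ := hest j hj c hc hcos hphi
    refine ⟨j + 2, hjS, h1, ?_⟩
    rw [abs_le] at h2
    linarith [h2.2]) (by
    intro j hj c hc _ hcos hphi hor hmem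
    obtain ⟨h1, h2⟩ := hest j hj c hc hcos hphi
    obtain ⟨p, hpS, hp1, hp2⟩ := hmem
    have hp : p = j + 2 := by
      obtain ⟨z, hz, hz2⟩ := h1
      obtain ⟨z', hz', hz2'⟩ := hp1
      rw [← hz2', ← hz2]
      exact period_unique (by omega) hz hz'
    subst hp
    rcases hor with h | h
    · exact h hpS
    · rw [abs_le] at h2
      linarith [h2.1])
  refine ⟨r1, ?_⟩
  have e1 : 1 - 2 * ((1 - t) * (Real.pi / 2)) / Real.pi = t := by
    field_simp
    ring
  rw [← e1]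
  convert r2 using 4
  rw [e1]

end Pool.Agent.Q75.Lw
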