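import Mathlib
import Pool.Agent.Q75.LwM

set_option autoImplicit false

open MeasureTheory Set Filter Topology Metric

namespace Pool.Agent.Q75.Lw

open Pool.Agent.W747.MB Pool.Agent.TH363.CD Pool.Agent.Q79.PA Pool.Agent.Q79.PL

/-- upper tower -/
theorem tow_up (K : ℕ) {y : ℝ} (hy : 1 ≤ y) : 2 * E2^[K] y + 1 ≤ Real.exp^[K] (4 * y) := by
  induction K with
  | zero => simp; linarith
  | succ K ih =>
    rw [Function.iterate_succ_apply', Function.iterate_succ_apply']
    set E := E2^[K] y with hE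
    have h0 : y ≤ E := le_iter K y
    have h1 : Real.exp (2 * E + 1) ≤ Real.exp (Real.exp^[K] (4 * y)) := Real.exp_le_exp.2 ih
    refine le_trans ?_ h1
    rw [Real.exp_add]
    unfold E2
    have h2 := Real.exp_one_gt_d9
    have h3 := Real.add_one_le_exp (2 * E)
    nlinarith

theorem exp_iter_ge (K : ℕ) (t : ℝ) : t ≤ Real.exp^[K] t := by
  induction K with
  | zero => simp
  | succ K ih =>
    rw [Function.iterate_succ_apply']
    have := Real.add_one_le_exp (Real.exp^[K] t)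
    linarith

/-- lower tower -/
theorem tow_lo {δ C y : ℝ} (hδ : 0 < δ) (_hC : 0 ≤ C) (hC2 : 2 ≤ δ * Real.exp C)
    (hy : 2 * C ≤ δ * y) {x : ℕ → ℝ} (h0 : y ≤ x 1) (K : ℕ)
    (hx : ∀ i, 1 ≤ i → i ≤ K → Real.exp (δ * x i) ≤ x (i + 1)) :
    Real.exp^[K] (δ * y / 2) + C ≤ δ * x (K + 1) := by
  induction K with
  | zero =>
    simp only [Function.iterate_zero, id, zero_add]
    have := mul_le_mul_of_nonneg_left h0 hδ.le
    linarith
  | succ K ih =>
    have h1 := ih (fun i hi hi2 => hx i hi (by omega))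
    have h2 := hx (K + 1) (by omega) le_rfl
    rw [Function.iterate_succ_apply']
    set E := Real.exp^[K] (δ * y / 2) with hE
    have h3 : Real.exp (E + C) ≤ x (K + 1 + 1) := (Real.exp_le_exp.2 h1).trans h2
    rw [Real.exp_add] at h3
    have h4 := mul_le_mul_of_nonneg_left h3 hδ.le
    have h5 : C ≤ Real.exp E := by
      have := exp_iter_ge (K + 1) (δ * y / 2)
      rw [Function.iterate_succ_apply'] at this
      linarith
    have h6 := Real.exp_pos E
    nlinarith

theorem iterlog_bounds (K : ℕ) {w t t' : ℝ} (ht' : 0 < t') (h1 : Real.exp^[K] t' ≤ w)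
    (h2 : w ≤ Real.exp^[K] t) : t' ≤ Real.log^[K] w ∧ Real.log^[K] w ≤ t := by
  induction K generalizing w with
  | zero => exact ⟨h1, h2⟩
  | succ K ih =>
    rw [Function.iterate_succ_apply'] at h1 h2
    rw [Function.iterate_succ_apply]
    have hw : 0 < w := lt_of_lt_of_le (Real.exp_pos _) h1
    exact ih ((Real.le_log_iff_exp_le hw).2 h1) ((Real.log_le_iff_le_exp hw).2 h2)

/-- the size of the logarithm of the multiplier -/
theorem size_est {n : ℕ} (hn : 2 ≤ n) {c : ℂ} {δ : ℝ} (hδ : 0 < δ) (hδ1 : δ ≤ 1) (K : ℕ)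
    (hY1 : 1 ≤ Y n c)
    (hY : 2 * Real.log (2 / (δ / 4)) ≤ δ / 4 * Y n c)
    (ht : ∀ i ≤ K, ‖X n c i‖ ≤ n / 10)
    (hcos : ∀ i < K, δ ≤ Real.cos (X n c (i + 1)).arg) {w : ℝ}
    (hw1 : δ / 4 * ‖X n c (K + 1)‖ ≤ w) (hw2 : w ≤ 2 * ‖X n c (K + 1)‖) :
    |Real.log^[K + 1] w - Real.log (Y n c)| ≤ Real.log 4 + Real.log (2 / (δ / 4)) := by
  set C := Real.log (2 / (δ / 4)) with hC
  have h8 : 8 ≤ 2 / (δ / 4) := by
    rw [le_div_iff₀ (by positivity)]; linarith
  have hC0 : 0 ≤ C := Real.log_nonneg (by linarith)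
  have hC2 : 2 ≤ δ / 4 * Real.exp C := by
    rw [hC, Real.exp_log (by positivity)]
    field_simp
    norm_num
  have hlo := tow_lo (x := fun i => ‖X n c i‖) (by positivity : 0 < δ / 4) hC0 hC2 hY
    (le_of_eq (norm_X1 n c).symm) K (by
      intro i hi1 hi2
      have hg := grow hn hδ hδ1 (ht i hi2) (by
        obtain ⟨l, rfl⟩ : ∃ l, i = l + 1 := ⟨i - 1, by omega⟩
        exact hcos l (by omega))
      refine le_trans ?_ hg
      have h1 : Real.exp (δ / 4 * ‖X n c i‖) ≤ Real.exp (δ * ‖X n c i‖ / 2) := by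
        apply Real.exp_le_exp.2
        have := norm_nonneg (X n c i)
        nlinarith
      have h2 := Real.exp_pos (δ * ‖X n c i‖ / 2)
      nlinarith)
  have hup := tower_bound hn hY1 le_rfl K
  have htu := tow_up K hY1
  have ht0 : 0 < δ / 4 * Y n c / 2 := by
    have : 0 < Y n c := by linarith
    positivity
  obtain ⟨b1, b2⟩ := iterlog_bounds K ht0 (by linarith : Real.exp^[K] (δ / 4 * Y n c / 2) ≤ w)
    (by linarith : w ≤ Real.exp^[K] (4 * Y n c))
  rw [Function.iterate_succ_apply']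
  have hY0 : 0 < Y n c := by linarith
  have l1 := Real.log_le_log ht0 b1
  have l2 := Real.log_le_log (lt_of_lt_of_le ht0 b1) b2
  have e1 : Real.log (δ / 4 * Y n c / 2) = Real.log (Y n c) - C := by
    rw [hC, ← Real.log_div hY0.ne' (by positivity)]
    congr 1
    field_simp
  rw [e1] at l1
  rw [Real.log_mul (by norm_num) hY0.ne'] at l2
  have hl4 : 0 ≤ Real.log 4 := Real.log_nonneg (by norm_num)
  rw [abs_le]
  constructor <;> linarith

end Pool.Agent.Q75.Lw
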