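import Mathlib
import Pool.Agent.Q75.LwI

set_option autoImplicit false

open MeasureTheory Set Filter Topology Metric

namespace Pool.Agent.Q75.Lw

open Pool.Agent.W747.MB Pool.Agent.TH363.CD Pool.Agent.Q79.PA Pool.Agent.Q79.PL

/-- the data for the wide annuli -/
theorem daW (K : ℕ) {δ ε σ τ : ℝ} (h0 : 0 < δ) (h1 : δ ≤ 1 / 10) (hσ : 0 < σ) (hστ : σ < τ)
    (hτ : τ ≤ 1) (hε : 0 < ε) :
    ∃ m : ℝ, 1 / 2 - δ ≤ m ∧ m ≤ 1 ∧ ∀ᶠ n : ℕ in atTop,
      ∃ (C Cψ : ℝ) (η η' Γ ψ ψ' : ℝ → ℝ),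
        Da n (K + 1) (Real.exp (σ * Real.log^[K + 1] (n:ℝ)))
          (δ ^ 3 * Real.exp (τ * Real.log^[K + 1] (n:ℝ))) δ m C Cψ 1 η η' Γ ψ ψ' ∧
        (2 * Real.pi * (τ - σ) - ε) * Real.log^[K + 1] (n:ℝ) ≤ n * ∫ c, chi n ψ η 0 c ∧
        n * (((K:ℝ) + 1) * err2 n (K + 1) (Real.exp (σ * Real.log^[K + 1] (n:ℝ)))
          (δ ^ 3 * Real.exp (τ * Real.log^[K + 1] (n:ℝ))) C Cψ) ≤
          ε * Real.log^[K + 1] (n:ℝ) ∧
        ∀ c, Y n c ≤ δ ^ 3 * Real.exp (τ * Real.log^[K + 1] (n:ℝ)) →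
          ∀ i ≤ K + 1, ‖X n c i‖ ≤ δ ^ 3 * n := by
  have hπ := Real.pi_pos
  obtain ⟨m, C₀, η, η', Γ, hA₀, hm⟩ := exists_ang h0 (by linarith : δ ≤ 1 / 4)
  set C := max C₀ 7 with hCd
  have hA : Ang δ m C η η' Γ := ang_bump hA₀ (le_max_left _ _)
  have hC7 : 7 ≤ C := le_max_right _ _
  have hC0 : 0 ≤ C := by linarith
  obtain ⟨Cψ, hCψ, hcut⟩ := exists_cut2 one_pos
  refine ⟨m, hm, hA.m1, ?_⟩
  have hδ3 : 0 < δ ^ 3 := by positivity
  have hδ31 : δ ^ 3 ≤ δ := by
    have : δ ^ 2 ≤ 1 := by nlinarith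
    have e : δ ^ 3 = δ * δ ^ 2 := by ring
    rw [e]; nlinarith
  set R := ((K:ℝ) + 1) * (2 * C * (2 * Cψ + 2 * C * (K + 1) + 16)) * (4 * Real.pi) with hR
  have hR0 : 0 ≤ R := by positivity
  have hL := tendsto_iterlog (K + 1)
  have hexp : Tendsto (fun n : ℕ => Real.exp (-(2 * (Real.log n / ((n:ℝ) - 1))))) atTop
      (𝓝 (Real.exp (-(2 * 0)))) :=
    (Real.continuous_exp.tendsto _).comp ((log_n_tendsto.const_mul 2).neg)
  have hlim : Tendsto (fun n : ℕ => 2 * Real.pi * ((τ - σ) +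
      (3 * Real.log δ - 2) / Real.log^[K + 1] (n:ℝ)) *
      Real.exp (-(2 * (Real.log n / ((n:ℝ) - 1))))) atTop
      (𝓝 (2 * Real.pi * ((τ - σ) + 0) * Real.exp (-(2 * 0)))) :=
    ((((hL.const_div_atTop _).const_add _)).const_mul _).mul hexp
  have hev := hlim.eventually_const_lt (show 2 * Real.pi * (τ - σ) - ε <
    2 * Real.pi * ((τ - σ) + 0) * Real.exp (-(2 * 0)) by
      rw [mul_zero, neg_zero, Real.exp_zero]; linarith)
  have hLσ : Tendsto (fun n : ℕ => σ * Real.log^[K + 1] (n:ℝ)) atTop atTop :=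
    hL.const_mul_atTop hσ
  have hLστ : Tendsto (fun n : ℕ => (τ - σ) * Real.log^[K + 1] (n:ℝ)) atTop atTop :=
    hL.const_mul_atTop (by linarith)
  have hea := Real.tendsto_exp_atTop.comp hLσ
  filter_upwards [iter_bound' hδ3 (by linarith : δ ^ 3 ≤ 1 / 4) K, hev, eventually_ge_atTop 2,
    hea.eventually_ge_atTop (R / ε), hea.eventually_ge_atTop 20, hL.eventually_ge_atTop 1,
    hLστ.eventually_ge_atTop (2 - 3 * Real.log δ), (tendsto_iterlog K).eventually_ge_atTop 1,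
    (tendsto_iterlog K).eventually_ge_atTop (1 / δ ^ 3)] with n a1 a2 a3 a4 a5 a6 a7 a8 a9
  simp only [Function.comp] at a4 a5
  set L := Real.log^[K + 1] (n:ℝ) with hLd
  set s := Real.log^[K] (n:ℝ) with hs
  have hLs : L = Real.log s := by rw [hLd, hs, Function.iterate_succ_apply']
  have hs0 : 0 < s := by linarith
  have hexpL : Real.exp L = s := by rw [hLs, Real.exp_log hs0]
  have hnr : (2:ℝ) ≤ n := by exact_mod_cast a3
  have hn1 : (0:ℝ) < (n:ℝ) - 1 := by linarith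
  have hn0 : (0:ℝ) < n := by linarith
  set a := Real.exp (σ * L) with ha
  set b := δ ^ 3 * Real.exp (τ * L) with hb
  have ha0 : 0 < a := Real.exp_pos _
  have hb0 : 0 < b := by positivity
  have hbs : b ≤ δ ^ 3 * s := by
    rw [hb, ← hexpL]
    apply mul_le_mul_of_nonneg_left _ hδ3.le
    apply Real.exp_le_exp.2
    nlinarith
  have hs1 : 1 ≤ δ ^ 3 * s := by
    rw [div_le_iff₀ hδ3] at a9; linarith
  have hsn : δ ^ 3 * s ≤ δ ^ 3 * n := (le_iter K _).trans a1
  have hlevel : ∀ c, Y n c ≤ b → ∀ i ≤ K + 1, ‖X n c i‖ ≤ δ ^ 3 * n := by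
    intro c hc i hi
    rcases Nat.eq_zero_or_pos i with h | h
    · subst h
      simp only [X, norm_zero]
      positivity
    · obtain ⟨j, rfl⟩ : ∃ j, i = j + 1 := ⟨i - 1, by omega⟩
      exact (tower_bound a3 hs1 (hc.trans hbs) j).trans ((tower_mono (by omega)).trans a1)
  have hlog : Real.log b - Real.log a = 3 * Real.log δ + (τ - σ) * L := by
    rw [ha, hb, Real.log_mul hδ3.ne' (Real.exp_pos _).ne', Real.log_exp, Real.log_exp,
      Real.log_pow]
    push_cast; ring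
  have hab2 : Real.log a + 2 ≤ Real.log b := by linarith
  have hab : a * Real.exp 2 ≤ b := by
    have h := Real.exp_le_exp.2 hab2
    rwa [Real.exp_add, Real.exp_log ha0, Real.exp_log hb0] at h
  have he2 : 1 ≤ Real.exp 2 := Real.one_le_exp (by norm_num)
  have hab' : a ≤ b := by nlinarith
  have hbn : b ≤ n := by nlinarith
  have tow : Tow2 n (K + 1) a b := by
    refine ⟨a3, a5, hab', hbn, ?_⟩
    intro c hc i hi
    refine (hlevel c hc i hi).trans ?_
    nlinarith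
  obtain ⟨ψ, ψ', hψ⟩ := hcut (Real.log a) (Real.log b)
  have hd : Da n (K + 1) a b δ m C Cψ 1 η η' Γ ψ ψ' :=
    ⟨tow, h0, h1, hA, hC7, hψ, fun c hc i hi => (hlevel c hc i hi).trans (by nlinarith)⟩
  refine ⟨C, Cψ, η, η', Γ, ψ, ψ', hd, ?_, ?_, hlevel⟩
  · have he1 : 1 ≤ Real.exp 1 := Real.one_le_exp (by norm_num)
    have hee : Real.exp 2 = Real.exp 1 * Real.exp 1 := by rw [← Real.exp_add]; norm_num
    have g1 : a * Real.exp 1 ≤ b / Real.exp 1 := by
      rw [le_div_iff₀ (Real.exp_pos _), mul_assoc, ← hee]; exact hab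
    have g2 : b / Real.exp 1 ≤ n := (div_le_self hb0.le he1).trans hbn
    have g3 := (vol_Ann_bounds a3 (show 1 ≤ a * Real.exp 1 by nlinarith) g1 g2).2
    have hfin : volume (Ann n (a * Real.exp 1) (b / Real.exp 1)) ≠ ⊤ := Ann_ne_top a3 g2
    have g4 := ((ENNReal.ofReal_le_iff_le_toReal hfin).1 g3).trans (hd.I_zero zero_le_one)
    have g5 : Real.log (b / Real.exp 1 / (a * Real.exp 1)) = 3 * Real.log δ + (τ - σ) * L - 2 := by
      have : b / Real.exp 1 / (a * Real.exp 1) = b / a / Real.exp 2 := by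
        rw [hee]; field_simp
      rw [this, Real.log_div (by positivity) (Real.exp_pos _).ne', Real.log_exp,
        Real.log_div hb0.ne' ha0.ne', hlog]
    rw [g5] at g4
    have g6 := mul_le_mul_of_nonneg_left g4 hn0.le
    refine le_trans ?_ g6
    have g7 := mul_le_mul_of_nonneg_right a2.le (by linarith : (0:ℝ) ≤ L)
    refine g7.trans ?_
    have e1 : -(2 * Real.log n / ((n:ℝ) - 1)) = -(2 * (Real.log n / ((n:ℝ) - 1))) := by ring
    rw [e1]
    set E := Real.exp (-(2 * (Real.log n / ((n:ℝ) - 1)))) with hE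
    have hE0 : 0 < E := Real.exp_pos _
    have e2 : 2 * Real.pi * ((τ - σ) + (3 * Real.log δ - 2) / L) * E * L =
        1 * (2 * Real.pi * (3 * Real.log δ + (τ - σ) * L - 2) * E) := by
      have : L ≠ 0 := by linarith
      field_simp
      ring
    have e3 : n * (2 * Real.pi * (3 * Real.log δ + (τ - σ) * L - 2) / (n - 1) * E) =
        (n / (n - 1)) * (2 * Real.pi * (3 * Real.log δ + (τ - σ) * L - 2) * E) := by ring
    rw [e2, e3]
    apply mul_le_mul_of_nonneg_right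
    · rw [le_div_iff₀ hn1]; linarith
    · have : 0 ≤ 3 * Real.log δ + (τ - σ) * L - 2 := by linarith
      positivity
  · have hV1 : (volume (Ann n a b)).toReal ≤ 2 * Real.pi * L / (n - 1) := by
      have h2 := (vol_Ann_bounds a3 (by linarith : (1:ℝ) ≤ a) hab' hbn).1
      have h3 : Real.log (b / a) ≤ L := by
        rw [Real.log_div hb0.ne' ha0.ne', hlog]
        have : Real.log δ ≤ 0 := Real.log_nonpos h0.le (by linarith)
        nlinarith
      have h4 : 2 * Real.pi * Real.log (b / a) / (n - 1) ≤ 2 * Real.pi * L / (n - 1) := by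
        apply div_le_div_of_nonneg_right _ hn1.le
        exact mul_le_mul_of_nonneg_left h3 (by positivity)
      have h5 : 0 ≤ 2 * Real.pi * L / (n - 1) := by positivity
      exact ENNReal.toReal_le_of_le_ofReal h5 (h2.trans (ENNReal.ofReal_le_ofReal h4))
    have hV2 : n * (volume (Ann n a b)).toReal ≤ 4 * Real.pi * L := by
      have h2 := mul_le_mul_of_nonneg_left hV1 hn0.le
      refine h2.trans ?_
      have e1 : n * (2 * Real.pi * L / (n - 1)) = (n / (n - 1)) * (2 * Real.pi * L) := by ring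
      rw [e1]
      have h3 : (n:ℝ) / (n - 1) ≤ 2 := by rw [div_le_iff₀ hn1]; linarith
      have h4 : 0 ≤ 2 * Real.pi * L := by positivity
      nlinarith
    unfold err2
    push_cast
    have e1 : n * (((K:ℝ) + 1) * (2 * C * ((2 * Cψ + 2 * C * (K + 1) + 16) / a) *
        (volume (Ann n a b)).toReal)) =
      ((K:ℝ) + 1) * (2 * C * (2 * Cψ + 2 * C * (K + 1) + 16)) / a *
        (n * (volume (Ann n a b)).toReal) := by ring
    rw [e1]
    have hq : 0 ≤ ((K:ℝ) + 1) * (2 * C * (2 * Cψ + 2 * C * (K + 1) + 16)) / a := by positivity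
    refine (mul_le_mul_of_nonneg_left hV2 hq).trans ?_
    have e2 : ((K:ℝ) + 1) * (2 * C * (2 * Cψ + 2 * C * (K + 1) + 16)) / a * (4 * Real.pi * L) =
        R / a * L := by rw [hR]; ring
    rw [e2]
    apply mul_le_mul_of_nonneg_right _ (by linarith)
    rw [div_le_iff₀ ha0]
    rw [div_le_iff₀ hε] at a4
    linarith

end Pool.Agent.Q75.Lw
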