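import Mathlib
import Pool.Agent.Q75.LwJ

set_option autoImplicit false

open MeasureTheory Set Filter Topology Metric

namespace Pool.Agent.Q75.Lw

open Pool.Agent.W747.MB Pool.Agent.TH363.CD Pool.Agent.Q79.PA Pool.Agent.Q79.PL

/-- the good parameters -/
def Good (n K : ℕ) (y y' u v C : ℝ) (c : ℂ) : Prop :=
  ∃ z, N62a1eb23.IsAttractingCycle (f n c) (K + 2) z ∧
    Function.minimalPeriod (f n c) z = K + 2 ∧ 0 < ‖deriv (f n c)^[K + 2] z‖ ∧
    y ≤ Real.log (Y n c) ∧ Real.log (Y n c) ≤ y' ∧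
    0 < n * ‖(f n c)^[K + 2] 0 / c - 1‖ ∧
    Real.cos v * (n * ‖(f n c)^[K + 2] 0 / c - 1‖) < -Real.log ‖deriv (f n c)^[K + 2] z‖ ∧
    -Real.log ‖deriv (f n c)^[K + 2] z‖ < Real.cos u * (n * ‖(f n c)^[K + 2] 0 / c - 1‖) ∧
    |Real.log^[K + 1] (-Real.log ‖deriv (f n c)^[K + 2] z‖) - Real.log (Y n c)| ≤ C

theorem delta_choice (K : ℕ) {A u v ε : ℝ} (hA : 0 < A) (huv : u < v) (hε : 0 < ε) :
    ∃ δ : ℝ, 0 < δ ∧ δ ≤ 1 / 60 ∧ 4 * δ ≤ v - u ∧ δ ≤ A ∧
      A * (1 / 2) ^ K * ((v - u) / Real.pi) - ε <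
        (v - u - 4 * δ) / Real.pi * (1 / 2 - δ) ^ K * (A - δ) - δ := by
  have c1 : Tendsto (fun δ : ℝ => (v - u - 4 * δ) / Real.pi * (1 / 2 - δ) ^ K * (A - δ) - δ)
      (𝓝[>] 0) (𝓝 ((v - u - 4 * 0) / Real.pi * (1 / 2 - 0) ^ K * (A - 0) - 0)) := by
    apply Tendsto.mono_left _ nhdsWithin_le_nhds
    apply Continuous.tendsto (f := fun δ : ℝ =>
      (v - u - 4 * δ) / Real.pi * (1 / 2 - δ) ^ K * (A - δ) - δ)
    fun_prop
  have e1 : (v - u - 4 * 0) / Real.pi * (1 / 2 - 0) ^ K * (A - 0) - 0 =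
      A * (1 / 2) ^ K * ((v - u) / Real.pi) := by
    simp only [mul_zero, sub_zero]; ring
  rw [e1] at c1
  have h1 := c1.eventually_const_lt (show A * (1 / 2) ^ K * ((v - u) / Real.pi) - ε <
    A * (1 / 2) ^ K * ((v - u) / Real.pi) by linarith)
  have h2 : ∀ᶠ δ : ℝ in 𝓝[>] 0, δ < min (1 / 60) (min ((v - u) / 4) A) :=
    (eventually_lt_nhds (by
      apply lt_min (by norm_num)
      apply lt_min _ hA
      linarith)).filter_mono nhdsWithin_le_nhds
  obtain ⟨δ, ⟨a1, a2⟩, a3⟩ := ((h1.and h2).and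
    (self_mem_nhdsWithin : ∀ᶠ δ : ℝ in 𝓝[>] 0, δ ∈ Ioi (0:ℝ))).exists
  have b1 := a2.trans_le (min_le_left _ _)
  have b2 := (a2.trans_le (min_le_right _ _)).trans_le (min_le_left _ _)
  have b3 := (a2.trans_le (min_le_right _ _)).trans_le (min_le_right _ _)
  exact ⟨δ, a3, b1.le, by linarith, b3.le, a1⟩

/-- lower bound for the area of the good parameters -/
theorem rect (K : ℕ) {σ τ u v ε : ℝ} (hσ : 0 < σ) (hστ : σ < τ) (hτ : τ ≤ 1) (hu : 0 ≤ u)
    (huv : u < v) (hv : v ≤ Real.pi / 2) (hε : 0 < ε) :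
    ∃ C : ℝ, ∀ᶠ n : ℕ in atTop, ∃ M : Set ℂ, MeasurableSet M ∧
      (∀ c ∈ M, Good n K (σ * Real.log^[K + 1] (n:ℝ)) (τ * Real.log^[K + 1] (n:ℝ)) u v C c) ∧
      volume M ≠ ⊤ ∧
      (2 * Real.pi * (τ - σ) * (1 / 2) ^ K * ((v - u) / Real.pi) - ε) * Real.log^[K + 1] (n:ℝ) ≤
        n * (volume M).toReal := by
  have hπ := Real.pi_pos
  have hA : 0 < 2 * Real.pi * (τ - σ) := by
    have : 0 < τ - σ := by linarith
    positivity
  obtain ⟨δ, hδ, hδ60, hδuv, hδA, hF⟩ := delta_choice K hA huv hε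
  obtain ⟨m, hm, hm1, hda⟩ := daW K hδ (by linarith : δ ≤ 1 / 10) hσ hστ hτ hδ
  obtain ⟨T, hT⟩ := exists_big (show 0 < δ / 2 by positivity)
  have hlogx : ∀ᶠ x : ℝ in atTop, (K + 2) * (Real.log x + 1) ≤ δ ^ 3 * x := by
    have h2 : Tendsto (fun x : ℝ => (K + 2) * (Real.log x / x + 1 / x)) atTop
        (𝓝 ((K + 2) * (0 + 0))) := by
      apply Tendsto.const_mul
      apply Tendsto.add
      · have := Real.isLittleO_log_id_atTop.tendsto_div_nhds_zero
        simpa using this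
      · exact (tendsto_inv_atTop_zero (𝕜 := ℝ)).congr fun x => (one_div x).symm
    rw [add_zero, mul_zero] at h2
    filter_upwards [h2.eventually_lt_const (show 0 < δ ^ 3 by positivity),
      eventually_gt_atTop 0] with x h3 h4
    have e1 : (K + 2) * (Real.log x / x + 1 / x) = (K + 2) * (Real.log x + 1) / x := by
      field_simp
    rw [e1, div_lt_iff₀ h4] at h3
    linarith
  obtain ⟨x0, hx0⟩ := eventually_atTop.1 hlogx
  refine ⟨Real.log 4 + Real.log (2 / (δ / 4)), ?_⟩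
  have hL := tendsto_iterlog (K + 1)
  have hLσ : Tendsto (fun n : ℕ => σ * Real.log^[K + 1] (n:ℝ)) atTop atTop :=
    hL.const_mul_atTop hσ
  have hea := Real.tendsto_exp_atTop.comp hLσ
  have hδ3 : 0 < δ ^ 3 := by positivity
  have hδ2 : δ ^ 2 ≤ 1 / 3600 := by nlinarith
  have hδ34 : δ ^ 3 ≤ δ / 3600 := by
    have e : δ ^ 3 = δ * δ ^ 2 := by ring
    rw [e]; nlinarith
  filter_upwards [hda, hea.eventually_ge_atTop T, hea.eventually_ge_atTop x0,
    hea.eventually_ge_atTop 20, hL.eventually_ge_atTop 1,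
    hea.eventually_ge_atTop (2 * Real.log (2 / (δ / 4)) / (δ / 4))] with n a1 a2 a3 a4 a5 a6
  simp only [Function.comp] at a2 a3 a4 a6
  obtain ⟨C, Cψ, η, η', Γ, ψ, ψ', hd, d1, d2, d3⟩ := a1
  set L := Real.log^[K + 1] (n:ℝ) with hLd
  set a := Real.exp (σ * L) with ha
  set b := δ ^ 3 * Real.exp (τ * L) with hb
  have ha0 : 0 < a := Real.exp_pos _
  have hn := hd.tow.hn
  have hnr : (2:ℝ) ≤ n := by exact_mod_cast hn
  have hn0 : (0:ℝ) < n := by linarith
  have hκ : Adm δ (kap δ (u + δ) (v - δ)) := kap_adm hδ (by linarith)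
  have hmeas : Measurable fun c => kap δ (u + δ) (v - δ) (X n c (K + 1)).arg :=
    (kap_cont δ (u + δ) (v - δ)).measurable.comp
      (Complex.measurable_arg.comp (X_continuous n (K + 1)).measurable)
  have hgm : Measurable fun c => kap δ (u + δ) (v - δ) (X n c (K + 1)).arg * chi n ψ η K c :=
    hmeas.mul (chi_measurable hd.ψc hd.ηc K)
  have hgi : Integrable fun c => kap δ (u + δ) (v - δ) (X n c (K + 1)).arg * chi n ψ η K c := by
    apply chi_integrable2 hn hd.tow.ha hd.b20 hd.tow.hbn hd.cut hd.ηc hd.ang.n0 hd.ang.n1 K hmeas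
    intro c
    rw [abs_of_nonneg (kap_nonneg _ _ _ _)]
    exact kap_le _ _ _ _
  set M : Set ℂ := {c | kap δ (u + δ) (v - δ) (X n c (K + 1)).arg * chi n ψ η K c ≠ 0} with hM
  have hMm : MeasurableSet M := (measurableSet_eq_fun hgm measurable_const).compl
  have hMsub : M ⊆ Ann n a b := fun c hc => (hd.mem_of_ne (right_ne_zero_of_mul hc)).1
  have hMfin : volume M ≠ ⊤ :=
    ((measure_mono hMsub).trans_lt (Ann_ne_top hn hd.tow.hbn).lt_top).ne
  refine ⟨M, hMm, ?_, hMfin, ?_⟩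
  · intro c hc
    obtain ⟨⟨hcY1, hcY2⟩, hcos⟩ := hd.mem_of_ne (right_ne_zero_of_mul hc)
    obtain ⟨hφ1, hφ2⟩ := kap_supp hδ (left_ne_zero_of_mul hc)
    have hlev := d3 c hcY2
    have hlev' : ∀ i ≤ K + 1, ‖X n c i‖ ≤ n / 10 := fun i hi => by
      refine (hlev i hi).trans ?_
      nlinarith
    have hYT : T ≤ Y n c := a2.trans hcY1
    have hmono := level_mono hn (show 0 < δ / 2 by positivity) (by linarith) hT hYT K hlev'
      (fun i hi => by linarith [hcos i hi])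
    have hYX : Y n c ≤ ‖X n c (K + 1)‖ := by
      have := (hmono 0 (by omega)).2
      rwa [norm_X1] at this
    have hY20 : 20 ≤ Y n c := a4.trans hcY1
    have hx : 0 < ‖X n c (K + 1)‖ := by linarith
    have hφ : phi (X n c (K + 1)).arg < Real.pi / 2 - δ := by linarith
    have hneg := cos_arg_of_phi hδ.le hφ
    obtain ⟨z, hz1, hz2, hz3, hz4⟩ := mult_est hn (show 0 < δ / 2 by positivity) (by linarith)
      hδ3 (by linarith) hT hYT K K le_rfl (fun i hi => hlev i hi)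
      (fun i hi => by linarith [hcos i hi]) hneg (hx0 _ ((a3.trans hcY1).trans hYX))
    have e1 : (X n c (K + 1)).re = -(Real.cos (phi (X n c (K + 1)).arg) * ‖X n c (K + 1)‖) := by
      rw [cos_phi]
      have : (X n c (K + 1)).re = ‖X n c (K + 1)‖ * Real.cos (X n c (K + 1)).arg := by
        rw [Complex.norm_mul_cos_arg]
      rw [this]; ring
    rw [e1, abs_le] at hz4
    have hc0 : c ≠ 0 := Y_pos_ne hn hY20
    have ho := orbit0 hn hc0 K
    have hcphi : δ / 2 ≤ Real.cos (phi (X n c (K + 1)).arg) := by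
      rw [cos_phi]; linarith
    have hcphi1 : Real.cos (phi (X n c (K + 1)).arg) ≤ 1 := Real.cos_le_one _
    have hgap1 := cos_gap (phi_nonneg _) hδ.le (by linarith :
      phi (X n c (K + 1)).arg + δ ≤ v) hv
    have hgap2 := cos_gap hu hδ.le hφ1.le (by linarith)
    set x := ‖X n c (K + 1)‖ with hxd
    set φ := phi (X n c (K + 1)).arg with hφd
    have h6 : 6 * δ ^ 3 < δ ^ 2 / 5 := by
      have e : 6 * δ ^ 3 = δ ^ 2 * (6 * δ) := by ring
      rw [e]
      have : 0 < δ ^ 2 := by positivity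
      nlinarith
    refine ⟨z, hz1, hz2, hz3, ?_, ?_, ?_, ?_, ?_, ?_⟩
    · have := Real.log_le_log ha0 hcY1
      rwa [ha, Real.log_exp] at this
    · have h1 : Y n c ≤ Real.exp (τ * L) := by
        refine hcY2.trans ?_
        rw [hb]
        have := Real.exp_pos (τ * L)
        nlinarith
      have := Real.log_le_log (by linarith) h1
      rwa [Real.log_exp] at this
    · rw [ho]; exact hx
    · rw [ho]
      have h1 : Real.cos v * x < (Real.cos φ - 6 * δ ^ 3) * x :=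
        mul_lt_mul_of_pos_right (by linarith) hx
      linarith [hz4.2]
    · rw [ho]
      have h1 : (Real.cos φ + 6 * δ ^ 3) * x < Real.cos u * x :=
        mul_lt_mul_of_pos_right (by linarith) hx
      linarith [hz4.1]
    · apply size_est hn hδ (by linarith) K (by linarith) _ (fun i hi => hlev' i (by omega)) hcos
      · have h1 : δ / 4 * x ≤ (Real.cos φ - 6 * δ ^ 3) * x :=
          mul_le_mul_of_nonneg_right (by linarith) hx.le
        linarith [hz4.2]
      · have h1 : (Real.cos φ + 6 * δ ^ 3) * x ≤ 2 * x :=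
          mul_le_mul_of_nonneg_right (by linarith) hx.le
        linarith [hz4.1]
      · have h1 := a6.trans hcY1
        rw [div_le_iff₀ (by positivity)] at h1
        linarith
  · have hJ := hd.J_ge K (by omega) hκ
    have hvg := vol_ge hgm hgi (fun c => mul_nonneg (kap_nonneg _ _ _ _)
      (chi_nonneg hd.cut.n0 hd.ang.n0 K c)) (fun c => mul_le_one₀ (kap_le _ _ _ _)
      (chi_nonneg hd.cut.n0 hd.ang.n0 K c)
      (chi_le_one hd.cut.n0 hd.cut.n1 hd.ang.n0 hd.ang.n1 K c)) (S := M) (fun c hc => hc)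
    have hvg' := (ENNReal.ofReal_le_iff_le_toReal hMfin).1 hvg
    have h1 := mul_le_mul_of_nonneg_left (hJ.trans hvg') hn0.le
    refine le_trans ?_ h1
    have hmean := kap_mean (δ := δ) (u := u + δ) (v := v - δ) hδ (by linarith)
    rw [max_eq_left (by linarith : (0:ℝ) ≤ u + δ)] at hmean
    have e1 : v - δ - (u + δ) - 2 * δ = v - u - 4 * δ := by ring
    rw [e1] at hmean
    set κm := mean (kap δ (u + δ) (v - δ)) with hκm
    set I0 := ∫ c, chi n ψ η 0 c with hI0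
    set e := err2 n (K + 1) a b C Cψ with he
    have g1 : 0 ≤ (v - u - 4 * δ) / Real.pi := div_nonneg (by linarith) hπ.le
    have g2 : 0 ≤ (1 / 2 - δ) ^ K := pow_nonneg (by linarith) _
    have g3 : (1 / 2 - δ) ^ K ≤ m ^ K := pow_le_pow_left₀ (by linarith) hm K
    have g4 : 0 ≤ (2 * Real.pi * (τ - σ) - δ) * L := by
      have : 0 ≤ 2 * Real.pi * (τ - σ) - δ := by linarith
      have : 0 ≤ L := by linarith
      positivity
    have g5 : (v - u - 4 * δ) / Real.pi * (1 / 2 - δ) ^ K *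
        ((2 * Real.pi * (τ - σ) - δ) * L) ≤ κm * m ^ K * (n * I0) := by
      apply mul_le_mul _ d1 g4 _
      · exact mul_le_mul hmean g3 g2 (g1.trans hmean)
      · exact mul_nonneg (g1.trans hmean) (g2.trans g3)
    have g6 := mul_le_mul_of_nonneg_right hF.le (by linarith : (0:ℝ) ≤ L)
    have e2 : n * (κm * m ^ K * I0 - ((K:ℝ) + 1) * e) =
        κm * m ^ K * (n * I0) - n * (((K:ℝ) + 1) * e) := by ring
    rw [e2]
    have e3 : ((v - u - 4 * δ) / Real.pi * (1 / 2 - δ) ^ K * (2 * Real.pi * (τ - σ) - δ) - δ) * L =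
        (v - u - 4 * δ) / Real.pi * (1 / 2 - δ) ^ K * ((2 * Real.pi * (τ - σ) - δ) * L) -
          δ * L := by ring
    rw [e3] at g6
    linarith

end Pool.Agent.Q75.Lw
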