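import Mathlib
import Pool.Agent.Q79.PerAreaI
import Pool.Agent.Q75.LwK

set_option autoImplicit false

open MeasureTheory Set Filter Topology Metric

namespace Pool.Agent.Q75.Lw

open Pool.Agent.W747.MB Pool.Agent.TH363.CD Pool.Agent.Q79.PA Pool.Agent.Q79.PL

theorem Good.mono {n K : ℕ} {y y' u v C y1 y1' C1 : ℝ} {c : ℂ} (h : Good n K y y' u v C c)
    (h1 : y1 ≤ y) (h2 : y' ≤ y1') (h3 : C ≤ C1) : Good n K y1 y1' u v C1 c := by
  obtain ⟨z, a1, a2, a3, a4, a5, a6, a7, a8, a9⟩ := h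
  exact ⟨z, a1, a2, a3, h1.trans a4, a5.trans h2, a6, a7, a8, a9.trans h3⟩

theorem Good.mem {n K : ℕ} {y y' u v C : ℝ} {c : ℂ} (h : Good n K y y' u v C c) :
    c ∈ Ex n (K + 2) := by
  obtain ⟨z, a1, a2, -⟩ := h
  exact ⟨z, a1, a2⟩

/-- lower bound for the proportion of the good parameters -/
theorem rectF (K : ℕ) {σ τ u v ε : ℝ} (hσ : 0 ≤ σ) (hτ : τ ≤ 1) (hu : 0 ≤ u)
    (huv : u ≤ v) (hv : v ≤ Real.pi / 2) (hε : 0 < ε) :
    ∃ C : ℝ, ∀ᶠ n : ℕ in atTop, ∃ M : Set ℂ, MeasurableSet M ∧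
      (∀ c ∈ M, Good n K (σ * Real.log^[K + 1] (n:ℝ)) (τ * Real.log^[K + 1] (n:ℝ)) u v C c) ∧
      volume M ≠ ⊤ ∧
      (τ - σ) * (2 / Real.pi * (v - u)) - ε ≤
        (volume M).toReal / (volume (Ex n (K + 2))).toReal := by
  have hπ := Real.pi_pos
  have hw0 : 0 ≤ 2 / Real.pi * (v - u) := mul_nonneg (by positivity) (by linarith)
  have hw1 : 2 / Real.pi * (v - u) ≤ 1 := by
    have : 2 / Real.pi * (v - u) ≤ 2 / Real.pi * (Real.pi / 2) :=
      mul_le_mul_of_nonneg_left (by linarith) (by positivity)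
    refine this.trans (le_of_eq ?_)
    field_simp
  rcases le_or_gt τ (σ + ε / 4) with hcase | hcase
  · refine ⟨0, Eventually.of_forall fun n => ⟨∅, MeasurableSet.empty, fun c hc => hc.elim,
      by simp, ?_⟩⟩
    simp only [measure_empty, ENNReal.toReal_zero, zero_div]
    rcases le_or_gt (τ - σ) 0 with h | h
    · have := mul_nonpos_of_nonpos_of_nonneg h hw0
      linarith
    · have : (τ - σ) * (2 / Real.pi * (v - u)) ≤ (τ - σ) * 1 := mul_le_mul_of_nonneg_left hw1 h.le
      linarith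
  rcases huv.eq_or_lt with huv' | huv'
  · refine ⟨0, Eventually.of_forall fun n => ⟨∅, MeasurableSet.empty, fun c hc => hc.elim,
      by simp, ?_⟩⟩
    simp only [measure_empty, ENNReal.toReal_zero, zero_div]
    rw [huv', sub_self, mul_zero, mul_zero]
    linarith
  set G := 2 * Real.pi / 2 ^ (K + 1) with hG
  have hG0 : 0 < G := by positivity
  obtain ⟨C, hC⟩ := rect K (σ := σ + ε / 4) (τ := τ) (by linarith) hcase hτ hu huv' hv
    (show 0 < G * (ε / 4) by positivity)
  have hmain := (main K).2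
  rw [← hG] at hmain
  -- the quotient of the lower bound and the total tends to the right value
  set q := (τ - (σ + ε / 4)) * (2 / Real.pi * (v - u)) with hq
  have hq1 : 2 * Real.pi * (τ - (σ + ε / 4)) * (1 / 2) ^ K * ((v - u) / Real.pi) = G * q := by
    rw [hG, hq, one_div, inv_pow, pow_succ]
    field_simp
  have hlim : Tendsto (fun n : ℕ => (G * q - G * (ε / 4)) /
      (n * (volume (Ex n (K + 2))).toReal / Real.log^[K + 1] (n:ℝ))) atTop
      (𝓝 ((G * q - G * (ε / 4)) / G)) := tendsto_const_nhds.div hmain hG0.ne'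
  have hlv : (G * q - G * (ε / 4)) / G = q - ε / 4 := by field_simp
  rw [hlv] at hlim
  have hev := hlim.eventually_const_lt (show q - ε / 2 < q - ε / 4 by linarith)
  have hpos := hmain.eventually_const_lt hG0
  refine ⟨C, ?_⟩
  filter_upwards [hC, hev, hpos, (tendsto_iterlog (K + 1)).eventually_ge_atTop 1,
    eventually_ge_atTop 1] with n a1 a2 a3 a4 a5
  obtain ⟨M, m1, m2, m3, m4⟩ := a1
  set L := Real.log^[K + 1] (n:ℝ) with hL
  have hL0 : 0 < L := by linarith
  have hn0 : (0:ℝ) < n := by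
    have : 0 < n := by omega
    exact_mod_cast this
  refine ⟨M, m1, fun c hc => (m2 c hc).mono ?_ le_rfl le_rfl, m3, ?_⟩
  · apply mul_le_mul_of_nonneg_right _ hL0.le
    linarith
  · rw [hq1] at m4
    set V := (volume (Ex n (K + 2))).toReal with hV
    have hV0 : 0 < V := by
      have h1 : 0 < n * V := by
        have := mul_pos a3 hL0
        rwa [div_mul_cancel₀ _ hL0.ne'] at this
      exact pos_of_mul_pos_right h1 hn0.le
    have h1 : (G * q - G * (ε / 4)) / (n * V / L) ≤ (volume M).toReal / V := by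
      rw [div_le_div_iff₀ (by positivity) hV0]
      have h2 : (volume M).toReal * (n * V / L) = (n * (volume M).toReal) / L * V := by ring
      rw [h2]
      apply mul_le_mul_of_nonneg_right _ hV0.le
      rw [le_div_iff₀ hL0]
      exact m4
    have h3 : (τ - σ) * (2 / Real.pi * (v - u)) - ε ≤ q - ε / 2 := by
      have h4 : ε / 4 * (2 / Real.pi * (v - u)) ≤ ε / 4 * 1 :=
        mul_le_mul_of_nonneg_left hw1 (by linarith)
      have h5 : q = (τ - σ) * (2 / Real.pi * (v - u)) - ε / 4 * (2 / Real.pi * (v - u)) := by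
        rw [hq]; ring
      linarith
    linarith

theorem Ex_finite (K : ℕ) : ∀ᶠ n : ℕ in atTop, volume (Ex n (K + 2)) ≠ ⊤ ∧
    0 < (volume (Ex n (K + 2))).toReal := by
  have hG0 : 0 < 2 * Real.pi / 2 ^ (K + 1) := by positivity
  filter_upwards [(main K).2.eventually_const_lt hG0,
    (tendsto_iterlog (K + 1)).eventually_ge_atTop 1, eventually_ge_atTop 2] with n a3 a4 a5
  have hL0 : 0 < Real.log^[K + 1] (n:ℝ) := by linarith
  have hn0 : (0:ℝ) < n := by
    have : 0 < n := by omega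
    exact_mod_cast this
  refine ⟨((measure_mono (Ex_sub_NN a5 (K + 1))).trans_lt (NN_finite a5 (K + 1)).lt_top).ne, ?_⟩
  have h1 : 0 < n * (volume (Ex n (K + 2))).toReal := by
    have := mul_pos a3 hL0
    rwa [div_mul_cancel₀ _ hL0.ne'] at this
  exact pos_of_mul_pos_right h1 hn0.le

/-- lower bound of the proportion of `B` in `E` -/
theorem frac_ge {E M B : Set ℂ} (hE : volume E ≠ ⊤) (hM : M ⊆ B ∩ E) :
    (volume M).toReal / (volume E).toReal ≤
      (volume (B ∩ E)).toReal / (volume E).toReal := by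
  apply div_le_div_of_nonneg_right _ ENNReal.toReal_nonneg
  exact ENNReal.toReal_mono ((measure_mono inter_subset_right).trans_lt hE.lt_top).ne
    (measure_mono hM)

/-- upper bound of the proportion of `B` in `E` -/
theorem frac_le {E M1 M2 B : Set ℂ} (hE : volume E ≠ ⊤) (hE0 : 0 < (volume E).toReal)
    (h1 : MeasurableSet M1) (h2 : MeasurableSet M2) (h12 : Disjoint M1 M2)
    (hM1 : M1 ⊆ E) (hM2 : M2 ⊆ E) (hB1 : ∀ c ∈ M1, c ∉ B) (hB2 : ∀ c ∈ M2, c ∉ B) :
    (volume (B ∩ E)).toReal / (volume E).toReal ≤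
      1 - (volume M1).toReal / (volume E).toReal - (volume M2).toReal / (volume E).toReal := by
  have hf : ∀ S ⊆ E, volume S ≠ ⊤ := fun S hS => ((measure_mono hS).trans_lt hE.lt_top).ne
  have k1 : volume ((B ∩ E) ∪ (M1 ∪ M2)) = volume (B ∩ E) + volume (M1 ∪ M2) := by
    apply measure_union _ (h1.union h2)
    rw [Set.disjoint_left]
    rintro c ⟨hc, -⟩ (hc1 | hc2)
    · exact hB1 c hc1 hc
    · exact hB2 c hc2 hc
  have k2 : volume (M1 ∪ M2) = volume M1 + volume M2 := measure_union h12 h2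
  have k3 : volume (B ∩ E) + (volume M1 + volume M2) ≤ volume E := by
    rw [← k2, ← k1]
    apply measure_mono
    rintro c (⟨-, hc⟩ | hc | hc)
    · exact hc
    · exact hM1 hc
    · exact hM2 hc
  have k4 := ENNReal.toReal_mono hE k3
  rw [ENNReal.toReal_add (hf _ inter_subset_right) (ENNReal.add_ne_top.2 ⟨hf _ hM1, hf _ hM2⟩),
    ENNReal.toReal_add (hf _ hM1) (hf _ hM2)] at k4
  rw [le_sub_iff_add_le, le_sub_iff_add_le, ← add_div, ← add_div, div_le_one hE0]
  linarith

/-- squeezing -/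
theorem tendsto_of_bounds {F : ℕ → ℝ} {q : ℝ} (h1 : ∀ ε : ℝ, 0 < ε → ∀ᶠ n in atTop, q - ε ≤ F n)
    (h2 : ∀ ε : ℝ, 0 < ε → ∀ᶠ n in atTop, F n ≤ q + ε) : Tendsto F atTop (𝓝 q) := by
  rw [Metric.tendsto_nhds]
  intro ε hε
  filter_upwards [h1 (ε / 2) (by positivity), h2 (ε / 2) (by positivity)] with n a1 a2
  rw [Real.dist_eq, abs_lt]
  constructor <;> linarith

end Pool.Agent.Q75.Lw
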