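import Mathlib
import Pool.Agent.Q75.LwL

set_option autoImplicit false

open MeasureTheory Set Filter Topology Metric

namespace Pool.Agent.Q75.Lw

open Pool.Agent.W747.MB Pool.Agent.TH363.CD Pool.Agent.Q79.PA Pool.Agent.Q79.PL

/-- attracting cycle of exact period `p` and multiplier `μ` -/
def Cyc (n p : ℕ) (c μ : ℂ) : Prop :=
  ∃ z, N62a1eb23.IsAttractingCycle (f n c) p z ∧
    Function.minimalPeriod (f n c) z = p ∧ deriv (f n c)^[p] z = μ

/-- the proportion of the elements of `B` in the set of the parameters of exact period `p` -/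
noncomputable def Fr (n p : ℕ) (B : Set ℂ) : ℝ :=
  (volume (B ∩ Ex n p)).toReal / (volume (Ex n p)).toReal

theorem disj_of_level {n K : ℕ} {y1 y1' u1 v1 C1 y2 y2' u2 v2 C2 : ℝ} {M1 M2 : Set ℂ}
    (h1 : ∀ c ∈ M1, Good n K y1 y1' u1 v1 C1 c) (h2 : ∀ c ∈ M2, Good n K y2 y2' u2 v2 C2 c)
    (h : y1' < y2) : Disjoint M1 M2 := by
  rw [Set.disjoint_left]
  intro c hc1 hc2
  obtain ⟨-, -, -, -, -, a, -⟩ := h1 c hc1
  obtain ⟨-, -, -, -, b, -⟩ := h2 c hc2
  linarith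

/-- the joint law of the position and the multiplier -/
theorem law1 (K : ℕ) {s t : ℝ} (hs0 : 0 ≤ s) (hs1 : s ≤ 1) (ht0 : 0 ≤ t) (ht1 : t ≤ 1) :
    Tendsto (fun n : ℕ => Fr n (K + 2) {c | ∃ μ, Cyc n (K + 2) c μ ∧
      Real.log (Y n c) ≤ s * Real.log^[K + 1] (n:ℝ) ∧
      Real.exp (-(t * (n * ‖(f n c)^[K + 2] 0 / c - 1‖))) ≤ ‖μ‖}) atTop
      (𝓝 (s * (2 / Real.pi * Real.arcsin t))) := by
  have hπ := Real.pi_pos
  have hα0 : 0 ≤ Real.arccos t := Real.arccos_nonneg t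
  have hα1 : Real.arccos t ≤ Real.pi / 2 := Real.arccos_le_pi_div_two.2 ht0
  have hcα : Real.cos (Real.arccos t) = t := Real.cos_arccos (by linarith) ht1
  have has : Real.pi / 2 - Real.arccos t = Real.arcsin t := by
    rw [Real.arccos_eq_pi_div_two_sub_arcsin]; ring
  apply tendsto_of_bounds
  · intro ε hε
    obtain ⟨C, hC⟩ := rectF K (σ := 0) (τ := s) le_rfl hs1 hα0 hα1 le_rfl hε
    filter_upwards [hC, Ex_finite K] with n a1 a2
    obtain ⟨M, m1, m2, m3, m4⟩ := a1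
    rw [has, sub_zero] at m4
    refine m4.trans (frac_ge a2.1 ?_)
    intro c hc
    refine ⟨?_, (m2 c hc).mem⟩
    obtain ⟨z, b1, b2, b3, b4, b5, b6, b7, b8, b9⟩ := m2 c hc
    rw [hcα] at b8
    refine ⟨_, ⟨z, b1, b2, rfl⟩, b5, ?_⟩
    rw [← Real.le_log_iff_exp_le b3]
    linarith
  · intro ε hε
    obtain ⟨C1, hC1⟩ := rectF K (σ := s + ε / 3) (τ := 1) (by linarith) le_rfl le_rfl
      (by linarith : (0:ℝ) ≤ Real.pi / 2) le_rfl (show 0 < ε / 3 by linarith)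
    obtain ⟨C2, hC2⟩ := rectF K (σ := 0) (τ := s) le_rfl hs1 le_rfl hα0 hα1
      (show 0 < ε / 3 by linarith)
    filter_upwards [hC1, hC2, Ex_finite K, (tendsto_iterlog (K + 1)).eventually_ge_atTop 1,
      eventually_ge_atTop 2] with n a1 a2 a3 a4 a5
    obtain ⟨M1, m1, m2, m3, m4⟩ := a1
    obtain ⟨M2, l1, l2, l3, l4⟩ := a2
    have hpp : 2 / Real.pi * (Real.pi / 2 - 0) = 1 := by
      rw [sub_zero]; field_simp
    rw [hpp, mul_one] at m4
    have hsL : s * Real.log^[K + 1] (n:ℝ) < (s + ε / 3) * Real.log^[K + 1] (n:ℝ) := by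
      apply mul_lt_mul_of_pos_right _ (by linarith)
      linarith
    have hB := frac_le (B := {c | ∃ μ, Cyc n (K + 2) c μ ∧
      Real.log (Y n c) ≤ s * Real.log^[K + 1] (n:ℝ) ∧
      Real.exp (-(t * (n * ‖(f n c)^[K + 2] 0 / c - 1‖))) ≤ ‖μ‖}) a3.1 a3.2 l1 m1
      (disj_of_level l2 m2 hsL) (fun c hc => (l2 c hc).mem) (fun c hc => (m2 c hc).mem) (by
        intro c hc hcB
        obtain ⟨z, b1, b2, b3, b4, b5, b6, b7, b8, b9⟩ := l2 c hc
        obtain ⟨μ, ⟨z', e1, e2, rfl⟩, e4, e5⟩ := hcB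
        rw [← mult_unique a5 b1 e1, ← Real.le_log_iff_exp_le b3] at e5
        rw [hcα] at b7
        linarith) (by
        intro c hc hcB
        obtain ⟨z, b1, b2, b3, b4, b5, b6, b7, b8, b9⟩ := m2 c hc
        obtain ⟨μ, _, e4, _⟩ := hcB
        linarith)
    unfold Fr
    refine hB.trans ?_
    have e1 : s * (2 / Real.pi * Real.arcsin t) = s - s * (2 / Real.pi * Real.arccos t) := by
      rw [← has]
      field_simp
    have e2 : (s - 0) * (2 / Real.pi * (Real.arccos t - 0)) = s * (2 / Real.pi * Real.arccos t) := by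
      ring
    rw [e2] at l4
    rw [e1]
    linarith

/-- the multiplier is a function of the position up to bounded errors -/
theorem law2 (K : ℕ) {ε : ℝ} (hε : 0 < ε) : ∃ C : ℝ, ∀ᶠ n : ℕ in atTop,
    1 - ε ≤ Fr n (K + 2) {c | ∃ μ, Cyc n (K + 2) c μ ∧
      |Real.log^[K + 2] (1 / ‖μ‖) - Real.log (Y n c)| ≤ C} := by
  have hπ := Real.pi_pos
  obtain ⟨C, hC⟩ := rectF K (σ := 0) (τ := 1) le_rfl le_rfl le_rfl
      (by linarith : (0:ℝ) ≤ Real.pi / 2) le_rfl hε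
  refine ⟨C, ?_⟩
  filter_upwards [hC, Ex_finite K] with n a1 a2
  obtain ⟨M, m1, m2, m3, m4⟩ := a1
  have hpp : (1 - 0) * (2 / Real.pi * (Real.pi / 2 - 0)) = 1 := by
    rw [sub_zero, sub_zero]; field_simp
  rw [hpp] at m4
  refine m4.trans (frac_ge a2.1 ?_)
  intro c hc
  refine ⟨?_, (m2 c hc).mem⟩
  obtain ⟨z, b1, b2, b3, b4, b5, b6, b7, b8, b9⟩ := m2 c hc
  refine ⟨_, ⟨z, b1, b2, rfl⟩, ?_⟩
  rw [Function.iterate_succ_apply, one_div, Real.log_inv]
  exact b9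

/-- the law of the multiplier -/
theorem law3 (K : ℕ) {t : ℝ} (ht0 : 0 ≤ t) (ht1 : t ≤ 1) :
    Tendsto (fun n : ℕ => Fr n (K + 2) {c | ∃ μ, Cyc n (K + 2) c μ ∧
      Real.log^[K + 2] (1 / ‖μ‖) ≤ t * Real.log^[K + 1] (n:ℝ)}) atTop (𝓝 t) := by
  have hπ := Real.pi_pos
  have hpp : 2 / Real.pi * (Real.pi / 2 - 0) = 1 := by
    rw [sub_zero]; field_simp
  apply tendsto_of_bounds
  · intro ε hε
    obtain ⟨C, hC⟩ := rectF K (σ := 0) (τ := t - ε / 2) le_rfl (by linarith) le_rfl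
      (by linarith : (0:ℝ) ≤ Real.pi / 2) le_rfl (show 0 < ε / 2 by positivity)
    have hL := (tendsto_iterlog (K + 1)).const_mul_atTop (show 0 < ε / 2 by positivity)
    filter_upwards [hC, Ex_finite K, hL.eventually_ge_atTop C] with n a1 a2 a3
    obtain ⟨M, m1, m2, m3, m4⟩ := a1
    rw [hpp, mul_one, sub_zero] at m4
    have : t - ε ≤ t - ε / 2 - ε / 2 := by linarith
    refine this.trans (m4.trans (frac_ge a2.1 ?_))
    intro c hc
    refine ⟨?_, (m2 c hc).mem⟩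
    obtain ⟨z, b1, b2, b3, b4, b5, b6, b7, b8, b9⟩ := m2 c hc
    refine ⟨_, ⟨z, b1, b2, rfl⟩, ?_⟩
    rw [Function.iterate_succ_apply, one_div, Real.log_inv]
    rw [abs_le] at b9
    have e1 : (t - ε / 2) * Real.log^[K + 1] (n:ℝ) =
      t * Real.log^[K + 1] (n:ℝ) - ε / 2 * Real.log^[K + 1] (n:ℝ) := by ring
    rw [e1] at b5
    linarith [b9.2]
  · intro ε hε
    obtain ⟨C, hC⟩ := rectF K (σ := t + ε / 2) (τ := 1) (by linarith) le_rfl le_rfl
      (by linarith : (0:ℝ) ≤ Real.pi / 2) le_rfl (show 0 < ε / 2 by positivity)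
    have hL := (tendsto_iterlog (K + 1)).const_mul_atTop (show 0 < ε / 2 by positivity)
    filter_upwards [hC, Ex_finite K, hL.eventually_gt_atTop C, eventually_ge_atTop 2] with n a1 a2 a3 a5
    obtain ⟨M, m1, m2, m3, m4⟩ := a1
    rw [hpp, mul_one] at m4
    have hB := frac_le (B := {c | ∃ μ, Cyc n (K + 2) c μ ∧
      Real.log^[K + 2] (1 / ‖μ‖) ≤ t * Real.log^[K + 1] (n:ℝ)}) a2.1 a2.2 MeasurableSet.empty m1
      (by simp) (by simp) (fun c hc => (m2 c hc).mem) (by simp) (by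
        intro c hc hcB
        obtain ⟨z, b1, b2, b3, b4, b5, b6, b7, b8, b9⟩ := m2 c hc
        obtain ⟨μ, ⟨z', e1, e2, rfl⟩, e4⟩ := hcB
        rw [← mult_unique a5 b1 e1, Function.iterate_succ_apply, one_div, Real.log_inv] at e4
        rw [abs_le] at b9
        have e5 : (t + ε / 2) * Real.log^[K + 1] (n:ℝ) =
          t * Real.log^[K + 1] (n:ℝ) + ε / 2 * Real.log^[K + 1] (n:ℝ) := by ring
        rw [e5] at b4
        linarith [b9.1])
    unfold Fr
    refine hB.trans ?_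
    simp only [measure_empty, ENNReal.toReal_zero, zero_div, sub_zero]
    linarith

end Pool.Agent.Q75.Lw
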