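import Mathlib

/-! Independent events `E n` with probabilities `p n`: past and future, runs and exact gaps. -/

set_option autoImplicit false

namespace Pool.Agent.Q75.Sk

open MeasureTheory ProbabilityTheory Filter Topology Finset
open scoped ENNReal

variable {Ω : Type} [mΩ : MeasurableSpace Ω]

/-- independent events `E n` with probabilities `p n` -/
structure Mod (P : Measure Ω) (E : ℕ → Set Ω) (p : ℕ → ℝ) : Prop where
  meas : ∀ n, MeasurableSet (E n)
  prob : ∀ n, P.real (E n) = p n
  indep : iIndepSet E P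

/-- the σ-algebra generated by the events `E i`, `i ∈ S` -/
def sig (E : ℕ → Set Ω) (S : Set ℕ) : MeasurableSpace Ω :=
  ⨆ i ∈ S, MeasurableSpace.generateFrom {E i}

omit mΩ in
lemma sig_mem (E : ℕ → Set Ω) {S : Set ℕ} {i : ℕ} (hi : i ∈ S) : MeasurableSet[sig E S] (E i) := by
  have h1 : MeasurableSet[MeasurableSpace.generateFrom {E i}] (E i) :=
    MeasurableSpace.measurableSet_generateFrom (by simp)
  have h2 : MeasurableSpace.generateFrom {E i} ≤ sig E S :=
    le_iSup₂ (f := fun (i : ℕ) (_ : i ∈ S) => MeasurableSpace.generateFrom {E i}) i hi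
  exact h2 _ h1

omit mΩ in
lemma sig_mono (E : ℕ → Set Ω) {S T : Set ℕ} (h : S ⊆ T) : sig E S ≤ sig E T := by
  unfold sig
  exact biSup_mono (fun i hi => h hi)

variable {P : Measure Ω} {E : ℕ → Set Ω} {p : ℕ → ℝ}

lemma sig_le (hM : Mod P E p) (S : Set ℕ) : sig E S ≤ mΩ := by
  unfold sig
  refine iSup₂_le fun i _ => ?_
  refine MeasurableSpace.generateFrom_le ?_
  rintro t ht
  rw [Set.mem_singleton_iff] at ht
  rw [ht]
  exact hM.meas i

lemma sig_indep (hM : Mod P E p) {S T : Set ℕ} (hST : Disjoint S T) {A B : Set Ω}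
    (hA : MeasurableSet[sig E S] A) (hB : MeasurableSet[sig E T] B) :
    P.real (A ∩ B) = P.real A * P.real B := by
  have h1 : iIndep (fun i => MeasurableSpace.generateFrom {E i}) P := hM.indep
  have h2 : ∀ i, MeasurableSpace.generateFrom {E i} ≤ mΩ := by
    intro i
    refine MeasurableSpace.generateFrom_le ?_
    rintro t ht
    rw [Set.mem_singleton_iff] at ht
    rw [ht]
    exact hM.meas i
  have h3 := indep_iSup_of_disjoint h2 h1 hST
  have h4 := (Indep_iff _ _ P).mp h3 A B hA hB
  simp only [Measure.real, h4, ENNReal.toReal_mul]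

/-- no element in `[a, b)` -/
def empt (E : ℕ → Set Ω) (a b : ℕ) : Set Ω := ⋂ j ∈ Ico a b, (E j)ᶜ

omit mΩ in
lemma empt_meas (E : ℕ → Set Ω) {S : Set ℕ} {a b : ℕ} (h : ∀ j, a ≤ j → j < b → j ∈ S) :
    MeasurableSet[sig E S] (empt E a b) := by
  unfold empt
  refine MeasurableSet.biInter (Set.to_countable _) fun j hj => ?_
  rw [Finset.mem_coe, mem_Ico] at hj
  exact (sig_mem E (h j hj.1 hj.2)).compl

omit mΩ in
lemma empt_succ (E : ℕ → Set Ω) {a b : ℕ} (h : a ≤ b) : empt E a (b + 1) = empt E a b ∩ (E b)ᶜ := by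
  unfold empt
  ext ω
  simp only [Set.mem_iInter, mem_Ico, Set.mem_inter_iff]
  constructor
  · intro h1
    exact ⟨fun j hj => h1 j ⟨hj.1, by omega⟩, h1 b ⟨h, by omega⟩⟩
  · rintro ⟨h1, h2⟩ j hj
    rcases Nat.lt_succ_iff_lt_or_eq.mp hj.2 with h3 | h3
    · exact h1 j ⟨hj.1, h3⟩
    · rw [h3]; exact h2

omit mΩ in
lemma empt_self (E : ℕ → Set Ω) (a : ℕ) : empt E a a = Set.univ := by
  unfold empt; simp

lemma prob_empt [IsProbabilityMeasure P] (hM : Mod P E p) (a : ℕ) :
    ∀ b, a ≤ b → P.real (empt E a b) = ∏ j ∈ Ico a b, (1 - p j) := by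
  intro b hab
  induction b, hab using Nat.le_induction with
  | base => rw [empt_self]; simp
  | succ b hab ih =>
    rw [empt_succ E hab, Finset.prod_Ico_succ_top hab, ← ih]
    rw [sig_indep hM (S := {j | j < b}) (T := {j | j = b})]
    · congr 1
      rw [measureReal_compl (hM.meas b), hM.prob]
      simp
    · rw [Set.disjoint_left]
      intro x hx hx'
      simp only [Set.mem_ofPred_eq] at hx hx'
      omega
    · exact empt_meas E (fun j _ hj => hj)
    · exact (sig_mem E (by simp)).compl

/-- `q` is an element and none of its `g` predecessors is -/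
def run (E : ℕ → Set Ω) (g q : ℕ) : Set Ω := empt E (q - g) q ∩ E q

/-- `q` and `q - g` are elements and there are none between them -/
def exa (E : ℕ → Set Ω) (g q : ℕ) : Set Ω := E (q - g) ∩ (empt E (q - g + 1) q ∩ E q)

omit mΩ in
lemma run_meas (E : ℕ → Set Ω) {S : Set ℕ} {g q : ℕ} (h : ∀ j, q - g ≤ j → j ≤ q → j ∈ S) :
    MeasurableSet[sig E S] (run E g q) := by
  unfold run
  exact (empt_meas E (fun j h1 h2 => h j h1 h2.le)).inter (sig_mem E (h q (by omega) le_rfl))

omit mΩ in
lemma exa_meas (E : ℕ → Set Ω) {S : Set ℕ} {g q : ℕ} (h : ∀ j, q - g ≤ j → j ≤ q → j ∈ S) :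
    MeasurableSet[sig E S] (exa E g q) := by
  unfold exa
  refine (sig_mem E (h _ le_rfl (by omega))).inter ?_
  exact (empt_meas E (fun j h1 h2 => h j (by omega) h2.le)).inter (sig_mem E (h q (by omega) le_rfl))

/-- probability of `run` -/
noncomputable def pr (p : ℕ → ℝ) (g q : ℕ) : ℝ := p q * ∏ j ∈ Ico (q - g) q, (1 - p j)

/-- probability of `exa` -/
noncomputable def pe (p : ℕ → ℝ) (g q : ℕ) : ℝ :=
  p (q - g) * (p q * ∏ j ∈ Ico (q - g + 1) q, (1 - p j))

lemma prob_run [IsProbabilityMeasure P] (hM : Mod P E p) (g q : ℕ) :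
    P.real (run E g q) = pr p g q := by
  unfold run pr
  rw [sig_indep hM (S := {j | j < q}) (T := {j | j = q}), prob_empt hM _ _ (by omega), hM.prob,
    mul_comm]
  · rw [Set.disjoint_left]
    intro x hx hx'
    simp only [Set.mem_ofPred_eq] at hx hx'
    omega
  · exact empt_meas E (fun j _ hj => hj)
  · exact sig_mem E (by simp)

lemma prob_exa [IsProbabilityMeasure P] (hM : Mod P E p) {g q : ℕ} (hg : 1 ≤ g) (hq : g ≤ q) :
    P.real (exa E g q) = pe p g q := by
  unfold exa pe
  rw [sig_indep hM (S := {j | j = q - g}) (T := {j | q - g < j}), hM.prob,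
    sig_indep hM (S := {j | j < q}) (T := {j | j = q}), prob_empt hM _ _ (by omega), hM.prob]
  · ring
  · rw [Set.disjoint_left]
    intro x hx hx'
    simp only [Set.mem_ofPred_eq] at hx hx'
    omega
  · exact empt_meas E (fun j _ hj => hj)
  · exact sig_mem E (by simp)
  · rw [Set.disjoint_left]
    intro x hx hx'
    simp only [Set.mem_ofPred_eq] at hx hx'
    omega
  · exact sig_mem E (by simp)
  · refine (empt_meas E (fun j h1 _ => ?_)).inter (sig_mem E ?_)
    · simp only [Set.mem_ofPred_eq]; omega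
    · simp only [Set.mem_ofPred_eq]; omega

/-- no event of the family `W` in `[a, n)` -/
def non (W : ℕ → Set Ω) (a n : ℕ) : Set Ω := ⋂ m ∈ Ico a n, (W m)ᶜ

omit mΩ in
lemma non_succ (W : ℕ → Set Ω) {a b : ℕ} (h : a ≤ b) : non W a (b + 1) = non W a b ∩ (W b)ᶜ :=
  empt_succ W h

omit mΩ in
lemma non_self (W : ℕ → Set Ω) {a b : ℕ} (h : b ≤ a) : non W a b = Set.univ := by
  unfold non
  rw [Finset.Ico_eq_empty (by omega)]
  simp

omit mΩ in
lemma non_anti (W : ℕ → Set Ω) (a : ℕ) {b c : ℕ} (h : b ≤ c) : non W a c ⊆ non W a b := by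
  unfold non
  intro ω hω
  simp only [Set.mem_iInter, mem_Ico] at hω ⊢
  intro m hm
  exact hω m ⟨hm.1, by omega⟩

omit mΩ in
lemma non_meas {m : MeasurableSpace Ω} (W : ℕ → Set Ω) {a n : ℕ}
    (h : ∀ q, a ≤ q → q < n → MeasurableSet[m] (W q)) : MeasurableSet[m] (non W a n) := by
  unfold non
  refine MeasurableSet.biInter (Set.to_countable _) fun j hj => ?_
  rw [Finset.mem_coe, mem_Ico] at hj
  exact (h j hj.1 hj.2).compl

/-- A family of events `W q` in the window `[q - h q, q]`, `W q ⊆ E q`, which excludes the elements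
strictly between `q - h q` and `q`. -/
structure Fam (E : ℕ → Set Ω) (h : ℕ → ℕ) (W : ℕ → Set Ω) : Prop where
  sub : ∀ q, W q ⊆ E q
  exc : ∀ q j, q - h q < j → j < q → Disjoint (W q) (E j)
  loc : ∀ (q : ℕ) (S : Set ℕ), (∀ j, q - h q ≤ j → j ≤ q → j ∈ S) → MeasurableSet[sig E S] (W q)

omit mΩ in
lemma run_fam (E : ℕ → Set Ω) (h : ℕ → ℕ) : Fam E h (fun q => run E (h q) q) where
  sub q := fun ω hω => hω.2
  exc q j h1 h2 := by
    rw [Set.disjoint_left]
    intro ω hω hj
    have := hω.1
    unfold empt at this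
    simp only [Set.mem_iInter, mem_Ico] at this
    exact this j ⟨by omega, h2⟩ hj
  loc q S hS := run_meas E hS

omit mΩ in
lemma run_exc (E : ℕ → Set Ω) (h : ℕ → ℕ) (q j : ℕ) (h1 : q - h q ≤ j) (h2 : j < q) :
    Disjoint (run E (h q) q) (E j) := by
  rw [Set.disjoint_left]
  intro ω hω hj
  have := hω.1
  unfold empt at this
  simp only [Set.mem_iInter, mem_Ico] at this
  exact this j ⟨by omega, h2⟩ hj

omit mΩ in
lemma exa_fam (E : ℕ → Set Ω) (h : ℕ → ℕ) : Fam E h (fun q => exa E (h q) q) where
  sub q := fun ω hω => hω.2.2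
  exc q j h1 h2 := by
    rw [Set.disjoint_left]
    intro ω hω hj
    have := hω.2.1
    unfold empt at this
    simp only [Set.mem_iInter, mem_Ico] at this
    exact this j ⟨by omega, h2⟩ hj
  loc q S hS := exa_meas E hS

section rec

variable {h : ℕ → ℕ} {W : ℕ → Set Ω}

lemma fam_meas (hM : Mod P E p) (hW : Fam E h W) (q : ℕ) : MeasurableSet (W q) :=
  sig_le hM Set.univ _ (hW.loc q Set.univ (fun _ _ _ => Set.mem_univ _))

/-- past and the event `W n` are independent -/
lemma past_indep (hM : Mod P E p) (hW : Fam E h W) (a n : ℕ) :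
    P.real (non W a (n - h n) ∩ W n) = P.real (non W a (n - h n)) * P.real (W n) := by
  refine sig_indep hM (S := {j | j < n - h n}) (T := {j | n - h n ≤ j}) ?_ ?_ ?_
  · rw [Set.disjoint_left]
    intro x hx hx'
    simp only [Set.mem_ofPred_eq] at hx hx'
    omega
  · refine non_meas W fun q _ h2 => hW.loc q _ fun j _ h3 => ?_
    simp only [Set.mem_ofPred_eq]; omega
  · exact hW.loc n _ fun j h1 _ => h1

lemma non_step [IsProbabilityMeasure P] (hM : Mod P E p) (hW : Fam E h W) {a n : ℕ} (han : a ≤ n) :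
    P.real (non W a (n + 1)) = P.real (non W a n) - P.real (non W a n ∩ W n) := by
  have hm : MeasurableSet (W n) := fam_meas hM hW n
  rw [non_succ W han, ← Set.sdiff_eq]
  have := measureReal_inter_add_sdiff (μ := P) (s := non W a n) hm
  linarith

/-- upper bound when also `q - h q` is excluded -/
lemma decay_run [IsProbabilityMeasure P] (hM : Mod P E p) (h : ℕ → ℕ) (a : ℕ)
    (hh : ∀ n, a ≤ n → h n ≤ n) :
    ∀ b, a ≤ b → P.real (non (fun q => run E (h q) q) a b) ≤
      ∏ q ∈ Ico a b, (1 - pr p (h q) q) := by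
  intro b hab
  set W : ℕ → Set Ω := fun q => run E (h q) q with hWdef
  have hW : Fam E h W := run_fam E h
  induction b, hab using Nat.le_induction with
  | base => rw [non_self W le_rfl]; simp
  | succ b hab ih =>
    rw [non_step hM hW hab, Finset.prod_Ico_succ_top hab]
    have h1 : non W a b ∩ W b = non W a (b - h b) ∩ W b := by
      apply Set.Subset.antisymm
      · exact Set.inter_subset_inter_left _ (non_anti W a (by omega))
      · rintro ω ⟨h1, h2⟩
        refine ⟨?_, h2⟩
        unfold non at h1 ⊢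
        simp only [Set.mem_iInter, mem_Ico, Set.mem_compl_iff] at h1 ⊢
        intro m hm h3
        by_cases h4 : m < b - h b
        · exact h1 m ⟨hm.1, h4⟩ h3
        · exact Set.disjoint_left.mp (run_exc E h b m (by omega) hm.2) h2 (hW.sub m h3)
    rw [h1, past_indep hM hW a b, prob_run hM]
    have h2 : P.real (non W a b) ≤ P.real (non W a (b - h b)) :=
      measureReal_mono (non_anti W a (by omega))
    have h3 : 0 ≤ pr p (h b) b := by rw [← prob_run hM]; exact measureReal_nonneg
    have h4 : pr p (h b) b ≤ 1 := by rw [← prob_run hM]; exact measureReal_le_one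
    have h5 : 0 ≤ 1 - pr p (h b) b := by linarith
    nlinarith [mul_le_mul_of_nonneg_right ih h5, mul_le_mul_of_nonneg_right h2 h3]

/-- lower bound -/
lemma decay_lower [IsProbabilityMeasure P] (hM : Mod P E p) (hW : Fam E h W) {a b g : ℕ}
    (hh : ∀ n, a ≤ n → n < b → h n = g) (hg : g ≤ a) {s : ℝ} (hs0 : 0 ≤ s)
    (hs : ∀ n, a ≤ n → n < b → P.real (W n) ≤ s) (hab : a ≤ b) :
    (∏ q ∈ Ico a b, (1 - P.real (W q))) - g * s * ∑ q ∈ Ico a b, P.real (W q)
      ≤ P.real (non W a b) := by
  have key : ∀ n, a ≤ n → n ≤ b → (∏ q ∈ Ico a n, (1 - P.real (W q))) -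
      g * s * ∑ q ∈ Ico a n, P.real (W q) ≤ P.real (non W a n) := by
    intro n han
    induction n, han using Nat.le_induction with
    | base => intro _; rw [non_self W le_rfl]; simp
    | succ n han ih =>
      intro hnb
      have ih' := ih (by omega)
      rw [non_step hM hW han, Finset.prod_Ico_succ_top han, Finset.sum_Ico_succ_top han]
      have h0 : h n = g := hh n han (by omega)
      have h1 : P.real (non W a n ∩ W n) ≤ P.real (non W a (n - g)) * P.real (W n) := by
        rw [← h0, ← past_indep hM hW a n]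
        exact measureReal_mono (Set.inter_subset_inter_left _ (non_anti W a (by omega)))
      -- Q(n-g) ≤ Q(n) + g s
      have h2 : P.real (non W a (n - g)) ≤ P.real (non W a n) + g * s := by
        have h3 : non W a (n - g) ⊆ non W a n ∪ ⋃ m ∈ Ico (max a (n - g)) n, W m := by
          intro ω hω
          by_cases h4 : ω ∈ non W a n
          · exact Or.inl h4
          · right
            unfold non at hω h4
            simp only [Set.mem_iInter, mem_Ico, Set.mem_compl_iff, not_forall, not_not] at hω h4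
            obtain ⟨m, hm, h5⟩ := h4
            simp only [Set.mem_iUnion, mem_Ico]
            refine ⟨m, ⟨?_, hm.2⟩, h5⟩
            by_contra h6
            exact hω m ⟨hm.1, by omega⟩ h5
        have h4 : P.real (⋃ m ∈ Ico (max a (n - g)) n, W m) ≤ g * s := by
          refine (measureReal_biUnion_finset_le _ _).trans ?_
          refine (Finset.sum_le_card_nsmul _ _ s fun m hm => ?_).trans ?_
          · rw [mem_Ico] at hm
            exact hs m (by omega) (by omega)
          · rw [Nat.card_Ico, nsmul_eq_mul]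
            refine mul_le_mul_of_nonneg_right ?_ hs0
            exact_mod_cast (by omega : n - max a (n - g) ≤ g)
        calc P.real (non W a (n - g)) ≤ P.real (non W a n ∪ ⋃ m ∈ Ico (max a (n - g)) n, W m) :=
              measureReal_mono h3
          _ ≤ _ := (measureReal_union_le _ _).trans (by linarith)
      have h3 : 0 ≤ P.real (W n) := measureReal_nonneg
      have h4 : P.real (W n) ≤ 1 := measureReal_le_one
      have h5 : 0 ≤ ∑ q ∈ Ico a n, P.real (W q) := Finset.sum_nonneg fun _ _ => measureReal_nonneg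
      have h6 : 0 ≤ (g : ℝ) * s := by positivity
      have h7 := mul_le_mul_of_nonneg_right ih' (by linarith : (0 : ℝ) ≤ 1 - P.real (W n))
      have h8 := mul_le_mul_of_nonneg_right h2 h3
      nlinarith [mul_nonneg (mul_nonneg h6 h5) h3]
  exact key b hab le_rfl

/-- upper bound -/
lemma decay_upper [IsProbabilityMeasure P] (hM : Mod P E p) (hW : Fam E h W) {a b g : ℕ}
    (hh : ∀ n, a ≤ n → n < b → h n = g) (hg : g ≤ a) (hg1 : 1 ≤ g) {t : ℝ}
    (hr : ∀ n, a ≤ n → n < b → P.real (W (n - g) ∩ W n) ≤ t * P.real (W n))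
    (ht : 0 ≤ t) (hab : a ≤ b) :
    P.real (non W a b) ≤
      (∏ q ∈ Ico a b, (1 - P.real (W q))) + t * ∑ q ∈ Ico a b, P.real (W q) := by
  have key : ∀ n, a ≤ n → n ≤ b → P.real (non W a n) ≤
      (∏ q ∈ Ico a n, (1 - P.real (W q))) + t * ∑ q ∈ Ico a n, P.real (W q) := by
    intro n han
    induction n, han using Nat.le_induction with
    | base => intro _; rw [non_self W le_rfl]; simp
    | succ n han ih =>
      intro hnb
      have ih' := ih (by omega)
      rw [non_step hM hW han, Finset.prod_Ico_succ_top han, Finset.sum_Ico_succ_top han]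
      have h0 : h n = g := hh n han (by omega)
      have h1 : P.real (non W a (n - g) ∩ W n) ≤ P.real (non W a n ∩ W n) +
          P.real (W (n - g) ∩ W n) := by
        refine le_trans (measureReal_mono ?_) (measureReal_union_le _ _)
        rintro ω ⟨h1, h2⟩
        by_cases h3 : ω ∈ W (n - g)
        · exact Or.inr ⟨h3, h2⟩
        · left
          refine ⟨?_, h2⟩
          unfold non at h1 ⊢
          simp only [Set.mem_iInter, mem_Ico, Set.mem_compl_iff] at h1 ⊢
          intro m hm h4
          by_cases h5 : m < n - g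
          · exact h1 m ⟨hm.1, h5⟩ h4
          · by_cases h6 : m = n - g
            · rw [h6] at h4; exact h3 h4
            · exact Set.disjoint_left.mp (hW.exc n m (by omega) hm.2) h2 (hW.sub m h4)
      have h2 : P.real (non W a (n - g) ∩ W n) = P.real (non W a (n - g)) * P.real (W n) := by
        have := past_indep hM hW a n
        rwa [h0] at this
      have h3 : P.real (non W a n) ≤ P.real (non W a (n - g)) :=
        measureReal_mono (non_anti W a (by omega))
      have h4 : 0 ≤ P.real (W n) := measureReal_nonneg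
      have h5 : P.real (W n) ≤ 1 := measureReal_le_one
      have h6 := hr n han (by omega)
      have h7 := mul_le_mul_of_nonneg_right ih' (by linarith : (0 : ℝ) ≤ 1 - P.real (W n))
      have h8 := mul_le_mul_of_nonneg_right h3 h4
      have h9 : 0 ≤ ∑ q ∈ Ico a n, P.real (W q) := Finset.sum_nonneg fun _ _ => measureReal_nonneg
      nlinarith [mul_nonneg (mul_nonneg ht h9) h4]
  exact key b hab le_rfl

end rec

end Pool.Agent.Q75.Sk
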