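import Pool.Agent.Q75.SkA

/-! First moments for runs and exact gaps with `p n = 1 / log n`. -/

set_option autoImplicit false

namespace Pool.Agent.Q75.Sk

open Filter Topology Finset

/-- Cramér's probabilities -/
noncomputable def pc (n : ℕ) : ℝ := if n < 3 then 0 else 1 / Real.log n

lemma pc_eq {n : ℕ} (h : 3 ≤ n) : pc n = 1 / Real.log n := by
  unfold pc; rw [if_neg (by omega)]

lemma log3 : (1.09 : ℝ) < Real.log 3 := by
  have h1 : Real.exp 1.09 < 3 := by
    have h2 : Real.exp 1.09 = Real.exp 1 * Real.exp 0.09 := by rw [← Real.exp_add]; norm_num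
    have h3 := Real.exp_one_lt_d9
    have h4 : Real.exp (0.09 : ℝ) < 1.1 := by
      have h5 := Real.abs_exp_sub_one_le (x := 0.09) (by norm_num [abs_of_nonneg])
      have h6 := Real.exp_bound' (x := 0.09) (by norm_num) (by norm_num) (n := 3) (by norm_num)
      norm_num [Finset.sum_range_succ, Nat.factorial] at h6
      linarith
    rw [h2]
    have h7 : 0 < Real.exp (0.09 : ℝ) := Real.exp_pos _
    nlinarith
  rw [Real.lt_log_iff_exp_lt (by norm_num)]
  exact h1

lemma log_ge {n : ℕ} (h : 3 ≤ n) : (1.09 : ℝ) < Real.log n := by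
  have h1 : (3 : ℝ) ≤ n := by exact_mod_cast h
  exact lt_of_lt_of_le log3 (Real.log_le_log (by norm_num) h1)

lemma pc_nonneg (n : ℕ) : 0 ≤ pc n := by
  unfold pc
  split_ifs with h
  · exact le_rfl
  · have := log_ge (n := n) (by omega)
    positivity

lemma pc_lt (n : ℕ) : pc n < 1 := by
  unfold pc
  split_ifs with h
  · norm_num
  · have := log_ge (n := n) (by omega)
    rw [div_lt_one (by linarith)]
    linarith

lemma pr_nonneg (g q : ℕ) : 0 ≤ pr pc g q := by
  unfold pr
  exact mul_nonneg (pc_nonneg _) (Finset.prod_nonneg fun j _ => by linarith [pc_lt j])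

lemma pr_pos {g q : ℕ} (h : 3 ≤ q) : 0 < pr pc g q := by
  unfold pr
  refine mul_pos ?_ (Finset.prod_pos fun j _ => by linarith [pc_lt j])
  rw [pc_eq h]
  have := log_ge h
  positivity

/-- the ratio of consecutive values -/
lemma pr_succ {g q : ℕ} (h : g + 3 ≤ q) :
    pr pc g (q + 1) * (Real.log (q + 1 : ℕ) - Real.log (q + 1 : ℕ) / Real.log (q - g : ℕ)) =
      pr pc g q * (Real.log q - 1) := by
  have h1 : (1.09 : ℝ) < Real.log q := log_ge (by omega)
  have h2 : (1.09 : ℝ) < Real.log (q + 1 : ℕ) := log_ge (by omega)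
  have h3 : (1.09 : ℝ) < Real.log (q - g : ℕ) := log_ge (by omega)
  have e1 : ∏ j ∈ Ico (q - g) (q + 1), (1 - pc j) =
      (∏ j ∈ Ico (q - g) q, (1 - pc j)) * (1 - pc q) := Finset.prod_Ico_succ_top (by omega) _
  have e2 : ∏ j ∈ Ico (q - g) (q + 1), (1 - pc j) =
      (1 - pc (q - g)) * ∏ j ∈ Ico (q + 1 - g) (q + 1), (1 - pc j) := by
    rw [show q + 1 - g = (q - g) + 1 by omega]
    exact Finset.prod_eq_prod_Ico_succ_bot (by omega) _
  unfold pr
  rw [pc_eq (n := q + 1) (by omega), pc_eq (n := q) (by omega)]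
  rw [pc_eq (n := q) (by omega)] at e1
  rw [pc_eq (n := q - g) (by omega)] at e2
  set A := ∏ j ∈ Ico (q - g) q, (1 - pc j)
  set B := ∏ j ∈ Ico (q + 1 - g) (q + 1), (1 - pc j)
  set a := Real.log q
  set b := Real.log (q + 1 : ℕ)
  set c := Real.log (q - g : ℕ)
  have e3 : A * (1 - 1 / a) = (1 - 1 / c) * B := by rw [← e1, e2]
  have ha : a ≠ 0 := by linarith
  have hb : b ≠ 0 := by linarith
  have hc : c ≠ 0 := by linarith
  calc 1 / b * B * (b - b / c) = (1 - 1 / c) * B := by field_simp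
    _ = A * (1 - 1 / a) := e3.symm
    _ = 1 / a * A * (a - 1) := by field_simp

/-- `q` times the probability -/
noncomputable def T (g q : ℕ) : ℝ := q * pr pc g q

lemma log_succ_sub {q : ℕ} (h : 1 ≤ q) : Real.log (q + 1 : ℕ) - Real.log q ≤ 1 / q := by
  have h0 : (0 : ℝ) < q := by exact_mod_cast h
  have h1 : Real.log (q + 1 : ℕ) - Real.log q = Real.log ((q + 1 : ℕ) / q) := by
    rw [Real.log_div (by positivity) h0.ne']
  rw [h1]
  have h2 := Real.log_le_sub_one_of_pos (x := ((q + 1 : ℕ) : ℝ) / q) (by positivity)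
  have h3 : ((q + 1 : ℕ) : ℝ) / q - 1 = 1 / q := by push_cast; field_simp; ring
  linarith

lemma log_succ_ge {q : ℕ} (h : 1 ≤ q) : Real.log q ≤ Real.log (q + 1 : ℕ) := by
  apply Real.log_le_log
  · exact_mod_cast h
  · push_cast; linarith

/-- growth of `T` from below -/
lemma step_lo {g q : ℕ} (h : g + 3 ≤ q) (h4 : 4 ≤ Real.log q) :
    pr pc g q ≤ 2 * (T g (q + 1) - T g q) := by
  have h1 : (1.09 : ℝ) < Real.log q := log_ge (by omega)
  have h3 : (1.09 : ℝ) < Real.log (q - g : ℕ) := log_ge (by omega)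
  have e := pr_succ h
  have hF := pr_pos (g := g) (q := q) (by omega)
  have hF1 := pr_pos (g := g) (q := q + 1) (by omega)
  have l1 := log_succ_sub (q := q) (by omega)
  have l2 := log_succ_ge (q := q) (by omega)
  have hq : (0 : ℝ) < q := by exact_mod_cast (by omega : 0 < q)
  unfold T
  set F := pr pc g q
  set F1 := pr pc g (q + 1)
  set a := Real.log q
  set b := Real.log (q + 1 : ℕ)
  set c := Real.log (q - g : ℕ)
  have hca : c ≤ a := by
    apply Real.log_le_log
    · exact_mod_cast (by omega : 0 < q - g)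
    · exact_mod_cast (by omega : q - g ≤ q)
  -- F1 * b ≥ F * a
  have k1 : F * a ≤ F1 * b := by
    have k2 : b / c ≥ b / a := by
      apply div_le_div_of_nonneg_left <;> linarith
    have k3 : F * (a - 1) ≤ F1 * (b - b / a) := by
      rw [← e]
      exact mul_le_mul_of_nonneg_left (by linarith) hF1.le
    have k4 : F1 * (b - b / a) = F1 * b * (a - 1) / a := by
      field_simp
    rw [k4, le_div_iff₀ (by linarith)] at k3
    have k5 : 0 < a - 1 := by linarith
    by_contra hcon
    push Not at hcon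
    nlinarith
  have k6 : F * (1 - 1 / (q * b)) ≤ F1 := by
    have hb : 0 < b := by linarith
    have k7 : F * (b - 1 / q) ≤ F1 * b := by nlinarith
    have k8 : F * (1 - 1 / (q * b)) = F * (b - 1 / q) / b := by field_simp
    rw [k8, div_le_iff₀ hb]
    exact k7
  have k9 : (q + 1 : ℝ) * (1 - 1 / (q * b)) - q ≥ 1 / 2 := by
    have hb : 4 ≤ b := by linarith
    have hq1 : (1 : ℝ) ≤ q := by exact_mod_cast (by omega : 1 ≤ q)
    have k10 : (q + 1 : ℝ) * (1 / (q * b)) ≤ 1 / 2 := by
      rw [mul_one_div, div_le_iff₀ (by positivity)]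
      nlinarith
    nlinarith
  push_cast
  have k11 : (q + 1 : ℝ) * (F * (1 - 1 / (q * b))) ≤ (q + 1) * F1 :=
    mul_le_mul_of_nonneg_left k6 (by positivity)
  nlinarith

/-- growth of `T` from above -/
lemma step_hi {g q : ℕ} {s : ℝ} (hs : 4 ≤ s) (hgs : (g : ℝ) = s ^ 2) (h : 2 * g + 3 ≤ q)
    (h2 : s / 2 ≤ Real.log (q - g : ℕ)) :
    T g (q + 1) - T g q ≤ 17 * pr pc g q := by
  have h1 : (1.09 : ℝ) < Real.log q := log_ge (by omega)
  have h3 : (1.09 : ℝ) < Real.log (q - g : ℕ) := log_ge (by omega)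
  have e := pr_succ (g := g) (q := q) (by omega)
  have hF := pr_pos (g := g) (q := q) (by omega)
  have hF1 := pr_pos (g := g) (q := q + 1) (by omega)
  have l2 := log_succ_ge (q := q) (by omega)
  have hq : (0 : ℝ) < q := by exact_mod_cast (by omega : 0 < q)
  have hqg : (0 : ℝ) < (q - g : ℕ) := by exact_mod_cast (by omega : 0 < q - g)
  have hlq : Real.log q - Real.log (q - g : ℕ) ≤ g / (q - g : ℕ) := by
    rw [← Real.log_div hq.ne' hqg.ne']
    have h2 := Real.log_le_sub_one_of_pos (x := (q : ℝ) / (q - g : ℕ)) (by positivity)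
    have h3 : (q : ℝ) / (q - g : ℕ) - 1 = g / (q - g : ℕ) := by
      have : ((q - g : ℕ) : ℝ) = q - g := by rw [Nat.cast_sub (by omega)]
      rw [this] at hqg ⊢
      field_simp
      ring
    linarith
  unfold T
  set F := pr pc g q
  set F1 := pr pc g (q + 1)
  set a := Real.log q
  set b := Real.log (q + 1 : ℕ)
  set c := Real.log (q - g : ℕ)
  have hca : c ≤ a := by
    apply Real.log_le_log
    · exact hqg
    · exact_mod_cast (by omega : q - g ≤ q)
  have hc2 : 2 ≤ c := by linarith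
  -- F1 * a * (c-1) ≤ F * c * (a-1)
  have k1 : F1 * (a * (c - 1)) ≤ F * (c * (a - 1)) := by
    have k2 : F1 * (b - b / c) = F1 * b * (c - 1) / c := by field_simp
    rw [k2, div_eq_iff (by linarith)] at e
    have k3 : F1 * (a * (c - 1)) ≤ F1 * b * (c - 1) := by
      have : a * (c - 1) ≤ b * (c - 1) := mul_le_mul_of_nonneg_right l2 (by linarith)
      nlinarith
    nlinarith
  have hd : ((q - g : ℕ) : ℝ) = q - g := by rw [Nat.cast_sub (by omega)]
  have hq2 : (2 * g + 3 : ℝ) ≤ q := by exact_mod_cast h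
  have hg0 : (0 : ℝ) ≤ g := by positivity
  -- (q+1) F1 - q F ≤ F (1 + (q+1)(a-c)/(a (c-1)))
  have hac : 0 < a * (c - 1) := by nlinarith
  have k4 : (q + 1 : ℝ) * F1 - q * F ≤ F * (1 + (q + 1) * (a - c) / (a * (c - 1))) := by
    have k5 : F1 ≤ F * (c * (a - 1)) / (a * (c - 1)) := by rwa [le_div_iff₀ hac]
    have k6 : F * (c * (a - 1)) / (a * (c - 1)) = F * (1 + (a - c) / (a * (c - 1))) := by
      have hne : a * (c - 1) ≠ 0 := hac.ne'
      have ha : a ≠ 0 := by linarith
      have hc1 : c - 1 ≠ 0 := by linarith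
      field_simp
      ring
    rw [k6] at k5
    have k7 := mul_le_mul_of_nonneg_left k5 (by positivity : (0 : ℝ) ≤ q + 1)
    have k8 : (q + 1 : ℝ) * (F * (1 + (a - c) / (a * (c - 1)))) =
      F * (q + 1) + F * ((q + 1) * (a - c) / (a * (c - 1))) := by ring
    nlinarith
  have k9 : (q + 1) * (a - c) / (a * (c - 1)) ≤ 16 := by
    rw [div_le_iff₀ hac]
    have k10 : (q + 1) * (a - c) ≤ 2 * g := by
      have k11 : (q + 1 : ℝ) * (a - c) ≤ (q + 1) * (g / (q - g)) := by
        rw [hd] at hlq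
        exact mul_le_mul_of_nonneg_left hlq (by positivity)
      have hpos : (0 : ℝ) < q - g := by linarith
      have k12 : (q + 1 : ℝ) * (g / (q - g)) ≤ 2 * g := by
        rw [mul_div_assoc', div_le_iff₀ hpos]
        nlinarith
      linarith
    have k13 : c * c / 2 ≤ a * (c - 1) := by nlinarith
    have k14 : s ^ 2 / 4 ≤ c * c := by nlinarith
    nlinarith
  push_cast
  nlinarith [mul_le_mul_of_nonneg_left k9 hF.le]

/-- monotonicity -/
lemma pr_mono {g q : ℕ} (h : g + 3 ≤ q) (h2 : 2 * Real.log q ≤ g + 1) :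
    pr pc g q ≤ pr pc g (q + 1) := by
  have h1 : (1.09 : ℝ) < Real.log q := log_ge (by omega)
  have h3 : (1.09 : ℝ) < Real.log (q - g : ℕ) := log_ge (by omega)
  have e := pr_succ (g := g) (q := q) (by omega)
  have hF := pr_pos (g := g) (q := q) (by omega)
  have hF1 := pr_pos (g := g) (q := q + 1) (by omega)
  have l1 := log_succ_sub (q := q) (by omega)
  have l2 := log_succ_ge (q := q) (by omega)
  have hq : (0 : ℝ) < q := by exact_mod_cast (by omega : 0 < q)
  have hqg : (0 : ℝ) < (q - g : ℕ) := by exact_mod_cast (by omega : 0 < q - g)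
  have hl : (g + 1 : ℝ) / (q + 1 : ℕ) ≤ Real.log (q + 1 : ℕ) - Real.log (q - g : ℕ) := by
    have h4 : Real.log (q + 1 : ℕ) - Real.log (q - g : ℕ) =
        - Real.log ((q - g : ℕ) / (q + 1 : ℕ)) := by
      rw [Real.log_div hqg.ne' (by positivity)]; ring
    rw [h4]
    have h5 := Real.log_le_sub_one_of_pos (x := ((q - g : ℕ) : ℝ) / (q + 1 : ℕ)) (by positivity)
    have h6 : ((q - g : ℕ) : ℝ) / (q + 1 : ℕ) - 1 = - ((g + 1 : ℝ) / (q + 1 : ℕ)) := by
      have : ((q - g : ℕ) : ℝ) = q - g := by rw [Nat.cast_sub (by omega)]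
      rw [this]; push_cast
      field_simp
      ring
    linarith
  set F := pr pc g q
  set F1 := pr pc g (q + 1)
  set a := Real.log q
  set b := Real.log (q + 1 : ℕ)
  set c := Real.log (q - g : ℕ)
  have hca : c ≤ a := by
    apply Real.log_le_log
    · exact hqg
    · exact_mod_cast (by omega : q - g ≤ q)
  have hq1 : (1 : ℝ) ≤ q := by exact_mod_cast (by omega : 1 ≤ q)
  -- b - b / c ≤ a - 1
  have k1 : b - b / c ≤ a - 1 := by
    have k2 : (b - a) * c ≤ b - c := by
      have k3 : (b - a) * c ≤ 1 / q * c := mul_le_mul_of_nonneg_right l1 (by linarith)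
      have k4 : 1 / (q : ℝ) * c ≤ (g + 1 : ℝ) / (q + 1 : ℕ) := by
        push_cast
        rw [one_div_mul_eq_div, div_le_div_iff₀ hq (by positivity)]
        nlinarith
      linarith
    have k5 : b / c = 1 + (b - c) / c := by field_simp; ring
    rw [k5]
    have k6 : b - a ≤ (b - c) / c := by
      rw [le_div_iff₀ (by linarith)]
      exact k2
    linarith
  have k7 : F * (a - 1) ≤ F1 * (a - 1) := by
    rw [← e]
    exact mul_le_mul_of_nonneg_left k1 hF1.le
  exact le_of_mul_le_mul_right k7 (by linarith)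

lemma pr_mono_le {g a b : ℕ} (h : g + 3 ≤ a) (hab : a ≤ b) (h2 : 2 * Real.log b ≤ g + 1) :
    pr pc g a ≤ pr pc g b := by
  induction b, hab using Nat.le_induction with
  | base => exact le_rfl
  | succ b hab ih =>
    have h3 : Real.log b ≤ Real.log (b + 1 : ℕ) := log_succ_ge (by omega)
    exact (ih (by linarith)).trans (pr_mono (by omega) (by linarith))

/-- the trivial upper bound -/
lemma pr_le_exp {g q X : ℕ} (h : g + 3 ≤ q) (hX : q ≤ X) :
    pr pc g q ≤ pc q * Real.exp (-(g / Real.log X)) := by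
  unfold pr
  refine mul_le_mul_of_nonneg_left ?_ (pc_nonneg q)
  have h1 : ∀ j ∈ Ico (q - g) q, 1 - pc j ≤ Real.exp (-(1 / Real.log X)) := by
    intro j hj
    rw [mem_Ico] at hj
    rw [pc_eq (by omega)]
    have h2 := log_ge (n := j) (by omega)
    have h3 : Real.log j ≤ Real.log X := by
      apply Real.log_le_log
      · exact_mod_cast (by omega : 0 < j)
      · exact_mod_cast (by omega : j ≤ X)
    have h4 : 1 / Real.log X ≤ 1 / Real.log j := one_div_le_one_div_of_le (by linarith) h3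
    have h5 := Real.add_one_le_exp (-(1 / Real.log X))
    linarith
  calc ∏ j ∈ Ico (q - g) q, (1 - pc j) ≤ ∏ _j ∈ Ico (q - g) q, Real.exp (-(1 / Real.log X)) :=
        Finset.prod_le_prod (fun j _ => by linarith [pc_lt j]) h1
    _ = Real.exp (-(g / Real.log X)) := by
        rw [Finset.prod_const, Nat.card_Ico, ← Real.exp_nat_mul]
        congr 1
        rw [show q - (q - g) = g by omega]
        ring

/-- lower bound -/
lemma pr_ge_exp {g q : ℕ} (h : g + 3 ≤ q) (h2 : 2 ≤ Real.log (q - g : ℕ)) :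
    pc q * Real.exp (-(g * (1 / Real.log (q - g : ℕ) + 1 / Real.log (q - g : ℕ) ^ 2))) ≤
      pr pc g q := by
  unfold pr
  refine mul_le_mul_of_nonneg_left ?_ (pc_nonneg q)
  set t := 1 / Real.log (q - g : ℕ) with ht
  have ht0 : 0 ≤ t := by positivity
  have ht1 : t ≤ 1 / 2 := by
    rw [ht, div_le_div_iff₀ (by linarith) (by norm_num)]
    linarith
  have h1 : ∀ j ∈ Ico (q - g) q, Real.exp (-(t + t ^ 2)) ≤ 1 - pc j := by
    intro j hj
    rw [mem_Ico] at hj
    rw [pc_eq (by omega)]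
    have h2 := log_ge (n := q - g) (by omega)
    have h3 : Real.log (q - g : ℕ) ≤ Real.log j := by
      apply Real.log_le_log
      · exact_mod_cast (by omega : 0 < q - g)
      · exact_mod_cast (by omega : q - g ≤ j)
    have h4 : 1 / Real.log j ≤ t := one_div_le_one_div_of_le (by linarith) h3
    have h5 : Real.exp (-(t + t ^ 2)) ≤ 1 - t := by
      have h8 : 1 + (t + t ^ 2) + (t + t ^ 2) ^ 2 / 2 ≤ Real.exp (t + t ^ 2) :=
        Real.quadratic_le_exp_of_nonneg (by positivity)
      have h7 : 1 ≤ (1 - t) * (1 + (t + t ^ 2) + (t + t ^ 2) ^ 2 / 2) := by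
        have h9 : (1 - t) * (1 + (t + t ^ 2) + (t + t ^ 2) ^ 2 / 2) =
            1 + t ^ 2 / 2 * (1 - t - t ^ 2 - t ^ 3) := by ring
        have h10 : t ^ 2 ≤ 1 / 4 := by nlinarith
        have h11 : t ^ 3 ≤ 1 / 8 := by
          have : t ^ 3 = t ^ 2 * t := by ring
          rw [this]; nlinarith [sq_nonneg t]
        rw [h9]
        have h12 : 0 ≤ t ^ 2 / 2 * (1 - t - t ^ 2 - t ^ 3) :=
          mul_nonneg (by positivity) (by linarith)
        linarith
      rw [Real.exp_neg, inv_le_comm₀ (Real.exp_pos _) (by linarith), inv_eq_one_div,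
        div_le_iff₀ (by linarith)]
      have h13 := mul_le_mul_of_nonneg_left h8 (by linarith : (0 : ℝ) ≤ 1 - t)
      nlinarith
    linarith
  have e1 : Real.exp (-(g * (t + 1 / Real.log (q - g : ℕ) ^ 2))) =
      ∏ _j ∈ Ico (q - g) q, Real.exp (-(t + t ^ 2)) := by
    rw [Finset.prod_const, Nat.card_Ico, ← Real.exp_nat_mul]
    congr 1
    rw [show q - (q - g) = g by omega, ht]
    ring
  rw [e1]
  exact Finset.prod_le_prod (fun j _ => (Real.exp_pos _).le) h1

lemma pe_eq {g q : ℕ} (hg : 1 ≤ g) (h : g + 3 ≤ q) :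
    pe pc g q = pr pc g q / (Real.log (q - g : ℕ) - 1) := by
  have h3 : (1.09 : ℝ) < Real.log (q - g : ℕ) := log_ge (by omega)
  unfold pe pr
  rw [Finset.prod_eq_prod_Ico_succ_bot (show q - g < q by omega), pc_eq (n := q - g) (by omega)]
  have h4 : Real.log (q - g : ℕ) - 1 ≠ 0 := by linarith
  have h5 : Real.log (q - g : ℕ) ≠ 0 := by linarith
  field_simp

lemma pe_le {g q : ℕ} (hg : 1 ≤ g) (h : g + 3 ≤ q) : pe pc g q ≤ 12 * pr pc g q := by
  rw [pe_eq hg h]
  have h3 : (1.09 : ℝ) < Real.log (q - g : ℕ) := log_ge (by omega)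
  rw [div_le_iff₀ (by linarith)]
  nlinarith [pr_nonneg g q]

lemma pe_nonneg (g q : ℕ) : 0 ≤ pe pc g q := by
  unfold pe
  exact mul_nonneg (pc_nonneg _) (mul_nonneg (pc_nonneg _)
    (Finset.prod_nonneg fun j _ => by linarith [pc_lt j]))

/-- sum from above -/
lemma sum_le_T {g a X : ℕ} (h : g + 3 ≤ a) (h4 : 4 ≤ Real.log a) (haX : a ≤ X) :
    ∑ q ∈ Ico a X, pr pc g q ≤ 2 * T g X := by
  have h1 : ∀ q ∈ Ico a X, pr pc g q ≤ 2 * (T g (q + 1) - T g q) := by
    intro q hq
    rw [mem_Ico] at hq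
    refine step_lo (by omega) (h4.trans ?_)
    apply Real.log_le_log
    · exact_mod_cast (by omega : 0 < a)
    · exact_mod_cast hq.1
  calc ∑ q ∈ Ico a X, pr pc g q ≤ ∑ q ∈ Ico a X, 2 * (T g (q + 1) - T g q) := Finset.sum_le_sum h1
    _ = 2 * (T g X - T g a) := by
        rw [← Finset.mul_sum, Finset.sum_Ico_sub (fun q => T g q) haX]
    _ ≤ 2 * T g X := by
        have : 0 ≤ T g a := by unfold T; exact mul_nonneg (by positivity) (pr_nonneg _ _)
        linarith

/-- sum from below -/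
lemma T_le_sum {g Y X : ℕ} {s : ℝ} (hs : 4 ≤ s) (hgs : (g : ℝ) = s ^ 2) (h : 2 * g + 3 ≤ Y)
    (h2 : s / 2 ≤ Real.log (Y - g : ℕ)) (hYX : 2 * Y ≤ X) (h3 : 2 * Real.log X ≤ g + 1) :
    T g X ≤ 34 * ∑ q ∈ Ico Y X, pr pc g q := by
  have h1 : ∀ q ∈ Ico Y X, T g (q + 1) - T g q ≤ 17 * pr pc g q := by
    intro q hq
    rw [mem_Ico] at hq
    refine step_hi hs hgs (by omega) (h2.trans ?_)
    apply Real.log_le_log
    · exact_mod_cast (by omega : 0 < Y - g)
    · exact_mod_cast (by omega : Y - g ≤ q - g)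
  have h4 : T g X - T g Y ≤ 17 * ∑ q ∈ Ico Y X, pr pc g q := by
    rw [← Finset.sum_Ico_sub (fun q => T g q) (by omega : Y ≤ X), Finset.mul_sum]
    exact Finset.sum_le_sum h1
  have h5 : T g Y ≤ T g X / 2 := by
    unfold T
    have h6 := pr_mono_le (g := g) (a := Y) (b := X) (by omega) (by omega) h3
    have h7 : (2 * Y : ℝ) ≤ X := by exact_mod_cast hYX
    have h8 := pr_nonneg g Y
    have h9 : (0 : ℝ) ≤ Y := by positivity
    nlinarith
  linarith

end Pool.Agent.Q75.Sk
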