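import Pool.Agent.Q75.SkB

/-! The first moments at the scale `exp (√g + v)`. -/

set_option autoImplicit false

namespace Pool.Agent.Q75.Sk

open Filter Topology Finset

/-- the integer part of `exp (√g + v)` -/
noncomputable def Xf (g : ℕ) (v : ℝ) : ℕ := ⌊Real.exp (Real.sqrt g + v)⌋₊

/-- conditions on `g` -/
structure Big (g : ℕ) (s : ℝ) : Prop where
  sq : (g : ℝ) = s ^ 2
  s100 : 100 ≤ s
  l1 : 2 * (Real.log g + 2) ^ 2 ≤ s
  l2 : 100 * ((g : ℝ) + 3) ≤ Real.exp (s / 4)
  lpos : 0 ≤ Real.log g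

lemma big_ev : ∀ᶠ g : ℕ in atTop, Big g (Real.sqrt g) := by
  have hs : Tendsto (fun g : ℕ => Real.sqrt (g : ℝ)) atTop atTop :=
    Real.tendsto_sqrt_atTop.comp tendsto_natCast_atTop_atTop
  have h1 := hs.eventually_ge_atTop 100
  -- log
  have h2 : ∀ᶠ x : ℝ in atTop, 2 * (2 * Real.log x + 2) ^ 2 ≤ x := by
    have h3 : Tendsto (fun x : ℝ => (Real.log x) ^ 2 / x) atTop (𝓝 0) := by
      have := isLittleO_log_rpow_rpow_atTop 2 (by norm_num : (0 : ℝ) < 1)
      have h4 := this.tendsto_div_nhds_zero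
      refine h4.congr' ?_
      filter_upwards [eventually_ge_atTop 1] with x hx
      rw [Real.rpow_one]
      norm_cast
    have h4 := h3.eventually (gt_mem_nhds (show (0 : ℝ) < 1 / 32 by norm_num))
    have h5 := Real.tendsto_log_atTop.eventually_ge_atTop 1
    filter_upwards [h4, h5, eventually_gt_atTop 0] with x hx hl hx0
    rw [div_lt_iff₀ hx0] at hx
    nlinarith
  have h3 : ∀ᶠ x : ℝ in atTop, 100 * (x ^ 2 + 3) ≤ Real.exp (x / 4) := by
    have h4 : Tendsto (fun y : ℝ => Real.exp y / y ^ 3) atTop atTop :=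
      Real.tendsto_exp_div_pow_atTop 3
    have h5 : Tendsto (fun x : ℝ => x / 4) atTop atTop :=
      tendsto_id.atTop_div_const (by norm_num)
    have h6 := (h4.comp h5).eventually_ge_atTop 1
    filter_upwards [h6, eventually_ge_atTop 10000] with x hx hx1
    simp only [Function.comp] at hx
    rw [le_div_iff₀ (by positivity)] at hx
    refine le_trans ?_ hx
    nlinarith [mul_self_nonneg x]
  filter_upwards [h1, hs.eventually h2, hs.eventually h3, eventually_ge_atTop 1] with g a b c d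
  have hg : (0 : ℝ) ≤ (g : ℝ) := by positivity
  have hsq : (g : ℝ) = Real.sqrt g ^ 2 := (Real.sq_sqrt hg).symm
  have hlog : Real.log g = 2 * Real.log (Real.sqrt g) := by
    rw [Real.log_sqrt hg]; ring
  refine ⟨hsq, a, ?_, ?_, Real.log_nonneg (by exact_mod_cast d)⟩
  · rw [hlog]; exact b
  · rw [← hsq] at c; exact c

section

variable {g : ℕ} {s : ℝ}

lemma Big.lg (h : Big g s) : Real.log g + 2 ≤ s / 20 := by
  have h1 := h.l1
  have h2 := h.s100
  have h3 := h.lpos
  -- log g ≥ 8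
  have h4 : (8 : ℝ) ≤ Real.log g := by
    have h5 : (10000 : ℝ) ≤ g := by rw [h.sq]; nlinarith
    have h6 : Real.exp 8 ≤ 10000 := by
      have h7 : Real.exp 8 = Real.exp 1 ^ 8 := by rw [← Real.exp_nat_mul]; norm_num
      rw [h7]
      have h8 := Real.exp_one_lt_d9
      have h9 : Real.exp 1 ≤ 2.72 := by linarith
      calc Real.exp 1 ^ 8 ≤ 2.72 ^ 8 := pow_le_pow_left₀ (Real.exp_pos _).le h9 8
        _ ≤ 10000 := by norm_num
    rw [Real.le_log_iff_exp_le (by linarith)]
    linarith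
  nlinarith

lemma Big.v (h : Big g s) {v : ℝ} (hv : |v| ≤ Real.log g) : |v| ≤ s / 20 - 2 := by
  have := h.lg; linarith

lemma Xf_eq (h : Big g s) (v : ℝ) : Xf g v = ⌊Real.exp (s + v)⌋₊ := by
  have : Real.sqrt (g : ℝ) = s := by
    rw [h.sq]; exact Real.sqrt_sq (by linarith [h.s100])
  unfold Xf; rw [this]

lemma Xf_le (h : Big g s) (v : ℝ) : (Xf g v : ℝ) ≤ Real.exp (s + v) := by
  rw [Xf_eq h]; exact Nat.floor_le (Real.exp_pos _).le

lemma Xf_ge (h : Big g s) (v : ℝ) : Real.exp (s + v) - 1 ≤ (Xf g v : ℝ) := by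
  rw [Xf_eq h]
  have := Nat.lt_floor_add_one (Real.exp (s + v))
  linarith

lemma Xf_log_le (h : Big g s) {v : ℝ} (hX : 1 ≤ Xf g v) : Real.log (Xf g v) ≤ s + v := by
  rw [Real.log_le_iff_le_exp (by exact_mod_cast hX)]
  exact Xf_le h v

/-- `X` is large -/
lemma Xf_big (h : Big g s) {v : ℝ} (hv : -(s / 2) - 1 / 100 ≤ v) : 2 * g + 3 ≤ Xf g v ∧
    100 * ((g : ℝ) + 3) ≤ Real.exp (s + v) := by
  have h1 := h.l2
  have h2 : Real.exp (s / 4) ≤ Real.exp (s + v) := Real.exp_le_exp.mpr (by linarith [h.s100])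
  have h3 := Xf_ge h v
  have h4 : (0 : ℝ) ≤ g := by positivity
  constructor
  · have : (2 * g + 3 : ℝ) ≤ Xf g v := by linarith
    exact_mod_cast this
  · linarith

/-- `log (X - g) ≥ s + v - 1` -/
lemma Xf_sub (h : Big g s) {v : ℝ} (hv : -(s / 2) - 1 / 100 ≤ v) :
    s + v - 1 ≤ Real.log (Xf g v - g : ℕ) := by
  obtain ⟨h1, h2⟩ := Xf_big h hv
  have h3 : ((Xf g v - g : ℕ) : ℝ) = Xf g v - g := by rw [Nat.cast_sub (by omega)]
  rw [h3]
  have h4 := Xf_ge h v
  have h5 : (0 : ℝ) ≤ g := by positivity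
  rw [Real.le_log_iff_exp_le (by linarith)]
  have h6 : Real.exp (s + v - 1) ≤ Real.exp (s + v) / 2 := by
    have h7 : Real.exp (s + v) = Real.exp (s + v - 1) * Real.exp 1 := by
      rw [← Real.exp_add]; ring_nf
    have h8 := Real.exp_one_gt_d9
    have h9 := Real.exp_pos (s + v - 1)
    rw [h7]
    nlinarith
  linarith

/-- the trivial bound of the sum -/
lemma sum_triv (h : Big g s) {v : ℝ} (hv : -(s / 2) - 1 / 100 ≤ v) :
    (∀ q, g + 3 ≤ q → q ≤ Xf g v → pr pc g q ≤ Real.exp (v - s)) ∧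
    ∑ q ∈ Ico (g + 3) (Xf g v), pr pc g q ≤ Real.exp (2 * v) := by
  obtain ⟨h1, h2⟩ := Xf_big h hv
  have hs := h.s100
  have h3 : Real.log (Xf g v) ≤ s + v := Xf_log_le h (by omega)
  have h4 : 0 < Real.log (Xf g v) := by
    have := log_ge (n := Xf g v) (by omega)
    linarith
  have h5 : s - v ≤ g / Real.log (Xf g v) := by
    rw [le_div_iff₀ h4, h.sq]
    by_cases h6 : 0 ≤ s - v
    · nlinarith [mul_le_mul_of_nonneg_left h3 h6, sq_nonneg v]
    · nlinarith
  have h6 : ∀ q, g + 3 ≤ q → q ≤ Xf g v → pr pc g q ≤ Real.exp (v - s) := by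
    intro q hq hqX
    refine (pr_le_exp hq hqX).trans ?_
    have h7 : Real.exp (-(g / Real.log (Xf g v))) ≤ Real.exp (v - s) :=
      Real.exp_le_exp.mpr (by linarith)
    calc pc q * Real.exp (-(g / Real.log (Xf g v))) ≤ 1 * Real.exp (v - s) :=
          mul_le_mul (pc_lt q).le h7 (Real.exp_pos _).le zero_le_one
      _ = _ := one_mul _
  refine ⟨h6, ?_⟩
  calc ∑ q ∈ Ico (g + 3) (Xf g v), pr pc g q ≤ ∑ _q ∈ Ico (g + 3) (Xf g v), Real.exp (v - s) :=
        Finset.sum_le_sum fun q hq => by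
          rw [mem_Ico] at hq
          exact h6 q hq.1 hq.2.le
    _ = (Xf g v - (g + 3) : ℕ) * Real.exp (v - s) := by
        rw [Finset.sum_const, Nat.card_Ico, nsmul_eq_mul]
    _ ≤ Real.exp (s + v) * Real.exp (v - s) := by
        refine mul_le_mul_of_nonneg_right ?_ (Real.exp_pos _).le
        refine le_trans ?_ (Xf_le h v)
        exact_mod_cast Nat.sub_le _ _
    _ = Real.exp (2 * v) := by rw [← Real.exp_add]; ring_nf

lemma T_up (h : Big g s) {v : ℝ} (hv : -(s / 4) ≤ v) :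
    T g (Xf g v) ≤ 2 * Real.exp (2 * v) / s := by
  have hs := h.s100
  obtain ⟨h1, h2⟩ := Xf_big h (v := v) (by linarith)
  have h3 : Real.log (Xf g v) ≤ s + v := Xf_log_le h (by omega)
  have h4 : s + v - 1 ≤ Real.log (Xf g v) := by
    refine (Xf_sub h (v := v) (by linarith)).trans ?_
    apply Real.log_le_log
    · exact_mod_cast (by omega : 0 < Xf g v - g)
    · exact_mod_cast Nat.sub_le _ _
  have h5 : s / 2 ≤ Real.log (Xf g v) := by linarith
  have h6 : s - v ≤ g / Real.log (Xf g v) := by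
    rw [le_div_iff₀ (by linarith), h.sq]
    by_cases h6 : 0 ≤ s - v
    · nlinarith [mul_le_mul_of_nonneg_left h3 h6, sq_nonneg v]
    · nlinarith
  unfold T
  have h7 := pr_le_exp (g := g) (q := Xf g v) (X := Xf g v) (by omega) le_rfl
  rw [pc_eq (by omega)] at h7
  have h8 : Real.exp (-(g / Real.log (Xf g v))) ≤ Real.exp (v - s) :=
    Real.exp_le_exp.mpr (by linarith)
  have h9 : 1 / Real.log (Xf g v) ≤ 2 / s := by
    rw [div_le_div_iff₀ (by linarith) (by linarith)]
    linarith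
  calc (Xf g v : ℝ) * pr pc g (Xf g v) ≤ Real.exp (s + v) * (2 / s * Real.exp (v - s)) := by
        refine mul_le_mul (Xf_le h v) (h7.trans ?_) (pr_nonneg _ _) (Real.exp_pos _).le
        exact mul_le_mul h9 h8 (Real.exp_pos _).le (by positivity)
    _ = 2 * (Real.exp (s + v) * Real.exp (v - s)) / s := by ring
    _ = 2 * Real.exp (2 * v) / s := by
        rw [← Real.exp_add]; ring_nf

lemma T_lo (h : Big g s) {v : ℝ} (hv : |v| ≤ Real.log g) :
    Real.exp (-6) * Real.exp (2 * v) / (4 * s) ≤ T g (Xf g v) := by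
  have hs := h.s100
  have hv1 := h.v hv
  have hv2 := abs_le.mp hv1
  obtain ⟨h1, h2⟩ := Xf_big h (v := v) (by linarith)
  have h3 : Real.log (Xf g v) ≤ s + v := Xf_log_le h (by omega)
  have h4 := Xf_sub h (v := v) (by linarith)
  have h5 := pr_ge_exp (g := g) (q := Xf g v) (by omega) (by linarith)
  rw [pc_eq (by omega)] at h5
  set l := Real.log (Xf g v - g : ℕ) with hl
  have hlpos : 0 < l := by linarith
  have k1 : (g : ℝ) * (1 / l) ≤ s - v + 2 := by
    rw [mul_one_div, div_le_iff₀ hlpos, h.sq]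
    have k2 : (v - 1) * (v - 2) ≤ s := by
      have h11 := abs_le.mp hv
      have h10 := h.l1
      have h12 : (v - 1) * (v - 2) ≤ (Real.log g + 2) ^ 2 := by
        have h13 : (v - 1) * (v - 2) ≤ (|v| + 2) ^ 2 := by
          rcases abs_cases v with ⟨h14, _⟩ | ⟨h14, _⟩ <;> rw [h14] <;> nlinarith
        have h15 : (|v| + 2) ^ 2 ≤ (Real.log g + 2) ^ 2 := by
          have := abs_nonneg v
          nlinarith
        linarith
      nlinarith [sq_nonneg (Real.log g + 2)]
    have k3 : 0 < s - v + 2 := by linarith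
    have k4 : (s - v + 2) * (s + v - 1) ≤ (s - v + 2) * l := mul_le_mul_of_nonneg_left h4 k3.le
    nlinarith
  have k2 : (g : ℝ) * (1 / l ^ 2) ≤ 4 := by
    rw [mul_one_div, div_le_iff₀ (by positivity), h.sq]
    have : s / 2 ≤ l := by linarith
    nlinarith
  have k3 : Real.exp (-(s - v + 6)) ≤ Real.exp (-(g * (1 / l + 1 / l ^ 2))) := by
    apply Real.exp_le_exp.mpr
    linarith
  have k4 : 1 / (2 * s) ≤ 1 / Real.log (Xf g v) := by
    have := log_ge (n := Xf g v) (by omega)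
    exact one_div_le_one_div_of_le (by linarith) (by linarith)
  have k5 : Real.exp (s + v) / 2 ≤ (Xf g v : ℝ) := by
    have := Xf_ge h v
    have h4 : (0 : ℝ) ≤ g := by positivity
    linarith
  unfold T
  calc Real.exp (-6) * Real.exp (2 * v) / (4 * s) =
        Real.exp (s + v) / 2 * (1 / (2 * s) * Real.exp (-(s - v + 6))) := by
        have : Real.exp (-6) * Real.exp (2 * v) = Real.exp (s + v) * Real.exp (-(s - v + 6)) := by
          rw [← Real.exp_add, ← Real.exp_add]; ring_nf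
        rw [this]
        field_simp
        ring
    _ ≤ (Xf g v : ℝ) * pr pc g (Xf g v) := by
        refine mul_le_mul k5 (le_trans ?_ h5) (by positivity) (by positivity)
        exact mul_le_mul k4 k3 (Real.exp_pos _).le (by positivity)

/-- runs, from above -/
lemma run_up (h : Big g s) {v : ℝ} (hv : -(s / 4) ≤ v) :
    ∑ q ∈ Ico (g + 3) (Xf g v), pr pc g q ≤ 4 * Real.exp (2 * v) / s := by
  have hs := h.s100
  obtain ⟨h1, h2⟩ := Xf_big h (v := v) (by linarith)
  have h3 : 4 ≤ Real.log (g + 3 : ℕ) := by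
    have h5 : (10000 : ℝ) ≤ g := by rw [h.sq]; nlinarith
    have h6 : Real.exp 4 ≤ 10000 := by
      have h7 : Real.exp 4 = Real.exp 1 ^ 4 := by rw [← Real.exp_nat_mul]; norm_num
      rw [h7]
      have h8 := Real.exp_one_lt_d9
      have h9 : Real.exp 1 ≤ 2.72 := by linarith
      calc Real.exp 1 ^ 4 ≤ 2.72 ^ 4 := pow_le_pow_left₀ (Real.exp_pos _).le h9 4
        _ ≤ 10000 := by norm_num
    rw [Real.le_log_iff_exp_le (by positivity)]
    push_cast; linarith
  have h4 := sum_le_T (g := g) (a := g + 3) (X := Xf g v) le_rfl h3 (by omega)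
  have h5 := T_up h hv
  calc _ ≤ 2 * T g (Xf g v) := h4
    _ ≤ 2 * (2 * Real.exp (2 * v) / s) := by linarith
    _ = _ := by ring

/-- runs, from below -/
lemma run_lo (h : Big g s) {v : ℝ} (hv : |v| ≤ Real.log g) :
    Real.exp (-6) / 136 * Real.exp (2 * v) / s ≤
      ∑ q ∈ Ico (Xf g (v - 1)) (Xf g v), pr pc g q := by
  have hs := h.s100
  have hv1 := h.v hv
  have hv2 := abs_le.mp hv1
  obtain ⟨h1, h2⟩ := Xf_big h (v := v) (by linarith)
  obtain ⟨h1', h2'⟩ := Xf_big h (v := v - 1) (by linarith)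
  have h3 := Xf_sub h (v := v - 1) (by linarith)
  have h4 : 2 * Xf g (v - 1) ≤ Xf g v := by
    have h5 := Xf_le h (v - 1)
    have h6 := Xf_ge h v
    have h7 : Real.exp (s + v) = Real.exp (s + (v - 1)) * Real.exp 1 := by
      rw [← Real.exp_add]; ring_nf
    have h8 := Real.exp_one_gt_d9
    have h9 : (0 : ℝ) ≤ g := by positivity
    have : (2 * Xf g (v - 1) : ℝ) ≤ Xf g v := by nlinarith
    exact_mod_cast this
  have h5 : 2 * Real.log (Xf g v) ≤ g + 1 := by
    have := Xf_log_le h (v := v) (by omega)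
    rw [h.sq]; nlinarith
  have h6 := T_le_sum (g := g) (Y := Xf g (v - 1)) (X := Xf g v) (s := s) (by linarith) h.sq h1'
    (by linarith) h4 h5
  have h7 := T_lo h hv
  have h8 : Real.exp (-6) / 136 * Real.exp (2 * v) / s =
    (Real.exp (-6) * Real.exp (2 * v) / (4 * s)) / 34 := by field_simp; norm_num
  rw [h8]
  linarith

/-- exact gaps, from above -/
lemma exa_up (h : Big g s) {v : ℝ} (hv : |v| ≤ Real.log g) :
    ∑ q ∈ Ico (g + 3) (Xf g v), pe pc g q ≤ 17 * Real.exp (2 * v) / s ^ 2 := by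
  have hs := h.s100
  have hv1 := h.v hv
  have hv2 := abs_le.mp hv1
  have hg1 : 1 ≤ g := by
    have : (1 : ℝ) ≤ g := by rw [h.sq]; nlinarith
    exact_mod_cast this
  set Z := Xf g (-(s / 2)) with hZ
  obtain ⟨z1, z2⟩ := Xf_big h (v := -(s / 2)) (by linarith)
  obtain ⟨h1, h2⟩ := Xf_big h (v := v) (by linarith)
  have hZX : Z ≤ Xf g v := by
    rw [hZ, Xf_eq h, Xf_eq h]
    exact Nat.floor_mono (Real.exp_le_exp.mpr (by linarith))
  rw [← Finset.sum_Ico_consecutive _ (by omega : g + 3 ≤ Z) hZX]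
  -- the first part
  have a1 : ∑ q ∈ Ico (g + 3) Z, pe pc g q ≤ 12 * Real.exp (-s) := by
    calc ∑ q ∈ Ico (g + 3) Z, pe pc g q ≤ ∑ q ∈ Ico (g + 3) Z, 12 * pr pc g q :=
          Finset.sum_le_sum fun q hq => by
            rw [mem_Ico] at hq
            exact pe_le hg1 hq.1
      _ = 12 * ∑ q ∈ Ico (g + 3) Z, pr pc g q := by rw [Finset.mul_sum]
      _ ≤ 12 * Real.exp (2 * (-(s / 2))) := by
          have := (sum_triv h (v := -(s / 2)) (by linarith)).2
          linarith
      _ = _ := by ring_nf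
  have a2 : 12 * Real.exp (-s) ≤ Real.exp (2 * v) / s ^ 2 := by
    rw [le_div_iff₀ (by positivity), ← h.sq]
    have hlog := h.lg
    have hgpos : (0 : ℝ) < g := by exact_mod_cast hg1
    have b1 : (g : ℝ) = Real.exp (Real.log g) := (Real.exp_log hgpos).symm
    have b2 : (12 : ℝ) ≤ Real.exp 4 := by
      have h7 : Real.exp 4 = Real.exp 1 ^ 4 := by rw [← Real.exp_nat_mul]; norm_num
      rw [h7]
      have h8 := Real.exp_one_gt_d9
      have h9 : 2 ≤ Real.exp 1 := by linarith
      calc (12 : ℝ) ≤ 2 ^ 4 := by norm_num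
        _ ≤ _ := pow_le_pow_left₀ (by norm_num) h9 4
    calc 12 * Real.exp (-s) * g ≤ Real.exp 4 * Real.exp (-s) * Real.exp (Real.log g) := by
          rw [← b1]
          have := Real.exp_pos (-s)
          gcongr
      _ = Real.exp (4 - s + Real.log g) := by rw [← Real.exp_add, ← Real.exp_add]; ring_nf
      _ ≤ Real.exp (2 * v) := by
          apply Real.exp_le_exp.mpr
          linarith
  -- the second part
  have a3 : ∑ q ∈ Ico Z (Xf g v), pe pc g q ≤ 16 * Real.exp (2 * v) / s ^ 2 := by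
    have c1 : ∀ q ∈ Ico Z (Xf g v), pe pc g q ≤ 4 / s * pr pc g q := by
      intro q hq
      rw [mem_Ico] at hq
      rw [pe_eq hg1 (by omega)]
      have c2 := Xf_sub h (v := -(s / 2)) (by linarith)
      have c3 : Real.log (Z - g : ℕ) ≤ Real.log (q - g : ℕ) := by
        apply Real.log_le_log
        · exact_mod_cast (by omega : 0 < Z - g)
        · exact_mod_cast (by omega : Z - g ≤ q - g)
      rw [← hZ] at c2
      have c4 : s / 4 ≤ Real.log (q - g : ℕ) - 1 := by linarith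
      rw [div_mul_eq_mul_div, div_le_div_iff₀ (by linarith) (by linarith)]
      nlinarith [pr_nonneg g q]
    calc ∑ q ∈ Ico Z (Xf g v), pe pc g q ≤ ∑ q ∈ Ico Z (Xf g v), 4 / s * pr pc g q :=
          Finset.sum_le_sum c1
      _ = 4 / s * ∑ q ∈ Ico Z (Xf g v), pr pc g q := by rw [Finset.mul_sum]
      _ ≤ 4 / s * (4 * Real.exp (2 * v) / s) := by
          refine mul_le_mul_of_nonneg_left ?_ (by positivity)
          refine le_trans ?_ (run_up h (v := v) (by linarith))
          refine Finset.sum_le_sum_of_subset_of_nonneg ?_ fun q _ _ => pr_nonneg _ _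
          exact Finset.Ico_subset_Ico_left (by omega)
      _ = _ := by field_simp; norm_num
  calc _ ≤ 12 * Real.exp (-s) + 16 * Real.exp (2 * v) / s ^ 2 := add_le_add a1 a3
    _ ≤ Real.exp (2 * v) / s ^ 2 + 16 * Real.exp (2 * v) / s ^ 2 := by linarith
    _ = _ := by ring

/-- exact gaps, from below -/
lemma exa_lo (h : Big g s) {v : ℝ} (hv : |v| ≤ Real.log g) :
    Real.exp (-6) / 272 * Real.exp (2 * v) / s ^ 2 ≤
      ∑ q ∈ Ico (Xf g (v - 1)) (Xf g v), pe pc g q := by
  have hs := h.s100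
  have hv1 := h.v hv
  have hv2 := abs_le.mp hv1
  have hg1 : 1 ≤ g := by
    have : (1 : ℝ) ≤ g := by rw [h.sq]; nlinarith
    exact_mod_cast this
  obtain ⟨h1, h2⟩ := Xf_big h (v := v) (by linarith)
  obtain ⟨h1', h2'⟩ := Xf_big h (v := v - 1) (by linarith)
  have h3 := run_lo h hv
  have c1 : ∀ q ∈ Ico (Xf g (v - 1)) (Xf g v), 1 / (2 * s) * pr pc g q ≤ pe pc g q := by
    intro q hq
    rw [mem_Ico] at hq
    rw [pe_eq hg1 (by omega)]
    have c2 : Real.log (q - g : ℕ) ≤ Real.log (Xf g v) := by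
      apply Real.log_le_log
      · exact_mod_cast (by omega : 0 < q - g)
      · exact_mod_cast (by omega : q - g ≤ Xf g v)
    have c3 := Xf_log_le h (v := v) (by omega)
    have c4 := log_ge (n := q - g) (by omega)
    rw [one_div_mul_eq_div, div_le_div_iff₀ (by linarith) (by linarith)]
    nlinarith [pr_nonneg g q]
  calc Real.exp (-6) / 272 * Real.exp (2 * v) / s ^ 2 =
        1 / (2 * s) * (Real.exp (-6) / 136 * Real.exp (2 * v) / s) := by field_simp; norm_num
    _ ≤ 1 / (2 * s) * ∑ q ∈ Ico (Xf g (v - 1)) (Xf g v), pr pc g q :=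
        mul_le_mul_of_nonneg_left h3 (by positivity)
    _ = ∑ q ∈ Ico (Xf g (v - 1)) (Xf g v), 1 / (2 * s) * pr pc g q := by rw [Finset.mul_sum]
    _ ≤ _ := Finset.sum_le_sum c1

end

end Pool.Agent.Q75.Sk
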