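import Pool.Agent.Q75.SkC

/-! Probability bounds for the first occurrence. -/

set_option autoImplicit false

namespace Pool.Agent.Q75.Sk

open MeasureTheory ProbabilityTheory Filter Topology Finset
open scoped ENNReal

variable {Ω : Type} [mΩ : MeasurableSpace Ω] {P : Measure Ω} {E : ℕ → Set Ω}

/-- the common properties of runs and of exact gaps -/
structure Knd (P : Measure Ω) (E : ℕ → Set Ω) (κ : ℕ) (V : ℕ → ℕ → Set Ω) : Prop where
  fam : ∀ g, Fam E (fun _ => g) (V g)
  inter : ∀ g q, 1 ≤ g → 2 * g + 3 ≤ q → P.real (V g (q - g) ∩ V g q) ≤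
    P.real (V g (q - g)) * Real.log q * P.real (V g q)
  small : ∀ g s, Big g s → ∀ v, -(s / 2) - 1 / 100 ≤ v →
    (∀ q, g + 3 ≤ q → q ≤ Xf g v → P.real (V g q) ≤ 12 * Real.exp (v - s)) ∧
    ∑ q ∈ Ico (g + 3) (Xf g v), P.real (V g q) ≤ 12 * Real.exp (2 * v)
  up : ∀ g s, Big g s → ∀ v, |v| ≤ Real.log g →
    ∑ q ∈ Ico (g + 3) (Xf g v), P.real (V g q) ≤ 17 * Real.exp (2 * v) / s ^ κ
  lo : ∀ g s, Big g s → ∀ v, |v| ≤ Real.log g →
    Real.exp (-6) / 272 * Real.exp (2 * v) / s ^ κ ≤
      ∑ q ∈ Ico (Xf g (v - 1)) (Xf g v), P.real (V g q)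

lemma Big.g1 {g : ℕ} {s : ℝ} (h : Big g s) : 1 ≤ g := by
  have : (1 : ℝ) ≤ g := by rw [h.sq]; nlinarith [h.s100]
  exact_mod_cast this

lemma knd_run [IsProbabilityMeasure P] (hM : Mod P E pc) : Knd P E 1 (run E) where
  fam g := run_fam E fun _ => g
  inter g q hg hq := by
    have h1 : run E g (q - g) ∩ run E g q = ∅ := by
      rw [← Set.disjoint_iff_inter_eq_empty, Set.disjoint_left]
      intro ω h1 h2
      exact Set.disjoint_left.mp (run_exc E (fun _ => g) q (q - g) le_rfl (by omega)) h2 h1.2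
    rw [h1, measureReal_empty]
    have := log_ge (n := q) (by omega)
    positivity
  small g s hB v hv := by
    obtain ⟨h1, h2⟩ := sum_triv hB hv
    simp only [prob_run hM]
    refine ⟨fun q hq hqX => (h1 q hq hqX).trans ?_, h2.trans ?_⟩
    · linarith [Real.exp_pos (v - s)]
    · linarith [Real.exp_pos (2 * v)]
  up g s hB v hv := by
    simp only [prob_run hM, pow_one]
    have hs := hB.s100
    have hv2 := abs_le.mp (hB.v hv)
    refine (run_up hB (v := v) (by linarith)).trans ?_
    gcongr
    norm_num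
  lo g s hB v hv := by
    simp only [prob_run hM, pow_one]
    have hs := hB.s100
    refine le_trans ?_ (run_lo hB hv)
    gcongr
    norm_num

lemma knd_exa [IsProbabilityMeasure P] (hM : Mod P E pc) : Knd P E 2 (exa E) where
  fam g := exa_fam E fun _ => g
  inter g q hg hq := by
    -- exa E g (q - g) ∩ exa E g q ⊆ exa E g (q-g) ∩ (empt ∩ E q)
    have h1 : exa E g (q - g) ∩ exa E g q ⊆ exa E g (q - g) ∩ (empt E (q - g + 1) q ∩ E q) :=
      Set.inter_subset_inter_right _ fun ω h => h.2
    have h2 : P.real (exa E g (q - g) ∩ (empt E (q - g + 1) q ∩ E q)) =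
        P.real (exa E g (q - g)) * P.real (empt E (q - g + 1) q ∩ E q) := by
      refine sig_indep hM (S := {j | j ≤ q - g}) (T := {j | q - g < j}) ?_ ?_ ?_
      · rw [Set.disjoint_left]
        intro x hx hx'
        simp only [Set.mem_ofPred_eq] at hx hx'
        omega
      · exact exa_meas E fun j _ h => h
      · refine (empt_meas E (fun j h1 _ => ?_)).inter (sig_mem E ?_)
        · simp only [Set.mem_ofPred_eq]; omega
        · simp only [Set.mem_ofPred_eq]; omega
    have h3 : P.real (exa E g q) = pc (q - g) * P.real (empt E (q - g + 1) q ∩ E q) := by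
      unfold exa
      rw [sig_indep hM (S := {j | j = q - g}) (T := {j | q - g < j}), hM.prob]
      · rw [Set.disjoint_left]
        intro x hx hx'
        simp only [Set.mem_ofPred_eq] at hx hx'
        omega
      · exact sig_mem E (by simp)
      · refine (empt_meas E (fun j h1 _ => ?_)).inter (sig_mem E ?_)
        · simp only [Set.mem_ofPred_eq]; omega
        · simp only [Set.mem_ofPred_eq]; omega
    have h4 : P.real (empt E (q - g + 1) q ∩ E q) ≤ Real.log q * P.real (exa E g q) := by
      rw [h3, pc_eq (by omega)]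
      have h5 := log_ge (n := q - g) (by omega)
      have h6 : Real.log (q - g : ℕ) ≤ Real.log q := by
        apply Real.log_le_log
        · exact_mod_cast (by omega : 0 < q - g)
        · exact_mod_cast (by omega : q - g ≤ q)
      have h7 : 1 ≤ Real.log q * (1 / Real.log (q - g : ℕ)) := by
        rw [mul_one_div, le_div_iff₀ (by linarith)]
        linarith
      have h8 : 0 ≤ P.real (empt E (q - g + 1) q ∩ E q) := measureReal_nonneg
      nlinarith
    calc P.real (exa E g (q - g) ∩ exa E g q) ≤ _ := measureReal_mono h1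
      _ = P.real (exa E g (q - g)) * P.real (empt E (q - g + 1) q ∩ E q) := h2
      _ ≤ P.real (exa E g (q - g)) * (Real.log q * P.real (exa E g q)) :=
          mul_le_mul_of_nonneg_left h4 measureReal_nonneg
      _ = _ := by ring
  small g s hB v hv := by
    obtain ⟨h1, h2⟩ := sum_triv hB hv
    have hg1 := hB.g1
    constructor
    · intro q hq hqX
      rw [prob_exa hM hg1 (by omega)]
      have h3 := pe_le hg1 hq
      have h4 := h1 q hq hqX
      linarith
    · calc ∑ q ∈ Ico (g + 3) (Xf g v), P.real (exa E g q) ≤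
            ∑ q ∈ Ico (g + 3) (Xf g v), 12 * pr pc g q := by
            refine Finset.sum_le_sum fun q hq => ?_
            rw [mem_Ico] at hq
            rw [prob_exa hM hg1 (by omega)]
            exact pe_le hg1 hq.1
        _ ≤ _ := by rw [← Finset.mul_sum]; linarith
  up g s hB v hv := by
    refine le_trans (le_of_eq ?_) (exa_up hB hv)
    refine Finset.sum_congr rfl fun q hq => ?_
    rw [mem_Ico] at hq
    exact prob_exa hM hB.g1 (by omega)
  lo g s hB v hv := by
    refine (exa_lo hB hv).trans (le_of_eq ?_)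
    refine Finset.sum_congr rfl fun q hq => ?_
    rw [mem_Ico] at hq
    have hs := hB.s100
    have hv2 := abs_le.mp (hB.v hv)
    have := (Xf_big hB (v := v - 1) (by linarith)).1
    exact (prob_exa hM hB.g1 (by omega)).symm

section

variable {κ : ℕ} {V : ℕ → ℕ → Set Ω} {g : ℕ} {s v : ℝ}

lemma exp_s_big (hB : Big g s) : 400 * (g : ℝ) ^ 6 ≤ Real.exp s := by
  have h1 := hB.lg
  have h2 := hB.s100
  have hg : (0 : ℝ) < g := by exact_mod_cast hB.g1
  have h3 : (400 : ℝ) ≤ Real.exp 9 := by
    have h7 : Real.exp 9 = Real.exp 1 ^ 9 := by rw [← Real.exp_nat_mul]; norm_num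
    rw [h7]
    have h8 := Real.exp_one_gt_d9
    have h9 : 2 ≤ Real.exp 1 := by linarith
    calc (400 : ℝ) ≤ 2 ^ 9 := by norm_num
      _ ≤ _ := pow_le_pow_left₀ (by norm_num) h9 9
  have h4 : (g : ℝ) ^ 6 = Real.exp (6 * Real.log g) := by
    rw [show (6 : ℝ) * Real.log g = ((6 : ℕ) : ℝ) * Real.log g by norm_num, Real.exp_nat_mul,
      Real.exp_log hg]
  calc 400 * (g : ℝ) ^ 6 ≤ Real.exp 9 * Real.exp (6 * Real.log g) := by
        rw [h4]; gcongr
    _ = Real.exp (9 + 6 * Real.log g) := by rw [Real.exp_add]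
    _ ≤ Real.exp s := Real.exp_le_exp.mpr (by linarith)

lemma exp_v_le (hB : Big g s) (hv : |v| ≤ Real.log g) : Real.exp v ≤ g := by
  have hg : (0 : ℝ) < g := by exact_mod_cast hB.g1
  have := (abs_le.mp hv).2
  calc Real.exp v ≤ Real.exp (Real.log g) := Real.exp_le_exp.mpr this
    _ = g := Real.exp_log hg

lemma exp_v_ge (hB : Big g s) (hv : |v| ≤ Real.log g) : 1 / (g : ℝ) ≤ Real.exp v := by
  have hg : (0 : ℝ) < g := by exact_mod_cast hB.g1
  have := (abs_le.mp hv).1
  calc 1 / (g : ℝ) = Real.exp (-Real.log g) := by rw [Real.exp_neg, Real.exp_log hg]; simp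
    _ ≤ Real.exp v := Real.exp_le_exp.mpr this

lemma s_le_g (hB : Big g s) : s ≤ g := by
  rw [hB.sq]; nlinarith [hB.s100]

/-- probability of no occurrence, from above -/
lemma non_up [IsProbabilityMeasure P] (hM : Mod P E pc) (hK : Knd P E κ V) (hB : Big g s)
    (hv : |v| ≤ Real.log g) :
    P.real (non (V g) (g + 3) (Xf g v)) ≤
      Real.exp (-(Real.exp (-6) / 272 * Real.exp (2 * v) / s ^ κ)) + 1 / (g : ℝ) ^ 2 := by
  have hs := hB.s100
  have hv2 := abs_le.mp (hB.v hv)
  have hg1 := hB.g1
  have hgpos : (0 : ℝ) < g := by exact_mod_cast hg1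
  obtain ⟨h1, h2⟩ := Xf_big hB (v := v) (by linarith)
  obtain ⟨h1', h2'⟩ := Xf_big hB (v := v - 1) (by linarith)
  obtain ⟨k1, k2⟩ := hK.small g s hB v (by linarith)
  have hYX : Xf g (v - 1) ≤ Xf g v := by
    rw [Xf_eq hB, Xf_eq hB]
    exact Nat.floor_mono (Real.exp_le_exp.mpr (by linarith))
  have hlogX := Xf_log_le hB (v := v) (by omega)
  have hmono : P.real (non (V g) (g + 3) (Xf g v)) ≤
      P.real (non (V g) (Xf g (v - 1)) (Xf g v)) := by
    refine measureReal_mono ?_
    unfold non
    intro ω hω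
    simp only [Set.mem_iInter, mem_Ico] at hω ⊢
    intro m hm
    exact hω m ⟨by omega, hm.2⟩
  have ht : ∀ n, Xf g (v - 1) ≤ n → n < Xf g v →
      P.real (V g (n - g) ∩ V g n) ≤ (12 * Real.exp (v - s) * (2 * s)) * P.real (V g n) := by
    intro n hn1 hn2
    refine (hK.inter g n hg1 (by omega)).trans ?_
    refine mul_le_mul_of_nonneg_right ?_ measureReal_nonneg
    have h3 : Real.log n ≤ 2 * s := by
      have h4 : Real.log n ≤ Real.log (Xf g v) := by
        apply Real.log_le_log
        · exact_mod_cast (by omega : 0 < n)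
        · exact_mod_cast hn2.le
      linarith
    have h5 := log_ge (n := n) (by omega)
    exact mul_le_mul (k1 (n - g) (by omega) (by omega)) h3 (by linarith) (by positivity)
  have h3 := decay_upper hM (hK.fam g) (a := Xf g (v - 1)) (b := Xf g v) (g := g)
    (fun _ _ _ => rfl) (by omega) hg1 ht (by positivity) hYX
  have h4 : ∏ q ∈ Ico (Xf g (v - 1)) (Xf g v), (1 - P.real (V g q)) ≤
      Real.exp (-(Real.exp (-6) / 272 * Real.exp (2 * v) / s ^ κ)) := by
    calc ∏ q ∈ Ico (Xf g (v - 1)) (Xf g v), (1 - P.real (V g q)) ≤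
          ∏ q ∈ Ico (Xf g (v - 1)) (Xf g v), Real.exp (-P.real (V g q)) := by
          refine Finset.prod_le_prod (fun q _ => ?_) fun q _ => ?_
          · have : P.real (V g q) ≤ 1 := measureReal_le_one
            linarith
          · have := Real.add_one_le_exp (-P.real (V g q))
            linarith
      _ = Real.exp (-∑ q ∈ Ico (Xf g (v - 1)) (Xf g v), P.real (V g q)) := by
          rw [← Real.exp_sum, Finset.sum_neg_distrib]
      _ ≤ _ := Real.exp_le_exp.mpr (by linarith [hK.lo g s hB v hv])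
  have h5 : (12 * Real.exp (v - s) * (2 * s)) *
      ∑ q ∈ Ico (Xf g (v - 1)) (Xf g v), P.real (V g q) ≤ 1 / (g : ℝ) ^ 2 := by
    have h6 : ∑ q ∈ Ico (Xf g (v - 1)) (Xf g v), P.real (V g q) ≤ 12 * Real.exp (2 * v) := by
      refine le_trans ?_ k2
      refine Finset.sum_le_sum_of_subset_of_nonneg (Finset.Ico_subset_Ico_left (by omega))
        fun _ _ _ => measureReal_nonneg
    calc _ ≤ (12 * Real.exp (v - s) * (2 * s)) * (12 * Real.exp (2 * v)) :=
          mul_le_mul_of_nonneg_left h6 (by positivity)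
      _ = 288 * s * Real.exp v ^ 3 / Real.exp s := by
          rw [Real.exp_sub, show (2 : ℝ) * v = v + v by ring, Real.exp_add]
          field_simp
          norm_num
      _ ≤ 288 * g * (g : ℝ) ^ 3 / Real.exp s := by
          have e1 := exp_v_le hB hv
          have e2 := s_le_g hB
          gcongr
      _ ≤ 1 / (g : ℝ) ^ 2 := by
          rw [div_le_div_iff₀ (Real.exp_pos _) (by positivity)]
          have e3 := exp_s_big hB
          have e4 : (288 : ℝ) * g * g ^ 3 * g ^ 2 = 288 * g ^ 6 := by ring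
          rw [e4]
          have : (0 : ℝ) ≤ (g : ℝ) ^ 6 := by positivity
          linarith
  linarith

/-- probability of no occurrence, from below -/
lemma non_lo [IsProbabilityMeasure P] (hM : Mod P E pc) (hK : Knd P E κ V) (hB : Big g s)
    (hv : |v| ≤ Real.log g) {a : ℕ} (ha : g + 3 ≤ a) :
    Real.exp (-(34 * Real.exp (2 * v) / s ^ κ)) - 1 / (g : ℝ) ≤
      P.real (non (V g) a (Xf g v)) := by
  have hs := hB.s100
  have hv2 := abs_le.mp (hB.v hv)
  have hg1 := hB.g1
  have hgpos : (0 : ℝ) < g := by exact_mod_cast hg1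
  have hg1' : (1 : ℝ) ≤ g := by exact_mod_cast hg1
  obtain ⟨k1, k2⟩ := hK.small g s hB v (by linarith)
  have k3 := hK.up g s hB v hv
  rcases le_or_gt a (Xf g v) with haX | haX
  swap
  · rw [non_self _ haX.le]
    simp only [probReal_univ]
    have : Real.exp (-(34 * Real.exp (2 * v) / s ^ κ)) ≤ 1 := by
      rw [Real.exp_le_one_iff]
      have : 0 ≤ 34 * Real.exp (2 * v) / s ^ κ := by positivity
      linarith
    have : 0 ≤ 1 / (g : ℝ) := by positivity
    linarith
  have hsub : ∑ q ∈ Ico a (Xf g v), P.real (V g q) ≤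
      ∑ q ∈ Ico (g + 3) (Xf g v), P.real (V g q) :=
    Finset.sum_le_sum_of_subset_of_nonneg (Finset.Ico_subset_Ico_left (by omega))
        fun _ _ _ => measureReal_nonneg
  have hsmall : 12 * Real.exp (v - s) ≤ 1 / 2 := by
    rw [Real.exp_sub]
    rw [mul_div_assoc', div_le_div_iff₀ (Real.exp_pos _) (by norm_num)]
    have e1 := exp_v_le hB hv
    have e3 := exp_s_big hB
    have : (g : ℝ) ≤ g ^ 6 := by
      calc (g : ℝ) = g ^ 1 := (pow_one _).symm
        _ ≤ g ^ 6 := pow_le_pow_right₀ hg1' (by norm_num)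
    nlinarith
  have h3 := decay_lower hM (hK.fam g) (a := a) (b := Xf g v) (g := g)
    (fun _ _ _ => rfl) (by omega) (s := 12 * Real.exp (v - s)) (by positivity)
    (fun n h1 h2 => k1 n (by omega) h2.le) haX
  have h4 : Real.exp (-(34 * Real.exp (2 * v) / s ^ κ)) ≤
      ∏ q ∈ Ico a (Xf g v), (1 - P.real (V g q)) := by
    calc Real.exp (-(34 * Real.exp (2 * v) / s ^ κ)) ≤
          Real.exp (∑ q ∈ Ico a (Xf g v), -(2 * P.real (V g q))) := by
          apply Real.exp_le_exp.mpr
          rw [Finset.sum_neg_distrib, ← Finset.mul_sum]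
          have : 34 * Real.exp (2 * v) / s ^ κ = 2 * (17 * Real.exp (2 * v) / s ^ κ) := by ring
          rw [this]
          linarith
      _ = ∏ q ∈ Ico a (Xf g v), Real.exp (-(2 * P.real (V g q))) := Real.exp_sum _ _
      _ ≤ _ := by
          refine Finset.prod_le_prod (fun q _ => (Real.exp_pos _).le) fun q hq => ?_
          rw [mem_Ico] at hq
          have e1 : P.real (V g q) ≤ 1 / 2 := (k1 q (by omega) hq.2.le).trans hsmall
          have e2 : 0 ≤ P.real (V g q) := measureReal_nonneg
          set x := P.real (V g q)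
          -- exp(-2x) ≤ 1 - x
          have e3 : 1 + 2 * x ≤ Real.exp (2 * x) := by linarith [Real.add_one_le_exp (2 * x)]
          rw [Real.exp_neg, inv_le_comm₀ (Real.exp_pos _) (by linarith), inv_eq_one_div,
            div_le_iff₀ (by linarith)]
          nlinarith
  have h5 : (g : ℝ) * (12 * Real.exp (v - s)) * ∑ q ∈ Ico a (Xf g v), P.real (V g q) ≤
      1 / (g : ℝ) := by
    calc _ ≤ (g : ℝ) * (12 * Real.exp (v - s)) * (12 * Real.exp (2 * v)) :=
          mul_le_mul_of_nonneg_left (hsub.trans k2) (by positivity)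
      _ = 144 * g * Real.exp v ^ 3 / Real.exp s := by
          rw [Real.exp_sub, show (2 : ℝ) * v = v + v by ring, Real.exp_add]
          field_simp
          norm_num
      _ ≤ 144 * g * (g : ℝ) ^ 3 / Real.exp s := by
          have e1 := exp_v_le hB hv
          gcongr
      _ ≤ 1 / (g : ℝ) := by
          rw [div_le_div_iff₀ (Real.exp_pos _) (by positivity)]
          have e3 := exp_s_big hB
          have e4 : (144 : ℝ) * g * g ^ 3 * g = 144 * g ^ 5 := by ring
          rw [e4]
          have e5 : (g : ℝ) ^ 5 ≤ g ^ 6 := pow_le_pow_right₀ hg1' (by norm_num)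
          have : (0 : ℝ) ≤ (g : ℝ) ^ 6 := by positivity
          linarith
  linarith

lemma compl_non_le [IsProbabilityMeasure P] (W : ℕ → Set Ω) (a b : ℕ) :
    P.real (non W a b)ᶜ ≤ ∑ q ∈ Ico a b, P.real (W q) := by
  have : (non W a b)ᶜ = ⋃ m ∈ Ico a b, W m := by
    unfold non; simp
  rw [this]
  exact measureReal_biUnion_finset_le _ _

end

end Pool.Agent.Q75.Sk
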