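import Pool.Agent.Q75.SkD

/-! Borel–Cantelli lemmas and two series. -/

set_option autoImplicit false

namespace Pool.Agent.Q75.Sk

open MeasureTheory ProbabilityTheory Filter Topology Finset
open scoped ENNReal

variable {Ω : Type} [mΩ : MeasurableSpace Ω] {P : Measure Ω} {E : ℕ → Set Ω}

lemma bc1 [IsProbabilityMeasure P] (f : ℕ → Set Ω) (u : ℕ → ℝ) (hu : Summable u)
    (h : ∀ᶠ n in atTop, P.real (f n) ≤ u n) : ∀ᵐ ω ∂P, ∀ᶠ n in atTop, ω ∉ f n := by
  obtain ⟨N, hN⟩ := eventually_atTop.mp h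
  have h1 : ∑' n, P (f (n + N)) ≠ ∞ := by
    have h2 : ∀ n, P (f (n + N)) ≤ ENNReal.ofReal (u (n + N)) := by
      intro n
      have := hN (n + N) (by omega)
      rw [← ENNReal.ofReal_toReal (measure_ne_top P (f (n + N)))]
      exact ENNReal.ofReal_le_ofReal this
    have h3 : Summable fun n => u (n + N) := (summable_nat_add_iff N).mpr hu
    have h4 : ∀ n, 0 ≤ u (n + N) := fun n => le_trans measureReal_nonneg (hN (n + N) (by omega))
    refine ne_top_of_le_ne_top ?_ (ENNReal.tsum_le_tsum h2)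
    rw [← ENNReal.ofReal_tsum_of_nonneg h4 h3]
    exact ENNReal.ofReal_ne_top
  have h5 := ae_eventually_notMem (μ := P) h1
  filter_upwards [h5] with ω hω
  obtain ⟨M, hM⟩ := eventually_atTop.mp hω
  refine eventually_atTop.mpr ⟨M + N, fun n hn => ?_⟩
  have := hM (n - N) (by omega)
  rwa [Nat.sub_add_cancel (by omega)] at this

lemma ae_freq (W : ℕ → Set Ω) [IsProbabilityMeasure P]
    (h : ∀ᶠ a in atTop, ∃ u : ℕ → ℝ, Tendsto u atTop (𝓝 0) ∧
      ∀ᶠ b in atTop, P.real (non W a b) ≤ u b) : ∀ᵐ ω ∂P, ∃ᶠ n in atTop, ω ∈ W n := by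
  obtain ⟨A, hA⟩ := eventually_atTop.mp h
  have h1 : ∀ a, A ≤ a → P (⋂ b, non W a b) = 0 := by
    intro a ha
    obtain ⟨u, hu, hb⟩ := hA a ha
    have h2 : P.real (⋂ b, non W a b) ≤ 0 := by
      refine ge_of_tendsto hu ?_
      filter_upwards [hb] with b hb
      exact (measureReal_mono (Set.iInter_subset _ b)).trans hb
    have h3 : P.real (⋂ b, non W a b) = 0 := le_antisymm h2 measureReal_nonneg
    rwa [measureReal_eq_zero_iff] at h3
  have h2 : ∀ᵐ ω ∂P, ∀ a, A ≤ a → ω ∉ ⋂ b, non W a b := by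
    rw [ae_all_iff]
    intro a
    by_cases ha : A ≤ a
    · have := h1 a ha
      rw [measure_eq_zero_iff_ae_notMem] at this
      filter_upwards [this] with ω hω _
      exact hω
    · exact Eventually.of_forall fun ω h => absurd h ha
  filter_upwards [h2] with ω hω
  rw [frequently_atTop]
  intro a
  have h3 := hω (max a A) (le_max_right _ _)
  by_contra hcon
  push Not at hcon
  apply h3
  rw [Set.mem_iInter]
  intro b
  unfold non
  simp only [Set.mem_iInter, mem_Ico, Set.mem_compl_iff]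
  intro m hm
  exact hcon m (le_trans (le_max_left _ _) hm.1)

lemma prod_to_zero {f : ℕ → ℝ} (h0 : ∀ n, 0 ≤ f n) (h1 : ∀ n, f n ≤ 1) (hs : ¬ Summable f) (a : ℕ) :
    Tendsto (fun b => ∏ n ∈ Ico a b, (1 - f n)) atTop (𝓝 0) := by
  have h2 : Tendsto (fun b => ∑ n ∈ Ico a b, f n) atTop atTop := by
    have h3 := (not_summable_iff_tendsto_nat_atTop_of_nonneg h0).mp hs
    have h4 : Tendsto (fun b => ∑ n ∈ range b, f n - ∑ n ∈ range a, f n) atTop atTop :=
      tendsto_atTop_add_const_right _ _ h3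
    refine h4.congr' ?_
    filter_upwards [eventually_ge_atTop a] with b hb
    rw [Finset.sum_Ico_eq_sub _ hb]
  have h3 : Tendsto (fun b => Real.exp (-∑ n ∈ Ico a b, f n)) atTop (𝓝 0) :=
    Real.tendsto_exp_neg_atTop_nhds_zero.comp h2
  refine squeeze_zero (fun b => Finset.prod_nonneg fun n _ => by linarith [h1 n]) (fun b => ?_) h3
  rw [← Finset.sum_neg_distrib, Real.exp_sum]
  refine Finset.prod_le_prod (fun n _ => by linarith [h1 n]) fun n _ => ?_
  linarith [Real.add_one_le_exp (-f n)]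

/-- independent events in consecutive windows -/
lemma io_indep [IsProbabilityMeasure P] {p : ℕ → ℝ} (hM : Mod P E p) (x : ℕ → ℕ) (hx : Monotone x)
    (A : ℕ → Set Ω) (hA : ∀ i, MeasurableSet[sig E {n | x i ≤ n ∧ n < x (i + 1)}] (A i))
    (hs : ¬ Summable fun i => P.real (A i)) : ∀ᵐ ω ∂P, ∃ᶠ i in atTop, ω ∈ A i := by
  refine ae_freq A (Eventually.of_forall fun a => ?_)
  refine ⟨fun b => ∏ n ∈ Ico a b, (1 - P.real (A n)),
    prod_to_zero (fun _ => measureReal_nonneg) (fun _ => measureReal_le_one) hs a, ?_⟩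
  refine eventually_atTop.mpr ⟨a, fun b hab => le_of_eq ?_⟩
  show P.real (non A a b) = ∏ n ∈ Ico a b, (1 - P.real (A n))
  induction b, hab using Nat.le_induction with
  | base => rw [non_self A le_rfl]; simp
  | succ b hab ih =>
    rw [non_succ A hab, Finset.prod_Ico_succ_top hab, ← ih]
    rw [sig_indep hM (S := {j | j < x b}) (T := {j | x b ≤ j})]
    · congr 1
      rw [measureReal_compl (sig_le hM _ _ (hA b))]
      simp
    · rw [Set.disjoint_left]
      intro y hy hy'
      simp only [Set.mem_ofPred_eq] at hy hy'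
      omega
    · refine non_meas A fun q _ h2 => ?_
      refine sig_mono E ?_ _ (hA q)
      intro n hn
      simp only [Set.mem_ofPred_eq] at hn ⊢
      have : x (q + 1) ≤ x b := hx (by omega)
      omega
    · refine MeasurableSet.compl ?_
      refine sig_mono E ?_ _ (hA b)
      intro n hn
      simp only [Set.mem_ofPred_eq] at hn ⊢
      exact hn.1

/-- decay for runs with variable length -/
lemma io_run [IsProbabilityMeasure P] {p : ℕ → ℝ} (hM : Mod P E p) (h : ℕ → ℕ)
    (hh : ∀ᶠ n in atTop, h n ≤ n) (hs : ¬ Summable fun q => pr p (h q) q) :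
    ∀ᵐ ω ∂P, ∃ᶠ q in atTop, ω ∈ run E (h q) q := by
  obtain ⟨A, hA⟩ := eventually_atTop.mp hh
  refine ae_freq (fun q => run E (h q) q) (eventually_atTop.mpr ⟨A, fun a ha => ?_⟩)
  refine ⟨fun b => ∏ n ∈ Ico a b, (1 - pr p (h n) n), prod_to_zero (fun n => ?_) (fun n => ?_) hs a,
    eventually_atTop.mpr ⟨a, fun b hb => decay_run hM h a (fun n hn => hA n (by omega)) b hb⟩⟩
  · rw [← prob_run hM]; exact measureReal_nonneg
  · rw [← prob_run hM]; exact measureReal_le_one

/-! ### series -/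

lemma bert_aux {δ : ℝ} (hδ : 0 ≤ δ) :
    (Summable fun k : ℕ => (2 : ℝ) ^ k * (1 / (((2 ^ k : ℕ) : ℝ) * Real.log ((2 ^ k : ℕ) : ℝ) ^ δ))) ↔
    Summable fun n : ℕ => 1 / ((n : ℝ) * Real.log n ^ δ) := by
  refine summable_condensed_iff_of_eventually_nonneg (f := fun n : ℕ => 1 / ((n : ℝ) * Real.log n ^ δ))
    ?_ ?_
  · filter_upwards [eventually_ge_atTop 1] with n hn
    have : 0 ≤ Real.log n := Real.log_nonneg (by exact_mod_cast hn)
    simp only [Pi.zero_apply]
    positivity
  · filter_upwards [eventually_ge_atTop 3] with n hn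
    have h1 := log_ge hn
    have h2 := log_succ_ge (q := n) (by omega)
    have h3 : (0 : ℝ) < n := by exact_mod_cast (by omega : 0 < n)
    apply one_div_le_one_div_of_le
    · have : 0 < Real.log n ^ δ := Real.rpow_pos_of_pos (by linarith) _
      positivity
    · have h4 : Real.log n ^ δ ≤ Real.log (n + 1 : ℕ) ^ δ :=
        Real.rpow_le_rpow (by linarith) h2 hδ
      have h5 : (n : ℝ) ≤ (n + 1 : ℕ) := by push_cast; linarith
      exact mul_le_mul h5 h4 (Real.rpow_nonneg (by linarith) _) (by positivity)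

lemma bert_eq (δ : ℝ) (k : ℕ) :
    (2 : ℝ) ^ k * (1 / (((2 ^ k : ℕ) : ℝ) * Real.log ((2 ^ k : ℕ) : ℝ) ^ δ)) =
      1 / (Real.log 2 ^ δ) * (1 / (k : ℝ) ^ δ) := by
  have h1 : Real.log ((2 ^ k : ℕ) : ℝ) = k * Real.log 2 := by
    push_cast; rw [Real.log_pow]
  have h2 : 0 < Real.log 2 := Real.log_pos (by norm_num)
  rw [h1, Real.mul_rpow (by positivity) h2.le]
  push_cast
  have h3 : (2 : ℝ) ^ k ≠ 0 := by positivity
  rw [mul_one_div, mul_comm ((k : ℝ) ^ δ) _, ← div_div, div_self h3, one_div_mul_one_div]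

lemma bert_summable {δ : ℝ} (hδ : 1 < δ) :
    Summable fun n : ℕ => 1 / ((n : ℝ) * Real.log n ^ δ) := by
  rw [← bert_aux (by linarith)]
  simp only [bert_eq]
  exact (Real.summable_one_div_nat_rpow.mpr hδ).mul_left _

lemma bert_not : ¬ Summable fun n : ℕ => 1 / ((n : ℝ) * Real.log n) := by
  have h1 : ¬ Summable fun n : ℕ => 1 / ((n : ℝ) * Real.log n ^ (1 : ℝ)) := by
    rw [← bert_aux (by norm_num)]
    intro h
    have h2 := h.mul_left (Real.log 2)
    have h3 : Real.log 2 ≠ 0 := (Real.log_pos (by norm_num)).ne'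
    refine Real.not_summable_one_div_natCast (h2.congr fun n => ?_)
    rw [bert_eq, Real.rpow_one, Real.rpow_one, ← mul_assoc, mul_one_div_cancel h3, one_mul]
  simpa only [Real.rpow_one] using h1

end Pool.Agent.Q75.Sk
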