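import Pool.Agent.Q75.SkE

/-! Almost sure envelopes. -/

set_option autoImplicit false

namespace Pool.Agent.Q75.Sk

open MeasureTheory ProbabilityTheory Filter Topology Finset
open scoped ENNReal

variable {Ω : Type} [mΩ : MeasurableSpace Ω] {P : Measure Ω} {E : ℕ → Set Ω}

/-- `c log g + d log log g` -/
noncomputable def vv (c d : ℝ) (g : ℕ) : ℝ := c * Real.log g + d * Real.log (Real.log g)

lemma tendsto_log_nat : Tendsto (fun g : ℕ => Real.log (g : ℝ)) atTop atTop :=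
  Real.tendsto_log_atTop.comp tendsto_natCast_atTop_atTop

lemma tendsto_loglog_nat : Tendsto (fun g : ℕ => Real.log (Real.log (g : ℝ))) atTop atTop :=
  Real.tendsto_log_atTop.comp tendsto_log_nat

lemma loglog_small (δ : ℝ) (hδ : 0 < δ) :
    ∀ᶠ g : ℕ in atTop, |Real.log (Real.log (g : ℝ))| ≤ δ * Real.log g := by
  have h1 := Real.isLittleO_log_id_atTop.def hδ
  have h2 := tendsto_log_nat.eventually h1
  filter_upwards [h2, tendsto_log_nat.eventually_ge_atTop 0] with g hg h0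
  simpa [abs_of_nonneg h0] using hg

lemma vv_small {c d : ℝ} (hc0 : 0 ≤ c) (hc : c ≤ 1 / 2) :
    ∀ᶠ g : ℕ in atTop, |vv c d g| ≤ Real.log g := by
  have h1 := loglog_small (1 / (2 * (|d| + 1))) (by positivity)
  filter_upwards [h1, tendsto_log_nat.eventually_ge_atTop 0] with g hg h0
  unfold vv
  have h2 : |d * Real.log (Real.log (g : ℝ))| ≤ 1 / 2 * Real.log g := by
    rw [abs_mul]
    calc |d| * |Real.log (Real.log (g : ℝ))| ≤ (|d| + 1) * (1 / (2 * (|d| + 1)) * Real.log g) := by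
          refine mul_le_mul (by linarith) hg (abs_nonneg _) (by positivity)
      _ = _ := by field_simp
  calc |c * Real.log g + d * Real.log (Real.log (g : ℝ))| ≤
        |c * Real.log g| + |d * Real.log (Real.log (g : ℝ))| := abs_add_le _ _
    _ ≤ 1 / 2 * Real.log g + 1 / 2 * Real.log g := by
        refine add_le_add ?_ h2
        rw [abs_of_nonneg (by positivity)]
        exact mul_le_mul_of_nonneg_right hc h0
    _ = Real.log g := by ring

lemma exp_vv {c d : ℝ} {g : ℕ} (hg : 1 < Real.log g) :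
    Real.exp (2 * vv c d g) = Real.exp (2 * c * Real.log g) * Real.log g ^ (2 * d) := by
  unfold vv
  rw [Real.rpow_def_of_pos (by linarith), ← Real.exp_add]
  congr 1
  ring

lemma s_pow {g : ℕ} {s : ℝ} (hB : Big g s) (κ : ℕ) :
    Real.exp (2 * ((κ : ℝ) / 4) * Real.log g) = s ^ κ := by
  have hg : (0 : ℝ) < g := by exact_mod_cast hB.g1
  have hs : 0 < s := by linarith [hB.s100]
  have h1 : Real.log g = 2 * Real.log s := by rw [hB.sq, Real.log_pow]; norm_num
  rw [h1, show 2 * ((κ : ℝ) / 4) * (2 * Real.log s) = (κ : ℝ) * Real.log s by ring,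
    Real.exp_nat_mul, Real.exp_log hs]

lemma ratio_eq {g : ℕ} {s d : ℝ} (hB : Big g s) (hg : 1 < Real.log g) (κ : ℕ) :
    Real.exp (2 * vv ((κ : ℝ) / 4) d g) / s ^ κ = Real.log g ^ (2 * d) := by
  have hs : 0 < s := by linarith [hB.s100]
  rw [exp_vv hg, s_pow hB]
  field_simp

variable {κ : ℕ} {V : ℕ → ℕ → Set Ω}

/-- upper envelope -/
lemma env_up [IsProbabilityMeasure P] (hM : Mod P E pc) (hK : Knd P E κ V) (hκ : κ ≤ 2) {ε : ℝ}
    (hε : 0 < ε) : ∀ᵐ ω ∂P, ∀ᶠ g : ℕ in atTop,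
      ω ∉ non (V g) (g + 3) (Xf g (vv ((κ : ℝ) / 4) (1 / 2 + ε) g)) := by
  refine bc1 _ (fun g : ℕ => 2 * (1 / (g : ℝ) ^ 2)) ((Real.summable_one_div_nat_pow.mpr
    (by norm_num)).mul_left 2) ?_
  have hc : (κ : ℝ) / 4 ≤ 1 / 2 := by
    have : (κ : ℝ) ≤ 2 := by exact_mod_cast hκ
    linarith
  have h1 := vv_small (c := (κ : ℝ) / 4) (d := 1 / 2 + ε) (by positivity) hc
  set c0 := Real.exp (-6) / 272 with hc0
  have hc0pos : 0 < c0 := by positivity
  have h2 : ∀ᶠ g : ℕ in atTop, 2 / c0 ≤ Real.log (g : ℝ) ^ (2 * ε) :=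
    ((tendsto_rpow_atTop (by linarith : 0 < 2 * ε)).comp tendsto_log_nat).eventually_ge_atTop _
  filter_upwards [big_ev, h1, h2, tendsto_log_nat.eventually_gt_atTop 1] with g hB hv hl hl1
  refine (non_up hM hK hB hv).trans ?_
  have hg : (0 : ℝ) < g := by exact_mod_cast hB.g1
  have h3 : Real.exp (-(c0 * Real.exp (2 * vv ((κ : ℝ) / 4) (1 / 2 + ε) g) /
      Real.sqrt g ^ κ)) ≤ 1 / (g : ℝ) ^ 2 := by
    rw [mul_div_assoc, ratio_eq hB hl1]
    have h4 : Real.log (g : ℝ) ^ (2 * (1 / 2 + ε)) = Real.log g * Real.log g ^ (2 * ε) := by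
      rw [show 2 * (1 / 2 + ε) = 1 + 2 * ε by ring, Real.rpow_add (by linarith), Real.rpow_one]
    rw [h4]
    have h5 : 2 * Real.log g ≤ c0 * (Real.log g * Real.log g ^ (2 * ε)) := by
      rw [div_le_iff₀ hc0pos] at hl
      nlinarith
    calc Real.exp (-(c0 * (Real.log g * Real.log g ^ (2 * ε)))) ≤ Real.exp (-(2 * Real.log g)) :=
          Real.exp_le_exp.mpr (by linarith)
      _ = 1 / (g : ℝ) ^ 2 := by
          rw [Real.exp_neg, show (2 : ℝ) * Real.log g = ((2 : ℕ) : ℝ) * Real.log g by norm_num,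
            Real.exp_nat_mul, Real.exp_log hg]
          simp
  linarith

/-- lower envelope along the squares (runs) -/
lemma env_lo_sq [IsProbabilityMeasure P] (hK : Knd P E 1 V) {ε : ℝ}
    (hε : 0 < ε) : ∀ᵐ ω ∂P, ∀ᶠ k : ℕ in atTop,
      ω ∈ non (V (k ^ 2)) (k ^ 2 + 3) (Xf (k ^ 2) (vv 0 (-(1 / 2 + ε)) (k ^ 2))) := by
  have h0 : Tendsto (fun k : ℕ => k ^ 2) atTop atTop := tendsto_pow_atTop (by norm_num)
  have key := bc1 (P := P) (fun k => (non (V (k ^ 2)) (k ^ 2 + 3)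
    (Xf (k ^ 2) (vv 0 (-(1 / 2 + ε)) (k ^ 2))))ᶜ)
    (fun k : ℕ => 17 * (1 / ((k : ℝ) * Real.log k ^ (1 + 2 * ε))))
    ((bert_summable (by linarith)).mul_left 17) ?_
  · filter_upwards [key] with ω hω
    filter_upwards [hω] with k hk
    simpa using hk
  have h1 := vv_small (c := 0) (d := -(1 / 2 + ε)) le_rfl (by norm_num)
  filter_upwards [h0.eventually big_ev, h0.eventually h1, tendsto_log_nat.eventually_gt_atTop 1,
    eventually_ge_atTop 1] with k hB hv hl1 hk1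
  have hk0 : (0 : ℝ) < k := by exact_mod_cast hk1
  refine (compl_non_le _ _ _).trans ((hK.up _ _ hB _ hv).trans ?_)
  have hlk : Real.log ((k ^ 2 : ℕ) : ℝ) = 2 * Real.log k := by
    push_cast; rw [Real.log_pow]; norm_num
  have hsq : Real.sqrt ((k ^ 2 : ℕ) : ℝ) = k := by
    push_cast; exact Real.sqrt_sq hk0.le
  rw [exp_vv (by rw [hlk]; linarith), pow_one, hsq]
  simp only [mul_zero, zero_mul, Real.exp_zero, one_mul]
  have h2 : Real.log ((k ^ 2 : ℕ) : ℝ) ^ (2 * -(1 / 2 + ε)) ≤ (Real.log k ^ (1 + 2 * ε))⁻¹ := by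
    rw [show 2 * -(1 / 2 + ε) = -(1 + 2 * ε) by ring, Real.rpow_neg (by rw [hlk]; linarith)]
    apply inv_anti₀ (Real.rpow_pos_of_pos (by linarith) _)
    apply Real.rpow_le_rpow (by linarith) _ (by linarith)
    rw [hlk]; linarith
  calc 17 * Real.log ((k ^ 2 : ℕ) : ℝ) ^ (2 * -(1 / 2 + ε)) / (k : ℝ) ≤
        17 * (Real.log k ^ (1 + 2 * ε))⁻¹ / (k : ℝ) := by gcongr
    _ = 17 * (1 / ((k : ℝ) * Real.log k ^ (1 + 2 * ε))) := by
        rw [one_div, mul_inv]; ring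

/-- lower envelope (exact gaps) -/
lemma env_lo_exa [IsProbabilityMeasure P] (hK : Knd P E 2 V) {ε : ℝ}
    (hε : 0 < ε) : ∀ᵐ ω ∂P, ∀ᶠ g : ℕ in atTop,
      ω ∈ non (V g) (g + 3) (Xf g (vv 0 (-(1 / 2 + ε)) g)) := by
  have key := bc1 (P := P) (fun g => (non (V g) (g + 3)
    (Xf g (vv 0 (-(1 / 2 + ε)) g)))ᶜ)
    (fun g : ℕ => 17 * (1 / ((g : ℝ) * Real.log g ^ (1 + 2 * ε))))
    ((bert_summable (by linarith)).mul_left 17) ?_
  · filter_upwards [key] with ω hω
    filter_upwards [hω] with g hg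
    simpa using hg
  have h1 := vv_small (c := 0) (d := -(1 / 2 + ε)) le_rfl (by norm_num)
  filter_upwards [big_ev, h1, tendsto_log_nat.eventually_gt_atTop 1] with g hB hv hl1
  have hg0 : (0 : ℝ) < g := by exact_mod_cast hB.g1
  refine (compl_non_le _ _ _).trans ((hK.up _ _ hB _ hv).trans ?_)
  rw [exp_vv hl1, ← hB.sq]
  simp only [mul_zero, zero_mul, Real.exp_zero, one_mul]
  rw [show 2 * -(1 / 2 + ε) = -(1 + 2 * ε) by ring, Real.rpow_neg (by linarith)]
  apply le_of_eq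
  rw [one_div, mul_inv]; ring

end Pool.Agent.Q75.Sk
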