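import Pool.Agent.Q75.SkF

/-! Almost sure envelopes: they are attained infinitely often. -/

set_option autoImplicit false

namespace Pool.Agent.Q75.Sk

open MeasureTheory ProbabilityTheory Filter Topology Finset
open scoped ENNReal

variable {Ω : Type} [mΩ : MeasurableSpace Ω] {P : Measure Ω} {E : ℕ → Set Ω}
variable {κ : ℕ} {V : ℕ → ℕ → Set Ω}

/-- the sparse sequence -/
def gi (i : ℕ) : ℕ := (i + 2) ^ 4

lemma gi_sqrt (i : ℕ) : Real.sqrt (gi i : ℝ) = ((i : ℝ) + 2) ^ 2 := by
  unfold gi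
  push_cast
  rw [show ((i : ℝ) + 2) ^ 4 = (((i : ℝ) + 2) ^ 2) ^ 2 by ring]
  exact Real.sqrt_sq (by positivity)

lemma gi_log (i : ℕ) : Real.log (gi i : ℝ) = 4 * Real.log ((i : ℝ) + 2) := by
  unfold gi
  push_cast
  rw [Real.log_pow]; norm_num

lemma gi_tendsto : Tendsto gi atTop atTop := by
  unfold gi
  exact (tendsto_pow_atTop (by norm_num)).comp (tendsto_add_atTop_nat 2)

lemma gi_log_gt (i : ℕ) : 1 < Real.log (gi i : ℝ) := by
  have h1 : (1.09 : ℝ) < Real.log (gi i : ℝ) := log_ge (by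
    unfold gi
    calc 3 ≤ 2 ^ 4 := by norm_num
      _ ≤ (i + 2) ^ 4 := Nat.pow_le_pow_left (by omega) 4)
  linarith

lemma gi_mono : Monotone gi := by
  intro i j hij
  unfold gi
  exact Nat.pow_le_pow_left (by omega) 4

lemma vv_gi_mono {c d : ℝ} (hc : 0 ≤ c) (hd : 0 ≤ d) : Monotone fun i => vv c d (gi i) := by
  intro i j hij
  have h1 : (gi i : ℝ) ≤ gi j := by exact_mod_cast gi_mono hij
  have h0 : (0 : ℝ) < gi i := by
    have : 0 < gi i := by unfold gi; positivity
    exact_mod_cast this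
  have h2 : Real.log (gi i : ℝ) ≤ Real.log (gi j : ℝ) := Real.log_le_log h0 h1
  have h3 : Real.log (Real.log (gi i : ℝ)) ≤ Real.log (Real.log (gi j : ℝ)) :=
    Real.log_le_log (by linarith [gi_log_gt i]) h2
  show vv c d (gi i) ≤ vv c d (gi j)
  unfold vv
  exact add_le_add (mul_le_mul_of_nonneg_left h2 hc) (mul_le_mul_of_nonneg_left h3 hd)

/-- the ends of the windows -/
noncomputable def xi (c d : ℝ) (i : ℕ) : ℕ := Xf (gi i) (vv c d (gi i))

lemma xi_mono {c d : ℝ} (hc : 0 ≤ c) (hd : 0 ≤ d) : Monotone (xi c d) := by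
  intro i j hij
  unfold xi Xf
  apply Nat.floor_mono
  apply Real.exp_le_exp.mpr
  have h1 : (gi i : ℝ) ≤ gi j := by exact_mod_cast gi_mono hij
  exact add_le_add (Real.sqrt_le_sqrt h1) (vv_gi_mono hc hd hij)

/-- the upper envelope is attained -/
lemma env_up_io [IsProbabilityMeasure P] (hM : Mod P E pc) (hK : Knd P E κ V) (hκ : κ ≤ 2) {ε : ℝ}
    (hε : 0 < ε) (hε2 : ε ≤ 1 / 2) : ∀ᵐ ω ∂P, ∃ᶠ g : ℕ in atTop,
      ω ∈ non (V g) (g + 3) (Xf g (vv ((κ : ℝ) / 4) (1 / 2 - ε) g)) := by
  set c : ℝ := (κ : ℝ) / 4 with hcdef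
  set d : ℝ := 1 / 2 - ε with hddef
  have hc0 : 0 ≤ c := by positivity
  have hd0 : 0 ≤ d := by linarith
  have hc : c ≤ 1 / 2 := by
    have : (κ : ℝ) ≤ 2 := by exact_mod_cast hκ
    rw [hcdef]; linarith
  have hvs := vv_small (c := c) (d := d) hc0 hc
  -- the independent events
  let A : ℕ → Set Ω := fun i => non (V (gi (i + 1))) (xi c d i + gi (i + 1) + 3) (xi c d (i + 1))
  have hA1 : ∀ᵐ ω ∂P, ∃ᶠ i in atTop, ω ∈ A i := by
    refine io_indep hM (xi c d) (xi_mono hc0 hd0) A (fun i => ?_) ?_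
    · refine non_meas _ fun q h1 h2 => ?_
      refine (hK.fam (gi (i + 1))).loc q _ fun j h3 h4 => ?_
      simp only [Set.mem_ofPred_eq]
      omega
    · -- divergence
      have h1 : ∀ᶠ i : ℕ in atTop, 1 / ((i : ℝ) + 3) ≤ P.real (A i) := by
        have t1 : Tendsto (fun i : ℕ => gi (i + 1)) atTop atTop :=
          gi_tendsto.comp (tendsto_add_atTop_nat 1)
        have t2 : Tendsto (fun i : ℕ => Real.log (gi (i + 1) : ℝ)) atTop atTop :=
          tendsto_log_nat.comp t1
        have h2 : ∀ᶠ i : ℕ in atTop, 400 ≤ Real.log (gi (i + 1) : ℝ) ^ (2 * ε) :=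
          ((tendsto_rpow_atTop (by linarith : 0 < 2 * ε)).comp t2).eventually_ge_atTop _
        filter_upwards [t1.eventually big_ev, t1.eventually hvs, h2,
          t2.eventually_ge_atTop 100] with i hB hv hl hl100
        have h3 := non_lo hM hK hB hv (a := xi c d i + gi (i + 1) + 3) (by omega)
        refine le_trans ?_ h3
        have hl1 := gi_log_gt (i + 1)
        rw [mul_div_assoc, ratio_eq hB hl1]
        set l := Real.log (gi (i + 1) : ℝ) with hldef
        have hi3 : (0 : ℝ) < (i : ℝ) + 3 := by positivity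
        have h4 : l = 4 * Real.log ((i : ℝ) + 3) := by
          rw [hldef, gi_log]
          push_cast
          ring_nf
        have h5 : 34 * l ^ (2 * d) ≤ l / 8 := by
          have h6 : l ^ (2 * d) * l ^ (2 * ε) = l := by
            rw [← Real.rpow_add (by linarith), hddef,
              show 2 * (1 / 2 - ε) + 2 * ε = 1 by ring, Real.rpow_one]
          have h7 : 0 ≤ l ^ (2 * d) := Real.rpow_nonneg (by linarith) _
          nlinarith
        have h6 : 2 / ((i : ℝ) + 3) ≤ Real.exp (-(34 * l ^ (2 * d))) := by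
          have h7 : Real.log ((i : ℝ) + 3) / 2 ≤ Real.log ((i : ℝ) + 3) - Real.log 2 := by
            have := Real.log_two_lt_d9
            linarith
          calc 2 / ((i : ℝ) + 3) = Real.exp (Real.log 2 - Real.log ((i : ℝ) + 3)) := by
                rw [Real.exp_sub, Real.exp_log (by norm_num), Real.exp_log hi3]
            _ ≤ _ := Real.exp_le_exp.mpr (by linarith)
        have h7 : 1 / (gi (i + 1) : ℝ) ≤ 1 / ((i : ℝ) + 3) := by
          apply one_div_le_one_div_of_le hi3
          unfold gi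
          push_cast
          have : (i : ℝ) + 3 = (i + 1 + 2) := by ring
          rw [this]
          have h8 : (1 : ℝ) ≤ (i : ℝ) + 1 + 2 := by
            have : (0 : ℝ) ≤ i := by positivity
            linarith
          calc ((i : ℝ) + 1 + 2) = ((i : ℝ) + 1 + 2) ^ 1 := (pow_one _).symm
            _ ≤ _ := pow_le_pow_right₀ h8 (by norm_num)
        have h8 : 2 / ((i : ℝ) + 3) = 1 / ((i : ℝ) + 3) + 1 / ((i : ℝ) + 3) := by ring
        linarith
      intro hsum
      obtain ⟨N, hN⟩ := eventually_atTop.mp h1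
      have h2 : Summable fun i : ℕ => 1 / (((i + N + 3 : ℕ) : ℝ)) := by
        refine Summable.of_nonneg_of_le (fun i => by positivity) (fun i => ?_)
          ((summable_nat_add_iff N).mpr hsum)
        have := hN (i + N) (by omega)
        push_cast at this ⊢
        exact this
      have h3 := (summable_nat_add_iff (f := fun n : ℕ => 1 / (n : ℝ)) (N + 3)).mp (by
        simpa only [add_assoc] using h2)
      exact Real.not_summable_one_div_natCast h3
  -- the beginning of the windows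
  have hB1 : ∀ᵐ ω ∂P, ∀ᶠ i in atTop,
      ω ∉ (non (V (gi (i + 1))) (gi (i + 1) + 3) (xi c d i + gi (i + 1) + 3))ᶜ := by
    refine bc1 _ (fun i : ℕ => 12 * Real.exp (-2) ^ i) ((summable_geometric_of_lt_one
      (Real.exp_pos _).le (by rw [Real.exp_lt_one_iff]; norm_num)).mul_left 12) ?_
    have t1 : Tendsto (fun i : ℕ => gi (i + 1)) atTop atTop :=
      gi_tendsto.comp (tendsto_add_atTop_nat 1)
    have hi : ∀ᶠ i : ℕ in atTop, Real.log (gi i : ℝ) ≤ (i : ℝ) / 2 := by
      have h1 := Real.isLittleO_log_id_atTop.def (show (0 : ℝ) < 1 / 16 by norm_num)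
      have t2 : Tendsto (fun i : ℕ => (i : ℝ) + 2) atTop atTop :=
        tendsto_atTop_add_const_right _ _ tendsto_natCast_atTop_atTop
      filter_upwards [t2.eventually h1, eventually_ge_atTop 2] with i h2 h3
      have h3' : (2 : ℝ) ≤ i := by exact_mod_cast h3
      have h4 : 0 ≤ Real.log ((i : ℝ) + 2) := Real.log_nonneg (by linarith)
      simp only [Real.norm_eq_abs, id, abs_of_nonneg h4] at h2
      rw [abs_of_nonneg (by linarith)] at h2
      rw [gi_log]
      linarith
    filter_upwards [t1.eventually big_ev, gi_tendsto.eventually big_ev, gi_tendsto.eventually hvs,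
      hi, eventually_ge_atTop 10] with i hB hBi hv hlog hi10
    have hi10' : (10 : ℝ) ≤ i := by exact_mod_cast hi10
    refine (compl_non_le _ _ _).trans ?_
    have hsq : Real.sqrt (gi (i + 1) : ℝ) = ((i : ℝ) + 3) ^ 2 := by
      rw [gi_sqrt]; push_cast; ring
    have hsqi : Real.sqrt (gi i : ℝ) = ((i : ℝ) + 2) ^ 2 := gi_sqrt i
    have h1 := (hK.small _ _ hB (-(i : ℝ)) (by rw [hsq]; nlinarith)).2
    have h2 : xi c d i + gi (i + 1) + 3 ≤ Xf (gi (i + 1)) (-(i : ℝ)) := by
      have h3 : (xi c d i : ℝ) ≤ Real.exp (((i : ℝ) + 2) ^ 2 + i / 2) := by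
        unfold xi
        refine (Xf_le hBi _).trans (Real.exp_le_exp.mpr ?_)
        rw [hsqi]
        have := (abs_le.mp hv).2
        linarith
      have h4 := Xf_ge hB (-(i : ℝ))
      rw [hsq] at h4
      have h5 := hB.l2
      rw [hsq] at h5
      have h6 : Real.exp (((i : ℝ) + 3) ^ 2 + -(i : ℝ)) =
          Real.exp (((i : ℝ) + 2) ^ 2 + i / 2) * Real.exp ((i : ℝ) / 2 + 5) := by
        rw [← Real.exp_add]; ring_nf
      have h7 : (2 : ℝ) ≤ Real.exp ((i : ℝ) / 2 + 5) := by
        have := Real.add_one_le_exp ((i : ℝ) / 2 + 5)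
        linarith
      have h8 : Real.exp (((i : ℝ) + 3) ^ 2 / 4) ≤ Real.exp (((i : ℝ) + 2) ^ 2 + i / 2) := by
        apply Real.exp_le_exp.mpr
        nlinarith
      have h9 : ((gi (i + 1) : ℕ) : ℝ) ≥ 0 := by positivity
      have h10 := Real.exp_pos (((i : ℝ) + 2) ^ 2 + i / 2)
      have : ((xi c d i + gi (i + 1) + 3 : ℕ) : ℝ) ≤ Xf (gi (i + 1)) (-(i : ℝ)) := by
        push_cast
        rw [h6] at h4
        nlinarith
      exact_mod_cast this
    calc ∑ q ∈ Ico (gi (i + 1) + 3) (xi c d i + gi (i + 1) + 3), P.real (V (gi (i + 1)) q) ≤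
          ∑ q ∈ Ico (gi (i + 1) + 3) (Xf (gi (i + 1)) (-(i : ℝ))), P.real (V (gi (i + 1)) q) := by
          refine Finset.sum_le_sum_of_subset_of_nonneg (Finset.Ico_subset_Ico_right h2)
            fun _ _ _ => measureReal_nonneg
      _ ≤ 12 * Real.exp (2 * -(i : ℝ)) := h1
      _ = 12 * Real.exp (-2) ^ i := by
          rw [← Real.exp_nat_mul]; ring_nf
  filter_upwards [hA1, hB1] with ω h1 h2
  have t1 : Tendsto (fun i : ℕ => gi (i + 1)) atTop atTop :=
    gi_tendsto.comp (tendsto_add_atTop_nat 1)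
  have h3 : ∃ᶠ i in atTop, ω ∈ non (V (gi (i + 1))) (gi (i + 1) + 3)
      (Xf (gi (i + 1)) (vv c d (gi (i + 1)))) := by
    refine (h1.and_eventually h2).mono fun i hi => ?_
    obtain ⟨h4, h5⟩ := hi
    have h5' : ω ∈ non (V (gi (i + 1))) (gi (i + 1) + 3) (xi c d i + gi (i + 1) + 3) := by
      simpa using h5
    show ω ∈ non (V (gi (i + 1))) (gi (i + 1) + 3) (xi c d (i + 1))
    have h4' : ω ∈ non (V (gi (i + 1))) (xi c d i + gi (i + 1) + 3) (xi c d (i + 1)) := h4
    unfold non at h4' h5' ⊢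
    simp only [Set.mem_iInter, mem_Ico] at h4' h5' ⊢
    intro m hm
    by_cases h6 : m < xi c d i + gi (i + 1) + 3
    · exact h5' m ⟨hm.1, h6⟩
    · exact h4' m ⟨by omega, hm.2⟩
  exact t1.frequently h3

end Pool.Agent.Q75.Sk
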