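import Pool.Agent.Q75.SkG

/-! Almost sure envelopes: infinitely many early long runs. -/

set_option autoImplicit false

namespace Pool.Agent.Q75.Sk

open MeasureTheory ProbabilityTheory Filter Topology Finset
open scoped ENNReal

variable {Ω : Type} [mΩ : MeasurableSpace Ω] {P : Measure Ω} {E : ℕ → Set Ω}

/-- the length that belongs to the scale `k` -/
noncomputable def Gk (k : ℕ) : ℕ := ⌈((k : ℝ) + 3 + 1 / 2 * Real.log (Real.log k)) ^ 2⌉₊

/-- the scales -/
noncomputable def bk (k : ℕ) : ℕ := ⌊Real.exp k⌋₊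

/-- the scale of `q` -/
noncomputable def blk (q : ℕ) : ℕ := ⌈Real.log ((q : ℝ) + 1)⌉₊ - 1

lemma bk_mono : Monotone bk := by
  intro i j h
  unfold bk
  apply Nat.floor_mono
  apply Real.exp_le_exp.mpr
  exact_mod_cast h

lemma blk_eq {k q : ℕ} (h1 : bk k ≤ q) (h2 : q < bk (k + 1)) : blk q = k := by
  unfold bk at h1 h2
  unfold blk
  have h3 : Real.exp k < q + 1 := by
    have := Nat.lt_floor_add_one (Real.exp k)
    have h4 : ((⌊Real.exp k⌋₊ : ℕ) : ℝ) ≤ q := by exact_mod_cast h1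
    linarith
  have h4 : (q : ℝ) + 1 ≤ Real.exp ((k : ℝ) + 1) := by
    have h5 : ((q + 1 : ℕ) : ℝ) ≤ ((⌊Real.exp ((k + 1 : ℕ) : ℝ)⌋₊ : ℕ) : ℝ) := by exact_mod_cast h2
    have h6 := Nat.floor_le (Real.exp_pos ((k + 1 : ℕ) : ℝ)).le
    push_cast at h5 h6
    linarith
  have hq : (0 : ℝ) < (q : ℝ) + 1 := by positivity
  have h5 : (k : ℝ) < Real.log ((q : ℝ) + 1) := by rwa [Real.lt_log_iff_exp_lt hq]
  have h6 : Real.log ((q : ℝ) + 1) ≤ ((k + 1 : ℕ) : ℝ) := by
    rw [Real.log_le_iff_le_exp hq]; push_cast; exact h4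
  have h7 : ⌈Real.log ((q : ℝ) + 1)⌉₊ ≤ k + 1 := Nat.ceil_le.mpr h6
  have h8 : k < ⌈Real.log ((q : ℝ) + 1)⌉₊ := Nat.lt_ceil.mpr h5
  omega

lemma blk_spec {q : ℕ} (h : 1 ≤ q) : bk (blk q) ≤ q ∧ q < bk (blk q + 1) := by
  -- choose k with bk k ≤ q < bk (k+1)
  have h0 : bk 0 ≤ q := by unfold bk; simp; exact h
  have h1 : ∃ n, q < bk n := by
    refine ⟨q + 1, ?_⟩
    unfold bk
    rw [← Nat.succ_le_iff]
    apply Nat.le_floor
    have := Real.add_one_le_exp ((q + 1 : ℕ) : ℝ)
    push_cast at this ⊢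
    linarith
  classical
  have h2 := Nat.find_spec h1
  have h3 : Nat.find h1 ≠ 0 := by
    intro h4
    rw [h4] at h2
    omega
  obtain ⟨k, hk⟩ := Nat.exists_eq_succ_of_ne_zero h3
  have h4 : bk k ≤ q := by
    by_contra hcon
    push Not at hcon
    have := Nat.find_min' h1 hcon
    omega
  rw [hk] at h2
  rw [blk_eq h4 h2]
  exact ⟨h4, h2⟩

lemma blk_tendsto : Tendsto blk atTop atTop := by
  rw [tendsto_atTop]
  intro k
  filter_upwards [eventually_ge_atTop (bk k), eventually_ge_atTop 1] with q hq h1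
  by_contra hcon
  push Not at hcon
  have h2 := (blk_spec h1).2
  have h3 : bk (blk q + 1) ≤ bk k := bk_mono (by omega)
  omega

lemma Gk_facts : ∀ᶠ k : ℕ in atTop,
    (k : ℝ) + 3 + 1 / 2 * Real.log (Real.log k) ≤ Real.sqrt (Gk k) ∧
    Real.sqrt (Gk k) ≤ (k : ℝ) + 4 + 1 / 2 * Real.log (Real.log k) ∧
    Real.sqrt (Gk k) ≤ 2 * k ∧
    Real.log (Real.log (Gk k : ℝ)) ≤ 2 + Real.log (Real.log k) ∧
    |(k : ℝ) + 1 - Real.sqrt (Gk k)| ≤ Real.log (Gk k) ∧
    Gk k ≤ bk k ∧ (1 : ℝ) ≤ k ∧ 1 ≤ Real.log k := by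
  have h1 := loglog_small (1 / 2) (by norm_num)
  have h2 := Real.isLittleO_log_id_atTop.def (show (0 : ℝ) < 1 / 10 by norm_num)
  have h3 := tendsto_natCast_atTop_atTop.eventually h2 (α := ℕ)
  have h4 : ∀ᶠ x : ℝ in atTop, 4 * x ^ 2 + 1 ≤ Real.exp x := by
    have h5 := (Real.tendsto_exp_div_pow_atTop 2).eventually_ge_atTop 5
    filter_upwards [h5, eventually_ge_atTop 1] with x hx hx1
    rw [le_div_iff₀ (by positivity)] at hx
    nlinarith
  have h5 := tendsto_natCast_atTop_atTop.eventually h4 (α := ℕ)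
  filter_upwards [h1, h3, h5, tendsto_log_nat.eventually_ge_atTop 10,
    tendsto_loglog_nat.eventually_ge_atTop 1, eventually_ge_atTop 100] with k k1 k2 k3 k4 k5 k6
  have hk : (100 : ℝ) ≤ k := by exact_mod_cast k6
  set a : ℝ := (k : ℝ) + 3 + 1 / 2 * Real.log (Real.log k) with ha
  set ll := Real.log (Real.log (k : ℝ)) with hll
  set l := Real.log (k : ℝ) with hl
  have k1' : ll ≤ l / 2 := by have := (abs_le.mp k1).2; linarith
  have k2' : l ≤ k / 10 := by
    simp only [Real.norm_eq_abs, id] at k2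
    rw [abs_of_nonneg (by linarith), abs_of_nonneg (by linarith)] at k2
    linarith
  have ha0 : 0 ≤ a := by rw [ha]; linarith
  have e1 : a ^ 2 ≤ (Gk k : ℝ) := Nat.le_ceil _
  have e2 : (Gk k : ℝ) < a ^ 2 + 1 := Nat.ceil_lt_add_one (by positivity)
  have e3 : a ≤ Real.sqrt (Gk k) := Real.le_sqrt_of_sq_le e1
  have e4 : Real.sqrt (Gk k) ≤ a + 1 := by
    rw [Real.sqrt_le_left (by linarith)]
    nlinarith
  have e5 : a + 1 ≤ 2 * k := by rw [ha]; linarith
  have e6 : (Gk k : ℝ) ≤ 4 * k ^ 2 := by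
    have : a ^ 2 + 1 ≤ (a + 1) ^ 2 := by nlinarith
    nlinarith
  have hGpos : (0 : ℝ) < Gk k := by
    have : 0 < a := by rw [ha]; linarith
    have : 0 < a ^ 2 := by positivity
    linarith
  have e7 : Real.log (Gk k : ℝ) ≤ 3 * l := by
    have h6 : Real.log (Gk k : ℝ) ≤ Real.log (4 * (k : ℝ) ^ 2) := Real.log_le_log hGpos e6
    rw [Real.log_mul (by norm_num) (by positivity), Real.log_pow] at h6
    have h7 : Real.log 4 ≤ 4 - 1 := Real.log_le_sub_one_of_pos (by norm_num)
    push_cast at h6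
    linarith
  have e8 : 2 * l ≤ Real.log (Gk k : ℝ) := by
    have h6 : Real.log ((k : ℝ) ^ 2) ≤ Real.log (Gk k : ℝ) := by
      apply Real.log_le_log (by positivity)
      have : (k : ℝ) ≤ a := by rw [ha]; linarith
      nlinarith
    rw [Real.log_pow] at h6
    push_cast at h6
    linarith
  refine ⟨e3, by linarith, by linarith, ?_, ?_, ?_, by linarith, by linarith⟩
  · have h6 : Real.log (Real.log (Gk k : ℝ)) ≤ Real.log (3 * l) :=
      Real.log_le_log (by linarith) e7
    rw [Real.log_mul (by norm_num) (by linarith)] at h6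
    have h7 : Real.log 3 ≤ 3 - 1 := Real.log_le_sub_one_of_pos (by norm_num)
    linarith
  · rw [abs_le]
    constructor <;> linarith
  · unfold bk
    apply Nat.le_floor
    have : a ^ 2 + 1 ≤ (a + 1) ^ 2 := by nlinarith
    linarith

/-- the sum over a block -/
lemma block_sum : ∀ᶠ k : ℕ in atTop,
    Real.exp (-12) / 272 * (1 / ((k : ℝ) * Real.log k)) ≤
      ∑ q ∈ Ico (bk k) (bk (k + 1)), pr pc (Gk k) q := by
  have t1 : Tendsto Gk atTop atTop := by
    refine tendsto_atTop.mpr fun n => ?_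
    filter_upwards [Gk_facts, eventually_ge_atTop n, tendsto_loglog_nat.eventually_ge_atTop 1]
      with k hk hn hll
    have h1 := hk.1
    have h2 : (k : ℝ) ≤ Real.sqrt (Gk k) := by linarith
    have h3 : (n : ℝ) ≤ k := by exact_mod_cast hn
    have h4 : (1 : ℝ) ≤ k := hk.2.2.2.2.2.2.1
    have h5 : Real.sqrt (Gk k) ^ 2 = Gk k := Real.sq_sqrt (by positivity)
    have : (n : ℝ) ≤ Gk k := by nlinarith
    exact_mod_cast this
  filter_upwards [Gk_facts, t1.eventually big_ev, tendsto_loglog_nat.eventually_ge_atTop 1]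
    with k hk hB hll
  obtain ⟨h1, h2, h3, -, h4, -, h5, h6⟩ := hk
  have h7 := run_lo hB h4
  set s := Real.sqrt (Gk k : ℝ) with hs
  have hspos : 0 < s := by linarith [hB.s100]
  have e1 : Xf (Gk k) ((k : ℝ) + 1 - s) = bk (k + 1) := by
    rw [Xf_eq hB]
    unfold bk
    congr 2
    push_cast; ring
  have e2 : Xf (Gk k) ((k : ℝ) + 1 - s - 1) = bk k := by
    rw [Xf_eq hB]
    unfold bk
    congr 2
    ring
  rw [e1, e2] at h7
  refine le_trans ?_ h7
  have hl : 0 < Real.log k := by linarith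
  have e3 : Real.exp (-8) / Real.log k ≤ Real.exp (2 * ((k : ℝ) + 1 - s)) := by
    calc Real.exp (-8) / Real.log k = Real.exp (-8 - Real.log (Real.log k)) := by
          rw [Real.exp_sub, Real.exp_log hl]
      _ ≤ _ := Real.exp_le_exp.mpr (by linarith)
  have e3' : Real.exp (-6) / Real.log k ≤ Real.exp (2 * ((k : ℝ) + 1 - s)) := by
    calc Real.exp (-6) / Real.log k = Real.exp (-6 - Real.log (Real.log k)) := by
          rw [Real.exp_sub, Real.exp_log hl]
      _ ≤ _ := Real.exp_le_exp.mpr (by linarith)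
  have e4 : Real.exp (-12) = Real.exp (-6) * Real.exp (-6) := by
    rw [← Real.exp_add]; norm_num
  calc Real.exp (-12) / 272 * (1 / ((k : ℝ) * Real.log k)) =
        Real.exp (-6) / 136 * (Real.exp (-6) / Real.log k) / (2 * k) := by
        rw [e4]; field_simp; norm_num
    _ ≤ Real.exp (-6) / 136 * Real.exp (2 * ((k : ℝ) + 1 - s)) / s := by
        have := Real.exp_pos (-6)
        gcongr

lemma not_summable_blk : ¬ Summable fun q : ℕ => pr pc (Gk (blk q)) q := by
  intro hsum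
  obtain ⟨K, hK⟩ := eventually_atTop.mp block_sum
  set f : ℕ → ℝ := fun q => pr pc (Gk (blk q)) q with hf
  have hf0 : ∀ q, 0 ≤ f q := fun q => pr_nonneg _ _
  have h1 : ∀ n, ∑ k ∈ Ico K (K + n), Real.exp (-12) / 272 * (1 / ((k : ℝ) * Real.log k)) ≤
      ∑' q, f q := by
    intro n
    have h2 : ∀ k ∈ Ico K (K + n), Real.exp (-12) / 272 * (1 / ((k : ℝ) * Real.log k)) ≤
        ∑ q ∈ Ico (bk k) (bk (k + 1)), f q := by
      intro k hk
      rw [mem_Ico] at hk
      refine (hK k hk.1).trans (le_of_eq ?_)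
      refine Finset.sum_congr rfl fun q hq => ?_
      rw [mem_Ico] at hq
      rw [hf]
      simp only
      rw [blk_eq hq.1 hq.2]
    refine (Finset.sum_le_sum h2).trans ?_
    have h3 : ∑ k ∈ Ico K (K + n), ∑ q ∈ Ico (bk k) (bk (k + 1)), f q =
        ∑ q ∈ Ico (bk K) (bk (K + n)), f q := by
      induction n with
      | zero => simp
      | succ n ih =>
        rw [← add_assoc, Finset.sum_Ico_succ_top (by omega), ih (fun k hk => h2 k (by
          rw [mem_Ico] at hk ⊢; omega)),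
          Finset.sum_Ico_consecutive _ (bk_mono (by omega)) (bk_mono (by omega))]
    rw [h3]
    exact hsum.sum_le_tsum _ fun q _ => hf0 q
  have h2 : Summable fun n : ℕ => Real.exp (-12) / 272 *
      (1 / (((n + K : ℕ) : ℝ) * Real.log ((n + K : ℕ) : ℝ))) := by
    refine summable_of_sum_range_le (c := ∑' q, f q) (fun n => ?_) fun n => ?_
    · have : 0 ≤ Real.log ((n + K : ℕ) : ℝ) := Real.log_natCast_nonneg _
      positivity
    · have h3 := h1 n
      rw [Finset.sum_Ico_eq_sum_range] at h3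
      simpa [add_comm] using h3
  have h3 : Summable fun n : ℕ => Real.exp (-12) / 272 * (1 / ((n : ℝ) * Real.log (n : ℝ))) :=
    (summable_nat_add_iff (f := fun n : ℕ => Real.exp (-12) / 272 *
      (1 / ((n : ℝ) * Real.log (n : ℝ)))) K).mp h2
  have h4 := h3.mul_left (272 / Real.exp (-12))
  refine bert_not (h4.congr fun n => ?_)
  have := Real.exp_pos (-12)
  field_simp

/-- the lower envelope is attained -/
lemma env_lo_io [IsProbabilityMeasure P] (hM : Mod P E pc) : ∀ᵐ ω ∂P, ∃ᶠ g : ℕ in atTop,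
      ω ∉ non (run E g) (g + 3) (Xf g (vv 0 (-(1 / 2)) g)) := by
  have hh : ∀ᶠ n : ℕ in atTop, Gk (blk n) + 3 ≤ n := by
    have h1 : ∀ᶠ k : ℕ in atTop, Gk k + 3 ≤ bk k := by
      have h2 : ∀ᶠ x : ℝ in atTop, 4 * x ^ 2 + 1 + 4 ≤ Real.exp x := by
        have h5 := (Real.tendsto_exp_div_pow_atTop 2).eventually_ge_atTop 9
        filter_upwards [h5, eventually_ge_atTop 1] with x hx hx1
        rw [le_div_iff₀ (by positivity)] at hx
        nlinarith
      filter_upwards [Gk_facts, tendsto_natCast_atTop_atTop.eventually h2 (α := ℕ)] with k hk h3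
      have h4 := hk.2.2.1
      have h5 : Real.sqrt (Gk k) ^ 2 = Gk k := Real.sq_sqrt (by positivity)
      have h6 : (Gk k : ℝ) ≤ 4 * k ^ 2 := by
        rw [← h5]
        have : 0 ≤ Real.sqrt (Gk k) := Real.sqrt_nonneg _
        nlinarith
      unfold bk
      apply Nat.le_floor
      push_cast
      linarith
    filter_upwards [blk_tendsto.eventually h1, eventually_ge_atTop 1] with n hn hn1
    have := (blk_spec hn1).1
    omega
  have h1 := io_run hM (fun q => Gk (blk q)) (hh.mono fun n hn => by omega) not_summable_blk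
  have t1 : Tendsto Gk atTop atTop := by
    refine tendsto_atTop.mpr fun n => ?_
    filter_upwards [Gk_facts, eventually_ge_atTop n, tendsto_loglog_nat.eventually_ge_atTop 1]
      with k hk hn hll
    have h1 := hk.1
    have h2 : (k : ℝ) ≤ Real.sqrt (Gk k) := by linarith
    have h3 : (n : ℝ) ≤ k := by exact_mod_cast hn
    have h4 : (1 : ℝ) ≤ k := hk.2.2.2.2.2.2.1
    have h5 : Real.sqrt (Gk k) ^ 2 = Gk k := Real.sq_sqrt (by positivity)
    have : (n : ℝ) ≤ Gk k := by nlinarith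
    exact_mod_cast this
  have t2 : Tendsto (fun q => Gk (blk q)) atTop atTop := t1.comp blk_tendsto
  filter_upwards [h1] with ω hω
  refine t2.frequently ?_
  refine (hω.and_eventually (hh.and ((blk_tendsto.eventually Gk_facts).and
    ((t2.eventually big_ev).and (eventually_ge_atTop 1))))).mono fun q hq => ?_
  obtain ⟨h2, h3, h4, hB, h5⟩ := hq
  obtain ⟨e1, e2, e3, e4, -⟩ := h4
  unfold non
  simp only [Set.mem_iInter, mem_Ico, Set.mem_compl_iff, not_forall, not_not]
  refine ⟨q, ⟨h3, ?_⟩, h2⟩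
  refine lt_of_lt_of_le (blk_spec h5).2 ?_
  rw [Xf_eq hB]
  unfold bk
  apply Nat.floor_mono
  apply Real.exp_le_exp.mpr
  unfold vv
  push_cast
  linarith

end Pool.Agent.Q75.Sk
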