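import Pool.Agent.Q75.SkH

/-! From the envelopes to limits superior and inferior. -/

set_option autoImplicit false

namespace Pool.Agent.Q75.Sk

open MeasureTheory ProbabilityTheory Filter Topology Finset
open scoped ENNReal

lemma limsup_eq_of {u : ℕ → ℝ} {a : ℝ} (h1 : ∀ ε : ℝ, 0 < ε → ∀ᶠ n in atTop, u n ≤ a + ε)
    (h2 : ∀ ε : ℝ, 0 < ε → ∃ᶠ n in atTop, a - ε ≤ u n) :
    limsup (fun n => ((u n : ℝ) : EReal)) atTop = ((a : ℝ) : EReal) := by
  apply le_antisymm
  · refine le_of_forall_gt_imp_ge_of_dense fun b hb => ?_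
    induction b with
    | bot => simp at hb
    | top => exact le_top
    | coe b =>
      have hb' : a < b := by exact_mod_cast hb
      refine limsup_le_of_le (h := ?_)
      filter_upwards [h1 (b - a) (by linarith)] with n hn
      exact_mod_cast (by linarith : u n ≤ b)
  · refine le_of_forall_lt_imp_le_of_dense fun b hb => ?_
    induction b with
    | top => simp at hb
    | bot => exact bot_le
    | coe b =>
      have hb' : b < a := by exact_mod_cast hb
      refine le_limsup_of_frequently_le' ?_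
      refine (h2 (a - b) (by linarith)).mono fun n hn => ?_
      exact_mod_cast (by linarith : b ≤ u n)

lemma liminf_eq_of {u : ℕ → ℝ} {a : ℝ} (h1 : ∀ ε : ℝ, 0 < ε → ∀ᶠ n in atTop, a - ε ≤ u n)
    (h2 : ∀ ε : ℝ, 0 < ε → ∃ᶠ n in atTop, u n ≤ a + ε) :
    liminf (fun n => ((u n : ℝ) : EReal)) atTop = ((a : ℝ) : EReal) := by
  apply le_antisymm
  · refine le_of_forall_gt_imp_ge_of_dense fun b hb => ?_
    induction b with
    | bot => simp at hb
    | top => exact le_top
    | coe b =>
      have hb' : a < b := by exact_mod_cast hb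
      refine liminf_le_of_frequently_le' ?_
      refine (h2 (b - a) (by linarith)).mono fun n hn => ?_
      exact_mod_cast (by linarith : u n ≤ b)
  · refine le_of_forall_lt_imp_le_of_dense fun b hb => ?_
    induction b with
    | top => simp at hb
    | bot => exact bot_le
    | coe b =>
      have hb' : b < a := by exact_mod_cast hb
      refine le_liminf_of_le (h := ?_)
      filter_upwards [h1 (a - b) (by linarith)] with n hn
      exact_mod_cast (by linarith : b ≤ u n)

/-- the conclusion for one function -/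
def Concl (c : ℝ) (F : ℕ → ℝ) : Prop :=
  Tendsto (fun g : ℕ => F g / Real.sqrt g) atTop (𝓝 1) ∧
  limsup (fun g : ℕ => (((F g - Real.sqrt g - c * Real.log g) / Real.log (Real.log g) : ℝ) :
    EReal)) atTop = ((1 / 2 : ℝ) : EReal) ∧
  liminf (fun g : ℕ => (((F g - Real.sqrt g) / Real.log (Real.log g) : ℝ) : EReal)) atTop =
    ((-1 / 2 : ℝ) : EReal)

lemma concl_of {c : ℝ} (hc0 : 0 ≤ c) (hc : c ≤ 1 / 2) {F : ℕ → ℝ}
    (hU : ∀ ε : ℝ, 0 < ε → ∀ᶠ g : ℕ in atTop, F g ≤ Real.sqrt g + vv c (1 / 2 + ε) g)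
    (hL : ∀ ε : ℝ, 0 < ε → ∀ᶠ g : ℕ in atTop, Real.sqrt g + vv 0 (-(1 / 2 + ε)) g - 2 ≤ F g)
    (hUI : ∀ ε : ℝ, 0 < ε → ε ≤ 1 / 2 → ∃ᶠ g : ℕ in atTop,
      Real.sqrt g + vv c (1 / 2 - ε) g - 1 ≤ F g)
    (hLI : ∃ᶠ g : ℕ in atTop, F g ≤ Real.sqrt g + vv 0 (-(1 / 2)) g) : Concl c F := by
  have hs : Tendsto (fun g : ℕ => Real.sqrt (g : ℝ)) atTop atTop :=
    Real.tendsto_sqrt_atTop.comp tendsto_natCast_atTop_atTop
  refine ⟨?_, ?_, ?_⟩
  · -- limit 1
    have h1 : Tendsto (fun g : ℕ => Real.log (g : ℝ) / Real.sqrt g) atTop (𝓝 0) := by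
      have h2 := (isLittleO_log_rpow_atTop (show (0 : ℝ) < 1 / 2 by norm_num)).tendsto_div_nhds_zero
      refine (h2.comp tendsto_natCast_atTop_atTop).congr fun g => ?_
      simp only [Function.comp]
      rw [Real.sqrt_eq_rpow]
    have h2 : Tendsto (fun g : ℕ => 1 + 3 * (Real.log (g : ℝ) / Real.sqrt g)) atTop (𝓝 1) := by
      have := (h1.const_mul 3).const_add 1
      simpa using this
    have h3 : Tendsto (fun g : ℕ => 1 - 3 * (Real.log (g : ℝ) / Real.sqrt g)) atTop (𝓝 1) := by
      have := (h1.const_mul 3).const_sub 1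
      simpa using this
    refine tendsto_of_tendsto_of_tendsto_of_le_of_le' h3 h2 ?_ ?_
    · filter_upwards [hL 1 one_pos, vv_small (c := 0) (d := -(1 / 2 + 1)) le_rfl (by norm_num),
        tendsto_log_nat.eventually_ge_atTop 1, hs.eventually_gt_atTop 0] with g h4 h5 h6 h7
      have h8 := (abs_le.mp h5).1
      rw [le_div_iff₀ h7]
      have : (1 - 3 * (Real.log (g : ℝ) / Real.sqrt g)) * Real.sqrt g =
          Real.sqrt g - 3 * Real.log g := by field_simp
      rw [this]
      linarith
    · filter_upwards [hU 1 one_pos, vv_small (c := c) (d := 1 / 2 + 1) hc0 hc,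
        tendsto_log_nat.eventually_ge_atTop 1, hs.eventually_gt_atTop 0] with g h4 h5 h6 h7
      have h8 := (abs_le.mp h5).2
      rw [div_le_iff₀ h7]
      have : (1 + 3 * (Real.log (g : ℝ) / Real.sqrt g)) * Real.sqrt g =
          Real.sqrt g + 3 * Real.log g := by field_simp
      rw [this]
      linarith
  · refine limsup_eq_of (fun ε hε => ?_) fun ε hε => ?_
    · filter_upwards [hU ε hε, tendsto_loglog_nat.eventually_gt_atTop 0] with g h4 h5
      rw [div_le_iff₀ h5]
      unfold vv at h4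
      linarith
    · have h6 := hUI (min (ε / 2) (1 / 2)) (by positivity) (min_le_right _ _)
      have h7 : ∀ᶠ g : ℕ in atTop, 2 / ε ≤ Real.log (Real.log (g : ℝ)) :=
        tendsto_loglog_nat.eventually_ge_atTop _
      refine (h6.and_eventually h7).mono fun g hg => ?_
      obtain ⟨h8, h9⟩ := hg
      have h10 : 0 < Real.log (Real.log (g : ℝ)) := lt_of_lt_of_le (by positivity) h9
      rw [le_div_iff₀ h10]
      rw [div_le_iff₀ hε] at h9
      unfold vv at h8
      have h11 : min (ε / 2) (1 / 2) * Real.log (Real.log (g : ℝ)) ≤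
          ε / 2 * Real.log (Real.log (g : ℝ)) :=
        mul_le_mul_of_nonneg_right (min_le_left _ _) h10.le
      nlinarith
  · refine liminf_eq_of (fun ε hε => ?_) fun ε hε => ?_
    · have h7 : ∀ᶠ g : ℕ in atTop, 4 / ε ≤ Real.log (Real.log (g : ℝ)) :=
        tendsto_loglog_nat.eventually_ge_atTop _
      filter_upwards [hL (ε / 2) (by positivity), h7] with g h4 h9
      have h10 : 0 < Real.log (Real.log (g : ℝ)) := lt_of_lt_of_le (by positivity) h9
      rw [le_div_iff₀ h10]
      rw [div_le_iff₀ hε] at h9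
      unfold vv at h4
      nlinarith
    · refine (hLI.and_eventually (tendsto_loglog_nat.eventually_gt_atTop 0)).mono fun g hg => ?_
      obtain ⟨h8, h9⟩ := hg
      rw [div_le_iff₀ h9]
      unfold vv at h8
      nlinarith

/-! ### bounds for the logarithm -/

lemma log_lower {g : ℕ} {v : ℝ} (hB : Big g (Real.sqrt g)) (hv : |v| ≤ Real.log g) {m : ℕ}
    (hm : Xf g v ≤ m + g) : Real.sqrt g + v - 1 ≤ Real.log m := by
  have hs := hB.s100
  have hv2 := abs_le.mp (hB.v hv)
  have h1 := (Xf_big hB (v := v) (by linarith)).1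
  refine (Xf_sub hB (v := v) (by linarith)).trans ?_
  apply Real.log_le_log
  · exact_mod_cast (by omega : 0 < Xf g v - g)
  · exact_mod_cast (by omega : Xf g v - g ≤ m)

lemma log_upper {g : ℕ} {v : ℝ} (hB : Big g (Real.sqrt g)) {m : ℕ} (h0 : 1 ≤ m)
    (hm : m ≤ Xf g v) : Real.log m ≤ Real.sqrt g + v := by
  have h1 := Xf_le hB v
  have h2 : (m : ℝ) ≤ Xf g v := by exact_mod_cast hm
  have h3 : (0 : ℝ) < m := by exact_mod_cast h0
  rw [Real.log_le_iff_le_exp h3]
  linarith

/-- `√x - (1/2) log log x` is increasing -/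
lemma sqrt_ll_mono {g g' : ℕ} (h : g ≤ g') (h1 : 1 ≤ Real.log (g : ℝ)) (hg : 1 ≤ g) :
    Real.sqrt g + vv 0 (-(1 / 2)) g ≤ Real.sqrt g' + vv 0 (-(1 / 2)) g' := by
  unfold vv
  have hg0 : (0 : ℝ) < g := by exact_mod_cast hg
  have hg1 : (1 : ℝ) ≤ g := by exact_mod_cast hg
  have hgg : (g : ℝ) ≤ g' := by exact_mod_cast h
  have hs0 : 1 ≤ Real.sqrt g := Real.one_le_sqrt.mpr hg1
  have hs1 : Real.sqrt g ≤ Real.sqrt g' := Real.sqrt_le_sqrt hgg
  have hl : Real.log (g : ℝ) ≤ Real.log g' := Real.log_le_log hg0 hgg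
  -- loglog difference
  have e1 : Real.log (Real.log (g' : ℝ)) - Real.log (Real.log g) ≤ Real.log g' - Real.log g := by
    rw [← Real.log_div (by linarith) (by linarith)]
    have h2 := Real.log_le_sub_one_of_pos (x := Real.log (g' : ℝ) / Real.log g)
      (div_pos (by linarith) (by linarith))
    have h3 : Real.log (g' : ℝ) / Real.log g - 1 = (Real.log g' - Real.log g) / Real.log g := by
      have : Real.log (g : ℝ) ≠ 0 := by linarith
      field_simp
    have h4 : (Real.log (g' : ℝ) - Real.log g) / Real.log g ≤ Real.log g' - Real.log g := by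
      rw [div_le_iff₀ (by linarith)]
      nlinarith
    linarith
  have e2 : Real.log (g' : ℝ) - Real.log g ≤ 2 * (Real.sqrt g' - Real.sqrt g) := by
    have h2 : Real.log (g' : ℝ) - Real.log g = 2 * Real.log (Real.sqrt g' / Real.sqrt g) := by
      rw [Real.log_div (by linarith) (by linarith), Real.log_sqrt (by linarith),
        Real.log_sqrt (by linarith)]
      ring
    rw [h2]
    have h3 := Real.log_le_sub_one_of_pos (x := Real.sqrt g' / Real.sqrt g)
      (div_pos (by linarith) (by linarith))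
    have h4 : Real.sqrt g' / Real.sqrt g - 1 = (Real.sqrt g' - Real.sqrt g) / Real.sqrt g := by
      have : Real.sqrt g ≠ 0 := by linarith
      field_simp
    have h5 : (Real.sqrt g' - Real.sqrt g) / Real.sqrt g ≤ Real.sqrt g' - Real.sqrt g := by
      rw [div_le_iff₀ (by linarith)]
      nlinarith
    linarith
  linarith

end Pool.Agent.Q75.Sk
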