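import Pool.Agent.H218R3.Sd4

set_option autoImplicit false
set_option linter.unusedVariables false

open Complex Filter Topology

namespace Pool.Agent.Q75.Sn

open Pool.Agent.H218R3.Sd

/-- data of a polynomial `(ζ - a) ∏ (ζ - z j)` all of whose critical points have distance at least
`ρ` from `a` -/
structure DD (a ρ : ℝ) (N : ℕ) (z w : Fin N → ℂ) : Prop where
  hz : ∀ j, ‖z j‖ ≤ 1
  hw : ∀ k, ‖w k‖ ≤ 1
  hwa : ∀ k, ρ ≤ ‖(a : ℂ) - w k‖
  hder : ∀ ζ : ℂ, HasDerivAt (fun ζ : ℂ => (ζ - a) * ∏ j, (ζ - z j))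
    ((N + 1 : ℂ) * ∏ k, (ζ - w k)) ζ

variable {a ρ : ℝ} {N : ℕ} {z w : Fin N → ℂ}

lemma DD.hd (h : DD a ρ N z w) (ζ : ℂ) : HasDerivAt (pp a z) (dp w ζ) ζ := h.hder ζ

lemma norm_dp (w : Fin N → ℂ) (ζ : ℂ) : ‖dp w ζ‖ = (N + 1) * ∏ k, ‖ζ - w k‖ := by
  unfold dp
  rw [norm_mul, norm_prod]
  congr 1
  have : ((N : ℂ) + 1) = ((N + 1 : ℝ) : ℂ) := by push_cast; rfl
  rw [this, Complex.norm_real, Real.norm_of_nonneg (by positivity)]

lemma DD.A_eq (_ : DD a ρ N z w) : A a w = (N + 1) * ∏ k, ‖(a : ℂ) - w k‖ := by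
  unfold A
  exact norm_dp w a

lemma DD.A_pos (h : DD a ρ N z w) (hρ : 0 < ρ) : 0 < A a w := by
  rw [h.A_eq]
  have : 0 < ∏ k, ‖(a : ℂ) - w k‖ := Finset.prod_pos (fun k _ => lt_of_lt_of_le hρ (h.hwa k))
  positivity

lemma DD.logA_ge (h : DD a ρ N z w) (hρ : 0 < ρ) : N * Real.log ρ ≤ Real.log (A a w) := by
  rw [h.A_eq]
  have h1 : ρ ^ N ≤ ∏ k, ‖(a : ℂ) - w k‖ := by
    have := Finset.prod_le_prod (s := (Finset.univ : Finset (Fin N))) (f := fun _ => ρ)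
      (g := fun k => ‖(a : ℂ) - w k‖) (fun _ _ => hρ.le) (fun k _ => h.hwa k)
    simpa using this
  have h2 : N * Real.log ρ = Real.log (ρ ^ N) := by
    rw [Real.log_pow]
  rw [h2]
  apply Real.log_le_log (by positivity)
  have h3 : 0 < ρ ^ N := by positivity
  have h4 : (0 : ℝ) ≤ N := Nat.cast_nonneg N
  nlinarith

lemma sqn (u : ℂ) : ‖u‖ ^ 2 = u.re ^ 2 + u.im ^ 2 := by
  rw [Complex.sq_norm, Complex.normSq_apply]
  ring

lemma re_le_of {a ρ : ℝ} (ha : 0 < a) (hρ : 0 < ρ) {w : ℂ} (hw : ‖w‖ ≤ 1) (hwa : ρ ≤ ‖(a : ℂ) - w‖) :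
    2 * a * w.re ≤ 1 + a ^ 2 - ρ ^ 2 := by
  have h1 : ρ ^ 2 ≤ ‖(a : ℂ) - w‖ ^ 2 := by gcongr
  have h2 : ‖w‖ ^ 2 ≤ 1 := by
    have := norm_nonneg w
    nlinarith
  rw [sqn] at h1 h2
  simp only [Complex.sub_re, Complex.ofReal_re, Complex.sub_im, Complex.ofReal_im] at h1
  nlinarith

/-- the key bound for one factor -/
lemma factor_le {a ρ b x : ℝ} (ha : 0 < a) (ha1 : a < 1) (hρ : 2 / 3 ≤ ρ)
    (hρb : 1 - ρ ^ 2 ≤ a * b / 2) (hbx : b ≤ x) (hb : 0 < b) (hxa : x ≤ a) {w : ℂ}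
    (hw : ‖w‖ ≤ 1) (hwa : ρ ≤ ‖(a : ℂ) - w‖) (ξ : ℂ) :
    ‖(x : ℂ) + ξ - w‖ ≤ ‖(a : ℂ) - w‖ * Real.exp (-(x * (a - x)) / 16 + 3 * ‖ξ‖) := by
  have hre := re_le_of ha (by linarith) hw hwa
  have hs2 : ‖(a : ℂ) - w‖ ≤ 2 := by
    have := norm_sub_le (a : ℂ) w
    rw [Complex.norm_real, Real.norm_of_nonneg ha.le] at this
    linarith
  set s : ℝ := ‖(a : ℂ) - w‖ with hs
  have hs0 : 0 < s := by linarith
  have hx0 : 0 < x := by linarith
  have h1 : ‖(x : ℂ) - w‖ ^ 2 ≤ s ^ 2 - (a - x) * x / 2 := by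
    have e1 : ‖(x : ℂ) - w‖ ^ 2 = s ^ 2 - 2 * (a - x) * (a - w.re) + (a - x) ^ 2 := by
      rw [hs, sqn, sqn]
      simp only [Complex.sub_re, Complex.ofReal_re, Complex.sub_im, Complex.ofReal_im]
      ring
    rw [e1]
    have h2 : a * x / 2 ≤ a * (2 * (a - w.re) - (a - x)) := by
      have : a * b ≤ a * x := by gcongr
      nlinarith
    have h3 : x / 2 ≤ 2 * (a - w.re) - (a - x) := by
      have : a * (x / 2) ≤ a * (2 * (a - w.re) - (a - x)) := by linarith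
      exact le_of_mul_le_mul_left this ha
    have h4 : 0 ≤ a - x := by linarith
    nlinarith [mul_le_mul_of_nonneg_left h3 h4]
  have hax : 0 ≤ (a - x) * x := mul_nonneg (by linarith) hx0.le
  have hax1 : (a - x) * x ≤ 1 := by nlinarith
  have h2 : ‖(x : ℂ) - w‖ ^ 2 ≤ s ^ 2 * Real.exp (-(x * (a - x)) / 8) := by
    have h3 : s ^ 2 - (a - x) * x / 2 ≤ s ^ 2 * (1 - (x * (a - x)) / 8) := by
      have : s ^ 2 ≤ 4 := by nlinarith
      nlinarith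
    have h4 : 1 - (x * (a - x)) / 8 ≤ Real.exp (-(x * (a - x)) / 8) := by
      have := Real.add_one_le_exp (-(x * (a - x)) / 8)
      linarith
    calc _ ≤ _ := h1
      _ ≤ _ := h3
      _ ≤ _ := by gcongr
  set E : ℝ := Real.exp (-(x * (a - x)) / 16) with hE
  have hE2 : Real.exp (-(x * (a - x)) / 8) = E ^ 2 := by
    rw [hE, ← Real.exp_nat_mul]
    congr 1
    push_cast
    ring
  have hE0 : 0 < E := Real.exp_pos _
  have hE1 : 1 / 2 ≤ E := by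
    have := Real.add_one_le_exp (-(x * (a - x)) / 16)
    rw [hE]
    linarith
  have h3 : ‖(x : ℂ) - w‖ ≤ s * E := by
    rw [hE2, ← mul_pow] at h2
    exact (pow_le_pow_iff_left₀ (norm_nonneg _) (by positivity) two_ne_zero).mp h2
  have h4 : ‖(x : ℂ) + ξ - w‖ ≤ s * E + ‖ξ‖ := by
    have e : (x : ℂ) + ξ - w = ((x : ℂ) - w) + ξ := by ring
    rw [e]
    exact (norm_add_le _ _).trans (by linarith)
  have h5 : ‖ξ‖ ≤ s * E * (3 * ‖ξ‖) := by
    have h6 : 1 / 3 ≤ s * E := by nlinarith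
    have h7 := norm_nonneg ξ
    nlinarith
  rw [Real.exp_add, ← hE]
  have h6 := Real.add_one_le_exp (3 * ‖ξ‖)
  calc _ ≤ _ := h4
    _ ≤ s * E * (3 * ‖ξ‖ + 1) := by linarith
    _ ≤ s * E * Real.exp (3 * ‖ξ‖) := by gcongr
    _ = _ := by ring

lemma DD.dp_le (h : DD a ρ N z w) (ha : 0 < a) (ha1 : a < 1) (hρ : 2 / 3 ≤ ρ) {b x : ℝ}
    (hρb : 1 - ρ ^ 2 ≤ a * b / 2) (hbx : b ≤ x) (hb : 0 < b) (hxa : x ≤ a) (ξ : ℂ) :
    ‖dp w ((x : ℂ) + ξ)‖ ≤ A a w * Real.exp (N * (-(x * (a - x)) / 16 + 3 * ‖ξ‖)) := by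
  rw [norm_dp, h.A_eq, mul_assoc]
  refine mul_le_mul_of_nonneg_left ?_ (by positivity)
  calc ∏ k, ‖(x : ℂ) + ξ - w k‖
      ≤ ∏ k, (‖(a : ℂ) - w k‖ * Real.exp (-(x * (a - x)) / 16 + 3 * ‖ξ‖)) :=
        Finset.prod_le_prod (fun k _ => norm_nonneg _) (fun k _ =>
          factor_le ha ha1 hρ hρb hbx hb hxa (h.hw k) (h.hwa k) ξ)
    _ = _ := by
        rw [Finset.prod_mul_distrib, Finset.prod_const, Finset.card_univ, Fintype.card_fin,
          ← Real.exp_nat_mul]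

lemma DD.dp_le_real (h : DD a ρ N z w) (ha : 0 < a) (ha1 : a < 1) (hρ : 2 / 3 ≤ ρ) {b x : ℝ}
    (hρb : 1 - ρ ^ 2 ≤ a * b / 2) (hbx : b ≤ x) (hb : 0 < b) (hxa : x ≤ a) :
    ‖dp w (x : ℂ)‖ ≤ A a w * Real.exp (-(N * (x * (a - x) / 16))) := by
  have h1 := h.dp_le ha ha1 hρ hρb hbx hb hxa 0
  rw [add_zero, norm_zero] at h1
  refine h1.trans (le_of_eq ?_)
  congr 2
  ring

lemma DD.dp_le_A (h : DD a ρ N z w) (ha : 0 < a) (ha1 : a < 1) (hρ : 2 / 3 ≤ ρ) {b x : ℝ}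
    (hρb : 1 - ρ ^ 2 ≤ a * b / 2) (hbx : b ≤ x) (hb : 0 < b) (hxa : x ≤ a) :
    ‖dp w (x : ℂ)‖ ≤ A a w := by
  have h1 := h.dp_le_real ha ha1 hρ hρb hbx hb hxa
  have hA := h.A_pos (by linarith)
  refine h1.trans ?_
  have h2 : Real.exp (-(N * (x * (a - x) / 16))) ≤ 1 := by
    rw [Real.exp_le_one_iff]
    have : 0 ≤ x * (a - x) := mul_nonneg (by linarith) (by linarith)
    have h3 : (0 : ℝ) ≤ N := Nat.cast_nonneg N
    have : 0 ≤ (N : ℝ) * (x * (a - x) / 16) := by positivity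
    linarith
  nlinarith

/-! ### the lower bound at `c = 3a/4` -/

noncomputable def SS (w : Fin N → ℂ) (x : ℝ) : ℂ := ∑ k, ((x : ℂ) - w k)⁻¹
noncomputable def SS' (w : Fin N → ℂ) (x : ℝ) : ℂ := ∑ k, -(((x : ℂ) - w k) ^ 2)⁻¹

lemma DD.re_ge (h : DD a ρ N z w) (ha : 0 < a) (hρ : 2 / 3 ≤ ρ)
    (hρc : 1 - ρ ^ 2 ≤ a ^ 2 / 4) {x : ℝ} (hx : 3 * a / 4 ≤ x) (k : Fin N) :
    a / 8 ≤ x - (w k).re := by
  have hre := re_le_of ha (by linarith) (h.hw k) (h.hwa k)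
  have : 2 * a * (w k).re ≤ 2 * a * (5 * a / 8) := by nlinarith
  have := le_of_mul_le_mul_left this (by positivity)
  linarith

lemma DD.ne (h : DD a ρ N z w) (ha : 0 < a) (hρ : 2 / 3 ≤ ρ)
    (hρc : 1 - ρ ^ 2 ≤ a ^ 2 / 4) {x : ℝ} (hx : 3 * a / 4 ≤ x) (k : Fin N) :
    (x : ℂ) - w k ≠ 0 := by
  intro hc
  have h1 := h.re_ge ha hρ hρc hx k
  have h2 : ((x : ℂ) - w k).re = 0 := by rw [hc]; rfl
  simp only [Complex.sub_re, Complex.ofReal_re] at h2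
  linarith

lemma DD.SS_re (h : DD a ρ N z w) (ha : 0 < a) (hρ : 2 / 3 ≤ ρ)
    (hρc : 1 - ρ ^ 2 ≤ a ^ 2 / 4) {x : ℝ} (hx : 3 * a / 4 ≤ x) :
    a / 8 * ∑ k, (‖(x : ℂ) - w k‖ ^ 2)⁻¹ ≤ (SS w x).re := by
  unfold SS
  rw [Complex.re_sum, Finset.mul_sum]
  apply Finset.sum_le_sum
  intro k _
  rw [Complex.inv_re, ← Complex.sq_norm, div_eq_mul_inv]
  have h1 := h.re_ge ha hρ hρc hx k
  have e : ((x : ℂ) - w k).re = x - (w k).re := by simp
  rw [e]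
  exact mul_le_mul_of_nonneg_right h1 (by positivity)

lemma DD.sum_ge (h : DD a ρ N z w) (ha : 0 < a) (ha1 : a < 1) (hρ : 2 / 3 ≤ ρ)
    (hρc : 1 - ρ ^ 2 ≤ a ^ 2 / 4) {x : ℝ} (hx : 3 * a / 4 ≤ x) (hxa : x ≤ a) :
    (N : ℝ) / 4 ≤ ∑ k, (‖(x : ℂ) - w k‖ ^ 2)⁻¹ := by
  have : ∑ k : Fin N, (1 / 4 : ℝ) ≤ ∑ k, (‖(x : ℂ) - w k‖ ^ 2)⁻¹ := by
    apply Finset.sum_le_sum
    intro k _
    have h1 : ‖(x : ℂ) - w k‖ ≤ 2 := by
      have := norm_sub_le (x : ℂ) (w k)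
      rw [Complex.norm_real, Real.norm_of_nonneg (by linarith)] at this
      have := h.hw k
      linarith
    have h2 : 0 < ‖(x : ℂ) - w k‖ := norm_pos_iff.mpr (h.ne ha hρ hρc hx k)
    rw [one_div]
    apply inv_anti₀ (by positivity)
    nlinarith
  simp only [Finset.sum_const, Finset.card_univ, Fintype.card_fin, nsmul_eq_mul] at this
  linarith

lemma DD.SS_norm_ge (h : DD a ρ N z w) (ha : 0 < a) (ha1 : a < 1) (hρ : 2 / 3 ≤ ρ)
    (hρc : 1 - ρ ^ 2 ≤ a ^ 2 / 4) {x : ℝ} (hx : 3 * a / 4 ≤ x) (hxa : x ≤ a) :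
    a * N / 32 ≤ ‖SS w x‖ := by
  have h1 := h.SS_re ha hρ hρc hx
  have h2 := h.sum_ge ha ha1 hρ hρc hx hxa
  have h3 := Complex.re_le_norm (SS w x)
  nlinarith

lemma DD.SS'_norm_le (h : DD a ρ N z w) (ha : 0 < a) (hρ : 2 / 3 ≤ ρ)
    (hρc : 1 - ρ ^ 2 ≤ a ^ 2 / 4) {x : ℝ} (hx : 3 * a / 4 ≤ x) :
    ‖SS' w x‖ ≤ 8 / a * ‖SS w x‖ := by
  have h1 := h.SS_re ha hρ hρc hx
  have h3 := Complex.re_le_norm (SS w x)
  have h2 : ‖SS' w x‖ ≤ ∑ k, (‖(x : ℂ) - w k‖ ^ 2)⁻¹ := by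
    unfold SS'
    refine (norm_sum_le _ _).trans (le_of_eq ?_)
    apply Finset.sum_congr rfl
    intro k _
    rw [norm_neg, norm_inv, norm_pow]
  refine h2.trans ?_
  rw [div_mul_eq_mul_div, le_div_iff₀ ha]
  linarith

lemma dp_hasDeriv (w : Fin N → ℂ) {ζ : ℂ} (hne : ∀ k, ζ - w k ≠ 0) :
    HasDerivAt (dp w) (dp w ζ * ∑ k, (ζ - w k)⁻¹) ζ := by
  have h1 : HasDerivAt (fun ζ : ℂ => ∏ j, (ζ - w j)) (∑ i, (∏ j ∈ Finset.univ.erase i, (ζ - w j)) • (1 : ℂ)) ζ := by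
    have := HasDerivAt.fun_finsetProd (u := (Finset.univ : Finset (Fin N)))
      (f := fun j ζ => ζ - w j) (f' := fun _ => (1 : ℂ)) (x := ζ)
      (fun i _ => (hasDerivAt_id ζ).sub_const (w i))
    simpa using this
  have h2 := h1.const_mul ((N : ℂ) + 1)
  have h4 : ∀ i ∈ (Finset.univ : Finset (Fin N)), (∏ j ∈ Finset.univ.erase i, (ζ - w j)) • (1 : ℂ)
      = (∏ j, (ζ - w j)) * (ζ - w i)⁻¹ := by
    intro i _
    have hi := hne i
    rw [← Finset.mul_prod_erase Finset.univ (fun j => ζ - w j) (Finset.mem_univ i)]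
    simp only [smul_eq_mul, mul_one]
    field_simp
  rw [Finset.sum_congr rfl h4, ← Finset.mul_sum, ← mul_assoc] at h2
  exact h2

lemma SS_hasDeriv (w : Fin N → ℂ) {x : ℝ} (hne : ∀ k, (x : ℂ) - w k ≠ 0) :
    HasDerivAt (SS w) (SS' w x) x := by
  unfold SS SS'
  apply HasDerivAt.fun_sum
  intro k _
  have h1 : HasDerivAt (fun x : ℝ => (x : ℂ) - w k) 1 x := (Complex.ofRealCLM.hasDerivAt).sub_const _
  have h2 := h1.inv (hne k)
  refine h2.congr_deriv ?_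
  rw [neg_div, one_div]

noncomputable def Hf (a : ℝ) (z w : Fin N → ℂ) (x : ℝ) : ℂ :=
  pp a z (x : ℂ) - dp w (x : ℂ) / SS w x

lemma DD.Hf_deriv (h : DD a ρ N z w) {x : ℝ} (hne : ∀ k, (x : ℂ) - w k ≠ 0) (hS : SS w x ≠ 0) :
    HasDerivAt (Hf a z w) (dp w (x : ℂ) * SS' w x / (SS w x) ^ 2) x := by
  have h1 : HasDerivAt (fun x : ℝ => pp a z (x : ℂ)) (dp w (x : ℂ)) x := (h.hd (x : ℂ)).comp_ofReal
  have h2 : HasDerivAt (fun x : ℝ => dp w (x : ℂ)) (dp w (x : ℂ) * SS w x) x :=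
    (dp_hasDeriv w hne).comp_ofReal
  have h3 := SS_hasDeriv w hne
  have h4 := h1.sub (h2.div h3 hS)
  unfold Hf
  refine h4.congr_deriv ?_
  field_simp
  ring

lemma pp_self' (a : ℝ) (z : Fin N → ℂ) : pp a z (a : ℂ) = 0 := by
  unfold pp
  simp

/-- the explicit lower bound -/
lemma DD.lower (h : DD a ρ N z w) (ha : 0 < a) (ha1 : a < 1) (hρ : 2 / 3 ≤ ρ)
    (hρc : 1 - ρ ^ 2 ≤ a ^ 2 / 4) (hN : 0 < N) :
    2 / 3 * A a w ≤ N * ‖pp a z ((3 * a / 4 : ℝ) : ℂ)‖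
      + 32 / a * (A a w * Real.exp (-(N * (3 * a ^ 2 / 256))))
      + 16384 / (3 * a ^ 3 * N) * A a w := by
  have hN' : (0 : ℝ) < N := by exact_mod_cast hN
  have hA := h.A_pos (by linarith)
  set c : ℝ := 3 * a / 4 with hc
  have hca : c ≤ a := by rw [hc]; linarith
  have hc0 : 0 < c := by positivity
  have hρb : 1 - ρ ^ 2 ≤ a * c / 2 := by
    rw [hc]; nlinarith
  have hS : ∀ x ∈ Set.Icc c a, SS w x ≠ 0 := by
    intro x hx
    have h1 := h.SS_norm_ge ha ha1 hρ hρc hx.1 hx.2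
    have : 0 < a * N / 32 := by positivity
    exact norm_pos_iff.mp (by linarith)
  have hder : ∀ x ∈ Set.Icc c a, HasDerivAt (Hf a z w) (dp w (x : ℂ) * SS' w x / (SS w x) ^ 2) x :=
    fun x hx => h.Hf_deriv (fun k => h.ne ha hρ hρc hx.1 k) (hS x hx)
  set κ : ℝ := 3 * a * N / 64 with hκ
  have hκ0 : 0 < κ := by positivity
  set M : ℝ := 256 / (a ^ 2 * N) * A a w with hM
  have hM0 : 0 < M := by positivity
  have hbound : ∀ x ∈ Set.Ico c a, ‖dp w (x : ℂ) * SS' w x / (SS w x) ^ 2‖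
      ≤ M * Real.exp (κ * (x - a)) := by
    intro x hx
    have h1 := h.SS_norm_ge ha ha1 hρ hρc hx.1 hx.2.le
    have h2 := h.SS'_norm_le ha hρ hρc hx.1
    have h3 := h.dp_le_real ha ha1 hρ hρb hx.1 hc0 hx.2.le
    have h4 : Real.exp (-(N * (x * (a - x) / 16))) ≤ Real.exp (κ * (x - a)) := by
      apply Real.exp_le_exp.mpr
      rw [hκ]
      have h5 : c * (a - x) ≤ x * (a - x) := by
        have : 0 ≤ a - x := by linarith [hx.2]
        gcongr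
        exact hx.1
      have h6 : N * (c * (a - x)) ≤ N * (x * (a - x)) := by gcongr
      rw [hc] at h6
      linarith
    have hSp : 0 < a * N / 32 := by positivity
    have hSp2 : 0 < ‖SS w x‖ := by linarith
    rw [norm_div, norm_mul, norm_pow]
    have h5 : ‖dp w (x : ℂ)‖ * ‖SS' w x‖ / ‖SS w x‖ ^ 2 ≤
        (A a w * Real.exp (κ * (x - a))) * (8 / a * ‖SS w x‖) / ‖SS w x‖ ^ 2 := by
      gcongr
      exact h3.trans (by gcongr)
    refine h5.trans ?_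
    have h6 : (A a w * Real.exp (κ * (x - a))) * (8 / a * ‖SS w x‖) / ‖SS w x‖ ^ 2
        = (A a w * Real.exp (κ * (x - a))) * (8 / a) * ‖SS w x‖⁻¹ := by
      field_simp
    rw [h6]
    have h7 : ‖SS w x‖⁻¹ ≤ (a * N / 32)⁻¹ := inv_anti₀ hSp h1
    calc _ ≤ (A a w * Real.exp (κ * (x - a))) * (8 / a) * (a * N / 32)⁻¹ := by gcongr
      _ = _ := by
        rw [hM]
        field_simp
        ring
  -- integrate
  have hint := image_norm_le_of_norm_deriv_right_le_deriv_boundary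
    (f := fun x => Hf a z w x - Hf a z w c) (a := c) (b := a)
    (f' := fun x => dp w (x : ℂ) * SS' w x / (SS w x) ^ 2)
    (fun x hx => ((hder x hx).continuousAt.sub continuousAt_const).continuousWithinAt)
    (fun x hx => ((hder x ⟨hx.1, hx.2.le⟩).sub_const _).hasDerivWithinAt)
    (B := fun x => M / κ * (Real.exp (κ * (x - a)) - Real.exp (κ * (c - a))))
    (B' := fun x => M * Real.exp (κ * (x - a)))
    (by simp)
    (fun x => by
      have h1 : HasDerivAt (fun x : ℝ => κ * (x - a)) κ x := by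
        simpa using ((hasDerivAt_id x).sub_const a).const_mul κ
      have h2 := ((h1.exp).sub_const (Real.exp (κ * (c - a)))).const_mul (M / κ)
      refine h2.congr_deriv ?_
      field_simp)
    hbound (x := a) ⟨hca, le_rfl⟩
  have h1 : ‖Hf a z w a - Hf a z w c‖ ≤ M / κ := by
    refine hint.trans ?_
    have : Real.exp (κ * (a - a)) - Real.exp (κ * (c - a)) ≤ 1 := by
      have := Real.exp_pos (κ * (c - a))
      simp only [sub_self, mul_zero, Real.exp_zero]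
      linarith
    have h0 : 0 < M / κ := by positivity
    nlinarith
  have h2 : A a w / ‖SS w a‖ = ‖Hf a z w a‖ := by
    unfold Hf
    rw [pp_self', zero_sub, norm_neg, norm_div]
    rfl
  have h3 : ‖SS w a‖ ≤ 3 / 2 * N := by
    unfold SS
    refine (norm_sum_le _ _).trans ?_
    have : ∀ k ∈ (Finset.univ : Finset (Fin N)), ‖((a : ℂ) - w k)⁻¹‖ ≤ 3 / 2 := by
      intro k _
      rw [norm_inv]
      have h4 := h.hwa k
      rw [inv_le_comm₀ (by linarith) (by norm_num)]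
      linarith
    refine (Finset.sum_le_sum this).trans (le_of_eq ?_)
    simp
    ring
  have h4 : ‖Hf a z w c‖ ≤ ‖pp a z (c : ℂ)‖ + 32 / (a * N) * (A a w * Real.exp (-(N * (3 * a ^ 2 / 256)))) := by
    unfold Hf
    refine (norm_sub_le _ _).trans ?_
    have h5 := h.SS_norm_ge ha ha1 hρ hρc (x := c) le_rfl hca
    have h6 := h.dp_le_real ha ha1 hρ hρb le_rfl hc0 hca
    have h7 : -(N * (c * (a - c) / 16)) = -(N * (3 * a ^ 2 / 256)) := by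
      rw [hc]; ring
    rw [h7] at h6
    rw [norm_div]
    have hSp : 0 < a * N / 32 := by positivity
    have h8 : ‖dp w (c : ℂ)‖ / ‖SS w c‖ ≤ (A a w * Real.exp (-(N * (3 * a ^ 2 / 256)))) / (a * N / 32) := by
      gcongr
    have h9 : (A a w * Real.exp (-(N * (3 * a ^ 2 / 256)))) / (a * N / 32)
        = 32 / (a * N) * (A a w * Real.exp (-(N * (3 * a ^ 2 / 256)))) := by
      field_simp
    linarith
  have h5 : A a w / (3 / 2 * N) ≤ ‖pp a z (c : ℂ)‖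
      + 32 / (a * N) * (A a w * Real.exp (-(N * (3 * a ^ 2 / 256)))) + M / κ := by
    have hSp : 0 < ‖SS w a‖ := norm_pos_iff.mpr (hS a ⟨hca, le_rfl⟩)
    have h6 : A a w / (3 / 2 * N) ≤ A a w / ‖SS w a‖ := by gcongr
    have h7 : ‖Hf a z w a‖ ≤ ‖Hf a z w c‖ + ‖Hf a z w a - Hf a z w c‖ := by
      have := norm_add_le (Hf a z w c) (Hf a z w a - Hf a z w c)
      simpa using this
    linarith
  have h6 := mul_le_mul_of_nonneg_left h5 hN'.le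
  have e1 : N * (A a w / (3 / 2 * N)) = 2 / 3 * A a w := by
    field_simp
  have e2 : N * (‖pp a z (c : ℂ)‖
      + 32 / (a * N) * (A a w * Real.exp (-(N * (3 * a ^ 2 / 256)))) + M / κ) =
      N * ‖pp a z (c : ℂ)‖
      + 32 / a * (A a w * Real.exp (-(N * (3 * a ^ 2 / 256))))
      + 16384 / (3 * a ^ 3 * N) * A a w := by
    rw [hM, hκ]
    field_simp
    ring
  rw [e1, e2] at h6
  exact h6

end Pool.Agent.Q75.Sn
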