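import Pool.Agent.Q75.SnA

set_option autoImplicit false
set_option linter.unusedVariables false

open Complex Filter Topology

namespace Pool.Agent.Q75.Sn

open Pool.Agent.H218R3.Sd

/-- the filter `ρ → 1⁻`, `N → ∞` -/
def FF : Filter (ℝ × ℕ) := 𝓝[<] (1 : ℝ) ×ˢ atTop

/-- a statement holding for all large `N` and all `ρ` close to `1` -/
def Ev (a : ℝ) (P : ∀ (N : ℕ), (Fin N → ℂ) → (Fin N → ℂ) → Prop) : Prop :=
  ∀ᶠ p in FF, ∀ z w : Fin p.2 → ℂ, DD a p.1 p.2 z w → P p.2 z w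

variable {a : ℝ}

lemma Ev.and {P Q : ∀ (N : ℕ), (Fin N → ℂ) → (Fin N → ℂ) → Prop}
    (hP : Ev a P) (hQ : Ev a Q) : Ev a (fun N z w => P N z w ∧ Q N z w) := by
  filter_upwards [hP, hQ] with p h1 h2 z w h
  exact ⟨h1 z w h, h2 z w h⟩

lemma Ev.mono {P Q : ∀ (N : ℕ), (Fin N → ℂ) → (Fin N → ℂ) → Prop}
    (hP : Ev a P) (hPQ : ∀ᶠ p in FF, ∀ z w : Fin p.2 → ℂ,
      DD a p.1 p.2 z w → P p.2 z w → Q p.2 z w) : Ev a Q := by
  filter_upwards [hP, hPQ] with p h1 h2 z w h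
  exact h2 z w h (h1 z w h)

lemma Ev.all {ι : Type*} (s : Finset ι)
    {P : ι → ∀ (N : ℕ), (Fin N → ℂ) → (Fin N → ℂ) → Prop}
    (hP : ∀ i ∈ s, Ev a (P i)) : Ev a (fun N z w => ∀ i ∈ s, P i N z w) := by
  have := (Filter.eventually_all_finset s).mpr hP
  filter_upwards [this] with p h1 z w h i hi
  exact h1 i hi z w h

lemma evN {P : ℕ → Prop} (h : ∀ᶠ N in atTop, P N) : ∀ᶠ p in FF, P p.2 := by
  unfold FF
  exact h.prod_inr _

lemma evR {P : ℝ → Prop} (h : ∀ᶠ r in 𝓝[<] (1 : ℝ), P r) : ∀ᶠ p in FF, P p.1 := by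
  unfold FF
  exact h.prod_inl _

lemma rho_ev {κ : ℝ} (hκ : 0 < κ) :
    ∀ᶠ p in FF, 2 / 3 ≤ p.1 ∧ 1 - p.1 ^ 2 ≤ κ ∧ -κ ≤ Real.log p.1 := by
  have h1 : ∀ᶠ r in 𝓝[<] (1 : ℝ), (2 / 3 : ℝ) < r :=
    (lt_mem_nhds (by norm_num)).filter_mono nhdsWithin_le_nhds
  have h2 : ∀ᶠ r in 𝓝[<] (1 : ℝ), 1 - r ^ 2 < κ := by
    have : Tendsto (fun r : ℝ => 1 - r ^ 2) (𝓝 1) (𝓝 (1 - 1 ^ 2)) :=
      (Continuous.tendsto (by fun_prop) 1)
    exact (this.eventually (gt_mem_nhds (by simpa using hκ))).filter_mono nhdsWithin_le_nhds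
  have h3 : ∀ᶠ r in 𝓝[<] (1 : ℝ), -κ < Real.log r := by
    have : Tendsto Real.log (𝓝 1) (𝓝 (Real.log 1)) :=
      (Real.continuousAt_log one_ne_zero)
    exact (this.eventually (lt_mem_nhds (by simpa using hκ))).filter_mono nhdsWithin_le_nhds
  apply evR (P := fun r => 2 / 3 ≤ r ∧ 1 - r ^ 2 ≤ κ ∧ -κ ≤ Real.log r)
  filter_upwards [h1, h2, h3] with r g1 g2 g3
  exact ⟨g1.le, g2.le, g3.le⟩

lemma L5 (ha : 0 < a) (ha1 : a < 1) {b : ℝ} (hb : 0 < b) (hba : b < a / 2) :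
    Ev a (fun N z w => A a w ≤ 4 * N * ‖pp a z b‖) := by
  have t1 : ∀ᶠ N : ℕ in atTop, (N : ℝ) * (1 * Real.exp (-((N : ℝ) * (a * b / 32) / 2))) < 1 / 4 :=
    Pool.Agent.H218R3.Sd.exp_small (a * b / 32) 1 (1 / 4) (by positivity) (by norm_num)
  have t2 : ∀ᶠ N : ℕ in atTop,
      (N : ℝ) * (32 / a * Real.exp (-((N : ℝ) * (3 * a ^ 2 / 128) / 2))) < 1 / 12 :=
    Pool.Agent.H218R3.Sd.exp_small (3 * a ^ 2 / 128) (32 / a) (1 / 12) (by positivity) (by norm_num)
  have t3 : ∀ᶠ N : ℕ in atTop, 16384 / (3 * a ^ 3) / (N : ℝ) < 1 / 12 :=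
    (tendsto_const_div_atTop_nhds_zero_nat (16384 / (3 * a ^ 3))).eventually
      (gt_mem_nhds (by norm_num))
  have hκ : 0 < min (a ^ 2 / 4) (a * b / 2) := lt_min (by positivity) (by positivity)
  filter_upwards [evN t1, evN t2, evN t3, evN (eventually_gt_atTop 0), rho_ev hκ] with
    p g1 g2 g3 g4 g5 z w h
  obtain ⟨ρ, N⟩ := p
  simp only at z w h g1 g2 g3 g4 g5 ⊢
  obtain ⟨hρ, hρ2, -⟩ := g5
  have hρc : 1 - ρ ^ 2 ≤ a ^ 2 / 4 := hρ2.trans (min_le_left _ _)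
  have hρb : 1 - ρ ^ 2 ≤ a * b / 2 := hρ2.trans (min_le_right _ _)
  have hN : (0 : ℝ) < N := by exact_mod_cast g4
  have hN1 : (1 : ℝ) ≤ N := by exact_mod_cast g4
  have hA := h.A_pos (by linarith)
  have h1 := h.lower ha ha1 hρ hρc g4
  have h2 : 32 / a * (A a w * Real.exp (-(N * (3 * a ^ 2 / 256)))) ≤ 1 / 12 * A a w := by
    have e1 : -((N : ℝ) * (3 * a ^ 2 / 128) / 2) = -(N * (3 * a ^ 2 / 256)) := by ring
    rw [e1] at g2
    have h3 : 32 / a * Real.exp (-(N * (3 * a ^ 2 / 256))) ≤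
        N * (32 / a * Real.exp (-(N * (3 * a ^ 2 / 256)))) := by
      have h0 : 0 ≤ 32 / a * Real.exp (-(N * (3 * a ^ 2 / 256))) := by positivity
      nlinarith
    calc _ = (32 / a * Real.exp (-(N * (3 * a ^ 2 / 256)))) * A a w := by ring
      _ ≤ 1 / 12 * A a w := by
        gcongr
        linarith
  have h3 : 16384 / (3 * a ^ 3 * N) * A a w ≤ 1 / 12 * A a w := by
    have e : 16384 / (3 * a ^ 3 * (N : ℝ)) = 16384 / (3 * a ^ 3) / (N : ℝ) := by
      field_simp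
    rw [e]
    exact mul_le_mul_of_nonneg_right g3.le hA.le
  have h4 : 1 / 2 * A a w ≤ N * ‖pp a z ((3 * a / 4 : ℝ) : ℂ)‖ := by linarith
  have h5 := norm_image_sub_le_of_norm_deriv_le_segment' (a := b) (b := 3 * a / 4)
      (f := fun s : ℝ => pp a z (s : ℂ))
      (f' := fun s : ℝ => dp w (s : ℂ)) (C := A a w * Real.exp (-(N * (a * b / 64))))
      (fun s _ => ((h.hd (s : ℂ)).comp_ofReal).hasDerivWithinAt) (fun s hs => ?_) (3 * a / 4)
      ⟨by linarith, le_rfl⟩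
  · have h6 : ‖pp a z ((3 * a / 4 : ℝ) : ℂ)‖ ≤ ‖pp a z (b : ℂ)‖ +
        A a w * Real.exp (-(N * (a * b / 64))) := by
      have h7 : ‖pp a z ((3 * a / 4 : ℝ) : ℂ)‖ ≤ ‖pp a z (b : ℂ)‖ +
          ‖pp a z ((3 * a / 4 : ℝ) : ℂ) - pp a z (b : ℂ)‖ := by
        have := norm_add_le (pp a z (b : ℂ)) (pp a z ((3 * a / 4 : ℝ) : ℂ) - pp a z (b : ℂ))
        simpa using this
      have h8 : A a w * Real.exp (-(N * (a * b / 64))) * (3 * a / 4 - b) ≤
          A a w * Real.exp (-(N * (a * b / 64))) * 1 := by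
        gcongr
        linarith
      linarith
    have h7 : N * (A a w * Real.exp (-(N * (a * b / 64)))) ≤ 1 / 4 * A a w := by
      have e1 : -((N : ℝ) * (a * b / 32) / 2) = -(N * (a * b / 64)) := by ring
      rw [e1, one_mul] at g1
      calc _ = (N * Real.exp (-(N * (a * b / 64)))) * A a w := by ring
        _ ≤ 1 / 4 * A a w := by gcongr
    have h8 := mul_le_mul_of_nonneg_left h6 hN.le
    linarith
  · have h6 := h.dp_le_real ha ha1 hρ hρb hs.1 hb (by linarith [hs.2])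
    refine h6.trans ?_
    refine mul_le_mul_of_nonneg_left (Real.exp_le_exp.mpr ?_) hA.le
    have h7 : b * (a / 4) ≤ s * (a - s) := by
      have h8 : a / 4 ≤ a - s := by linarith [hs.2]
      have h9 := hs.1
      have h10 : 0 ≤ s := by linarith
      gcongr
    have h8 := mul_le_mul_of_nonneg_left h7 hN.le
    linarith

lemma L6 (ha : 0 < a) (ha1 : a < 1) {b : ℝ} (hb : 0 < b) (hba : b < a / 2) :
    Ev a (fun _ z _ => ∀ j, a * b / 192 ≤ ‖z j - b‖) := by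
  have hr : 0 < a * b / 192 := by positivity
  have t1 : ∀ᶠ N : ℕ in atTop,
      (N : ℝ) * ((a * b / 192) * Real.exp (-((N : ℝ) * (a * b / 32) / 2))) < 1 / 8 :=
    Pool.Agent.H218R3.Sd.exp_small (a * b / 32) _ (1 / 8) (by positivity) (by norm_num)
  refine (L5 ha ha1 hb hba).mono ?_
  filter_upwards [evN t1, evN (eventually_gt_atTop 0),
    rho_ev (show 0 < a * b / 2 by positivity)] with p g1 g2 g3 z w h hA j
  obtain ⟨ρ, N⟩ := p
  simp only at z w h g1 g2 g3 hA j ⊢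
  obtain ⟨hρ, hρb, -⟩ := g3
  have hNpos : (0 : ℝ) < N := by exact_mod_cast g2
  have hA0 := h.A_pos (by linarith)
  by_contra hc
  push Not at hc
  set r := a * b / 192 with hrdef
  have e1 : -((N : ℝ) * (a * b / 32) / 2) = -(N * (a * b / 64)) := by ring
  rw [e1] at g1
  have hbound : ∀ ζ ∈ Metric.ball (b : ℂ) r, ‖dp w ζ‖ ≤
      A a w * Real.exp (-(N * (a * b / 64))) := by
    intro ζ hζ
    rw [Metric.mem_ball, dist_eq_norm] at hζ
    have h1 := h.dp_le ha ha1 hρ hρb le_rfl hb (by linarith) (ζ - b)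
    have e2 : (b : ℂ) + (ζ - b) = ζ := by ring
    rw [e2] at h1
    refine h1.trans ?_
    gcongr
    have h2 : a * b / 32 ≤ b * (a - b) / 16 := by nlinarith
    have h3 : -(b * (a - b)) / 16 + 3 * ‖ζ - b‖ ≤ -(a * b / 64) := by
      have : 3 * ‖ζ - b‖ ≤ a * b / 64 := by
        rw [hrdef] at hζ
        linarith
      linarith
    nlinarith
  have hbb : (b : ℂ) ∈ Metric.ball (b : ℂ) r := Metric.mem_ball_self hr
  have hzb : z j ∈ Metric.ball (b : ℂ) r := by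
    rw [Metric.mem_ball, dist_eq_norm]
    exact hc
  have h1 := (convex_ball (b : ℂ) r).norm_image_sub_le_of_norm_hasDerivWithin_le
    (fun ζ _ => (h.hd ζ).hasDerivWithinAt) hbound hzb hbb
  have h2 : pp a z (z j) = 0 := by
    unfold pp
    rw [Finset.prod_eq_zero (Finset.mem_univ j) (sub_self _), mul_zero]
  rw [h2, sub_zero] at h1
  have h3 : ‖(b : ℂ) - z j‖ ≤ r := by
    rw [norm_sub_rev]
    exact hc.le
  have h4 : ‖pp a z (b : ℂ)‖ ≤ A a w * Real.exp (-(N * (a * b / 64))) * r := by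
    refine h1.trans ?_
    gcongr
  have h6 : A a w ≤ 4 * N * (A a w * Real.exp (-(N * (a * b / 64))) * r) := by
    refine hA.trans ?_
    gcongr
  have h7 : A a w * 1 ≤ A a w * (4 * (N * (r * Real.exp (-(N * (a * b / 64)))))) := by
    refine le_trans (by linarith) (h6.trans (le_of_eq ?_))
    ring
  have h8 := le_of_mul_le_mul_left h7 hA0
  linarith

variable {N : ℕ} {z w : Fin N → ℂ} {ρ : ℝ}

/-- upper bound for q -/
lemma DD.q_le (h : DD a ρ N z w) (ha : 0 < a) (ha1 : a < 1) (hρ : 2 / 3 ≤ ρ) {b : ℝ} (hb : 0 < b)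
    (hba : b < a) (hρb : 1 - ρ ^ 2 ≤ a * b / 2) :
    ‖q z (b : ℂ)‖ ≤ A a w := by
  have h5 := norm_image_sub_le_of_norm_deriv_le_segment' (a := b) (b := a)
      (f := fun s : ℝ => pp a z (s : ℂ))
      (f' := fun s : ℝ => dp w (s : ℂ)) (C := A a w)
      (fun s _ => ((h.hd (s : ℂ)).comp_ofReal).hasDerivWithinAt) (fun s hs => ?_) a
      ⟨hba.le, le_rfl⟩
  · rw [pp_self', zero_sub, norm_neg, norm_q, abs_of_neg (by linarith)] at h5
    have h3 : (a - b) * ‖q z (b : ℂ)‖ ≤ (a - b) * A a w := by linarith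
    exact le_of_mul_le_mul_left h3 (by linarith)
  · exact h.dp_le_A ha ha1 hρ hρb hs.1 hb hs.2.le

lemma L7 (ha : 0 < a) (ha1 : a < 1) {b : ℝ} (hb : 0 < b) (hba : b < a / 2) :
    Ev a (fun N z w => Real.log (A a w) - Real.log (4 * N) ≤ Real.log ‖q z (b : ℂ)‖ ∧
      Real.log ‖q z (b : ℂ)‖ ≤ Real.log (A a w) ∧ 0 < ‖q z (b : ℂ)‖) := by
  refine (L5 ha ha1 hb hba).mono ?_
  filter_upwards [evN (eventually_gt_atTop 0),
    rho_ev (show 0 < a * b / 2 by positivity)] with p g2 g3 z w h hA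
  obtain ⟨ρ, N⟩ := p
  simp only at z w h g2 g3 hA ⊢
  obtain ⟨hρ, hρb, -⟩ := g3
  have hNpos : (0 : ℝ) < N := by exact_mod_cast g2
  have hA0 := h.A_pos (by linarith)
  have hba' : b < a := by linarith
  rw [norm_q, abs_of_neg (by linarith)] at hA
  have hq0 : 0 < ‖q z (b : ℂ)‖ := by
    by_contra hc
    push Not at hc
    have h0 : ‖q z (b : ℂ)‖ = 0 := le_antisymm hc (norm_nonneg _)
    rw [h0] at hA
    simp at hA
    linarith
  refine ⟨?_, Real.log_le_log hq0 (h.q_le ha ha1 hρ hb hba' hρb), hq0⟩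
  rw [sub_le_iff_le_add, ← Real.log_mul hq0.ne' (by positivity)]
  apply Real.log_le_log hA0
  refine hA.trans ?_
  have : -(b - a) * ‖q z (b : ℂ)‖ ≤ 1 * ‖q z (b : ℂ)‖ := by
    gcongr
    linarith
  nlinarith

lemma log4N_small {δ : ℝ} (hδ : 0 < δ) : ∀ᶠ N : ℕ in atTop, Real.log (4 * N) ≤ δ * N := by
  have h1 : Tendsto (fun x : ℝ => Real.log x / x) atTop (𝓝 0) := by
    have := Real.isLittleO_log_id_atTop.tendsto_div_nhds_zero
    simpa using this
  have h2 : Tendsto (fun N : ℕ => (4 * N : ℝ)) atTop atTop :=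
    tendsto_natCast_atTop_atTop.const_mul_atTop (by norm_num)
  have h3 := h1.comp h2
  filter_upwards [h3.eventually (gt_mem_nhds (show 0 < δ / 4 by positivity)),
    eventually_gt_atTop 0] with N hN hN0
  have hNpos : (0 : ℝ) < N := by exact_mod_cast hN0
  simp only [Function.comp] at hN
  rw [div_lt_iff₀ (by positivity)] at hN
  linarith

lemma L8 (ha : 0 < a) (ha1 : a < 1) {δ : ℝ} (hδ : 0 < δ) :
    Ev a (fun N z w => Real.log (A a w) ≤ δ * N ∧ Del z ≤ δ * N) := by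
  obtain ⟨b, hb, hba, hbδ⟩ : ∃ b : ℝ, 0 < b ∧ b < a / 2 ∧ b ≤ δ / 48 :=
    ⟨min (a / 4) (δ / 48), lt_min (by positivity) (by positivity),
      lt_of_le_of_lt (min_le_left _ _) (by linarith), min_le_right _ _⟩
  refine ((L7 ha ha1 hb hba).and (L6 ha ha1 hb hba)).mono ?_
  filter_upwards [evN (log4N_small (show 0 < δ / 48 by positivity)),
    rho_ev (show 0 < δ / 48 by positivity)] with p hN g3 z w h hA
  obtain ⟨ρ, N⟩ := p
  simp only at z w h hN g3 hA ⊢
  obtain ⟨hρ, -, hρl⟩ := g3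
  obtain ⟨⟨h1, h2, h3⟩, h4⟩ := hA
  have hr : 0 < a * b / 192 := by positivity
  have hne : ∀ j, (b : ℂ) ≠ z j := by
    intro j hc
    have := h4 j
    rw [← hc, sub_self, norm_zero] at this
    linarith
  have hb1 : b < 1 := by linarith
  have h5 := HH_lower h.hz hb hb1 hne
  have h6 := HH_le h.hz hb hb1
  have h7 := Del_nonneg h.hz
  have hN0 : (0 : ℝ) ≤ N := Nat.cast_nonneg N
  have h8 : (1 / 3 : ℝ) ≤ (1 - b) / (1 + b) := by
    rw [div_le_div_iff₀ (by norm_num) (by linarith)]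
    linarith
  have h9 : (1 / 3 : ℝ) / 4 * Del z ≤ (1 - b) / (1 + b) / 4 * Del z := by gcongr
  have h10 : N * b ≤ N * (δ / 48) := by gcongr
  have h11 : -(N * (δ / 48)) ≤ Real.log (A a w) := by
    refine le_trans ?_ (h.logA_ge (by linarith))
    nlinarith
  have h12 : (0 : ℝ) ≤ δ * N := by positivity
  constructor
  · nlinarith
  · nlinarith

lemma L9 (ha : 0 < a) (ha1 : a < 1) {b : ℝ} (hb : 0 < b) (hba : b < a / 2) {δ : ℝ} (hδ : 0 < δ) :
    Ev a (fun N z _ => |HH z b| ≤ δ * N) := by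
  set r := a * b / 192 with hr
  have hr0 : 0 < r := by positivity
  set δ' : ℝ := min (δ / 2) (δ * r ^ 2) with hδ'
  have hδ'0 : 0 < δ' := lt_min (by positivity) (by positivity)
  refine (((L7 ha ha1 hb hba).and (L6 ha ha1 hb hba)).and (L8 ha ha1 hδ'0)).mono ?_
  filter_upwards [evN (log4N_small (show 0 < δ / 2 by positivity)),
    rho_ev (show 0 < δ / 2 by positivity)] with p hN g3 z w h hA
  obtain ⟨ρ, N⟩ := p
  simp only at z w h hN g3 hA ⊢
  obtain ⟨hρ, -, hρl⟩ := g3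
  obtain ⟨⟨⟨h1, h2, h3⟩, h4⟩, h5, h6⟩ := hA
  have hb1 : b < 1 := by linarith
  have hne : ∀ j, (b : ℂ) ≠ z j := by
    intro j hc
    have := h4 j
    rw [← hc, sub_self, norm_zero] at this
    linarith
  have h7 := HH_lower h.hz hb hb1 hne
  have h8 := HH_upper h.hz hb hb1 hr0 h4
  have h9 := Del_nonneg h.hz
  have hN0 : (0 : ℝ) ≤ N := Nat.cast_nonneg N
  have h11 : -(N * (δ / 2)) ≤ Real.log (A a w) := by
    refine le_trans ?_ (h.logA_ge (by linarith))
    nlinarith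
  have hc0 : 0 ≤ (1 - b) / (1 + b) / 4 := by
    have : 0 ≤ (1 - b) / (1 + b) := div_nonneg (by linarith) (by linarith)
    positivity
  have h12 := mul_nonneg hc0 h9
  rw [abs_le]
  constructor
  · linarith
  · have h13 : (1 / (2 * r ^ 2)) * Del z ≤ (δ / 2) * N := by
      have h14 : Del z ≤ (δ * r ^ 2) * N := by
        refine h6.trans ?_
        gcongr
        exact min_le_right _ _
      calc (1 / (2 * r ^ 2)) * Del z ≤ (1 / (2 * r ^ 2)) * ((δ * r ^ 2) * N) := by gcongr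
        _ = _ := by field_simp
    have h15 : δ' * N ≤ (δ / 2) * N := by
      gcongr
      exact min_le_left _ _
    linarith

/-- partial fractions at a point which is no zero -/
lemma DD.dp_eq (h : DD a ρ N z w) {ξ : ℂ} (h0 : ξ ≠ a) (hz : ∀ j, ξ ≠ z j) :
    dp w ξ = pp a z ξ * ((ξ - a)⁻¹ + ∑ j, (ξ - z j)⁻¹) := by
  have h1 : HasDerivAt (fun ζ : ℂ => ∏ j, (ζ - z j)) (∑ i, (∏ j ∈ Finset.univ.erase i, (ξ - z j)) • (1 : ℂ)) ξ := by
    have := HasDerivAt.fun_finsetProd (u := (Finset.univ : Finset (Fin N)))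
      (f := fun j ζ => ζ - z j) (f' := fun _ => (1 : ℂ)) (x := ξ)
      (fun i _ => (hasDerivAt_id ξ).sub_const (z i))
    simpa using this
  have h2 : HasDerivAt (fun ζ : ℂ => (ζ - a)) 1 ξ := (hasDerivAt_id ξ).sub_const _
  have h3 := (h2.mul h1).unique (h.hd ξ)
  rw [← h3]
  have hd0 : ξ - a ≠ 0 := sub_ne_zero.mpr h0
  have h4 : ∀ i ∈ (Finset.univ : Finset (Fin N)), (∏ j ∈ Finset.univ.erase i, (ξ - z j)) • (1 : ℂ)
      = (∏ j, (ξ - z j)) * (ξ - z i)⁻¹ := by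
    intro i _
    have hi : ξ - z i ≠ 0 := sub_ne_zero.mpr (hz i)
    rw [← Finset.mul_prod_erase Finset.univ (fun j => ξ - z j) (Finset.mem_univ i)]
    simp only [smul_eq_mul, mul_one]
    field_simp
  rw [Finset.sum_congr rfl h4, ← Finset.mul_sum]
  unfold pp
  field_simp

lemma DD.compare (h : DD a ρ N z w) (ha : 0 < a) (ha1 : a ≤ 1) {ξ : ℝ} (hξ : 1 < ξ) :
    |(∑ k, Real.log ‖(ξ : ℂ) - w k‖) - ∑ j, Real.log ‖(ξ : ℂ) - z j‖|
      ≤ Real.log (ξ + 1) - Real.log (ξ - 1) := by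
  have hne : ∀ u : ℂ, ‖u‖ ≤ 1 → (ξ : ℂ) ≠ u := by
    intro u hu hc
    rw [← hc, Complex.norm_real, Real.norm_of_nonneg (by linarith)] at hu
    linarith
  have hna : (ξ : ℂ) ≠ a := by
    apply hne
    rw [Complex.norm_real, Real.norm_of_nonneg ha.le]
    exact ha1
  have hN0 : (0 : ℝ) ≤ N := Nat.cast_nonneg N
  have h1 := h.dp_eq hna (fun j => hne _ (h.hz j))
  set S : ℂ := ((ξ : ℂ) - a)⁻¹ + ∑ j, ((ξ : ℂ) - z j)⁻¹ with hS
  have hanorm : ‖(a : ℂ)‖ ≤ 1 := by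
    rw [Complex.norm_real, Real.norm_of_nonneg ha.le]
    exact ha1
  have hS1 : ((N : ℝ) + 1) / (ξ + 1) ≤ ‖S‖ := by
    refine le_trans ?_ (Complex.re_le_norm S)
    rw [hS, Complex.add_re, Complex.re_sum]
    have h2 : ∑ j : Fin N, 1 / (ξ + 1) ≤ ∑ j, (((ξ : ℂ) - z j)⁻¹).re :=
      Finset.sum_le_sum (fun j _ => re_inv_ge (h.hz j) hξ)
    have h3 := re_inv_ge hanorm hξ
    simp only [Finset.sum_const, Finset.card_univ, Fintype.card_fin, nsmul_eq_mul] at h2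
    have : ((N : ℝ) + 1) / (ξ + 1) = 1 / (ξ + 1) + N * (1 / (ξ + 1)) := by ring
    linarith
  have hS2 : ‖S‖ ≤ ((N : ℝ) + 1) / (ξ - 1) := by
    have h2 : ‖∑ j, ((ξ : ℂ) - z j)⁻¹‖ ≤ ∑ j : Fin N, 1 / (ξ - 1) :=
      (norm_sum_le _ _).trans (Finset.sum_le_sum (fun j _ => norm_inv_le (h.hz j) hξ))
    have h3 := norm_inv_le hanorm hξ
    simp only [Finset.sum_const, Finset.card_univ, Fintype.card_fin, nsmul_eq_mul] at h2
    have h4 := norm_add_le ((ξ : ℂ) - a)⁻¹ (∑ j, ((ξ : ℂ) - z j)⁻¹)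
    have : ((N : ℝ) + 1) / (ξ - 1) = 1 / (ξ - 1) + N * (1 / (ξ - 1)) := by ring
    rw [hS]
    linarith
  have hSpos : 0 < ‖S‖ := lt_of_lt_of_le (by positivity) hS1
  have hxa : 0 < ξ - a := by linarith
  have e1 : Real.log ‖dp w (ξ : ℂ)‖ = Real.log (N + 1) + ∑ k, Real.log ‖(ξ : ℂ) - w k‖ := by
    rw [norm_dp, Real.log_mul (by positivity), Real.log_prod]
    · intro k _
      exact norm_ne_zero_iff.mpr (sub_ne_zero.mpr (hne _ (h.hw k)))
    · apply Finset.prod_ne_zero_iff.mpr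
      intro k _
      exact norm_ne_zero_iff.mpr (sub_ne_zero.mpr (hne _ (h.hw k)))
  have e2 : Real.log ‖pp a z (ξ : ℂ) * S‖ = Real.log (ξ - a) + ∑ j, Real.log ‖(ξ : ℂ) - z j‖
      + Real.log ‖S‖ := by
    have e3 : ‖(ξ : ℂ) - a‖ = ξ - a := by
      rw [← Complex.ofReal_sub, Complex.norm_real, Real.norm_of_nonneg hxa.le]
    unfold pp
    rw [norm_mul, norm_mul, norm_prod, Real.log_mul, Real.log_mul, Real.log_prod, e3]
    · intro k _
      exact norm_ne_zero_iff.mpr (sub_ne_zero.mpr (hne _ (h.hz k)))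
    · rw [e3]; exact hxa.ne'
    · apply Finset.prod_ne_zero_iff.mpr
      intro k _
      exact norm_ne_zero_iff.mpr (sub_ne_zero.mpr (hne _ (h.hz k)))
    · rw [e3]
      refine mul_ne_zero hxa.ne' ?_
      apply Finset.prod_ne_zero_iff.mpr
      intro k _
      exact norm_ne_zero_iff.mpr (sub_ne_zero.mpr (hne _ (h.hz k)))
    · exact hSpos.ne'
  rw [h1, e2] at e1
  have l1 : Real.log ((N : ℝ) + 1) - Real.log (ξ + 1) ≤ Real.log ‖S‖ := by
    rw [← Real.log_div (by positivity) (by linarith)]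
    exact Real.log_le_log (by positivity) hS1
  have l2 : Real.log ‖S‖ ≤ Real.log ((N : ℝ) + 1) - Real.log (ξ - 1) := by
    rw [← Real.log_div (by positivity) (by linarith)]
    exact Real.log_le_log hSpos hS2
  have l3 : Real.log (ξ - a) ≤ Real.log (ξ + 1) := Real.log_le_log hxa (by linarith)
  have l4 : Real.log (ξ - 1) ≤ Real.log (ξ - a) := Real.log_le_log (by linarith) (by linarith)
  rw [abs_le]
  constructor <;> linarith

lemma L10 (ha : 0 < a) (ha1 : a < 1) {b : ℝ} (hb : 0 < b) (hba : b < a / 2) {δ : ℝ} (hδ : 0 < δ) :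
    Ev a (fun N _ w => |HH w b| ≤ δ * N) := by
  refine (L9 ha ha1 hb hba (show 0 < δ / 2 by positivity)).mono ?_
  have h1 : ∀ᶠ N : ℕ in atTop, (Real.log (b⁻¹ + 1) - Real.log (b⁻¹ - 1)) / (δ / 2) ≤ (N : ℝ) :=
    tendsto_natCast_atTop_atTop.eventually (eventually_ge_atTop _)
  filter_upwards [evN h1] with p hN z w h hH
  obtain ⟨ρ, N⟩ := p
  simp only at z w h hN hH ⊢
  have hb1 : b < 1 := by linarith
  have h2 := h.compare ha ha1.le (ξ := b⁻¹) ((one_lt_inv₀ hb).mpr hb1)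
  have h3 : HH w b - HH z b = (∑ k, Real.log ‖((b⁻¹ : ℝ) : ℂ) - w k‖)
      - ∑ j, Real.log ‖((b⁻¹ : ℝ) : ℂ) - z j‖ := by
    rw [HH_scale w h.hw hb hb1, HH_scale z h.hz hb hb1]
    ring
  rw [← h3] at h2
  rw [div_le_iff₀ (by positivity)] at hN
  calc |HH w b| = |(HH w b - HH z b) + HH z b| := by ring_nf
    _ ≤ |HH w b - HH z b| + |HH z b| := abs_add_le _ _
    _ ≤ N * (δ / 2) + δ / 2 * N := by linarith
    _ = δ * N := by ring

lemma L11 (ha : 0 < a) (ha1 : a < 1) (m : ℕ) : 1 ≤ m → ∀ δ : ℝ, 0 < δ →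
    Ev a (fun N _ w => |RR w m| ≤ δ * N) := by
  induction m using Nat.strong_induction_on with
  | _ m ih =>
    intro hm δ hδ
    have hm0 : (0 : ℝ) < m := by exact_mod_cast hm
    obtain ⟨b, hb, hba, hbδ⟩ : ∃ b : ℝ, 0 < b ∧ b < a / 2 ∧ b ≤ δ / (4 * m) :=
      ⟨min (a / 4) (δ / (4 * m)), lt_min (by positivity) (by positivity),
        lt_of_le_of_lt (min_le_left _ _) (by linarith), min_le_right _ _⟩
    set δ' : ℝ := (δ / 2) * (b ^ m / m) / m with hδ'
    have hδ'0 : 0 < δ' := by positivity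
    have h1 : ∀ j ∈ Finset.range m, Ev a (fun N _ w => 1 ≤ j → |RR w j| ≤ δ' * N) := by
      intro j hj
      by_cases hj1 : 1 ≤ j
      · refine (ih j (Finset.mem_range.mp hj) hj1 δ' hδ'0).mono ?_
        exact Eventually.of_forall (fun p z w _ h _ => h)
      · exact Eventually.of_forall (fun p z w _ h => absurd h hj1)
    refine ((Ev.all _ h1).and (L10 ha ha1 hb hba hδ'0)).mono ?_
    refine Eventually.of_forall ?_
    rintro ⟨ρ, N⟩ z w h hh
    obtain ⟨hR, hG⟩ := hh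
    simp only at z w h hR hG ⊢
    have hN0 : (0 : ℝ) ≤ N := Nat.cast_nonneg N
    have hb1 : b ≤ 1 / 2 := by linarith
    have h2 := taylor_bound w h.hw m hb hb1
    rw [Finset.sum_range_succ] at h2
    have h3 : |∑ j ∈ Finset.range m, b ^ j / j * RR w j| ≤ (m - 1) * (δ' * N) := by
      obtain ⟨m', rfl⟩ : ∃ m', m = m' + 1 := ⟨m - 1, by omega⟩
      rw [Finset.sum_range_succ']
      simp only [Nat.cast_zero, div_zero, zero_mul, add_zero]
      refine (Finset.abs_sum_le_sum_abs _ _).trans ?_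
      have : ∀ j ∈ Finset.range m', |b ^ (j + 1) / ((j + 1 : ℕ) : ℝ) * RR w (j + 1)| ≤ δ' * N := by
        intro j hj
        rw [abs_mul, abs_of_nonneg (by positivity)]
        have h4 := hR (j + 1) (by rw [Finset.mem_range] at hj ⊢; omega) (by omega)
        have h5 : b ^ (j + 1) / ((j + 1 : ℕ) : ℝ) ≤ 1 := by
          rw [div_le_one (by positivity)]
          have h6 : b ^ (j + 1) ≤ 1 := pow_le_one₀ hb.le (by linarith)
          have h7 : (1 : ℝ) ≤ ((j + 1 : ℕ) : ℝ) := by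
            push_cast
            have : (0 : ℝ) ≤ j := Nat.cast_nonneg j
            linarith
          linarith
        calc _ ≤ 1 * |RR w (j + 1)| := by gcongr
          _ ≤ δ' * N := by linarith
      refine (Finset.sum_le_sum this).trans (le_of_eq ?_)
      simp
    have h4 : b ^ m / m * |RR w m| ≤ m * (δ' * N) + N * (2 * b ^ (m + 1)) := by
      have h5 : b ^ m / m * RR w m = (HH w b + (∑ j ∈ Finset.range m, b ^ j / j * RR w j +
        b ^ m / m * RR w m)) - HH w b - ∑ j ∈ Finset.range m, b ^ j / j * RR w j := by ring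
      have h6 : b ^ m / m * |RR w m| = |b ^ m / m * RR w m| := by
        rw [abs_mul, abs_of_nonneg (by positivity : 0 ≤ b ^ m / (m : ℝ))]
      rw [h6, h5]
      calc _ ≤ |(HH w b + (∑ j ∈ Finset.range m, b ^ j / j * RR w j +
            b ^ m / m * RR w m)) - HH w b| + |∑ j ∈ Finset.range m, b ^ j / j * RR w j| :=
            abs_sub _ _
        _ ≤ (|(HH w b + (∑ j ∈ Finset.range m, b ^ j / j * RR w j +
            b ^ m / m * RR w m))| + |HH w b|) + |∑ j ∈ Finset.range m, b ^ j / j * RR w j| := by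
            gcongr
            exact abs_sub _ _
        _ ≤ _ := by linarith
    have h5 : m * (δ' * N) = (b ^ m / m) * ((δ / 2) * N) := by
      rw [hδ']; field_simp
    have h6 : N * (2 * b ^ (m + 1)) ≤ (b ^ m / m) * ((δ / 2) * N) := by
      have h7 : N * (2 * b ^ (m + 1)) = (b ^ m / m) * (N * (2 * m * b)) := by
        rw [pow_succ]; field_simp
      rw [h7]
      have h8 : 2 * m * b ≤ δ / 2 := by
        calc 2 * m * b ≤ 2 * m * (δ / (4 * m)) := by gcongr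
          _ = δ / 2 := by field_simp; norm_num
      calc (b ^ m / m) * (N * (2 * m * b)) ≤ (b ^ m / m) * (N * (δ / 2)) := by gcongr
        _ = _ := by ring
    have h7 : (b ^ m / m) * |RR w m| ≤ (b ^ m / m) * (δ * N) := by
      calc _ ≤ _ := h4
        _ ≤ (b ^ m / m) * ((δ / 2) * N) + (b ^ m / m) * ((δ / 2) * N) := by
            rw [h5]
            linarith
        _ = _ := by ring
    exact le_of_mul_le_mul_left h7 (by positivity)

end Pool.Agent.Q75.Sn
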