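import Pool.Agent.Q75.SnB

set_option autoImplicit false
set_option linter.unusedVariables false

open Complex Filter Topology

namespace Pool.Agent.Q75.Sn

open Pool.Agent.H218R3.Sd

/-- the quadratic majorant, real form -/
lemma major_real {a g t X Y : ℝ} (ha : 0 < a) (ha1 : a < 1) (hg : g * a * (1 - a) = 3)
    (ht : 0 ≤ t) (ht1 : t ≤ 2 * a * (1 - a)) (hY : 0 ≤ Y) (h1 : X ^ 2 + Y ≤ 1)
    (h2 : 1 - t ≤ (X - a) ^ 2 + Y) :
    1 / 2 * ((X - a) ^ 2 + Y - 1) ≤ -1 - (g + (1 + a + a ^ 2 / 2)) * X - g * (X ^ 2 - Y)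
      + ((g - 1 / 2) + (g + (1 + a + a ^ 2 / 2) + 2 * g) / (2 * a)) * t := by
  have h1a : 0 < 1 - a := by linarith
  have hg1a : 3 ≤ g * (1 - a) := by
    have h3 : 3 * a ≤ (g * (1 - a)) * a := by nlinarith
    exact le_of_mul_le_mul_right h3 ha
  have hg0 : 3 ≤ g := by
    by_contra hc
    push Not at hc
    have : g * (1 - a) < 3 := by
      by_cases hgn : 0 ≤ g
      · nlinarith
      · push Not at hgn
        nlinarith
    linarith
  set β : ℝ := 1 + a + a ^ 2 / 2 with hβ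
  have hβ1 : 1 ≤ β := by rw [hβ]; nlinarith
  have hβ2 : β ≤ 5 / 2 := by rw [hβ]; nlinarith
  set L : ℝ := (g + β + 2 * g) / (2 * a) with hL
  have hL0 : 0 < L := by positivity
  have hLa : L * (2 * a) = g + β + 2 * g := by
    rw [hL]
    field_simp
  by_cases hX : X ≤ a - 1
  · -- Case B
    have hX1 : -1 ≤ X := by nlinarith
    have e1 : a * (-1 - (g + β) * X - g * (X ^ 2) - 1 / 2 * ((X - a) ^ 2 - 1)) =
        a * ((g + 1 / 2) * ((X + 1) * (a - 1 - X))) +
        (X + 1) * (g * a * (1 - a) - a ^ 2 * (1 + a) / 2) := by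
      rw [hβ]; ring
    have h3 : 0 ≤ (X + 1) * (a - 1 - X) := mul_nonneg (by linarith) (by linarith)
    have h4 : 0 ≤ g * a * (1 - a) - a ^ 2 * (1 + a) / 2 := by
      rw [hg]
      nlinarith
    have h5 : 0 ≤ a * ((g + 1 / 2) * ((X + 1) * (a - 1 - X))) :=
      mul_nonneg ha.le (mul_nonneg (by linarith) h3)
    have h6 : 0 ≤ (X + 1) * (g * a * (1 - a) - a ^ 2 * (1 + a) / 2) :=
      mul_nonneg (by linarith) h4
    have h7 : 0 ≤ -1 - (g + β) * X - g * (X ^ 2) - 1 / 2 * ((X - a) ^ 2 - 1) := by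
      have : 0 ≤ a * (-1 - (g + β) * X - g * (X ^ 2) - 1 / 2 * ((X - a) ^ 2 - 1)) := by
        rw [e1]; linarith
      exact nonneg_of_mul_nonneg_right this ha
    have h8 : 0 ≤ (g - 1 / 2) * Y := mul_nonneg (by linarith) hY
    have h9 : 0 ≤ ((g - 1 / 2) + L) * t := mul_nonneg (by linarith) ht
    nlinarith
  · push Not at hX
    have hXu : X ≤ a / 2 + t / (2 * a) := by
      have h3 : 2 * a * X ≤ a ^ 2 + t := by nlinarith
      have h4 : 2 * a * X ≤ 2 * a * (a / 2 + t / (2 * a)) := by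
        have : 2 * a * (a / 2 + t / (2 * a)) = a ^ 2 + t := by field_simp
        rw [this]; exact h3
      exact le_of_mul_le_mul_left h4 (by positivity)
    -- reduce to T_A
    have h3 : (g - 1 / 2) * (1 - t - (X - a) ^ 2) ≤ (g - 1 / 2) * Y :=
      mul_le_mul_of_nonneg_left (by linarith) (by linarith)
    have key : 0 ≤ (g - 1 - g * a ^ 2) - ((g + β) - 2 * a * g) * X - 2 * g * X ^ 2 + L * t := by
      have hTa2 : 0 ≤ g - 1 - a * (g + β) / 2 - g * a ^ 2 / 2 := by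
        have : g - 1 - a * (g + β) / 2 - g * a ^ 2 / 2 =
          1 / 2 * (g * (1 - a) * (2 + a) - (2 + β * a)) := by ring
        rw [this]
        nlinarith
      by_cases hX2 : X ≤ a / 2
      · -- interpolation
        have e1 : (1 - a / 2) * ((g - 1 - g * a ^ 2) - ((g + β) - 2 * a * g) * X - 2 * g * X ^ 2) =
            (1 - a / 2) * (2 * g * ((X - (a - 1)) * (a / 2 - X))) +
            (a / 2 - X) * ((1 - a) * (g * a + β) - 1) +
            (X - (a - 1)) * (g - 1 - a * (g + β) / 2 - g * a ^ 2 / 2) := by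
          ring
        have h4 : 0 ≤ (X - (a - 1)) * (a / 2 - X) := mul_nonneg (by linarith) (by linarith)
        have h5 : 0 ≤ (1 - a) * (g * a + β) - 1 := by nlinarith
        have h6 : 0 ≤ (1 - a / 2) * (2 * g * ((X - (a - 1)) * (a / 2 - X))) :=
          mul_nonneg (by linarith) (mul_nonneg (by linarith) h4)
        have h7 : 0 ≤ (a / 2 - X) * ((1 - a) * (g * a + β) - 1) :=
          mul_nonneg (by linarith) h5
        have h8 : 0 ≤ (X - (a - 1)) * (g - 1 - a * (g + β) / 2 - g * a ^ 2 / 2) :=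
          mul_nonneg (by linarith) hTa2
        have h9 : 0 ≤ (1 - a / 2) *
            ((g - 1 - g * a ^ 2) - ((g + β) - 2 * a * g) * X - 2 * g * X ^ 2) := by
          rw [e1]; linarith
        have h10 := nonneg_of_mul_nonneg_right h9 (by linarith)
        have h11 : 0 ≤ L * t := mul_nonneg hL0.le ht
        linarith
      · push Not at hX2
        have e1 : (g - 1 - g * a ^ 2) - ((g + β) - 2 * a * g) * X - 2 * g * X ^ 2 =
            (g - 1 - a * (g + β) / 2 - g * a ^ 2 / 2)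
            - (X - a / 2) * (g + β - a * g + 2 * g * X) := by ring
        have hXle1 : X ≤ 1 := by nlinarith
        have h4 : g + β - a * g + 2 * g * X ≤ g + β + 2 * g := by nlinarith
        have h5 : (X - a / 2) * (g + β - a * g + 2 * g * X) ≤ (t / (2 * a)) * (g + β + 2 * g) := by
          have h6 : 0 ≤ g + β + 2 * g := by linarith
          calc _ ≤ (X - a / 2) * (g + β + 2 * g) :=
                mul_le_mul_of_nonneg_left h4 (by linarith)
            _ ≤ (t / (2 * a)) * (g + β + 2 * g) :=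
                mul_le_mul_of_nonneg_right (by linarith) h6
        have h6 : (t / (2 * a)) * (g + β + 2 * g) = L * t := by
          rw [hL]; ring
        rw [e1]
        linarith
    have e2 : -1 - (g + β) * X - g * (X ^ 2 - Y) + ((g - 1 / 2) + L) * t
        - 1 / 2 * ((X - a) ^ 2 + Y - 1) =
        ((g - 1 - g * a ^ 2) - ((g + β) - 2 * a * g) * X - 2 * g * X ^ 2 + L * t)
        + ((g - 1 / 2) * Y - (g - 1 / 2) * (1 - t - (X - a) ^ 2)) := by ring
    linarith

/-- the quadratic majorant, complex form -/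
lemma major {a g t : ℝ} {w : ℂ} (ha : 0 < a) (ha1 : a < 1) (hg : g * a * (1 - a) = 3)
    (ht : 0 ≤ t) (ht1 : t ≤ 2 * a * (1 - a)) (hw : ‖w‖ ≤ 1) (hwa : 1 - t ≤ ‖(a : ℂ) - w‖ ^ 2) :
    1 / 2 * (‖(a : ℂ) - w‖ ^ 2 - 1) ≤ -1 - (g + (1 + a + a ^ 2 / 2)) * w.re - g * (w ^ 2).re
      + ((g - 1 / 2) + (g + (1 + a + a ^ 2 / 2) + 2 * g) / (2 * a)) * t := by
  have e1 : ‖(a : ℂ) - w‖ ^ 2 = (w.re - a) ^ 2 + w.im ^ 2 := by
    rw [sqn]
    simp only [Complex.sub_re, Complex.ofReal_re, Complex.sub_im, Complex.ofReal_im]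
    ring
  have e2 : (w ^ 2).re = w.re ^ 2 - w.im ^ 2 := by
    rw [sq, Complex.mul_re]
    ring
  have h1 : w.re ^ 2 + w.im ^ 2 ≤ 1 := by
    rw [← sqn]
    have := norm_nonneg w
    nlinarith
  rw [e1] at hwa
  rw [e1, e2]
  exact major_real ha ha1 hg ht ht1 (sq_nonneg _) h1 hwa

lemma no_DD_ev {a : ℝ} (ha : 0 < a) (ha1 : a < 1) : Ev a (fun _ _ _ => False) := by
  set g : ℝ := 3 / (a * (1 - a)) with hg
  have h1a : 0 < 1 - a := by linarith
  have hg' : g * a * (1 - a) = 3 := by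
    rw [hg]; field_simp
  have hg0 : 0 < g := by positivity
  set b : ℝ := g + (1 + a + a ^ 2 / 2) with hb
  have hb0 : 0 < b := by positivity
  set K : ℝ := (g - 1 / 2) + (g + (1 + a + a ^ 2 / 2) + 2 * g) / (2 * a) with hK
  set K' : ℝ := |K| + 1 with hK'
  have hK'0 : 0 < K' := by positivity
  set θ : ℝ := 1 / (4 * (b + g)) with hθ
  have hθ0 : 0 < θ := by positivity
  set κ : ℝ := min (2 * a * (1 - a)) (min (1 / (4 * K')) (1 / 4)) with hκ
  have hκ0 : 0 < κ := by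
    rw [hκ]
    exact lt_min (by positivity) (lt_min (by positivity) (by norm_num))
  refine ((L11 ha ha1 1 le_rfl θ hθ0).and (L11 ha ha1 2 (by norm_num) θ hθ0)).mono ?_
  filter_upwards [evN (eventually_gt_atTop 0), rho_ev hκ0,
    evR (show ∀ᶠ r in 𝓝[<] (1 : ℝ), r < 1 from self_mem_nhdsWithin)] with p hN g3 hρ1 z w h hA
  obtain ⟨ρ, N⟩ := p
  simp only at z w h hN g3 hρ1 hA ⊢
  obtain ⟨hρ, hρκ, hρl⟩ := g3
  obtain ⟨hR1, hR2⟩ := hA
  have hNpos : (0 : ℝ) < N := by exact_mod_cast hN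
  have hρ0 : 0 < ρ := by linarith
  set t : ℝ := 1 - ρ ^ 2 with ht
  have ht0 : 0 ≤ t := by rw [ht]; nlinarith
  have ht1 : t ≤ 2 * a * (1 - a) := hρκ.trans (min_le_left _ _)
  have ht2 : t ≤ 1 / (4 * K') := hρκ.trans ((min_le_right _ _).trans (min_le_left _ _))
  have hl : -(1 / 4) ≤ Real.log ρ := by
    have : κ ≤ 1 / 4 := (min_le_right _ _).trans (min_le_right _ _)
    linarith
  have hKt : K * t ≤ 1 / 4 := by
    have h1 : K ≤ K' := by
      rw [hK']
      have := le_abs_self K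
      linarith
    calc K * t ≤ K' * t := mul_le_mul_of_nonneg_right h1 ht0
      _ ≤ K' * (1 / (4 * K')) := mul_le_mul_of_nonneg_left ht2 hK'0.le
      _ = 1 / 4 := by field_simp
  have hk : ∀ k, Real.log ρ ≤ -1 - b * (w k).re - g * (w k ^ 2).re + K * t := by
    intro k
    have h1 : ρ ^ 2 ≤ ‖(a : ℂ) - w k‖ ^ 2 := by
      have := h.hwa k
      gcongr
    have h2 := major ha ha1 hg' ht0 ht1 (h.hw k) (by rw [ht]; linarith)
    refine le_trans ?_ h2
    have h3 : 0 < ‖(a : ℂ) - w k‖ := lt_of_lt_of_le hρ0 (h.hwa k)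
    have h4 : Real.log ρ ≤ Real.log ‖(a : ℂ) - w k‖ := Real.log_le_log hρ0 (h.hwa k)
    have h5 := Real.log_le_sub_one_of_pos (show 0 < ‖(a : ℂ) - w k‖ ^ 2 by positivity)
    rw [Real.log_pow] at h5
    push_cast at h5
    linarith
  have hsum := Finset.sum_le_sum (fun k (_ : k ∈ Finset.univ) => hk k)
  have e1 : ∑ k, (-1 - b * (w k).re - g * (w k ^ 2).re + K * t) =
      -(N : ℝ) - b * RR w 1 - g * RR w 2 + N * (K * t) := by
    unfold RR
    rw [Complex.re_sum, Complex.re_sum, Finset.sum_add_distrib, Finset.sum_sub_distrib,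
      Finset.sum_sub_distrib, ← Finset.mul_sum, ← Finset.mul_sum]
    simp
  rw [e1] at hsum
  simp only [Finset.sum_const, Finset.card_univ, Fintype.card_fin, nsmul_eq_mul] at hsum
  have h1 : -(b * RR w 1) ≤ b * (θ * N) := by
    have := neg_abs_le (RR w 1)
    nlinarith
  have h2 : -(g * RR w 2) ≤ g * (θ * N) := by
    have := neg_abs_le (RR w 2)
    nlinarith
  have h3 : b * (θ * N) + g * (θ * N) = N / 4 := by
    rw [hθ]; field_simp
  have h4 : N * (K * t) ≤ N * (1 / 4) := mul_le_mul_of_nonneg_left hKt hNpos.le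
  have h5 : N * (-(1 / 4)) ≤ N * Real.log ρ := mul_le_mul_of_nonneg_left hl hNpos.le
  linarith

/-- no data for `ρ` close to one and `N` large -/
theorem no_DD {a : ℝ} (ha : 0 < a) (ha1 : a < 1) :
    ∃ ρ : ℝ, 0 < ρ ∧ ρ < 1 ∧ ∃ N₀ : ℕ, ∀ N, N₀ ≤ N → ∀ z w : Fin N → ℂ, ¬ DD a ρ N z w := by
  have h1 := no_DD_ev ha ha1
  unfold Ev FF at h1
  have h2 := h1.curry
  have h3 : ∀ᶠ r in 𝓝[<] (1 : ℝ), r < 1 := self_mem_nhdsWithin
  have h4 : ∀ᶠ r in 𝓝[<] (1 : ℝ), 0 < r :=
    (lt_mem_nhds (by norm_num)).filter_mono nhdsWithin_le_nhds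
  obtain ⟨ρ, h5, h6, h7⟩ := (h2.and (h3.and h4)).exists
  obtain ⟨N₀, hN⟩ := eventually_atTop.mp h5
  exact ⟨ρ, h7, h6, N₀, fun N hNN z w h => hN N hNN z w h⟩

end Pool.Agent.Q75.Sn
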