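import Pool.Agent.Q75.SnC

set_option autoImplicit false
set_option linter.unusedVariables false

open Complex Filter Topology Polynomial

namespace Pool.Agent.Q75.Sn

open Pool.Agent.H218R3.Sd

lemma exists_ofFn (S : Multiset ℂ) : ∃ w : Fin (Multiset.card S) → ℂ,
    S = (List.ofFn w : Multiset ℂ) := by
  obtain ⟨L, hL⟩ := Quot.exists_rep S
  have hL' : (L : Multiset ℂ) = S := hL
  have hlen : Multiset.card S = L.length := by
    rw [← hL', Multiset.coe_card]
  rw [hlen]
  exact ⟨L.get, by rw [List.ofFn_get, hL']⟩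

/-- from a polynomial to the data -/
lemma exists_DD {N : ℕ} {a ρ : ℝ} (P : ℂ[X]) (hdeg : P.natDegree = N + 1)
    (hPa : P.eval (a : ℂ) = 0) (hP : ∀ z : ℂ, P.eval z = 0 → ‖z‖ ≤ 1)
    (hcrit : ∀ ζ : ℂ, (derivative P).eval ζ = 0 → ρ ≤ ‖ζ - (a : ℂ)‖) :
    ∃ z w : Fin N → ℂ, DD a ρ N z w := by
  have hP0 : P ≠ 0 := by
    intro h0
    rw [h0, natDegree_zero] at hdeg
    omega
  have hlc : P.leadingCoeff ≠ 0 := leadingCoeff_ne_zero.mpr hP0
  have hcard : Multiset.card P.roots = N + 1 := by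
    rw [← hdeg]
    exact (splits_iff_card_roots.mp (IsAlgClosed.splits P))
  have hfac := C_leadingCoeff_mul_prod_multiset_X_sub_C (p := P) (by rw [hcard, hdeg])
  have hmem : (a : ℂ) ∈ P.roots := (mem_roots hP0).mpr hPa
  have hcard' : Multiset.card (P.roots.erase (a : ℂ)) = N := by
    rw [Multiset.card_erase_of_mem hmem, hcard]
    rfl
  obtain ⟨z, hz⟩ : ∃ z : Fin N → ℂ, P.roots.erase (a : ℂ) = (List.ofFn z : Multiset ℂ) := by
    have := exists_ofFn (P.roots.erase (a : ℂ))
    rw [hcard'] at this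
    exact this
  have hroots : P.roots = (a : ℂ) ::ₘ (List.ofFn z : Multiset ℂ) := by
    rw [← hz, Multiset.cons_erase hmem]
  set Q : ℂ[X] := (X - C (a : ℂ)) * ∏ j, (X - C (z j)) with hQ
  have hPQ : P = C P.leadingCoeff * Q := by
    conv_lhs => rw [← hfac, hroots]
    rw [hQ, Multiset.map_cons, Multiset.prod_cons, Multiset.map_coe, Multiset.prod_coe,
      List.map_ofFn, List.prod_ofFn]
    rfl
  have hzn : ∀ j, ‖z j‖ ≤ 1 := by
    intro j
    apply hP
    have : z j ∈ P.roots := by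
      rw [hroots, Multiset.mem_cons]
      right
      simp [List.mem_ofFn]
    exact (mem_roots hP0).mp this
  have hQmonic : Q.Monic := (monic_X_sub_C _).mul (monic_prod_of_monic _ _ (fun j _ => monic_X_sub_C _))
  have hQdeg : Q.natDegree = N + 1 := by
    rw [hQ, (monic_X_sub_C _).natDegree_mul (monic_prod_of_monic _ _ (fun j _ => monic_X_sub_C _)),
      natDegree_X_sub_C, natDegree_prod_of_monic _ _ (fun j _ => monic_X_sub_C _)]
    simp [add_comm]
  have hQ0 : Q ≠ 0 := hQmonic.ne_zero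
  have hcoeff : (derivative Q).coeff N = (N + 1 : ℂ) := by
    rw [coeff_derivative]
    have : Q.coeff (N + 1) = 1 := by
      rw [← hQdeg]
      exact hQmonic
    rw [this]
    ring
  have hm1 : (N + 1 : ℂ) ≠ 0 := by exact_mod_cast Nat.succ_ne_zero N
  have hdegd : (derivative Q).natDegree = N := by
    refine natDegree_eq_of_le_of_coeff_ne_zero ?_ (by rw [hcoeff]; exact hm1)
    have := natDegree_derivative_le Q
    rw [hQdeg] at this
    simpa using this
  have hlead : (derivative Q).leadingCoeff = (N + 1 : ℂ) := by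
    rw [leadingCoeff, hdegd, hcoeff]
  have hd0 : derivative Q ≠ 0 := by
    intro h0
    rw [h0, leadingCoeff_zero] at hlead
    exact hm1 hlead.symm
  have hcardd : Multiset.card (derivative Q).roots = N := by
    rw [← hdegd]
    exact (splits_iff_card_roots.mp (IsAlgClosed.splits (derivative Q)))
  have hfacd := C_leadingCoeff_mul_prod_multiset_X_sub_C (p := derivative Q) (by rw [hcardd, hdegd])
  have hPa1 : ‖(a : ℂ)‖ ≤ 1 := hP _ hPa
  -- Gauss-Lucas
  have hGL : ∀ u ∈ (derivative Q).roots, ‖u‖ ≤ 1 := by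
    intro u hu
    have h1 : u ∈ (derivative Q).rootSet ℂ := by
      rw [mem_rootSet]
      refine ⟨hd0, ?_⟩
      have := (mem_roots hd0).mp hu
      simpa [IsRoot] using this
    have h2 : 0 < Q.degree := by
      rw [degree_eq_natDegree hQ0, hQdeg]
      exact_mod_cast Nat.succ_pos N
    have h3 := rootSet_derivative_subset_convexHull_rootSet h2 h1
    have h4 : Q.rootSet ℂ ⊆ Metric.closedBall (0 : ℂ) 1 := by
      intro v hv
      rw [mem_rootSet] at hv
      have h5 : Q.eval v = 0 := by simpa using hv.2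
      rw [hQ, eval_mul, eval_prod, mul_eq_zero, Finset.prod_eq_zero_iff] at h5
      rw [mem_closedBall_zero_iff]
      rcases h5 with h5 | ⟨j, _, h5⟩
      · simp only [eval_sub, eval_X, eval_C] at h5
        rw [sub_eq_zero.mp h5]
        exact hPa1
      · simp only [eval_sub, eval_X, eval_C] at h5
        rw [sub_eq_zero.mp h5]
        exact hzn j
    have h5 := convexHull_min h4 (convex_closedBall (0 : ℂ) 1) h3
    rwa [mem_closedBall_zero_iff] at h5
  -- list the roots
  obtain ⟨w, hw⟩ : ∃ w : Fin N → ℂ, (derivative Q).roots = (List.ofFn w : Multiset ℂ) := by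
    have := exists_ofFn (derivative Q).roots
    rw [hcardd] at this
    exact this
  have hwmem : ∀ k, w k ∈ (derivative Q).roots := by
    intro k
    rw [hw]
    simp [List.mem_ofFn]
  refine ⟨z, w, ⟨hzn, fun k => hGL _ (hwmem k), ?_, ?_⟩⟩
  · intro k
    rw [norm_sub_rev]
    apply hcrit
    have h1 : (derivative Q).eval (w k) = 0 := (mem_roots hd0).mp (hwmem k)
    rw [hPQ, derivative_mul, derivative_C, zero_mul, zero_add, eval_mul, h1, mul_zero]
  · intro ζ
    have h1 := Q.hasDerivAt ζ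
    have h2 : (fun x => Q.eval x) = fun ζ : ℂ => (ζ - a) * ∏ j, (ζ - z j) := by
      funext x
      rw [hQ, eval_mul, eval_prod]
      simp
    have h3 : (derivative Q).eval ζ = (N + 1 : ℂ) * ∏ k, (ζ - w k) := by
      rw [← hfacd, hlead, hw]
      rw [eval_mul, eval_C, Multiset.map_coe, Multiset.prod_coe, List.map_ofFn, List.prod_ofFn,
        eval_prod]
      simp
    rw [h3] at h1
    rw [← h2]
    exact h1

/-- uniform version for polynomials -/
theorem main_poly {a : ℝ} (ha : 0 < a) (ha1 : a < 1) :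
    ∃ ε : ℝ, 0 < ε ∧ ε < 1 ∧ ∃ n₀ : ℕ, ∀ n, n₀ ≤ n → ∀ P : ℂ[X], P.natDegree = n →
      P.eval (a : ℂ) = 0 → (∀ z : ℂ, P.eval z = 0 → ‖z‖ ≤ 1) →
      ∃ ζ : ℂ, (derivative P).eval ζ = 0 ∧ ‖ζ - (a : ℂ)‖ ≤ 1 - ε := by
  obtain ⟨ρ, h0, h1, N₀, hN⟩ := no_DD ha ha1
  refine ⟨1 - ρ, by linarith, by linarith, N₀ + 1, ?_⟩
  intro n hn P hdeg hPa hP
  by_contra hc
  push Not at hc
  obtain ⟨N, rfl⟩ : ∃ N, n = N + 1 := ⟨n - 1, by omega⟩
  obtain ⟨z, w, h⟩ := exists_DD (ρ := ρ) P hdeg hPa hP (fun ζ hζ => by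
    have := hc ζ hζ
    linarith)
  exact hN N (by omega) z w h

end Pool.Agent.Q75.Sn
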